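import Mathlib

set_option autoImplicit false

/-!
TEAM TWOTORSION, `n = 5`: the part of an integer at the primes which divide another one.
-/

namespace Pool.TT.Five

/-- the part of `a` at the primes which divide `b` -/
def wpart (a b : ℤ) : ℕ := Nat.gcd a.natAbs (b.natAbs ^ a.natAbs)

theorem wpart_dvd (a b : ℤ) : (wpart a b : ℤ) ∣ a :=
  Int.natCast_dvd.2 (Nat.gcd_dvd_left _ _)

theorem wpart_ne_zero {a : ℤ} (b : ℤ) (ha : a ≠ 0) : wpart a b ≠ 0 :=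
  (Nat.gcd_pos_of_pos_left _ (Int.natAbs_pos.2 ha)).ne'

theorem wpart_pos {a : ℤ} (b : ℤ) (ha : a ≠ 0) : 0 < wpart a b :=
  Nat.pos_of_ne_zero (wpart_ne_zero b ha)

theorem prime_dvd_of_dvd_wpart {a b : ℤ} {p : ℕ} (hp : p.Prime) (h : p ∣ wpart a b) :
    (p : ℤ) ∣ a ∧ (p : ℤ) ∣ b := by
  constructor
  · exact Int.natCast_dvd.2 (h.trans (Nat.gcd_dvd_left _ _))
  · exact Int.natCast_dvd.2 (hp.dvd_of_dvd_pow (h.trans (Nat.gcd_dvd_right _ _)))

/-- `wpart a b` contains the full power of every prime that divides `b` -/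
theorem pow_dvd_wpart {a b : ℤ} (ha : a ≠ 0) {p k : ℕ} (hp : p.Prime) (hb : (p : ℤ) ∣ b)
    (h : p ^ k ∣ a.natAbs) : p ^ k ∣ wpart a b := by
  apply Nat.dvd_gcd h
  have ha' : 0 < a.natAbs := Int.natAbs_pos.2 ha
  have h1 : k ≤ a.natAbs :=
    ((Nat.lt_pow_self hp.one_lt).le).trans (Nat.le_of_dvd ha' h)
  have h2 : p ∣ b.natAbs := Int.natCast_dvd.1 hb
  exact (pow_dvd_pow p h1).trans (pow_dvd_pow_of_dvd h2 _)

/-- the rest of `a` is coprime to `wpart a b` and to `b` -/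
theorem wpart_coprime {a b : ℤ} (ha : a ≠ 0) :
    IsCoprime (a / (wpart a b : ℤ)) ((wpart a b : ℤ) * b) := by
  set w := wpart a b with hw
  have hwz : (w : ℤ) ≠ 0 := by exact_mod_cast wpart_ne_zero b ha
  obtain ⟨q, hq⟩ := wpart_dvd a b
  rw [← hw] at hq
  have hq' : a / (w : ℤ) = q := by rw [hq, Int.mul_ediv_cancel_left _ hwz]
  rw [hq', Int.isCoprime_iff_gcd_eq_one]
  by_contra hne
  obtain ⟨p, hp, hpd⟩ := Nat.exists_prime_and_dvd hne
  have h1 : (p : ℤ) ∣ q := (Int.natCast_dvd_natCast.2 hpd).trans (Int.gcd_dvd_left _ _)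
  have h2 : (p : ℤ) ∣ (w : ℤ) * b := (Int.natCast_dvd_natCast.2 hpd).trans (Int.gcd_dvd_right _ _)
  have h3 : (p : ℤ) ∣ b := by
    rcases Int.Prime.dvd_mul' hp h2 with h | h
    · exact (prime_dvd_of_dvd_wpart hp (Int.natCast_dvd_natCast.1 h)).2
    · exact h
  have ha' : a.natAbs ≠ 0 := (Int.natAbs_pos.2 ha).ne'
  haveI : Fact p.Prime := ⟨hp⟩
  set k := padicValNat p a.natAbs with hk
  have h4 : p ^ k ∣ w := pow_dvd_wpart ha hp h3 pow_padicValNat_dvd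
  have h5 : p ^ (k + 1) ∣ a.natAbs := by
    have h6 : (p : ℤ) ^ (k + 1) ∣ (w : ℤ) * q := by
      rw [pow_succ]
      exact mul_dvd_mul (by exact_mod_cast Int.natCast_dvd_natCast.2 h4) h1
    rw [← hq] at h6
    have h7 : ((p ^ (k + 1) : ℕ) : ℤ) ∣ a := by push_cast; exact h6
    exact Int.natCast_dvd.1 h7
  exact pow_succ_padicValNat_not_dvd ha' h5

end Pool.TT.Five
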