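import Pool.Agent.Lib.MP_695920_nt.TT.BadMain
import Pool.Agent.Lib.MP_695920_nt.TT.Five.WPart

set_option autoImplicit false

/-!
TEAM TWOTORSION, `n = 5`: the number of bad integral points, with the full part `w` of `2 y` at
the primes dividing `f'(x)` in place of the greatest common divisor.
-/

namespace Pool.TT.Five

open Polynomial Pool.Agent.Lib.MP_695920_nt.TT

/-- the number of possible values of `w` -/
theorem card_w_le {ε K1 : ℝ} (hε : 0 < ε)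
    (h1 : ∀ m : ℕ, m ≠ 0 → ((1 - (2 : ℝ) ^ (-ε))⁻¹) ^ m.primeFactors.card ≤ K1 * (m : ℝ) ^ ε)
    {N0 : ℕ} (hN0 : N0 ≠ 0) {x : ℝ} (hx : 0 ≤ x) (F : Finset ℕ)
    (hF : ∀ r ∈ F, r ≠ 0 ∧ (r : ℝ) ≤ x ∧ ∀ p : ℕ, p.Prime → p ∣ r → p ∣ N0) :
    (F.card : ℝ) ≤ x ^ ε * (K1 * (N0 : ℝ) ^ ε) :=
  (Pool.Agent.Lib.MP_695920_nt.card_factored_le hN0 ε hε x hx F hF).trans
    (mul_le_mul_of_nonneg_left (h1 N0 hN0) (by positivity))

theorem bad_card_w {n : ℕ} (hn0 : 0 < n) {ε K1 K2 K3 : ℝ} (hε : 0 < ε) (hK1 : 0 < K1)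
    (h1 : ∀ m : ℕ, m ≠ 0 → ((1 - (2 : ℝ) ^ (-ε))⁻¹) ^ m.primeFactors.card ≤ K1 * (m : ℝ) ^ ε)
    (hK2 : 0 < K2)
    (h2 : ∀ m : ℕ, m ≠ 0 → (n : ℝ) ^ m.primeFactors.card ≤ K2 * (m : ℝ) ^ ε)
    (hK3 : 0 < K3) (hbp : BPBound n ε K3) (f : ℤ[X])
    (hf : f.Monic) (hfn : f.natDegree = n) (hsep : (f.map (Int.castRingHom ℚ)).Separable)
    {R L : ℝ} (hR : 1 ≤ R) (hL : 1 ≤ L)
    (hroots : ∀ z : ℂ, (f.map (Int.castRingHom ℂ)).IsRoot z → ‖z‖ ≤ R) (P : Finset ℤ)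
    (hP : ∀ x ∈ P, |(x : ℝ)| ≤ R ∧ ∃ y : ℤ, 0 < y ∧ y ^ 2 = f.eval x ∧
      2 * (y : ℝ) ≤ L * (wpart (2 * y) (f.derivative.eval x) : ℝ)) :
    (P.card : ℝ) ≤ K1 * n * K2 * K3 * √2 * (2 * R) ^ (ε * (n * n + 4 * n + 5)) *
      L ^ (1 / (n : ℝ)) := by
  classical
  have hnr : (0 : ℝ) < n := by exact_mod_cast hn0
  obtain ⟨a, b, D, hD0, hab, hD⟩ := disc_bound hn0 f hf hfn hsep hR hroots
  set W : ℝ := 2 * R with hW
  have hW2 : 2 ≤ W := by linarith
  have hW1 : 1 ≤ W := by linarith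
  set N0 : ℕ := (4 * D).natAbs with hN0
  have hN00 : N0 ≠ 0 := Int.natAbs_ne_zero.2 (mul_ne_zero (by norm_num) hD0)
  have hN0W : (N0 : ℝ) ≤ W ^ (n * n + 2) := by
    have e1 : (N0 : ℝ) = |((4 * D : ℤ) : ℝ)| := by
      rw [hN0, Nat.cast_natAbs, Int.cast_abs]
    rw [e1, Int.cast_mul, abs_mul, pow_add]
    push_cast
    rw [abs_of_pos (by norm_num : (0 : ℝ) < 4), mul_comm]
    apply mul_le_mul hD _ (by norm_num) (by positivity)
    nlinarith
  have hs : ∀ x : ℤ, ∃ y : ℤ, x ∈ P → (0 < y ∧ y ^ 2 = f.eval x ∧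
      2 * (y : ℝ) ≤ L * (wpart (2 * y) (f.derivative.eval x) : ℝ)) := by
    intro x
    by_cases hx : x ∈ P
    · obtain ⟨y, hy⟩ := (hP x hx).2
      exact ⟨y, fun _ => hy⟩
    · exact ⟨0, fun h => absurd h hx⟩
  choose y hy using hs
  set Y : ℝ := W ^ n with hY
  have hY1 : 1 ≤ Y := one_le_pow₀ hW1
  let G : ℤ → ℕ := fun x => wpart (2 * y x) (f.derivative.eval x)
  have hGle : ∀ x ∈ P, (G x : ℝ) ≤ W ^ (n + 1) := by
    intro x hx
    have hy0 := (hy x hx).1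
    have e1 : G x ≤ (2 * y x).natAbs :=
      Nat.le_of_dvd (Int.natAbs_pos.2 (by omega)) (Nat.gcd_dvd_left _ _)
    have e2 : (G x : ℤ) ≤ 2 * y x := by
      have : ((2 * y x).natAbs : ℤ) = 2 * y x := by
        rw [Int.natCast_natAbs, abs_of_pos (by omega)]
      rw [← this]
      exact_mod_cast e1
    have e3 : (G x : ℝ) ≤ 2 * y x := by exact_mod_cast e2
    have e4 : (y x : ℝ) ^ 2 ≤ W ^ n := by
      have e5 := abs_eval_le f hf hfn hR hroots (hP x hx).1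
      rw [← (hy x hx).2.1] at e5
      push_cast at e5
      rw [abs_of_nonneg (by positivity)] at e5
      exact e5
    have e6 : (1 : ℝ) ≤ y x := by exact_mod_cast hy0
    have e7 : (y x : ℝ) ≤ W ^ n := by nlinarith
    calc (G x : ℝ) ≤ 2 * y x := e3
      _ ≤ 2 * W ^ n := by linarith
      _ ≤ W ^ (n + 1) := by
          rw [pow_succ]
          nlinarith
  have hG : ∀ x ∈ P, G x ≠ 0 ∧ (G x : ℝ) ≤ W ^ (n + 1) ∧
      ∀ p : ℕ, p.Prime → p ∣ G x → p ∣ N0 := by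
    intro x hx
    refine ⟨wpart_ne_zero _ (by have := (hy x hx).1; omega), hGle x hx, fun p hp hpG => ?_⟩
    obtain ⟨e1, e2⟩ := prime_dvd_of_dvd_wpart hp hpG
    have e3 : (p : ℤ) ∣ 4 * D := by
      have e4 := congrArg (Polynomial.eval x) hab
      simp only [eval_add, eval_mul, eval_C] at e4
      have e5 : 4 * D = (2 * y x) * (2 * y x * a.eval x) + f.derivative.eval x * (4 * b.eval x) := by
        have e6 := (hy x hx).2.1
        rw [← e6] at e4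
        linear_combination -4 * e4
      rw [e5]
      exact dvd_add (e1.mul_right _) (e2.mul_right _)
    rw [hN0]
    exact Int.natCast_dvd.1 e3
  have hL1 : 1 ≤ L ^ (2 / (n : ℝ)) := Real.one_le_rpow hL (by positivity)
  set Bd : ℝ := n * (K2 * W ^ (ε * (2 * (n + 1)))) *
      (K3 * √(2 * L ^ (2 / (n : ℝ))) * Y ^ ε) with hBd
  have hBd0 : 0 ≤ Bd := by positivity
  have hone : ∀ g ∈ P.image G, ((P.filter fun x => G x = g).card : ℝ) ≤ Bd := by
    intro g hg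
    obtain ⟨x0, hx0, hx0g⟩ := Finset.mem_image.1 hg
    have hg0 : g ≠ 0 := by rw [← hx0g]; exact (hG x0 hx0).1
    have hgN : (g : ℝ) ≤ W ^ (n + 1) := by rw [← hx0g]; exact hGle x0 hx0
    obtain ⟨H, hH0, hH1, hH2, hH3⟩ := exists_large_divisor hg0
    have e1 := gcd_card hn0 hK3 hbp f hf hfn hL hY1 hH0 hH2 hH3 (P.filter fun x => G x = g) (by
      intro x hx
      obtain ⟨hx1, hx2⟩ := Finset.mem_filter.1 hx
      refine ⟨?_, y x, (hy x hx1).1, (hy x hx1).2.1, ?_, ?_⟩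
      · exact abs_eval_le f hf hfn hR hroots (hP x hx1).1
      · rw [← hx2]
        exact wpart_dvd _ _
      · rw [← hx2]
        have := (hy x hx1).2.2
        rw [mul_comm L] at this
        exact this)
    refine e1.trans ?_
    rw [hBd]
    apply mul_le_mul_of_nonneg_right _ (by positivity)
    apply mul_le_mul_of_nonneg_left _ hnr.le
    push_cast
    refine (h2 H hH0).trans (mul_le_mul_of_nonneg_left ?_ hK2.le)
    have e2 : (H : ℝ) ≤ W ^ (2 * (n + 1)) := by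
      calc (H : ℝ) ≤ ((g ^ 2 : ℕ) : ℝ) := by exact_mod_cast hH1
        _ = (g : ℝ) ^ 2 := by push_cast; ring
        _ ≤ (W ^ (n + 1)) ^ 2 := pow_le_pow_left₀ (Nat.cast_nonneg _) hgN 2
        _ = _ := by rw [← pow_mul]; ring_nf
    calc (H : ℝ) ^ ε ≤ (W ^ (2 * (n + 1))) ^ ε :=
          Real.rpow_le_rpow (Nat.cast_nonneg _) e2 hε.le
      _ = W ^ (ε * (2 * (n + 1))) := by
          rw [← Real.rpow_natCast, ← Real.rpow_mul (by linarith)]
          congr 1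
          push_cast
          ring
  have hsub : P ⊆ (P.image G).biUnion fun g => P.filter fun x => G x = g := by
    intro x hx
    exact Finset.mem_biUnion.2 ⟨G x, Finset.mem_image_of_mem _ hx, Finset.mem_filter.2 ⟨hx, rfl⟩⟩
  have hsum : (P.card : ℝ) ≤ ((P.image G).card : ℝ) * Bd := by
    calc (P.card : ℝ) ≤ ((∑ g ∈ P.image G, (P.filter fun x => G x = g).card : ℕ) : ℝ) := by
          exact_mod_cast (Finset.card_le_card hsub).trans Finset.card_biUnion_le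
      _ ≤ ∑ _g ∈ P.image G, Bd := by
          push_cast
          exact Finset.sum_le_sum hone
      _ = _ := by rw [Finset.sum_const, nsmul_eq_mul]
  have hdiv : ((P.image G).card : ℝ) ≤ W ^ (ε * (n + 1)) * (K1 * W ^ (ε * (n * n + 2))) := by
    have e1 := card_w_le hε h1 hN00 (x := W ^ (n + 1)) (by positivity) (P.image G) (by
      intro r hr
      obtain ⟨x, hx, rfl⟩ := Finset.mem_image.1 hr
      exact hG x hx)
    have e2 : (W ^ (n + 1)) ^ ε = W ^ (ε * (n + 1)) := by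
      rw [← Real.rpow_natCast, ← Real.rpow_mul (by linarith)]
      congr 1
      push_cast
      ring
    have e3 : (N0 : ℝ) ^ ε ≤ W ^ (ε * (n * n + 2)) := by
      calc (N0 : ℝ) ^ ε ≤ (W ^ (n * n + 2)) ^ ε :=
            Real.rpow_le_rpow (Nat.cast_nonneg _) hN0W hε.le
        _ = W ^ (ε * (n * n + 2)) := by
            rw [← Real.rpow_natCast, ← Real.rpow_mul (by linarith)]
            congr 1
            push_cast
            ring
    rw [e2] at e1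
    exact e1.trans (mul_le_mul_of_nonneg_left (mul_le_mul_of_nonneg_left e3 hK1.le)
      (by positivity))
  refine hsum.trans ((mul_le_mul_of_nonneg_right hdiv hBd0).trans (le_of_eq ?_))
  have e1 : √(2 * L ^ (2 / (n : ℝ))) = √2 * L ^ (1 / (n : ℝ)) := by
    rw [Real.sqrt_mul (by norm_num), Real.sqrt_eq_rpow (L ^ (2 / (n : ℝ))),
      ← Real.rpow_mul (by linarith)]
    congr 2
    field_simp
  have e2 : Y ^ ε = W ^ (ε * n) := by
    rw [hY, ← Real.rpow_natCast, ← Real.rpow_mul (by linarith)]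
    congr 1
    ring
  have e3 : W ^ (ε * ((n : ℝ) * n + 4 * n + 5)) =
      W ^ (ε * ((n : ℝ) + 1)) * (W ^ (ε * ((n : ℝ) * n + 2)) *
        (W ^ (ε * (2 * ((n : ℝ) + 1))) * W ^ (ε * n))) := by
    rw [← Real.rpow_add (by linarith), ← Real.rpow_add (by linarith),
      ← Real.rpow_add (by linarith)]
    congr 1
    ring
  rw [hBd, e1, e2, e3]
  ring

/-- `A ^ ω(m) ≤ C m ^ ε` for the number `A = 1 / (1 - 2 ^ (-ε))` -/
theorem exists_K1 {ε : ℝ} (hε : 0 < ε) : ∃ K1 : ℝ, 0 < K1 ∧ ∀ m : ℕ, m ≠ 0 →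
    ((1 - (2 : ℝ) ^ (-ε))⁻¹) ^ m.primeFactors.card ≤ K1 * (m : ℝ) ^ ε := by
  apply Pool.Agent.Lib.MP_695920_nt.pow_omega_le _ _ ε hε
  have h2e : (2 : ℝ) ^ (-ε) < 1 :=
    Real.rpow_lt_one_of_one_lt_of_neg (by norm_num) (by linarith)
  have h2e' : 0 < (2 : ℝ) ^ (-ε) := by positivity
  apply one_le_inv_iff₀.2
  constructor <;> linarith

/-- **The bad points.** All constants depend only on `n` and `ε`. -/
theorem bad_points_w (n : ℕ) (hn : Odd n) {ε : ℝ} (hε : 0 < ε) : ∃ C0 : ℝ, 0 < C0 ∧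
    ∀ f : ℤ[X], f.Monic → f.natDegree = n → (f.map (Int.castRingHom ℚ)).Separable →
    ∀ R L : ℝ, 1 ≤ R → 1 ≤ L →
    (∀ z : ℂ, (f.map (Int.castRingHom ℂ)).IsRoot z → ‖z‖ ≤ R) → ∀ P : Finset ℤ,
    (∀ x ∈ P, |(x : ℝ)| ≤ R ∧ ∃ y : ℤ, 0 < y ∧ y ^ 2 = f.eval x ∧
      2 * (y : ℝ) ≤ L * (wpart (2 * y) (f.derivative.eval x) : ℝ)) →
    (P.card : ℝ) ≤ C0 * R ^ ε * L ^ (1 / (n : ℝ)) := by
  have hn0 : 0 < n := hn.pos
  have hnr : (0 : ℝ) < n := by exact_mod_cast hn0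
  have hc : (0 : ℝ) < n * n + 4 * n + 5 := by positivity
  set δ : ℝ := ε / (n * n + 4 * n + 5) with hδ
  have hδ0 : 0 < δ := by positivity
  have hδe : δ * (n * n + 4 * n + 5) = ε := div_mul_cancel₀ _ hc.ne'
  obtain ⟨K1, hK1, h1⟩ := exists_K1 hδ0
  obtain ⟨K2, hK2, h2⟩ := Pool.Agent.Lib.MP_695920_nt.pow_omega_le (n : ℝ)
    (by exact_mod_cast hn0) δ hδ0
  obtain ⟨K3, hK3, h3⟩ := bp n hn hδ0
  refine ⟨K1 * n * K2 * K3 * √2 * 2 ^ ε, by positivity, ?_⟩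
  intro f hf hfn hsep R L hR hL hroots P hP
  have := bad_card_w hn0 hδ0 hK1 h1 hK2 h2 hK3 h3 f hf hfn hsep hR hL hroots P hP
  rw [hδe, Real.mul_rpow (by norm_num) (by linarith)] at this
  refine this.trans (le_of_eq ?_)
  ring

end Pool.TT.Five
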