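import Pool.Agent.Lib.MP_695920_nt.TT.Five.Cls

set_option autoImplicit false

/-!
TEAM TWOTORSION, `n = 5`: interface between the bound for one class of good points (N7) and the
bound for all points on a line (N8).
-/

open Polynomial NumberField Module

namespace Pool.TT.Five

/-- **The bound for one class.** `X = D ^ (1 / n)`, `D = |disc K|`, `h = #Cl(K)[2]`; the points
of the class have `2 y / w ≥ X ^ ((n - s) / 2)`, all roots of `f` have distance at least `r` from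
the centre, and the points have distance at most `r / (C D ^ ε h ^ ε)` from the centre. -/
def ClassBound (n : ℕ) (s σ : ℝ) : Prop :=
  ∀ c ε : ℝ, 1 ≤ c → 0 < ε → ∃ C : ℝ, 1 ≤ C ∧
    ∀ (K : Type) [Field K] [NumberField K], finrank ℚ K = n →
    ∀ (θ : 𝓞 K) (N : ℕ) (P : Pts (Fin N)) (Q : ClassData P) (r : ℝ),
      minpoly ℤ θ = P.f0 → P.f0.natDegree = n →
      (∀ z : ℂ, (P.f0.map (Int.castRingHom ℂ)).IsRoot z →
        ‖z‖ ≤ c * |(discr K : ℝ)| ^ ((1 : ℝ) / n)) →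
      (∀ i, |(P.x i : ℝ)| ≤ c * |(discr K : ℝ)| ^ ((1 : ℝ) / n)) →
      (∀ i, (|(discr K : ℝ)| ^ ((1 : ℝ) / n)) ^ (((n : ℝ) - s) / 2) * Q.w ≤ 2 * P.y i) →
      (∀ z : ℂ, (P.f0.map (Int.castRingHom ℂ)).IsRoot z → r ≤ ‖(P.x Q.c : ℂ) - z‖) →
      2 * (Q.w : ℝ) ^ 3 ≤ r →
      (∀ i, |(P.x i : ℝ) - P.x Q.c| * (C * |(discr K : ℝ)| ^ ε *
        (Nat.card {x : ClassGroup (𝓞 K) // x ^ 2 = 1} : ℝ) ^ ε) ≤ r) →
      (N : ℝ) ≤ C * (Nat.card {x : ClassGroup (𝓞 K) // x ^ 2 = 1} : ℝ) ^ σ *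
        |(discr K : ℝ)| ^ ε

end Pool.TT.Five
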