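import Mathlib

set_option autoImplicit false

/-!
TEAM TWOTORSION, n = 5: the holomorphic square root of a polynomial on a disc without roots.
-/

open Polynomial

namespace Pool.TTF

private theorem branch_pos {ρ : ℝ} {f : ℝ → ℝ} (hf : ContinuousOn f (Set.Ioo (-ρ) ρ))
    (hne : ∀ t ∈ Set.Ioo (-ρ) ρ, f t ≠ 0) {a : ℝ} (ha : a ∈ Set.Ioo (-ρ) ρ) (hfa : 0 < f a) :
    ∀ t ∈ Set.Ioo (-ρ) ρ, 0 < f t := by
  intro t ht
  by_contra hcon
  push Not at hcon
  obtain ⟨x, hx, hx0⟩ := isPreconnected_Ioo.intermediate_value ht ha hf ⟨hcon, hfa.le⟩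
  exact hne x hx hx0

private theorem branch_exp {P : ℂ[X]} {ρ : ℝ} (hρ : 0 < ρ)
    (hne : ∀ z ∈ Metric.ball (0 : ℂ) ρ, P.eval z ≠ 0) :
    ∃ H : ℂ → ℂ, DifferentiableOn ℂ H (Metric.ball 0 ρ) ∧ H 0 = 0 ∧
      ∀ z ∈ Metric.ball (0 : ℂ) ρ, P.eval z = P.eval 0 * Complex.exp (H z) := by
  have h0 : (0 : ℂ) ∈ Metric.ball (0 : ℂ) ρ := Metric.mem_ball_self hρ
  have hq : DifferentiableOn ℂ (fun z => P.derivative.eval z / P.eval z) (Metric.ball 0 ρ) :=
    P.derivative.differentiable.differentiableOn.div P.differentiable.differentiableOn hne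
  obtain ⟨H, hH0, hH⟩ := (DifferentiableOn.isExactOn_ball hq).with_val_at 0 0
  refine ⟨H, fun z hz => (hH z hz).differentiableAt.differentiableWithinAt, hH0, ?_⟩
  have hpre : IsPreconnected (Metric.ball (0 : ℂ) ρ) := (convex_ball 0 ρ).isPreconnected
  have hder : ∀ z ∈ Metric.ball (0 : ℂ) ρ,
      HasDerivAt (fun z => P.eval z * Complex.exp (-(H z))) 0 z := by
    intro z hz
    have e3 := (P.hasDerivAt z).mul ((hH z hz).neg).cexp
    refine e3.congr_deriv ?_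
    have := hne z hz
    field_simp
    ring
  intro z hz
  have e4 := Metric.isOpen_ball.is_const_of_deriv_eq_zero hpre
    (f := fun z => P.eval z * Complex.exp (-(H z)))
    (fun z hz => (hder z hz).differentiableAt.differentiableWithinAt)
    (fun z hz => (hder z hz).deriv) hz h0
  simp only [hH0, neg_zero, Complex.exp_zero, mul_one] at e4
  rw [← e4, mul_assoc, ← Complex.exp_add, neg_add_cancel, Complex.exp_zero, mul_one]

private theorem branch_real {z : ℂ} {c : ℝ} (hc : 0 < c) (h : z ^ 2 = (c : ℂ)) :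
    z.im = 0 ∧ z.re ≠ 0 := by
  have h1 := congrArg Complex.re h
  have h2 := congrArg Complex.im h
  rw [sq, Complex.mul_re, Complex.ofReal_re] at h1
  rw [sq, Complex.mul_im, Complex.ofReal_im] at h2
  have h3 : z.re ≠ 0 := by
    intro h0
    rw [h0] at h1
    nlinarith [mul_self_nonneg z.im]
  refine ⟨?_, h3⟩
  have h4 : z.re * z.im = 0 := by linarith
  rcases mul_eq_zero.mp h4 with h5 | h5
  · exact absurd h5 h3
  · exact h5

/-- Proof: `F = lc ∏ (X - θ_k)`, `h(t) = sqrt(F(0)) ∏ (1 - t / θ_k) ^ (1/2)` with principal branches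
(`1 - t / θ_k` has positive real part), or `exp` of half a primitive of `F' / F` (discs have
primitives in Mathlib). On the real diameter `F` has no zeros, so `F > 0` (intermediate value
theorem), `h` is continuous, `h ^ 2 = F > 0`, so `h` is real without zeros and positive, because
`h 0 > 0`. -/
theorem exists_branch (F : ℤ[X]) (ρ : ℝ) (hρ : 0 < ρ)
    (hroot : ∀ z : ℂ, (F.map (Int.castRingHom ℂ)).IsRoot z → ρ ≤ ‖z‖)
    (h0 : ∃ t : ℤ, |(t : ℝ)| < ρ ∧ 0 < F.eval t) :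
    ∃ h : ℂ → ℂ, DifferentiableOn ℂ h (Metric.ball 0 ρ) ∧
      (∀ t ∈ Metric.ball (0 : ℂ) ρ, h t ^ 2 = (F.map (Int.castRingHom ℂ)).eval t) ∧
      (∀ t ∈ Metric.ball (0 : ℂ) ρ, h t ≠ 0) ∧
      ∀ (t y : ℤ), |(t : ℝ)| < ρ → 0 < y → y ^ 2 = F.eval t → h (t : ℂ) = (y : ℂ) := by
  set P : ℂ[X] := F.map (Int.castRingHom ℂ) with hP
  have hne : ∀ z ∈ Metric.ball (0 : ℂ) ρ, P.eval z ≠ 0 := by
    intro z hz hz0
    have := hroot z hz0
    rw [mem_ball_zero_iff] at hz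
    linarith
  have hball : ∀ t ∈ Set.Ioo (-ρ) ρ, ((t : ℝ) : ℂ) ∈ Metric.ball (0 : ℂ) ρ := by
    intro t ht
    rw [mem_ball_zero_iff, Complex.norm_real, Real.norm_eq_abs]
    exact abs_lt.mpr ht
  -- the real polynomial
  set R : ℝ[X] := F.map (Int.castRingHom ℝ) with hR
  have hPR : ∀ t : ℝ, P.eval (t : ℂ) = ((R.eval t : ℝ) : ℂ) := by
    intro t
    have e1 : P = R.map (algebraMap ℝ ℂ) := by
      rw [hP, hR, Polynomial.map_map]
      congr 1
    rw [e1, Polynomial.eval_map_algebraMap]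
    exact Polynomial.aeval_algebraMap_apply_eq_algebraMap_eval t R
  have hRint : ∀ t : ℤ, R.eval (t : ℝ) = ((F.eval t : ℤ) : ℝ) := by
    intro t
    rw [hR]
    exact Polynomial.eval_intCast_map (Int.castRingHom ℝ) F t
  have hRne : ∀ t ∈ Set.Ioo (-ρ) ρ, R.eval t ≠ 0 := by
    intro t ht h1
    have h2 := hne _ (hball t ht)
    rw [hPR, h1] at h2
    exact h2 Complex.ofReal_zero
  obtain ⟨t₀, ht₀, hpos₀⟩ := h0
  have hRpos : ∀ t ∈ Set.Ioo (-ρ) ρ, 0 < R.eval t := by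
    refine branch_pos R.continuous.continuousOn hRne (a := (t₀ : ℝ)) (abs_lt.mp ht₀) ?_
    rw [hRint]
    exact_mod_cast hpos₀
  have hzero : (0 : ℝ) ∈ Set.Ioo (-ρ) ρ := ⟨by linarith, hρ⟩
  obtain ⟨H, hHd, hH0, hH⟩ := branch_exp hρ hne
  set c : ℝ := √(R.eval 0) with hc
  have hc0 : 0 < c := Real.sqrt_pos.mpr (hRpos 0 hzero)
  have hc2 : (c : ℂ) ^ 2 = P.eval 0 := by
    have e1 : P.eval 0 = ((R.eval 0 : ℝ) : ℂ) := by
      have := hPR 0
      rwa [Complex.ofReal_zero] at this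
    rw [e1, hc, ← Complex.ofReal_pow, Real.sq_sqrt (hRpos 0 hzero).le]
  set h : ℂ → ℂ := fun z => c * Complex.exp (H z / 2) with hh
  have hhd : DifferentiableOn ℂ h (Metric.ball 0 ρ) := by
    have e1 : DifferentiableOn ℂ (fun z => H z / 2) (Metric.ball 0 ρ) := hHd.div_const 2
    exact (e1.cexp).const_mul (c : ℂ)
  have hsq : ∀ t ∈ Metric.ball (0 : ℂ) ρ, h t ^ 2 = P.eval t := by
    intro t ht
    rw [hH t ht, ← hc2, hh]
    simp only []
    rw [mul_pow, ← Complex.exp_nat_mul]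
    congr 2
    push_cast
    ring
  have hcne : (c : ℂ) ≠ 0 := by exact_mod_cast hc0.ne'
  have hhne : ∀ t ∈ Metric.ball (0 : ℂ) ρ, h t ≠ 0 := fun t _ =>
    mul_ne_zero hcne (Complex.exp_ne_zero _)
  have hreal : ∀ t ∈ Set.Ioo (-ρ) ρ, (h (t : ℂ)).im = 0 ∧ (h (t : ℂ)).re ≠ 0 := by
    intro t ht
    refine branch_real (hRpos t ht) ?_
    rw [hsq _ (hball t ht), hPR]
  have hpos : ∀ t ∈ Set.Ioo (-ρ) ρ, 0 < (h (t : ℂ)).re := by
    refine branch_pos (f := fun t : ℝ => (h (t : ℂ)).re) ?_ (fun t ht => (hreal t ht).2)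
      (a := 0) hzero ?_
    · have e1 : ContinuousOn (fun t : ℝ => h (t : ℂ)) (Set.Ioo (-ρ) ρ) :=
        hhd.continuousOn.comp Complex.continuous_ofReal.continuousOn hball
      exact Complex.continuous_re.comp_continuousOn e1
    · simp only [hh, Complex.ofReal_zero, hH0, zero_div, Complex.exp_zero, mul_one,
        Complex.ofReal_re]
      exact hc0
  refine ⟨h, hhd, hsq, hhne, ?_⟩
  intro t y ht hy hty
  have htI : (t : ℝ) ∈ Set.Ioo (-ρ) ρ := abs_lt.mp ht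
  have e1 : h (((t : ℝ)) : ℂ) ^ 2 = ((y : ℂ)) ^ 2 := by
    rw [hsq _ (hball _ htI), hPR, hRint, ← hty]
    push_cast
    rfl
  have e2 : (((t : ℝ)) : ℂ) = (t : ℂ) := by push_cast; rfl
  rw [e2] at e1
  rcases sq_eq_sq_iff_eq_or_eq_neg.mp e1 with e3 | e3
  · exact e3
  · exfalso
    have e4 := hpos _ htI
    rw [e2, e3] at e4
    have hy' : (0 : ℝ) < y := by exact_mod_cast hy
    simp at e4
    linarith

end Pool.TTF
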