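import Pool.Agent.Lib.MP_695920_nt.TT.Five.CBound

set_option autoImplicit false

/-!
TEAM TWOTORSION, version 2 with slices: the interface between the bound for one class and the line
(helper16). `τ = t / (2 n)`: the classes are cut into `D ^ τ` shorter intervals. `τ = 0` is
`CBound.lean`.
-/

open Polynomial NumberField Module

namespace Pool.TT.Five

/-- **The bound for one class**, for polynomials with the property `G` (odd degree: `G` = odd
degree; even degree: `G = SqRev`). `D = |disc K|`, `h = #Cl(K)[2]`: all roots of `f` have distance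
at least `r` from the centre, the points have distance at most `r / (C D ^ (τ + ε) h ^ ε)` from
it. -/
def ClassBoundT (G : ℤ[X] → Prop) (n : ℕ) (τ σ : ℝ) : Prop :=
  ∀ c ε : ℝ, 1 ≤ c → 0 < ε → ∃ C : ℝ, 1 ≤ C ∧
    ∀ (K : Type) [Field K] [NumberField K], finrank ℚ K = n →
    ∀ (θ : 𝓞 K) (N : ℕ) (P : CPts (Fin N)) (Q : CData P) (r : ℝ),
      G P.f0 → minpoly ℤ θ = P.f0 → P.f0.natDegree = n →
      (∀ z : ℂ, (P.f0.map (Int.castRingHom ℂ)).IsRoot z →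
        ‖z‖ ≤ c * |(discr K : ℝ)| ^ ((1 : ℝ) / n)) →
      (∀ i, |(P.x i : ℝ)| ≤ c * |(discr K : ℝ)| ^ ((1 : ℝ) / n)) → 0 < r →
      (∀ z : ℂ, (P.f0.map (Int.castRingHom ℂ)).IsRoot z → r ≤ ‖(P.x Q.c : ℂ) - z‖) →
      (∀ i, |(P.x i : ℝ) - P.x Q.c| * (C * |(discr K : ℝ)| ^ (τ + ε) *
        (Nat.card {x : ClassGroup (𝓞 K) // x ^ 2 = 1} : ℝ) ^ ε) ≤ r) →
      (N : ℝ) ≤ C * (Nat.card {x : ClassGroup (𝓞 K) // x ^ 2 = 1} : ℝ) ^ σ *
        |(discr K : ℝ)| ^ ε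

/-- the number of integral points on one line, polynomials with the property `G` -/
def LineT (G : ℤ[X] → Prop) (n : ℕ) (τ σ : ℝ) : Prop :=
  ∀ c ε : ℝ, 1 ≤ c → 0 < ε → ∃ C' : ℝ, 0 < C' ∧
    ∀ (K : Type) [Field K] [NumberField K], finrank ℚ K = n → ∀ θ : 𝓞 K,
      G (minpoly ℤ θ) → (minpoly ℤ θ).natDegree = n →
      (∀ z : ℂ, ((minpoly ℤ θ).map (Int.castRingHom ℂ)).IsRoot z →
        ‖z‖ ≤ c * |(discr K : ℝ)| ^ ((1 : ℝ) / n)) →
      (Set.ncard {p : ℤ × ℤ | |(p.1 : ℝ)| ≤ c * |(discr K : ℝ)| ^ ((1 : ℝ) / n) ∧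
        0 < p.2 ∧ p.2 ^ 2 = (minpoly ℤ θ).eval p.1} : ℝ) ≤
      C' * ((Nat.card {x : ClassGroup (𝓞 K) // x ^ 2 = 1} : ℝ) ^ σ *
        |(discr K : ℝ)| ^ (τ + ε))

/-- the number of integral points on one line -/
def LineQT (n : ℕ) (τ σ : ℝ) : Prop := LineT (fun _ => True) n τ σ

theorem lineT_zero {G : ℤ[X] → Prop} {n : ℕ} {σ : ℝ} : LineT G n 0 σ ↔ LineC G n σ := by
  unfold LineT LineC
  simp only [zero_add]

theorem lineQT_zero {n : ℕ} {σ : ℝ} : LineQT n 0 σ ↔ LineQ n σ := lineT_zero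

theorem classBoundT_zero {G : ℤ[X] → Prop} {n : ℕ} {σ : ℝ} :
    ClassBoundT G n 0 σ ↔ ClassBoundC G n σ := by
  unfold ClassBoundT ClassBoundC
  simp only [zero_add]

end Pool.TT.Five
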