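import Mathlib

/-! # From a lattice of relations to its real span -/

set_option autoImplicit false
set_option linter.unusedSectionVars false

namespace Pool.TT.Five

variable {ι : Type*} [Fintype ι]

/-- the real span of a group of integral vectors -/
def relSpan (L : AddSubgroup (ι → ℤ)) : Submodule ℝ (ι → ℝ) :=
  Submodule.span ℝ ((fun (m : ι → ℤ) i => (m i : ℝ)) '' (L : Set (ι → ℤ)))

/-- rational combinations -/
private theorem relspan_rat (L : AddSubgroup (ι → ℤ)) (n : ℕ) (g : Fin n → ι → ℤ)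
    (hg : ∀ k, g k ∈ L) (q : Fin n → ℚ) :
    ∃ (N : ℕ) (m : ι → ℤ), 0 < N ∧ m ∈ L ∧
      ∀ i, (N : ℝ) * ∑ k, (q k : ℝ) * (g k i : ℝ) = (m i : ℝ) := by
  classical
  refine ⟨∏ k, (q k).den, ∑ k, (((q k).num * ∏ l ∈ Finset.univ.erase k, ((q l).den : ℤ)) • g k),
    Finset.prod_pos fun k _ => (q k).pos, ?_, ?_⟩
  · exact L.sum_mem fun k _ => L.zsmul_mem (hg k) _
  · intro i
    rw [Finset.mul_sum, Finset.sum_apply]
    push_cast
    refine Finset.sum_congr rfl fun k _ => ?_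
    rw [Pi.smul_apply, smul_eq_mul]
    push_cast
    have h1 : (∏ l, ((q l).den : ℝ)) = ((q k).den : ℝ) * ∏ l ∈ Finset.univ.erase k, ((q l).den : ℝ) :=
      (Finset.mul_prod_erase _ _ (Finset.mem_univ k)).symm
    have h2 : ((q k).den : ℝ) * (q k : ℝ) = ((q k).num : ℝ) := by
      have h3 : ((q k).den : ℚ) * q k = (q k).num := by
        rw [mul_comm]
        exact Rat.mul_den_eq_num (q k)
      exact_mod_cast h3
    rw [h1]
    calc ((q k).den : ℝ) * (∏ l ∈ Finset.univ.erase k, ((q l).den : ℝ)) * ((q k : ℝ) * (g k i : ℝ))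
        = (((q k).den : ℝ) * (q k : ℝ)) * (∏ l ∈ Finset.univ.erase k, ((q l).den : ℝ)) *
          (g k i : ℝ) := by ring
      _ = _ := by rw [h2]

/-- **A quadratic inequality on a lattice holds on its real span.** -/
theorem relSpan_le (L : AddSubgroup (ι → ℤ)) (G : ι → ι → ℝ) (ρ ε : ℝ)
    (h : ∀ m ∈ L, ∑ i, ∑ j, (m i : ℝ) * m j * G i j ≤
      ρ * (∑ i, (m i : ℝ)) ^ 2 + ε * (∑ i, |(m i : ℝ)|) ^ 2) (w : ι → ℝ) (hw : w ∈ relSpan L) :
    ∑ i, ∑ j, w i * w j * G i j ≤ ρ * (∑ i, w i) ^ 2 + ε * (∑ i, |w i|) ^ 2 := by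
  obtain ⟨n, c, g, hcg⟩ := Submodule.mem_span_set'.1 hw
  choose g' hg'L hg' using fun k => (g k).2
  have hw' : ∀ i, w i = ∑ k, c k * (g' k i : ℝ) := by
    intro i
    rw [← hcg, Finset.sum_apply]
    refine Finset.sum_congr rfl fun k _ => ?_
    rw [Pi.smul_apply, smul_eq_mul, ← hg' k]
  have key : ∀ c : Fin n → ℝ, ∑ i, ∑ j, (∑ k, c k * (g' k i : ℝ)) * (∑ k, c k * (g' k j : ℝ)) *
      G i j ≤ ρ * (∑ i, ∑ k, c k * (g' k i : ℝ)) ^ 2 +
        ε * (∑ i, |∑ k, c k * (g' k i : ℝ)|) ^ 2 := by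
    intro c
    refine DenseRange.induction_on (DenseRange.piMap (ι := Fin n) (X := fun _ => ℚ)
      (Y := fun _ => ℝ) (f := fun _ => ((↑) : ℚ → ℝ)) fun _ => Rat.denseRange_cast) c
      (p := fun c => ∑ i, ∑ j, (∑ k, c k * (g' k i : ℝ)) * (∑ k, c k * (g' k j : ℝ)) *
        G i j ≤ ρ * (∑ i, ∑ k, c k * (g' k i : ℝ)) ^ 2 +
        ε * (∑ i, |∑ k, c k * (g' k i : ℝ)|) ^ 2) ?_ ?_
    · exact isClosed_le (by fun_prop) (by fun_prop)
    · intro q
      obtain ⟨N, m, hN, hm, hNm⟩ := relspan_rat L n g' hg'L q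
      have hN' : (0 : ℝ) < N := by exact_mod_cast hN
      have hv : ∀ i, ∑ k, (q k : ℝ) * (g' k i : ℝ) = (m i : ℝ) / N := by
        intro i
        rw [eq_div_iff hN'.ne', mul_comm]
        exact hNm i
      show ∑ i, ∑ j, (∑ k, (q k : ℝ) * (g' k i : ℝ)) * (∑ k, (q k : ℝ) * (g' k j : ℝ)) *
        G i j ≤ ρ * (∑ i, ∑ k, (q k : ℝ) * (g' k i : ℝ)) ^ 2 +
          ε * (∑ i, |∑ k, (q k : ℝ) * (g' k i : ℝ)|) ^ 2
      simp only [hv]
      have h1 := h m hm
      have h2 : ∑ i, ∑ j, (m i : ℝ) / N * ((m j : ℝ) / N) * G i j =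
          (∑ i, ∑ j, (m i : ℝ) * m j * G i j) / N ^ 2 := by
        rw [Finset.sum_div]
        refine Finset.sum_congr rfl fun i _ => ?_
        rw [Finset.sum_div]
        refine Finset.sum_congr rfl fun j _ => ?_
        field_simp
      have h3 : ∑ i, (m i : ℝ) / N = (∑ i, (m i : ℝ)) / N := by rw [Finset.sum_div]
      have h4 : ∑ i, |(m i : ℝ) / N| = (∑ i, |(m i : ℝ)|) / N := by
        rw [Finset.sum_div]
        refine Finset.sum_congr rfl fun i _ => ?_
        rw [abs_div, abs_of_pos hN']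
      rw [h2, h3, h4, div_pow, div_pow, ← mul_div_assoc, ← mul_div_assoc, ← add_div]
      exact div_le_div_of_nonneg_right h1 (by positivity)
  have h5 := key c
  simp only [← hw'] at h5
  exact h5

/-- a linear condition passes to the real span -/
theorem relSpan_sum (L : AddSubgroup (ι → ℤ)) (h : ∀ m ∈ L, ∑ i, m i = 0) (w : ι → ℝ)
    (hw : w ∈ relSpan L) : ∑ i, w i = 0 := by
  obtain ⟨n, c, g, hcg⟩ := Submodule.mem_span_set'.1 hw
  choose g' hg'L hg' using fun k => (g k).2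
  have hw' : ∀ i, w i = ∑ k, c k * (g' k i : ℝ) := by
    intro i
    rw [← hcg, Finset.sum_apply]
    refine Finset.sum_congr rfl fun k _ => ?_
    rw [Pi.smul_apply, smul_eq_mul, ← hg' k]
  simp only [hw']
  rw [Finset.sum_comm]
  refine Finset.sum_eq_zero fun k _ => ?_
  rw [← Finset.mul_sum]
  have : ∑ i, (g' k i : ℝ) = 0 := by exact_mod_cast h _ (hg'L k)
  rw [this, mul_zero]

/-- **The codimension of the real span.** -/
theorem relSpan_finrank (L : AddSubgroup (ι → ℤ)) (d : ℕ)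
    (h : ∀ S : Finset ι, d < S.card → ∃ m ∈ L, m ≠ 0 ∧ ∀ i, i ∉ S → m i = 0) :
    Module.finrank ℝ ((ι → ℝ) ⧸ relSpan L) ≤ d := by
  classical
  set v : ι → (ι → ℝ) ⧸ relSpan L := fun i => (relSpan L).mkQ (Pi.single i 1) with hv
  obtain ⟨κ, a, ha, hspan, hli⟩ := exists_linearIndependent' ℝ v
  have hfin : Finite κ := Finite.of_injective a ha
  have := Fintype.ofFinite κ
  have htop : Submodule.span ℝ (Set.range v) = ⊤ := by
    rw [eq_top_iff]
    intro x _
    obtain ⟨y, rfl⟩ := (relSpan L).mkQ_surjective x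
    have hy : y = ∑ i, y i • (Pi.single i 1 : ι → ℝ) := by
      ext j
      rw [Finset.sum_apply]
      simp [Pi.single_apply]
    rw [hy, map_sum]
    refine Submodule.sum_mem _ fun i _ => ?_
    rw [map_smul]
    exact Submodule.smul_mem _ _ (Submodule.subset_span ⟨i, rfl⟩)
  have hcard : Module.finrank ℝ ((ι → ℝ) ⧸ relSpan L) = Fintype.card κ := by
    rw [← finrank_top ℝ ((ι → ℝ) ⧸ relSpan L), ← htop, ← hspan]
    exact finrank_span_eq_card hli
  rw [hcard]
  by_contra hcon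
  push Not at hcon
  obtain ⟨m, hm, hm0, hmS⟩ := h (Finset.univ.map ⟨a, ha⟩) (by
    rw [Finset.card_map, Finset.card_univ]
    exact hcon)
  apply hm0
  have h1 : ∑ k, (m (a k) : ℝ) • (v ∘ a) k = 0 := by
    have h2 : ∑ k, (m (a k) : ℝ) • (v ∘ a) k = (relSpan L).mkQ (fun i => (m i : ℝ)) := by
      have h3 : (fun i => (m i : ℝ)) = ∑ k, (m (a k) : ℝ) • (Pi.single (a k) 1 : ι → ℝ) := by
        ext j
        rw [Finset.sum_apply]
        simp only [Pi.smul_apply, smul_eq_mul, Pi.single_apply, mul_ite, mul_one, mul_zero]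
        by_cases hj : ∃ k, a k = j
        · obtain ⟨k, rfl⟩ := hj
          rw [Finset.sum_eq_single k]
          · simp
          · intro l _ hl
            rw [if_neg fun h => hl (ha h).symm]
          · intro hk
            exact absurd (Finset.mem_univ k) hk
        · have hj' : j ∉ Finset.univ.map ⟨a, ha⟩ := by
            intro h
            obtain ⟨k, -, hk⟩ := Finset.mem_map.1 h
            exact hj ⟨k, hk⟩
          rw [hmS j hj', Int.cast_zero]
          refine (Finset.sum_eq_zero fun k _ => ?_).symm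
          rw [if_neg fun h => hj ⟨k, h.symm⟩]
      rw [h3, map_sum]
      refine Finset.sum_congr rfl fun k _ => ?_
      rw [map_smul]
      rfl
    rw [h2, Submodule.mkQ_apply, Submodule.Quotient.mk_eq_zero]
    exact Submodule.subset_span ⟨m, hm, rfl⟩
  have h4 := Fintype.linearIndependent_iff.1 hli _ h1
  funext i
  by_cases hi : ∃ k, a k = i
  · obtain ⟨k, rfl⟩ := hi
    exact_mod_cast h4 k
  · refine hmS i fun h => ?_
    obtain ⟨k, -, hk⟩ := Finset.mem_map.1 h
    exact hi ⟨k, hk⟩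

end Pool.TT.Five
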