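import Pool.Agent.Lib.MP_695920_nt.TT.Five.RelBound
import Pool.Agent.Lib.MP_695920_nt.TT.Five.RelSpan

/-! # (R) on the real span of a lattice of relations -/

set_option autoImplicit false

open Polynomial

namespace Pool.TT.Five

/-- **(R) for real combinations of relations**, with a bound for the size of the functions. -/
theorem rel_all_gen {ι : Type*} [Fintype ι] (P : Pool.TTF.FPts ι) (R T K : ℝ) (hR : 1 ≤ R)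
    (hT : 4 ≤ T) (hK1 : 1 ≤ K)
    (hroot : ∀ z : ℂ, (P.F.map (Int.castRingHom ℂ)).IsRoot z → 2 * R ≤ ‖z‖)
    (ht : ∀ i, |(P.t i : ℝ)| ≤ 2 * R / T) (L : AddSubgroup (ι → ℤ))
    (hL : ∀ m ∈ L, ∑ i, m i = 0 ∧ ∃ Φ : OZ P.a P.b,
      (Φ.norm = ∏ i, (X - C (P.t i)) ^ (m i).natAbs ∨
        Φ.norm = -∏ i, (X - C (P.t i)) ^ (m i).natAbs) ∧
      (∀ i, algebraMap ℤ[X] (OZ P.a P.b) ((X - C (P.t i)) ^ (m i).natAbs) ∣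
        (⟨-C (P.b - relQ P m i), 1⟩ : OZ P.a P.b) ^ (m i).natAbs * Φ) ∧
      (m ≠ 0 → ∀ s t : ℂ, ‖t‖ = R → s ^ 2 = (P.F.map (Int.castRingHom ℂ)).eval t →
        ‖(Φ.re.map (Int.castRingHom ℂ)).eval t + (Φ.im.map (Int.castRingHom ℂ)).eval t *
          ((P.b + s) / 2)‖ ≤ K ^ (∑ i, (m i).natAbs))) (κ : ℝ)
    (w : ι → ℝ) (hw : w ∈ relSpan L) :
    ∑ i, ∑ j, w i * w j * P.G i j ≤
      κ * (∑ i, w i) ^ 2 + 16 * Real.log (2 * K) / T * (∑ i, |w i|) ^ 2 := by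
  refine relSpan_le L P.G κ _ (fun m hm => ?_) w hw
  obtain ⟨h0, Φ, hN, hV, hs⟩ := hL m hm
  have h1 : ∑ i, (m i : ℝ) = 0 := by exact_mod_cast h0
  rw [h1]
  have h2 := rel_bound_gen P R T K hR hT hK1 hroot ht m h0 Φ hN hV hs
  linarith

/-- **(R) for real combinations of relations**, odd degree. -/
theorem rel_all {ι : Type*} [Fintype ι] (P : Pool.TTF.FPts ι) (hodd : Odd P.a.natDegree)
    (R T ρ : ℝ) (hR : 1 ≤ R) (hT : 4 ≤ T) (hRρ : R ≤ ρ)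
    (hroot : ∀ z : ℂ, (P.F.map (Int.castRingHom ℂ)).IsRoot z → 2 * R ≤ ‖z‖)
    (hroot' : ∀ z : ℂ, (P.F.map (Int.castRingHom ℂ)).IsRoot z → ‖z‖ ≤ ρ)
    (ht : ∀ i, |(P.t i : ℝ)| ≤ 2 * R / T) (L : AddSubgroup (ι → ℤ))
    (hL : ∀ m ∈ L, ∑ i, m i = 0 ∧ ∃ Φ : OZ P.a P.b,
      (Φ.norm = ∏ i, (X - C (P.t i)) ^ (m i).natAbs ∨
        Φ.norm = -∏ i, (X - C (P.t i)) ^ (m i).natAbs) ∧
      ∀ i, algebraMap ℤ[X] (OZ P.a P.b) ((X - C (P.t i)) ^ (m i).natAbs) ∣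
        (⟨-C (P.b - relQ P m i), 1⟩ : OZ P.a P.b) ^ (m i).natAbs * Φ) (κ : ℝ)
    (w : ι → ℝ) (hw : w ∈ relSpan L) :
    ∑ i, ∑ j, w i * w j * P.G i j ≤
      κ * (∑ i, w i) ^ 2 + 8 * Real.log (2100 * ρ) / T * (∑ i, |w i|) ^ 2 := by
  refine relSpan_le L P.G κ _ (fun m hm => ?_) w hw
  obtain ⟨h0, Φ, hN, hV⟩ := hL m hm
  have h1 : ∑ i, (m i : ℝ) = 0 := by exact_mod_cast h0
  rw [h1]
  have h2 := rel_bound P hodd R T ρ hR hT hRρ hroot hroot' ht m h0 Φ hN hV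
  linarith

/-- There are enough relations with sum zero which have an integral function, and these functions
are bounded by `K ^ ∑ |m_i|` on both sheets over the circle `|t| = R`. -/
def HasRel {ι : Type*} [Fintype ι] (P : Pool.TTF.FPts ι) (R K : ℝ) (d : ℕ) : Prop :=
  ∃ L : AddSubgroup (ι → ℤ),
    (∀ S : Finset ι, d < S.card → ∃ m ∈ L, m ≠ 0 ∧ ∀ i, i ∉ S → m i = 0) ∧
    ∀ m ∈ L, ∑ i, m i = 0 ∧ ∃ Φ : OZ P.a P.b,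
      (Φ.norm = ∏ i, (X - C (P.t i)) ^ (m i).natAbs ∨
        Φ.norm = -∏ i, (X - C (P.t i)) ^ (m i).natAbs) ∧
      (∀ i, algebraMap ℤ[X] (OZ P.a P.b) ((X - C (P.t i)) ^ (m i).natAbs) ∣
        (⟨-C (P.b - relQ P m i), 1⟩ : OZ P.a P.b) ^ (m i).natAbs * Φ) ∧
      (m ≠ 0 → ∀ s t : ℂ, ‖t‖ = R → s ^ 2 = (P.F.map (Int.castRingHom ℂ)).eval t →
        ‖(Φ.re.map (Int.castRingHom ℂ)).eval t + (Φ.im.map (Int.castRingHom ℂ)).eval t *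
          ((P.b + s) / 2)‖ ≤ K ^ (∑ i, (m i).natAbs))

/-- in odd degree the size is automatic -/
theorem hasRel_odd {ι : Type*} [Fintype ι] (P : Pool.TTF.FPts ι) (hodd : Odd P.a.natDegree)
    (R T ρ : ℝ) (hR : 1 ≤ R) (hT : 4 ≤ T) (hRρ : R ≤ ρ)
    (hroot' : ∀ z : ℂ, (P.F.map (Int.castRingHom ℂ)).IsRoot z → ‖z‖ ≤ ρ)
    (ht : ∀ i, |(P.t i : ℝ)| ≤ 2 * R / T) (d : ℕ) (L : AddSubgroup (ι → ℤ))
    (hd : ∀ S : Finset ι, d < S.card → ∃ m ∈ L, m ≠ 0 ∧ ∀ i, i ∉ S → m i = 0)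
    (hL : ∀ m ∈ L, ∑ i, m i = 0 ∧ ∃ Φ : OZ P.a P.b,
      (Φ.norm = ∏ i, (X - C (P.t i)) ^ (m i).natAbs ∨
        Φ.norm = -∏ i, (X - C (P.t i)) ^ (m i).natAbs) ∧
      ∀ i, algebraMap ℤ[X] (OZ P.a P.b) ((X - C (P.t i)) ^ (m i).natAbs) ∣
        (⟨-C (P.b - relQ P m i), 1⟩ : OZ P.a P.b) ^ (m i).natAbs * Φ) :
    HasRel P R (Real.sqrt (525 * ρ)) d := by
  refine ⟨L, hd, fun m hm => ?_⟩
  obtain ⟨h0, Φ, hN, hV⟩ := hL m hm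
  exact ⟨h0, Φ, hN, hV, fun hm0 s t => rel_size_odd P hodd R T ρ hR hT hRρ hroot' ht m Φ hN hm0 s t⟩

/-- **(R)**, the subspace. -/
theorem HasRel.exists_submodule {ι : Type*} [Fintype ι] {P : Pool.TTF.FPts ι} {R K : ℝ} {d : ℕ}
    (h : HasRel P R K d) (T : ℝ) (hR : 1 ≤ R) (hT : 4 ≤ T) (hK1 : 1 ≤ K)
    (hroot : ∀ z : ℂ, (P.F.map (Int.castRingHom ℂ)).IsRoot z → 2 * R ≤ ‖z‖)
    (ht : ∀ i, |(P.t i : ℝ)| ≤ 2 * R / T) :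
    ∃ W : Submodule ℝ (ι → ℝ), Module.finrank ℝ ((ι → ℝ) ⧸ W) ≤ d ∧
      ∀ m ∈ W, ∑ i, m i = 0 ∧ ∑ i, ∑ j, m i * m j * P.G i j ≤
        16 * Real.log (2 * K) / T * (∑ i, |m i|) ^ 2 := by
  obtain ⟨L, hd, hL⟩ := h
  refine ⟨relSpan L, relSpan_finrank L d hd, fun w hw => ⟨?_, ?_⟩⟩
  · exact relSpan_sum L (fun m hm => (hL m hm).1) w hw
  · have h := rel_all_gen P R T K hR hT hK1 hroot ht L hL 0 w hw
    rwa [zero_mul, zero_add] at h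

end Pool.TT.Five
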