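import Pool.Agent.Lib.MP_695920_nt.TT.Five.CBound
import Pool.Agent.Lib.MP_695920_nt.TT.Five.RelAll

set_option autoImplicit false

/-!
TEAM TWOTORSION, version 2: the interface between the relations and the bound for one class
(helper20).
-/

open Polynomial NumberField Module

namespace Pool.TT.Five

/-- **The supply of relations**, for polynomials with the property `G` (odd degree: `G = OddDeg`,
even degree: `G = SqRev`): the model `F` of a class, and relations of corank at most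
`log_2 #Cl(K)[2] + B (1 + ω(2 disc f))` with functions of size `(A √ρ) ^ ∑ |m_i|`. -/
def RelSupply (G : ℤ[X] → Prop) (n : ℕ) : Prop :=
  ∃ A : ℝ, 1 ≤ A ∧ ∃ B : ℕ, ∀ (K : Type) [Field K] [NumberField K], finrank ℚ K = n →
    ∀ (θ : 𝓞 K) (N : ℕ) (P : CPts (Fin N)) (Q : CData P) (ρ r R T : ℝ),
      G P.f0 → minpoly ℤ θ = P.f0 → P.f0.natDegree = n → 1 ≤ ρ →
      (∀ z : ℂ, (P.f0.map (Int.castRingHom ℂ)).IsRoot z → ‖z‖ ≤ ρ) →
      (∀ i, |(P.x i : ℝ)| ≤ ρ) →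
      (∀ z : ℂ, (P.f0.map (Int.castRingHom ℂ)).IsRoot z → r ≤ ‖(P.x Q.c : ℂ) - z‖) →
      1 ≤ R → 4 ≤ T → 2 * (Q.q * R) ≤ r → Q.q * R ≤ ρ → (∀ i, |(Q.t i : ℝ)| ≤ 2 * R / T) →
      ∃ F : TTF.FPts (Fin N), F.a = Q.E ∧ F.b = -Q.h ∧ F.t = Q.t ∧ F.z = Q.z ∧
        HasRel F R (A * √ρ) (Nat.clog 2 (Nat.card {x : ClassGroup (𝓞 K) // x ^ 2 = 1}) +
          B * (1 + (2 * P.f0.discr).natAbs.primeFactors.card))

end Pool.TT.Five
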