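import Pool.Agent.Lib.MP_695920_nt.TT.Five.Cls
import Pool.Agent.Lib.MP_695920_nt.TT.Five.WPart
import Pool.Agent.Lib.MP_695920_nt.TT.Descent

set_option autoImplicit false

/-!
TEAM TWOTORSION, `n = 5`: the primes of `w` divide twice the discriminant.
-/

open Polynomial

namespace Pool.TT.Five

theorem dvd_two_discr {f0 : ℤ[X]} (hm : f0.Monic) (hpos : 0 < f0.natDegree) {p : ℕ}
    (hp : p.Prime) {x y : ℤ} (he : y ^ 2 = f0.eval x) (h1 : (p : ℤ) ∣ 2 * y)
    (h2 : (p : ℤ) ∣ f0.derivative.eval x) : (p : ℤ) ∣ 2 * f0.discr := by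
  rcases Int.Prime.dvd_mul' hp h1 with h | h
  · exact h.mul_right _
  · obtain ⟨a, b, -, -, e⟩ := exists_mul_add_mul_eq_C_resultant (m := f0.natDegree)
      (n := f0.natDegree - 1) f0 f0.derivative le_rfl (natDegree_derivative_le _)
      (Or.inl (by omega))
    rw [resultant_deriv (natDegree_pos_iff_degree_pos.1 hpos), hm.leadingCoeff, mul_one] at e
    have e2 := congrArg (Polynomial.eval x) e
    rw [eval_add, eval_mul, eval_mul, eval_C, ← he] at e2
    have h3 : (p : ℤ) ∣ (-1) ^ (f0.natDegree * (f0.natDegree - 1) / 2) * f0.discr := by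
      rw [← e2]
      apply dvd_add
      · exact (h.trans (dvd_pow_self y two_ne_zero)).mul_right _
      · exact h2.mul_right _
    have h4 : IsUnit ((-1 : ℤ) ^ (f0.natDegree * (f0.natDegree - 1) / 2)) :=
      (isUnit_neg_one).pow _
    exact ((IsUnit.dvd_mul_left h4).1 h3).mul_left _

theorem two_discr_natAbs_ne_zero (f0 : ℤ[X]) (hm : f0.Monic) (hirr : Irreducible f0) :
    (2 * f0.discr).natAbs ≠ 0 :=
  Int.natAbs_ne_zero.2 (mul_ne_zero two_ne_zero (poly_discr_ne_zero f0 hm hirr))

/-- the primes of `w` divide twice the discriminant -/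
theorem ClassData.primeFactors_subset {ι : Type*} {P : Pts ι} (Q : ClassData P) :
    Q.w.primeFactors ⊆ (2 * P.f0.discr).natAbs.primeFactors := by
  intro p hp
  have hpp := Nat.prime_of_mem_primeFactors hp
  have hpd := Nat.dvd_of_mem_primeFactors hp
  rw [Nat.mem_primeFactors]
  refine ⟨hpp, ?_, two_discr_natAbs_ne_zero _ P.monic P.irr⟩
  have h3 := P.three
  exact Int.natCast_dvd.1 (dvd_two_discr P.monic (by omega) hpp (P.eq Q.c)
    ((Int.natCast_dvd_natCast.2 hpd).trans (Q.dw Q.c)) (Q.pd p hpp hpd))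

/-- the number of primes of `w` -/
theorem ClassData.omega_le {ι : Type*} {P : Pts ι} (Q : ClassData P) :
    Q.w.primeFactors.card ≤ (2 * P.f0.discr).natAbs.primeFactors.card :=
  Finset.card_le_card Q.primeFactors_subset

/-- A family of points with the same `w`, abscissas congruent modulo `w ^ 3` and ordinates
congruent modulo `w ^ 2` is a class. -/
def classData {ι : Type*} (P : Pts ι) (c : ι) (w : ℕ)
    (hw : ∀ i, wpart (2 * P.y i) (P.f0.derivative.eval (P.x i)) = w)
    (hx : ∀ i, (w : ℤ) ^ 3 ∣ P.x i - P.x c) (hy : ∀ i, (w : ℤ) ^ 2 ∣ P.y i - P.y c) :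
    ClassData P where
  c := c
  w := w
  w0 := by
    rw [← hw c]
    have := P.pos c
    exact wpart_ne_zero _ (by omega)
  dx := hx
  dy := hy
  dw i := by
    rw [← hw i]
    exact wpart_dvd _ _
  cop i := by
    have := P.pos i
    have h := wpart_coprime (a := 2 * P.y i) (b := P.f0.derivative.eval (P.x i)) (by omega)
    rwa [hw i] at h
  pd p hp hpw := by
    rw [← hw c] at hpw
    exact (prime_dvd_of_dvd_wpart hp hpw).2

end Pool.TT.Five
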