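import Mathlib

set_option autoImplicit false

/-!
TEAM TWOTORSION, n = 5, positivity: definitions (OWNER helper31).

A class of integral points is given by `z ^ 2 = a(t) + b z`, `a ∈ ℤ[t]`, `b ∈ ℤ`, such that
`4 a + b ^ 2` is not a square in `ℂ(t)` (any parity of the degree);
the conjugate point of `(t_i, z_i)` is `(t_i, b - z_i)`.
-/

open Polynomial

namespace Pool.TTF

/-- **Sum rule.** -/
theorem sum_rule (a : ℤ[X]) (b t t' z z' : ℤ) (h : z ^ 2 = a.eval t + b * z)
    (h' : z' ^ 2 = a.eval t' + b * z')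
    (hs : Int.gcd (2 * z - b) (a.derivative.eval t) = 1) (hne : t ≠ t') :
    Int.gcd (t - t') (z - z') * Int.gcd (t - t') (z + z' - b) = (t - t').natAbs := by
  obtain ⟨k, hk⟩ := Polynomial.binomExpansion a t (t' - t)
  have e0 : t + (t' - t) = t' := by ring
  rw [e0] at hk
  set g1 := Int.gcd (t - t') (z - z') with hg1
  set g2 := Int.gcd (t - t') (z + z' - b) with hg2
  have huv : (z - z') * (z + z' - b) =
      (t - t') * (a.derivative.eval t - k * (t - t')) := by
    linear_combination h - h' - hk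
  obtain ⟨x, y, hxy⟩ := Int.isCoprime_iff_gcd_eq_one.2 hs
  have d1 : (g1 : ℤ) ∣ t - t' := Int.gcd_dvd_left ..
  have d2 : (g1 : ℤ) ∣ z - z' := Int.gcd_dvd_right ..
  have d3 : (g2 : ℤ) ∣ t - t' := Int.gcd_dvd_left ..
  have d4 : (g2 : ℤ) ∣ z + z' - b := Int.gcd_dvd_right ..
  apply Nat.dvd_antisymm
  · rw [← Int.natCast_dvd]
    push_cast
    have e : t - t' = x * ((z - z') * (t - t') + (t - t') * (z + z' - b)) +
        y * ((z - z') * (z + z' - b)) + y * k * ((t - t') * (t - t')) := by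
      linear_combination (-(t - t')) * hxy - y * huv
    rw [e]
    refine dvd_add (dvd_add (dvd_mul_of_dvd_right (dvd_add ?_ ?_) _)
      (dvd_mul_of_dvd_right ?_ _)) (dvd_mul_of_dvd_right ?_ _)
    · exact mul_dvd_mul d2 d3
    · exact mul_dvd_mul d1 d4
    · exact mul_dvd_mul d2 d4
    · exact mul_dvd_mul d1 d3
  · rw [← Int.natAbs_natCast (g1 * g2), Int.natAbs_dvd_natAbs]
    push_cast
    have b1 := Int.gcd_eq_gcd_ab (t - t') (z - z')
    have b2 := Int.gcd_eq_gcd_ab (t - t') (z + z' - b)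
    rw [← hg1] at b1
    rw [← hg2] at b2
    rw [b1, b2]
    set α := Int.gcdA (t - t') (z - z')
    set β := Int.gcdB (t - t') (z - z')
    set γ := Int.gcdA (t - t') (z + z' - b)
    set δ := Int.gcdB (t - t') (z + z' - b)
    refine ⟨α * ((t - t') * γ + (z + z' - b) * δ) + (z - z') * β * γ +
      (a.derivative.eval t - k * (t - t')) * β * δ, ?_⟩
    linear_combination (β * δ) * huv

/-- In odd degree `4 a + b ^ 2` is not a square in `ℂ(t)`. -/
theorem nsq_of_odd (a : ℤ[X]) (b : ℤ) (ha : Odd a.natDegree) (A B : ℂ[X])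
    (hsq : A ^ 2 = (4 * a.map (Int.castRingHom ℂ) + C ((b : ℂ) ^ 2)) * B ^ 2) : B = 0 := by
  have hcinj : Function.Injective (Int.castRingHom ℂ) := Int.cast_injective
  have hndeg : (a.map (Int.castRingHom ℂ)).natDegree = a.natDegree :=
    natDegree_map_eq_of_injective hcinj _
  have hFn : (4 * a.map (Int.castRingHom ℂ) + C ((b : ℂ) ^ 2)).natDegree = a.natDegree := by
    have h4 : (4 * a.map (Int.castRingHom ℂ) : ℂ[X]) = C 4 * a.map (Int.castRingHom ℂ) := rfl
    rw [natDegree_add_C, h4, natDegree_C_mul (by norm_num), hndeg]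
  have hF0 : (4 * a.map (Int.castRingHom ℂ) + C ((b : ℂ) ^ 2)) ≠ 0 := by
    intro h0
    rw [h0, natDegree_zero] at hFn
    rw [← hFn] at ha
    exact absurd ha (by decide)
  by_contra hB0
  have h1 := congrArg natDegree hsq
  rw [natDegree_pow, natDegree_mul hF0 (pow_ne_zero 2 hB0), natDegree_pow, hFn] at h1
  obtain ⟨r, hr⟩ := ha
  omega

/-- A monic irreducible polynomial has a simple zero in `ℂ`. -/
theorem exists_simple_root (f0 : ℤ[X]) (hirr : Irreducible f0) (hm : f0.Monic)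
    (hd : 1 ≤ f0.natDegree) :
    ∃ z : ℂ, (f0.map (Int.castRingHom ℂ)).rootMultiplicity z = 1 := by
  have h1 : Irreducible (f0.map (Int.castRingHom ℚ)) :=
    (Polynomial.IsPrimitive.Int.irreducible_iff_irreducible_map_cast hm.isPrimitive).1 hirr
  have h2 : (f0.map (Int.castRingHom ℚ)).Separable := h1.separable
  have h3 : (f0.map (Int.castRingHom ℂ)).Separable := by
    have h4 := h2.map (f := algebraMap ℚ ℂ)
    rw [Polynomial.map_map] at h4
    have h5 : (algebraMap ℚ ℂ).comp (Int.castRingHom ℚ) = Int.castRingHom ℂ :=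
      RingHom.ext_int _ _
    rwa [h5] at h4
  have hdeg : (f0.map (Int.castRingHom ℂ)).natDegree = f0.natDegree := hm.natDegree_map _
  obtain ⟨z, hz⟩ := Complex.exists_root (f := f0.map (Int.castRingHom ℂ)) (by
    rw [← natDegree_pos_iff_degree_pos, hdeg]
    omega)
  refine ⟨z, le_antisymm ?_ ?_⟩
  · exact rootMultiplicity_le_one_of_separable h3 z
  · exact (rootMultiplicity_pos (hm.map _).ne_zero).2 hz

/-- The discriminant of a class of points over a monic irreducible polynomial is not a square. -/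
theorem nsq_of_irreducible (a : ℤ[X]) (b : ℤ) (f0 : ℤ[X]) (hirr : Irreducible f0)
    (hm : f0.Monic) (hd : 1 ≤ f0.natDegree) (k l q x0 : ℤ) (hk : k ≠ 0) (hl : l ≠ 0) (hq : q ≠ 0)
    (h : C k * (4 * a + C (b ^ 2)) = C l * f0.comp (C q * X + C x0)) (A B : ℂ[X])
    (hsq : A ^ 2 = (4 * a.map (Int.castRingHom ℂ) + C ((b : ℂ) ^ 2)) * B ^ 2) : B = 0 := by
  have hkC : (k : ℂ) ≠ 0 := Int.cast_ne_zero.2 hk
  have hlC : (l : ℂ) ≠ 0 := Int.cast_ne_zero.2 hl
  have hqC : (q : ℂ) ≠ 0 := Int.cast_ne_zero.2 hq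
  set g : ℂ[X] := f0.map (Int.castRingHom ℂ) with hg
  set e : ℂ[X] := C (q : ℂ) * X + C (x0 : ℂ) with he
  set e' : ℂ[X] := C ((q : ℂ)⁻¹) * X - C ((x0 : ℂ) * (q : ℂ)⁻¹) with he'
  have hee : e.comp e' = X := by
    rw [he, he']
    simp only [add_comp, mul_comp, C_comp, X_comp]
    rw [mul_sub, ← mul_assoc, ← C_mul, ← C_mul, mul_inv_cancel₀ hqC, C_1, one_mul,
      mul_comm (x0 : ℂ), ← mul_assoc, mul_inv_cancel₀ hqC, one_mul]
    ring
  have hee' : e'.comp e = X := by
    rw [he, he']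
    simp only [sub_comp, mul_comp, C_comp, X_comp]
    rw [mul_add, ← mul_assoc, ← C_mul, ← C_mul, inv_mul_cancel₀ hqC, C_1, one_mul,
      mul_comm (q : ℂ)⁻¹]
    ring
  have h1 : C (k : ℂ) * (4 * a.map (Int.castRingHom ℂ) + C ((b : ℂ) ^ 2)) =
      C (l : ℂ) * g.comp e := by
    have h2 := congrArg (Polynomial.map (Int.castRingHom ℂ)) h
    simp only [Polynomial.map_mul, Polynomial.map_add, Polynomial.map_comp, Polynomial.map_C,
      Polynomial.map_X, Polynomial.map_ofNat] at h2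
    simpa only [eq_intCast, Int.cast_pow] using h2
  have h2 : C (k : ℂ) * A ^ 2 = C (l : ℂ) * (g.comp e * B ^ 2) := by
    rw [hsq, ← mul_assoc, h1, mul_assoc]
  have h3 : C (k : ℂ) * (A.comp e') ^ 2 = C (l : ℂ) * (g * (B.comp e') ^ 2) := by
    have h4 := congrArg (fun p => Polynomial.comp p e') h2
    simp only [mul_comp, pow_comp, C_comp] at h4
    rwa [comp_assoc, hee, comp_X] at h4
  by_contra hB
  have hB' : B.comp e' ≠ 0 := by
    intro h0
    apply hB
    have h4 : (B.comp e').comp e = B := by rw [comp_assoc, hee', comp_X]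
    rw [← h4, h0, zero_comp]
  have hg0 : g ≠ 0 := (hm.map _).ne_zero
  have hR0 : g * (B.comp e') ^ 2 ≠ 0 := mul_ne_zero hg0 (pow_ne_zero 2 hB')
  have hA' : A.comp e' ≠ 0 := by
    intro h0
    rw [h0, zero_pow two_ne_zero, mul_zero] at h3
    exact mul_ne_zero (C_ne_zero.2 hlC) hR0 h3.symm
  obtain ⟨z, hz⟩ := exists_simple_root f0 hirr hm hd
  rw [← hg] at hz
  have h5 := congrArg (rootMultiplicity z) h3
  rw [rootMultiplicity_mul (mul_ne_zero (C_ne_zero.2 hkC) (pow_ne_zero 2 hA')),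
    rootMultiplicity_mul (mul_ne_zero (C_ne_zero.2 hlC) hR0), rootMultiplicity_mul hR0,
    rootMultiplicity_C, rootMultiplicity_C, pow_two, pow_two,
    rootMultiplicity_mul (mul_ne_zero hA' hA'), rootMultiplicity_mul (mul_ne_zero hB' hB'),
    hz] at h5
  omega

/-- Integral points `(t i, z i)` on `z ^ 2 = a(t) + b z`, smooth modulo every prime. -/
structure FPts (ι : Type*) where
  /-- the polynomial -/
  a : ℤ[X]
  /-- the linear coefficient -/
  b : ℤ
  nsq : ∀ A B : ℂ[X],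
    A ^ 2 = (4 * a.map (Int.castRingHom ℂ) + C ((b : ℂ) ^ 2)) * B ^ 2 → B = 0
  /-- the abscissas -/
  t : ι → ℤ
  /-- the ordinates -/
  z : ι → ℤ
  inj : Function.Injective t
  eq : ∀ i, z i ^ 2 = a.eval (t i) + b * z i
  pos : ∀ i, 0 < 2 * z i - b
  smooth : ∀ i, Int.gcd (2 * z i - b) (a.derivative.eval (t i)) = 1

namespace FPts

variable {ι : Type*} (P : FPts ι)

/-- the discriminant `F = 4 a + b ^ 2`, so that `(2 z - b) ^ 2 = F` -/
noncomputable def F : ℤ[X] := 4 * P.a + C (P.b ^ 2)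

/-- the height pairing up to a constant: `G i j = log gcd (t i - t j, z i + z j - b)` -/
noncomputable def G (i j : ι) : ℝ :=
  Real.log (Int.gcd (P.t i - P.t j) (P.z i + P.z j - P.b))

theorem smooth_sum {i j : ι} (h : i ≠ j) :
    Int.gcd (P.t i - P.t j) (P.z i - P.z j) * Int.gcd (P.t i - P.t j) (P.z i + P.z j - P.b) =
      (P.t i - P.t j).natAbs :=
  sum_rule P.a P.b _ _ _ _ (P.eq i) (P.eq j) (P.smooth i) fun h' => h (P.inj h')

theorem G_comm (i j : ι) : P.G i j = P.G j i := by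
  unfold G
  have h1 : Int.gcd (P.t i - P.t j) (P.z i + P.z j - P.b) =
      Int.gcd (P.t j - P.t i) (P.z j + P.z i - P.b) := by
    rw [← Int.neg_gcd, neg_sub, add_comm (P.z i) (P.z j)]
  rw [h1]

end FPts

end Pool.TTF
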