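import Pool.Agent.Lib.MP_695920_nt.TT.Pts
import Pool.Agent.Lib.MP_695920_nt.TT.Five.PosDefs

set_option autoImplicit false

/-!
TEAM TWOTORSION, `n = 5`: a class of integral points with the coarsest modulus `q` and its model
over `ℤ` (helper16, after helper81's `Cls.lean`, which is the case `q = w ^ 3`).
-/

open Polynomial

namespace Pool.TT.Five

/-- A class of integral points: `w` is the part of `2 y` at the primes which divide `f'(x)`, all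
abscissas are congruent modulo `q`, and `w ^ 2` divides `f(x_c + q t) - f(x_c)`. -/
structure QData {ι : Type*} (P : Pts ι) where
  /-- the centre -/
  c : ι
  w : ℕ
  /-- the modulus -/
  q : ℕ
  w0 : w ≠ 0
  q0 : q ≠ 0
  dx : ∀ i, (q : ℤ) ∣ P.x i - P.x c
  dy : ∀ i, (w : ℤ) ∣ P.y i - P.y c
  dE : C ((w : ℤ) ^ 2) ∣ P.f0.comp (C (q : ℤ) * X + C (P.x c)) - C (P.y c ^ 2)
  dw : ∀ i, (w : ℤ) ∣ 2 * P.y i
  cop : ∀ i, IsCoprime (2 * P.y i / w) (w * P.f0.derivative.eval (P.x i))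
  pd : ∀ p : ℕ, p.Prime → p ∣ w → (p : ℤ) ∣ P.f0.derivative.eval (P.x c)
  pq : ∀ p : ℕ, p.Prime → p ∣ q → p ∣ w

/-- The congruence of the ordinates is automatic. -/
theorem w_dvd_sub_of_coprime {w : ℕ} (hw : w ≠ 0) {y y' : ℤ} (h : (w : ℤ) ∣ 2 * y)
    (h' : (w : ℤ) ∣ 2 * y') (hc : IsCoprime (2 * y / w) (w : ℤ))
    (hc' : IsCoprime (2 * y' / w) (w : ℤ)) : (w : ℤ) ∣ y - y' := by
  have hwz : (w : ℤ) ≠ 0 := by exact_mod_cast hw
  obtain ⟨u, hu⟩ := h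
  obtain ⟨u', hu'⟩ := h'
  rw [hu, Int.mul_ediv_cancel_left _ hwz] at hc
  rw [hu', Int.mul_ediv_cancel_left _ hwz] at hc'
  have h2 : 2 * (y - y') = w * (u - u') := by rw [mul_sub, mul_sub, hu, hu']
  have heven : (2 : ℤ) ∣ u - u' ∨ IsCoprime (w : ℤ) 2 := by
    rcases Int.even_or_odd (w : ℤ) with hev | hod
    · left
      have hodd : ∀ v : ℤ, IsCoprime v (w : ℤ) → Odd v := by
        intro v hv
        obtain ⟨a, b, hab⟩ := hv
        by_contra hne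
        rw [Int.not_odd_iff_even] at hne
        obtain ⟨k, hk⟩ := hne
        obtain ⟨l, hl⟩ := hev
        rw [hk, hl] at hab
        have : 2 * (a * k + b * l) = 1 := by linarith
        omega
      exact (Odd.sub_odd (hodd u hc) (hodd u' hc')).two_dvd
    · right
      exact Int.isCoprime_iff_gcd_eq_one.2 (by
        rw [Int.gcd_comm]
        exact (Int.isCoprime_iff_gcd_eq_one.1 (Int.isCoprime_two_left.2 hod)))
  rcases heven with h3 | h3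
  · obtain ⟨k, hk⟩ := h3
    refine ⟨k, ?_⟩
    rw [hk] at h2
    linarith
  · exact h3.dvd_of_dvd_mul_left ⟨u - u', h2⟩

namespace QData

variable {ι : Type*} {P : Pts ι} (Q : QData P)

theorem wz : (Q.w : ℤ) ≠ 0 := by exact_mod_cast Q.w0

theorem qz : (Q.q : ℤ) ≠ 0 := by exact_mod_cast Q.q0

theorem wpos : (0 : ℤ) < Q.w := by exact_mod_cast Nat.pos_of_ne_zero Q.w0

theorem qpos : (0 : ℤ) < Q.q := by exact_mod_cast Nat.pos_of_ne_zero Q.q0

/-- the coordinate `t` -/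
def t (i : ι) : ℤ := (P.x i - P.x Q.c) / (Q.q : ℤ)

/-- the coordinate `z` -/
def z (i : ι) : ℤ := (P.y i - P.y Q.c) / (Q.w : ℤ)

/-- the coefficient of `z` -/
def h : ℤ := 2 * P.y Q.c / (Q.w : ℤ)

/-- the right-hand side -/
noncomputable def E : ℤ[X] := Q.dE.choose

theorem q_t (i : ι) : (Q.q : ℤ) * Q.t i = P.x i - P.x Q.c := Int.mul_ediv_cancel' (Q.dx i)

theorem w_z (i : ι) : (Q.w : ℤ) * Q.z i = P.y i - P.y Q.c := Int.mul_ediv_cancel' (Q.dy i)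

theorem w_h : (Q.w : ℤ) * Q.h = 2 * P.y Q.c := Int.mul_ediv_cancel' (Q.dw Q.c)

theorem x_eq (i : ι) : P.x i = (Q.q : ℤ) * Q.t i + P.x Q.c := by
  rw [Q.q_t]; ring

theorem t_c : Q.t Q.c = 0 := by simp [t]

theorem z_c : Q.z Q.c = 0 := by simp [z]

theorem t_inj : Function.Injective Q.t := by
  intro i j hij
  apply P.inj
  rw [Q.x_eq i, Q.x_eq j, hij]

/-- `w ^ 2 E(t) = f(x_c + q t) - f(x_c)` -/
theorem E_spec : C ((Q.w : ℤ) ^ 2) * Q.E + C (P.y Q.c ^ 2) =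
    P.f0.comp (C (Q.q : ℤ) * X + C (P.x Q.c)) := by
  rw [E, ← Q.dE.choose_spec]
  ring

theorem E_eval (a : ℤ) : (Q.w : ℤ) ^ 2 * Q.E.eval a + P.y Q.c ^ 2 =
    P.f0.eval ((Q.q : ℤ) * a + P.x Q.c) := by
  have h1 := congrArg (Polynomial.eval a) Q.E_spec
  simpa [eval_comp] using h1

/-- the equation of the curve -/
theorem eq (i : ι) : Q.z i ^ 2 + Q.h * Q.z i = Q.E.eval (Q.t i) := by
  have h1 := Q.E_eval (Q.t i)
  rw [← Q.x_eq i, ← P.eq i] at h1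
  have h2 : (Q.w : ℤ) ^ 2 * (Q.z i ^ 2 + Q.h * Q.z i) = (Q.w : ℤ) ^ 2 * Q.E.eval (Q.t i) := by
    have h3 := Q.w_z i
    have h4 := Q.w_h
    calc (Q.w : ℤ) ^ 2 * (Q.z i ^ 2 + Q.h * Q.z i) =
          ((Q.w : ℤ) * Q.z i) ^ 2 + ((Q.w : ℤ) * Q.h) * ((Q.w : ℤ) * Q.z i) := by ring
      _ = (P.y i - P.y Q.c) ^ 2 + 2 * P.y Q.c * (P.y i - P.y Q.c) := by rw [h3, h4]
      _ = P.y i ^ 2 - P.y Q.c ^ 2 := by ring
      _ = _ := by rw [← h1]; ring
  exact mul_left_cancel₀ (pow_ne_zero 2 Q.wz) h2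

theorem E_zero : Q.E.eval 0 = 0 := by
  have h1 := Q.E_eval 0
  rw [mul_zero, zero_add, ← P.eq Q.c] at h1
  have h2 : (Q.w : ℤ) ^ 2 * Q.E.eval 0 = 0 := by linarith
  exact (mul_eq_zero.1 h2).resolve_left (pow_ne_zero 2 Q.wz)

/-- `2 z + h = 2 y / w` -/
theorem w_two_z (i : ι) : (Q.w : ℤ) * (2 * Q.z i + Q.h) = 2 * P.y i := by
  have h3 := Q.w_z i
  have h4 := Q.w_h
  calc (Q.w : ℤ) * (2 * Q.z i + Q.h) = 2 * ((Q.w : ℤ) * Q.z i) + (Q.w : ℤ) * Q.h := by ring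
    _ = _ := by rw [h3, h4]; ring

theorem two_z (i : ι) : 2 * Q.z i + Q.h = 2 * P.y i / (Q.w : ℤ) := by
  rw [← Q.w_two_z i, Int.mul_ediv_cancel_left _ Q.wz]

theorem two_z_pos (i : ι) : 0 < 2 * Q.z i + Q.h := by
  have h1 := Q.w_two_z i
  have h2 := P.pos i
  by_contra h3
  have h4 := mul_nonneg Q.wpos.le (neg_nonneg.2 (not_lt.1 h3))
  rw [mul_neg, h1] at h4
  omega

theorem E_deriv (a : ℤ) : (Q.w : ℤ) ^ 2 * Q.E.derivative.eval a =
    (Q.q : ℤ) * P.f0.derivative.eval ((Q.q : ℤ) * a + P.x Q.c) := by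
  have h1 := congrArg (fun p => Polynomial.eval a (derivative p)) Q.E_spec
  simp only [derivative_add, derivative_C_mul, derivative_C, add_zero, derivative_comp,
    derivative_X, mul_one, eval_mul, eval_C, eval_comp, eval_add, eval_X] at h1
  rw [h1]

theorem E_deriv_t (i : ι) : (Q.w : ℤ) ^ 2 * Q.E.derivative.eval (Q.t i) =
    (Q.q : ℤ) * P.f0.derivative.eval (P.x i) := by
  rw [Q.E_deriv, ← Q.x_eq]

/-- a number coprime to `w` is coprime to `q` -/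
theorem isCoprime_q {u : ℤ} (hu : IsCoprime u (Q.w : ℤ)) : IsCoprime u (Q.q : ℤ) := by
  rw [Int.isCoprime_iff_gcd_eq_one, Int.gcd, ← Nat.coprime_iff_gcd_eq_one]
  rw [Int.isCoprime_iff_gcd_eq_one, Int.gcd, ← Nat.coprime_iff_gcd_eq_one] at hu
  rw [Int.natAbs_natCast] at hu ⊢
  apply Nat.coprime_of_dvd
  intro k hk hku hkq
  have h1 := Q.pq k hk hkq
  have h2 := Nat.dvd_gcd hku h1
  rw [Nat.coprime_iff_gcd_eq_one] at hu
  rw [hu] at h2
  exact hk.one_lt.ne' (Nat.dvd_one.1 h2)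

/-- the points are smooth modulo every prime -/
theorem smooth (i : ι) : IsCoprime (2 * Q.z i + Q.h) (Q.E.derivative.eval (Q.t i)) := by
  rw [Q.two_z]
  have h1 := Q.cop i
  have h2 : IsCoprime (2 * P.y i / (Q.w : ℤ)) ((Q.q : ℤ) * P.f0.derivative.eval (P.x i)) :=
    IsCoprime.mul_right (Q.isCoprime_q (IsCoprime.of_mul_right_left h1))
      (IsCoprime.of_mul_right_right h1)
  rw [← Q.E_deriv_t i] at h2
  exact IsCoprime.of_mul_right_right h2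

theorem cop_w (i : ι) : IsCoprime (2 * Q.z i + Q.h) (Q.w : ℤ) := by
  rw [Q.two_z]
  exact IsCoprime.of_mul_right_left (Q.cop i)

theorem h_cop_w : IsCoprime Q.h (Q.w : ℤ) := by
  have h1 := Q.cop_w Q.c
  rwa [Q.z_c, mul_zero, zero_add] at h1

/-- `4 E + h ^ 2` and `f` -/
theorem four_E : C ((Q.w : ℤ) ^ 2) * (C 4 * Q.E + C (Q.h ^ 2)) =
    C 4 * P.f0.comp (C (Q.q : ℤ) * X + C (P.x Q.c)) := by
  rw [← Q.E_spec]
  have h1 : C ((Q.w : ℤ) ^ 2) * C (Q.h ^ 2) = C 4 * C (P.y Q.c ^ 2) := by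
    rw [← C_mul, ← C_mul, ← mul_pow, Q.w_h]
    congr 1
    ring
  linear_combination h1

theorem E_natDegree : Q.E.natDegree = P.f0.natDegree := by
  have h3 := P.three
  have h1 : (C (Q.q : ℤ) * X + C (P.x Q.c) : ℤ[X]).natDegree = 1 := natDegree_linear Q.qz
  have h2 : (P.f0.comp (C (Q.q : ℤ) * X + C (P.x Q.c))).natDegree = P.f0.natDegree := by
    rw [natDegree_comp, h1, mul_one]
  rw [← Q.E_spec, natDegree_add_C, natDegree_C_mul (pow_ne_zero 2 Q.wz)] at h2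
  exact h2

theorem E_leadingCoeff : (Q.w : ℤ) ^ 2 * Q.E.leadingCoeff = (Q.q : ℤ) ^ P.f0.natDegree := by
  have h3 := P.three
  have h1 : (C (Q.q : ℤ) * X + C (P.x Q.c) : ℤ[X]).natDegree = 1 := natDegree_linear Q.qz
  have h2 : (P.f0.comp (C (Q.q : ℤ) * X + C (P.x Q.c))).leadingCoeff =
      (Q.q : ℤ) ^ P.f0.natDegree := by
    rw [leadingCoeff_comp (by rw [h1]; norm_num), P.monic.leadingCoeff, one_mul,
      leadingCoeff_linear Q.qz]
  have h4 : (C ((Q.w : ℤ) ^ 2) * Q.E + C (P.y Q.c ^ 2)).leadingCoeff =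
      (Q.w : ℤ) ^ 2 * Q.E.leadingCoeff := by
    have h5 : 0 < Q.E.natDegree := by rw [Q.E_natDegree]; omega
    rw [leadingCoeff, natDegree_add_C, natDegree_C_mul (pow_ne_zero 2 Q.wz), coeff_add,
      coeff_C_mul, coeff_C, if_neg h5.ne', add_zero]
    rfl
  rw [← h4, Q.E_spec, h2]

theorem E_leadingCoeff_pos : 0 < Q.E.leadingCoeff := by
  have h1 := Q.E_leadingCoeff
  have h2 : 0 < (Q.q : ℤ) ^ P.f0.natDegree := pow_pos Q.qpos _
  rw [← h1] at h2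
  exact pos_of_mul_pos_right h2 (sq_nonneg _)

/-- `w ^ 2 ≤ q ^ n` -/
theorem w_sq_le : Q.w ^ 2 ≤ Q.q ^ P.f0.natDegree := by
  have h1 := Q.E_leadingCoeff
  have h2 := Q.E_leadingCoeff_pos
  have h3 : (Q.w : ℤ) ^ 2 * 1 ≤ (Q.w : ℤ) ^ 2 * Q.E.leadingCoeff :=
    mul_le_mul_of_nonneg_left (by omega) (sq_nonneg _)
  rw [h1, mul_one] at h3
  exact_mod_cast h3

theorem E_odd : Odd Q.E.natDegree := by
  rw [Q.E_natDegree]
  exact P.odd

/-- roots of `4 E + h ^ 2` in `ℂ` come from roots of `f` -/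
theorem root_of_root (a : ℂ) (ha : 4 * (Q.E.map (Int.castRingHom ℂ)).eval a + (Q.h : ℂ) ^ 2 = 0) :
    (P.f0.map (Int.castRingHom ℂ)).IsRoot ((Q.q : ℂ) * a + P.x Q.c) := by
  have h1 := congrArg (fun p => Polynomial.eval a (p.map (Int.castRingHom ℂ))) Q.four_E
  simp only [Polynomial.map_mul, Polynomial.map_add, Polynomial.map_comp, Polynomial.map_C,
    Polynomial.map_X, eval_mul, eval_add, eval_C, eval_comp, eval_X] at h1
  simp only [eq_intCast, Int.cast_pow, Int.cast_natCast, Int.cast_ofNat] at h1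
  rw [ha, mul_zero] at h1
  have h2 := (mul_eq_zero.1 h1.symm).resolve_left (by norm_num)
  exact h2

/-- there are no roots of `4 E + h ^ 2` in a disc -/
theorem no_root {r : ℝ} (hr : ∀ s : ℂ, (P.f0.map (Int.castRingHom ℂ)).IsRoot s →
    r ≤ ‖(P.x Q.c : ℂ) - s‖) (a : ℂ) (ha : ‖a‖ < r / (Q.q : ℝ)) :
    4 * (Q.E.map (Int.castRingHom ℂ)).eval a + (Q.h : ℂ) ^ 2 ≠ 0 := by
  intro h0
  have h1 := hr _ (Q.root_of_root a h0)
  have hw : (0 : ℝ) < (Q.q : ℝ) := by exact_mod_cast Nat.pos_of_ne_zero Q.q0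
  rw [lt_div_iff₀ hw] at ha
  have h2 : ‖(P.x Q.c : ℂ) - ((Q.q : ℂ) * a + P.x Q.c)‖ = ‖a‖ * (Q.q : ℝ) := by
    have : (P.x Q.c : ℂ) - ((Q.q : ℂ) * a + P.x Q.c) = -((Q.q : ℂ) * a) := by ring
    rw [this, norm_neg, norm_mul, Complex.norm_natCast, mul_comm]
  rw [h2] at h1
  linarith

/-- the points are close to the centre -/
theorem t_le {ρ : ℝ} (i : ι) (hx : |(P.x i : ℝ) - P.x Q.c| ≤ ρ) :
    |(Q.t i : ℝ)| ≤ ρ / (Q.q : ℝ) := by
  have hw : (0 : ℝ) < (Q.q : ℝ) := by exact_mod_cast Nat.pos_of_ne_zero Q.q0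
  rw [le_div_iff₀ hw]
  have h1 : (Q.q : ℝ) * (Q.t i : ℝ) = P.x i - P.x Q.c := by exact_mod_cast Q.q_t i
  calc |(Q.t i : ℝ)| * (Q.q : ℝ) = |(Q.q : ℝ) * (Q.t i : ℝ)| := by
        rw [abs_mul, abs_of_pos hw, mul_comm]
    _ ≤ ρ := by rw [h1]; exact hx

/-- the model -/
noncomputable def toFPts : TTF.FPts ι where
  a := Q.E
  b := -Q.h
  nsq := TTF.nsq_of_odd _ _ Q.E_odd
  t := Q.t
  z := Q.z
  inj := Q.t_inj
  eq i := by
    rw [← Q.eq i]
    ring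
  pos i := by
    rw [sub_neg_eq_add]
    exact Q.two_z_pos i
  smooth i := by
    rw [sub_neg_eq_add]
    exact Int.isCoprime_iff_gcd_eq_one.1 (Q.smooth i)

theorem toFPts_t (i : ι) : Q.toFPts.t i = Q.t i := rfl

theorem toFPts_z (i : ι) : Q.toFPts.z i = Q.z i := rfl

theorem toFPts_a : Q.toFPts.a = Q.E := rfl

theorem toFPts_b : Q.toFPts.b = -Q.h := rfl

/-- the roots of the discriminant of the model are far from the centre -/
theorem toFPts_root {r : ℝ} (hr : ∀ s : ℂ, (P.f0.map (Int.castRingHom ℂ)).IsRoot s →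
    r ≤ ‖(P.x Q.c : ℂ) - s‖) (a : ℂ) (ha : (Q.toFPts.F.map (Int.castRingHom ℂ)).IsRoot a) :
    r / (Q.q : ℝ) ≤ ‖a‖ := by
  by_contra hlt
  apply Q.no_root hr a (not_le.1 hlt)
  have h1 : (Q.toFPts.F.map (Int.castRingHom ℂ)).eval a = 0 := ha
  have h2 : Q.toFPts.F = C 4 * Q.E + C (Q.h ^ 2) := by
    rw [TTF.FPts.F, Q.toFPts_a, Q.toFPts_b, neg_sq]
    rfl
  rw [h2] at h1
  simp only [Polynomial.map_add, Polynomial.map_mul, Polynomial.map_C, eval_add, eval_mul,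
    eval_C] at h1
  simpa only [eq_intCast, Int.cast_pow, Int.cast_ofNat] using h1

/-- the diagonal of the height pairing -/
theorem G_self (i : ι) : Q.toFPts.G i i = Real.log (2 * P.y i / Q.w) := by
  have hw : (0 : ℝ) < (Q.w : ℝ) := by exact_mod_cast Nat.pos_of_ne_zero Q.w0
  have h1 : (Int.gcd (Q.toFPts.t i - Q.toFPts.t i)
      (Q.toFPts.z i + Q.toFPts.z i - Q.toFPts.b) : ℤ) = 2 * Q.z i + Q.h := by
    rw [sub_self, Int.gcd_zero_left, Q.toFPts_b, Q.toFPts_z, sub_neg_eq_add, ← two_mul,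
      Int.natCast_natAbs, abs_of_pos (Q.two_z_pos i)]
  have h2 : (Int.gcd (Q.toFPts.t i - Q.toFPts.t i)
      (Q.toFPts.z i + Q.toFPts.z i - Q.toFPts.b) : ℝ) = 2 * P.y i / Q.w := by
    rw [eq_div_iff hw.ne']
    have h3 := Q.w_two_z i
    have h4 : ((Int.gcd (Q.toFPts.t i - Q.toFPts.t i)
      (Q.toFPts.z i + Q.toFPts.z i - Q.toFPts.b) : ℤ) : ℝ) = ((2 * Q.z i + Q.h : ℤ) : ℝ) := by
      rw [h1]
    rw [Int.cast_natCast] at h4
    rw [h4, mul_comm]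
    exact_mod_cast h3
  rw [TTF.FPts.G, h2]

/-- the values off the diagonal are at least zero -/
theorem G_nonneg (i j : ι) : 0 ≤ Q.toFPts.G i j := Real.log_natCast_nonneg _

/-- the values off the diagonal are at most `log |t i - t j|` -/
theorem G_le {i j : ι} (hij : i ≠ j) : Q.toFPts.G i j ≤ Real.log |(Q.t i : ℝ) - Q.t j| := by
  have h1 : Q.t i - Q.t j ≠ 0 := sub_ne_zero.2 (Q.t_inj.ne hij)
  have h2 : 0 < Int.gcd (Q.toFPts.t i - Q.toFPts.t j)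
      (Q.toFPts.z i + Q.toFPts.z j - Q.toFPts.b) := Int.gcd_pos_of_ne_zero_left _ h1
  rw [TTF.FPts.G]
  apply Real.log_le_log (by exact_mod_cast h2)
  have h3 : (Int.gcd (Q.toFPts.t i - Q.toFPts.t j)
      (Q.toFPts.z i + Q.toFPts.z j - Q.toFPts.b) : ℤ) ≤ |Q.t i - Q.t j| := by
    have h4 : ((Int.gcd (Q.toFPts.t i - Q.toFPts.t j)
      (Q.toFPts.z i + Q.toFPts.z j - Q.toFPts.b) : ℕ) : ℤ) ∣ |Q.t i - Q.t j| :=
      (dvd_abs _ _).2 (Int.gcd_dvd_left _ _)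
    exact Int.le_of_dvd (abs_pos.2 h1) h4
  have h5 : (((Int.gcd (Q.toFPts.t i - Q.toFPts.t j)
      (Q.toFPts.z i + Q.toFPts.z j - Q.toFPts.b) : ℤ)) : ℝ) ≤ ((|Q.t i - Q.t j| : ℤ) : ℝ) := by
    exact_mod_cast h3
  rw [Int.cast_natCast, Int.cast_abs, Int.cast_sub] at h5
  exact h5

/-- the height pairing is symmetric -/
theorem G_symm (i j : ι) : Q.toFPts.G i j = Q.toFPts.G j i := by
  rw [TTF.FPts.G, TTF.FPts.G]
  have h1 : Int.gcd (Q.toFPts.t i - Q.toFPts.t j) (Q.toFPts.z i + Q.toFPts.z j - Q.toFPts.b) =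
      Int.gcd (Q.toFPts.t j - Q.toFPts.t i) (Q.toFPts.z j + Q.toFPts.z i - Q.toFPts.b) := by
    rw [← Int.neg_gcd, neg_sub, add_comm (Q.toFPts.z i)]
  rw [h1]

end QData

end Pool.TT.Five
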