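import Pool.Agent.Lib.MP_695920_nt.TT.Five.Cls
import Pool.Agent.Lib.MP_695920_nt.TT.Five.PosDefs

set_option autoImplicit false

/-!
TEAM TWOTORSION, `n = 5`: the model over `ℤ` of a class of integral points, in the form used
for positivity.
-/

open Polynomial

namespace Pool.TT.Five

namespace ClassData

variable {ι : Type*} {P : Pts ι} (Q : ClassData P)

/-- the model -/
noncomputable def toFPts : TTF.FPts ι where
  a := Q.E
  b := -Q.h
  nsq := TTF.nsq_of_odd _ _ Q.E_odd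
  t := Q.t
  z := Q.z
  inj := Q.t_inj
  eq i := by
    rw [← Q.eq i]
    ring
  pos i := by
    rw [sub_neg_eq_add]
    exact Q.two_z_pos i
  smooth i := by
    rw [sub_neg_eq_add]
    exact Int.isCoprime_iff_gcd_eq_one.1 (Q.smooth i)

theorem toFPts_t (i : ι) : Q.toFPts.t i = Q.t i := rfl

theorem toFPts_z (i : ι) : Q.toFPts.z i = Q.z i := rfl

theorem toFPts_a : Q.toFPts.a = Q.E := rfl

theorem toFPts_b : Q.toFPts.b = -Q.h := rfl

/-- the roots of the discriminant of the model are far from the centre -/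
theorem toFPts_root {r : ℝ} (hr : ∀ s : ℂ, (P.f0.map (Int.castRingHom ℂ)).IsRoot s →
    r ≤ ‖(P.x Q.c : ℂ) - s‖) (a : ℂ) (ha : (Q.toFPts.F.map (Int.castRingHom ℂ)).IsRoot a) :
    r / (Q.w : ℝ) ^ 3 ≤ ‖a‖ := by
  by_contra hlt
  apply Q.no_root hr a (not_le.1 hlt)
  have h1 : (Q.toFPts.F.map (Int.castRingHom ℂ)).eval a = 0 := ha
  have h2 : Q.toFPts.F = C 4 * Q.E + C (Q.h ^ 2) := by
    rw [TTF.FPts.F, Q.toFPts_a, Q.toFPts_b, neg_sq]
    rfl
  rw [h2] at h1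
  simp only [Polynomial.map_add, Polynomial.map_mul, Polynomial.map_C, eval_add, eval_mul,
    eval_C] at h1
  simpa only [eq_intCast, Int.cast_pow, Int.cast_ofNat] using h1

/-- the diagonal of the height pairing -/
theorem G_self (i : ι) : Q.toFPts.G i i = Real.log (2 * P.y i / Q.w) := by
  have hw : (0 : ℝ) < (Q.w : ℝ) := by exact_mod_cast Nat.pos_of_ne_zero Q.w0
  have h1 : (Int.gcd (Q.toFPts.t i - Q.toFPts.t i)
      (Q.toFPts.z i + Q.toFPts.z i - Q.toFPts.b) : ℤ) = 2 * Q.z i + Q.h := by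
    rw [sub_self, Int.gcd_zero_left, Q.toFPts_b, Q.toFPts_z, sub_neg_eq_add, ← two_mul,
      Int.natCast_natAbs, abs_of_pos (Q.two_z_pos i)]
  have h2 : (Int.gcd (Q.toFPts.t i - Q.toFPts.t i)
      (Q.toFPts.z i + Q.toFPts.z i - Q.toFPts.b) : ℝ) = 2 * P.y i / Q.w := by
    rw [eq_div_iff hw.ne']
    have h3 := Q.w_two_z i
    have h4 : ((Int.gcd (Q.toFPts.t i - Q.toFPts.t i)
      (Q.toFPts.z i + Q.toFPts.z i - Q.toFPts.b) : ℤ) : ℝ) = ((2 * Q.z i + Q.h : ℤ) : ℝ) := by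
      rw [h1]
    rw [Int.cast_natCast] at h4
    rw [h4, mul_comm]
    exact_mod_cast h3
  rw [TTF.FPts.G, h2]

/-- the values off the diagonal are at least zero -/
theorem G_nonneg (i j : ι) : 0 ≤ Q.toFPts.G i j := Real.log_natCast_nonneg _

/-- the values off the diagonal are at most `log |t i - t j|` -/
theorem G_le {i j : ι} (hij : i ≠ j) : Q.toFPts.G i j ≤ Real.log |(Q.t i : ℝ) - Q.t j| := by
  have h1 : Q.t i - Q.t j ≠ 0 := sub_ne_zero.2 (Q.t_inj.ne hij)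
  have h2 : 0 < Int.gcd (Q.toFPts.t i - Q.toFPts.t j)
      (Q.toFPts.z i + Q.toFPts.z j - Q.toFPts.b) := Int.gcd_pos_of_ne_zero_left _ h1
  rw [TTF.FPts.G]
  apply Real.log_le_log (by exact_mod_cast h2)
  have h3 : (Int.gcd (Q.toFPts.t i - Q.toFPts.t j)
      (Q.toFPts.z i + Q.toFPts.z j - Q.toFPts.b) : ℤ) ≤ |Q.t i - Q.t j| := by
    have h4 : ((Int.gcd (Q.toFPts.t i - Q.toFPts.t j)
      (Q.toFPts.z i + Q.toFPts.z j - Q.toFPts.b) : ℕ) : ℤ) ∣ |Q.t i - Q.t j| :=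
      (dvd_abs _ _).2 (Int.gcd_dvd_left _ _)
    exact Int.le_of_dvd (abs_pos.2 h1) h4
  have h5 : (((Int.gcd (Q.toFPts.t i - Q.toFPts.t j)
      (Q.toFPts.z i + Q.toFPts.z j - Q.toFPts.b) : ℤ)) : ℝ) ≤ ((|Q.t i - Q.t j| : ℤ) : ℝ) := by
    exact_mod_cast h3
  rw [Int.cast_natCast, Int.cast_abs, Int.cast_sub] at h5
  exact h5

/-- the height pairing is symmetric -/
theorem G_symm (i j : ι) : Q.toFPts.G i j = Q.toFPts.G j i := by
  rw [TTF.FPts.G, TTF.FPts.G]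
  have h1 : Int.gcd (Q.toFPts.t i - Q.toFPts.t j) (Q.toFPts.z i + Q.toFPts.z j - Q.toFPts.b) =
      Int.gcd (Q.toFPts.t j - Q.toFPts.t i) (Q.toFPts.z j + Q.toFPts.z i - Q.toFPts.b) := by
    rw [← Int.neg_gcd, neg_sub, add_comm (Q.toFPts.z i)]
  rw [h1]

end ClassData

end Pool.TT.Five
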