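import Mathlib

/-! # The arithmetic of a function with given zeros at integral points

`O = ℤ[t, z]`, `z² = a(t) + b z`. A function which vanishes to order `a i` at the integral points
`Q i = (t i, q i)` has a value at the conjugate `Q j*` which is divisible by
`∏ gcd(t i - t j, q i + q j - b) ^ (a i)`, if `Q j` is a smooth point modulo every prime.
-/

set_option autoImplicit false

open Polynomial

namespace Pool.TT.Five

/-- the ring `ℤ[t, z]`, `z² = a(t) + b z` -/
abbrev OZ (a : ℤ[X]) (b : ℤ) := QuadraticAlgebra ℤ[X] a (C b)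

/-- the value at an integral point -/
def ozEv (a : ℤ[X]) (b t z : ℤ) (h : z ^ 2 = a.eval t + b * z) : OZ a b →+* ℤ where
  toFun w := w.re.eval t + w.im.eval t * z
  map_one' := by
    rw [QuadraticAlgebra.re_one, QuadraticAlgebra.im_one]
    simp
  map_zero' := by
    rw [QuadraticAlgebra.re_zero, QuadraticAlgebra.im_zero]
    simp
  map_add' w w' := by
    rw [QuadraticAlgebra.re_add, QuadraticAlgebra.im_add]
    simp only [eval_add]
    ring
  map_mul' w w' := by
    rw [QuadraticAlgebra.re_mul, QuadraticAlgebra.im_mul]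
    simp only [eval_add, eval_mul, eval_C]
    linear_combination (-(eval t w.im * eval t w'.im)) * h

theorem ozEv_apply (a : ℤ[X]) (b t z : ℤ) (h : z ^ 2 = a.eval t + b * z) (w : OZ a b) :
    ozEv a b t z h w = w.re.eval t + w.im.eval t * z := rfl

theorem ozEv_algebraMap (a : ℤ[X]) (b t z : ℤ) (h : z ^ 2 = a.eval t + b * z) (P : ℤ[X]) :
    ozEv a b t z h (algebraMap ℤ[X] (OZ a b) P) = P.eval t := by
  rw [ozEv_apply, QuadraticAlgebra.algebraMap_re, QuadraticAlgebra.algebraMap_im]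
  simp

/-- a product of powers of distinct linear factors divides, if every one divides -/
private theorem relar_prod_dvd {ι : Type*} (t : ι → ℤ) (ht : Function.Injective t) (e : ι → ℕ)
    (S : Finset ι) (P : ℤ[X]) (h : ∀ i ∈ S, (X - C (t i)) ^ e i ∣ P) :
    ∏ i ∈ S, (X - C (t i)) ^ e i ∣ P := by
  classical
  have hm : (∏ i ∈ S, (X - C (t i)) ^ e i).Monic :=
    monic_prod_of_monic _ _ fun i _ => (monic_X_sub_C _).pow _
  rw [← map_dvd_map (Int.castRingHom ℚ) (RingHom.injective_int _) hm, Polynomial.map_prod]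
  refine Finset.prod_dvd_of_coprime ?_ fun i hi => Polynomial.map_dvd _ (h i hi)
  intro i _ j _ hij
  have h1 : ∀ k, ((X - C (t k)) ^ e k).map (Int.castRingHom ℚ) = (X - C (t k : ℚ)) ^ e k := by
    intro k
    rw [Polynomial.map_pow, Polynomial.map_sub, map_X, map_C]
    rfl
  have h2 : (t i : ℚ) - (t j : ℚ) ≠ 0 := by
    rw [sub_ne_zero]
    intro h3
    exact hij (ht (by exact_mod_cast h3))
  have h3 : IsCoprime (X - C (t i : ℚ)) (X - C (t j : ℚ)) :=
    isCoprime_X_sub_C_of_isUnit_sub (isUnit_iff_ne_zero.2 h2)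
  have h4 : IsCoprime (((X - C (t i)) ^ e i).map (Int.castRingHom ℚ))
      (((X - C (t j)) ^ e j).map (Int.castRingHom ℚ)) := by
    rw [h1, h1]
    exact h3.pow
  exact h4

/-- divisibility by a polynomial is divisibility of the coordinates -/
private theorem relar_dvd_iff {a : ℤ[X]} {b : ℤ} (P : ℤ[X]) (w : OZ a b) :
    algebraMap ℤ[X] (OZ a b) P ∣ w ↔ P ∣ w.re ∧ P ∣ w.im := by
  constructor
  · rintro ⟨v, rfl⟩
    rw [QuadraticAlgebra.re_mul, QuadraticAlgebra.im_mul, QuadraticAlgebra.algebraMap_re,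
      QuadraticAlgebra.algebraMap_im]
    constructor
    · exact ⟨v.re, by ring⟩
    · exact ⟨v.im, by ring⟩
  · rintro ⟨⟨x, hx⟩, ⟨y, hy⟩⟩
    refine ⟨⟨x, y⟩, ?_⟩
    ext1
    · rw [QuadraticAlgebra.re_mul, QuadraticAlgebra.algebraMap_re, QuadraticAlgebra.algebraMap_im,
        hx]
      ring
    · rw [QuadraticAlgebra.im_mul, QuadraticAlgebra.algebraMap_re, QuadraticAlgebra.algebraMap_im,
        hy]
      ring

/-- the product of the divisibilities at several points -/
theorem relar_combine {ι : Type*} (a : ℤ[X]) (b : ℤ) (t q : ι → ℤ) (ht : Function.Injective t)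
    (e : ι → ℕ) (Φ : OZ a b)
    (hV : ∀ i, algebraMap ℤ[X] (OZ a b) ((X - C (t i)) ^ e i) ∣
      (⟨-C (b - q i), 1⟩ : OZ a b) ^ e i * Φ) (S : Finset ι) :
    algebraMap ℤ[X] (OZ a b) (∏ i ∈ S, (X - C (t i)) ^ e i) ∣
      (∏ i ∈ S, (⟨-C (b - q i), 1⟩ : OZ a b) ^ e i) * Φ := by
  classical
  have h1 : ∀ i ∈ S, algebraMap ℤ[X] (OZ a b) ((X - C (t i)) ^ e i) ∣
      (∏ i ∈ S, (⟨-C (b - q i), 1⟩ : OZ a b) ^ e i) * Φ := by
    intro i hi
    rw [← Finset.mul_prod_erase S _ hi]
    have h2 := (hV i).mul_right (∏ k ∈ S.erase i, (⟨-C (b - q k), 1⟩ : OZ a b) ^ e k)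
    refine h2.trans (dvd_of_eq ?_)
    ring
  rw [relar_dvd_iff]
  constructor
  · exact relar_prod_dvd t ht e S _ fun i hi => ((relar_dvd_iff _ _).1 (h1 i hi)).1
  · exact relar_prod_dvd t ht e S _ fun i hi => ((relar_dvd_iff _ _).1 (h1 i hi)).2

private theorem relar_val_prod {ι : Type*} (p : ℕ) [Fact p.Prime] (S : Finset ι) (f : ι → ℤ)
    (e : ι → ℕ) (hf : ∀ i ∈ S, f i ≠ 0) :
    padicValInt p (∏ i ∈ S, f i ^ e i) = ∑ i ∈ S, e i * padicValInt p (f i) := by
  classical
  have hpow : ∀ (x : ℤ), x ≠ 0 → ∀ n : ℕ, padicValInt p (x ^ n) = n * padicValInt p x := by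
    intro x hx n
    induction n with
    | zero => simp
    | succ n ih =>
      rw [pow_succ, padicValInt.mul (pow_ne_zero _ hx) hx, ih]
      ring
  induction S using Finset.induction_on with
  | empty => simp
  | insert i S hi ih =>
    rw [Finset.prod_insert hi, Finset.sum_insert hi, padicValInt.mul
      (pow_ne_zero _ (hf i (Finset.mem_insert_self _ _)))
      (Finset.prod_ne_zero_iff.2 fun k hk => pow_ne_zero _ (hf k (Finset.mem_insert_of_mem hk))),
      hpow _ (hf i (Finset.mem_insert_self _ _)), ih fun k hk => hf k (Finset.mem_insert_of_mem hk)]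

theorem relar_conj_eq {a : ℤ[X]} {b t z : ℤ} (h : z ^ 2 = a.eval t + b * z) :
    (b - z) ^ 2 = a.eval t + b * (b - z) := by
  linear_combination h

theorem relar_ev_star {a : ℤ[X]} {b t z : ℤ} (h : z ^ 2 = a.eval t + b * z) (w : OZ a b) :
    ozEv a b t z h (star w) = ozEv a b t (b - z) (relar_conj_eq h) w := by
  rw [ozEv_apply, ozEv_apply, QuadraticAlgebra.re_star, QuadraticAlgebra.im_star]
  simp only [eval_add, eval_mul, eval_C, eval_neg]
  ring

private theorem relar_cancel {a : ℤ[X]} {b : ℤ} {P : ℤ[X]} (hP : P ≠ 0) {v w : OZ a b}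
    (h : algebraMap ℤ[X] (OZ a b) P * v = algebraMap ℤ[X] (OZ a b) P * w) : v = w := by
  have h1 := congrArg QuadraticAlgebra.re h
  have h2 := congrArg QuadraticAlgebra.im h
  rw [QuadraticAlgebra.re_mul, QuadraticAlgebra.re_mul, QuadraticAlgebra.algebraMap_re,
    QuadraticAlgebra.algebraMap_im, mul_zero, zero_mul, add_zero, zero_mul, add_zero] at h1
  rw [QuadraticAlgebra.im_mul, QuadraticAlgebra.im_mul, QuadraticAlgebra.algebraMap_re,
    QuadraticAlgebra.algebraMap_im] at h2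
  ext1
  · exact mul_left_cancel₀ hP h1
  · apply mul_left_cancel₀ hP
    simpa using h2

private theorem relar_ev_lin {a : ℤ[X]} {b t z c : ℤ} (h : z ^ 2 = a.eval t + b * z) :
    ozEv a b t z h ⟨-C c, 1⟩ = z - c := by
  rw [ozEv_apply]
  simp only [eval_neg, eval_C, eval_one]
  ring

/-- the function does not vanish at the conjugate points -/
theorem relar_ne_zero {ι : Type*} [Fintype ι] [DecidableEq ι] (a : ℤ[X]) (b : ℤ) (t q : ι → ℤ)
    (ht : Function.Injective t) (e : ι → ℕ) (Φ : OZ a b)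
    (hV : ∀ i, algebraMap ℤ[X] (OZ a b) ((X - C (t i)) ^ e i) ∣
      (⟨-C (b - q i), 1⟩ : OZ a b) ^ e i * Φ)
    (ε : ℤ[X]) (hε : ε = 1 ∨ ε = -1)
    (hN : Φ.norm = ε * ∏ i, (X - C (t i)) ^ e i) (j : ι)
    (hq : q j ^ 2 = a.eval (t j) + b * q j) (hj : 2 * q j - b ≠ 0) :
    ozEv a b (t j) (b - q j) (relar_conj_eq hq) Φ ≠ 0 := by
  obtain ⟨ψ, hψ⟩ := hV j
  have h1 : (⟨-C (b - q j), 1⟩ : OZ a b) ^ e j *
      algebraMap ℤ[X] (OZ a b) (ε * ∏ i ∈ Finset.univ.erase j, (X - C (t i)) ^ e i) =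
      ψ * star Φ := by
    have hP : (X - C (t j)) ^ e j ≠ 0 := pow_ne_zero _ (X_sub_C_ne_zero _)
    refine relar_cancel hP ?_
    have h2 : algebraMap ℤ[X] (OZ a b) ((X - C (t j)) ^ e j) *
        ((⟨-C (b - q j), 1⟩ : OZ a b) ^ e j *
          algebraMap ℤ[X] (OZ a b) (ε * ∏ i ∈ Finset.univ.erase j, (X - C (t i)) ^ e i)) =
        (⟨-C (b - q j), 1⟩ : OZ a b) ^ e j * algebraMap ℤ[X] (OZ a b) Φ.norm := by
      rw [hN, ← Finset.mul_prod_erase Finset.univ _ (Finset.mem_univ j), mul_left_comm ε,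
        map_mul (algebraMap ℤ[X] (OZ a b)) ((X - C (t j)) ^ e j)]
      ring
    rw [h2, QuadraticAlgebra.algebraMap_norm_eq_mul_star, ← mul_assoc, hψ]
    ring
  have h3 := congrArg (ozEv a b (t j) (q j) hq) h1
  rw [map_mul (ozEv a b (t j) (q j) hq), map_mul (ozEv a b (t j) (q j) hq) ψ, map_pow,
    relar_ev_lin, ozEv_algebraMap, relar_ev_star hq] at h3
  intro h0
  rw [h0, mul_zero] at h3
  have h4 : q j - (b - q j) ≠ 0 := by
    have : q j - (b - q j) = 2 * q j - b := by ring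
    rw [this]
    exact hj
  have h5 : (ε * ∏ i ∈ Finset.univ.erase j, (X - C (t i)) ^ e i).eval (t j) ≠ 0 := by
    rw [eval_mul, eval_prod]
    refine mul_ne_zero ?_ (Finset.prod_ne_zero_iff.2 fun i hi => ?_)
    · rcases hε with rfl | rfl <;> simp
    · rw [eval_pow, eval_sub, eval_X, eval_C]
      refine pow_ne_zero _ (sub_ne_zero.2 fun h => ?_)
      exact (Finset.ne_of_mem_erase hi) (ht h.symm)
  exact mul_ne_zero (pow_ne_zero _ h4) h5 h3

/-- the local inequality at one prime -/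
private theorem relar_local {a : ℤ[X]} {b : ℤ} {ti tj qi qj : ℤ} (p : ℕ) [hp : Fact p.Prime]
    (hti : ti ≠ tj) (hqi : qi ^ 2 = a.eval ti + b * qi) (hqj : qj ^ 2 = a.eval tj + b * qj)
    (hsm : IsCoprime (2 * qj - b) (a.derivative.eval tj))
    (hv : 0 < padicValInt p (Int.gcd (ti - tj) (qi + qj - b))) :
    qi - qj ≠ 0 ∧ padicValInt p (Int.gcd (ti - tj) (qi + qj - b)) + padicValInt p (qi - qj) ≤
      padicValInt p (ti - tj) := by
  have hpz : Prime (p : ℤ) := Nat.prime_iff_prime_int.1 hp.out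
  set D : ℤ := (Int.gcd (ti - tj) (qi + qj - b) : ℤ) with hD
  have hD1 : D ∣ ti - tj := Int.gcd_dvd_left _ _
  have hD2 : D ∣ qi + qj - b := Int.gcd_dvd_right _ _
  have hsub : ti - tj ≠ 0 := sub_ne_zero.2 hti
  have hvle : ∀ x : ℤ, x ≠ 0 → D ∣ x → padicValInt p D ≤ padicValInt p x := by
    intro x hx hDx
    have h1 := (padicValInt_dvd (p := p) D).trans hDx
    rw [padicValInt_dvd_iff] at h1
    exact h1.resolve_left hx
  have hpD : (p : ℤ) ∣ D := by
    by_contra hcon
    rw [padicValInt.eq_zero_of_not_dvd hcon] at hv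
    exact lt_irrefl _ hv
  obtain ⟨a1, ha1⟩ : X - C tj ∣ a - C (a.eval tj) := X_sub_C_dvd_sub_C_eval
  have hder : a.derivative.eval tj = a1.eval tj := by
    have h1 := congrArg (fun P => (derivative P).eval tj) ha1
    simp only [derivative_sub, derivative_C, sub_zero, derivative_mul, derivative_X, one_mul,
      eval_add, eval_mul, eval_sub, eval_X, eval_C, sub_self, zero_mul, add_zero] at h1
    exact h1
  have hprod : (qi - qj) * (qi + qj - b) = (ti - tj) * a1.eval ti := by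
    have h1 := congrArg (fun P => P.eval ti) ha1
    simp only [eval_sub, eval_mul, eval_X, eval_C] at h1
    linear_combination hqi - hqj + h1
  by_cases hpq : (p : ℤ) ∣ qi - qj
  · have h1 : (p : ℤ) ∣ 2 * qj - b := by
      have h2 := dvd_sub (hpD.trans hD2) hpq
      have h3 : qi + qj - b - (qi - qj) = 2 * qj - b := by ring
      rwa [h3] at h2
    have h2 : ¬ (p : ℤ) ∣ a1.eval tj := by
      intro h3
      rw [← hder] at h3
      obtain ⟨u, v, huv⟩ := hsm
      have h4 : (p : ℤ) ∣ 1 := by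
        rw [← huv]
        exact dvd_add (h1.mul_left _) (h3.mul_left _)
      exact hpz.not_isUnit (isUnit_of_dvd_one h4)
    have h3 : ¬ (p : ℤ) ∣ a1.eval ti := by
      intro h4
      have h5 : ti - tj ∣ a1.eval ti - a1.eval tj := sub_dvd_eval_sub ti tj a1
      have h6 := dvd_sub h4 ((hpD.trans hD1).trans h5)
      rw [sub_sub_cancel] at h6
      exact h2 h6
    have h4 : a1.eval ti ≠ 0 := fun h5 => h3 (h5 ▸ dvd_zero _)
    have h5 : (qi - qj) * (qi + qj - b) ≠ 0 := by
      rw [hprod]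
      exact mul_ne_zero hsub h4
    refine ⟨left_ne_zero_of_mul h5, ?_⟩
    have h6 := congrArg (padicValInt p) hprod
    rw [padicValInt.mul (left_ne_zero_of_mul h5) (right_ne_zero_of_mul h5),
      padicValInt.mul hsub h4, padicValInt.eq_zero_of_not_dvd h3, add_zero] at h6
    have h7 := hvle _ (right_ne_zero_of_mul h5) hD2
    omega
  · refine ⟨fun h => hpq (h ▸ dvd_zero _), ?_⟩
    rw [padicValInt.eq_zero_of_not_dvd hpq, add_zero]
    exact hvle _ hsub hD1

/-- **The value at a conjugate point.** -/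
theorem relar_dvd {ι : Type*} [Fintype ι] [DecidableEq ι] (a : ℤ[X]) (b : ℤ) (t q : ι → ℤ)
    (ht : Function.Injective t) (hq : ∀ i, q i ^ 2 = a.eval (t i) + b * q i) (e : ι → ℕ)
    (Φ : OZ a b)
    (hV : ∀ i, algebraMap ℤ[X] (OZ a b) ((X - C (t i)) ^ e i) ∣
      (⟨-C (b - q i), 1⟩ : OZ a b) ^ e i * Φ) (j : ι) (hj : 2 * q j - b ≠ 0)
    (hsm : IsCoprime (2 * q j - b) (a.derivative.eval (t j))) :
    (∏ i, (Int.gcd (t i - t j) (q i + q j - b) : ℤ) ^ e i) ∣
      ozEv a b (t j) (b - q j) (relar_conj_eq (hq j)) Φ := by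
  set N := ozEv a b (t j) (b - q j) (relar_conj_eq (hq j)) Φ with hNdef
  by_cases hN0 : N = 0
  · rw [hN0]
    exact dvd_zero _
  set I : ι → ℤ := fun i => (Int.gcd (t i - t j) (q i + q j - b) : ℤ) with hI
  have hIj : I j = |2 * q j - b| := by
    show (Int.gcd (t j - t j) (q j + q j - b) : ℤ) = _
    rw [sub_self, Int.gcd_zero_left, show q j + q j - b = 2 * q j - b by ring]
    exact Int.natCast_natAbs _
  have hI0 : ∀ i, I i ≠ 0 := by
    intro i h0
    have h1 : Int.gcd (t i - t j) (q i + q j - b) = 0 := Int.natCast_eq_zero.1 h0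
    obtain ⟨h2, h3⟩ := Int.gcd_eq_zero_iff.1 h1
    have h4 : i = j := ht (sub_eq_zero.1 h2)
    subst h4
    exact hj (by linarith)
  have hD0 : ∏ i, I i ^ e i ≠ 0 := Finset.prod_ne_zero_iff.2 fun i _ => pow_ne_zero _ (hI0 i)
  rw [← Int.natAbs_dvd_natAbs, ← Nat.factorization_prime_le_iff_dvd (Int.natAbs_ne_zero.2 hD0)
    (Int.natAbs_ne_zero.2 hN0)]
  intro p hp
  have : Fact p.Prime := ⟨hp⟩
  rw [Nat.factorization_def _ hp, Nat.factorization_def _ hp]
  show padicValInt p (∏ i, I i ^ e i) ≤ padicValInt p N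
  have hpz : Prime (p : ℤ) := Nat.prime_iff_prime_int.1 hp
  rw [relar_val_prod p _ _ _ fun i _ => hI0 i, ← Finset.add_sum_erase _ _ (Finset.mem_univ j)]
  set S : Finset ι := (Finset.univ.erase j).filter fun i => 0 < padicValInt p (I i) with hS
  have hSj : ∀ i ∈ S, i ≠ j := fun i hi => Finset.ne_of_mem_erase (Finset.mem_filter.1 hi).1
  have hSt : ∀ i ∈ S, t i ≠ t j := fun i hi h => hSj i hi (ht h)
  have hSv : ∀ i ∈ S, q i - q j ≠ 0 ∧ padicValInt p (I i) + padicValInt p (q i - q j) ≤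
      padicValInt p (t i - t j) := fun i hi =>
    relar_local p (hSt i hi) (hq i) (hq j) hsm (Finset.mem_filter.1 hi).2
  have hsumS : ∑ i ∈ Finset.univ.erase j, e i * padicValInt p (I i) =
      ∑ i ∈ S, e i * padicValInt p (I i) := by
    rw [hS, Finset.sum_filter]
    refine Finset.sum_congr rfl fun i _ => ?_
    split_ifs with h
    · rfl
    · rw [Nat.eq_zero_of_not_pos h, mul_zero]
  rw [hsumS]
  have hSsum : ∑ i ∈ S, e i * padicValInt p (I i) + ∑ i ∈ S, e i * padicValInt p (q i - q j) ≤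
      ∑ i ∈ S, e i * padicValInt p (t j - t i) := by
    rw [← Finset.sum_add_distrib]
    refine Finset.sum_le_sum fun i hi => ?_
    rw [← mul_add]
    have h1 : padicValInt p (t j - t i) = padicValInt p (t i - t j) := by
      rw [← neg_sub, padicValInt, padicValInt, Int.natAbs_neg]
    rw [h1]
    exact Nat.mul_le_mul_left _ (hSv i hi).2
  have hq1 : ∏ i ∈ S, (q i - q j) ^ e i ≠ 0 :=
    Finset.prod_ne_zero_iff.2 fun i hi => pow_ne_zero _ (hSv i hi).1
  have ht1 : ∏ i ∈ S, (t j - t i) ^ e i ≠ 0 :=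
    Finset.prod_ne_zero_iff.2 fun i hi => pow_ne_zero _ (sub_ne_zero.2 (hSt i hi).symm)
  have hevS : ozEv a b (t j) (b - q j) (relar_conj_eq (hq j))
      (∏ i ∈ S, (⟨-C (b - q i), 1⟩ : OZ a b) ^ e i) = ∏ i ∈ S, (q i - q j) ^ e i := by
    rw [map_prod]
    refine Finset.prod_congr rfl fun i _ => ?_
    rw [map_pow, relar_ev_lin, show b - q j - (b - q i) = q i - q j by ring]
  have hevT : (∏ i ∈ S, (X - C (t i)) ^ e i).eval (t j) = ∏ i ∈ S, (t j - t i) ^ e i := by
    rw [eval_prod]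
    refine Finset.prod_congr rfl fun i _ => ?_
    rw [eval_pow, eval_sub, eval_X, eval_C]
  by_cases hpj : (p : ℤ) ∣ 2 * q j - b
  · -- the point itself is used
    have hjS : j ∉ S := fun h => hSj j h rfl
    obtain ⟨ψ, hψ⟩ := relar_combine a b t q ht e Φ hV (insert j S)
    rw [Finset.prod_insert hjS, Finset.prod_insert hjS] at hψ
    obtain ⟨a1, ha1⟩ : X - C (t j) ∣ a - C (a.eval (t j)) := X_sub_C_dvd_sub_C_eval
    have hder : a.derivative.eval (t j) = a1.eval (t j) := by
      have h1 := congrArg (fun P => (derivative P).eval (t j)) ha1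
      simp only [derivative_sub, derivative_C, sub_zero, derivative_mul, derivative_X, one_mul,
        eval_add, eval_mul, eval_sub, eval_X, eval_C, sub_self, zero_mul, add_zero] at h1
      exact h1
    have hlin : (⟨-C (q j), 1⟩ : OZ a b) * ⟨-C (b - q j), 1⟩ =
        algebraMap ℤ[X] (OZ a b) ((X - C (t j)) * a1) := by
      rw [← ha1]
      have hC : C (a.eval (t j)) = C (q j) ^ 2 - C b * C (q j) := by
        rw [← C_pow, ← C_mul, ← C_sub]
        congr 1
        linear_combination -(hq j)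
      ext1
      · rw [QuadraticAlgebra.re_mul, QuadraticAlgebra.algebraMap_re, hC, C_sub]
        ring
      · rw [QuadraticAlgebra.im_mul, QuadraticAlgebra.algebraMap_im, C_sub]
        ring
    have h1 : algebraMap ℤ[X] (OZ a b) (a1 ^ e j) *
        ((∏ i ∈ S, (⟨-C (b - q i), 1⟩ : OZ a b) ^ e i) * Φ) =
        algebraMap ℤ[X] (OZ a b) (∏ i ∈ S, (X - C (t i)) ^ e i) *
          ((⟨-C (q j), 1⟩ : OZ a b) ^ e j * ψ) := by
      have hP : (X - C (t j)) ^ e j ≠ 0 := pow_ne_zero _ (X_sub_C_ne_zero _)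
      refine relar_cancel hP ?_
      calc algebraMap ℤ[X] (OZ a b) ((X - C (t j)) ^ e j) *
          (algebraMap ℤ[X] (OZ a b) (a1 ^ e j) *
            ((∏ i ∈ S, (⟨-C (b - q i), 1⟩ : OZ a b) ^ e i) * Φ)) =
          (algebraMap ℤ[X] (OZ a b) ((X - C (t j)) * a1)) ^ e j *
            ((∏ i ∈ S, (⟨-C (b - q i), 1⟩ : OZ a b) ^ e i) * Φ) := by
            rw [map_mul, map_pow, map_pow, mul_pow]
            ring
        _ = (⟨-C (q j), 1⟩ : OZ a b) ^ e j * ((⟨-C (b - q j), 1⟩ : OZ a b) ^ e j *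
            (∏ i ∈ S, (⟨-C (b - q i), 1⟩ : OZ a b) ^ e i) * Φ) := by
            rw [← hlin, mul_pow]
            ring
        _ = _ := by
            rw [hψ, map_mul]
            ring
    have h2 := congrArg (ozEv a b (t j) (b - q j) (relar_conj_eq (hq j))) h1
    rw [map_mul (ozEv a b (t j) (b - q j) (relar_conj_eq (hq j))),
      map_mul (ozEv a b (t j) (b - q j) (relar_conj_eq (hq j))) (∏ i ∈ S, _),
      map_mul (ozEv a b (t j) (b - q j) (relar_conj_eq (hq j))) (algebraMap _ _ _),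
      map_mul (ozEv a b (t j) (b - q j) (relar_conj_eq (hq j))) (_ ^ _),
      ozEv_algebraMap, ozEv_algebraMap, hevS, hevT, map_pow, relar_ev_lin, eval_pow,
      ← hder, ← hNdef, show b - q j - q j = -(2 * q j - b) by ring] at h2
    set M := ozEv a b (t j) (b - q j) (relar_conj_eq (hq j)) ψ with hM
    have hpd : ¬ (p : ℤ) ∣ a.derivative.eval (t j) := by
      intro h3
      obtain ⟨u, v, huv⟩ := hsm
      have h4 : (p : ℤ) ∣ 1 := by
        rw [← huv]
        exact dvd_add (hpj.mul_left _) (h3.mul_left _)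
      exact hpz.not_isUnit (isUnit_of_dvd_one h4)
    have hd0 : a.derivative.eval (t j) ^ e j ≠ 0 :=
      pow_ne_zero _ fun h => hpd (h ▸ dvd_zero _)
    have hv0 : padicValInt p (a.derivative.eval (t j) ^ e j) = 0 := by
      refine padicValInt.eq_zero_of_not_dvd fun h => hpd (hpz.dvd_of_dvd_pow h)
    have hlhs : a.derivative.eval (t j) ^ e j * ((∏ i ∈ S, (q i - q j) ^ e i) * N) ≠ 0 :=
      mul_ne_zero hd0 (mul_ne_zero hq1 hN0)
    have hrhs := hlhs
    rw [h2] at hrhs
    have hM0 : M ≠ 0 := right_ne_zero_of_mul (right_ne_zero_of_mul hrhs)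
    have hj0 : (-(2 * q j - b)) ^ e j ≠ 0 := pow_ne_zero _ (neg_ne_zero.2 hj)
    have h3 := congrArg (padicValInt p) h2
    rw [padicValInt.mul hd0 (mul_ne_zero hq1 hN0), padicValInt.mul hq1 hN0,
      padicValInt.mul ht1 (mul_ne_zero hj0 hM0), padicValInt.mul hj0 hM0, hv0, zero_add,
      relar_val_prod p S _ _ fun i hi => (hSv i hi).1,
      relar_val_prod p S _ _ fun i hi => sub_ne_zero.2 (hSt i hi).symm] at h3
    have h4 : padicValInt p ((-(2 * q j - b)) ^ e j) = e j * padicValInt p (I j) := by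
      have h5 := relar_val_prod p {j} (fun _ => -(2 * q j - b)) e
        (fun _ _ => neg_ne_zero.2 hj)
      rw [Finset.prod_singleton, Finset.sum_singleton] at h5
      rw [h5, hIj, padicValInt, padicValInt, Int.natAbs_neg, Int.natAbs_abs]
    rw [h4] at h3
    omega
  · have hvj : padicValInt p (I j) = 0 := by
      rw [hIj]
      refine padicValInt.eq_zero_of_not_dvd fun h => hpj ((dvd_abs _ _).1 h)
    rw [hvj, mul_zero, zero_add]
    obtain ⟨ψ, hψ⟩ := relar_combine a b t q ht e Φ hV S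
    have h2 := congrArg (ozEv a b (t j) (b - q j) (relar_conj_eq (hq j))) hψ
    rw [map_mul (ozEv a b (t j) (b - q j) (relar_conj_eq (hq j))),
      map_mul (ozEv a b (t j) (b - q j) (relar_conj_eq (hq j))) (algebraMap _ _ _),
      ozEv_algebraMap, hevS, hevT, ← hNdef] at h2
    set M := ozEv a b (t j) (b - q j) (relar_conj_eq (hq j)) ψ with hM
    have hrhs := mul_ne_zero hq1 hN0
    rw [h2] at hrhs
    have hM0 : M ≠ 0 := right_ne_zero_of_mul hrhs
    have h3 := congrArg (padicValInt p) h2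
    rw [padicValInt.mul hq1 hN0, padicValInt.mul ht1 hM0,
      relar_val_prod p S _ _ fun i hi => (hSv i hi).1,
      relar_val_prod p S _ _ fun i hi => sub_ne_zero.2 (hSt i hi).symm] at h3
    omega

end Pool.TT.Five
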