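import Mathlib

/-! # Zero free holomorphic functions on a disc: division by zeros and oscillation

Used for the relations (R) of the case n = 5.
-/

set_option autoImplicit false

open Metric

namespace Pool.TT.Five

/-- The oscillation of `log |φ|` in a small concentric disc (Borel-Carathéodory). -/
theorem rel_osc {φ : ℂ → ℂ} {R B : ℝ} (hR : 0 < R) (hB : 0 < B)
    (hφ : DifferentiableOn ℂ φ (ball 0 R))
    (h1 : ∀ t ∈ ball (0 : ℂ) R, ‖φ t‖ ≤ Real.exp B)
    (h2 : ∀ t ∈ ball (0 : ℂ) R, Real.exp (-B) ≤ ‖φ t‖) (t : ℂ) (ht : ‖t‖ < R) :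
    |Real.log ‖φ t‖ - Real.log ‖φ 0‖| ≤ 4 * B * ‖t‖ / (R - ‖t‖) := by
  have hpos : ∀ t ∈ ball (0 : ℂ) R, 0 < ‖φ t‖ := fun t ht => (Real.exp_pos _).trans_le (h2 t ht)
  have hne : ∀ t ∈ ball (0 : ℂ) R, φ t ≠ 0 := fun t ht => norm_pos_iff.1 (hpos t ht)
  have hd : DifferentiableOn ℂ (fun t => deriv φ t / φ t) (ball 0 R) :=
    (hφ.deriv isOpen_ball).div hφ hne
  obtain ⟨g, hg0, hg⟩ := hd.isExactOn_ball.with_val_at 0 0
  have h0 : (0 : ℂ) ∈ ball (0 : ℂ) R := mem_ball_self hR
  -- `φ = φ 0 * exp g`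
  have hconst : ∀ t ∈ ball (0 : ℂ) R, φ t * Complex.exp (-g t) = φ 0 := by
    intro t ht
    have hder : ∀ s ∈ ball (0 : ℂ) R,
        HasDerivAt (fun s => φ s * Complex.exp (-g s)) 0 s := by
      intro s hs
      have h3 := (hφ.differentiableAt (isOpen_ball.mem_nhds hs)).hasDerivAt
      have h4 := (hg s hs).neg.cexp
      have h5 := h3.mul h4
      simp only [Pi.neg_apply] at h5
      have h6 : deriv φ s * Complex.exp (-g s) +
          φ s * (Complex.exp (-g s) * -(deriv φ s / φ s)) = 0 := by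
        have := hne s hs
        field_simp
        ring
      rw [h6] at h5
      exact h5
    have hconv : Convex ℝ (ball (0 : ℂ) R) := convex_ball 0 R
    have h7 := hconv.is_const_of_fderivWithin_eq_zero (𝕜 := ℂ)
      (f := fun s => φ s * Complex.exp (-g s))
      (fun s hs => (hder s hs).differentiableAt.differentiableWithinAt)
      (fun s hs => by
        rw [fderivWithin_of_isOpen isOpen_ball hs]
        have := (hder s hs).hasFDerivAt.fderiv
        rw [this]
        ext
        simp) ht h0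
    simpa [hg0] using h7
  have hexp : ∀ t ∈ ball (0 : ℂ) R, φ t = φ 0 * Complex.exp (g t) := by
    intro t ht
    rw [← hconst t ht, mul_assoc, ← Complex.exp_add]
    simp
  have hre : ∀ t ∈ ball (0 : ℂ) R, (g t).re = Real.log ‖φ t‖ - Real.log ‖φ 0‖ := by
    intro t ht
    have h3 : ‖φ t‖ = ‖φ 0‖ * Real.exp (g t).re := by
      rw [hexp t ht, norm_mul, Complex.norm_exp]
    rw [h3, Real.log_mul (hpos 0 h0).ne' (Real.exp_pos _).ne', Real.log_exp]
    ring
  have hmaps : Set.MapsTo g (ball 0 R) {z | z.re ≤ 2 * B} := by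
    intro s hs
    show (g s).re ≤ 2 * B
    rw [hre s hs]
    have h3 : Real.log ‖φ s‖ ≤ B := by
      rw [Real.log_le_iff_le_exp (hpos s hs)]
      exact h1 s hs
    have h4 : -B ≤ Real.log ‖φ 0‖ := by
      rw [Real.le_log_iff_exp_le (hpos 0 h0)]
      exact h2 0 h0
    linarith
  have ht' : t ∈ ball (0 : ℂ) R := mem_ball_zero_iff.2 ht
  have hgd : DifferentiableOn ℂ g (ball 0 R) := fun s hs =>
    (hg s hs).differentiableAt.differentiableWithinAt
  have h5 := Complex.borelCaratheodory_zero (M := 2 * B) (by linarith) hgd hmaps hR ht' hg0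
  rw [← hre t ht']
  refine (Complex.abs_re_le_norm _).trans (h5.trans (le_of_eq ?_))
  ring

/-- division of a holomorphic function by a simple zero -/
private theorem rel_div_one {g : ℂ → ℂ} {R : ℝ} (hg : DifferentiableOn ℂ g (ball 0 R)) (a : ℂ)
    (ha : a ∈ ball (0 : ℂ) R) (h0 : g a = 0) :
    ∃ g1 : ℂ → ℂ, DifferentiableOn ℂ g1 (ball 0 R) ∧ ∀ t, g t = (t - a) * g1 t := by
  refine ⟨dslope g a, (Complex.differentiableOn_dslope (isOpen_ball.mem_nhds ha)).2 hg,
    fun t => ?_⟩
  have := sub_smul_dslope g a t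
  rw [h0, sub_zero, smul_eq_mul] at this
  exact this.symm

/-- Division by several zeros: if `g * h = (∏ (t - a)) * k` on the disc and `h a ≠ 0` for all the
`a`, then `g = φ * ∏ (t - a)` and `φ * h = k`. -/
theorem rel_divide {R : ℝ} (l : List ℂ) : ∀ (g h k : ℂ → ℂ),
    DifferentiableOn ℂ g (ball 0 R) → ContinuousOn h (ball 0 R) → ContinuousOn k (ball 0 R) →
    (∀ a ∈ l, a ∈ ball (0 : ℂ) R ∧ h a ≠ 0) →
    (∀ t ∈ ball (0 : ℂ) R, g t * h t = (l.map fun a => t - a).prod * k t) →
    ∃ φ : ℂ → ℂ, DifferentiableOn ℂ φ (ball 0 R) ∧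
      (∀ t ∈ ball (0 : ℂ) R, g t = φ t * (l.map fun a => t - a).prod) ∧
      ∀ t ∈ ball (0 : ℂ) R, φ t * h t = k t := by
  induction l with
  | nil =>
    intro g h k hg _ _ _ e
    exact ⟨g, hg, fun t _ => by simp, fun t ht => by simpa using e t ht⟩
  | cons a l ih =>
    intro g h k hg hh hk hl e
    obtain ⟨ha, hha⟩ := hl a List.mem_cons_self
    have h0 : g a = 0 := by
      have h1 := e a ha
      rw [List.map_cons, List.prod_cons, sub_self, zero_mul, zero_mul] at h1
      exact (mul_eq_zero.1 h1).resolve_right hha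
    obtain ⟨g1, hg1, hg1'⟩ := rel_div_one hg a ha h0
    have hprod : Continuous fun t : ℂ => (l.map fun a => t - a).prod :=
      continuous_list_prod _ fun b _ => continuous_id.sub continuous_const
    have e1 : ∀ t ∈ ball (0 : ℂ) R, g1 t * h t = (l.map fun a => t - a).prod * k t := by
      have hne : ∀ t ∈ ball (0 : ℂ) R, t ≠ a →
          g1 t * h t = (l.map fun a => t - a).prod * k t := by
        intro t ht hta
        have h1 := e t ht
        rw [hg1' t, List.map_cons, List.prod_cons, mul_assoc, mul_assoc] at h1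
        exact mul_left_cancel₀ (sub_ne_zero.2 hta) h1
      intro t ht
      by_cases hta : t = a
      · subst hta
        have hnb := isOpen_ball.mem_nhds ht
        have c1 : ContinuousAt (fun t => g1 t * h t) t :=
          ((hg1.continuousOn.mul hh).continuousAt hnb)
        have c2 : ContinuousAt (fun s => (l.map fun a => s - a).prod * k s) t :=
          ((hprod.continuousOn.mul hk).continuousAt hnb)
        have h2 : (fun t => g1 t * h t) =ᶠ[nhdsWithin t {t}ᶜ]
            fun s => (l.map fun a => s - a).prod * k s := by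
          filter_upwards [nhdsWithin_le_nhds hnb, self_mem_nhdsWithin] with s hs hst
          exact hne s hs hst
        have h3 := (c1.eventuallyEq_nhds_iff_eventuallyEq_nhdsNE c2).1 h2
        exact h3.self_of_nhds
      · exact hne t ht hta
    obtain ⟨φ, hφ, hφ1, hφ2⟩ := ih g1 h k hg1 hh hk
      (fun b hb => hl b (List.mem_cons_of_mem _ hb)) e1
    refine ⟨φ, hφ, fun t ht => ?_, hφ2⟩
    rw [hg1' t, hφ1 t ht, List.map_cons, List.prod_cons]
    ring

end Pool.TT.Five
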