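import Pool.Agent.Lib.MP_695920_nt.TT.Extrap

/-! # The size of an integral function with given norm

`z² = a(t) + b z`, `a` of odd degree, `F = 4 a + b²`, all zeros of `F` and all the `t i` in
`|t| ≤ ρ`. A function `A + B z` with norm `± ∏ (t - t i) ^ (e i)` has absolute value at most
`(6 (32 e ρ) ^ M) ^ (1/2)` on both sheets over the disc `|t| ≤ ρ`, `M = ∑ e i`.
-/

set_option autoImplicit false

open Polynomial

namespace Pool.TT.Five

private theorem relsz_neg_real (g : ℝ[X]) (hd : 0 < g.natDegree) (hl : g.leadingCoeff < 0) (ρ : ℝ)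
    (hne : ∀ s : ℝ, ρ < s → g.eval s ≠ 0) (t : ℝ) (ht : ρ < t) : g.eval t < 0 := by
  by_contra hcon
  push Not at hcon
  have hpos : 0 < g.eval t := lt_of_le_of_ne hcon (Ne.symm (hne t ht))
  have hlim := g.tendsto_atBot_of_leadingCoeff_nonpos (natDegree_pos_iff_degree_pos.1 hd) hl.le
  obtain ⟨s, hs1, hs2⟩ := ((hlim.eventually (Filter.eventually_lt_atBot (0 : ℝ))).and
    (Filter.eventually_gt_atTop t)).exists
  have hcont : ContinuousOn (fun s => g.eval s) (Set.Icc t s) := g.continuous.continuousOn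
  obtain ⟨r, hr, hr0⟩ := intermediate_value_Icc' hs2.le hcont
    (show (0 : ℝ) ∈ Set.Icc (g.eval s) (g.eval t) from ⟨hs1.le, hpos.le⟩)
  exact hne r (lt_of_lt_of_le ht hr.1) hr0

/-- a polynomial of odd degree is negative on one of the two rays outside its roots -/
private theorem relsz_neg (F : ℤ[X]) (hodd : Odd F.natDegree) (ρ : ℝ)
    (hroots : ∀ z : ℂ, (F.map (Int.castRingHom ℂ)).IsRoot z → ‖z‖ ≤ ρ) :
    ∃ σ : ℝ, (σ = 1 ∨ σ = -1) ∧
      ∀ t : ℝ, ρ < t → (F.map (Int.castRingHom ℝ)).eval (σ * t) < 0 := by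
  set g : ℝ[X] := F.map (Int.castRingHom ℝ) with hg
  have hinj : Function.Injective (Int.castRingHom ℝ) := RingHom.injective_int _
  have hgd : g.natDegree = F.natDegree := natDegree_map_eq_of_injective hinj F
  have hne : ∀ s : ℝ, ρ < |s| → g.eval s ≠ 0 := by
    intro s hs h0
    have h1 : (F.map (Int.castRingHom ℂ)).IsRoot (s : ℂ) := by
      have h2 : F.map (Int.castRingHom ℂ) = g.map Complex.ofRealHom := by
        rw [hg, Polynomial.map_map]
        congr 1
      rw [IsRoot, h2, eval_map, ← Complex.ofRealHom_eq_coe, eval₂_at_apply, h0, map_zero]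
    have h3 := hroots _ h1
    rw [Complex.norm_real, Real.norm_eq_abs] at h3
    linarith
  have hpos : 0 < g.natDegree := by
    rw [hgd]
    exact hodd.pos
  have hg0 : g ≠ 0 := by
    rintro h0
    rw [h0, natDegree_zero] at hpos
    exact lt_irrefl _ hpos
  rcases lt_or_gt_of_ne (leadingCoeff_ne_zero.2 hg0) with hl | hl
  · refine ⟨1, Or.inl rfl, fun t ht => ?_⟩
    rw [one_mul]
    exact relsz_neg_real g hpos hl ρ (fun s hs => hne s (hs.trans_le (le_abs_self s))) t ht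
  · refine ⟨-1, Or.inr rfl, fun t ht => ?_⟩
    have hlc : (g.comp (-X)).leadingCoeff = -g.leadingCoeff := by
      rw [leadingCoeff_comp (by simp), leadingCoeff_neg, leadingCoeff_X]
      have : Odd g.natDegree := by rwa [hgd]
      rw [this.neg_one_pow]
      ring
    have hd : (g.comp (-X)).natDegree = g.natDegree := by
      rw [natDegree_comp, natDegree_neg, natDegree_X, mul_one]
    have h1 := relsz_neg_real (g.comp (-X)) (by rwa [hd]) (by rw [hlc]; linarith) ρ (by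
      intro s hs
      rw [eval_comp, eval_neg, eval_X]
      refine hne _ ?_
      rw [abs_neg]
      exact hs.trans_le (le_abs_self s)) t ht
    rw [eval_comp, eval_neg, eval_X] at h1
    rwa [neg_one_mul]

/-- degrees in a norm equation of odd degree -/
private theorem relsz_deg (F A B : ℤ[X]) (hodd : Odd F.natDegree) :
    2 * A.natDegree ≤ (A ^ 2 - F * B ^ 2).natDegree := by
  have hF0 : F ≠ 0 := by
    rintro rfl
    simp at hodd
  rcases eq_or_ne A 0 with rfl | hA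
  · simp
  rcases eq_or_ne B 0 with rfl | hB
  · rw [zero_pow two_ne_zero, mul_zero, sub_zero, natDegree_pow]
  have hd1 : (A ^ 2).natDegree = 2 * A.natDegree := natDegree_pow _ _
  have hd2 : (F * B ^ 2).natDegree = F.natDegree + 2 * B.natDegree := by
    rw [natDegree_mul hF0 (pow_ne_zero 2 hB), natDegree_pow]
  have hne : (A ^ 2).degree ≠ (F * B ^ 2).degree := by
    intro h
    have h1 := natDegree_eq_of_degree_eq h
    rw [hd1, hd2] at h1
    have h2 : Even (F.natDegree + 2 * B.natDegree) := by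
      rw [← h1]
      exact even_two_mul _
    rw [Nat.even_add] at h2
    have h3 := h2.2 (even_two_mul _)
    rw [← Nat.not_odd_iff_even] at h3
    exact h3 hodd
  rcases lt_or_gt_of_ne hne with h | h
  · rw [natDegree_eq_of_degree_eq (degree_sub_eq_right_of_degree_lt h), hd2]
    have h1 := natDegree_lt_natDegree (pow_ne_zero 2 hA) h
    rw [hd1, hd2] at h1
    exact h1.le
  · rw [natDegree_eq_of_degree_eq (degree_sub_eq_left_of_degree_lt h), hd1]

/-- the size of the rational part -/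
private theorem relsz_re {ι : Type*} [Fintype ι] (F A B : ℤ[X]) (hodd : Odd F.natDegree) (ρ : ℝ)
    (hρ : 1 ≤ ρ) (hroots : ∀ z : ℂ, (F.map (Int.castRingHom ℂ)).IsRoot z → ‖z‖ ≤ ρ)
    (t : ι → ℤ) (e : ι → ℕ) (ht : ∀ i, |(t i : ℝ)| ≤ ρ) (ε : ℤ[X]) (hε : ε = 1 ∨ ε = -1)
    (hAB : A ^ 2 - F * B ^ 2 = 4 * (ε * ∏ i, (X - C (t i)) ^ e i)) (z : ℂ) (hz : ‖z‖ ≤ ρ) :
    ‖(A.map (Int.castRingHom ℂ)).eval z‖ ^ 2 ≤ 4 * (32 * Real.exp 1 * ρ) ^ (∑ i, e i) := by
  set m := ∑ i, e i with hmdef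
  have hdegW : (∏ i, (X - C (t i)) ^ e i : ℤ[X]).natDegree = m := by
    rw [natDegree_prod_of_monic _ _ fun i _ => (monic_X_sub_C _).pow _]
    refine Finset.sum_congr rfl fun i _ => ?_
    rw [(monic_X_sub_C _).natDegree_pow, natDegree_X_sub_C, mul_one]
  have hdegA : 2 * A.natDegree ≤ m := by
    have h1 := relsz_deg F A B hodd
    rw [hAB] at h1
    have h2 : (4 * (ε * ∏ i, (X - C (t i)) ^ e i) : ℤ[X]).natDegree ≤ m := by
      rw [← hdegW]
      rcases hε with rfl | rfl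
      · rw [one_mul]
        refine natDegree_mul_le.trans ?_
        rw [show (4 : ℤ[X]) = C 4 from rfl, natDegree_C, zero_add]
      · rw [neg_one_mul, mul_neg, natDegree_neg]
        refine natDegree_mul_le.trans ?_
        rw [show (4 : ℤ[X]) = C 4 from rfl, natDegree_C, zero_add]
    exact h1.trans h2
  have hρ0 : 0 < ρ := by linarith
  obtain ⟨σ, hσ, hneg⟩ := relsz_neg F hodd ρ hroots
  have hσ1 : |σ| = 1 := by
    rcases hσ with rfl | rfl <;> simp
  have hW : ∀ s : ℝ, ((A ^ 2 - F * B ^ 2).map (Int.castRingHom ℝ)).eval s =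
      (A.map (Int.castRingHom ℝ)).eval s ^ 2 - (F.map (Int.castRingHom ℝ)).eval s *
        (B.map (Int.castRingHom ℝ)).eval s ^ 2 := by
    intro s
    simp only [Polynomial.map_sub, Polynomial.map_mul, Polynomial.map_pow, eval_sub, eval_mul,
      eval_pow]
  have hW' : ∀ s : ℝ, |((A ^ 2 - F * B ^ 2).map (Int.castRingHom ℝ)).eval s| =
      4 * ∏ i, |s - t i| ^ e i := by
    intro s
    rw [hAB, Polynomial.map_mul, Polynomial.map_mul, Polynomial.map_prod, eval_mul, eval_mul,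
      eval_prod, abs_mul, abs_mul, Finset.abs_prod]
    have h1 : |(ε.map (Int.castRingHom ℝ)).eval s| = 1 := by
      rcases hε with rfl | rfl <;> simp
    have h2 : ((4 : ℤ[X]).map (Int.castRingHom ℝ)).eval s = 4 := by simp
    rw [h1, h2, one_mul, abs_of_pos (show (0 : ℝ) < 4 by norm_num)]
    congr 1
    refine Finset.prod_congr rfl fun i _ => ?_
    rw [Polynomial.map_pow, Polynomial.map_sub, map_X, map_C, eval_pow, eval_sub, eval_X, eval_C,
      abs_pow]
    rfl
  have hbound : ∀ s : ℝ, 2 * ρ ≤ σ * s → σ * s ≤ 3 * ρ →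
      |(A.map (Int.castRingHom ℝ)).eval s| ^ 2 ≤ 4 * (4 * ρ) ^ m := by
    intro s h1 h2
    have hss : σ * (σ * s) = s := by
      rcases hσ with rfl | rfl <;> ring
    have h3 := hneg (σ * s) (by linarith)
    rw [hss] at h3
    have hs : |s| ≤ 3 * ρ := by
      have h4 : |s| = |σ * s| := by rw [abs_mul, hσ1, one_mul]
      rw [h4, abs_of_nonneg (by linarith)]
      exact h2
    have h5 : |((A ^ 2 - F * B ^ 2).map (Int.castRingHom ℝ)).eval s| ≤ 4 * (4 * ρ) ^ m := by
      rw [hW', hmdef, ← Finset.prod_pow_eq_pow_sum]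
      refine mul_le_mul_of_nonneg_left ?_ (by norm_num)
      refine Finset.prod_le_prod (fun _ _ => by positivity) fun i _ => ?_
      refine pow_le_pow_left₀ (abs_nonneg _) ?_ _
      have h6 := abs_sub s (t i : ℝ)
      linarith [ht i]
    rw [hW] at h5
    have h6 := le_abs_self ((A.map (Int.castRingHom ℝ)).eval s ^ 2 -
      (F.map (Int.castRingHom ℝ)).eval s * (B.map (Int.castRingHom ℝ)).eval s ^ 2)
    have h7 : 0 ≤ -((F.map (Int.castRingHom ℝ)).eval s *
        (B.map (Int.castRingHom ℝ)).eval s ^ 2) := by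
      have := mul_nonneg (neg_nonneg.2 h3.le) (sq_nonneg ((B.map (Int.castRingHom ℝ)).eval s))
      linarith
    rw [sq_abs]
    linarith
  -- the interval
  set c : ℝ := if σ = 1 then 2 * ρ else -3 * ρ with hc
  have hcint : ∀ s : ℝ, c ≤ s → s ≤ c + ρ → 2 * ρ ≤ σ * s ∧ σ * s ≤ 3 * ρ := by
    intro s h1 h2
    rcases hσ with rfl | rfl
    · rw [hc, if_pos rfl] at h1 h2
      constructor <;> linarith
    · rw [hc, if_neg (by norm_num)] at h1 h2
      constructor <;> linarith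
  have hS : ∀ s : ℝ, c ≤ s → s ≤ c + ρ →
      ‖(A.map (Int.castRingHom ℂ)).eval (s : ℂ)‖ ≤ Real.sqrt (4 * (4 * ρ) ^ m) := by
    intro s h1 h2
    have h3 : A.map (Int.castRingHom ℂ) =
        (A.map (Int.castRingHom ℝ)).map Complex.ofRealHom := by
      rw [Polynomial.map_map]
      congr 1
    rw [h3, eval_map, ← Complex.ofRealHom_eq_coe, eval₂_at_apply, Complex.ofRealHom_eq_coe,
      Complex.norm_real, Real.norm_eq_abs]
    exact Real.le_sqrt_of_sq_le (hbound s (hcint s h1 h2).1 (hcint s h1 h2).2)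
  have hzs : ∀ s : ℝ, c ≤ s → s ≤ c + ρ → ‖z - s‖ ≤ 4 * ρ := by
    intro s h1 h2
    obtain ⟨h3, h4⟩ := hcint s h1 h2
    have h5 := norm_sub_le z (s : ℂ)
    have h6 : ‖(s : ℂ)‖ ≤ 3 * ρ := by
      rw [Complex.norm_real, Real.norm_eq_abs]
      have h7 : |s| = |σ * s| := by rw [abs_mul, hσ1, one_mul]
      rw [h7, abs_of_nonneg (by linarith)]
      exact h4
    linarith
  have hmain := Agent.Lib.MP_695920_nt.TT.extrap (A.map (Int.castRingHom ℂ)) A.natDegree
    natDegree_map_le c ρ _ 4 hρ0 hS z hzs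
  have he : 1 ≤ 2 * Real.exp 1 * 4 := by
    have := Real.add_one_le_exp (1 : ℝ)
    linarith
  calc ‖(A.map (Int.castRingHom ℂ)).eval z‖ ^ 2 ≤
      ((2 * Real.exp 1 * 4) ^ A.natDegree * Real.sqrt (4 * (4 * ρ) ^ m)) ^ 2 :=
        pow_le_pow_left₀ (norm_nonneg _) hmain 2
    _ = (2 * Real.exp 1 * 4) ^ (2 * A.natDegree) * (4 * (4 * ρ) ^ m) := by
        rw [mul_pow, Real.sq_sqrt (by positivity), ← pow_mul, mul_comm A.natDegree 2]
    _ ≤ (2 * Real.exp 1 * 4) ^ m * (4 * (4 * ρ) ^ m) :=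
        mul_le_mul_of_nonneg_right (pow_le_pow_right₀ he hdegA) (by positivity)
    _ = 4 * (32 * Real.exp 1 * ρ) ^ m := by
        have e1 : (32 * Real.exp 1 * ρ) ^ m = (2 * Real.exp 1 * 4) ^ m * (4 * ρ) ^ m := by
          rw [← mul_pow]
          congr 1
          ring
        rw [e1]
        ring

/-- **The size of an integral function** -/
theorem rel_size {ι : Type*} [Fintype ι] (a : ℤ[X]) (b : ℤ) (A B : ℤ[X])
    (hodd : Odd (4 * a + C (b ^ 2)).natDegree) (ρ : ℝ) (hρ : 1 ≤ ρ)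
    (hroots : ∀ z : ℂ, ((4 * a + C (b ^ 2)).map (Int.castRingHom ℂ)).IsRoot z → ‖z‖ ≤ ρ)
    (t : ι → ℤ) (e : ι → ℕ) (ht : ∀ i, |(t i : ℝ)| ≤ ρ) (ε : ℤ[X]) (hε : ε = 1 ∨ ε = -1)
    (hAB : A ^ 2 + C b * A * B - a * B ^ 2 = ε * ∏ i, (X - C (t i)) ^ e i) (z s : ℂ)
    (hz : ‖z‖ ≤ ρ) (hs : s ^ 2 = ((4 * a + C (b ^ 2)).map (Int.castRingHom ℂ)).eval z) :
    ‖(A.map (Int.castRingHom ℂ)).eval z + (B.map (Int.castRingHom ℂ)).eval z * ((b + s) / 2)‖ ^ 2 ≤
      6 * (32 * Real.exp 1 * ρ) ^ (∑ i, e i) := by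
  set F : ℤ[X] := 4 * a + C (b ^ 2) with hF
  set A2 : ℤ[X] := 2 * A + C b * B with hA2
  have h1 : A2 ^ 2 - F * B ^ 2 = 4 * (ε * ∏ i, (X - C (t i)) ^ e i) := by
    rw [← hAB, hA2, hF, C_pow]
    ring
  have h2 := relsz_re F A2 B hodd ρ hρ hroots t e ht ε hε h1 z hz
  set K : ℝ := (32 * Real.exp 1 * ρ) ^ (∑ i, e i) with hK
  have hK0 : 0 ≤ K := by positivity
  set u : ℂ := (A2.map (Int.castRingHom ℂ)).eval z with hu
  set v : ℂ := (B.map (Int.castRingHom ℂ)).eval z * s with hv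
  have h3 : u ^ 2 - v ^ 2 = ((4 * (ε * ∏ i, (X - C (t i)) ^ e i) : ℤ[X]).map
      (Int.castRingHom ℂ)).eval z := by
    rw [← h1, hu, hv, mul_pow, hs]
    simp only [Polynomial.map_sub, Polynomial.map_mul, Polynomial.map_pow, eval_sub, eval_mul,
      eval_pow]
    ring
  have h4 : ‖u ^ 2 - v ^ 2‖ ≤ 4 * K := by
    rw [h3, Polynomial.map_mul, Polynomial.map_mul, Polynomial.map_prod, eval_mul, eval_mul,
      eval_prod, norm_mul, norm_mul, norm_prod]
    have h5 : ‖(ε.map (Int.castRingHom ℂ)).eval z‖ = 1 := by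
      rcases hε with rfl | rfl <;> simp
    have h6 : ‖((4 : ℤ[X]).map (Int.castRingHom ℂ)).eval z‖ = 4 := by simp
    rw [h5, h6, one_mul, hK, ← Finset.prod_pow_eq_pow_sum]
    refine mul_le_mul_of_nonneg_left ?_ (by norm_num)
    refine Finset.prod_le_prod (fun _ _ => norm_nonneg _) fun i _ => ?_
    rw [Polynomial.map_pow, Polynomial.map_sub, map_X, map_C, eval_pow, eval_sub, eval_X, eval_C,
      norm_pow]
    refine pow_le_pow_left₀ (norm_nonneg _) ?_ _
    have h7 := norm_sub_le z ((Int.castRingHom ℂ) (t i))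
    have h8 : ‖(Int.castRingHom ℂ) (t i)‖ = |(t i : ℝ)| := by
      rw [eq_intCast, Complex.norm_intCast]
    rw [h8] at h7
    have h9 := Real.add_one_le_exp (1 : ℝ)
    nlinarith [ht i]
  have h5 : ‖v‖ ^ 2 ≤ 8 * K := by
    have h6 : v ^ 2 = u ^ 2 - (u ^ 2 - v ^ 2) := by ring
    have h7 := norm_sub_le (u ^ 2) (u ^ 2 - v ^ 2)
    rw [← h6, norm_pow, norm_pow] at h7
    linarith
  have h6 : (A.map (Int.castRingHom ℂ)).eval z +
      (B.map (Int.castRingHom ℂ)).eval z * ((b + s) / 2) = (u + v) / 2 := by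
    have hC : ((C b : ℤ[X]).map (Int.castRingHom ℂ)).eval z = (b : ℂ) := by simp
    have h2' : ((2 : ℤ[X]).map (Int.castRingHom ℂ)).eval z = (2 : ℂ) := by simp
    rw [hu, hv, hA2, Polynomial.map_add, Polynomial.map_mul, Polynomial.map_mul, eval_add,
      eval_mul, eval_mul, hC, h2']
    ring
  rw [h6, norm_div, div_pow]
  have h7 : ‖(2 : ℂ)‖ = 2 := by simp
  rw [h7]
  have h8 := norm_add_le u v
  have h9 : ‖u + v‖ ^ 2 ≤ 2 * (‖u‖ ^ 2 + ‖v‖ ^ 2) := by
    nlinarith [norm_nonneg u, norm_nonneg v, norm_nonneg (u + v), sq_nonneg (‖u‖ - ‖v‖)]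
  rw [div_le_iff₀ (by norm_num)]
  linarith

end Pool.TT.Five
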