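import Pool.Agent.Lib.MP_695920_nt.TT.Five.PosDefs
import Pool.Agent.Lib.MP_695920_nt.TT.Five.Branch
import Pool.Agent.Lib.MP_695920_nt.TT.Five.RelArith
import Pool.Agent.Lib.MP_695920_nt.TT.Five.RelOsc
import Pool.Agent.Lib.MP_695920_nt.TT.Five.RelSize

/-! # (R): the height pairing is small on relations

`∑ m_i m_j G_ij ≤ (8 / T) log (2100 ρ) (∑ |m_i|)²` for a relation `m` with `∑ m_i = 0` which has an
integral function (the case n = 5, section 3).
-/

set_option autoImplicit false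

open Polynomial Metric

namespace Pool.TT.Five

/-! ### division by zeros, finite products -/

private theorem relb_divide_pow {R : ℝ} (a : ℂ) (n : ℕ) (g h k : ℂ → ℂ)
    (hg : DifferentiableOn ℂ g (ball 0 R)) (hh : ContinuousOn h (ball 0 R))
    (hk : ContinuousOn k (ball 0 R)) (ha : a ∈ ball (0 : ℂ) R ∧ h a ≠ 0)
    (e : ∀ t ∈ ball (0 : ℂ) R, g t * h t = (t - a) ^ n * k t) :
    ∃ φ : ℂ → ℂ, DifferentiableOn ℂ φ (ball 0 R) ∧
      (∀ t ∈ ball (0 : ℂ) R, g t = φ t * (t - a) ^ n) ∧ ∀ t ∈ ball (0 : ℂ) R, φ t * h t = k t := by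
  obtain ⟨φ, h1, h2, h3⟩ := rel_divide (R := R) (List.replicate n a) g h k hg hh hk
    (fun b hb => by rw [List.eq_of_mem_replicate hb]; exact ha)
    (fun t ht => by rw [List.map_replicate, List.prod_replicate]; exact e t ht)
  refine ⟨φ, h1, fun t ht => ?_, h3⟩
  have := h2 t ht
  rwa [List.map_replicate, List.prod_replicate] at this

private theorem relb_divide {ι : Type*} [DecidableEq ι] {R : ℝ} (c : ι → ℂ) (n : ι → ℕ)
    (S : Finset ι) : ∀ (g h k : ℂ → ℂ), DifferentiableOn ℂ g (ball 0 R) →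
    ContinuousOn h (ball 0 R) → ContinuousOn k (ball 0 R) →
    (∀ i ∈ S, c i ∈ ball (0 : ℂ) R ∧ h (c i) ≠ 0) →
    (∀ t ∈ ball (0 : ℂ) R, g t * h t = (∏ i ∈ S, (t - c i) ^ n i) * k t) →
    ∃ φ : ℂ → ℂ, DifferentiableOn ℂ φ (ball 0 R) ∧
      (∀ t ∈ ball (0 : ℂ) R, g t = φ t * ∏ i ∈ S, (t - c i) ^ n i) ∧
      ∀ t ∈ ball (0 : ℂ) R, φ t * h t = k t := by
  induction S using Finset.induction_on with
  | empty =>
    intro g h k hg _ _ _ e
    exact ⟨g, hg, fun t _ => by simp, fun t ht => by simpa using e t ht⟩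
  | insert i S hi ih =>
    intro g h k hg hh hk hS e
    have hc : Continuous fun t : ℂ => ∏ i ∈ S, (t - c i) ^ n i :=
      continuous_finsetProd _ fun i _ => (continuous_id.sub continuous_const).pow _
    obtain ⟨φ1, h1, h2, h3⟩ := relb_divide_pow (c i) (n i) g h
      (fun t => (∏ i ∈ S, (t - c i) ^ n i) * k t) hg hh (hc.continuousOn.mul hk)
      (hS i (Finset.mem_insert_self _ _)) (fun t ht => by
        rw [e t ht, Finset.prod_insert hi]
        ring)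
    obtain ⟨φ, h4, h5, h6⟩ := ih φ1 h k h1 hh hk
      (fun k hk => hS k (Finset.mem_insert_of_mem hk)) h3
    refine ⟨φ, h4, fun t ht => ?_, h6⟩
    rw [h2 t ht, h5 t ht, Finset.prod_insert hi]
    ring

/-- two functions with complementary zeros -/
private theorem relb_pair {ι : Type*} [DecidableEq ι] {R : ℝ} (c : ι → ℂ) (n : ι → ℕ)
    (S S' : Finset ι) (g h : ℂ → ℂ) (ε : ℂ) (hg : DifferentiableOn ℂ g (ball 0 R))
    (hh : DifferentiableOn ℂ h (ball 0 R)) (hS : ∀ i ∈ S, c i ∈ ball (0 : ℂ) R ∧ h (c i) ≠ 0)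
    (hS' : ∀ i ∈ S', c i ∈ ball (0 : ℂ) R ∧ g (c i) ≠ 0)
    (e : ∀ t ∈ ball (0 : ℂ) R, g t * h t =
      (∏ i ∈ S, (t - c i) ^ n i) * ((∏ i ∈ S', (t - c i) ^ n i) * ε)) :
    ∃ φ χ : ℂ → ℂ, DifferentiableOn ℂ φ (ball 0 R) ∧ DifferentiableOn ℂ χ (ball 0 R) ∧
      (∀ t ∈ ball (0 : ℂ) R, g t = φ t * ∏ i ∈ S, (t - c i) ^ n i) ∧
      (∀ t ∈ ball (0 : ℂ) R, h t = χ t * ∏ i ∈ S', (t - c i) ^ n i) ∧
      ∀ t ∈ ball (0 : ℂ) R, φ t * χ t = ε := by
  have hc : Continuous fun t : ℂ => ∏ i ∈ S', (t - c i) ^ n i :=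
    continuous_finsetProd _ fun i _ => (continuous_id.sub continuous_const).pow _
  obtain ⟨φ, h1, h2, h3⟩ := relb_divide c n S g h _ hg hh.continuousOn
    (hc.mul continuous_const).continuousOn hS e
  have hφ : ∀ i ∈ S', c i ∈ ball (0 : ℂ) R ∧ φ (c i) ≠ 0 := by
    intro i hi
    refine ⟨(hS' i hi).1, fun h0 => (hS' i hi).2 ?_⟩
    rw [h2 _ (hS' i hi).1, h0, zero_mul]
  obtain ⟨χ, h4, h5, h6⟩ := relb_divide c n S' h φ (fun _ => ε) hh h1.continuousOn
    continuousOn_const hφ (fun t ht => by rw [mul_comm, h3 t ht]; rfl)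
  exact ⟨φ, χ, h1, h4, h2, h5, fun t ht => by rw [mul_comm, h6 t ht]⟩

/-- the maximum principle on a smaller disc -/
private theorem relb_max {φ : ℂ → ℂ} {R C : ℝ} (hR : 0 < R)
    (hφ : DifferentiableOn ℂ φ (ball 0 (2 * R))) (h : ∀ t : ℂ, ‖t‖ = R → ‖φ t‖ ≤ C) (t : ℂ)
    (ht : ‖t‖ < R) : ‖φ t‖ ≤ C := by
  have hsub : closedBall (0 : ℂ) R ⊆ ball 0 (2 * R) := closedBall_subset_ball (by linarith)
  refine Complex.norm_le_of_forall_mem_frontier_norm_le (U := ball 0 R) isBounded_ball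
    (hφ.diffContOnCl_ball hsub) (fun z hz => ?_) (subset_closure (mem_ball_zero_iff.2 ht))
  rw [frontier_ball _ hR.ne', mem_sphere_zero_iff_norm] at hz
  exact h z hz

/-- the lower bound for the product of the distances -/
private theorem relb_prod_ge {ι : Type*} [Fintype ι] (c : ι → ℂ) (n : ι → ℕ) (S : Finset ι)
    {R : ℝ} (hR : 1 ≤ R) (hc : ∀ i, ‖c i‖ ≤ R / 2) (t : ℂ) (ht : ‖t‖ = R) :
    (1 / 2 : ℝ) ^ (∑ i, n i) ≤ ‖∏ i ∈ S, (t - c i) ^ n i‖ := by
  rw [norm_prod]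
  have h1 : (1 / 2 : ℝ) ^ (∑ i, n i) ≤ (1 / 2 : ℝ) ^ (∑ i ∈ S, n i) := by
    refine pow_le_pow_of_le_one (by norm_num) (by norm_num) ?_
    exact Finset.sum_le_sum_of_subset (Finset.subset_univ _)
  refine h1.trans ?_
  rw [← Finset.prod_pow_eq_pow_sum]
  refine Finset.prod_le_prod (fun _ _ => by positivity) fun i _ => ?_
  rw [norm_pow]
  refine pow_le_pow_left₀ (by norm_num) ?_ _
  have h2 := norm_sub_norm_le t (c i)
  linarith [hc i]

/-! ### the local terms -/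

variable {ι : Type*}

/-- the ordinate of the point `Q i`: the point itself for `m i ≥ 0`, the conjugate for `m i < 0` -/
def relQ (P : Pool.TTF.FPts ι) (m : ι → ℤ) (i : ι) : ℤ := if m i < 0 then P.b - P.z i else P.z i

theorem relQ_eq (P : Pool.TTF.FPts ι) (m : ι → ℤ) (i : ι) :
    relQ P m i ^ 2 = P.a.eval (P.t i) + P.b * relQ P m i := by
  have h := P.eq i
  unfold relQ
  split_ifs
  · linear_combination h
  · exact h

theorem relQ_ne (P : Pool.TTF.FPts ι) (m : ι → ℤ) (i : ι) : 2 * relQ P m i - P.b ≠ 0 := by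
  have h := P.pos i
  unfold relQ
  split_ifs <;> omega

theorem relQ_coprime (P : Pool.TTF.FPts ι) (m : ι → ℤ) (i : ι) :
    IsCoprime (2 * relQ P m i - P.b) (P.a.derivative.eval (P.t i)) := by
  have h := Int.isCoprime_iff_gcd_eq_one.2 (P.smooth i)
  unfold relQ
  split_ifs
  · have h1 : 2 * (P.b - P.z i) - P.b = -(2 * P.z i - P.b) := by ring
    rw [h1]
    exact h.neg_left
  · exact h

/-- `|t_i - t_j| ≤ gcd(t_i - t_j, z_i - z_j) gcd(t_i - t_j, z_i + z_j - b)` -/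
private theorem relb_gcd (P : Pool.TTF.FPts ι) (i j : ι) (hij : i ≠ j) :
    Real.log |((P.t i : ℝ) - P.t j)| ≤
      Real.log (Int.gcd (P.t i - P.t j) (P.z i - P.z j)) + P.G i j := by
  have h0 : P.t i - P.t j ≠ 0 := sub_ne_zero.2 fun h => hij (P.inj h)
  have h1 : P.t i - P.t j ∣ (P.z i - P.z j) * (P.z i + P.z j - P.b) := by
    have h2 : (P.z i - P.z j) * (P.z i + P.z j - P.b) =
        P.a.eval (P.t i) - P.a.eval (P.t j) := by
      linear_combination P.eq i - P.eq j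
    rw [h2]
    exact sub_dvd_eval_sub _ _ _
  have h2 : (P.t i - P.t j).natAbs ∣
      Int.gcd (P.t i - P.t j) (P.z i - P.z j) * Int.gcd (P.t i - P.t j) (P.z i + P.z j - P.b) := by
    have h3 : (P.t i - P.t j).natAbs ∣ ((P.z i - P.z j) * (P.z i + P.z j - P.b)).natAbs :=
      Int.natAbs_dvd_natAbs.2 h1
    have h4 : (P.t i - P.t j).natAbs ∣
        Nat.gcd (P.t i - P.t j).natAbs ((P.z i - P.z j).natAbs * (P.z i + P.z j - P.b).natAbs) := by
      rw [← Int.natAbs_mul]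
      exact Nat.dvd_gcd dvd_rfl h3
    exact h4.trans (Nat.gcd_mul_right_dvd_mul_gcd _ _ _)
  have hg1 : Int.gcd (P.t i - P.t j) (P.z i - P.z j) ≠ 0 := by
    intro h
    exact h0 (Int.gcd_eq_zero_iff.1 h).1
  have hg2 : Int.gcd (P.t i - P.t j) (P.z i + P.z j - P.b) ≠ 0 := by
    intro h
    exact h0 (Int.gcd_eq_zero_iff.1 h).1
  have h3 := Nat.le_of_dvd (Nat.pos_of_ne_zero (mul_ne_zero hg1 hg2)) h2
  have h4 : |((P.t i : ℝ) - P.t j)| = ((P.t i - P.t j).natAbs : ℝ) := by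
    rw [Nat.cast_natAbs, Int.cast_abs]
    push_cast
    rfl
  rw [Pool.TTF.FPts.G, ← Real.log_mul (by exact_mod_cast hg1) (by exact_mod_cast hg2), h4]
  refine Real.log_le_log ?_ (by exact_mod_cast h3)
  have : 0 < (P.t i - P.t j).natAbs := Int.natAbs_pos.2 h0
  exact_mod_cast this

/-- one term of the local inequality -/
private theorem relb_term (P : Pool.TTF.FPts ι) (m : ι → ℤ) (i j : ι) :
    (if m j < 0 then -1 else 1 : ℝ) * ((m i : ℝ) * P.G i j) ≤
      ((m i).natAbs : ℝ) * Real.log (Int.gcd (P.t i - P.t j) (relQ P m i + relQ P m j - P.b)) -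
      (if (m i < 0 ↔ m j < 0) then 0 else
        ((m i).natAbs : ℝ) * Real.log |((P.t i : ℝ) - P.t j)|) := by
  have habs : ((m i).natAbs : ℝ) = |(m i : ℝ)| := by
    rw [Nat.cast_natAbs, Int.cast_abs]
  rw [habs]
  by_cases hi : m i < 0 <;> by_cases hj : m j < 0
  · have h1 : relQ P m i + relQ P m j - P.b = -(P.z i + P.z j - P.b) := by
      unfold relQ
      rw [if_pos hi, if_pos hj]
      ring
    have h2 : |(m i : ℝ)| = -(m i : ℝ) := abs_of_neg (by exact_mod_cast hi)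
    rw [h1, Int.gcd_neg, h2, if_pos hj, if_pos (iff_of_true hi hj), Pool.TTF.FPts.G]
    exact le_of_eq (by ring)
  · have hij : i ≠ j := by
      rintro rfl
      exact hj hi
    have h1 : relQ P m i + relQ P m j - P.b = -(P.z i - P.z j) := by
      unfold relQ
      rw [if_pos hi, if_neg hj]
      ring
    have h2 : |(m i : ℝ)| = -(m i : ℝ) := abs_of_neg (by exact_mod_cast hi)
    rw [h1, Int.gcd_neg, h2, if_neg hj, if_neg (fun h => hj (h.1 hi))]
    have h3 := relb_gcd P i j hij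
    have h4 : (0 : ℝ) ≤ -(m i : ℝ) := by
      have : (m i : ℝ) < 0 := by exact_mod_cast hi
      linarith
    nlinarith [mul_le_mul_of_nonneg_left h3 h4]
  · have hij : i ≠ j := by
      rintro rfl
      exact hi hj
    have h1 : relQ P m i + relQ P m j - P.b = P.z i - P.z j := by
      unfold relQ
      rw [if_neg hi, if_pos hj]
      ring
    have h4 : (0 : ℝ) ≤ (m i : ℝ) := by exact_mod_cast not_lt.1 hi
    rw [h1, abs_of_nonneg h4, if_pos hj, if_neg (fun h => hi (h.2 hj))]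
    have h3 := relb_gcd P i j hij
    nlinarith [mul_le_mul_of_nonneg_left h3 h4]
  · have h1 : relQ P m i + relQ P m j - P.b = P.z i + P.z j - P.b := by
      unfold relQ
      rw [if_neg hi, if_neg hj]
    have h4 : (0 : ℝ) ≤ (m i : ℝ) := by exact_mod_cast not_lt.1 hi
    rw [h1, abs_of_nonneg h4, if_neg hj, if_pos (iff_of_false hi hj), Pool.TTF.FPts.G]
    exact le_of_eq (by ring)

/-- the local inequality: the value at a conjugate point -/
private theorem relb_point [Fintype ι] [DecidableEq ι] (P : Pool.TTF.FPts ι) (m : ι → ℤ)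
    (Φ : OZ P.a P.b)
    (hV : ∀ i, algebraMap ℤ[X] (OZ P.a P.b) ((X - C (P.t i)) ^ (m i).natAbs) ∣
      (⟨-C (P.b - relQ P m i), 1⟩ : OZ P.a P.b) ^ (m i).natAbs * Φ) (j : ι)
    (hne : ozEv P.a P.b (P.t j) (P.b - relQ P m j) (relar_conj_eq (relQ_eq P m j)) Φ ≠ 0) :
    (if m j < 0 then -1 else 1 : ℝ) * ∑ i, (m i : ℝ) * P.G i j ≤
      Real.log |((ozEv P.a P.b (P.t j) (P.b - relQ P m j) (relar_conj_eq (relQ_eq P m j)) Φ : ℤ) :
        ℝ)| - ∑ i, (if (m i < 0 ↔ m j < 0) then 0 else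
        ((m i).natAbs : ℝ) * Real.log |((P.t i : ℝ) - P.t j)|) := by
  set n := ozEv P.a P.b (P.t j) (P.b - relQ P m j) (relar_conj_eq (relQ_eq P m j)) Φ with hn
  have hdvd := relar_dvd P.a P.b P.t (relQ P m) P.inj (relQ_eq P m) (fun i => (m i).natAbs) Φ hV j
    (relQ_ne P m j) (relQ_coprime P m j)
  rw [← hn] at hdvd
  have hI0 : ∀ i, Int.gcd (P.t i - P.t j) (relQ P m i + relQ P m j - P.b) ≠ 0 := by
    intro i h0
    obtain ⟨h2, h3⟩ := Int.gcd_eq_zero_iff.1 h0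
    have h4 : i = j := P.inj (sub_eq_zero.1 h2)
    subst h4
    exact relQ_ne P m i (by linarith)
  have hle : ∑ i, ((m i).natAbs : ℝ) *
      Real.log (Int.gcd (P.t i - P.t j) (relQ P m i + relQ P m j - P.b)) ≤ Real.log |(n : ℝ)| := by
    have h1 := Int.le_of_dvd (abs_pos.2 hne) ((dvd_abs _ _).2 hdvd)
    have h2 : ((∏ i, (Int.gcd (P.t i - P.t j) (relQ P m i + relQ P m j - P.b) : ℤ) ^
        (m i).natAbs : ℤ) : ℝ) ≤ |(n : ℝ)| := by
      exact_mod_cast h1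
    push_cast at h2
    have hpos : ∀ i, (0 : ℝ) <
        (Int.gcd (P.t i - P.t j) (relQ P m i + relQ P m j - P.b) : ℝ) := fun i => by
      exact_mod_cast Nat.pos_of_ne_zero (hI0 i)
    have h3 := Real.log_le_log (Finset.prod_pos fun i _ => pow_pos (hpos i) _) h2
    rw [Real.log_prod fun i _ => (pow_pos (hpos i) _).ne'] at h3
    refine le_trans (le_of_eq (Finset.sum_congr rfl fun i _ => ?_)) h3
    rw [Real.log_pow]
  rw [Finset.mul_sum]
  have h1 := Finset.sum_le_sum fun i (_ : i ∈ Finset.univ) => relb_term P m i j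
  rw [Finset.sum_sub_distrib] at h1
  linarith

/-- **(R).** The height pairing is small on a relation `m` with `∑ m_i = 0` which has an integral
function `Φ` with divisor `∑ |m_i| Q_i`, `Q_i = P_i` for `m_i ≥ 0`, the conjugate of `P_i` for
`m_i < 0`, if `Φ` is bounded by `K ^ ∑ |m_i|` on both sheets over the circle `|t| = R`. -/
theorem rel_bound_gen [Fintype ι] (P : Pool.TTF.FPts ι) (R T K : ℝ) (hR : 1 ≤ R) (hT : 4 ≤ T)
    (hK1 : 1 ≤ K)
    (hroot : ∀ z : ℂ, (P.F.map (Int.castRingHom ℂ)).IsRoot z → 2 * R ≤ ‖z‖)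
    (ht : ∀ i, |(P.t i : ℝ)| ≤ 2 * R / T) (m : ι → ℤ) (hm : ∑ i, m i = 0) (Φ : OZ P.a P.b)
    (hN : Φ.norm = ∏ i, (X - C (P.t i)) ^ (m i).natAbs ∨
      Φ.norm = -∏ i, (X - C (P.t i)) ^ (m i).natAbs)
    (hV : ∀ i, algebraMap ℤ[X] (OZ P.a P.b) ((X - C (P.t i)) ^ (m i).natAbs) ∣
      (⟨-C (P.b - relQ P m i), 1⟩ : OZ P.a P.b) ^ (m i).natAbs * Φ)
    (hsize : m ≠ 0 → ∀ s t : ℂ, ‖t‖ = R → s ^ 2 = (P.F.map (Int.castRingHom ℂ)).eval t →
      ‖(Φ.re.map (Int.castRingHom ℂ)).eval t + (Φ.im.map (Int.castRingHom ℂ)).eval t *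
        ((P.b + s) / 2)‖ ≤ K ^ (∑ i, (m i).natAbs)) :
    ∑ i, ∑ j, (m i : ℝ) * m j * P.G i j ≤
      16 * Real.log (2 * K) / T * (∑ i, |(m i : ℝ)|) ^ 2 := by
  classical
  have hR0 : 0 < R := by linarith
  have hlog : 0 < Real.log (2 * K) := Real.log_pos (by linarith)
  -- trivial relation
  by_cases hm0 : ∀ i, m i = 0
  · have h1 : ∀ i, (m i : ℝ) = 0 := fun i => by rw [hm0 i, Int.cast_zero]
    simp only [h1]
    simp
  push Not at hm0
  obtain ⟨i0, hi0⟩ := hm0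
  replace hsize := hsize fun h => hi0 (congrFun h i0)
  set M : ℕ := ∑ i, (m i).natAbs with hM
  have hM1 : 1 ≤ M := (Nat.one_le_iff_ne_zero.2 (Int.natAbs_ne_zero.2 hi0)).trans
    (Finset.single_le_sum (f := fun i => (m i).natAbs) (fun _ _ => Nat.zero_le _)
      (Finset.mem_univ i0))
  obtain ⟨ε, hε, hNε⟩ : ∃ ε : ℤ[X], (ε = 1 ∨ ε = -1) ∧
      Φ.norm = ε * ∏ i, (X - C (P.t i)) ^ (m i).natAbs := by
    rcases hN with h | h
    · exact ⟨1, Or.inl rfl, by rw [h, one_mul]⟩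
    · exact ⟨-1, Or.inr rfl, by rw [h]; ring⟩
  have hF : P.F = 4 * P.a + C (P.b ^ 2) := rfl
  have hT0 : 0 < T := by linarith
  have htR : ∀ i, |(P.t i : ℝ)| ≤ R / 2 := by
    intro i
    refine (ht i).trans ?_
    rw [div_le_div_iff₀ hT0 (by norm_num)]
    nlinarith
  have hFev : ∀ i, P.F.eval (P.t i) = (2 * P.z i - P.b) ^ 2 := by
    intro i
    rw [hF, eval_add, eval_mul, eval_C]
    have h4 : (4 : ℤ[X]).eval (P.t i) = 4 := by simp
    rw [h4]
    linear_combination -4 * P.eq i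
  -- the branch of the square root
  obtain ⟨s, hs, hs2, -, hsint⟩ := Pool.TTF.exists_branch P.F (2 * R) (by linarith) hroot
    ⟨P.t i0, by linarith [htR i0], by rw [hFev]; exact pow_pos (P.pos i0) 2⟩
  have hst : ∀ i, s ((P.t i : ℤ) : ℂ) = 2 * (P.z i : ℂ) - P.b := by
    intro i
    have h1 := hsint (P.t i) (2 * P.z i - P.b) (by linarith [htR i]) (P.pos i) (hFev i).symm
    rw [h1]
    push_cast
    rfl
  -- the two functions
  set A : ℂ[X] := Φ.re.map (Int.castRingHom ℂ) with hA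
  set B : ℂ[X] := Φ.im.map (Int.castRingHom ℂ) with hB
  set gm : ℂ → ℂ := fun t => A.eval t + B.eval t * ((P.b + -s t) / 2) with hgm
  set gp : ℂ → ℂ := fun t => A.eval t + B.eval t * ((P.b + s t) / 2) with hgp
  have hAd : DifferentiableOn ℂ (fun t => A.eval t) (ball 0 (2 * R)) :=
    A.differentiable.differentiableOn
  have hBd : DifferentiableOn ℂ (fun t => B.eval t) (ball 0 (2 * R)) :=
    B.differentiable.differentiableOn
  have hgmd : DifferentiableOn ℂ gm (ball 0 (2 * R)) :=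
    hAd.add (hBd.mul (((differentiableOn_const _).add hs.neg).div_const 2))
  have hgpd : DifferentiableOn ℂ gp (ball 0 (2 * R)) :=
    hAd.add (hBd.mul (((differentiableOn_const _).add hs).div_const 2))
  have hevA : ∀ n : ℤ, A.eval (n : ℂ) = ((Φ.re.eval n : ℤ) : ℂ) := by
    intro n
    rw [hA]
    simp
  have hevB : ∀ n : ℤ, B.eval (n : ℂ) = ((Φ.im.eval n : ℤ) : ℂ) := by
    intro n
    rw [hB]
    simp
  have hgmt : ∀ i, gm ((P.t i : ℤ) : ℂ) =
      ((ozEv P.a P.b (P.t i) (P.b - P.z i) (relar_conj_eq (P.eq i)) Φ : ℤ) : ℂ) := by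
    intro i
    show A.eval _ + B.eval _ * ((P.b + -s _) / 2) = _
    rw [hst, hevA, hevB, ozEv_apply]
    push_cast
    ring
  have hgpt : ∀ i, gp ((P.t i : ℤ) : ℂ) =
      ((ozEv P.a P.b (P.t i) (P.z i) (P.eq i) Φ : ℤ) : ℂ) := by
    intro i
    show A.eval _ + B.eval _ * ((P.b + s _) / 2) = _
    rw [hst, hevA, hevB, ozEv_apply]
    push_cast
    ring
  -- nonvanishing at the conjugate points
  have hneQ : ∀ j, ozEv P.a P.b (P.t j) (P.b - relQ P m j) (relar_conj_eq (relQ_eq P m j)) Φ ≠ 0 :=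
    fun j => relar_ne_zero P.a P.b P.t (relQ P m) P.inj (fun i => (m i).natAbs) Φ hV ε hε hNε j
      (relQ_eq P m j) (relQ_ne P m j)
  have hevm : ∀ j, ¬ m j < 0 →
      ozEv P.a P.b (P.t j) (P.b - relQ P m j) (relar_conj_eq (relQ_eq P m j)) Φ =
        ozEv P.a P.b (P.t j) (P.b - P.z j) (relar_conj_eq (P.eq j)) Φ := by
    intro j hj
    rw [ozEv_apply, ozEv_apply, relQ, if_neg hj]
  have hevp : ∀ j, m j < 0 →
      ozEv P.a P.b (P.t j) (P.b - relQ P m j) (relar_conj_eq (relQ_eq P m j)) Φ =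
        ozEv P.a P.b (P.t j) (P.z j) (P.eq j) Φ := by
    intro j hj
    rw [ozEv_apply, ozEv_apply, relQ, if_pos hj]
    ring
  set εc : ℂ := (ε.map (Int.castRingHom ℂ)).eval 0 with hεc
  have hεev : ∀ t : ℂ, (ε.map (Int.castRingHom ℂ)).eval t = εc := by
    intro t
    rw [hεc]
    rcases hε with rfl | rfl <;> simp
  have hεn : ‖εc‖ = 1 := by
    rw [hεc]
    rcases hε with rfl | rfl <;> simp
  -- the product of the two functions
  have hprod : ∀ t ∈ ball (0 : ℂ) (2 * R), gm t * gp t =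
      (∏ i ∈ Finset.univ.filter (fun i => m i < 0), (t - ((P.t i : ℤ) : ℂ)) ^ (m i).natAbs) *
        ((∏ i ∈ Finset.univ.filter (fun i => ¬ m i < 0),
          (t - ((P.t i : ℤ) : ℂ)) ^ (m i).natAbs) * εc) := by
    intro t ht
    have h1 : gm t * gp t = (Φ.norm.map (Int.castRingHom ℂ)).eval t := by
      have h2 : gm t * gp t = (A.eval t + B.eval t * (P.b / 2)) ^ 2 -
          B.eval t ^ 2 * s t ^ 2 / 4 := by
        show (A.eval t + B.eval t * ((P.b + -s t) / 2)) *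
          (A.eval t + B.eval t * ((P.b + s t) / 2)) = _
        ring
      rw [h2, hs2 t ht, QuadraticAlgebra.norm_def, hF]
      simp only [Polynomial.map_add, Polynomial.map_sub, Polynomial.map_mul, eval_add, eval_sub,
        eval_mul, map_C, eval_C, C_pow, Polynomial.map_pow, eval_pow]
      have h4 : ((4 : ℤ[X]).map (Int.castRingHom ℂ)).eval t = 4 := by simp
      have h5 : (Int.castRingHom ℂ) P.b = (P.b : ℂ) := rfl
      rw [h4, h5]
      ring
    rw [h1, hNε, Polynomial.map_mul, eval_mul, hεev, Polynomial.map_prod, eval_prod,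
      ← Finset.prod_filter_mul_prod_filter_not Finset.univ (fun i => m i < 0)]
    have h3 : ∀ i, (((X - C (P.t i)) ^ (m i).natAbs : ℤ[X]).map (Int.castRingHom ℂ)).eval t =
        (t - ((P.t i : ℤ) : ℂ)) ^ (m i).natAbs := by
      intro i
      rw [Polynomial.map_pow, Polynomial.map_sub, map_X, map_C, eval_pow, eval_sub, eval_X,
        eval_C]
      rfl
    simp only [h3]
    ring
  have hball : ∀ i, ((P.t i : ℤ) : ℂ) ∈ ball (0 : ℂ) (2 * R) := by
    intro i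
    rw [mem_ball_zero_iff, Complex.norm_intCast]
    linarith [htR i]
  obtain ⟨φ, χ, hφ, hχ, hφ1, hχ1, hφχ⟩ := relb_pair (R := 2 * R)
    (fun i => ((P.t i : ℤ) : ℂ)) (fun i => (m i).natAbs)
    (Finset.univ.filter fun i => m i < 0) (Finset.univ.filter fun i => ¬ m i < 0) gm gp εc hgmd hgpd
    (fun i hi => ⟨hball i, by
      have h1 := hneQ i
      rw [hevp i (Finset.mem_filter.1 hi).2] at h1
      rw [hgpt]
      exact_mod_cast h1⟩)
    (fun i hi => ⟨hball i, by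
      have h1 := hneQ i
      rw [hevm i (Finset.mem_filter.1 hi).2] at h1
      rw [hgmt]
      exact_mod_cast h1⟩) hprod
  -- the bounds
  set Bd : ℝ := M * Real.log (2 * K) with hBd
  have hMr : (1 : ℝ) ≤ M := by exact_mod_cast hM1
  have hBd0 : 0 < Bd := by positivity
  have hexp : (2 * K) ^ M = Real.exp Bd := by
    rw [hBd, Real.exp_nat_mul, Real.exp_log (by positivity)]
  have hquot : ∀ (g ψ : ℂ → ℂ) (S : Finset ι),
      (∀ t ∈ ball (0 : ℂ) (2 * R), g t = ψ t * ∏ i ∈ S, (t - ((P.t i : ℤ) : ℂ)) ^ (m i).natAbs) →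
      (∀ t : ℂ, ‖t‖ = R → ‖g t‖ ≤ K ^ M) →
      ∀ t : ℂ, ‖t‖ = R → ‖ψ t‖ ≤ Real.exp Bd := by
    intro g ψ S h1 h2 t htR'
    have h3 := h1 t (mem_ball_zero_iff.2 (by rw [htR']; linarith))
    have h4 := relb_prod_ge (fun i => ((P.t i : ℤ) : ℂ)) (fun i => (m i).natAbs) S hR
      (fun i => by rw [Complex.norm_intCast]; exact htR i) t htR'
    have h5 := h2 t htR'
    rw [h3, norm_mul] at h5
    set Q := ‖∏ i ∈ S, (t - ((P.t i : ℤ) : ℂ)) ^ (m i).natAbs‖ with hQ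
    have h7 : ‖ψ t‖ * (1 / 2 : ℝ) ^ M ≤ K ^ M :=
      (mul_le_mul_of_nonneg_left h4 (norm_nonneg _)).trans h5
    have h9 : ‖ψ t‖ = ‖ψ t‖ * (1 / 2 : ℝ) ^ M * 2 ^ M := by
      rw [mul_assoc, ← mul_pow]
      norm_num
    calc ‖ψ t‖ = ‖ψ t‖ * (1 / 2 : ℝ) ^ M * 2 ^ M := h9
      _ ≤ K ^ M * 2 ^ M := mul_le_mul_of_nonneg_right h7 (by positivity)
      _ = (2 * K) ^ M := by rw [← mul_pow, mul_comm K 2]
      _ = Real.exp Bd := hexp
  have hφR : ∀ t : ℂ, ‖t‖ = R → ‖φ t‖ ≤ Real.exp Bd := by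
    refine hquot gm φ _ hφ1 fun t htR' => ?_
    refine hsize (-s t) t htR' ?_
    rw [neg_sq]
    exact hs2 t (mem_ball_zero_iff.2 (by rw [htR']; linarith))
  have hχR : ∀ t : ℂ, ‖t‖ = R → ‖χ t‖ ≤ Real.exp Bd := by
    refine hquot gp χ _ hχ1 fun t htR' => ?_
    exact hsize (s t) t htR' (hs2 t (mem_ball_zero_iff.2 (by rw [htR']; linarith)))
  have hφle : ∀ t ∈ ball (0 : ℂ) R, ‖φ t‖ ≤ Real.exp Bd := by
    intro t ht
    exact relb_max hR0 hφ hφR t (mem_ball_zero_iff.1 ht)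
  have hχle : ∀ t ∈ ball (0 : ℂ) R, ‖χ t‖ ≤ Real.exp Bd := by
    intro t ht
    exact relb_max hR0 hχ hχR t (mem_ball_zero_iff.1 ht)
  have hsubR : ball (0 : ℂ) R ⊆ ball 0 (2 * R) := ball_subset_ball (by linarith)
  have hφχn : ∀ t ∈ ball (0 : ℂ) R, ‖φ t‖ * ‖χ t‖ = 1 := by
    intro t ht
    rw [← norm_mul, hφχ t (hsubR ht), hεn]
  have hφge : ∀ t ∈ ball (0 : ℂ) R, Real.exp (-Bd) ≤ ‖φ t‖ := by
    intro t ht
    have h1 := hφχn t ht
    have h2 := hχle t ht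
    rw [Real.exp_neg, inv_le_iff_one_le_mul₀ (Real.exp_pos _), ← h1]
    exact mul_le_mul_of_nonneg_left h2 (norm_nonneg _)
  have hosc := fun t ht => rel_osc hR0 hBd0 (hφ.mono hsubR) hφle hφge t ht
  have hballR : ∀ i, ((P.t i : ℤ) : ℂ) ∈ ball (0 : ℂ) R := by
    intro i
    rw [mem_ball_zero_iff, Complex.norm_intCast]
    linarith [htR i]
  -- the sum of the logarithms of the distances
  have hlogprod : ∀ (j : ι) (S : Finset ι), j ∉ S →
      Real.log ‖∏ i ∈ S, (((P.t j : ℤ) : ℂ) - ((P.t i : ℤ) : ℂ)) ^ (m i).natAbs‖ =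
        ∑ i ∈ S, ((m i).natAbs : ℝ) * Real.log |((P.t i : ℝ) - P.t j)| := by
    intro j S hj
    rw [norm_prod, Real.log_prod fun i hi => ?_]
    · refine Finset.sum_congr rfl fun i _ => ?_
      have h1 : ((P.t j : ℤ) : ℂ) - ((P.t i : ℤ) : ℂ) = ((P.t j - P.t i : ℤ) : ℂ) := by
        push_cast
        rfl
      rw [norm_pow, Real.log_pow, h1, Complex.norm_intCast]
      push_cast
      rw [abs_sub_comm]
    · rw [norm_ne_zero_iff]
      refine pow_ne_zero _ (sub_ne_zero.2 fun h => ?_)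
      have h2 : P.t j = P.t i := by exact_mod_cast h
      exact hj (P.inj h2 ▸ hi)
  -- the local inequalities
  have hloc : ∀ j, (m j : ℝ) * ∑ i, (m i : ℝ) * P.G i j ≤
      (m j : ℝ) * Real.log ‖φ ((P.t j : ℤ) : ℂ)‖ := by
    intro j
    have hpt := relb_point P m Φ hV j (hneQ j)
    have hφχj := hφχn _ (hballR j)
    have hφpos : 0 < ‖φ ((P.t j : ℤ) : ℂ)‖ := (Real.exp_pos _).trans_le (hφge _ (hballR j))
    have hχpos : 0 < ‖χ ((P.t j : ℤ) : ℂ)‖ := by
      by_contra hcon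
      have h1 : ‖χ ((P.t j : ℤ) : ℂ)‖ = 0 := le_antisymm (not_lt.1 hcon) (norm_nonneg _)
      rw [h1, mul_zero] at hφχj
      exact zero_ne_one hφχj
    by_cases hj : m j < 0
    · rw [hevp j hj, if_pos hj] at hpt
      have h1 := hχ1 _ (hball j)
      rw [hgpt] at h1
      have h2 := congrArg norm h1
      rw [Complex.norm_intCast, norm_mul] at h2
      have hjS : j ∉ Finset.univ.filter fun i => ¬ m i < 0 := by
        intro h
        exact (Finset.mem_filter.1 h).2 hj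
      have hP0 : ‖∏ i ∈ Finset.univ.filter (fun i => ¬ m i < 0),
          (((P.t j : ℤ) : ℂ) - ((P.t i : ℤ) : ℂ)) ^ (m i).natAbs‖ ≠ 0 := by
        intro h3
        rw [h3, mul_zero] at h2
        have h4 := hneQ j
        rw [hevp j hj] at h4
        exact h4 (by exact_mod_cast abs_eq_zero.1 h2)
      rw [h2, Real.log_mul hχpos.ne' hP0, hlogprod j _ hjS, Finset.sum_filter] at hpt
      have h3 : ∑ i, (if (m i < 0 ↔ m j < 0) then 0 else
          ((m i).natAbs : ℝ) * Real.log |((P.t i : ℝ) - P.t j)|) =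
          ∑ i, (if ¬ m i < 0 then
            ((m i).natAbs : ℝ) * Real.log |((P.t i : ℝ) - P.t j)| else 0) := by
        refine Finset.sum_congr rfl fun i _ => ?_
        by_cases hi : m i < 0
        · rw [if_pos (iff_of_true hi hj), if_neg (not_not.2 hi)]
        · rw [if_neg (fun h => hi (h.2 hj)), if_pos hi]
      rw [h3] at hpt
      have h4 : Real.log ‖χ ((P.t j : ℤ) : ℂ)‖ = -Real.log ‖φ ((P.t j : ℤ) : ℂ)‖ := by
        have h5 := congrArg Real.log hφχj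
        rw [Real.log_mul hφpos.ne' hχpos.ne', Real.log_one] at h5
        linarith
      rw [h4] at hpt
      have h5 : (m j : ℝ) < 0 := by exact_mod_cast hj
      have h6 : Real.log ‖φ ((P.t j : ℤ) : ℂ)‖ ≤ ∑ i, (m i : ℝ) * P.G i j := by linarith
      exact mul_le_mul_of_nonpos_left h6 h5.le
    · rw [hevm j hj, if_neg hj, one_mul] at hpt
      have h1 := hφ1 _ (hball j)
      rw [hgmt] at h1
      have h2 := congrArg norm h1
      rw [Complex.norm_intCast, norm_mul] at h2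
      have hjS : j ∉ Finset.univ.filter fun i => m i < 0 := by
        intro h
        exact hj (Finset.mem_filter.1 h).2
      have hP0 : ‖∏ i ∈ Finset.univ.filter (fun i => m i < 0),
          (((P.t j : ℤ) : ℂ) - ((P.t i : ℤ) : ℂ)) ^ (m i).natAbs‖ ≠ 0 := by
        intro h3
        rw [h3, mul_zero] at h2
        have h4 := hneQ j
        rw [hevm j hj] at h4
        exact h4 (by exact_mod_cast abs_eq_zero.1 h2)
      rw [h2, Real.log_mul hφpos.ne' hP0, hlogprod j _ hjS, Finset.sum_filter] at hpt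
      have h3 : ∑ i, (if (m i < 0 ↔ m j < 0) then 0 else
          ((m i).natAbs : ℝ) * Real.log |((P.t i : ℝ) - P.t j)|) =
          ∑ i, (if m i < 0 then
            ((m i).natAbs : ℝ) * Real.log |((P.t i : ℝ) - P.t j)| else 0) := by
        refine Finset.sum_congr rfl fun i _ => ?_
        by_cases hi : m i < 0
        · rw [if_neg (fun h => hj (h.1 hi)), if_pos hi]
        · rw [if_pos (iff_of_false hi hj), if_neg hi]
      rw [h3] at hpt
      have h5 : (0 : ℝ) ≤ (m j : ℝ) := by exact_mod_cast not_lt.1 hj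
      have h6 : ∑ i, (m i : ℝ) * P.G i j ≤ Real.log ‖φ ((P.t j : ℤ) : ℂ)‖ := by linarith
      exact mul_le_mul_of_nonneg_left h6 h5
  -- the sum
  have hmr : ∑ j, (m j : ℝ) = 0 := by exact_mod_cast hm
  have hMabs : (M : ℝ) = ∑ i, |(m i : ℝ)| := by
    rw [hM]
    push_cast
    refine Finset.sum_congr rfl fun i _ => ?_
    rw [Nat.cast_natAbs, Int.cast_abs]
  calc ∑ i, ∑ j, (m i : ℝ) * m j * P.G i j
      = ∑ j, (m j : ℝ) * ∑ i, (m i : ℝ) * P.G i j := by
        rw [Finset.sum_comm]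
        refine Finset.sum_congr rfl fun j _ => ?_
        rw [Finset.mul_sum]
        refine Finset.sum_congr rfl fun i _ => ?_
        ring
    _ ≤ ∑ j, (m j : ℝ) * Real.log ‖φ ((P.t j : ℤ) : ℂ)‖ := Finset.sum_le_sum fun j _ => hloc j
    _ = ∑ j, (m j : ℝ) * (Real.log ‖φ ((P.t j : ℤ) : ℂ)‖ - Real.log ‖φ 0‖) := by
        simp only [mul_sub]
        rw [Finset.sum_sub_distrib, ← Finset.sum_mul, hmr]
        ring
    _ ≤ ∑ j, |(m j : ℝ)| * (16 * Bd / T) := by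
        refine Finset.sum_le_sum fun j _ => ?_
        have h1 := hosc ((P.t j : ℤ) : ℂ) (mem_ball_zero_iff.1 (hballR j))
        rw [Complex.norm_intCast] at h1
        have h2 : 4 * Bd * |(P.t j : ℝ)| / (R - |(P.t j : ℝ)|) ≤ 16 * Bd / T := by
          have h3 := htR j
          have h4 := ht j
          rw [div_le_div_iff₀ (by linarith) hT0]
          have h5 : |(P.t j : ℝ)| * T ≤ 2 * R := by
            rwa [le_div_iff₀ hT0] at h4
          nlinarith
        calc (m j : ℝ) * (Real.log ‖φ ((P.t j : ℤ) : ℂ)‖ - Real.log ‖φ 0‖)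
            ≤ |(m j : ℝ) * (Real.log ‖φ ((P.t j : ℤ) : ℂ)‖ - Real.log ‖φ 0‖)| := le_abs_self _
          _ = |(m j : ℝ)| * |Real.log ‖φ ((P.t j : ℤ) : ℂ)‖ - Real.log ‖φ 0‖| := abs_mul _ _
          _ ≤ _ := mul_le_mul_of_nonneg_left (h1.trans h2) (abs_nonneg _)
    _ = 16 * Real.log (2 * K) / T * (∑ i, |(m i : ℝ)|) ^ 2 := by
        rw [← Finset.sum_mul, hBd, hMabs]
        ring

/-- the size of a function in odd degree -/
theorem rel_size_odd [Fintype ι] (P : Pool.TTF.FPts ι) (hodd : Odd P.a.natDegree) (R T ρ : ℝ)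
    (hR : 1 ≤ R) (hT : 4 ≤ T) (hRρ : R ≤ ρ)
    (hroot' : ∀ z : ℂ, (P.F.map (Int.castRingHom ℂ)).IsRoot z → ‖z‖ ≤ ρ)
    (ht : ∀ i, |(P.t i : ℝ)| ≤ 2 * R / T) (m : ι → ℤ) (Φ : OZ P.a P.b)
    (hN : Φ.norm = ∏ i, (X - C (P.t i)) ^ (m i).natAbs ∨
      Φ.norm = -∏ i, (X - C (P.t i)) ^ (m i).natAbs) (hm0 : m ≠ 0) (s t : ℂ) (htR' : ‖t‖ = R)
    (hs' : s ^ 2 = (P.F.map (Int.castRingHom ℂ)).eval t) :
    ‖(Φ.re.map (Int.castRingHom ℂ)).eval t + (Φ.im.map (Int.castRingHom ℂ)).eval t *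
        ((P.b + s) / 2)‖ ≤ Real.sqrt (525 * ρ) ^ (∑ i, (m i).natAbs) := by
  have hρ : 1 ≤ ρ := hR.trans hRρ
  have hT0 : 0 < T := by linarith
  have hF : P.F = 4 * P.a + C (P.b ^ 2) := rfl
  have hFodd : Odd (4 * P.a + C (P.b ^ 2)).natDegree := by
    rw [natDegree_add_C, show (4 : ℤ[X]) = C 4 from rfl, natDegree_C_mul (by norm_num)]
    exact hodd
  have htR : ∀ i, |(P.t i : ℝ)| ≤ R / 2 := by
    intro i
    refine (ht i).trans ?_
    rw [div_le_div_iff₀ hT0 (by norm_num)]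
    nlinarith
  obtain ⟨ε, hε, hNε⟩ : ∃ ε : ℤ[X], (ε = 1 ∨ ε = -1) ∧
      Φ.norm = ε * ∏ i, (X - C (P.t i)) ^ (m i).natAbs := by
    rcases hN with h | h
    · exact ⟨1, Or.inl rfl, by rw [h, one_mul]⟩
    · exact ⟨-1, Or.inr rfl, by rw [h]; ring⟩
  set M : ℕ := ∑ i, (m i).natAbs with hM
  have h1 : ‖(Φ.re.map (Int.castRingHom ℂ)).eval t + (Φ.im.map (Int.castRingHom ℂ)).eval t *
      ((P.b + s) / 2)‖ ^ 2 ≤ 6 * (32 * Real.exp 1 * ρ) ^ M := by
    refine rel_size P.a P.b Φ.re Φ.im hFodd ρ hρ hroot' P.t (fun i => (m i).natAbs)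
      (fun i => (htR i).trans (by linarith)) ε hε ?_ t s (htR'.le.trans hRρ) hs'
    rw [← hNε, QuadraticAlgebra.norm_def]
    ring
  have hM1 : M ≠ 0 := by
    intro h0
    apply hm0
    funext i
    have h2 := (Finset.sum_eq_zero_iff.1 h0) i (Finset.mem_univ i)
    exact Int.natAbs_eq_zero.1 h2
  have h2 : (0 : ℝ) ≤ 525 * ρ := by positivity
  refine (sq_le_sq₀ (norm_nonneg _) (by positivity)).1 ?_
  refine h1.trans ?_
  rw [← pow_mul, mul_comm M 2, pow_mul, Real.sq_sqrt h2]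
  calc 6 * (32 * Real.exp 1 * ρ) ^ M ≤ 6 ^ M * (32 * Real.exp 1 * ρ) ^ M :=
        mul_le_mul_of_nonneg_right (le_self_pow₀ (by norm_num) hM1) (by positivity)
    _ = (6 * (32 * Real.exp 1 * ρ)) ^ M := by rw [← mul_pow]
    _ ≤ (525 * ρ) ^ M := by
        refine pow_le_pow_left₀ (by positivity) ?_ M
        have := Real.exp_one_lt_d9
        nlinarith

/-- **(R)** in odd degree. -/
theorem rel_bound [Fintype ι] (P : Pool.TTF.FPts ι) (hodd : Odd P.a.natDegree) (R T ρ : ℝ)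
    (hR : 1 ≤ R) (hT : 4 ≤ T) (hRρ : R ≤ ρ)
    (hroot : ∀ z : ℂ, (P.F.map (Int.castRingHom ℂ)).IsRoot z → 2 * R ≤ ‖z‖)
    (hroot' : ∀ z : ℂ, (P.F.map (Int.castRingHom ℂ)).IsRoot z → ‖z‖ ≤ ρ)
    (ht : ∀ i, |(P.t i : ℝ)| ≤ 2 * R / T) (m : ι → ℤ) (hm : ∑ i, m i = 0) (Φ : OZ P.a P.b)
    (hN : Φ.norm = ∏ i, (X - C (P.t i)) ^ (m i).natAbs ∨
      Φ.norm = -∏ i, (X - C (P.t i)) ^ (m i).natAbs)
    (hV : ∀ i, algebraMap ℤ[X] (OZ P.a P.b) ((X - C (P.t i)) ^ (m i).natAbs) ∣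
      (⟨-C (P.b - relQ P m i), 1⟩ : OZ P.a P.b) ^ (m i).natAbs * Φ) :
    ∑ i, ∑ j, (m i : ℝ) * m j * P.G i j ≤
      8 * Real.log (2100 * ρ) / T * (∑ i, |(m i : ℝ)|) ^ 2 := by
  have hρ : 1 ≤ ρ := hR.trans hRρ
  have h := rel_bound_gen P R T (Real.sqrt (525 * ρ)) hR hT
    (by
      rw [Real.one_le_sqrt]
      linarith) hroot ht m hm Φ hN hV
    (fun hm0 s t => rel_size_odd P hodd R T ρ hR hT hRρ hroot' ht m Φ hN hm0 s t)
  have e : 16 * Real.log (2 * Real.sqrt (525 * ρ)) = 8 * Real.log (2100 * ρ) := by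
    have h1 : 2 * Real.sqrt (525 * ρ) = Real.sqrt (2100 * ρ) := by
      rw [show (2100 : ℝ) * ρ = 2 ^ 2 * (525 * ρ) by ring,
        Real.sqrt_mul (x := (2 : ℝ) ^ 2) (by norm_num) (525 * ρ), Real.sqrt_sq (by norm_num)]
    rw [h1, Real.log_sqrt (by positivity)]
    ring
  rwa [e] at h

end Pool.TT.Five
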