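import Pool.Agent.Lib.MP_695920_nt.TT.Five.RelPhi
import Pool.Agent.Lib.MP_695920_nt.TT.Five.RelBound
import Pool.Agent.Lib.MP_695920_nt.TT.Five.QCls
import Pool.Agent.Lib.MP_695920_nt.TT.Five.ClsPos
import Pool.Agent.Lib.MP_695920_nt.TT.ClassRank

set_option autoImplicit false

/-!
TEAM TWOTORSION, `n = 5`: balanced relations for a class of integral points.
-/

open Polynomial

namespace Pool.TT.Five

namespace QData

variable {ι : Type*} {P : Pts ι} (Q : QData P)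

theorem h_ne_zero : Q.h ≠ 0 := by
  intro h0
  have h1 := Q.w_h
  rw [h0, mul_zero] at h1
  have h2 := P.pos Q.c
  omega

/-- the model -/
noncomputable def mdl : Mdl P.f0 where
  xc := P.x Q.c
  yc := P.y Q.c
  q := Q.q
  w := Q.w
  b := -Q.h
  E := Q.E
  q0 := Q.qz
  w0 := Q.wz
  b0 := neg_ne_zero.2 Q.h_ne_zero
  hb := by
    rw [mul_neg, Q.w_h]
  hE := Q.E_spec
  E0 := by
    rw [coeff_zero_eq_eval_zero]
    exact Q.E_zero

end QData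

/-- **Balanced relations of a class.** -/
theorem rel_phi {ι : Type*} [Fintype ι] {P : Pts ι} (Q : QData P) (k : ℕ)
    (hfin : Finite (ClassGroup (Crd P.f) ⧸ (powMonoidHom 2 : ClassGroup (Crd P.f) →* _).range))
    (hcard : Nat.card (ClassGroup (Crd P.f) ⧸
      (powMonoidHom 2 : ClassGroup (Crd P.f) →* _).range) ≤ 2 ^ k) :
    ∃ L : AddSubgroup (ι → ℤ), (∀ S : Finset ι, k + 1 + Q.w.primeFactors.card < S.card →
      ∃ m ∈ L, m ≠ 0 ∧ ∀ j, j ∉ S → m j = 0) ∧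
      ∀ m ∈ L, ∑ i, m i = 0 ∧ ∃ Φ : OZ Q.toFPts.a Q.toFPts.b,
        (Φ.norm = ∏ i, (X - C (Q.toFPts.t i)) ^ (m i).natAbs ∨
          Φ.norm = -∏ i, (X - C (Q.toFPts.t i)) ^ (m i).natAbs) ∧
        ∀ j, algebraMap ℤ[X] (OZ Q.toFPts.a Q.toFPts.b) ((X - C (Q.toFPts.t j)) ^ (m j).natAbs) ∣
          (⟨-C (Q.toFPts.b - relQ Q.toFPts m j), 1⟩ : OZ Q.toFPts.a Q.toFPts.b) ^ (m j).natAbs *
            Φ := by
  have hcopw : ∀ p : ℕ, p.Prime → p ∣ Q.w → ¬ (p : ℤ) ∣ Q.mdl.b := by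
    intro p hp hpw h
    obtain ⟨u, v, huv⟩ := Q.h_cop_w
    have h1 : (p : ℤ) ∣ Q.h := (dvd_neg).1 h
    have h2 : (p : ℤ) ∣ 1 := by
      rw [← huv]
      exact dvd_add (h1.mul_left _) ((Int.natCast_dvd_natCast.2 hpw).mul_left _)
    exact (Nat.prime_iff_prime_int.1 hp).not_isUnit (isUnit_of_dvd_one h2)
  obtain ⟨L, h1, h2⟩ := rel_phi_gen P Q.mdl Q.t Q.z Q.x_eq (fun i => by
      have h3 := Q.w_z i
      show P.y i = (Q.w : ℤ) * Q.z i + P.y Q.c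
      rw [h3]
      ring) Q.w.primeFactors (fun p hp => Nat.prime_of_mem_primeFactors hp)
    (fun p hp hpq => by
      rw [Nat.mem_primeFactors]
      have h4 : (p : ℤ) ∣ (Q.q : ℤ) := hpq
      exact ⟨hp, Q.pq p hp (Int.natCast_dvd_natCast.1 h4), Q.w0⟩)
    (fun p hp => hcopw p (Nat.prime_of_mem_primeFactors hp) (Nat.dvd_of_mem_primeFactors hp)) k
    (fun S hS => class_rank P k hfin hcard S hS)
  refine ⟨L, h1, fun m hm => ?_⟩
  obtain ⟨h3, Φ, h4, h5⟩ := h2 m hm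
  exact ⟨h3, Φ, Or.inl h4, fun j => h5 j⟩

namespace ClassData

variable {ι : Type*} {P : Pts ι} (Q : ClassData P)

theorem h_ne_zero : Q.h ≠ 0 := by
  intro h0
  have h1 := Q.w_h
  rw [h0, mul_zero] at h1
  have h2 := P.pos Q.c
  omega

/-- the model -/
noncomputable def mdl : Mdl P.f0 where
  xc := P.x Q.c
  yc := P.y Q.c
  q := (Q.w : ℤ) ^ 3
  w := Q.w
  b := -Q.h
  E := Q.E
  q0 := pow_ne_zero 3 Q.wz
  w0 := Q.wz
  b0 := neg_ne_zero.2 Q.h_ne_zero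
  hb := by
    rw [mul_neg, Q.w_h]
  hE := Q.E_spec
  E0 := by
    rw [coeff_zero_eq_eval_zero]
    exact Q.E_zero

end ClassData

/-- **Balanced relations of a class.** -/
theorem rel_phi_cls {ι : Type*} [Fintype ι] {P : Pts ι} (Q : ClassData P) (k : ℕ)
    (hfin : Finite (ClassGroup (Crd P.f) ⧸ (powMonoidHom 2 : ClassGroup (Crd P.f) →* _).range))
    (hcard : Nat.card (ClassGroup (Crd P.f) ⧸
      (powMonoidHom 2 : ClassGroup (Crd P.f) →* _).range) ≤ 2 ^ k) :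
    ∃ L : AddSubgroup (ι → ℤ), (∀ S : Finset ι, k + 1 + Q.w.primeFactors.card < S.card →
      ∃ m ∈ L, m ≠ 0 ∧ ∀ j, j ∉ S → m j = 0) ∧
      ∀ m ∈ L, ∑ i, m i = 0 ∧ ∃ Φ : OZ Q.toFPts.a Q.toFPts.b,
        (Φ.norm = ∏ i, (X - C (Q.toFPts.t i)) ^ (m i).natAbs ∨
          Φ.norm = -∏ i, (X - C (Q.toFPts.t i)) ^ (m i).natAbs) ∧
        ∀ j, algebraMap ℤ[X] (OZ Q.toFPts.a Q.toFPts.b) ((X - C (Q.toFPts.t j)) ^ (m j).natAbs) ∣
          (⟨-C (Q.toFPts.b - relQ Q.toFPts m j), 1⟩ : OZ Q.toFPts.a Q.toFPts.b) ^ (m j).natAbs *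
            Φ := by
  have hcopw : ∀ p : ℕ, p.Prime → p ∣ Q.w → ¬ (p : ℤ) ∣ Q.mdl.b := by
    intro p hp hpw h
    obtain ⟨u, v, huv⟩ := Q.h_cop_w
    have h1 : (p : ℤ) ∣ Q.h := (dvd_neg).1 h
    have h2 : (p : ℤ) ∣ 1 := by
      rw [← huv]
      exact dvd_add (h1.mul_left _) ((Int.natCast_dvd_natCast.2 hpw).mul_left _)
    exact (Nat.prime_iff_prime_int.1 hp).not_isUnit (isUnit_of_dvd_one h2)
  obtain ⟨L, h1, h2⟩ := rel_phi_gen P Q.mdl Q.t Q.z Q.x_eq (fun i => by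
      have h3 := Q.w_z i
      show P.y i = (Q.w : ℤ) * Q.z i + P.y Q.c
      rw [h3]
      ring) Q.w.primeFactors (fun p hp => Nat.prime_of_mem_primeFactors hp)
    (fun p hp hpq => by
      rw [Nat.mem_primeFactors]
      have h4 : (p : ℤ) ∣ (Q.w : ℤ) ^ 3 := hpq
      have h5 := (Nat.prime_iff_prime_int.1 hp).dvd_of_dvd_pow h4
      exact ⟨hp, Int.natCast_dvd_natCast.1 h5, Q.w0⟩)
    (fun p hp => hcopw p (Nat.prime_of_mem_primeFactors hp) (Nat.dvd_of_mem_primeFactors hp)) k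
    (fun S hS => class_rank P k hfin hcard S hS)
  refine ⟨L, h1, fun m hm => ?_⟩
  obtain ⟨h3, Φ, h4, h5⟩ := h2 m hm
  exact ⟨h3, Φ, Or.inl h4, fun j => h5 j⟩

end Pool.TT.Five
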