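import Pool.Agent.Lib.MP_695920_nt.TT.Five.ClsPos
import Pool.Agent.Lib.MP_695920_nt.TT.Five.QCls
import Pool.Agent.Lib.MP_695920_nt.TT.Five.Disc
import Pool.Agent.Lib.MP_695920_nt.TT.Five.RelAll
import Pool.Agent.Lib.MP_695920_nt.TT.Five.RelPhiQ

set_option autoImplicit false

/-!
TEAM TWOTORSION, FIVE: relations (R), final form (OWNERS helper66, helper90).
-/

open Polynomial

namespace Pool.TTV

open Pool.TT Pool.TT.Five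

/-- from a group of relations to a subspace -/
theorem rel_W {ι : Type*} [Fintype ι] (P : Pool.TTF.FPts ι) (hodd : Odd P.a.natDegree)
    (R T ρ : ℝ) (hR : 1 ≤ R) (hT : 4 ≤ T) (hRρ : R ≤ ρ)
    (hroot : ∀ z : ℂ, (P.F.map (Int.castRingHom ℂ)).IsRoot z → 2 * R ≤ ‖z‖)
    (hroot' : ∀ z : ℂ, (P.F.map (Int.castRingHom ℂ)).IsRoot z → ‖z‖ ≤ ρ)
    (ht : ∀ i, |(P.t i : ℝ)| ≤ 2 * R / T) (d : ℕ) (L : AddSubgroup (ι → ℤ))
    (hd : ∀ S : Finset ι, d < S.card → ∃ m ∈ L, m ≠ 0 ∧ ∀ i, i ∉ S → m i = 0)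
    (hL : ∀ m ∈ L, ∑ i, m i = 0 ∧ ∃ Φ : OZ P.a P.b,
      (Φ.norm = ∏ i, (X - C (P.t i)) ^ (m i).natAbs ∨
        Φ.norm = -∏ i, (X - C (P.t i)) ^ (m i).natAbs) ∧
      ∀ i, algebraMap ℤ[X] (OZ P.a P.b) ((X - C (P.t i)) ^ (m i).natAbs) ∣
        (⟨-C (P.b - relQ P m i), 1⟩ : OZ P.a P.b) ^ (m i).natAbs * Φ) :
    ∃ W : Submodule ℝ (ι → ℝ), Module.finrank ℝ ((ι → ℝ) ⧸ W) ≤ d ∧
      ∀ m ∈ W, ∑ i, m i = 0 ∧ ∑ i, ∑ j, m i * m j * P.G i j ≤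
        8 * Real.log (2100 * ρ) / T * (∑ i, |m i|) ^ 2 := by
  refine ⟨relSpan L, relSpan_finrank L d hd, fun w hw => ⟨?_, ?_⟩⟩
  · exact relSpan_sum L (fun m hm => (hL m hm).1) w hw
  · have h := rel_all P hodd R T ρ hR hT hRρ hroot hroot' ht L hL 0 w hw
    rwa [zero_mul, zero_add] at h

/-- numerical bookkeeping -/
theorem rel_const {ρ T : ℝ} (hρ : 1 ≤ ρ) (hT : 4 ≤ T) :
    8 * Real.log (2100 * (2 * ρ)) / T ≤ 8 * Real.log 4200 * (Real.log ρ + 1) / T := by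
  have h0 : (0 : ℝ) < ρ := by linarith
  have h1 : Real.log (2100 * (2 * ρ)) = Real.log 4200 + Real.log ρ := by
    rw [← Real.log_mul (by norm_num) h0.ne']
    congr 1
    ring
  have h2 : 0 ≤ Real.log ρ := Real.log_nonneg hρ
  have h3 : 1 ≤ Real.log 4200 := by
    rw [Real.le_log_iff_exp_le (by norm_num)]
    have := Real.exp_one_lt_d9
    linarith
  rw [h1]
  apply div_le_div_of_nonneg_right _ (by linarith)
  nlinarith

/-- a root of `f` -/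
theorem rel_exists_root {ι : Type*} (P : Pts ι) :
    ∃ z : ℂ, (P.f0.map (Int.castRingHom ℂ)).IsRoot z := by
  apply Complex.exists_root
  have h3 := P.three
  rw [← natDegree_pos_iff_degree_pos, P.monic.natDegree_map]
  omega

/-- **(R)** with the modulus `q`. -/
theorem rel_mainQ_of {N : ℕ} {P : Pts (Fin N)} (Q : QData P) (d : ℕ) (ρ r T : ℝ)
    (hρ : 1 ≤ ρ) (hT : 4 ≤ T)
    (hroot : ∀ z : ℂ, (P.f0.map (Int.castRingHom ℂ)).IsRoot z → ‖z‖ ≤ ρ)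
    (hx : ∀ i, |(P.x i : ℝ)| ≤ ρ)
    (hr : ∀ z : ℂ, (P.f0.map (Int.castRingHom ℂ)).IsRoot z → r ≤ ‖(P.x Q.c : ℂ) - z‖)
    (hq : 2 * (Q.q : ℝ) ≤ r) (hxT : ∀ i, |(P.x i : ℝ) - P.x Q.c| * T ≤ r)
    (L : AddSubgroup (Fin N → ℤ))
    (hd : ∀ S : Finset (Fin N), d < S.card → ∃ m ∈ L, m ≠ 0 ∧ ∀ i, i ∉ S → m i = 0)
    (hL : ∀ m ∈ L, ∑ i, m i = 0 ∧ ∃ Φ : OZ Q.toFPts.a Q.toFPts.b,
      (Φ.norm = ∏ i, (X - C (Q.toFPts.t i)) ^ (m i).natAbs ∨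
        Φ.norm = -∏ i, (X - C (Q.toFPts.t i)) ^ (m i).natAbs) ∧
      ∀ i, algebraMap ℤ[X] (OZ Q.toFPts.a Q.toFPts.b)
          ((X - C (Q.toFPts.t i)) ^ (m i).natAbs) ∣
        (⟨-C (Q.toFPts.b - relQ Q.toFPts m i), 1⟩ : OZ Q.toFPts.a Q.toFPts.b) ^
          (m i).natAbs * Φ) :
    ∃ W : Submodule ℝ (Fin N → ℝ), Module.finrank ℝ ((Fin N → ℝ) ⧸ W) ≤ d ∧
      ∀ m ∈ W, ∑ i, m i = 0 ∧ ∑ i, ∑ j, m i * m j * Q.toFPts.G i j ≤
        8 * Real.log 4200 * (Real.log ρ + 1) / T * (∑ i, |m i|) ^ 2 := by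
  have hq0 : (0 : ℝ) < Q.q := by exact_mod_cast Nat.pos_of_ne_zero Q.q0
  have hq1 : (1 : ℝ) ≤ Q.q := by exact_mod_cast Nat.one_le_iff_ne_zero.2 Q.q0
  have hTpos : 0 < T := by linarith
  obtain ⟨z0, hz0⟩ := rel_exists_root P
  have hr2 : r ≤ 2 * ρ := by
    refine (hr z0 hz0).trans ((norm_sub_le _ _).trans ?_)
    have h1 : ‖(P.x Q.c : ℂ)‖ ≤ ρ := by
      rw [Complex.norm_intCast]
      exact hx Q.c
    have h2 := hroot z0 hz0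
    linarith
  have hR : 2 * (r / (2 * Q.q)) = r / Q.q := by
    field_simp
  obtain ⟨W, hW1, hW2⟩ := rel_W Q.toFPts Q.E_odd (r / (2 * Q.q)) T (2 * ρ)
    (by rw [le_div_iff₀ (by positivity), one_mul]; exact hq) hT
    (by
      rw [div_le_iff₀ (by positivity)]
      nlinarith)
    (fun z hz => by rw [hR]; exact Q.toFPts_root hr z hz)
    (fun z hz => by
      have h1 : 4 * (Q.E.map (Int.castRingHom ℂ)).eval z + (Q.h : ℂ) ^ 2 = 0 := by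
        have h1 : (Q.toFPts.F.map (Int.castRingHom ℂ)).eval z = 0 := hz
        have h2 : Q.toFPts.F = C 4 * Q.E + C (Q.h ^ 2) := by
          rw [TTF.FPts.F, Q.toFPts_a, Q.toFPts_b, neg_sq]
          rfl
        rw [h2] at h1
        simp only [Polynomial.map_add, Polynomial.map_mul, Polynomial.map_C, eval_add, eval_mul,
          eval_C] at h1
        simpa only [eq_intCast, Int.cast_pow, Int.cast_ofNat] using h1
      have h2 := hroot _ (Q.root_of_root z h1)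
      have h3 : ‖(P.x Q.c : ℂ)‖ ≤ ρ := by
        rw [Complex.norm_intCast]
        exact hx Q.c
      have h4 : ‖(Q.q : ℂ) * z‖ ≤ 2 * ρ := by
        have e : (Q.q : ℂ) * z = ((Q.q : ℂ) * z + P.x Q.c) - P.x Q.c := by ring
        rw [e]
        refine (norm_sub_le _ _).trans ?_
        linarith
      rw [norm_mul, Complex.norm_natCast] at h4
      have h5 : ‖z‖ ≤ Q.q * ‖z‖ := le_mul_of_one_le_left (norm_nonneg _) hq1
      linarith)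
    (fun i => by
      rw [hR, Q.toFPts_t, div_div, mul_comm (Q.q : ℝ) T, ← div_div]
      exact Q.t_le i (by rw [le_div_iff₀ hTpos]; exact hxT i))
    d L hd hL
  refine ⟨W, hW1, fun m hm => ⟨(hW2 m hm).1, (hW2 m hm).2.trans ?_⟩⟩
  exact mul_le_mul_of_nonneg_right (rel_const hρ hT) (sq_nonneg _)

/-- the class with `q = w ^ 3` -/
def toQ {ι : Type*} {P : Pts ι} (Q : ClassData P) : QData P where
  c := Q.c
  w := Q.w
  q := Q.w ^ 3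
  w0 := Q.w0
  q0 := pow_ne_zero 3 Q.w0
  dx i := by
    rw [Nat.cast_pow]
    exact Q.dx i
  dy i := (dvd_pow_self _ two_ne_zero).trans (Q.dy i)
  dE := by
    rw [Nat.cast_pow, ← Q.E_spec]
    exact ⟨Q.E, by ring⟩
  dw := Q.dw
  cop := Q.cop
  pd := Q.pd
  pq p hp h := hp.dvd_of_dvd_pow h

theorem toQ_G {ι : Type*} {P : Pts ι} (Q : ClassData P) (i j : ι) :
    (toQ Q).toFPts.G i j = Q.toFPts.G i j := by
  have h1 : ∀ i, (toQ Q).toFPts.t i = Q.toFPts.t i := fun i => by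
    show (P.x i - P.x Q.c) / ((Q.w ^ 3 : ℕ) : ℤ) = (P.x i - P.x Q.c) / (Q.w : ℤ) ^ 3
    rw [Nat.cast_pow]
  have h2 : ∀ i, (toQ Q).toFPts.z i = Q.toFPts.z i := fun i => rfl
  have h3 : (toQ Q).toFPts.b = Q.toFPts.b := rfl
  rw [TTF.FPts.G, TTF.FPts.G, h1, h1, h2, h2, h3]

/-- **(R)**, the class with the modulus `q`. -/
theorem rel_mainQ : ∃ C : ℝ, 0 ≤ C ∧ ∀ (N : ℕ) (P : Pts (Fin N)) (Q : QData P) (k : ℕ)
    (ρ r T : ℝ),
    Finite (ClassGroup (Crd P.f) ⧸ (powMonoidHom 2 : ClassGroup (Crd P.f) →* _).range) →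
    Nat.card (ClassGroup (Crd P.f) ⧸ (powMonoidHom 2 : ClassGroup (Crd P.f) →* _).range) ≤ 2 ^ k →
    1 ≤ ρ → 4 ≤ T →
    (∀ z : ℂ, (P.f0.map (Int.castRingHom ℂ)).IsRoot z → ‖z‖ ≤ ρ) →
    (∀ i, |(P.x i : ℝ)| ≤ ρ) →
    (∀ z : ℂ, (P.f0.map (Int.castRingHom ℂ)).IsRoot z → r ≤ ‖(P.x Q.c : ℂ) - z‖) →
    2 * (Q.q : ℝ) ≤ r →
    (∀ i, |(P.x i : ℝ) - P.x Q.c| * T ≤ r) →
    ∃ W : Submodule ℝ (Fin N → ℝ),
      Module.finrank ℝ ((Fin N → ℝ) ⧸ W) ≤ k + 1 + Q.w.primeFactors.card ∧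
      ∀ m ∈ W, ∑ i, m i = 0 ∧ ∑ i, ∑ j, m i * m j * Q.toFPts.G i j ≤
        C * (Real.log ρ + 1) / T * (∑ i, |m i|) ^ 2 := by
  refine ⟨8 * Real.log 4200, by have := Real.log_nonneg (x := 4200) (by norm_num); positivity,
    fun N P Q k ρ r T hfin hk hρ hT hroot hx hr hq hxT => ?_⟩
  obtain ⟨L, hd, hL⟩ := rel_phi Q k hfin hk
  exact rel_mainQ_of Q _ ρ r T hρ hT hroot hx hr hq hxT L hd hL

/-- **(R)** On a subspace of codimension at most `k + 1 + ω(w)` the height pairing is almost zero. -/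
theorem rel_main : ∃ C : ℝ, 0 ≤ C ∧ ∀ (N : ℕ) (P : Pts (Fin N)) (Q : ClassData P) (k : ℕ)
    (ρ r T : ℝ),
    Finite (ClassGroup (Crd P.f) ⧸ (powMonoidHom 2 : ClassGroup (Crd P.f) →* _).range) →
    Nat.card (ClassGroup (Crd P.f) ⧸ (powMonoidHom 2 : ClassGroup (Crd P.f) →* _).range) ≤ 2 ^ k →
    1 ≤ ρ → 4 ≤ T →
    (∀ z : ℂ, (P.f0.map (Int.castRingHom ℂ)).IsRoot z → ‖z‖ ≤ ρ) →
    (∀ i, |(P.x i : ℝ)| ≤ ρ) →
    (∀ z : ℂ, (P.f0.map (Int.castRingHom ℂ)).IsRoot z → r ≤ ‖(P.x Q.c : ℂ) - z‖) →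
    2 * (Q.w : ℝ) ^ 3 ≤ r →
    (∀ i, |(P.x i : ℝ) - P.x Q.c| * T ≤ r) →
    ∃ W : Submodule ℝ (Fin N → ℝ),
      Module.finrank ℝ ((Fin N → ℝ) ⧸ W) ≤ k + 1 + Q.w.primeFactors.card ∧
      ∀ m ∈ W, ∑ i, m i = 0 ∧ ∑ i, ∑ j, m i * m j * Q.toFPts.G i j ≤
        C * (Real.log ρ + 1) / T * (∑ i, |m i|) ^ 2 := by
  obtain ⟨C, hC, h⟩ := rel_mainQ
  refine ⟨C, hC, fun N P Q k ρ r T hfin hk hρ hT hroot hx hr hq hxT => ?_⟩
  obtain ⟨W, h1, h2⟩ := h N P (toQ Q) k ρ r T hfin hk hρ hT hroot hx hr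
    (by
      have e : ((toQ Q).q : ℝ) = (Q.w : ℝ) ^ 3 := by
        show ((Q.w ^ 3 : ℕ) : ℝ) = _
        rw [Nat.cast_pow]
      rw [e]
      exact hq) hxT
  refine ⟨W, h1, fun m hm => ⟨(h2 m hm).1, ?_⟩⟩
  have h3 := (h2 m hm).2
  simp only [toQ_G] at h3
  exact h3

end Pool.TTV
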