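import Pool.Agent.Lib.MP_695920_nt.TT.Five.CoreCount
import Pool.Agent.Lib.MP_695920_nt.TT.Five.RelMain
import Pool.Agent.Lib.MP_695920_nt.TT.Five.Bound
import Pool.Agent.Lib.MP_695920_nt.TT.Five.Disc
import Pool.Agent.Lib.MP_695920_nt.TT.Descent
import Pool.Agent.Lib.MP_695920_nt.TT.BadFiber
import Pool.Agent.Lib.MP_695920_nt.TT.Line

set_option autoImplicit false

/-!
TEAM TWOTORSION, n = 5: the number of integral points of one class on one line
(OWNERS helper76, helper20).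
-/

namespace Pool.TTV

open Real Polynomial Module NumberField Pool.TT Pool.TT.Five

/-- integers in an interval -/
theorem card_le_of_inj {N : ℕ} (x : Fin N → ℤ) (hx : Function.Injective x) {B : ℝ} (hB : 0 ≤ B)
    (h : ∀ i, |(x i : ℝ)| ≤ B) : (N : ℝ) ≤ 2 * B + 1 := by
  classical
  have h1 : Finset.univ.image x ⊆ Finset.Icc (-⌊B⌋) ⌊B⌋ := by
    intro z hz
    obtain ⟨i, -, rfl⟩ := Finset.mem_image.1 hz
    have h2 := h i
    rw [abs_le] at h2
    refine Finset.mem_Icc.2 ⟨?_, Int.le_floor.2 h2.2⟩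
    rw [neg_le]
    exact Int.le_floor.2 (by push_cast; linarith)
  have h2 := Finset.card_le_card h1
  rw [Finset.card_image_of_injective _ hx, Finset.card_univ, Fintype.card_fin, Int.card_Icc] at h2
  have h3 : (0 : ℤ) ≤ ⌊B⌋ := Int.floor_nonneg.2 hB
  have h4 : (((⌊B⌋ + 1 - -⌊B⌋).toNat : ℕ) : ℤ) = 2 * ⌊B⌋ + 1 := by
    rw [Int.toNat_of_nonneg (by omega)]
    ring
  have h5 : (N : ℤ) ≤ 2 * ⌊B⌋ + 1 := by
    rw [← h4]
    exact_mod_cast h2
  have h6 : (N : ℝ) ≤ 2 * (⌊B⌋ : ℝ) + 1 := by exact_mod_cast h5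
  have h7 := Int.floor_le B
  linarith

/-- size of the discriminant -/
theorem disc_num {n : ℕ} (hn : 2 ≤ n) {c a D : ℝ} (hc : 1 ≤ c) (ha : 4 * c + n * n ≤ a)
    (hD : 1 ≤ D) (f0 : ℤ[X]) (hmon : f0.Monic) (hfn : f0.natDegree = n)
    (hroots : ∀ z : ℂ, (f0.map (Int.castRingHom ℂ)).IsRoot z → ‖z‖ ≤ c * D ^ ((1 : ℝ) / n)) :
    (((2 * f0.discr).natAbs : ℕ) : ℝ) ≤ (a * D) ^ a := by
  have hn0 : (0 : ℝ) < n := by exact_mod_cast (by omega : 0 < n)
  have hn2 : (2 : ℝ) ≤ n := by exact_mod_cast hn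
  have hX1 : 1 ≤ D ^ ((1 : ℝ) / n) := one_le_rpow hD (by positivity)
  have hXD : D ^ ((1 : ℝ) / n) ≤ D := by
    calc D ^ ((1 : ℝ) / n) ≤ D ^ (1 : ℝ) := rpow_le_rpow_of_exponent_le hD (by
          rw [div_le_one hn0]
          linarith)
      _ = D := rpow_one D
  have h1 := discr_bound f0 hmon (by omega) (by positivity : 0 ≤ c * D ^ ((1 : ℝ) / n)) hroots
  rw [hfn] at h1
  have h2 : (((2 * f0.discr).natAbs : ℕ) : ℝ) = 2 * |(f0.discr : ℝ)| := by
    rw [Nat.cast_natAbs]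
    push_cast
    rw [abs_mul]
    simp
  rw [h2]
  have h3 : ((2 * (c * D ^ ((1 : ℝ) / n))) ^ (n - 1)) ^ n ≤ (2 * (c * D)) ^ (n * (n - 1)) := by
    rw [← pow_mul, mul_comm (n - 1) n]
    apply pow_le_pow_left₀ (by positivity)
    have := mul_le_mul_of_nonneg_left hXD (by linarith : 0 ≤ c)
    linarith
  have h4 : 1 ≤ n * (n - 1) := Nat.one_le_iff_ne_zero.2 (Nat.mul_ne_zero (by omega) (by omega))
  have h5 : 2 * (2 * (c * D)) ^ (n * (n - 1)) ≤ (4 * c * D) ^ (n * (n - 1)) := by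
    have e1 : (4 * c * D) ^ (n * (n - 1)) = 2 ^ (n * (n - 1)) * (2 * (c * D)) ^ (n * (n - 1)) := by
      rw [← mul_pow]
      congr 1
      ring
    rw [e1]
    apply mul_le_mul_of_nonneg_right _ (by positivity)
    calc (2 : ℝ) = 2 ^ 1 := by norm_num
      _ ≤ 2 ^ (n * (n - 1)) := pow_le_pow_right₀ (by norm_num) h4
  have h6 : (4 * c * D) ^ (n * (n - 1)) ≤ (a * D) ^ (n * (n - 1)) := by
    apply pow_le_pow_left₀ (by positivity)
    apply mul_le_mul_of_nonneg_right _ (by linarith)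
    nlinarith
  have haD : 1 ≤ a * D := by
    have : 1 ≤ a := by nlinarith
    exact one_le_mul_of_one_le_of_one_le this hD
  have h7 : (a * D) ^ (n * (n - 1)) ≤ (a * D) ^ a := by
    rw [← rpow_natCast]
    apply rpow_le_rpow_of_exponent_le haD
    rw [Nat.cast_mul, Nat.cast_sub (by omega)]
    push_cast
    nlinarith
  calc 2 * |(f0.discr : ℝ)| ≤ 2 * (2 * (c * D)) ^ (n * (n - 1)) := by linarith
    _ ≤ _ := h5
    _ ≤ _ := h6
    _ ≤ _ := h7

/-- size of the ordinates -/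
theorem log_two_y_le {n : ℕ} (hn : 2 ≤ n) {c a D : ℝ} (hc : 1 ≤ c)
    (ha : n * (log (4 * c) + 1) ≤ a) (hD : 1 ≤ D) (f0 : ℤ[X]) (hmon : f0.Monic)
    (hfn : f0.natDegree = n)
    (hroots : ∀ z : ℂ, (f0.map (Int.castRingHom ℂ)).IsRoot z → ‖z‖ ≤ c * D ^ ((1 : ℝ) / n))
    {x y : ℤ} (hx : |(x : ℝ)| ≤ c * D ^ ((1 : ℝ) / n)) (hy : 0 < y) (hxy : y ^ 2 = f0.eval x) :
    log (2 * y) ≤ a * (log D + 1) := by
  have hn0 : (0 : ℝ) < n := by exact_mod_cast (by omega : 0 < n)
  have hn2 : (2 : ℝ) ≤ n := by exact_mod_cast hn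
  have hX1 : 1 ≤ D ^ ((1 : ℝ) / n) := one_le_rpow hD (by positivity)
  have hXD : D ^ ((1 : ℝ) / n) ≤ D := by
    calc D ^ ((1 : ℝ) / n) ≤ D ^ (1 : ℝ) := rpow_le_rpow_of_exponent_le hD (by
          rw [div_le_one hn0]
          linarith)
      _ = D := rpow_one D
  have h1 := Pool.Agent.Lib.MP_695920_nt.TT.abs_eval_le f0 hmon hfn
    (one_le_mul_of_one_le_of_one_le hc hX1) hroots hx
  rw [← hxy] at h1
  have hy1 : (1 : ℝ) ≤ y := by exact_mod_cast hy
  have h2 : ((y ^ 2 : ℤ) : ℝ) = (y : ℝ) ^ 2 := by push_cast; rfl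
  rw [h2, abs_of_nonneg (sq_nonneg _)] at h1
  have h3 : (y : ℝ) ≤ (2 * (c * D)) ^ n := by
    calc (y : ℝ) ≤ (y : ℝ) ^ 2 := by nlinarith
      _ ≤ _ := h1
      _ ≤ _ := by
        apply pow_le_pow_left₀ (by positivity)
        have := mul_le_mul_of_nonneg_left hXD (by linarith : 0 ≤ c)
        linarith
  have h4 : 2 * (y : ℝ) ≤ (4 * c * D) ^ n := by
    have e1 : (4 * c * D) ^ n = 2 ^ n * (2 * (c * D)) ^ n := by
      rw [← mul_pow]
      congr 1
      ring
    rw [e1]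
    apply mul_le_mul _ h3 (by linarith) (by positivity)
    calc (2 : ℝ) = 2 ^ 1 := by norm_num
      _ ≤ 2 ^ n := pow_le_pow_right₀ (by norm_num) (by omega)
  have h5 := log_le_log (by linarith) h4
  rw [log_pow, log_mul (show (4 * c : ℝ) ≠ 0 by positivity) (show D ≠ 0 by linarith)] at h5
  have h6 : 0 ≤ log (4 * c) := log_nonneg (by linarith)
  have h7 : 0 ≤ log D := log_nonneg hD
  have h8 : n * (log (4 * c) + log D) ≤ n * ((log (4 * c) + 1) * (log D + 1)) := by
    apply mul_le_mul_of_nonneg_left _ hn0.le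
    nlinarith
  calc log (2 * y) ≤ n * (log (4 * c) + log D) := h5
    _ ≤ n * ((log (4 * c) + 1) * (log D + 1)) := h8
    _ = n * (log (4 * c) + 1) * (log D + 1) := by ring
    _ ≤ a * (log D + 1) := mul_le_mul_of_nonneg_right ha (by linarith)

end Pool.TTV

namespace Pool.TT.Five

open Real Polynomial Module NumberField Pool.TTV

/-- The bound for one class. -/
theorem class_bound : ClassBound 5 (1 / 100) (19 / 100) := by
  intro c ε hc hε
  obtain ⟨CR, hCR, hrel⟩ := rel_main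
  have hc0 : 0 < c := by linarith
  have hlc : 0 ≤ log c := log_nonneg hc
  have hl4c : 0 ≤ log (4 * c) := log_nonneg (by linarith)
  set a : ℝ := 4 * c + 5 * 5 + 5 * (log (4 * c) + 1) + CR * (log c + 1) with ha
  have hCRc : 0 ≤ CR * (log c + 1) := by positivity
  obtain ⟨C0, hC0, hnum⟩ := count_num (γ := 254 / 1000) (κ := 1 / 14) (σ := 19 / 100) (a := a)
    (ε := ε) (by norm_num) (by norm_num) (by norm_num) (by norm_num) (by
      have h1 := entropy14
      have h2 := log_two_gt_d9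
      linarith) (by norm_num) (by linarith) hε
  set ℓ₀ : ℝ := 94 * log c + 187 with hℓ₀
  set C : ℝ := C0 + 4 + (2 * (c * exp ℓ₀) + 1) with hC
  have hce : 0 < c * exp ℓ₀ := by positivity
  refine ⟨C, by linarith, ?_⟩
  intro K _ _ hK θ N P Q r hθ hfn hroots hx hgood hr hw3 hT
  set D : ℝ := |(discr K : ℝ)| with hD
  have hD1 : 1 ≤ D := by
    have h1 : (1 : ℤ) ≤ |discr K| := Int.one_le_abs (NumberField.discr_ne_zero K)
    have h2 : ((1 : ℤ) : ℝ) ≤ ((|discr K| : ℤ) : ℝ) := by exact_mod_cast h1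
    rw [hD]
    push_cast at h2
    exact h2
  have hD0 : 0 < D := by linarith
  set X : ℝ := D ^ ((1 : ℝ) / (5 : ℕ)) with hX
  have hX1 : 1 ≤ X := one_le_rpow hD1 (by positivity)
  have hX0 : 0 < X := by linarith
  set h : ℕ := Nat.card {x : ClassGroup (𝓞 K) // x ^ 2 = 1} with hh
  have hh1 : 1 ≤ h := by
    have : Nonempty {x : ClassGroup (𝓞 K) // x ^ 2 = 1} := ⟨⟨1, one_pow 2⟩⟩
    exact Nat.card_pos
  have hh1' : (1 : ℝ) ≤ h := by exact_mod_cast hh1
  have hDε : 1 ≤ D ^ ε := one_le_rpow hD1 hε.le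
  have hhε : 1 ≤ (h : ℝ) ^ ε := one_le_rpow hh1' hε.le
  have hhσ : 1 ≤ (h : ℝ) ^ ((19 : ℝ) / 100) := one_le_rpow hh1' (by norm_num)
  rcases le_or_gt ℓ₀ (log X) with hbig | hsmall
  · set T : ℝ := C * D ^ ε * (h : ℝ) ^ ε with hTdef
    have hT4 : 4 ≤ T := by
      have h1 : 1 ≤ D ^ ε * (h : ℝ) ^ ε := one_le_mul_of_one_le_of_one_le hDε hhε
      have h2 : C * 1 ≤ C * (D ^ ε * (h : ℝ) ^ ε) := mul_le_mul_of_nonneg_left h1 (by linarith)
      rw [hTdef, mul_assoc]
      linarith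
    have hT0 : 0 < T := by linarith
    have hwpos : (0 : ℝ) < Q.w := by exact_mod_cast Nat.pos_of_ne_zero Q.w0
    have hw1 : (1 : ℝ) ≤ Q.w := by exact_mod_cast Nat.one_le_iff_ne_zero.2 Q.w0
    have hw31 : (1 : ℝ) ≤ (Q.w : ℝ) ^ 3 := one_le_pow₀ hw1
    set R : ℝ := r / (2 * (Q.w : ℝ) ^ 3) with hR
    have hR1 : 1 ≤ R := by
      rw [hR, le_div_iff₀ (by positivity), one_mul]
      exact hw3
    have hR0 : 0 < R := by linarith
    have h2R : 2 * R = r / (Q.w : ℝ) ^ 3 := by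
      rw [hR]
      field_simp
    obtain ⟨z0, hz0⟩ := rel_exists_root P
    have hr2 : r ≤ 2 * (c * X) := by
      refine (hr z0 hz0).trans ((norm_sub_le _ _).trans ?_)
      have h1 : ‖(P.x Q.c : ℂ)‖ ≤ c * X := by
        rw [Complex.norm_intCast]
        exact hx Q.c
      have h2 := hroots z0 hz0
      linarith
    have hRX : R ≤ c * X := by
      rw [hR, div_le_iff₀ (by positivity)]
      have : 0 < c * X := by positivity
      nlinarith
    have hlR : log R ≤ log c + log X := by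
      rw [← log_mul hc0.ne' hX0.ne']
      exact log_le_log hR0 hRX
    obtain ⟨hfin, hcard⟩ := two_descent P K θ hθ (by rw [hK, hfn])
    set om : ℕ := (2 * P.f0.discr).natAbs.primeFactors.card with hom
    have hcard' : Nat.card (ClassGroup (Crd P.f) ⧸
        (powMonoidHom 2 : ClassGroup (Crd P.f) →* _).range) ≤ 2 ^ (Nat.clog 2 h + 5 * (1 + om)) := by
      refine hcard.trans ?_
      rw [pow_add, hfn]
      exact Nat.mul_le_mul_right _ (Nat.le_pow_clog (by norm_num) _)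
    have hcX1 : 1 ≤ c * X := one_le_mul_of_one_le_of_one_le hc hX1
    obtain ⟨W, hW1, hW2⟩ := hrel N P Q (Nat.clog 2 h + 5 * (1 + om)) (c * X) r T hfin hcard'
      hcX1 hT4 hroots hx hr hw3 hT
    have hm0 := two_discr_natAbs_ne_zero P.f0 P.monic P.irr
    have hmD := disc_num (n := 5) (by norm_num) hc (a := a) (by
      push_cast
      linarith) hD1 P.f0 P.monic hfn hroots
    have hwom : Q.w.primeFactors.card ≤ om := Q.omega_le
    have hd : ((Nat.clog 2 h + 5 * (1 + om) + 1 + Q.w.primeFactors.card : ℕ) : ℝ) ≤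
        log h / log 2 + a * (1 + om) := by
      have h1 := clog_le h hh1
      have h2 : (Q.w.primeFactors.card : ℝ) ≤ om := by exact_mod_cast hwom
      have h3 : (0 : ℝ) ≤ om := Nat.cast_nonneg _
      have h4 : 7 * (1 + (om : ℝ)) ≤ a * (1 + om) :=
        mul_le_mul_of_nonneg_right (by linarith) (by linarith)
      push_cast
      linarith
    have hTC : C0 * D ^ ε * (h : ℝ) ^ ε ≤ T := by
      rw [hTdef, mul_assoc, mul_assoc]
      exact mul_le_mul_of_nonneg_right (by linarith) (by positivity)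
    have hlX : 0 ≤ log X := log_nonneg hX1
    have hXD : X ≤ D := by
      calc X ≤ D ^ (1 : ℝ) := rpow_le_rpow_of_exponent_le hD1 (by norm_num)
        _ = D := rpow_one D
    have hlXD : log X ≤ log D := log_le_log hX0 hXD
    have hlD : 0 ≤ log D := log_nonneg hD1
    have hyw : ∀ i, X ^ (((5 : ℕ) - (1 : ℝ) / 100) / 2) ≤ 2 * P.y i / Q.w := by
      intro i
      rw [le_div_iff₀ hwpos]
      exact hgood i
    have hGlow : ∀ i, 2495 / 1000 * log X ≤ Q.toFPts.G i i := by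
      intro i
      rw [Q.G_self]
      have h1 := log_le_log (by positivity) (hyw i)
      rw [log_rpow hX0] at h1
      refine le_trans (le_of_eq ?_) h1
      push_cast
      ring
    refine (hnum D h (2 * P.f0.discr).natAbs N _ Q.toFPts R T W hD1 hh1' hm0 hmD hd hR1 hTC
      (fun z hz => by rw [h2R]; exact Q.toFPts_root hr z hz) (fun i => ?_) (fun i => ?_)
      (fun i => ?_) hW1 (fun w hw => ⟨(hW2 w hw).1, (hW2 w hw).2.trans ?_⟩)).trans ?_
    · rw [h2R, Q.toFPts_t, div_div, mul_comm ((Q.w : ℝ) ^ 3) T, ← div_div]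
      exact Q.t_le i (by rw [le_div_iff₀ hT0]; exact hT i)
    · rw [Q.G_self]
      have hyp : (0 : ℝ) < 2 * P.y i := by
        have := P.pos i
        positivity
      refine le_trans (log_le_log (div_pos hyp hwpos) (div_le_self hyp.le hw1)) ?_
      exact log_two_y_le (n := 5) (by norm_num) hc (by push_cast; linarith) hD1 P.f0 P.monic hfn
        hroots (hx i) (P.pos i) (P.eq i)
    · have h1 := hGlow i
      have h2 : 94 * log c + 187 ≤ log X := hbig
      linarith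
    · apply mul_le_mul_of_nonneg_right _ (sq_nonneg _)
      apply div_le_div_of_nonneg_right _ hT0.le
      rw [log_mul hc0.ne' hX0.ne']
      have h1 : CR * (log c + log X + 1) ≤ CR * ((log c + 1) * (log D + 1)) := by
        apply mul_le_mul_of_nonneg_left _ hCR
        nlinarith
      calc CR * (log c + log X + 1) ≤ CR * ((log c + 1) * (log D + 1)) := h1
        _ = CR * (log c + 1) * (log D + 1) := by ring
        _ ≤ a * (log D + 1) := by
            apply mul_le_mul_of_nonneg_right _ (by linarith)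
            linarith
    · rw [mul_assoc, mul_assoc]
      exact mul_le_mul_of_nonneg_right (by linarith) (by positivity)
  · have h1 : X ≤ exp ℓ₀ := by
      rw [← exp_log hX0]
      exact exp_le_exp.2 hsmall.le
    have h2 := card_le_of_inj P.x P.inj (B := c * X) (by positivity) hx
    have h3 : c * X ≤ c * exp ℓ₀ := mul_le_mul_of_nonneg_left h1 hc0.le
    have h4 : 1 ≤ (h : ℝ) ^ ((19 : ℝ) / 100) * D ^ ε :=
      one_le_mul_of_one_le_of_one_le hhσ hDε
    have h5 : C * 1 ≤ C * ((h : ℝ) ^ ((19 : ℝ) / 100) * D ^ ε) :=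
      mul_le_mul_of_nonneg_left h4 (by linarith)
    rw [mul_assoc]
    linarith

end Pool.TT.Five
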