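import Pool.Agent.Lib.MP_695920_nt.TT.Five.CoreRate
import Pool.Agent.Lib.MP_695920_nt.TT.Five.CSupply
import Pool.Agent.Lib.MP_695920_nt.TT.Five.ClassBound

set_option autoImplicit false

/-!
TEAM TWOTORSION, version 2: the number of integral points of one class on one line, every degree,
from any code rate and the supply of relations (helper20).
-/

namespace Pool.TT.Five

open Real Polynomial Module NumberField Pool.TTV

/-- a root of `f` -/
theorem cpts_exists_root {ι : Type*} (P : CPts ι) :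
    ∃ z : ℂ, (P.f0.map (Int.castRingHom ℂ)).IsRoot z := by
  apply Complex.exists_root
  have h3 := P.two
  rw [← natDegree_pos_iff_degree_pos, P.monic.natDegree_map]
  omega

/-- the diagonal of the height pairing of a model of a class -/
theorem cdata_G_self {ι : Type*} {P : CPts ι} (Q : CData P) (F : TTF.FPts ι) (hb : F.b = -Q.h)
    (hz : F.z = Q.z) (i : ι) : F.G i i = log (2 * P.y i / Q.w) := by
  have hw : (0 : ℝ) < (Q.w : ℝ) := by exact_mod_cast Nat.pos_of_ne_zero Q.w0
  have h1 : (Int.gcd (F.t i - F.t i) (F.z i + F.z i - F.b) : ℤ) = 2 * Q.z i + Q.h := by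
    rw [sub_self, Int.gcd_zero_left, hb, hz, sub_neg_eq_add, ← two_mul,
      Int.natCast_natAbs, abs_of_pos (Q.two_z_pos i)]
  have h2 : (Int.gcd (F.t i - F.t i) (F.z i + F.z i - F.b) : ℝ) = 2 * P.y i / Q.w := by
    rw [eq_div_iff hw.ne']
    have h3 := Q.w_two_z i
    have h4 : ((Int.gcd (F.t i - F.t i) (F.z i + F.z i - F.b) : ℤ) : ℝ) =
        ((2 * Q.z i + Q.h : ℤ) : ℝ) := by
      rw [h1]
    rw [Int.cast_natCast] at h4
    rw [h4, mul_comm]
    exact_mod_cast h3
  rw [TTF.FPts.G, h2]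

/-- the roots of the discriminant of a model of a class -/
theorem cdata_root {ι : Type*} {P : CPts ι} (Q : CData P) (F : TTF.FPts ι) (ha : F.a = Q.E)
    (hb : F.b = -Q.h) {r : ℝ} (hr : ∀ s : ℂ, (P.f0.map (Int.castRingHom ℂ)).IsRoot s →
    r ≤ ‖(P.x Q.c : ℂ) - s‖) (z : ℂ) (hz : (F.F.map (Int.castRingHom ℂ)).IsRoot z) :
    r / (Q.q : ℝ) ≤ ‖z‖ := by
  by_contra hlt
  apply Q.no_root hr z (not_le.1 hlt)
  have h1 : (F.F.map (Int.castRingHom ℂ)).eval z = 0 := hz
  have h2 : F.F = C 4 * Q.E + C (Q.h ^ 2) := by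
    rw [TTF.FPts.F, ha, hb, neg_sq]
    rfl
  rw [h2] at h1
  simp only [Polynomial.map_add, Polynomial.map_mul, Polynomial.map_C, eval_add, eval_mul,
    eval_C] at h1
  simpa only [eq_intCast, Int.cast_pow, Int.cast_ofNat] using h1

theorem two_le_log_nine : 2 ≤ log 9 := by
  rw [le_log_iff_exp_le (by norm_num)]
  have h1 := exp_one_lt_d9
  have h2 : exp 2 = exp 1 * exp 1 := by
    rw [← exp_add]
    norm_num
  have h3 := exp_pos 1
  rw [h2]
  nlinarith

/-- **The bound for one class**, from a rate for spherical codes with cosine `1 / (n - 1)`. -/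
theorem class_boundC {G : ℤ[X] → Prop} {n : ℕ} (hn : 2 ≤ n) {E σ : ℝ}
    (hE : CodeRate (1 / ((n : ℝ) - 1)) E) (hsup : RelSupply G n) (hσ0 : 0 ≤ σ)
    (hσ : E < σ * log 2) : ClassBoundC G n σ := by
  intro c ε hc hε
  obtain ⟨A, hA, B, hrel⟩ := hsup
  have hn0 : (0 : ℝ) < n := by exact_mod_cast (by omega : 0 < n)
  have hn2 : (2 : ℝ) ≤ n := by exact_mod_cast hn
  have hn1 : (0 : ℝ) < (n : ℝ) - 1 := by linarith
  have hc0 : 0 < c := by linarith
  have hA0 : 0 < A := by linarith
  have hlc : 0 ≤ log c := log_nonneg hc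
  have hl4c : 0 ≤ log (4 * c) := log_nonneg (by linarith)
  have hlA : 0 ≤ log (2 * A) := log_nonneg (by linarith)
  have hB0 : (0 : ℝ) ≤ B := Nat.cast_nonneg _
  set a : ℝ := 4 * c + n * n + n * (log (4 * c) + 1) + (B + 1) +
    16 * (log (2 * A) + log c + 1) with ha
  have hnn : (0 : ℝ) < n * n := by positivity
  have hnl : (0 : ℝ) < n * (log (4 * c) + 1) := by positivity
  obtain ⟨C0, hC0, hnum⟩ := count_rate (a := a) (one_div_pos.2 hn1) hE hσ hσ0 (by linarith) hε
  set C : ℝ := 9 * C0 + 36 with hC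
  refine ⟨C, by linarith, ?_⟩
  intro K _ _ hK θ N P Q r hG hθ hfn hroots hx hr0 hr hT
  set D : ℝ := |(discr K : ℝ)| with hD
  have hD1 : 1 ≤ D := by
    have h1 : (1 : ℤ) ≤ |discr K| := Int.one_le_abs (NumberField.discr_ne_zero K)
    have h2 : ((1 : ℤ) : ℝ) ≤ ((|discr K| : ℤ) : ℝ) := by exact_mod_cast h1
    rw [hD]
    push_cast at h2
    exact h2
  have hD0 : 0 < D := by linarith
  set X : ℝ := D ^ ((1 : ℝ) / n) with hX
  have hX1 : 1 ≤ X := one_le_rpow hD1 (by positivity)
  have hX0 : 0 < X := by linarith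
  set h : ℕ := Nat.card {x : ClassGroup (𝓞 K) // x ^ 2 = 1} with hh
  have hh1 : 1 ≤ h := by
    have : Nonempty {x : ClassGroup (𝓞 K) // x ^ 2 = 1} := ⟨⟨1, one_pow 2⟩⟩
    exact Nat.card_pos
  have hh1' : (1 : ℝ) ≤ h := by exact_mod_cast hh1
  have hDε : 1 ≤ D ^ ε := one_le_rpow hD1 hε.le
  have hhε : 1 ≤ (h : ℝ) ^ ε := one_le_rpow hh1' hε.le
  have hhσ : 1 ≤ (h : ℝ) ^ σ := one_le_rpow hh1' hσ0
  set T : ℝ := C * D ^ ε * (h : ℝ) ^ ε with hTdef
  have hDh : 1 ≤ D ^ ε * (h : ℝ) ^ ε := one_le_mul_of_one_le_of_one_le hDε hhε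
  have hTC : 9 * (C0 * D ^ ε * (h : ℝ) ^ ε) + 36 ≤ T := by
    have h1 : T = 9 * (C0 * D ^ ε * (h : ℝ) ^ ε) + 36 * (D ^ ε * (h : ℝ) ^ ε) := by
      rw [hTdef, hC]
      ring
    rw [h1]
    linarith
  have hT36 : 36 ≤ T := by
    have : 0 < C0 * D ^ ε * (h : ℝ) ^ ε := by positivity
    linarith
  have hT0 : 0 < T := by linarith
  have hwpos : (0 : ℝ) < Q.w := by exact_mod_cast Nat.pos_of_ne_zero Q.w0
  have hw1 : (1 : ℝ) ≤ Q.w := by exact_mod_cast Nat.one_le_iff_ne_zero.2 Q.w0
  have hq0 : (0 : ℝ) < Q.q := by exact_mod_cast Nat.pos_of_ne_zero Q.q0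
  have hxT : ∀ i, |(P.x i : ℝ) - P.x Q.c| ≤ r / T := by
    intro i
    rw [le_div_iff₀ hT0]
    exact hT i
  have htT : ∀ i, |(Q.t i : ℝ)| ≤ r / T / Q.q := fun i => Q.t_le i (hxT i)
  rcases lt_or_ge r (18 * Q.q) with hsmall | hbig
  · -- only one point
    have h1 : ∀ i, Q.t i = 0 := by
      intro i
      have h2 : r / T / Q.q < 1 := by
        rw [div_div, div_lt_one (by positivity)]
        nlinarith
      have h3 : |(Q.t i : ℝ)| < 1 := lt_of_le_of_lt (htT i) h2
      have h4 : |Q.t i| < 1 := by exact_mod_cast h3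
      exact Int.abs_lt_one_iff.1 h4
    have h2 : N ≤ 1 := by
      by_contra hN
      have h3 := Q.t_inj (a₁ := ⟨0, by omega⟩) (a₂ := ⟨1, by omega⟩) (by rw [h1, h1])
      simp at h3
    have h3 : (N : ℝ) ≤ 1 := by exact_mod_cast h2
    have h4 : 1 ≤ (h : ℝ) ^ σ * D ^ ε := one_le_mul_of_one_le_of_one_le hhσ hDε
    have h5 : C * 1 ≤ C * ((h : ℝ) ^ σ * D ^ ε) := mul_le_mul_of_nonneg_left h4 (by linarith)
    rw [mul_assoc]
    linarith
  · set R : ℝ := r / (18 * Q.q) with hR
    have hR1 : 1 ≤ R := by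
      rw [hR, le_div_iff₀ (by positivity), one_mul]
      exact hbig
    have hR0 : 0 < R := by linarith
    have hqR : Q.q * R = r / 18 := by
      rw [hR]
      field_simp
    have h2R : r / (Q.q : ℝ) = 18 * R := by
      rw [hR]
      field_simp
    have hcX1 : 1 ≤ c * X := one_le_mul_of_one_le_of_one_le hc hX1
    obtain ⟨z0, hz0⟩ := cpts_exists_root P
    have hr2 : r ≤ 2 * (c * X) := by
      refine (hr z0 hz0).trans ((norm_sub_le _ _).trans ?_)
      have h1 : ‖(P.x Q.c : ℂ)‖ ≤ c * X := by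
        rw [Complex.norm_intCast]
        exact hx Q.c
      have h2 := hroots z0 hz0
      linarith
    have hT9 : 4 ≤ T / 9 := by
      rw [le_div_iff₀ (by norm_num)]
      linarith
    have ht' : ∀ i, |(Q.t i : ℝ)| ≤ 2 * R / (T / 9) := by
      intro i
      refine (htT i).trans (le_of_eq ?_)
      rw [hR]
      field_simp
      norm_num
    obtain ⟨F, hFa, hFb, hFt, hFz, hrelF⟩ := hrel K hK θ N P Q (c * X) r R (T / 9) hG hθ hfn hcX1
      hroots hx hr hR1 hT9 (by rw [hqR]; linarith) (by rw [hqR]; linarith) ht'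
    set om : ℕ := (2 * P.f0.discr).natAbs.primeFactors.card with hom
    have hFroot : ∀ z : ℂ, (F.F.map (Int.castRingHom ℂ)).IsRoot z → 2 * R ≤ ‖z‖ := by
      intro z hz
      have h1 := cdata_root Q F hFa hFb hr z hz
      rw [h2R] at h1
      linarith
    have hFt' : ∀ i, |(F.t i : ℝ)| ≤ 2 * R / (T / 9) := by
      intro i
      rw [hFt]
      exact ht' i
    have hK1 : 1 ≤ A * √(c * X) :=
      one_le_mul_of_one_le_of_one_le hA (one_le_sqrt.2 hcX1)
    obtain ⟨W, hW1, hW2⟩ := hrelF.exists_submodule (T / 9) hR1 hT9 hK1 hFroot hFt'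
    have hm0 := two_discr_natAbs_ne_zero P.f0 P.monic P.irr
    have hmD := disc_num hn hc (a := a) (by linarith) hD1 P.f0 P.monic hfn hroots
    have hom0 : (0 : ℝ) ≤ om := Nat.cast_nonneg _
    have hd : ((Nat.clog 2 h + B * (1 + om) : ℕ) : ℝ) ≤ log h / log 2 + a * (1 + om) := by
      have h1 := clog_le h hh1
      have h4 : ((B : ℝ) + 1) * (1 + (om : ℝ)) ≤ a * (1 + om) :=
        mul_le_mul_of_nonneg_right (by linarith) (by linarith)
      push_cast
      linarith
    have hlX : 0 ≤ log X := log_nonneg hX1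
    have hXD : X ≤ D := by
      calc X ≤ D ^ (1 : ℝ) := rpow_le_rpow_of_exponent_le hD1 (by
            rw [div_le_one hn0]
            linarith)
        _ = D := rpow_one D
    have hlXD : log X ≤ log D := log_le_log hX0 hXD
    have hlD : 0 ≤ log D := log_nonneg hD1
    refine (hnum D h (2 * P.f0.discr).natAbs N _ F R (T / 9) W hD1 hh1' hm0 hmD hd hR1
      (by rw [le_div_iff₀ (by norm_num)]; linarith)
      hFroot hFt' (fun i => ?_) (fun i => ?_) hW1
      (fun w hw => ⟨(hW2 w hw).1, (hW2 w hw).2.trans ?_⟩)).trans ?_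
    · rw [cdata_G_self Q F hFb hFz]
      have hyp : (0 : ℝ) < 2 * P.y i := by
        have := P.pos i
        positivity
      refine le_trans (log_le_log (div_pos hyp hwpos) (div_le_self hyp.le hw1)) ?_
      exact log_two_y_le hn hc (by linarith) hD1 P.f0 P.monic hfn hroots (hx i) (P.pos i) (P.eq i)
    · rw [cdata_G_self Q F hFb hFz]
      have h1 := Q.rho_le hr0 hr i ((hxT i).trans (by
        apply div_le_div_of_nonneg_left hr0.le (by norm_num)
        linarith))
      have h2 : r / (2 * Q.q) = 9 * R := by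
        rw [hR]
        field_simp
        norm_num
      rw [h2, hfn, log_mul (by norm_num) hR0.ne'] at h1
      have h3 : (n : ℝ) * 1 ≤ n * (1 / 2 * log 9) := by
        apply mul_le_mul_of_nonneg_left _ hn0.le
        have := two_le_log_nine
        linarith
      have h4 : (1 / 2 * log R + 1) * ((n : ℝ) - 1) ≤
          log (2 * P.y i / Q.w) - 1 / 2 * log R - 1 := by
        have h5 : (n : ℝ) * (1 / 2 * (log 9 + log R)) =
            n * (1 / 2 * log 9) + n * (1 / 2 * log R) := by ring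
        have h6 : (1 / 2 * log R + 1) * ((n : ℝ) - 1) =
            n * (1 / 2 * log R) + n * 1 - 1 / 2 * log R - 1 := by ring
        rw [h5] at h1
        rw [h6]
        linarith
      rw [one_div_mul_eq_div ((n : ℝ) - 1), le_div_iff₀ hn1]
      exact h4
    · apply mul_le_mul_of_nonneg_right _ (sq_nonneg _)
      apply div_le_div_of_nonneg_right _ (by positivity)
      have h1 : log (2 * (A * √(c * X))) = log (2 * A) + (log c + log X) / 2 := by
        rw [← mul_assoc, log_mul (by positivity) (by positivity), log_sqrt (by positivity),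
          log_mul hc0.ne' hX0.ne']
      rw [h1]
      have h2 : log (2 * A) + (log c + log X) / 2 ≤ (log (2 * A) + log c + 1) * (log D + 1) := by
        have h3 : (log (2 * A) + log c + 1) * (log D + 1) =
            (log (2 * A) + log c + 1) + (log (2 * A) + log c) * log D + log D := by ring
        have h4 : 0 ≤ (log (2 * A) + log c) * log D := mul_nonneg (by linarith) hlD
        rw [h3]
        linarith
      calc 16 * (log (2 * A) + (log c + log X) / 2) ≤
            16 * ((log (2 * A) + log c + 1) * (log D + 1)) := by linarith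
        _ = 16 * (log (2 * A) + log c + 1) * (log D + 1) := by ring
        _ ≤ a * (log D + 1) := by
            apply mul_le_mul_of_nonneg_right _ (by linarith)
            linarith
    · rw [mul_assoc, mul_assoc]
      exact mul_le_mul_of_nonneg_right (by linarith) (by positivity)

end Pool.TT.Five
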