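import Pool.Agent.Lib.MP_695920_nt.TT.Five.CoreRateT
import Pool.Agent.Lib.MP_695920_nt.TT.Five.CClass
import Pool.Agent.Lib.MP_695920_nt.TT.Five.CBoundT

set_option autoImplicit false

/-!
TEAM TWOTORSION, plan (E), slices: the number of integral points of one class on one line, every
degree, from any one-sided code rate and the supply of relations (helper20).
-/

namespace Pool.TT.Five

open Real Polynomial Module NumberField Pool.TTV

/-- **The bound for one class**, with slices, from a one-sided rate for spherical codes with cosine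
`(1 - 2 n τ) / (n - 1)`. -/
theorem class_boundT {G : ℤ[X] → Prop} {n : ℕ} (hn : 2 ≤ n) {τ s E σ : ℝ} (hτ : 0 ≤ τ)
    (hs : 0 < s) (hτs : 1 - 2 * n * τ ≤ s * ((n : ℝ) - 1)) (hE : CodeRateT s E)
    (hsup : RelSupply G n) (hσ0 : 0 ≤ σ) (hσ : E < σ * log 2) : ClassBoundT G n τ σ := by
  intro c ε hc hε
  obtain ⟨A, hA, B, hrel⟩ := hsup
  have hn0 : (0 : ℝ) < n := by exact_mod_cast (by omega : 0 < n)
  have hn2 : (2 : ℝ) ≤ n := by exact_mod_cast hn
  have hn1 : (0 : ℝ) < (n : ℝ) - 1 := by linarith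
  have hc0 : 0 < c := by linarith
  have hA0 : 0 < A := by linarith
  have hlc : 0 ≤ log c := log_nonneg hc
  have hl4c : 0 ≤ log (4 * c) := log_nonneg (by linarith)
  have hlA : 0 ≤ log (2 * A) := log_nonneg (by linarith)
  have hB0 : (0 : ℝ) ≤ B := Nat.cast_nonneg _
  set a : ℝ := 4 * c + n * n + n * (log (4 * c) + 1) + (B + 1) +
    16 * (log (2 * A) + log c + 1) with ha
  have hnn : (0 : ℝ) < n * n := by positivity
  have hnl : (0 : ℝ) < n * (log (4 * c) + 1) := by positivity
  obtain ⟨C0, hC0, hnum⟩ := count_rateT (a := a) hs hE hσ hσ0 (by linarith) hε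
  have hnτ : 0 ≤ n * τ * (log c + 2) := by positivity
  set C6 : ℝ := exp (n * τ * (log c + 2)) with hC6
  have hC61 : 1 ≤ C6 := one_le_exp hnτ
  set C : ℝ := 9 * C0 + 36 * C6 with hC
  refine ⟨C, by linarith, ?_⟩
  intro K _ _ hK θ N P Q r hG hθ hfn hroots hx hr0 hr hT
  set D : ℝ := |(discr K : ℝ)| with hD
  have hD1 : 1 ≤ D := by
    have h1 : (1 : ℤ) ≤ |discr K| := Int.one_le_abs (NumberField.discr_ne_zero K)
    have h2 : ((1 : ℤ) : ℝ) ≤ ((|discr K| : ℤ) : ℝ) := by exact_mod_cast h1
    rw [hD]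
    push_cast at h2
    exact h2
  have hD0 : 0 < D := by linarith
  set X : ℝ := D ^ ((1 : ℝ) / n) with hX
  have hX1 : 1 ≤ X := one_le_rpow hD1 (by positivity)
  have hX0 : 0 < X := by linarith
  set h : ℕ := Nat.card {x : ClassGroup (𝓞 K) // x ^ 2 = 1} with hh
  have hh1 : 1 ≤ h := by
    have : Nonempty {x : ClassGroup (𝓞 K) // x ^ 2 = 1} := ⟨⟨1, one_pow 2⟩⟩
    exact Nat.card_pos
  have hh1' : (1 : ℝ) ≤ h := by exact_mod_cast hh1
  have hDε : 1 ≤ D ^ ε := one_le_rpow hD1 hε.le
  have hhε : 1 ≤ (h : ℝ) ^ ε := one_le_rpow hh1' hε.le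
  have hhσ : 1 ≤ (h : ℝ) ^ σ := one_le_rpow hh1' hσ0
  set T : ℝ := C * D ^ (τ + ε) * (h : ℝ) ^ ε with hTdef
  have hDh : 1 ≤ D ^ ε * (h : ℝ) ^ ε := one_le_mul_of_one_le_of_one_le hDε hhε
  have hDτ : 1 ≤ D ^ τ := one_le_rpow hD1 hτ
  have hTC : 9 * (C0 * D ^ ε * (h : ℝ) ^ ε) + 36 * (C6 * D ^ τ) ≤ T := by
    have h1 : T = 9 * (C0 * D ^ ε * (h : ℝ) ^ ε) * D ^ τ +
        36 * (C6 * D ^ τ) * (D ^ ε * (h : ℝ) ^ ε) := by
      rw [hTdef, hC, rpow_add hD0]
      ring
    rw [h1]
    refine add_le_add (le_mul_of_one_le_right (by positivity) hDτ)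
      (le_mul_of_one_le_right (by positivity) hDh)
  have hT36' : 36 * (C6 * D ^ τ) ≤ T := by
    have : 0 < C0 * D ^ ε * (h : ℝ) ^ ε := by positivity
    linarith
  have hC6D : 1 ≤ C6 * D ^ τ := one_le_mul_of_one_le_of_one_le hC61 hDτ
  have hT36 : 36 ≤ T := by linarith
  have hT0 : 0 < T := by linarith
  have hwpos : (0 : ℝ) < Q.w := by exact_mod_cast Nat.pos_of_ne_zero Q.w0
  have hw1 : (1 : ℝ) ≤ Q.w := by exact_mod_cast Nat.one_le_iff_ne_zero.2 Q.w0
  have hq0 : (0 : ℝ) < Q.q := by exact_mod_cast Nat.pos_of_ne_zero Q.q0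
  have hxT : ∀ i, |(P.x i : ℝ) - P.x Q.c| ≤ r / T := by
    intro i
    rw [le_div_iff₀ hT0]
    exact hT i
  have htT : ∀ i, |(Q.t i : ℝ)| ≤ r / T / Q.q := fun i => Q.t_le i (hxT i)
  rcases lt_or_ge r (18 * Q.q) with hsmall | hbig
  · -- only one point
    have h1 : ∀ i, Q.t i = 0 := by
      intro i
      have h2 : r / T / Q.q < 1 := by
        rw [div_div, div_lt_one (by positivity)]
        nlinarith
      have h3 : |(Q.t i : ℝ)| < 1 := lt_of_le_of_lt (htT i) h2
      have h4 : |Q.t i| < 1 := by exact_mod_cast h3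
      exact Int.abs_lt_one_iff.1 h4
    have h2 : N ≤ 1 := by
      by_contra hN
      have h3 := Q.t_inj (a₁ := ⟨0, by omega⟩) (a₂ := ⟨1, by omega⟩) (by rw [h1, h1])
      simp at h3
    have h3 : (N : ℝ) ≤ 1 := by exact_mod_cast h2
    have h4 : 1 ≤ (h : ℝ) ^ σ * D ^ ε := one_le_mul_of_one_le_of_one_le hhσ hDε
    have h5 : C * 1 ≤ C * ((h : ℝ) ^ σ * D ^ ε) := mul_le_mul_of_nonneg_left h4 (by linarith)
    rw [mul_assoc]
    linarith
  · set R : ℝ := r / (18 * Q.q) with hR
    have hR1 : 1 ≤ R := by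
      rw [hR, le_div_iff₀ (by positivity), one_mul]
      exact hbig
    have hR0 : 0 < R := by linarith
    have hqR : Q.q * R = r / 18 := by
      rw [hR]
      field_simp
    have h2R : r / (Q.q : ℝ) = 18 * R := by
      rw [hR]
      field_simp
    have hcX1 : 1 ≤ c * X := one_le_mul_of_one_le_of_one_le hc hX1
    obtain ⟨z0, hz0⟩ := cpts_exists_root P
    have hr2 : r ≤ 2 * (c * X) := by
      refine (hr z0 hz0).trans ((norm_sub_le _ _).trans ?_)
      have h1 : ‖(P.x Q.c : ℂ)‖ ≤ c * X := by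
        rw [Complex.norm_intCast]
        exact hx Q.c
      have h2 := hroots z0 hz0
      linarith
    have hT9 : 4 ≤ T / 9 := by
      rw [le_div_iff₀ (by norm_num)]
      linarith
    have ht' : ∀ i, |(Q.t i : ℝ)| ≤ 2 * R / (T / 9) := by
      intro i
      refine (htT i).trans (le_of_eq ?_)
      rw [hR]
      field_simp
      norm_num
    obtain ⟨F, hFa, hFb, hFt, hFz, hrelF⟩ := hrel K hK θ N P Q (c * X) r R (T / 9) hG hθ hfn hcX1
      hroots hx hr hR1 hT9 (by rw [hqR]; linarith) (by rw [hqR]; linarith) ht'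
    set om : ℕ := (2 * P.f0.discr).natAbs.primeFactors.card with hom
    have hFroot : ∀ z : ℂ, (F.F.map (Int.castRingHom ℂ)).IsRoot z → 2 * R ≤ ‖z‖ := by
      intro z hz
      have h1 := cdata_root Q F hFa hFb hr z hz
      rw [h2R] at h1
      linarith
    have hFt' : ∀ i, |(F.t i : ℝ)| ≤ 2 * R / (T / 9) := by
      intro i
      rw [hFt]
      exact ht' i
    have hK1 : 1 ≤ A * √(c * X) :=
      one_le_mul_of_one_le_of_one_le hA (one_le_sqrt.2 hcX1)
    obtain ⟨W, hW1, hW2⟩ := hrelF.exists_submodule (T / 9) hR1 hT9 hK1 hFroot hFt'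
    have hm0 := two_discr_natAbs_ne_zero P.f0 P.monic P.irr
    have hmD := disc_num hn hc (a := a) (by linarith) hD1 P.f0 P.monic hfn hroots
    have hom0 : (0 : ℝ) ≤ om := Nat.cast_nonneg _
    have hd : ((Nat.clog 2 h + B * (1 + om) : ℕ) : ℝ) ≤ log h / log 2 + a * (1 + om) := by
      have h1 := clog_le h hh1
      have h4 : ((B : ℝ) + 1) * (1 + (om : ℝ)) ≤ a * (1 + om) :=
        mul_le_mul_of_nonneg_right (by linarith) (by linarith)
      push_cast
      linarith
    have hlX : 0 ≤ log X := log_nonneg hX1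
    have hXD : X ≤ D := by
      calc X ≤ D ^ (1 : ℝ) := rpow_le_rpow_of_exponent_le hD1 (by
            rw [div_le_one hn0]
            linarith)
        _ = D := rpow_one D
    have hlXD : log X ≤ log D := log_le_log hX0 hXD
    have hlD : 0 ≤ log D := log_nonneg hD1
    have hlR : 0 ≤ log R := log_nonneg hR1
    have hg0 : 0 < ((n : ℝ) - 1) * (1 / 2 * log R + 1) := mul_pos hn1 (by linarith)
    refine (hnum D h (2 * P.f0.discr).natAbs N _ F R (T / 9) (((n : ℝ) - 1) * (1 / 2 * log R + 1))
      W hD1 hh1' hm0 hmD hd hR1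
      (by
        rw [le_div_iff₀ (by norm_num)]
        linarith)
      hFroot hFt' (fun i => ?_) hg0 (fun i => ?_) ?_ hW1
      (fun w hw => ⟨(hW2 w hw).1, (hW2 w hw).2.trans ?_⟩)).trans ?_
    · rw [cdata_G_self Q F hFb hFz]
      have hyp : (0 : ℝ) < 2 * P.y i := by
        have := P.pos i
        positivity
      refine le_trans (log_le_log (div_pos hyp hwpos) (div_le_self hyp.le hw1)) ?_
      exact log_two_y_le hn hc (by linarith) hD1 P.f0 P.monic hfn hroots (hx i) (P.pos i) (P.eq i)
    · rw [cdata_G_self Q F hFb hFz]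
      have h1 := Q.rho_le hr0 hr i ((hxT i).trans (by
        apply div_le_div_of_nonneg_left hr0.le (by norm_num)
        linarith))
      have h2 : r / (2 * Q.q) = 9 * R := by
        rw [hR]
        field_simp
        norm_num
      rw [h2, hfn, log_mul (by norm_num) hR0.ne'] at h1
      have h3 : (n : ℝ) * 1 ≤ n * (1 / 2 * log 9) := by
        apply mul_le_mul_of_nonneg_left _ hn0.le
        have := two_le_log_nine
        linarith
      have h5 : (n : ℝ) * (1 / 2 * (log 9 + log R)) =
          n * (1 / 2 * log 9) + n * (1 / 2 * log R) := by ring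
      have h6 : ((n : ℝ) - 1) * (1 / 2 * log R + 1) + (1 / 2 * log R + 1) =
          n * (1 / 2 * log R) + n * 1 := by ring
      rw [h5] at h1
      rw [h6]
      linarith
    · have h1 : (1 - 2 * n * τ) * (1 / 2 * log R + 1) ≤
          s * (((n : ℝ) - 1) * (1 / 2 * log R + 1)) := by
        rw [← mul_assoc]
        exact mul_le_mul_of_nonneg_right hτs (by linarith)
      have h2 : log R ≤ log c + 1 / n * log D := by
        rw [← log_rpow hD0, ← hX, ← log_mul hc0.ne' hX0.ne']
        apply log_le_log hR0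
        rw [hR, div_le_iff₀ (by positivity)]
        have h3 : (1 : ℝ) ≤ Q.q := by exact_mod_cast Nat.one_le_iff_ne_zero.2 Q.q0
        have h4 : c * X * 2 ≤ c * X * (18 * Q.q) :=
          mul_le_mul_of_nonneg_left (by linarith) (by linarith)
        linarith
      have h3 : n * τ * (log c + 2) + τ * log D ≤ log (T / 9 / 4) := by
        have h4 : C6 * D ^ τ ≤ T / 9 / 4 := by
          rw [div_div, le_div_iff₀ (by norm_num)]
          linarith
        have h5 := log_le_log (by positivity) h4
        rwa [log_mul (by positivity) (by positivity), hC6, log_exp, log_rpow hD0] at h5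
      have h4 : n * τ * log R ≤ n * τ * (log c + 1 / n * log D) :=
        mul_le_mul_of_nonneg_left h2 (by positivity)
      have h5 : n * τ * (log c + 1 / n * log D) = n * τ * log c + τ * log D := by
        field_simp
      have h6 : (1 - 2 * n * τ) * (1 / 2 * log R + 1) =
          1 / 2 * log R + 1 - (n * τ * log R + 2 * (n * τ)) := by ring
      rw [h5] at h4
      rw [h6] at h1
      have h7 : n * τ * (log c + 2) = n * τ * log c + 2 * (n * τ) := by ring
      rw [h7] at h3
      linarith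
    · apply mul_le_mul_of_nonneg_right _ (sq_nonneg _)
      apply div_le_div_of_nonneg_right _ (by positivity)
      have h1 : log (2 * (A * √(c * X))) = log (2 * A) + (log c + log X) / 2 := by
        rw [← mul_assoc, log_mul (by positivity) (by positivity), log_sqrt (by positivity),
          log_mul hc0.ne' hX0.ne']
      rw [h1]
      have h2 : log (2 * A) + (log c + log X) / 2 ≤ (log (2 * A) + log c + 1) * (log D + 1) := by
        have h3 : (log (2 * A) + log c + 1) * (log D + 1) =
            (log (2 * A) + log c + 1) + (log (2 * A) + log c) * log D + log D := by ring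
        have h4 : 0 ≤ (log (2 * A) + log c) * log D := mul_nonneg (by linarith) hlD
        rw [h3]
        linarith
      calc 16 * (log (2 * A) + (log c + log X) / 2) ≤
            16 * ((log (2 * A) + log c + 1) * (log D + 1)) := by linarith
        _ = 16 * (log (2 * A) + log c + 1) * (log D + 1) := by ring
        _ ≤ a * (log D + 1) := by
            apply mul_le_mul_of_nonneg_right _ (by linarith)
            linarith
    · rw [mul_assoc, mul_assoc]
      exact mul_le_mul_of_nonneg_right (by linarith) (by positivity)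

end Pool.TT.Five
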