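import Pool.Agent.Lib.MP_695920_nt.TT.Pts
import Pool.Agent.Lib.MP_695920_nt.TT.Even.EPts
import Pool.Agent.Lib.MP_695920_nt.TT.Five.QCls

set_option autoImplicit false

/-!
TEAM TWOTORSION, version 2 (every degree, odd or even): integral points on `y ^ 2 = f(x)`, `f` monic
irreducible of any degree, classes with the coarsest modulus `q` and their models over `ℤ`
(helper16).
-/

open Polynomial

namespace Pool.TT

/-- `f0` monic irreducible over `ℤ`; integral points `(x i, y i)`, `y i > 0`, with distinct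
abscissas. No condition on the parity of the degree. -/
structure CPts (ι : Type*) where
  f0 : ℤ[X]
  monic : f0.Monic
  irr : Irreducible f0
  two : 2 ≤ f0.natDegree
  x : ι → ℤ
  y : ι → ℤ
  inj : Function.Injective x
  pos : ∀ i, 0 < y i
  eq : ∀ i, y i ^ 2 = f0.eval (x i)

/-- odd degree -/
def Pts.toC {ι : Type*} (P : Pts ι) : CPts ι where
  f0 := P.f0
  monic := P.monic
  irr := P.irr
  two := by have := P.three; omega
  x := P.x
  y := P.y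
  inj := P.inj
  pos := P.pos
  eq := P.eq

/-- even degree -/
def _root_.Pool.TTE.EPts.toC {ι : Type*} (P : Pool.TTE.EPts ι) : CPts ι where
  f0 := P.f0
  monic := P.monic
  irr := P.irr
  two := by have := P.four; omega
  x := P.x
  y := P.y
  inj := P.inj
  pos := P.pos
  eq := P.eq

namespace Five

/-- A class of integral points: `w` is the part of `2 y` at the primes which divide `f'(x)`, all
abscissas are congruent modulo `q`, and `w ^ 2` divides `f(x_c + q t) - f(x_c)`. -/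
structure CData {ι : Type*} (P : CPts ι) where
  /-- the centre -/
  c : ι
  w : ℕ
  /-- the modulus -/
  q : ℕ
  w0 : w ≠ 0
  q0 : q ≠ 0
  dx : ∀ i, (q : ℤ) ∣ P.x i - P.x c
  dy : ∀ i, (w : ℤ) ∣ P.y i - P.y c
  dE : C ((w : ℤ) ^ 2) ∣ P.f0.comp (C (q : ℤ) * X + C (P.x c)) - C (P.y c ^ 2)
  dw : ∀ i, (w : ℤ) ∣ 2 * P.y i
  cop : ∀ i, IsCoprime (2 * P.y i / w) (w * P.f0.derivative.eval (P.x i))
  pd : ∀ p : ℕ, p.Prime → p ∣ w → (p : ℤ) ∣ P.f0.derivative.eval (P.x c)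
  pq : ∀ p : ℕ, p.Prime → p ∣ q → p ∣ w

namespace CData

variable {ι : Type*} {P : CPts ι} (Q : CData P)

theorem wz : (Q.w : ℤ) ≠ 0 := by exact_mod_cast Q.w0

theorem qz : (Q.q : ℤ) ≠ 0 := by exact_mod_cast Q.q0

theorem wpos : (0 : ℤ) < Q.w := by exact_mod_cast Nat.pos_of_ne_zero Q.w0

theorem qpos : (0 : ℤ) < Q.q := by exact_mod_cast Nat.pos_of_ne_zero Q.q0

/-- the coordinate `t` -/
def t (i : ι) : ℤ := (P.x i - P.x Q.c) / (Q.q : ℤ)

/-- the coordinate `z` -/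
def z (i : ι) : ℤ := (P.y i - P.y Q.c) / (Q.w : ℤ)

/-- the coefficient of `z` -/
def h : ℤ := 2 * P.y Q.c / (Q.w : ℤ)

/-- the right-hand side -/
noncomputable def E : ℤ[X] := Q.dE.choose

theorem q_t (i : ι) : (Q.q : ℤ) * Q.t i = P.x i - P.x Q.c := Int.mul_ediv_cancel' (Q.dx i)

theorem w_z (i : ι) : (Q.w : ℤ) * Q.z i = P.y i - P.y Q.c := Int.mul_ediv_cancel' (Q.dy i)

theorem w_h : (Q.w : ℤ) * Q.h = 2 * P.y Q.c := Int.mul_ediv_cancel' (Q.dw Q.c)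

theorem x_eq (i : ι) : P.x i = (Q.q : ℤ) * Q.t i + P.x Q.c := by
  rw [Q.q_t]; ring

theorem t_c : Q.t Q.c = 0 := by simp [t]

theorem z_c : Q.z Q.c = 0 := by simp [z]

theorem t_inj : Function.Injective Q.t := by
  intro i j hij
  apply P.inj
  rw [Q.x_eq i, Q.x_eq j, hij]

/-- `w ^ 2 E(t) = f(x_c + q t) - f(x_c)` -/
theorem E_spec : C ((Q.w : ℤ) ^ 2) * Q.E + C (P.y Q.c ^ 2) =
    P.f0.comp (C (Q.q : ℤ) * X + C (P.x Q.c)) := by
  rw [E, ← Q.dE.choose_spec]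
  ring

theorem E_eval (a : ℤ) : (Q.w : ℤ) ^ 2 * Q.E.eval a + P.y Q.c ^ 2 =
    P.f0.eval ((Q.q : ℤ) * a + P.x Q.c) := by
  have h1 := congrArg (Polynomial.eval a) Q.E_spec
  simpa [eval_comp] using h1

/-- the equation of the curve -/
theorem eq (i : ι) : Q.z i ^ 2 + Q.h * Q.z i = Q.E.eval (Q.t i) := by
  have h1 := Q.E_eval (Q.t i)
  rw [← Q.x_eq i, ← P.eq i] at h1
  have h2 : (Q.w : ℤ) ^ 2 * (Q.z i ^ 2 + Q.h * Q.z i) = (Q.w : ℤ) ^ 2 * Q.E.eval (Q.t i) := by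
    have h3 := Q.w_z i
    have h4 := Q.w_h
    calc (Q.w : ℤ) ^ 2 * (Q.z i ^ 2 + Q.h * Q.z i) =
          ((Q.w : ℤ) * Q.z i) ^ 2 + ((Q.w : ℤ) * Q.h) * ((Q.w : ℤ) * Q.z i) := by ring
      _ = (P.y i - P.y Q.c) ^ 2 + 2 * P.y Q.c * (P.y i - P.y Q.c) := by rw [h3, h4]
      _ = P.y i ^ 2 - P.y Q.c ^ 2 := by ring
      _ = _ := by rw [← h1]; ring
  exact mul_left_cancel₀ (pow_ne_zero 2 Q.wz) h2

theorem E_zero : Q.E.eval 0 = 0 := by
  have h1 := Q.E_eval 0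
  rw [mul_zero, zero_add, ← P.eq Q.c] at h1
  have h2 : (Q.w : ℤ) ^ 2 * Q.E.eval 0 = 0 := by linarith
  exact (mul_eq_zero.1 h2).resolve_left (pow_ne_zero 2 Q.wz)

/-- `2 z + h = 2 y / w` -/
theorem w_two_z (i : ι) : (Q.w : ℤ) * (2 * Q.z i + Q.h) = 2 * P.y i := by
  have h3 := Q.w_z i
  have h4 := Q.w_h
  calc (Q.w : ℤ) * (2 * Q.z i + Q.h) = 2 * ((Q.w : ℤ) * Q.z i) + (Q.w : ℤ) * Q.h := by ring
    _ = _ := by rw [h3, h4]; ring

theorem two_z (i : ι) : 2 * Q.z i + Q.h = 2 * P.y i / (Q.w : ℤ) := by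
  rw [← Q.w_two_z i, Int.mul_ediv_cancel_left _ Q.wz]

theorem two_z_pos (i : ι) : 0 < 2 * Q.z i + Q.h := by
  have h1 := Q.w_two_z i
  have h2 := P.pos i
  by_contra h3
  have h4 := mul_nonneg Q.wpos.le (neg_nonneg.2 (not_lt.1 h3))
  rw [mul_neg, h1] at h4
  omega

theorem E_deriv (a : ℤ) : (Q.w : ℤ) ^ 2 * Q.E.derivative.eval a =
    (Q.q : ℤ) * P.f0.derivative.eval ((Q.q : ℤ) * a + P.x Q.c) := by
  have h1 := congrArg (fun p => Polynomial.eval a (derivative p)) Q.E_spec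
  simp only [derivative_add, derivative_C_mul, derivative_C, add_zero, derivative_comp,
    derivative_X, mul_one, eval_mul, eval_C, eval_comp, eval_add, eval_X] at h1
  rw [h1]

theorem E_deriv_t (i : ι) : (Q.w : ℤ) ^ 2 * Q.E.derivative.eval (Q.t i) =
    (Q.q : ℤ) * P.f0.derivative.eval (P.x i) := by
  rw [Q.E_deriv, ← Q.x_eq]

/-- a number coprime to `w` is coprime to `q` -/
theorem isCoprime_q {u : ℤ} (hu : IsCoprime u (Q.w : ℤ)) : IsCoprime u (Q.q : ℤ) := by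
  rw [Int.isCoprime_iff_gcd_eq_one, Int.gcd, ← Nat.coprime_iff_gcd_eq_one]
  rw [Int.isCoprime_iff_gcd_eq_one, Int.gcd, ← Nat.coprime_iff_gcd_eq_one] at hu
  rw [Int.natAbs_natCast] at hu ⊢
  apply Nat.coprime_of_dvd
  intro k hk hku hkq
  have h1 := Q.pq k hk hkq
  have h2 := Nat.dvd_gcd hku h1
  rw [Nat.coprime_iff_gcd_eq_one] at hu
  rw [hu] at h2
  exact hk.one_lt.ne' (Nat.dvd_one.1 h2)

/-- the points are smooth modulo every prime -/
theorem smooth (i : ι) : IsCoprime (2 * Q.z i + Q.h) (Q.E.derivative.eval (Q.t i)) := by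
  rw [Q.two_z]
  have h1 := Q.cop i
  have h2 : IsCoprime (2 * P.y i / (Q.w : ℤ)) ((Q.q : ℤ) * P.f0.derivative.eval (P.x i)) :=
    IsCoprime.mul_right (Q.isCoprime_q (IsCoprime.of_mul_right_left h1))
      (IsCoprime.of_mul_right_right h1)
  rw [← Q.E_deriv_t i] at h2
  exact IsCoprime.of_mul_right_right h2

theorem cop_w (i : ι) : IsCoprime (2 * Q.z i + Q.h) (Q.w : ℤ) := by
  rw [Q.two_z]
  exact IsCoprime.of_mul_right_left (Q.cop i)

theorem h_cop_w : IsCoprime Q.h (Q.w : ℤ) := by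
  have h1 := Q.cop_w Q.c
  rwa [Q.z_c, mul_zero, zero_add] at h1

/-- `4 E + h ^ 2` and `f` -/
theorem four_E : C ((Q.w : ℤ) ^ 2) * (C 4 * Q.E + C (Q.h ^ 2)) =
    C 4 * P.f0.comp (C (Q.q : ℤ) * X + C (P.x Q.c)) := by
  rw [← Q.E_spec]
  have h1 : C ((Q.w : ℤ) ^ 2) * C (Q.h ^ 2) = C 4 * C (P.y Q.c ^ 2) := by
    rw [← C_mul, ← C_mul, ← mul_pow, Q.w_h]
    congr 1
    ring
  linear_combination h1

theorem E_natDegree : Q.E.natDegree = P.f0.natDegree := by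
  have h3 := P.two
  have h1 : (C (Q.q : ℤ) * X + C (P.x Q.c) : ℤ[X]).natDegree = 1 := natDegree_linear Q.qz
  have h2 : (P.f0.comp (C (Q.q : ℤ) * X + C (P.x Q.c))).natDegree = P.f0.natDegree := by
    rw [natDegree_comp, h1, mul_one]
  rw [← Q.E_spec, natDegree_add_C, natDegree_C_mul (pow_ne_zero 2 Q.wz)] at h2
  exact h2

theorem E_leadingCoeff : (Q.w : ℤ) ^ 2 * Q.E.leadingCoeff = (Q.q : ℤ) ^ P.f0.natDegree := by
  have h3 := P.two
  have h1 : (C (Q.q : ℤ) * X + C (P.x Q.c) : ℤ[X]).natDegree = 1 := natDegree_linear Q.qz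
  have h2 : (P.f0.comp (C (Q.q : ℤ) * X + C (P.x Q.c))).leadingCoeff =
      (Q.q : ℤ) ^ P.f0.natDegree := by
    rw [leadingCoeff_comp (by rw [h1]; norm_num), P.monic.leadingCoeff, one_mul,
      leadingCoeff_linear Q.qz]
  have h4 : (C ((Q.w : ℤ) ^ 2) * Q.E + C (P.y Q.c ^ 2)).leadingCoeff =
      (Q.w : ℤ) ^ 2 * Q.E.leadingCoeff := by
    have h5 : 0 < Q.E.natDegree := by rw [Q.E_natDegree]; omega
    rw [leadingCoeff, natDegree_add_C, natDegree_C_mul (pow_ne_zero 2 Q.wz), coeff_add,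
      coeff_C_mul, coeff_C, if_neg h5.ne', add_zero]
    rfl
  rw [← h4, Q.E_spec, h2]

theorem E_leadingCoeff_pos : 0 < Q.E.leadingCoeff := by
  have h1 := Q.E_leadingCoeff
  have h2 : 0 < (Q.q : ℤ) ^ P.f0.natDegree := pow_pos Q.qpos _
  rw [← h1] at h2
  exact pos_of_mul_pos_right h2 (sq_nonneg _)

/-- `w ^ 2 ≤ q ^ n` -/
theorem w_sq_le : Q.w ^ 2 ≤ Q.q ^ P.f0.natDegree := by
  have h1 := Q.E_leadingCoeff
  have h2 := Q.E_leadingCoeff_pos
  have h3 : (Q.w : ℤ) ^ 2 * 1 ≤ (Q.w : ℤ) ^ 2 * Q.E.leadingCoeff :=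
    mul_le_mul_of_nonneg_left (by omega) (sq_nonneg _)
  rw [h1, mul_one] at h3
  exact_mod_cast h3

/-- roots of `4 E + h ^ 2` in `ℂ` come from roots of `f` -/
theorem root_of_root (a : ℂ) (ha : 4 * (Q.E.map (Int.castRingHom ℂ)).eval a + (Q.h : ℂ) ^ 2 = 0) :
    (P.f0.map (Int.castRingHom ℂ)).IsRoot ((Q.q : ℂ) * a + P.x Q.c) := by
  have h1 := congrArg (fun p => Polynomial.eval a (p.map (Int.castRingHom ℂ))) Q.four_E
  simp only [Polynomial.map_mul, Polynomial.map_add, Polynomial.map_comp, Polynomial.map_C,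
    Polynomial.map_X, eval_mul, eval_add, eval_C, eval_comp, eval_X] at h1
  simp only [eq_intCast, Int.cast_pow, Int.cast_natCast, Int.cast_ofNat] at h1
  rw [ha, mul_zero] at h1
  have h2 := (mul_eq_zero.1 h1.symm).resolve_left (by norm_num)
  exact h2

/-- there are no roots of `4 E + h ^ 2` in a disc -/
theorem no_root {r : ℝ} (hr : ∀ s : ℂ, (P.f0.map (Int.castRingHom ℂ)).IsRoot s →
    r ≤ ‖(P.x Q.c : ℂ) - s‖) (a : ℂ) (ha : ‖a‖ < r / (Q.q : ℝ)) :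
    4 * (Q.E.map (Int.castRingHom ℂ)).eval a + (Q.h : ℂ) ^ 2 ≠ 0 := by
  intro h0
  have h1 := hr _ (Q.root_of_root a h0)
  have hw : (0 : ℝ) < (Q.q : ℝ) := by exact_mod_cast Nat.pos_of_ne_zero Q.q0
  rw [lt_div_iff₀ hw] at ha
  have h2 : ‖(P.x Q.c : ℂ) - ((Q.q : ℂ) * a + P.x Q.c)‖ = ‖a‖ * (Q.q : ℝ) := by
    have : (P.x Q.c : ℂ) - ((Q.q : ℂ) * a + P.x Q.c) = -((Q.q : ℂ) * a) := by ring
    rw [this, norm_neg, norm_mul, Complex.norm_natCast, mul_comm]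
  rw [h2] at h1
  linarith

/-- the points are close to the centre -/
theorem t_le {ρ : ℝ} (i : ι) (hx : |(P.x i : ℝ) - P.x Q.c| ≤ ρ) :
    |(Q.t i : ℝ)| ≤ ρ / (Q.q : ℝ) := by
  have hw : (0 : ℝ) < (Q.q : ℝ) := by exact_mod_cast Nat.pos_of_ne_zero Q.q0
  rw [le_div_iff₀ hw]
  have h1 : (Q.q : ℝ) * (Q.t i : ℝ) = P.x i - P.x Q.c := by exact_mod_cast Q.q_t i
  calc |(Q.t i : ℝ)| * (Q.q : ℝ) = |(Q.q : ℝ) * (Q.t i : ℝ)| := by
        rw [abs_mul, abs_of_pos hw, mul_comm]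
    _ ≤ ρ := by rw [h1]; exact hx

/-- the class of points of odd degree -/
def _root_.Pool.TT.Five.QData.toC {ι : Type*} {P : Pts ι} (Q : QData P) : CData P.toC where
  c := Q.c
  w := Q.w
  q := Q.q
  w0 := Q.w0
  q0 := Q.q0
  dx := Q.dx
  dy := Q.dy
  dE := Q.dE
  dw := Q.dw
  cop := Q.cop
  pd := Q.pd
  pq := Q.pq

/-- the class of points of odd degree -/
def toQ {ι : Type*} {P : Pts ι} (Q : CData P.toC) : QData P where
  c := Q.c
  w := Q.w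
  q := Q.q
  w0 := Q.w0
  q0 := Q.q0
  dx := Q.dx
  dy := Q.dy
  dE := Q.dE
  dw := Q.dw
  cop := Q.cop
  pd := Q.pd
  pq := Q.pq

end CData

end Five

end Pool.TT
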