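import Pool.Agent.Lib.MP_695920_nt.TT.Five.QIdeal
import Pool.Agent.Lib.MP_695920_nt.TT.Five.BadW
import Pool.Agent.Lib.MP_695920_nt.Gl.IdealNorm

set_option autoImplicit false

/-!
TEAM TWOTORSION, q-version: the classes of integral points at the primes of `w`.

Label of `(x, y)`: `(w, J, (x - x₀) / gen J mod 4)` with `w = wpart (2 y) (f'(x))`,
`J = (x - θ, w ^ 2)`, `x₀` a fixed point of the set with the same `(w, J)`. The number of `w` is
`≤ C R ^ ε` (all primes divide `2 disc`, `w ≤ 2 y ≤ 2 (2 R) ^ (n / 2)`: `Smooth.lean`, as in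
`BadMain` / `BadW`), `absNorm J ∣ w ^ (2 n)` (number of divisors: `card_divisors_le`), and for a
given norm `ideals_of_norm`.
-/

open Polynomial NumberField Module

namespace Pool.TT.Five

/-- labels in a type can be replaced by natural numbers -/
theorem exists_nat_label {α β : Type*} [DecidableEq β] (S : Finset α) (l : α → β) :
    ∃ ψ : α → ℕ, (S.image ψ).card ≤ (S.image l).card ∧
      ∀ p ∈ S, ∀ p' ∈ S, ψ p = ψ p' → l p = l p' := by
  classical
  let e := (S.image l).equivFin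
  let g : β → ℕ := fun b => if h : b ∈ S.image l then (e ⟨b, h⟩ : ℕ) else 0
  refine ⟨fun p => g (l p), ?_, ?_⟩
  · have h1 : S.image (fun p => g (l p)) = (S.image l).image g := by
      rw [Finset.image_image]
      rfl
    rw [h1]
    exact Finset.card_image_le
  · intro p hp p' hp' h
    have h1 : l p ∈ S.image l := Finset.mem_image_of_mem _ hp
    have h2 : l p' ∈ S.image l := Finset.mem_image_of_mem _ hp'
    simp only [g, dif_pos h1, dif_pos h2] at h
    have h3 := e.injective (Fin.ext h)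
    exact congrArg Subtype.val h3

/-- the number of ideals which contain `w ^ 2` -/
theorem card_ideals_w (n : ℕ) (hn : 1 ≤ n) {ε : ℝ} (hε : 0 < ε) : ∃ C : ℝ, 0 < C ∧
    ∀ (K : Type) [Field K] [NumberField K], finrank ℚ K = n → ∀ w : ℕ, w ≠ 0 →
    ∀ F : Finset (Ideal (𝓞 K)), (∀ J ∈ F, (w : 𝓞 K) ^ 2 ∈ J) →
    (F.card : ℝ) ≤ C * (w : ℝ) ^ ε := by
  classical
  have hn0 : (0 : ℝ) < n := by exact_mod_cast hn
  set δ : ℝ := ε / (4 * n) with hδ
  have hδ0 : 0 < δ := by positivity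
  obtain ⟨K1, hK1, h1⟩ := MP14ee70.card_divisors_le δ hδ0
  obtain ⟨C1, hC1, h2⟩ := Pool.Agent.Lib.MP_695920_nt.Gl.ideals_of_norm n δ hδ0
  refine ⟨K1 * C1, by positivity, fun K _ _ hK w hw F hF => ?_⟩
  set M : ℕ := w ^ (2 * n) with hM
  have hM0 : M ≠ 0 := pow_ne_zero _ hw
  have hnorm : ∀ J ∈ F, Ideal.absNorm J ∣ M := by
    intro J hJ
    have e1 : Ideal.span {((w : 𝓞 K) ^ 2)} ≤ J := by
      rw [Ideal.span_singleton_le_iff_mem]
      exact hF J hJ
    have e2 := Ideal.absNorm_dvd_absNorm_of_le e1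
    have e3 : Ideal.absNorm (Ideal.span {((w : 𝓞 K) ^ 2)}) = M := by
      rw [Ideal.absNorm_span_singleton]
      have e4 : (w : 𝓞 K) ^ 2 = algebraMap ℤ (𝓞 K) ((w : ℤ) ^ 2) := by
        rw [map_pow, map_natCast]
      rw [e4, Algebra.norm_algebraMap, RingOfIntegers.rank, hK, hM]
      rw [Int.natAbs_pow, Int.natAbs_pow, Int.natAbs_natCast, ← pow_mul]
    rwa [e3] at e2
  have hsub : F ⊆ M.divisors.biUnion fun m => F.filter fun J => Ideal.absNorm J = m := by
    intro J hJ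
    exact Finset.mem_biUnion.2 ⟨Ideal.absNorm J, Nat.mem_divisors.2 ⟨hnorm J hJ, hM0⟩,
      Finset.mem_filter.2 ⟨hJ, rfl⟩⟩
  have hfib : ∀ m ∈ M.divisors, ((F.filter fun J => Ideal.absNorm J = m).card : ℝ) ≤
      C1 * (M : ℝ) ^ δ := by
    intro m hm
    have hm1 : 1 ≤ m := Nat.pos_of_mem_divisors hm
    have hmM : m ≤ M := Nat.divisor_le hm
    have e1 : (F.filter fun J => Ideal.absNorm J = m).card ≤
        Nat.card {B : Ideal (𝓞 K) // Ideal.absNorm B = m} := by
      have hfin : Finite {B : Ideal (𝓞 K) // Ideal.absNorm B = m} :=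
        (Ideal.finite_setOfPred_absNorm_eq m).to_subtype
      have := Fintype.ofFinite {B : Ideal (𝓞 K) // Ideal.absNorm B = m}
      rw [Nat.card_eq_fintype_card, ← Fintype.card_coe]
      exact Fintype.card_le_of_injective
        (fun J => (⟨J.1, (Finset.mem_filter.1 J.2).2⟩ :
          {B : Ideal (𝓞 K) // Ideal.absNorm B = m}))
        (fun a b hab => Subtype.ext (show a.1 = b.1 from
          congrArg (fun x : {B : Ideal (𝓞 K) // Ideal.absNorm B = m} => x.1) hab))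
    calc ((F.filter fun J => Ideal.absNorm J = m).card : ℝ) ≤
          (Nat.card {B : Ideal (𝓞 K) // Ideal.absNorm B = m} : ℝ) := by exact_mod_cast e1
      _ ≤ C1 * (m : ℝ) ^ δ := h2 K hK m hm1
      _ ≤ C1 * (M : ℝ) ^ δ := by
          apply mul_le_mul_of_nonneg_left _ hC1.le
          exact Real.rpow_le_rpow (Nat.cast_nonneg _) (by exact_mod_cast hmM) hδ0.le
  have e1 : (M : ℝ) ^ δ * (M : ℝ) ^ δ = (w : ℝ) ^ ε := by
    have hw0 : (0 : ℝ) < w := by exact_mod_cast Nat.pos_of_ne_zero hw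
    rw [hM]
    push_cast
    rw [← Real.rpow_natCast, ← Real.rpow_mul hw0.le, ← Real.rpow_add hw0]
    congr 1
    rw [hδ]
    push_cast
    field_simp
    ring
  calc (F.card : ℝ) ≤ ((∑ m ∈ M.divisors, (F.filter fun J => Ideal.absNorm J = m).card : ℕ) : ℝ) := by
        exact_mod_cast (Finset.card_le_card hsub).trans Finset.card_biUnion_le
    _ ≤ ∑ _m ∈ M.divisors, C1 * (M : ℝ) ^ δ := by
        push_cast
        exact Finset.sum_le_sum hfib
    _ = (M.divisors.card : ℝ) * (C1 * (M : ℝ) ^ δ) := by rw [Finset.sum_const, nsmul_eq_mul]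
    _ ≤ (K1 * (M : ℝ) ^ δ) * (C1 * (M : ℝ) ^ δ) :=
        mul_le_mul_of_nonneg_right (h1 M hM0) (by positivity)
    _ = K1 * C1 * ((M : ℝ) ^ δ * (M : ℝ) ^ δ) := by ring
    _ = _ := by rw [e1]

theorem exists_cells (n : ℕ) (hn : 3 ≤ n) {ε : ℝ} (hε : 0 < ε) : ∃ C : ℝ, 0 < C ∧
    ∀ (K : Type) [Field K] [NumberField K], finrank ℚ K = n → ∀ θ : 𝓞 K,
    (minpoly ℤ θ).natDegree = n → ∀ R : ℝ, 1 ≤ R →
    (∀ z : ℂ, ((minpoly ℤ θ).map (Int.castRingHom ℂ)).IsRoot z → ‖z‖ ≤ R) →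
    ∀ S : Finset (ℤ × ℤ), (∀ p ∈ S, |(p.1 : ℝ)| ≤ R ∧ 0 < p.2 ∧
      p.2 ^ 2 = (minpoly ℤ θ).eval p.1) →
    ∃ ψ : ℤ × ℤ → ℕ, ((S.image ψ).card : ℝ) ≤ C * R ^ ε ∧
      ∀ p ∈ S, ∀ p' ∈ S, ψ p = ψ p' →
        wpart (2 * p.2) ((minpoly ℤ θ).derivative.eval p.1) =
          wpart (2 * p'.2) ((minpoly ℤ θ).derivative.eval p'.1) ∧
        ((modq θ p.1 (wpart (2 * p.2) ((minpoly ℤ θ).derivative.eval p.1)) : ℕ) : ℤ) ∣
          p'.1 - p.1 := by
  classical
  have hn0 : (0 : ℝ) < n := by have : 0 < n := by omega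
                               exact_mod_cast this
  set ε₁ : ℝ := ε / (2 * (n * n + n + 3)) with hε₁
  set ε₂ : ℝ := ε / (2 * (n + 1)) with hε₂
  have hε₁0 : 0 < ε₁ := by positivity
  have hε₂0 : 0 < ε₂ := by positivity
  obtain ⟨K1, hK1, hK1'⟩ := exists_K1 hε₁0
  obtain ⟨C2, hC2, hC2'⟩ := card_ideals_w n (by omega) hε₂0
  refine ⟨4 * K1 * C2 * 2 ^ ε, by positivity, fun K _ _ hK θ hθn R hR hroots S hS => ?_⟩
  set f := minpoly ℤ θ with hf
  have hint : IsIntegral ℤ θ := NumberField.RingOfIntegers.isIntegral θ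
  have hmon : f.Monic := minpoly.monic hint
  have hirr : Irreducible f := minpoly.irreducible hint
  have hsep : (f.map (Int.castRingHom ℚ)).Separable := by
    have : Irreducible (f.map (Int.castRingHom ℚ)) :=
      (Polynomial.Monic.irreducible_iff_irreducible_map_fraction_map (K := ℚ) hmon).1 hirr
    exact this.separable
  obtain ⟨a, b, D, hD0, hab, hD⟩ :=
    Pool.Agent.Lib.MP_695920_nt.TT.disc_bound (by omega : 0 < n) f hmon hθn hsep hR hroots
  set W : ℝ := 2 * R with hW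
  have hW2 : 2 ≤ W := by linarith
  have hW1 : 1 ≤ W := by linarith
  have hW0 : 0 < W := by linarith
  set N0 : ℕ := (4 * D).natAbs with hN0
  have hN00 : N0 ≠ 0 := Int.natAbs_ne_zero.2 (mul_ne_zero (by norm_num) hD0)
  have hN0W : (N0 : ℝ) ≤ W ^ (n * n + 2) := by
    have e1 : (N0 : ℝ) = |((4 * D : ℤ) : ℝ)| := by
      rw [hN0, Nat.cast_natAbs, Int.cast_abs]
    rw [e1, Int.cast_mul, abs_mul, pow_add]
    push_cast
    rw [abs_of_pos (by norm_num : (0 : ℝ) < 4), mul_comm]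
    apply mul_le_mul hD _ (by norm_num) (by positivity)
    nlinarith
  -- the numbers `w`
  let wf : ℤ × ℤ → ℕ := fun p => wpart (2 * p.2) (f.derivative.eval p.1)
  have hw0 : ∀ p ∈ S, wf p ≠ 0 := by
    intro p hp
    have := (hS p hp).2.1
    exact wpart_ne_zero _ (by omega)
  have hwle : ∀ p ∈ S, (wf p : ℝ) ≤ W ^ (n + 1) := by
    intro p hp
    obtain ⟨hx, hy0, hy⟩ := hS p hp
    have e1 : wf p ≤ (2 * p.2).natAbs :=
      Nat.le_of_dvd (Int.natAbs_pos.2 (by omega)) (Nat.gcd_dvd_left _ _)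
    have e2 : (wf p : ℤ) ≤ 2 * p.2 := by
      have : ((2 * p.2).natAbs : ℤ) = 2 * p.2 := by
        rw [Int.natCast_natAbs, abs_of_pos (by omega)]
      rw [← this]
      exact_mod_cast e1
    have e3 : (wf p : ℝ) ≤ 2 * p.2 := by exact_mod_cast e2
    have e4 : (p.2 : ℝ) ^ 2 ≤ W ^ n := by
      have e5 := Pool.Agent.Lib.MP_695920_nt.TT.abs_eval_le f hmon hθn hR hroots hx
      rw [← hy] at e5
      push_cast at e5
      rw [abs_of_nonneg (by positivity)] at e5
      exact e5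
    have e6 : (1 : ℝ) ≤ p.2 := by exact_mod_cast hy0
    have e7 : (p.2 : ℝ) ≤ W ^ n := by nlinarith
    have e8 : 0 < W ^ n := by positivity
    calc (wf p : ℝ) ≤ 2 * p.2 := e3
      _ ≤ 2 * W ^ n := by linarith
      _ ≤ W ^ (n + 1) := by
          rw [pow_succ]
          nlinarith
  have hcardw : ((S.image wf).card : ℝ) ≤ (W ^ (n + 1)) ^ ε₁ * (K1 * (W ^ (n * n + 2)) ^ ε₁) := by
    have e1 := card_w_le hε₁0 hK1' hN00 (x := W ^ (n + 1)) (by positivity) (S.image wf) (by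
      intro r hr
      obtain ⟨p, hp, rfl⟩ := Finset.mem_image.1 hr
      refine ⟨hw0 p hp, hwle p hp, fun q hq hqd => ?_⟩
      obtain ⟨e1, e2⟩ := prime_dvd_of_dvd_wpart hq hqd
      have e3 : (q : ℤ) ∣ 4 * D := by
        have e4 := congrArg (Polynomial.eval p.1) hab
        simp only [eval_add, eval_mul, eval_C] at e4
        have e5 : 4 * D = (2 * p.2) * (2 * p.2 * a.eval p.1) +
            f.derivative.eval p.1 * (4 * b.eval p.1) := by
          rw [← (hS p hp).2.2] at e4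
          linear_combination -4 * e4
        rw [e5]
        exact dvd_add (e1.mul_right _) (e2.mul_right _)
      rw [hN0]
      exact Int.natCast_dvd.1 e3)
    refine e1.trans (mul_le_mul_of_nonneg_left ?_ (by positivity))
    exact mul_le_mul_of_nonneg_left (Real.rpow_le_rpow (Nat.cast_nonneg _) hN0W hε₁0.le) hK1.le
  -- the ideals
  let wJ : ℤ × ℤ → ℕ × Ideal (𝓞 K) := fun p => (wf p, Jx θ p.1 (wf p))
  have hcardJ : ((S.image wJ).card : ℝ) ≤
      ((S.image wf).card : ℝ) * (C2 * (W ^ (n + 1)) ^ ε₂) := by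
    have e1 : (S.image wJ).card = ∑ w ∈ (S.image wJ).image Prod.fst,
        ((S.image wJ).filter fun k => k.1 = w).card :=
      Finset.card_eq_sum_card_image Prod.fst (S.image wJ)
    have e2 : (S.image wJ).image Prod.fst = S.image wf := by
      rw [Finset.image_image]
      rfl
    have e3 : ∀ w ∈ S.image wf, (((S.image wJ).filter fun k => k.1 = w).card : ℝ) ≤
        C2 * (W ^ (n + 1)) ^ ε₂ := by
      intro w hw
      obtain ⟨p0, hp0, hp0w⟩ := Finset.mem_image.1 hw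
      have hw0' : w ≠ 0 := by rw [← hp0w]; exact hw0 p0 hp0
      have e4 : ((S.image wJ).filter fun k => k.1 = w).card =
          (((S.image wJ).filter fun k => k.1 = w).image Prod.snd).card := by
        rw [Finset.card_image_of_injOn]
        intro k hk k' hk' hkk
        have h1 := (Finset.mem_filter.1 hk).2
        have h2 := (Finset.mem_filter.1 hk').2
        exact Prod.ext (h1.trans h2.symm) hkk
      rw [e4]
      refine (hC2' K hK w hw0' _ ?_).trans ?_
      · intro J hJ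
        obtain ⟨k, hk, rfl⟩ := Finset.mem_image.1 hJ
        obtain ⟨hk1, hk2⟩ := Finset.mem_filter.1 hk
        obtain ⟨p, hp, rfl⟩ := Finset.mem_image.1 hk1
        have : wf p = w := hk2
        change (w : 𝓞 K) ^ 2 ∈ Jx θ p.1 (wf p)
        rw [this]
        exact w_sq_mem θ _ _
      · apply mul_le_mul_of_nonneg_left _ hC2.le
        apply Real.rpow_le_rpow (Nat.cast_nonneg _) _ hε₂0.le
        rw [← hp0w]
        exact hwle p0 hp0
    rw [e1, e2]
    push_cast
    calc ∑ w ∈ S.image wf, (((S.image wJ).filter fun k => k.1 = w).card : ℝ) ≤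
          ∑ _w ∈ S.image wf, C2 * (W ^ (n + 1)) ^ ε₂ := Finset.sum_le_sum e3
      _ = _ := by rw [Finset.sum_const, nsmul_eq_mul]
  -- the residue
  let x0 : ℕ × Ideal (𝓞 K) → ℤ := fun k =>
    if h : ∃ p ∈ S, wJ p = k then (Classical.choose h).1 else 0
  let l : ℤ × ℤ → (ℕ × Ideal (𝓞 K)) × ℤ := fun p =>
    (wJ p, ((p.1 - x0 (wJ p)) / (gen (Jx θ p.1 (wf p)) : ℤ)) % 4)
  have hcardl : ((S.image l).card : ℝ) ≤ ((S.image wJ).card : ℝ) * 4 := by
    have e1 : S.image l ⊆ (S.image wJ) ×ˢ (Finset.Ico (0 : ℤ) 4) := by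
      intro k hk
      obtain ⟨p, hp, rfl⟩ := Finset.mem_image.1 hk
      rw [Finset.mem_product, Finset.mem_Ico]
      exact ⟨Finset.mem_image_of_mem _ hp, Int.emod_nonneg _ (by norm_num),
        Int.emod_lt_of_pos _ (by norm_num)⟩
    have e2 := Finset.card_le_card e1
    rw [Finset.card_product, Int.card_Ico] at e2
    have e3 : ((4 : ℤ) - 0).toNat = 4 := rfl
    rw [e3] at e2
    exact_mod_cast e2
  obtain ⟨ψ, hψ1, hψ2⟩ := exists_nat_label S l
  refine ⟨ψ, ?_, ?_⟩
  · have e1 : ((W ^ (n + 1)) ^ ε₁ * (K1 * (W ^ (n * n + 2)) ^ ε₁)) *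
        (C2 * (W ^ (n + 1)) ^ ε₂) * 4 = 4 * K1 * C2 * W ^ ε := by
      have e2 : (W ^ (n + 1)) ^ ε₁ = W ^ (ε₁ * (n + 1)) := by
        rw [← Real.rpow_natCast, ← Real.rpow_mul hW0.le]
        congr 1
        push_cast
        ring
      have e3 : (W ^ (n * n + 2)) ^ ε₁ = W ^ (ε₁ * (n * n + 2)) := by
        rw [← Real.rpow_natCast, ← Real.rpow_mul hW0.le]
        congr 1
        push_cast
        ring
      have e4 : (W ^ (n + 1)) ^ ε₂ = W ^ (ε₂ * (n + 1)) := by
        rw [← Real.rpow_natCast, ← Real.rpow_mul hW0.le]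
        congr 1
        push_cast
        ring
      have e5 : W ^ ε = W ^ (ε₁ * (n + 1)) * (W ^ (ε₁ * (n * n + 2)) * W ^ (ε₂ * (n + 1))) := by
        rw [← Real.rpow_add hW0, ← Real.rpow_add hW0]
        congr 1
        rw [hε₁, hε₂]
        field_simp
        ring
      rw [e2, e3, e4, e5]
      ring
    have e6 : W ^ ε = 2 ^ ε * R ^ ε := by
      rw [hW, Real.mul_rpow (by norm_num) (by linarith)]
    calc ((S.image ψ).card : ℝ) ≤ ((S.image l).card : ℝ) := by exact_mod_cast hψ1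
      _ ≤ ((S.image wJ).card : ℝ) * 4 := hcardl
      _ ≤ (((S.image wf).card : ℝ) * (C2 * (W ^ (n + 1)) ^ ε₂)) * 4 :=
          mul_le_mul_of_nonneg_right hcardJ (by norm_num)
      _ ≤ (((W ^ (n + 1)) ^ ε₁ * (K1 * (W ^ (n * n + 2)) ^ ε₁)) *
            (C2 * (W ^ (n + 1)) ^ ε₂)) * 4 := by
          apply mul_le_mul_of_nonneg_right _ (by norm_num)
          exact mul_le_mul_of_nonneg_right hcardw (by positivity)
      _ = 4 * K1 * C2 * W ^ ε := e1
      _ = _ := by rw [e6]; ring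
  · intro p hp p' hp' h
    have h1 := hψ2 p hp p' hp' h
    have hk : wJ p = wJ p' := congrArg Prod.fst h1
    have hw : wf p = wf p' := congrArg Prod.fst hk
    have hJ : Jx θ p.1 (wf p) = Jx θ p'.1 (wf p') := congrArg Prod.snd hk
    have hres : ((p.1 - x0 (wJ p)) / (gen (Jx θ p.1 (wf p)) : ℤ)) % 4 =
        ((p'.1 - x0 (wJ p')) / (gen (Jx θ p'.1 (wf p')) : ℤ)) % 4 := congrArg Prod.snd h1
    refine ⟨hw, ?_⟩
    -- the fixed point
    have hex : ∃ q ∈ S, wJ q = wJ p := ⟨p, hp, rfl⟩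
    obtain ⟨hqS, hqk⟩ := Classical.choose_spec hex
    set q := Classical.choose hex with hq
    have hx0 : x0 (wJ p) = q.1 := by
      simp only [x0, dif_pos hex]
      rfl
    have hqw : wf q = wf p := congrArg Prod.fst hqk
    have hqJ : Jx θ q.1 (wf p) = Jx θ p.1 (wf p) := by
      have := congrArg Prod.snd hqk
      change Jx θ q.1 (wf q) = Jx θ p.1 (wf p) at this
      rwa [hqw] at this
    set g : ℤ := ((gen (Jx θ p.1 (wf p)) : ℕ) : ℤ) with hg
    have hg0 : g ≠ 0 := by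
      rw [hg]
      exact_mod_cast gen_ne_zero θ p.1 (hw0 p hp)
    have hd1 : g ∣ p.1 - q.1 := gen_dvd_sub θ hqJ.symm
    have hd2 : g ∣ p'.1 - q.1 := by
      have hJ' : Jx θ p'.1 (wf p) = Jx θ q.1 (wf p) := by
        rw [hqJ, hJ, hw]
      have := gen_dvd_sub θ hJ'
      have e : Jx θ p'.1 (wf p) = Jx θ p.1 (wf p) := by rw [hJ', hqJ]
      rw [e] at this
      exact this
    rw [← hk, hx0, ← hJ, ← hg] at hres
    obtain ⟨u, hu⟩ := hd1
    obtain ⟨v, hv⟩ := hd2
    rw [hu, hv, Int.mul_ediv_cancel_left _ hg0, Int.mul_ediv_cancel_left _ hg0] at hres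
    have h4 : (4 : ℤ) ∣ v - u := Int.ModEq.dvd hres
    have hfin : p'.1 - p.1 = g * (v - u) := by
      linear_combination hv - hu
    rw [hfin]
    unfold modq
    split_ifs
    · push_cast
      obtain ⟨m, hm⟩ := h4
      exact ⟨m, by rw [hm, ← hg]; ring⟩
    · exact dvd_mul_right _ _

end Pool.TT.Five
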