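import Mathlib

set_option autoImplicit false

/-!
TEAM TWOTORSION, q-version: archimedean clusters (stub by helper16).

Cell of `x`: (a nearest root `θ`, `k = ⌊log₂ |x - θ|⌋`, `⌊(x - Re θ) T / 2 ^ k⌋`). Two points of one
cell have distance at most `2 ^ k / T`, and `2 ^ k ≤` the distance of each of them to all roots.
Number of cells: `n` roots, `k` between `-(n - 1) log₂ (2 R) - 1` and `log₂ (2 R)` (the product of
the distances is `|f(x)| ≥ 1`), third coordinate of absolute value at most `2 T + 1`.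
-/

open Polynomial

namespace Pool.TT.Five

/-- the product of the distances to the roots is at least one -/
private theorem qcl_dist (n : ℕ) (f : ℤ[X]) (hf : f.Monic) (hn : f.natDegree = n) (R : ℝ)
    (hR : 1 ≤ R) (hroots : ∀ z : ℂ, (f.map (Int.castRingHom ℂ)).IsRoot z → ‖z‖ ≤ R) (x : ℤ)
    (hx : |(x : ℝ)| ≤ R) (hfx : f.eval x ≠ 0) (θ : ℂ)
    (hθ : (f.map (Int.castRingHom ℂ)).IsRoot θ) : 1 ≤ ‖(x : ℂ) - θ‖ * (2 * R) ^ (n - 1) := by
  set F : ℂ[X] := f.map (Int.castRingHom ℂ) with hF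
  have hFm : F.Monic := hf.map _
  have hF0 : F ≠ 0 := hFm.ne_zero
  have hs : F.Splits := IsAlgClosed.splits F
  have hcard : Multiset.card F.roots = n := by
    rw [← hs.natDegree_eq_card_roots, hF, hf.natDegree_map, hn]
  have hmem : θ ∈ F.roots := (mem_roots hF0).2 hθ
  have h1 : F.eval (x : ℂ) = ((f.eval x : ℤ) : ℂ) := by
    rw [hF]
    simp
  have h2 : (1 : ℝ) ≤ ‖F.eval (x : ℂ)‖ := by
    rw [h1, Complex.norm_intCast]
    have h3 : (1 : ℤ) ≤ |f.eval x| := Int.one_le_abs hfx
    exact_mod_cast h3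
  have h3 : F.eval (x : ℂ) = ((x : ℂ) - θ) * ((F.roots.erase θ).map fun z => (x : ℂ) - z).prod := by
    rw [hs.eval_eq_prod_roots_of_monic hFm]
    conv_lhs => rw [← Multiset.cons_erase hmem, Multiset.map_cons, Multiset.prod_cons]
  have h4 : ∀ Z : Multiset ℂ, (∀ z ∈ Z, ‖z‖ ≤ R) →
      ‖(Z.map fun z => (x : ℂ) - z).prod‖ ≤ (2 * R) ^ Multiset.card Z := by
    intro Z
    induction Z using Multiset.induction_on with
    | empty => intro _; simp
    | cons a Z ih =>
      intro hZ
      rw [Multiset.map_cons, Multiset.prod_cons, norm_mul, Multiset.card_cons, pow_succ, mul_comm]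
      refine mul_le_mul (ih fun z hz => hZ z (Multiset.mem_cons_of_mem hz)) ?_ (norm_nonneg _)
        (by positivity)
      have h5 := norm_sub_le (x : ℂ) a
      rw [Complex.norm_intCast] at h5
      have h6 := hZ a (Multiset.mem_cons_self a Z)
      linarith
  have h5 := h4 (F.roots.erase θ) fun z hz =>
    hroots z (isRoot_of_mem_roots (Multiset.mem_of_mem_erase hz))
  rw [Multiset.card_erase_of_mem hmem, hcard, Nat.pred_eq_sub_one] at h5
  rw [h3, norm_mul] at h2
  exact h2.trans (mul_le_mul_of_nonneg_left h5 (norm_nonneg _))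

private theorem qcl_log (δ R : ℝ) (n : ℕ) (hn : 1 ≤ n) (hR : 1 ≤ R) (hδ : 0 < δ)
    (hδR : δ ≤ 2 * R) (h1 : 1 ≤ δ * (2 * R) ^ (n - 1)) :
    |(Int.log 2 δ : ℝ)| ≤ n * Real.logb 2 (2 * R) + 1 := by
  have hL : 1 ≤ Real.logb 2 (2 * R) := by
    rw [Real.le_logb_iff_rpow_le (by norm_num) (by linarith)]
    norm_num
    linarith
  have hn' : (1 : ℝ) ≤ n := by exact_mod_cast hn
  rw [abs_le]
  constructor
  · have h2 : δ < (2 : ℝ) ^ (Int.log 2 δ + 1) := by
      exact_mod_cast Int.lt_zpow_succ_log_self (b := 2) (by norm_num) δ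
    have h3 : Real.logb 2 δ < (Int.log 2 δ : ℝ) + 1 := by
      rw [Real.logb_lt_iff_lt_rpow (by norm_num) hδ]
      have h4 : (2 : ℝ) ^ ((Int.log 2 δ : ℝ) + 1) = (2 : ℝ) ^ (Int.log 2 δ + 1) := by
        rw [← Real.rpow_intCast]
        push_cast
        rfl
      rw [h4]
      exact h2
    have h4 : 0 ≤ Real.logb 2 δ + (n - 1) * Real.logb 2 (2 * R) := by
      have h5 : Real.logb 2 (δ * (2 * R) ^ (n - 1)) =
          Real.logb 2 δ + (n - 1) * Real.logb 2 (2 * R) := by
        rw [Real.logb_mul hδ.ne' (by positivity), Real.logb_pow, Nat.cast_sub hn, Nat.cast_one]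
      rw [← h5]
      exact Real.logb_nonneg (by norm_num) h1
    nlinarith
  · have h2 : (2 : ℝ) ^ (Int.log 2 δ) ≤ δ := by
      exact_mod_cast Int.zpow_log_le_self (b := 2) (by norm_num) hδ
    have h3 : (Int.log 2 δ : ℝ) ≤ Real.logb 2 (2 * R) := by
      rw [Real.le_logb_iff_rpow_le (by norm_num) (by linarith), Real.rpow_intCast]
      exact h2.trans hδR
    nlinarith

theorem exists_clusters (n : ℕ) (hn : 1 ≤ n) : ∃ C : ℝ, 0 < C ∧
    ∀ f : ℤ[X], f.Monic → f.natDegree = n → ∀ R T : ℝ, 1 ≤ R → 1 ≤ T →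
    (∀ z : ℂ, (f.map (Int.castRingHom ℂ)).IsRoot z → ‖z‖ ≤ R) →
    ∀ S : Finset ℤ, (∀ x ∈ S, |(x : ℝ)| ≤ R ∧ f.eval x ≠ 0) →
    ∃ φ : ℤ → ℕ, ((S.image φ).card : ℝ) ≤ C * T * (1 + Real.log R) ∧
      ∀ x ∈ S, ∃ r : ℝ, 0 < r ∧
        (∀ z : ℂ, (f.map (Int.castRingHom ℂ)).IsRoot z → r ≤ ‖(x : ℂ) - z‖) ∧
        ∀ x' ∈ S, φ x' = φ x → |(x' : ℝ) - x| * T ≤ r := by
  classical
  have hn' : (1 : ℝ) ≤ n := by exact_mod_cast hn
  refine ⟨9 * n * (4 * n + 7), by positivity, ?_⟩
  intro f hf hfn R T hR hT hroots S hS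
  set F : ℂ[X] := f.map (Int.castRingHom ℂ) with hF
  have hFm : F.Monic := hf.map _
  have hF0 : F ≠ 0 := hFm.ne_zero
  have hs : F.Splits := IsAlgClosed.splits F
  have hcard : Multiset.card F.roots = n := by
    rw [← hs.natDegree_eq_card_roots, hF, hf.natDegree_map, hfn]
  have hne : F.roots.toFinset.Nonempty := by
    rw [Multiset.toFinset_nonempty]
    intro h0
    rw [h0, Multiset.card_zero] at hcard
    omega
  have hθ : ∀ x : ℤ, ∃ θ : ℂ, F.IsRoot θ ∧ ∀ z : ℂ, F.IsRoot z → ‖(x : ℂ) - θ‖ ≤ ‖(x : ℂ) - z‖ := by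
    intro x
    obtain ⟨θ, hθ, hmin⟩ := F.roots.toFinset.exists_min_image (fun z => ‖(x : ℂ) - z‖) hne
    rw [Multiset.mem_toFinset, mem_roots hF0] at hθ
    exact ⟨θ, hθ, fun z hz => hmin z (by rw [Multiset.mem_toFinset, mem_roots hF0]; exact hz)⟩
  choose θ hθ hmin using hθ
  set δ : ℤ → ℝ := fun x => ‖(x : ℂ) - θ x‖ with hδ
  have hδ1 : ∀ x ∈ S, 1 ≤ δ x * (2 * R) ^ (n - 1) := fun x hx =>
    qcl_dist n f hf hfn R hR hroots x (hS x hx).1 (hS x hx).2 (θ x) (hθ x)
  have hδ0 : ∀ x ∈ S, 0 < δ x := by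
    intro x hx
    rcases eq_or_lt_of_le (norm_nonneg ((x : ℂ) - θ x)) with h | h
    · have h1 := hδ1 x hx
      rw [hδ] at h1
      simp only [← h, zero_mul] at h1
      norm_num at h1
    · exact h
  have hδR : ∀ x ∈ S, δ x ≤ 2 * R := by
    intro x hx
    have h1 := norm_sub_le (x : ℂ) (θ x)
    rw [Complex.norm_intCast] at h1
    have h2 := hroots _ (hθ x)
    have h3 := (hS x hx).1
    rw [hδ]
    show ‖(x : ℂ) - θ x‖ ≤ 2 * R
    linarith
  set k : ℤ → ℤ := fun x => Int.log 2 (δ x) with hk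
  have hk1 : ∀ x ∈ S, (2 : ℝ) ^ k x ≤ δ x := fun x hx => by
    exact_mod_cast Int.zpow_log_le_self (b := 2) (by norm_num) (hδ0 x hx)
  have hk2 : ∀ x, δ x < (2 : ℝ) ^ (k x + 1) := fun x => by
    exact_mod_cast Int.lt_zpow_succ_log_self (b := 2) (by norm_num) (δ x)
  set m : ℤ → ℤ := fun x => ⌊((x : ℝ) - (θ x).re) * T / 2 ^ k x⌋ with hm
  set ψ : ℤ → ℂ × ℤ × ℤ := fun x => (θ x, k x, m x) with hψ
  set I := S.image ψ with hI
  refine ⟨fun x => I.toList.idxOf (ψ x), ?_, ?_⟩
  · -- the number of cells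
    set L := Real.logb 2 (2 * R) with hL
    have hL1 : 1 ≤ L := by
      rw [hL, Real.le_logb_iff_rpow_le (by norm_num) (by linarith)]
      norm_num
      linarith
    have hL2 : L ≤ 1 + 2 * Real.log R := by
      have h1 : L = 1 + Real.log R / Real.log 2 := by
        rw [hL, Real.logb, Real.log_mul (by norm_num) (by positivity), add_div,
          div_self (Real.log_pos (by norm_num)).ne']
      have h2 : (0.5 : ℝ) < Real.log 2 := by
        have := Real.log_two_gt_d9
        linarith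
      have h3 : 0 ≤ Real.log R := Real.log_nonneg hR
      have h4 : Real.log R / Real.log 2 ≤ 2 * Real.log R := by
        rw [div_le_iff₀ (by linarith)]
        nlinarith
      linarith
    set K : ℤ := ⌊(n : ℝ) * L + 1⌋ with hK
    set M : ℤ := ⌊2 * T⌋ + 1 with hM
    have hK0 : 0 ≤ K := Int.floor_nonneg.2 (by nlinarith)
    have hM0 : 0 ≤ M := by
      have : (0 : ℤ) ≤ ⌊2 * T⌋ := Int.floor_nonneg.2 (by linarith)
      omega
    have hsub : I ⊆ F.roots.toFinset ×ˢ (Finset.Icc (-K) K ×ˢ Finset.Icc (-M) M) := by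
      intro p hp
      rw [hI, Finset.mem_image] at hp
      obtain ⟨x, hx, rfl⟩ := hp
      rw [Finset.mem_product, Finset.mem_product, Finset.mem_Icc, Finset.mem_Icc,
        Multiset.mem_toFinset, mem_roots hF0]
      refine ⟨hθ x, ?_, ?_⟩
      · have h1 := qcl_log (δ x) R n hn hR (hδ0 x hx) (hδR x hx) (hδ1 x hx)
        show -K ≤ k x ∧ k x ≤ K
        rw [← abs_le, hK, Int.le_floor]
        push_cast
        exact h1
      · show -M ≤ m x ∧ m x ≤ M
        have h2 : (0 : ℝ) < 2 ^ k x := by positivity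
        have h3 : |((x : ℝ) - (θ x).re)| < 2 * 2 ^ k x := by
          have h4 := hk2 x
          rw [zpow_add_one₀ (by norm_num)] at h4
          have h5 : |((x : ℝ) - (θ x).re)| ≤ δ x := by
            have h6 := Complex.abs_re_le_norm ((x : ℂ) - θ x)
            simpa using h6
          linarith
        have h4 : |((x : ℝ) - (θ x).re) * T / 2 ^ k x| < 2 * T := by
          rw [abs_div, abs_mul, abs_of_pos h2, abs_of_pos (show 0 < T by linarith),
            div_lt_iff₀ h2]
          nlinarith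
        rw [abs_lt] at h4
        constructor
        · have h5 : -(⌊2 * T⌋ + 1) ≤ m x := by
            rw [hm, Int.le_floor]
            push_cast
            have h6 := Int.lt_floor_add_one (2 * T)
            linarith
          rw [hM]
          exact h5
        · have h5 : m x ≤ ⌊2 * T⌋ := by
            rw [hm]
            exact Int.floor_le_floor h4.2.le
          rw [hM]
          omega
    have h1 : ((S.image fun x => I.toList.idxOf (ψ x)).card : ℝ) ≤ I.card := by
      have h2 : (S.image fun x => I.toList.idxOf (ψ x)) = I.image fun p => I.toList.idxOf p := by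
        rw [hI, Finset.image_image]
        rfl
      rw [h2]
      exact_mod_cast Finset.card_image_le
    have h2 : (I.card : ℝ) ≤ n * ((2 * K + 1) * (2 * M + 1)) := by
      have h3 := Finset.card_le_card hsub
      rw [Finset.card_product, Finset.card_product, Int.card_Icc, Int.card_Icc] at h3
      have h4 : F.roots.toFinset.card ≤ n := (Multiset.toFinset_card_le _).trans hcard.le
      have h5 : ((K + 1 - -K).toNat : ℤ) = 2 * K + 1 := by
        rw [Int.toNat_of_nonneg (by omega)]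
        ring
      have h6 : ((M + 1 - -M).toNat : ℤ) = 2 * M + 1 := by
        rw [Int.toNat_of_nonneg (by omega)]
        ring
      have h7 : ((K + 1 - -K).toNat : ℝ) = 2 * K + 1 := by exact_mod_cast h5
      have h8 : ((M + 1 - -M).toNat : ℝ) = 2 * M + 1 := by exact_mod_cast h6
      have h9 : (I.card : ℝ) ≤ F.roots.toFinset.card *
          ((K + 1 - -K).toNat * (M + 1 - -M).toNat) := by exact_mod_cast h3
      rw [h7, h8] at h9
      refine h9.trans (mul_le_mul_of_nonneg_right (by exact_mod_cast h4) ?_)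
      have h10 : (0 : ℝ) ≤ K := by exact_mod_cast hK0
      have h11 : (0 : ℝ) ≤ M := by exact_mod_cast hM0
      positivity
    have hKle : (K : ℝ) ≤ n * L + 1 := Int.floor_le _
    have hMle : (M : ℝ) ≤ 2 * T + 1 := by
      rw [hM]
      push_cast
      have := Int.floor_le (2 * T)
      linarith
    have hlogR : 0 ≤ Real.log R := Real.log_nonneg hR
    have h3 : (2 * (K : ℝ) + 1) ≤ (4 * n + 7) * (1 + Real.log R) := by
      nlinarith
    have h4 : (2 * (M : ℝ) + 1) ≤ 9 * T := by linarith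
    have hM0' : (0 : ℝ) ≤ M := by exact_mod_cast hM0
    calc ((S.image fun x => I.toList.idxOf (ψ x)).card : ℝ) ≤ I.card := h1
      _ ≤ n * ((2 * K + 1) * (2 * M + 1)) := h2
      _ ≤ n * (((4 * n + 7) * (1 + Real.log R)) * (9 * T)) := by
          refine mul_le_mul_of_nonneg_left ?_ (by positivity)
          exact mul_le_mul h3 h4 (by positivity) (by positivity)
      _ = 9 * n * (4 * n + 7) * T * (1 + Real.log R) := by ring
  · intro x hx
    refine ⟨2 ^ k x, by positivity, fun z hz => (hk1 x hx).trans (hmin x z hz), ?_⟩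
    intro x' hx' hφ
    have hmem : ψ x' ∈ I.toList := by
      rw [Finset.mem_toList]
      exact Finset.mem_image_of_mem _ hx'
    have h1 : ψ x' = ψ x := (List.idxOf_inj hmem).1 hφ
    have h2 : θ x' = θ x := congrArg (fun p => p.1) h1
    have h3 : k x' = k x := congrArg (fun p => p.2.1) h1
    have h4 : m x' = m x := congrArg (fun p => p.2.2) h1
    simp only [hm] at h4
    rw [h2, h3] at h4
    have h5 := Int.abs_sub_lt_one_of_floor_eq_floor h4
    have h6 : (0 : ℝ) < 2 ^ k x := by positivity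
    have h7 : ((x' : ℝ) - (θ x).re) * T / 2 ^ k x - ((x : ℝ) - (θ x).re) * T / 2 ^ k x =
        ((x' : ℝ) - x) * T / 2 ^ k x := by ring
    rw [h7, abs_div, abs_mul, abs_of_pos h6, abs_of_pos (show 0 < T by linarith),
      div_lt_one h6] at h5
    exact h5.le

end Pool.TT.Five
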