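import Pool.Agent.Lib.MP_695920_nt.TT.Five.CBoundT
import Pool.Agent.Lib.MP_695920_nt.TT.Five.CLine

set_option autoImplicit false

/-!
TEAM TWOTORSION, version 2 with slices: all integral points on one line (helper16).
-/

open Polynomial NumberField Module Real

namespace Pool.TT.Five

/-- the points of one fibre -/
theorem fibre_card_leT (G : ℤ[X] → Prop) {n : ℕ} (h2 : 2 ≤ n) {τ σ c ε C : ℝ}
    {K : Type} [Field K] [NumberField K] (hK : finrank ℚ K = n) (θ : 𝓞 K)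
    (hcls : ∀ (K : Type) [Field K] [NumberField K], finrank ℚ K = n →
    ∀ (θ : 𝓞 K) (N : ℕ) (P : CPts (Fin N)) (Q : CData P) (r : ℝ),
      G P.f0 → minpoly ℤ θ = P.f0 → P.f0.natDegree = n →
      (∀ z : ℂ, (P.f0.map (Int.castRingHom ℂ)).IsRoot z →
        ‖z‖ ≤ c * |(discr K : ℝ)| ^ ((1 : ℝ) / n)) →
      (∀ i, |(P.x i : ℝ)| ≤ c * |(discr K : ℝ)| ^ ((1 : ℝ) / n)) → 0 < r →
      (∀ z : ℂ, (P.f0.map (Int.castRingHom ℂ)).IsRoot z → r ≤ ‖(P.x Q.c : ℂ) - z‖) →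
      (∀ i, |(P.x i : ℝ) - P.x Q.c| * (C * |(discr K : ℝ)| ^ (τ + ε) *
        (Nat.card {x : ClassGroup (𝓞 K) // x ^ 2 = 1} : ℝ) ^ ε) ≤ r) →
      (N : ℝ) ≤ C * (Nat.card {x : ClassGroup (𝓞 K) // x ^ 2 = 1} : ℝ) ^ σ *
        |(discr K : ℝ)| ^ ε)
    (hG : G (minpoly ℤ θ)) (hθn : (minpoly ℤ θ).natDegree = n)
    (hroots : ∀ z : ℂ, ((minpoly ℤ θ).map (Int.castRingHom ℂ)).IsRoot z →
        ‖z‖ ≤ c * |(discr K : ℝ)| ^ ((1 : ℝ) / n))
    (F : Finset (ℤ × ℤ)) (hF : ∀ p ∈ F, |(p.1 : ℝ)| ≤ c * |(discr K : ℝ)| ^ ((1 : ℝ) / n) ∧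
        0 < p.2 ∧ p.2 ^ 2 = (minpoly ℤ θ).eval p.1)
    {p0 : ℤ × ℤ} (hp0 : p0 ∈ F)
    (hcell : ∀ p ∈ F,
        wpart (2 * p0.2) ((minpoly ℤ θ).derivative.eval p0.1) =
          wpart (2 * p.2) ((minpoly ℤ θ).derivative.eval p.1) ∧
        ((modq θ p0.1 (wpart (2 * p0.2) ((minpoly ℤ θ).derivative.eval p0.1)) : ℕ) : ℤ) ∣
          p.1 - p0.1)
    {r : ℝ} (hr0 : 0 < r)
    (hr : ∀ z : ℂ, ((minpoly ℤ θ).map (Int.castRingHom ℂ)).IsRoot z → r ≤ ‖(p0.1 : ℂ) - z‖)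
    (hclus : ∀ p ∈ F, |(p.1 : ℝ) - p0.1| * (C * |(discr K : ℝ)| ^ (τ + ε) *
        (Nat.card {x : ClassGroup (𝓞 K) // x ^ 2 = 1} : ℝ) ^ ε) ≤ r) :
    (F.card : ℝ) ≤ C * (Nat.card {x : ClassGroup (𝓞 K) // x ^ 2 = 1} : ℝ) ^ σ *
        |(discr K : ℝ)| ^ ε := by
  classical
  have hint : IsIntegral ℤ θ := NumberField.RingOfIntegers.isIntegral θ
  have hinj : Set.InjOn Prod.fst (F : Set (ℤ × ℤ)) :=
    injOn_fst (minpoly ℤ θ) (fun p hp => (hF p hp).2)
  let e := F.equivFin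
  have hmem : ∀ i, ((e.symm i : F) : ℤ × ℤ) ∈ F := fun i => (e.symm i).2
  let P : CPts (Fin F.card) :=
    { f0 := minpoly ℤ θ
      monic := minpoly.monic hint
      irr := minpoly.irreducible hint
      two := by rw [hθn]; exact h2
      x := fun i => ((e.symm i : F) : ℤ × ℤ).1
      y := fun i => ((e.symm i : F) : ℤ × ℤ).2
      inj := fun i j hij => e.symm.injective (Subtype.ext (hinj (hmem i) (hmem j) hij))
      pos := fun i => (hF _ (hmem i)).2.1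
      eq := fun i => (hF _ (hmem i)).2.2 }
  set w : ℕ := wpart (2 * p0.2) ((minpoly ℤ θ).derivative.eval p0.1) with hw
  have hy0 : 0 < p0.2 := (hF p0 hp0).2.1
  have hw0 : w ≠ 0 := wpart_ne_zero _ (by omega)
  let c0 : Fin F.card := e ⟨p0, hp0⟩
  have hec : e.symm c0 = ⟨p0, hp0⟩ := e.symm_apply_apply _
  have hxc : P.x c0 = p0.1 := by
    show ((e.symm c0 : F) : ℤ × ℤ).1 = p0.1
    rw [hec]
  have hyc : P.y c0 = p0.2 := by
    show ((e.symm c0 : F) : ℤ × ℤ).2 = p0.2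
    rw [hec]
  have hwi : ∀ i, w = wpart (2 * P.y i) (P.f0.derivative.eval (P.x i)) :=
    fun i => (hcell _ (hmem i)).1
  have hdw : ∀ i, (w : ℤ) ∣ 2 * P.y i := fun i => by
    rw [hwi i]
    exact wpart_dvd _ _
  have hcop : ∀ i, IsCoprime (2 * P.y i / w) (w * P.f0.derivative.eval (P.x i)) := fun i => by
    have h1 := wpart_coprime (a := 2 * P.y i) (b := P.f0.derivative.eval (P.x i))
      (by have := P.pos i; omega)
    rwa [← hwi i] at h1
  let Q : CData P :=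
    { c := c0
      w := w
      q := modq θ p0.1 w
      w0 := hw0
      q0 := modq_ne_zero θ _ hw0
      dx := fun i => by
        rw [hxc]
        exact (hcell _ (hmem i)).2
      dy := fun i => w_dvd_sub_of_coprime hw0 (hdw i) (hdw c0)
        (IsCoprime.of_mul_right_left (hcop i)) (IsCoprime.of_mul_right_left (hcop c0))
      dE := by
        rw [hxc, hyc]
        refine dE_of_ideal θ hw0 hy0 (hF p0 hp0).2.2 (u := 2 * P.y c0 / w) ?_ ?_
        · rw [Int.mul_ediv_cancel' (hdw c0), hyc]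
        · exact IsCoprime.of_mul_right_left (hcop c0)
      dw := hdw
      cop := hcop
      pd := fun p hp hpw => by
        rw [hxc]
        exact (prime_dvd_of_dvd_wpart hp hpw).2
      pq := fun p hp hpq => prime_dvd_modq θ _ _ hp hpq }
  refine hcls K hK θ F.card P Q r hG rfl hθn hroots (fun i => (hF _ (hmem i)).1) hr0 ?_ ?_
  · show ∀ z : ℂ, ((minpoly ℤ θ).map (Int.castRingHom ℂ)).IsRoot z → r ≤ ‖(P.x c0 : ℂ) - z‖
    rw [hxc]
    exact hr
  · intro i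
    show |(P.x i : ℝ) - P.x c0| * _ ≤ r
    rw [hxc]
    exact hclus _ (hmem i)

theorem pow_auxT {h D τ σ σ' ε e : ℝ} (hh : 1 ≤ h) (hD : 1 ≤ D) (h1 : e ≤ σ' - σ)
    (h2 : e ≤ ε / 4) :
    (h ^ σ * h ^ e) * (D ^ e * D ^ e * D ^ (τ + e) * D ^ e) ≤ h ^ σ' * D ^ (τ + ε) := by
  have hh0 : 0 < h := by linarith
  have hD0 : 0 < D := by linarith
  have e1 : D ^ e * D ^ e * D ^ (τ + e) * D ^ e = D ^ (e + e + (τ + e) + e) := by
    rw [rpow_add hD0 (e + e + (τ + e)) e, rpow_add hD0 (e + e) (τ + e), rpow_add hD0 e e]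
  rw [← rpow_add hh0, e1]
  apply mul_le_mul
  · exact rpow_le_rpow_of_exponent_le hh (by linarith)
  · exact rpow_le_rpow_of_exponent_le hD (by linarith)
  · positivity
  · positivity

theorem total_auxT {n c C1 C2 C3 h D τ σ σ' ε ε1 R B t l p q : ℝ} (hn0 : 0 < n) (hc : 1 ≤ c)
    (hC1 : 0 < C1) (hC2 : 0 < C2) (hC3 : 0 < C3) (hh : 1 ≤ h) (hD : 1 ≤ D) (he1 : 0 < ε1)
    (he1σ : ε1 ≤ σ' - σ) (he1ε : ε1 ≤ ε / 4) (hR : R = c * D ^ (1 / n))
    (hB : B = C1 * h ^ σ * D ^ ε1) (hq0 : 0 ≤ q)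
    (hp : p ≤ C2 * R ^ (n * ε1))
    (hq : q ≤ C3 * (C1 * D ^ (τ + ε1) * h ^ ε1) * (1 + log R)) (hl : l ≤ p * q) (ht : t ≤ B * l) :
    t ≤ C1 * (C2 * c ^ (n * ε1)) * (C3 * C1 * ((1 + 1 / (n * ε1)) * c ^ (n * ε1))) *
      (h ^ σ' * D ^ (τ + ε)) := by
  have hc0 : 0 < c := by linarith
  have hD0 : 0 < D := by linarith
  have hh0 : 0 < h := by linarith
  have hR1 : 1 ≤ R := by
    rw [hR]
    exact one_le_mul_of_one_le_of_one_le hc (one_le_rpow hD (by positivity))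
  have hR0 : 0 < R := by linarith
  have hB0 : 0 ≤ B := by rw [hB]; positivity
  have hRε : R ^ (n * ε1) = c ^ (n * ε1) * D ^ ε1 := by
    rw [hR, mul_rpow hc0.le (by positivity), ← rpow_mul hD0.le]
    congr 2
    field_simp
  have hlog : 1 + log R ≤ (1 + 1 / (n * ε1)) * (c ^ (n * ε1) * D ^ ε1) := by
    have h3 := log_le_rpow_div hR0.le (show 0 < n * ε1 by positivity)
    have h4 : 1 ≤ R ^ (n * ε1) := one_le_rpow hR1 (by positivity)
    rw [← hRε]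
    have h5 : R ^ (n * ε1) / (n * ε1) = 1 / (n * ε1) * R ^ (n * ε1) := by ring
    rw [h5] at h3
    linarith
  have hlogR : 0 ≤ log R := log_nonneg hR1
  calc t ≤ B * l := ht
    _ ≤ B * (p * q) := mul_le_mul_of_nonneg_left hl hB0
    _ ≤ B * ((C2 * R ^ (n * ε1)) * (C3 * (C1 * D ^ (τ + ε1) * h ^ ε1) * (1 + log R))) := by
        apply mul_le_mul_of_nonneg_left _ hB0
        apply mul_le_mul hp hq hq0 (by positivity)
    _ ≤ B * ((C2 * (c ^ (n * ε1) * D ^ ε1)) * (C3 * (C1 * D ^ (τ + ε1) * h ^ ε1) *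
          ((1 + 1 / (n * ε1)) * (c ^ (n * ε1) * D ^ ε1)))) := by
        apply mul_le_mul_of_nonneg_left _ hB0
        rw [hRε]
        apply mul_le_mul_of_nonneg_left _ (by positivity)
        apply mul_le_mul_of_nonneg_left hlog (by positivity)
    _ = C1 * (C2 * c ^ (n * ε1)) * (C3 * C1 * ((1 + 1 / (n * ε1)) * c ^ (n * ε1))) *
          ((h ^ σ * h ^ ε1) * (D ^ ε1 * D ^ ε1 * D ^ (τ + ε1) * D ^ ε1)) := by
        rw [hB]
        ring
    _ ≤ _ := mul_le_mul_of_nonneg_left (pow_auxT hh hD he1σ he1ε) (by positivity)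

/-- from one class to the line: `exists_cells`, `exists_clusters` -/
theorem lineT_of_classBoundT (G : ℤ[X] → Prop) (n : ℕ) (h3 : 3 ≤ n) {τ : ℝ} (hτ : 0 ≤ τ) (σ : ℝ)
    (h : ClassBoundT G n τ σ) : ∀ σ' > σ, LineT G n τ σ' := by
  classical
  intro σ' hσ' c ε hc hε
  set ε1 : ℝ := min (σ' - σ) (ε / 4) with hε1
  have he1 : 0 < ε1 := lt_min (by linarith) (by linarith)
  have he1σ : ε1 ≤ σ' - σ := min_le_left _ _
  have he1ε : ε1 ≤ ε / 4 := min_le_right _ _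
  have hn0 : (0 : ℝ) < n := by have : 0 < n := by omega
                               exact_mod_cast this
  obtain ⟨C1, hC1, hcls⟩ := h c ε1 hc he1
  obtain ⟨C2, hC2, hcell⟩ := exists_cells n h3 (ε := n * ε1) (by positivity)
  obtain ⟨C3, hC3, hclus⟩ := exists_clusters n (by omega)
  have hc0 : 0 < c := by linarith
  have hC10 : 0 < C1 := by linarith
  refine ⟨C1 * (C2 * c ^ (n * ε1)) * (C3 * C1 * ((1 + 1 / (n * ε1)) * c ^ (n * ε1))),
    by positivity, fun K _ _ hK θ hG hθn hroots => ?_⟩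
  set D : ℝ := |(discr K : ℝ)| with hD
  have hD1 : 1 ≤ D := by
    have h1 : (1 : ℤ) ≤ |discr K| := Int.one_le_abs (NumberField.discr_ne_zero K)
    have h2 : ((1 : ℤ) : ℝ) ≤ ((|discr K| : ℤ) : ℝ) := by exact_mod_cast h1
    rw [hD]
    push_cast at h2
    exact h2
  have hD0 : 0 < D := by linarith
  set hh : ℕ := Nat.card {x : ClassGroup (𝓞 K) // x ^ 2 = 1} with hhdef
  have hh1 : 1 ≤ hh := by
    have : Nonempty {x : ClassGroup (𝓞 K) // x ^ 2 = 1} := ⟨⟨1, one_pow 2⟩⟩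
    exact Nat.card_pos
  have hh1' : (1 : ℝ) ≤ hh := by exact_mod_cast hh1
  have hh0 : (0 : ℝ) < hh := by linarith
  set R : ℝ := c * D ^ ((1 : ℝ) / n) with hR
  have hR1 : 1 ≤ R := one_le_mul_of_one_le_of_one_le hc (one_le_rpow hD1 (by positivity))
  have hR0 : 0 < R := by linarith
  set f0 := minpoly ℤ θ with hf0
  have hint : IsIntegral ℤ θ := NumberField.RingOfIntegers.isIntegral θ
  have hmon : f0.Monic := minpoly.monic hint
  set S : Set (ℤ × ℤ) := {p : ℤ × ℤ | |(p.1 : ℝ)| ≤ R ∧ 0 < p.2 ∧ p.2 ^ 2 = f0.eval p.1}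
    with hS
  have hinj : Set.InjOn Prod.fst S := injOn_fst f0 (fun p hp => hp.2)
  have hSfin : S.Finite := by
    apply Set.Finite.of_finite_image (f := Prod.fst) _ hinj
    apply (Set.finite_Icc ⌈-R⌉ ⌊R⌋).subset
    rintro _ ⟨p, ⟨hp, -, -⟩, rfl⟩
    rw [abs_le] at hp
    exact ⟨Int.ceil_le.mpr hp.1, Int.le_floor.mpr hp.2⟩
  set T : Finset (ℤ × ℤ) := hSfin.toFinset with hT
  have hTS : ∀ p ∈ T, p ∈ S := fun p hp => hSfin.mem_toFinset.1 hp
  have hcard : S.ncard = T.card := Set.ncard_eq_toFinset_card S hSfin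
  rw [hcard]
  have hT1 : 1 ≤ C1 * D ^ (τ + ε1) * (hh : ℝ) ^ ε1 :=
    one_le_mul_of_one_le_of_one_le (one_le_mul_of_one_le_of_one_le hC1
      (one_le_rpow hD1 (by linarith))) (one_le_rpow hh1' he1.le)
  obtain ⟨ψ, hψc, hψ⟩ := hcell K hK θ hθn R hR1 hroots T hTS
  obtain ⟨φ, hφc, hφ⟩ := hclus f0 hmon hθn R (C1 * D ^ (τ + ε1) * (hh : ℝ) ^ ε1) hR1 hT1 hroots
    (T.image Prod.fst) (by
      intro x hx
      obtain ⟨p, hp, rfl⟩ := Finset.mem_image.1 hx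
      refine ⟨(hTS p hp).1, ?_⟩
      rw [← (hTS p hp).2.2]
      exact pow_ne_zero 2 (hTS p hp).2.1.ne')
  -- the label
  set lab : ℤ × ℤ → ℕ × ℕ := fun p => (ψ p, φ p.1) with hlab
  set B : ℝ := C1 * (hh : ℝ) ^ σ * D ^ ε1 with hB
  have hB0 : 0 ≤ B := by positivity
  have hfib : ∀ a ∈ T.image lab, (T.filter (fun p => lab p = a)).card ≤ ⌊B⌋₊ := by
    intro a ha
    obtain ⟨p0, hp0, rfl⟩ := Finset.mem_image.1 ha
    apply Nat.le_floor
    obtain ⟨r, hr0, hr, hrφ⟩ := hφ p0.1 (Finset.mem_image_of_mem _ hp0)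
    refine fibre_card_leT G (by omega) hK θ hcls hG hθn hroots _ ?_
      (p0 := p0) (Finset.mem_filter.2 ⟨hp0, rfl⟩) ?_ hr0 hr ?_
    · intro p hp
      exact hTS p (Finset.mem_filter.1 hp).1
    · intro p hp
      obtain ⟨hp1, hp2⟩ := Finset.mem_filter.1 hp
      exact hψ p0 hp0 p hp1 (congrArg Prod.fst hp2).symm
    · intro p hp
      obtain ⟨hp1, hp2⟩ := Finset.mem_filter.1 hp
      exact hrφ p.1 (Finset.mem_image_of_mem _ hp1) (congrArg Prod.snd hp2)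
  have h1 : T.card ≤ ⌊B⌋₊ * (T.image lab).card := Finset.card_le_mul_card_image T _ hfib
  have h2 : (T.image lab).card ≤ (T.image ψ).card * ((T.image Prod.fst).image φ).card := by
    rw [← Finset.card_product]
    apply Finset.card_le_card
    intro a ha
    obtain ⟨p, hp, rfl⟩ := Finset.mem_image.1 ha
    exact Finset.mem_product.2 ⟨Finset.mem_image_of_mem _ hp,
      Finset.mem_image_of_mem _ (Finset.mem_image_of_mem _ hp)⟩
  have h3' : (T.card : ℝ) ≤ B * ((T.image lab).card : ℝ) := by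
    refine le_trans ?_ (mul_le_mul_of_nonneg_right (Nat.floor_le hB0) (Nat.cast_nonneg _))
    exact_mod_cast h1
  have h4' : ((T.image lab).card : ℝ) ≤
      ((T.image ψ).card : ℝ) * (((T.image Prod.fst).image φ).card : ℝ) := by
    exact_mod_cast h2
  exact total_auxT hn0 hc hC10 hC2 hC3 hh1' hD1 he1 he1σ he1ε hR hB (Nat.cast_nonneg _)
    hψc hφc h4' h3'

/-- odd degree -/
theorem lineQT_odd (n : ℕ) (hodd : Odd n) {τ σ : ℝ} (h : LineT OddDeg n τ σ) :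
    LineQT n τ σ := by
  intro c ε hc hε
  obtain ⟨C', hC', h1⟩ := h c ε hc hε
  refine ⟨C', hC', fun K _ _ hK θ _ hθn hroots => h1 K hK θ ?_ hθn hroots⟩
  show Odd _
  rw [hθn]
  exact hodd

/-- even degree: points `(4 x, 2 ^ n y)` on the curve of `4 θ` -/
theorem lineQT_even (n : ℕ) (heven : Even n) {τ σ : ℝ} (h : LineT SqRev n τ σ) :
    LineQT n τ σ := by
  intro c ε hc hε
  obtain ⟨C', hC', h1⟩ := h (4 * c) ε (by linarith) hε
  refine ⟨C', hC', fun K _ _ hK θ _ hθn hroots => ?_⟩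
  set D : ℝ := |(discr K : ℝ)| with hD
  set X : ℝ := D ^ ((1 : ℝ) / n) with hX
  set f0 := minpoly ℤ θ with hf0
  have hint : IsIntegral ℤ θ := NumberField.RingOfIntegers.isIntegral θ
  have hmon : f0.Monic := minpoly.monic hint
  set F : Polynomial ℤ := f0.scaleRoots 4 with hF
  have hFn : F.natDegree = n := by rw [hF, Polynomial.natDegree_scaleRoots, hθn]
  have hη : minpoly ℤ ((4 : ℤ) • θ) = F := IsIntegrallyClosed.minpoly_smul (by norm_num) hint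
  have hrootsF : ∀ z : ℂ, (F.map (Int.castRingHom ℂ)).IsRoot z → ‖z‖ ≤ 4 * c * X := by
    intro z hz
    have h1 : F.map (Int.castRingHom ℂ) = (f0.map (Int.castRingHom ℂ)).scaleRoots 4 := by
      rw [hF, Polynomial.map_scaleRoots _ _ _ (by rw [hmon.leadingCoeff]; simp)]
      simp
    have h2 : (f0.map (Int.castRingHom ℂ)).IsRoot (z / 4) := by
      have h3 : z = 4 * (z / 4) := by ring
      rw [Polynomial.IsRoot.def, h1, h3, Polynomial.scaleRoots_eval_mul] at hz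
      rcases mul_eq_zero.1 hz with h4 | h4
      · exact absurd h4 (pow_ne_zero _ (by norm_num))
      · exact h4
    have h3 := hroots _ h2
    rw [norm_div] at h3
    norm_num at h3
    linarith
  have h2 := h1 K hK ((4 : ℤ) • θ) (by
    rw [hη]
    exact Pool.TTE.exists_root f0 hmon (by rw [hθn]; exact heven)) (by rw [hη, hFn]) (by
    rw [hη]
    exact hrootsF)
  rw [hη] at h2
  refine le_trans ?_ h2
  set S' : Set (ℤ × ℤ) := {p : ℤ × ℤ | |(p.1 : ℝ)| ≤ 4 * c * X ∧ 0 < p.2 ∧ p.2 ^ 2 = F.eval p.1}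
    with hS'
  have hinj : Set.InjOn Prod.fst S' := injOn_fst F (fun p hp => hp.2)
  have hSfin : S'.Finite := by
    apply Set.Finite.of_finite_image (f := Prod.fst) _ hinj
    apply (Set.finite_Icc ⌈-(4 * c * X)⌉ ⌊4 * c * X⌋).subset
    rintro _ ⟨p, ⟨hp, -, -⟩, rfl⟩
    rw [abs_le] at hp
    exact ⟨Int.ceil_le.mpr hp.1, Int.le_floor.mpr hp.2⟩
  have h3 : Set.ncard {p : ℤ × ℤ | |(p.1 : ℝ)| ≤ c * X ∧ 0 < p.2 ∧ p.2 ^ 2 = f0.eval p.1} ≤
      S'.ncard := by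
    refine Set.ncard_le_ncard_of_injOn (fun p : ℤ × ℤ => (4 * p.1, 2 ^ n * p.2)) ?_ ?_ hSfin
    · rintro ⟨x, y⟩ ⟨hx, hy0, hy⟩
      refine ⟨?_, mul_pos (by positivity) hy0, (Pool.TTE.line_scale f0 hθn x y hy0 hy).1⟩
      push_cast
      rw [abs_mul, abs_of_pos (by norm_num : (0 : ℝ) < 4), mul_assoc]
      exact mul_le_mul_of_nonneg_left hx (by norm_num)
    · rintro ⟨x, y⟩ - ⟨x', y'⟩ - hxy
      simp only [Prod.mk.injEq] at hxy
      obtain ⟨h4, h5⟩ := hxy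
      have h6 : y = y' := mul_left_cancel₀ (pow_ne_zero n (by norm_num : (2 : ℤ) ≠ 0)) h5
      have h7 : x = x' := by omega
      rw [h6, h7]
  exact_mod_cast h3

end Pool.TT.Five
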