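import Pool.Agent.Lib.MP_695920_nt.TT.Five.CCls
import Pool.Agent.Lib.MP_695920_nt.TT.Five.QSize

set_option autoImplicit false

/-!
TEAM TWOTORSION, version 2: the size of the diagonal of the height pairing, any degree
(helper16).
-/

open Polynomial

namespace Pool.TT.Five

namespace CData

variable {ι : Type*} {P : CPts ι} (Q : CData P)

/-- `n ρ ≤ log (2 y / w)` -/
theorem rho_le {r : ℝ} (hr0 : 0 < r)
    (hr : ∀ s : ℂ, (P.f0.map (Int.castRingHom ℂ)).IsRoot s → r ≤ ‖(P.x Q.c : ℂ) - s‖) (i : ι)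
    (hx : |(P.x i : ℝ) - P.x Q.c| ≤ r / 4) :
    (P.f0.natDegree : ℝ) * (1 / 2 * Real.log (r / (2 * Q.q))) ≤
      Real.log (2 * P.y i / Q.w) := by
  have hq : (0 : ℝ) < (Q.q : ℝ) := by exact_mod_cast Nat.pos_of_ne_zero Q.q0
  have hw : (0 : ℝ) < (Q.w : ℝ) := by exact_mod_cast Nat.pos_of_ne_zero Q.w0
  have hy : (0 : ℝ) < (P.y i : ℝ) := by exact_mod_cast P.pos i
  set n := P.f0.natDegree with hn
  have h1 : (3 / 4 * r) ^ n ≤ (P.y i : ℝ) ^ 2 := by
    have h2 := pow_le_eval P.f0 P.monic (P.x i) (s := 3 / 4 * r) (by positivity) (by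
      intro z hz
      have h3 := hr z hz
      have h4 : ‖((P.x i : ℂ) - P.x Q.c)‖ ≤ r / 4 := by
        have : ((P.x i : ℂ) - P.x Q.c) = (((P.x i : ℝ) - P.x Q.c : ℝ) : ℂ) := by push_cast; ring
        rw [this, Complex.norm_real]
        exact hx
      have h5 : ((P.x Q.c : ℂ) - z) = ((P.x i : ℂ) - z) - ((P.x i : ℂ) - P.x Q.c) := by ring
      have h6 := norm_sub_le ((P.x i : ℂ) - z) ((P.x i : ℂ) - P.x Q.c)
      rw [← h5] at h6
      linarith)
    rw [← P.eq i] at h2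
    push_cast at h2
    rw [abs_of_nonneg (by positivity)] at h2
    exact h2
  have h2 : (Q.w : ℝ) ^ 2 ≤ (Q.q : ℝ) ^ n := by exact_mod_cast Q.w_sq_le
  have h3 : (r / (2 * Q.q)) ^ n ≤ (2 * P.y i / Q.w) ^ 2 := by
    rw [div_pow, div_pow, div_le_div_iff₀ (by positivity) (by positivity)]
    have h4 : r ^ n * 1 ≤ (3 / 4 * r) ^ n * 2 ^ n := by
      rw [← mul_pow]
      calc r ^ n * 1 ≤ r ^ n * (3 / 2) ^ n :=
            mul_le_mul_of_nonneg_left (one_le_pow₀ (by norm_num)) (by positivity)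
        _ = (3 / 4 * r * 2) ^ n := by rw [← mul_pow]; congr 1; ring
    calc r ^ n * (Q.w : ℝ) ^ 2 ≤ r ^ n * (Q.q : ℝ) ^ n :=
          mul_le_mul_of_nonneg_left h2 (by positivity)
      _ ≤ ((3 / 4 * r) ^ n * 2 ^ n) * (Q.q : ℝ) ^ n :=
          mul_le_mul_of_nonneg_right (by linarith) (by positivity)
      _ ≤ ((P.y i : ℝ) ^ 2 * 2 ^ n) * (Q.q : ℝ) ^ n := by gcongr
      _ ≤ (2 * P.y i) ^ 2 * (2 * Q.q) ^ n := by
          rw [mul_pow, mul_pow]
          have : 0 ≤ (P.y i : ℝ) ^ 2 * 2 ^ n * (Q.q : ℝ) ^ n := by positivity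
          nlinarith
  have h4 : Real.log ((r / (2 * Q.q)) ^ n) ≤ Real.log ((2 * P.y i / Q.w) ^ 2) :=
    Real.log_le_log (by positivity) h3
  rw [Real.log_pow, Real.log_pow] at h4
  push_cast at h4
  linarith

end CData

end Pool.TT.Five
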