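import Pool.Agent.Lib.MP_695920_nt.TT.Pts

set_option autoImplicit false

/-!
TEAM TWOTORSION, `n = 5`: a class of good integral points and its model over `ℤ`.
-/

open Polynomial

namespace Pool.TT.Five

/-- A class of integral points: all abscissas are congruent modulo `w ^ 3`, all ordinates are
congruent modulo `w ^ 2`, and `w` is the part of `2 y` at the primes which divide `f'(x)`. -/
structure ClassData {ι : Type*} (P : Pts ι) where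
  /-- the centre -/
  c : ι
  w : ℕ
  w0 : w ≠ 0
  dx : ∀ i, (w : ℤ) ^ 3 ∣ P.x i - P.x c
  dy : ∀ i, (w : ℤ) ^ 2 ∣ P.y i - P.y c
  dw : ∀ i, (w : ℤ) ∣ 2 * P.y i
  cop : ∀ i, IsCoprime (2 * P.y i / w) (w * P.f0.derivative.eval (P.x i))
  pd : ∀ p : ℕ, p.Prime → p ∣ w → (p : ℤ) ∣ P.f0.derivative.eval (P.x c)

namespace ClassData

variable {ι : Type*} {P : Pts ι} (Q : ClassData P)

theorem wz : (Q.w : ℤ) ≠ 0 := by exact_mod_cast Q.w0

theorem wpos : (0 : ℤ) < Q.w := by exact_mod_cast Nat.pos_of_ne_zero Q.w0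

/-- the coordinate `t` -/
def t (i : ι) : ℤ := (P.x i - P.x Q.c) / (Q.w : ℤ) ^ 3

/-- the coordinate `z` -/
def z (i : ι) : ℤ := (P.y i - P.y Q.c) / (Q.w : ℤ)

/-- the coefficient of `z` -/
def h : ℤ := 2 * P.y Q.c / (Q.w : ℤ)

/-- the right-hand side -/
noncomputable def E : ℤ[X] :=
  C (Q.w : ℤ) * (X * ((taylor (P.x Q.c) P.f0).divX.comp (C ((Q.w : ℤ) ^ 3) * X)))

theorem w_t (i : ι) : (Q.w : ℤ) ^ 3 * Q.t i = P.x i - P.x Q.c := Int.mul_ediv_cancel' (Q.dx i)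

theorem w_z (i : ι) : (Q.w : ℤ) * Q.z i = P.y i - P.y Q.c :=
  Int.mul_ediv_cancel' (dvd_trans (dvd_pow_self _ two_ne_zero) (Q.dy i))

theorem w_h : (Q.w : ℤ) * Q.h = 2 * P.y Q.c := Int.mul_ediv_cancel' (Q.dw Q.c)

theorem x_eq (i : ι) : P.x i = (Q.w : ℤ) ^ 3 * Q.t i + P.x Q.c := by
  rw [Q.w_t]; ring

theorem t_c : Q.t Q.c = 0 := by simp [t]

theorem z_c : Q.z Q.c = 0 := by simp [z]

/-- the numbers `z i` are divisible by `w` -/
theorem w_dvd_z (i : ι) : (Q.w : ℤ) ∣ Q.z i := by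
  obtain ⟨k, hk⟩ := Q.dy i
  refine ⟨k, mul_left_cancel₀ Q.wz ?_⟩
  rw [Q.w_z, hk]
  ring

theorem t_inj : Function.Injective Q.t := by
  intro i j hij
  apply P.inj
  rw [Q.x_eq i, Q.x_eq j, hij]

/-- `w ^ 2 E(t) = f(x_c + w ^ 3 t) - f(x_c)` -/
theorem E_spec : C ((Q.w : ℤ) ^ 2) * Q.E + C (P.y Q.c ^ 2) =
    P.f0.comp (C ((Q.w : ℤ) ^ 3) * X + C (P.x Q.c)) := by
  have h1 : P.f0.comp (C ((Q.w : ℤ) ^ 3) * X + C (P.x Q.c)) =
      (taylor (P.x Q.c) P.f0).comp (C ((Q.w : ℤ) ^ 3) * X) := by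
    rw [taylor_apply, comp_assoc]
    simp
  have h2 : (taylor (P.x Q.c) P.f0).coeff 0 = P.y Q.c ^ 2 := by
    rw [taylor_coeff_zero, P.eq]
  rw [h1]
  conv_rhs => rw [← divX_mul_X_add (taylor (P.x Q.c) P.f0)]
  rw [add_comp, mul_comp, X_comp, C_comp, h2, E]
  congr 1
  simp only [C_pow]
  ring

theorem E_eval (a : ℤ) : (Q.w : ℤ) ^ 2 * Q.E.eval a + P.y Q.c ^ 2 =
    P.f0.eval ((Q.w : ℤ) ^ 3 * a + P.x Q.c) := by
  have h1 := congrArg (Polynomial.eval a) Q.E_spec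
  simpa [eval_comp] using h1

/-- the equation of the curve -/
theorem eq (i : ι) : Q.z i ^ 2 + Q.h * Q.z i = Q.E.eval (Q.t i) := by
  have h1 := Q.E_eval (Q.t i)
  rw [← Q.x_eq i, ← P.eq i] at h1
  have h2 : (Q.w : ℤ) ^ 2 * (Q.z i ^ 2 + Q.h * Q.z i) = (Q.w : ℤ) ^ 2 * Q.E.eval (Q.t i) := by
    have h3 := Q.w_z i
    have h4 := Q.w_h
    calc (Q.w : ℤ) ^ 2 * (Q.z i ^ 2 + Q.h * Q.z i) =
          ((Q.w : ℤ) * Q.z i) ^ 2 + ((Q.w : ℤ) * Q.h) * ((Q.w : ℤ) * Q.z i) := by ring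
      _ = (P.y i - P.y Q.c) ^ 2 + 2 * P.y Q.c * (P.y i - P.y Q.c) := by rw [h3, h4]
      _ = P.y i ^ 2 - P.y Q.c ^ 2 := by ring
      _ = _ := by rw [← h1]; ring
  exact mul_left_cancel₀ (pow_ne_zero 2 Q.wz) h2

theorem E_zero : Q.E.eval 0 = 0 := by simp [E]

/-- every coefficient of `E` is divisible by `w` -/
theorem w_dvd_coeff (k : ℕ) : (Q.w : ℤ) ∣ Q.E.coeff k := by
  rw [E, coeff_C_mul]
  exact dvd_mul_right _ _

/-- `2 z + h = 2 y / w` -/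
theorem w_two_z (i : ι) : (Q.w : ℤ) * (2 * Q.z i + Q.h) = 2 * P.y i := by
  have h3 := Q.w_z i
  have h4 := Q.w_h
  calc (Q.w : ℤ) * (2 * Q.z i + Q.h) = 2 * ((Q.w : ℤ) * Q.z i) + (Q.w : ℤ) * Q.h := by ring
    _ = _ := by rw [h3, h4]; ring

theorem two_z (i : ι) : 2 * Q.z i + Q.h = 2 * P.y i / (Q.w : ℤ) := by
  rw [← Q.w_two_z i, Int.mul_ediv_cancel_left _ Q.wz]

theorem two_z_pos (i : ι) : 0 < 2 * Q.z i + Q.h := by
  have h1 := Q.w_two_z i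
  have h2 := P.pos i
  by_contra h3
  have h4 := mul_nonneg Q.wpos.le (neg_nonneg.2 (not_lt.1 h3))
  rw [mul_neg, h1] at h4
  omega

theorem E_deriv (a : ℤ) : Q.E.derivative.eval a =
    (Q.w : ℤ) * P.f0.derivative.eval ((Q.w : ℤ) ^ 3 * a + P.x Q.c) := by
  have h1 := congrArg (fun p => Polynomial.eval a (derivative p)) Q.E_spec
  simp only [derivative_add, derivative_C_mul, derivative_C, add_zero, derivative_comp,
    derivative_X, mul_one, eval_mul, eval_C, eval_comp, eval_add, eval_X] at h1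
  apply mul_left_cancel₀ (pow_ne_zero 2 Q.wz)
  rw [h1]
  ring

theorem E_deriv_t (i : ι) : Q.E.derivative.eval (Q.t i) =
    (Q.w : ℤ) * P.f0.derivative.eval (P.x i) := by
  rw [Q.E_deriv, ← Q.x_eq]

/-- the points are smooth modulo every prime -/
theorem smooth (i : ι) : IsCoprime (2 * Q.z i + Q.h) (Q.E.derivative.eval (Q.t i)) := by
  rw [Q.two_z, Q.E_deriv_t]
  exact Q.cop i

theorem cop_w (i : ι) : IsCoprime (2 * Q.z i + Q.h) (Q.w : ℤ) := by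
  rw [Q.two_z]
  exact IsCoprime.of_mul_right_left (Q.cop i)

theorem h_cop_w : IsCoprime Q.h (Q.w : ℤ) := by
  have h1 := Q.cop_w Q.c
  rwa [Q.z_c, mul_zero, zero_add] at h1

/-- `4 E + h ^ 2` and `f` -/
theorem four_E : C ((Q.w : ℤ) ^ 2) * (C 4 * Q.E + C (Q.h ^ 2)) =
    C 4 * P.f0.comp (C ((Q.w : ℤ) ^ 3) * X + C (P.x Q.c)) := by
  rw [← Q.E_spec]
  have h1 : C ((Q.w : ℤ) ^ 2) * C (Q.h ^ 2) = C 4 * C (P.y Q.c ^ 2) := by
    rw [← C_mul, ← C_mul, ← mul_pow, Q.w_h]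
    congr 1
    ring
  linear_combination h1

theorem E_natDegree : Q.E.natDegree = P.f0.natDegree := by
  have h3 := P.three
  have hw3 : ((Q.w : ℤ) ^ 3) ≠ 0 := pow_ne_zero 3 Q.wz
  have h1 : (C ((Q.w : ℤ) ^ 3) * X + C (P.x Q.c) : ℤ[X]).natDegree = 1 := by
    exact natDegree_linear hw3
  have h2 : (P.f0.comp (C ((Q.w : ℤ) ^ 3) * X + C (P.x Q.c))).natDegree = P.f0.natDegree := by
    rw [natDegree_comp, h1, mul_one]
  rw [← Q.E_spec, natDegree_add_C, natDegree_C_mul (pow_ne_zero 2 Q.wz)] at h2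
  exact h2

theorem E_leadingCoeff : (Q.w : ℤ) ^ 2 * Q.E.leadingCoeff = (Q.w : ℤ) ^ (3 * P.f0.natDegree) := by
  have h3 := P.three
  have hw3 : ((Q.w : ℤ) ^ 3) ≠ 0 := pow_ne_zero 3 Q.wz
  have h1 : (C ((Q.w : ℤ) ^ 3) * X + C (P.x Q.c) : ℤ[X]).natDegree = 1 := natDegree_linear hw3
  have h2 : (P.f0.comp (C ((Q.w : ℤ) ^ 3) * X + C (P.x Q.c))).leadingCoeff =
      (Q.w : ℤ) ^ (3 * P.f0.natDegree) := by
    rw [leadingCoeff_comp (by rw [h1]; norm_num), P.monic.leadingCoeff, one_mul,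
      leadingCoeff_linear hw3, ← pow_mul]
  have h4 : (C ((Q.w : ℤ) ^ 2) * Q.E + C (P.y Q.c ^ 2)).leadingCoeff =
      (Q.w : ℤ) ^ 2 * Q.E.leadingCoeff := by
    have h5 : 0 < Q.E.natDegree := by rw [Q.E_natDegree]; omega
    rw [leadingCoeff, natDegree_add_C, natDegree_C_mul (pow_ne_zero 2 Q.wz), coeff_add,
      coeff_C_mul, coeff_C, if_neg h5.ne', add_zero]
    rfl
  rw [← h4, Q.E_spec, h2]

theorem E_odd : Odd Q.E.natDegree := by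
  rw [Q.E_natDegree]
  exact P.odd

/-- roots of `4 E + h ^ 2` in `ℂ` come from roots of `f` -/
theorem root_of_root (a : ℂ) (ha : 4 * (Q.E.map (Int.castRingHom ℂ)).eval a + (Q.h : ℂ) ^ 2 = 0) :
    (P.f0.map (Int.castRingHom ℂ)).IsRoot ((Q.w : ℂ) ^ 3 * a + P.x Q.c) := by
  have h1 := congrArg (fun p => Polynomial.eval a (p.map (Int.castRingHom ℂ))) Q.four_E
  simp only [Polynomial.map_mul, Polynomial.map_add, Polynomial.map_comp, Polynomial.map_C,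
    Polynomial.map_X, eval_mul, eval_add, eval_C, eval_comp, eval_X] at h1
  simp only [eq_intCast, Int.cast_pow, Int.cast_natCast, Int.cast_ofNat] at h1
  rw [ha, mul_zero] at h1
  have h2 := (mul_eq_zero.1 h1.symm).resolve_left (by norm_num)
  exact h2

/-- there are no roots of `4 E + h ^ 2` in a disc -/
theorem no_root {r : ℝ} (hr : ∀ s : ℂ, (P.f0.map (Int.castRingHom ℂ)).IsRoot s →
    r ≤ ‖(P.x Q.c : ℂ) - s‖) (a : ℂ) (ha : ‖a‖ < r / (Q.w : ℝ) ^ 3) :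
    4 * (Q.E.map (Int.castRingHom ℂ)).eval a + (Q.h : ℂ) ^ 2 ≠ 0 := by
  intro h0
  have h1 := hr _ (Q.root_of_root a h0)
  have hw : (0 : ℝ) < (Q.w : ℝ) ^ 3 := by
    have := Nat.pos_of_ne_zero Q.w0
    positivity
  rw [lt_div_iff₀ hw] at ha
  have h2 : ‖(P.x Q.c : ℂ) - ((Q.w : ℂ) ^ 3 * a + P.x Q.c)‖ = ‖a‖ * (Q.w : ℝ) ^ 3 := by
    have : (P.x Q.c : ℂ) - ((Q.w : ℂ) ^ 3 * a + P.x Q.c) = -((Q.w : ℂ) ^ 3 * a) := by ring
    rw [this, norm_neg, norm_mul, norm_pow, Complex.norm_natCast, mul_comm]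
  rw [h2] at h1
  linarith

/-- the points are close to the centre -/
theorem t_le {ρ : ℝ} (i : ι) (hx : |(P.x i : ℝ) - P.x Q.c| ≤ ρ) :
    |(Q.t i : ℝ)| ≤ ρ / (Q.w : ℝ) ^ 3 := by
  have hw : (0 : ℝ) < (Q.w : ℝ) ^ 3 := by
    have := Nat.pos_of_ne_zero Q.w0
    positivity
  rw [le_div_iff₀ hw]
  have h1 : ((Q.w : ℝ) ^ 3) * (Q.t i : ℝ) = P.x i - P.x Q.c := by exact_mod_cast Q.w_t i
  calc |(Q.t i : ℝ)| * (Q.w : ℝ) ^ 3 = |((Q.w : ℝ) ^ 3) * (Q.t i : ℝ)| := by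
        rw [abs_mul, abs_of_pos hw, mul_comm]
    _ ≤ ρ := by rw [h1]; exact hx

end ClassData

end Pool.TT.Five
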