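import Pool.Agent.Lib.MP_695920_nt.TT.Five.Fischer

/-! # A bound for spherical codes by one Cauchy-Schwarz inequality

For unit vectors `u i` in dimension `d` the sums `S k = ∑ ⟨u i, u j⟩ ^ (2 k)` satisfy
`(2 k + 1) S k ≤ (d + 2 k) S (k + 1)`. -/

open MvPolynomial Finset

namespace Pool.TT.Five

set_option linter.unusedSectionVars false

variable {σ : Type*} [Fintype σ] [DecidableEq σ] {ι : Type*} [Fintype ι]

/-- The power sums of the scalar products. -/
def psum (u : ι → σ → ℝ) (k : ℕ) : ℝ := ∑ i, ∑ j, dot (u i) (u j) ^ k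

/-- The sum of the powers of the linear forms. -/
noncomputable def pol (u : ι → σ → ℝ) (k : ℕ) : MvPolynomial σ ℝ := ∑ i, lin (u i) ^ k

theorem fis_pol (u : ι → σ → ℝ) (k : ℕ) :
    fis (pol u k) (pol u k) = (k.factorial : ℝ) * psum u k := by
  unfold pol psum
  rw [fis_sum_left, Finset.mul_sum]
  refine Finset.sum_congr rfl fun i _ => ?_
  rw [fis_sum_right, Finset.mul_sum]
  exact Finset.sum_congr rfl fun j _ => fis_pow _ _ _

theorem lap_pol (u : ι → σ → ℝ) (hu : ∀ i, dot (u i) (u i) = 1) (k : ℕ) :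
    lap (pol u (k + 2)) = (((k : ℝ) + 2) * ((k : ℝ) + 1)) • pol u k := by
  unfold pol
  rw [lap_sum, Finset.smul_sum]
  exact Finset.sum_congr rfl fun i _ => lap_pow _ (hu i) k

theorem fis_rad_pol (u : ι → σ → ℝ) (hu : ∀ i, dot (u i) (u i) = 1) (k : ℕ) :
    fis (rad * pol u k) (pol u (k + 2)) = ((k + 2).factorial : ℝ) * psum u k := by
  rw [fis_rad_mul, lap_pol u hu, fis_smul_right, fis_pol, Nat.factorial_succ,
    Nat.factorial_succ]
  push_cast
  ring

theorem fis_rad_pol_self (u : ι → σ → ℝ) (hu : ∀ i, dot (u i) (u i) = 1) (k : ℕ) :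
    fis (rad * pol u (k + 2)) (rad * pol u (k + 2)) =
      ((k + 2).factorial : ℝ) * ((2 * Fintype.card σ + 4 * ((k : ℝ) + 2)) * psum u (k + 2) +
        ((k : ℝ) + 2) * ((k : ℝ) + 1) * psum u k) := by
  have h1 : ∑ a, X a * pderiv a (pol u (k + 2)) = ((k : ℝ) + 2) • pol u (k + 2) := by
    unfold pol
    have h2 : ∀ a, (X a * pderiv a (∑ i, lin (u i) ^ (k + 2)) : MvPolynomial σ ℝ) =
        ∑ i, X a * pderiv a (lin (u i) ^ (k + 2)) := by
      intro a
      rw [map_sum, Finset.mul_sum]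
    rw [Finset.sum_congr rfl fun a _ => h2 a, Finset.sum_comm, Finset.smul_sum]
    refine Finset.sum_congr rfl fun i _ => ?_
    rw [euler_pow]
    push_cast
    rfl
  have h3 : fis (pol u (k + 2)) (rad * pol u k) = ((k + 2).factorial : ℝ) * psum u k := by
    rw [fis_symm, fis_rad_pol u hu]
  rw [fis_rad_mul, lap_rad_mul, h1, lap_pol u hu, fis_add_right, fis_add_right, fis_smul_right,
    fis_smul_right, fis_smul_right, fis_pol, mul_smul_comm, fis_smul_right, h3]
  push_cast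
  ring

theorem fis_rad_pol_zero (u : ι → σ → ℝ) :
    fis (rad * pol u 0) (rad * pol u 0) = 2 * Fintype.card σ * psum u 0 := by
  have h1 : pol u 0 = C (Fintype.card ι : ℝ) := by
    unfold pol
    simp
  have h2 : lap (pol u 0) = 0 := by
    rw [h1]
    unfold lap
    simp
  rw [fis_rad_mul, lap_rad_mul, h2, mul_zero, add_zero, fis_add_right, fis_smul_right, fis_pol]
  have h3 : ∑ a, X a * pderiv a (pol u 0) = 0 := by
    rw [h1]
    simp
  rw [h3, fis_smul_right, fis_symm, fis_zero_left]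
  push_cast
  simp

theorem psum_even_pos (u : ι → σ → ℝ) (hu : ∀ i, dot (u i) (u i) = 1) [Nonempty ι] (j : ℕ) :
    0 < psum u (2 * j) := by
  unfold psum
  refine Finset.sum_pos' (fun i _ => Finset.sum_nonneg fun j' _ => ?_) ?_
  · rw [pow_mul]
    positivity
  · obtain ⟨i⟩ := ‹Nonempty ι›
    refine ⟨i, Finset.mem_univ i, ?_⟩
    refine Finset.sum_pos' (fun j' _ => ?_) ⟨i, Finset.mem_univ i, ?_⟩
    · rw [pow_mul]
      positivity
    · rw [hu i, one_pow]
      exact one_pos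

/-- The ratio inequality. -/
theorem psum_ratio (u : ι → σ → ℝ) (hu : ∀ i, dot (u i) (u i) = 1) (j : ℕ) :
    (2 * (j : ℝ) + 1) * psum u (2 * j) ≤ (Fintype.card σ + 2 * (j : ℝ)) * psum u (2 * (j + 1)) := by
  rcases isEmpty_or_nonempty ι with hι | hι
  · unfold psum
    simp
  induction j with
  | zero =>
    have h1 := fis_sq_le (rad * pol u 0) (pol u (0 + 2))
    rw [fis_rad_pol u hu, fis_rad_pol_zero, fis_pol] at h1
    have h0 := psum_even_pos u hu 0
    simp only [mul_zero, zero_add, Nat.factorial] at h0 h1 ⊢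
    norm_num at h1 ⊢
    have h2 : psum u 0 * psum u 0 ≤ psum u 0 * (Fintype.card σ * psum u 2) := by nlinarith
    exact le_of_mul_le_mul_left h2 h0
  | succ j ih =>
    set k := 2 * j with hk
    have e1 : 2 * (j + 1) = k + 2 := by omega
    have e2 : 2 * (j + 1 + 1) = k + 2 + 2 := by omega
    rw [e1] at ih ⊢
    rw [e2]
    have h1 := fis_sq_le (rad * pol u (k + 2)) (pol u (k + 2 + 2))
    rw [fis_rad_pol u hu, fis_rad_pol_self u hu, fis_pol] at h1
    have hp1 : 0 < psum u (k + 2) := by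
      have := psum_even_pos u hu (j + 1)
      rwa [e1] at this
    have hp2 : 0 < psum u (k + 2 + 2) := by
      have := psum_even_pos u hu (j + 1 + 1)
      rwa [e2] at this
    have hkr : (k : ℝ) = 2 * (j : ℝ) := by rw [hk]; push_cast; ring
    have hf : ((k + 2 + 2).factorial : ℝ) =
        ((k : ℝ) + 4) * ((k : ℝ) + 3) * ((k + 2).factorial : ℝ) := by
      rw [Nat.factorial_succ, Nat.factorial_succ]
      push_cast
      ring
    have hfp : (0 : ℝ) < ((k + 2).factorial : ℝ) := by exact_mod_cast Nat.factorial_pos _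
    rw [hf] at h1
    set a := psum u (k + 2) with ha
    set b := psum u (k + 2 + 2) with hb
    set c := psum u k with hc
    set F := ((k + 2).factorial : ℝ) with hF
    set d : ℝ := (Fintype.card σ : ℝ) with hd
    -- cancel the factorials
    have h2 : ((k : ℝ) + 4) * ((k : ℝ) + 3) * a ^ 2 ≤
        ((2 * d + 4 * ((k : ℝ) + 2)) * a + ((k : ℝ) + 2) * ((k : ℝ) + 1) * c) * b := by
      have h3 : (((k : ℝ) + 4) * ((k : ℝ) + 3) * F ^ 2) *
          (((k : ℝ) + 4) * ((k : ℝ) + 3) * a ^ 2) ≤ (((k : ℝ) + 4) * ((k : ℝ) + 3) * F ^ 2) *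
          (((2 * d + 4 * ((k : ℝ) + 2)) * a + ((k : ℝ) + 2) * ((k : ℝ) + 1) * c) * b) := by
        nlinarith [h1]
      have h4 : 0 < ((k : ℝ) + 4) * ((k : ℝ) + 3) * F ^ 2 := by positivity
      exact le_of_mul_le_mul_left h3 h4
    have h5 : ((k : ℝ) + 2) * ((k : ℝ) + 1) * c ≤ ((k : ℝ) + 2) * ((d + (k : ℝ)) * a) := by
      have h6 : ((k : ℝ) + 1) * c ≤ (d + (k : ℝ)) * a := by
        rw [hkr]
        exact ih
      have h7 : (0 : ℝ) ≤ (k : ℝ) + 2 := by positivity
      nlinarith [mul_le_mul_of_nonneg_left h6 h7]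
    have h8 : ((k : ℝ) + 4) * ((k : ℝ) + 3) * a ^ 2 ≤
        (((k : ℝ) + 4) * (d + (k : ℝ) + 2) * a) * b := by
      refine h2.trans (mul_le_mul_of_nonneg_right ?_ hp2.le)
      nlinarith [h5]
    have h9 : (((k : ℝ) + 4) * a) * (((k : ℝ) + 3) * a) ≤
        (((k : ℝ) + 4) * a) * ((d + (k : ℝ) + 2) * b) := by nlinarith [h8]
    have h10 : 0 < ((k : ℝ) + 4) * a := by positivity
    have h11 := le_of_mul_le_mul_left h9 h10
    push_cast
    rw [hkr] at h11
    linarith

/-- Lower bound for the power sums. -/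
theorem psum_ge (u : ι → σ → ℝ) (hu : ∀ i, dot (u i) (u i) = 1) (hd : 0 < Fintype.card σ)
    (j : ℕ) : (Fintype.card ι : ℝ) ^ 2 *
      ∏ i ∈ Finset.range j, (2 * (i : ℝ) + 1) / (Fintype.card σ + 2 * (i : ℝ)) ≤
        psum u (2 * j) := by
  induction j with
  | zero =>
    unfold psum
    simp [pow_two]
  | succ j ih =>
    have hd' : (0 : ℝ) < Fintype.card σ := by exact_mod_cast hd
    have h1 := psum_ratio u hu j
    have h2 : 0 < (Fintype.card σ : ℝ) + 2 * (j : ℝ) := by positivity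
    rw [Finset.prod_range_succ, ← mul_assoc]
    calc (Fintype.card ι : ℝ) ^ 2 *
          (∏ i ∈ Finset.range j, (2 * (i : ℝ) + 1) / (Fintype.card σ + 2 * (i : ℝ))) *
          ((2 * (j : ℝ) + 1) / (Fintype.card σ + 2 * (j : ℝ)))
        ≤ psum u (2 * j) * ((2 * (j : ℝ) + 1) / (Fintype.card σ + 2 * (j : ℝ))) :=
          mul_le_mul_of_nonneg_right ih (by positivity)
      _ ≤ psum u (2 * (j + 1)) := by
          rw [mul_div_assoc', div_le_iff₀ h2]
          linarith

/-- The code bound. -/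
theorem code_bound (u : ι → σ → ℝ) (hu : ∀ i, dot (u i) (u i) = 1) {c : ℝ}
    (hc : ∀ i j, i ≠ j → dot (u i) (u j) ^ 2 ≤ c ^ 2) (hc1 : c ^ 2 ≤ 1) (j : ℕ)
    (hj : c ^ 2 < (2 * (j : ℝ) + 1) / (Fintype.card σ + 2 * (j : ℝ))) :
    (Fintype.card ι : ℝ) *
      (((2 * (j : ℝ) + 1) / (Fintype.card σ + 2 * (j : ℝ)) - c ^ 2) *
        ∏ i ∈ Finset.range j, (2 * (i : ℝ) + 1) / (Fintype.card σ + 2 * (i : ℝ))) ≤
      1 - c ^ 2 := by
  classical
  rcases isEmpty_or_nonempty ι with hι | hι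
  · simp only [Fintype.card_eq_zero, Nat.cast_zero, zero_mul]
    linarith
  have hN : (0 : ℝ) < Fintype.card ι := by exact_mod_cast Fintype.card_pos
  have hd : 0 < Fintype.card σ := by
    by_contra h
    have h0 : IsEmpty σ := Fintype.card_eq_zero_iff.1 (by omega)
    obtain ⟨i⟩ := hι
    have := hu i
    unfold dot at this
    simp at this
  have hd' : (0 : ℝ) < Fintype.card σ := by exact_mod_cast hd
  set r : ℝ := (2 * (j : ℝ) + 1) / (Fintype.card σ + 2 * (j : ℝ)) with hr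
  set P : ℝ := ∏ i ∈ Finset.range j, (2 * (i : ℝ) + 1) / (Fintype.card σ + 2 * (i : ℝ)) with hP
  have h1 : r * psum u (2 * j) ≤ psum u (2 * (j + 1)) := by
    rw [hr, div_mul_eq_mul_div, div_le_iff₀ (by positivity)]
    have := psum_ratio u hu j
    linarith
  have h2 : psum u (2 * (j + 1)) ≤
      c ^ 2 * psum u (2 * j) + (1 - c ^ 2) * Fintype.card ι := by
    unfold psum
    rw [Finset.mul_sum]
    have h3 : (1 - c ^ 2) * (Fintype.card ι : ℝ) = ∑ _i : ι, (1 - c ^ 2) := by
      rw [Finset.sum_const, Finset.card_univ, nsmul_eq_mul]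
      ring
    rw [h3, ← Finset.sum_add_distrib]
    refine Finset.sum_le_sum fun i _ => ?_
    rw [← Finset.add_sum_erase _ _ (Finset.mem_univ i), Finset.mul_sum,
      ← Finset.add_sum_erase _ (fun k => c ^ 2 * dot (u i) (u k) ^ (2 * j)) (Finset.mem_univ i),
      hu i, one_pow, one_pow]
    have h4 : ∑ k ∈ Finset.univ.erase i, dot (u i) (u k) ^ (2 * (j + 1)) ≤
        ∑ k ∈ Finset.univ.erase i, c ^ 2 * dot (u i) (u k) ^ (2 * j) := by
      refine Finset.sum_le_sum fun k hk => ?_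
      have h5 := hc i k (Finset.ne_of_mem_erase hk).symm
      have e : dot (u i) (u k) ^ (2 * (j + 1)) =
          dot (u i) (u k) ^ 2 * dot (u i) (u k) ^ (2 * j) := by
        rw [← pow_add]
        congr 1
        ring
      rw [e]
      refine mul_le_mul_of_nonneg_right h5 ?_
      rw [pow_mul]
      positivity
    linarith
  have h6 := psum_ge u hu hd j
  rw [← hP] at h6
  have h7 : (r - c ^ 2) * psum u (2 * j) ≤ (1 - c ^ 2) * Fintype.card ι := by linarith
  have h8 : (r - c ^ 2) * ((Fintype.card ι : ℝ) ^ 2 * P) ≤ (1 - c ^ 2) * Fintype.card ι :=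
    (mul_le_mul_of_nonneg_left h6 (by linarith)).trans h7
  have h9 : (Fintype.card ι : ℝ) * ((Fintype.card ι : ℝ) * ((r - c ^ 2) * P)) ≤
      (Fintype.card ι : ℝ) * (1 - c ^ 2) := by nlinarith [h8]
  exact le_of_mul_le_mul_left h9 hN

end Pool.TT.Five
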