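import Pool.Agent.Lib.MP_695920_nt.TT.Num
import Pool.Agent.Lib.MP_695920_nt.TT.Five.Code

set_option autoImplicit false

/-!
TEAM TWOTORSION, FIVE: the code bound in exponential form, and the number for degree five.
-/

namespace Pool.TTV

open Finset Real Pool.TT.Five

theorem prod_half_le (e j : ℕ) :
    ∏ i ∈ range j, ((e : ℝ) + i) / (i + 1) ≤ ((e + j).choose j : ℝ) := by
  induction j with
  | zero => simp
  | succ j ih =>
    rw [prod_range_succ]
    have h1 : ((e + (j + 1)).choose (j + 1) : ℝ) * (j + 1) = (e + j + 1) * ((e + j).choose j : ℝ) := by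
      have := Nat.add_one_mul_choose_eq (e + j) j
      have h2 : (((e + j + 1) * (e + j).choose j : ℕ) : ℝ) =
          ((e + j + 1).choose (j + 1) * (j + 1) : ℕ) := by exact_mod_cast this
      push_cast at h2
      rw [h2]
      rfl
    have h0 : (0 : ℝ) < (j : ℝ) + 1 := by positivity
    rw [← mul_div_assoc, div_le_iff₀ h0, h1]
    have h3 : (0 : ℝ) ≤ (e : ℝ) + j := by positivity
    have h4 : (0 : ℝ) ≤ ((e + j).choose j : ℝ) := by positivity
    nlinarith [mul_le_mul_of_nonneg_right ih h3]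

theorem prod_odd_le (j : ℕ) :
    ∏ i ∈ range j, (2 * (i : ℝ) + 2) / (2 * i + 1) ≤ (j : ℝ) + 1 := by
  induction j with
  | zero => simp
  | succ j ih =>
    rw [prod_range_succ]
    have h1 : (2 * (j : ℝ) + 2) / (2 * j + 1) ≤ ((j : ℝ) + 2) / (j + 1) := by
      rw [div_le_div_iff₀ (by positivity) (by positivity)]
      nlinarith [(Nat.cast_nonneg j : (0 : ℝ) ≤ (j : ℝ))]
    calc _ ≤ ((j : ℝ) + 1) * (((j : ℝ) + 2) / (j + 1)) :=
          mul_le_mul ih h1 (by positivity) (by positivity)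
      _ = ((j + 1 : ℕ) : ℝ) + 1 := by
          push_cast
          field_simp
          ring

theorem prod_inv_le (d j : ℕ) :
    ∏ i ∈ range j, ((d : ℝ) + 2 * i) / (2 * i + 1) ≤
      (((d + 1) / 2 + j).choose j : ℝ) * (j + 1) := by
  have h1 : ∀ i ∈ range j, ((d : ℝ) + 2 * i) / (2 * i + 1) ≤
      ((((d + 1) / 2 : ℕ) : ℝ) + i) / (i + 1) * ((2 * (i : ℝ) + 2) / (2 * i + 1)) := by
    intro i _
    have h2 : d ≤ 2 * ((d + 1) / 2) := by omega
    have h3 : (d : ℝ) ≤ 2 * (((d + 1) / 2 : ℕ) : ℝ) := by exact_mod_cast h2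
    have h4 : ((((d + 1) / 2 : ℕ) : ℝ) + i) / (i + 1) * ((2 * (i : ℝ) + 2) / (2 * i + 1)) =
        (2 * (((d + 1) / 2 : ℕ) : ℝ) + 2 * i) / (2 * i + 1) := by
      field_simp
    rw [h4]
    apply div_le_div_of_nonneg_right _ (by positivity)
    linarith
  refine (prod_le_prod (fun i _ => by positivity) h1).trans ?_
  rw [prod_mul_distrib]
  exact mul_le_mul (prod_half_le _ _) (prod_odd_le j)
    (prod_nonneg fun i _ => by positivity) (by positivity)

/-- The code bound, exponential form. -/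
theorem code_exp {γ κ ε : ℝ} (hγ : 0 ≤ γ) (hκ : 0 < κ) (hκ1 : κ ≤ 1) (h : γ < κ / (1 + κ))
    (hε : 0 < ε) : ∃ A : ℝ, 0 < A ∧ ∀ (d N : ℕ) (u : Fin N → Fin d → ℝ),
      (∀ i, dot (u i) (u i) = 1) → (∀ i j, i ≠ j → dot (u i) (u j) ^ 2 ≤ γ) →
      (N : ℝ) ≤ A * exp ((((1 + κ) * log (1 + κ) - κ * log κ) / 2 + ε) * d) := by
  set g : ℝ := κ / (1 + κ) - γ with hg
  have hg0 : 0 < g := by rw [hg]; linarith
  set B : ℝ := exp (3 / 2 * log (1 + κ) - log κ) with hB
  refine ⟨g⁻¹ * (B * (2 + κ / (2 * ε))), by positivity, fun d N u hu hc => ?_⟩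
  rcases Nat.eq_zero_or_pos N with hN | hN
  · subst hN
    simp only [Nat.cast_zero]
    positivity
  have hd : 0 < d := by
    rcases Nat.eq_zero_or_pos d with h0 | h0
    · subst h0
      have := hu ⟨0, hN⟩
      unfold dot at this
      simp at this
    · exact h0
  have hdR : (0 : ℝ) < d := by exact_mod_cast hd
  have hγ1 : γ ≤ 1 := by
    have : κ / (1 + κ) ≤ 1 := by
      rw [div_le_one (by linarith)]
      linarith
    linarith
  set j : ℕ := ⌈κ * d / 2⌉₊ with hj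
  have hj1 : κ * d / 2 ≤ j := Nat.le_ceil _
  have hj2 : (j : ℝ) < κ * d / 2 + 1 := Nat.ceil_lt_add_one (by positivity)
  have hr : κ / (1 + κ) ≤ (2 * (j : ℝ) + 1) / (d + 2 * j) := by
    rw [div_le_div_iff₀ (by linarith) (by positivity)]
    nlinarith
  have hsq : (√γ) ^ 2 = γ := sq_sqrt hγ
  have hcode := code_bound u hu (c := √γ) (by rw [hsq]; exact hc) (by rw [hsq]; exact hγ1) j
    (by rw [hsq, Fintype.card_fin]; linarith)
  rw [hsq, Fintype.card_fin, Fintype.card_fin] at hcode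
  set PP : ℝ := ∏ i ∈ range j, (2 * (i : ℝ) + 1) / (d + 2 * (i : ℝ)) with hPP
  have hPP0 : 0 < PP := prod_pos fun i _ => by positivity
  have hPPinv : PP⁻¹ ≤ (((d + 1) / 2 + j).choose j : ℝ) * (j + 1) := by
    rw [hPP, ← prod_inv_distrib]
    simp only [inv_div]
    exact prod_inv_le d j
  have h1 : (N : ℝ) ≤ g⁻¹ * PP⁻¹ := by
    have h2 : (N : ℝ) * (g * PP) ≤ 1 := by
      refine le_trans ?_ (hcode.trans (by linarith))
      apply mul_le_mul_of_nonneg_left _ (Nat.cast_nonneg N)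
      apply mul_le_mul_of_nonneg_right _ hPP0.le
      rw [hg]
      linarith
    rw [← mul_inv, ← one_div, le_div_iff₀ (by positivity)]
    exact h2
  have h2 : (((d + 1) / 2 + j).choose j : ℝ) ≤
      B * exp ((((1 + κ) * log (1 + κ) - κ * log κ) / 2) * d) := by
    have h3 := Pool.TT.choose_mul_le ((d + 1) / 2) j hκ
    have h4 : (1 + κ) ^ ((d + 1) / 2 + j) ≤ exp ((d / 2 + 1 / 2 + (κ * d / 2 + 1)) * log (1 + κ)) := by
      rw [← exp_log (show 0 < (1 + κ) ^ ((d + 1) / 2 + j) by positivity), log_pow]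
      apply exp_le_exp.2
      apply mul_le_mul_of_nonneg_right _ (log_nonneg (by linarith))
      push_cast
      have h5 : (((d + 1) / 2 : ℕ) : ℝ) ≤ (d : ℝ) / 2 + 1 / 2 := by
        have h6 : (((d + 1) / 2 : ℕ) : ℝ) ≤ ((d + 1 : ℕ) : ℝ) / ((2 : ℕ) : ℝ) := Nat.cast_div_le
        push_cast at h6
        linarith
      linarith
    have h5 : exp ((κ * d / 2 + 1) * log κ) ≤ κ ^ j := by
      rw [← exp_log (show 0 < κ ^ j by positivity), log_pow]
      apply exp_le_exp.2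
      apply mul_le_mul_of_nonpos_right hj2.le (log_nonpos hκ.le hκ1)
    have h6 : (((d + 1) / 2 + j).choose j : ℝ) * exp ((κ * d / 2 + 1) * log κ) ≤
        exp ((d / 2 + 1 / 2 + (κ * d / 2 + 1)) * log (1 + κ)) :=
      (mul_le_mul_of_nonneg_left h5 (Nat.cast_nonneg _)).trans (h3.trans h4)
    rw [← le_div_iff₀ (exp_pos _), ← exp_sub] at h6
    refine h6.trans (le_of_eq ?_)
    rw [hB, ← exp_add]
    congr 1
    ring
  have h3 : (j : ℝ) + 1 ≤ (2 + κ / (2 * ε)) * exp (ε * d) := by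
    have h4 : ε * d + 1 ≤ exp (ε * d) := add_one_le_exp _
    have h5 : 1 ≤ exp (ε * d) := one_le_exp (by positivity)
    have h6 : κ * d / 2 = κ / (2 * ε) * (ε * d) := by
      field_simp
    have h7 : κ / (2 * ε) * (ε * d) ≤ κ / (2 * ε) * exp (ε * d) :=
      mul_le_mul_of_nonneg_left (by linarith) (by positivity)
    nlinarith
  calc (N : ℝ) ≤ g⁻¹ * PP⁻¹ := h1
    _ ≤ g⁻¹ * ((((d + 1) / 2 + j).choose j : ℝ) * (j + 1)) :=
        mul_le_mul_of_nonneg_left hPPinv (by positivity)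
    _ ≤ g⁻¹ * ((B * exp ((((1 + κ) * log (1 + κ) - κ * log κ) / 2) * d)) *
          ((2 + κ / (2 * ε)) * exp (ε * d))) := by
        apply mul_le_mul_of_nonneg_left _ (by positivity)
        exact mul_le_mul h2 h3 (by positivity) (by positivity)
    _ = g⁻¹ * (B * (2 + κ / (2 * ε))) *
          (exp ((((1 + κ) * log (1 + κ) - κ * log κ) / 2) * d) * exp (ε * d)) := by ring
    _ = _ := by
        rw [← exp_add]
        congr 2
        ring

theorem log14_le : log 14 ≤ 80 / 21 * log 2 := by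
  have h : log ((14 : ℝ) ^ 21) ≤ log ((2 : ℝ) ^ 80) := log_le_log (by norm_num) (by norm_num)
  rw [log_pow, log_pow] at h
  push_cast at h
  linarith

theorem log15_le : log (15 / 14) ≤ 1 / 10 * log 2 := by
  have h : log ((15 / 14 : ℝ) ^ 10) ≤ log 2 := log_le_log (by norm_num) (by norm_num)
  rw [log_pow] at h
  push_cast at h
  linarith

/-- The number for degree five: `(1 / 2) H(1 / 14) < 1315 / 10000`. -/
theorem entropy14 : ((1 + 1 / 14) * log (1 + 1 / 14) - 1 / 14 * log (1 / 14 : ℝ)) / 2 <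
    1315 / 10000 := by
  have h1 : log (1 + 1 / 14 : ℝ) ≤ 1 / 10 * log 2 := by
    rw [show (1 + 1 / 14 : ℝ) = 15 / 14 by norm_num]
    exact log15_le
  have h2 : log (1 / 14 : ℝ) = - log 14 := by
    rw [one_div, log_inv]
  have h3 := log14_le
  have h4 := log_two_lt_d9
  rw [h2]
  nlinarith

/-- The code bound for nearly orthogonal vectors of nearly equal length, cosine at most `c`. -/
theorem code_vec {c κ ε : ℝ} (hc : 0 ≤ c) (hκ : 0 < κ) (hκ1 : κ ≤ 1) (h : c ^ 2 < κ / (1 + κ))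
    (hε : 0 < ε) : ∃ A : ℝ, 0 < A ∧ ∀ (d N : ℕ) (u : Fin N → EuclideanSpace ℝ (Fin d)) (m : ℝ),
    0 < m → (∀ i, m ≤ inner ℝ (u i) (u i)) →
    (∀ i j, i ≠ j → |inner ℝ (u i) (u j)| ≤ c * m) →
    (N : ℝ) ≤ A * exp ((((1 + κ) * log (1 + κ) - κ * log κ) / 2 + ε) * d) := by
  obtain ⟨A, hA, hcode⟩ := code_exp (γ := c ^ 2) (sq_nonneg c) hκ hκ1 h hε
  refine ⟨A, hA, fun d N u m hm hdiag hoff => ?_⟩
  have hpos : ∀ i, 0 < ‖u i‖ := by
    intro i
    have h1 := hdiag i
    rw [real_inner_self_eq_norm_sq] at h1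
    by_contra h2
    have h3 : ‖u i‖ = 0 := le_antisymm (not_lt.1 h2) (norm_nonneg _)
    rw [h3] at h1
    norm_num at h1
    linarith
  have hinner : ∀ i j, dot (fun a => ‖u i‖⁻¹ * u i a) (fun a => ‖u j‖⁻¹ * u j a) =
      ‖u i‖⁻¹ * ‖u j‖⁻¹ * inner ℝ (u i) (u j) := by
    intro i j
    unfold dot
    rw [PiLp.inner_apply, mul_sum]
    refine sum_congr rfl fun a _ => ?_
    simp only [RCLike.inner_apply, conj_trivial]
    ring
  refine hcode d N (fun i a => ‖u i‖⁻¹ * u i a) ?_ ?_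
  · intro i
    rw [hinner, real_inner_self_eq_norm_sq]
    have := (hpos i).ne'
    field_simp
  · intro i j hij
    rw [hinner]
    have h2 := hoff i j hij
    have h3 := hdiag i
    have h4 := hdiag j
    rw [real_inner_self_eq_norm_sq] at h3 h4
    have h5 : (‖u i‖⁻¹ * ‖u j‖⁻¹ * inner ℝ (u i) (u j)) ^ 2 =
        (inner ℝ (u i) (u j)) ^ 2 / (‖u i‖ ^ 2 * ‖u j‖ ^ 2) := by
      have := (hpos i).ne'
      have := (hpos j).ne'
      field_simp
    rw [h5, div_le_iff₀ (by have := hpos i; have := hpos j; positivity)]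
    have h6 : (inner ℝ (u i) (u j)) ^ 2 ≤ (c * m) ^ 2 := by
      rw [← sq_abs]
      exact pow_le_pow_left₀ (abs_nonneg _) h2 2
    have h7 : m * m ≤ ‖u i‖ ^ 2 * ‖u j‖ ^ 2 := mul_le_mul h3 h4 hm.le (by positivity)
    have h8 : c ^ 2 * (m * m) ≤ c ^ 2 * (‖u i‖ ^ 2 * ‖u j‖ ^ 2) :=
      mul_le_mul_of_nonneg_left h7 (sq_nonneg c)
    calc (inner ℝ (u i) (u j)) ^ 2 ≤ (c * m) ^ 2 := h6
      _ = c ^ 2 * (m * m) := by ring
      _ ≤ _ := h8

/-- The code bound for nearly orthogonal vectors of nearly equal length, cosine at most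
`254 / 1000`. -/
theorem code_num : ∃ A : ℝ, 0 < A ∧ ∀ (d N : ℕ) (u : Fin N → EuclideanSpace ℝ (Fin d)) (m : ℝ),
    0 < m → (∀ i, m ≤ inner ℝ (u i) (u i)) →
    (∀ i j, i ≠ j → |inner ℝ (u i) (u j)| ≤ 254 / 1000 * m) →
    (N : ℝ) ≤ A * exp (1316 / 10000 * d) := by
  have hent := entropy14
  obtain ⟨A, hA, hcode⟩ := code_vec (c := 254 / 1000) (κ := 1 / 14) (ε := 1 / 10000)
    (by norm_num) (by norm_num) (by norm_num) (by norm_num) (by norm_num)
  refine ⟨A, hA, fun d N u m hm hdiag hoff => (hcode d N u m hm hdiag hoff).trans ?_⟩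
  apply mul_le_mul_of_nonneg_left _ hA.le
  apply exp_le_exp.2
  apply mul_le_mul_of_nonneg_right _ (Nat.cast_nonneg d)
  linarith

end Pool.TTV
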