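import Mathlib

/-!
# TT/Five, Lin: linear algebra (section 4 of the proof for n = 5)

An almost positive form `G - ρ` on `ℝ^ι` which is almost zero on a subspace of codimension at most `d` is
almost the Gram matrix of vectors of `ℝ^d`.
-/

set_option autoImplicit false

open Finset Matrix

namespace Pool.TTF

private theorem lin_det_exists {ι : Type} (d : ℕ) (v : ι → Fin d → ℝ)
    (hv : Submodule.span ℝ (Set.range v) = ⊤) :
    ∃ k : Fin d → ι, (Matrix.of fun l m => v (k m) l).det ≠ 0 := by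
  obtain ⟨κ, a, ha, hsp, hli⟩ := exists_linearIndependent' ℝ v
  rw [hv] at hsp
  let b : Module.Basis κ ℝ (Fin d → ℝ) := Module.Basis.mk hli hsp.ge
  have : Fintype κ := FiniteDimensional.fintypeBasisIndex b
  have hc : Fintype.card κ = d := by
    have h1 := Module.finrank_eq_card_basis b
    rw [Module.finrank_fin_fun] at h1
    exact h1.symm
  let e : Fin d ≃ κ := (Fintype.equivFinOfCardEq hc).symm
  refine ⟨fun m => a (e m), ?_⟩
  have h2 : LinearIndependent ℝ (Matrix.of fun l m => v (a (e m)) l).col := by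
    have h3 := hli.comp e e.injective
    exact h3
  rw [Matrix.linearIndependent_cols_iff_isUnit, Matrix.isUnit_iff_isUnit_det] at h2
  exact h2.ne_zero

variable {ι : Type} [Fintype ι] [DecidableEq ι]

/-- A finite spanning family of `ℝ^d` contains a basis in which the coordinates of all the members have
absolute value at most `1`. -/
theorem exists_frame (d : ℕ) (v : ι → Fin d → ℝ) (hv : Submodule.span ℝ (Set.range v) = ⊤) :
    ∃ (k : Fin d → ι) (α : ι → Fin d → ℝ), (∀ i l, |α i l| ≤ 1) ∧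
      ∀ i, v i = ∑ l, α i l • v (k l) := by
  obtain ⟨k0, hk0⟩ := lin_det_exists d v hv
  have : Nonempty (Fin d → ι) := ⟨k0⟩
  obtain ⟨k, hk⟩ := Finite.exists_max fun k : Fin d → ι => |(Matrix.of fun l m => v (k m) l).det|
  set A : Matrix (Fin d) (Fin d) ℝ := Matrix.of fun l m => v (k m) l with hA
  have hdet : 0 < |A.det| := lt_of_lt_of_le (abs_pos.2 hk0) (hk k0)
  have hdet0 : A.det ≠ 0 := abs_pos.1 hdet
  refine ⟨k, fun i => (A.det)⁻¹ • cramer A (v i), fun i l => ?_, fun i => ?_⟩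
  · change |((A.det)⁻¹ • cramer A (v i)) l| ≤ 1
    rw [Pi.smul_apply, cramer_apply, smul_eq_mul, abs_mul, abs_inv, inv_mul_le_iff₀ hdet, mul_one]
    have h1 : A.updateCol l (v i) = Matrix.of fun l' m => v (Function.update k l i m) l' := by
      ext l' m
      rw [updateCol_apply, of_apply, Function.update_apply]
      split_ifs with h
      · rfl
      · rfl
    rw [h1]
    exact hk (Function.update k l i)
  · have h1 := mulVec_cramer A (v i)
    have h2 : A *ᵥ ((A.det)⁻¹ • cramer A (v i)) = v i := by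
      rw [mulVec_smul, h1, smul_smul, inv_mul_cancel₀ hdet0, one_smul]
    conv_lhs => rw [← h2]
    ext l'
    rw [Finset.sum_apply, mulVec, dotProduct]
    refine Finset.sum_congr rfl fun m _ => ?_
    rw [hA, of_apply, Pi.smul_apply, smul_eq_mul, mul_comm]
    rfl

private theorem lin_psd {d : ℕ} (M : Matrix (Fin d) (Fin d) ℝ) (hs : ∀ l m, M l m = M m l)
    (h : ∀ x : Fin d → ℝ, 0 ≤ ∑ l, ∑ m, x l * x m * M l m) :
    ∃ C : Matrix (Fin d) (Fin d) ℝ, M = Cᵀ * C := by
  have hp : M.PosSemidef := by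
    refine Matrix.PosSemidef.of_dotProduct_mulVec_nonneg ?_ fun x => ?_
    · ext l m
      rw [conjTranspose_apply, star_trivial, hs]
    · have h1 := h x
      refine h1.trans (le_of_eq ?_)
      rw [dotProduct]
      refine Finset.sum_congr rfl fun l _ => ?_
      rw [mulVec, dotProduct, Finset.mul_sum]
      refine Finset.sum_congr rfl fun m _ => ?_
      rw [Pi.star_apply, star_trivial]
      ring
  open scoped MatrixOrder in
  obtain ⟨C, hC⟩ := CStarAlgebra.nonneg_iff_eq_star_mul_self.mp hp.nonneg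
  refine ⟨C, ?_⟩
  rw [hC]
  rfl

/-- the sum of the absolute values -/
private noncomputable def a1 {ι : Type} [Fintype ι] (x : ι → ℝ) : ℝ := ∑ i, |x i|

private theorem a1_nonneg {ι : Type} [Fintype ι] (x : ι → ℝ) : 0 ≤ a1 x :=
  Finset.sum_nonneg fun _ _ => abs_nonneg _

private theorem a1_add {ι : Type} [Fintype ι] (x y : ι → ℝ) : a1 (x + y) ≤ a1 x + a1 y := by
  rw [a1, a1, a1, ← Finset.sum_add_distrib]
  exact Finset.sum_le_sum fun i _ => abs_add_le _ _

private theorem a1_smul {ι : Type} [Fintype ι] (c : ℝ) (x : ι → ℝ) : a1 (c • x) = |c| * a1 x := by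
  rw [a1, a1, Finset.mul_sum]
  refine Finset.sum_congr rfl fun i _ => ?_
  rw [Pi.smul_apply, smul_eq_mul, abs_mul]

private theorem a1_neg {ι : Type} [Fintype ι] (x : ι → ℝ) : a1 (-x) = a1 x := by
  rw [a1, a1]
  refine Finset.sum_congr rfl fun i _ => ?_
  rw [Pi.neg_apply, abs_neg]

private theorem a1_single (i : ι) : a1 (Pi.single i (1 : ℝ)) = 1 := by
  rw [a1, Finset.sum_eq_single i]
  · rw [Pi.single_eq_same, abs_one]
  · intro j _ hj
    rw [Pi.single_eq_of_ne hj, abs_zero]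
  · intro h
    exact absurd (Finset.mem_univ i) h

private theorem a1_comb {d : ℕ} (k : Fin d → ι) (x : Fin d → ℝ) :
    a1 (∑ l, x l • Pi.single (k l) (1 : ℝ) : ι → ℝ) ≤ ∑ l, |x l| := by
  have h1 : ∀ s : Finset (Fin d), a1 (∑ l ∈ s, x l • Pi.single (k l) (1 : ℝ) : ι → ℝ) ≤
      ∑ l ∈ s, |x l| := by
    intro s
    induction s using Finset.induction_on with
    | empty => simp [a1]
    | insert a s ha ih =>
      rw [Finset.sum_insert ha, Finset.sum_insert ha]
      refine (a1_add _ _).trans (add_le_add ?_ ih)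
      rw [a1_smul, a1_single, mul_one]
  exact h1 Finset.univ

private theorem a1_add_smul {ι : Type} [Fintype ι] (x w : ι → ℝ) (t : ℝ) :
    a1 (x + t • w) ^ 2 ≤ 2 * a1 x ^ 2 + 2 * (t * t) * a1 w ^ 2 := by
  have h1 : a1 (x + t • w) ≤ a1 x + |t| * a1 w := by
    rw [← a1_smul]
    exact a1_add _ _
  have h2 : a1 (x + t • w) ^ 2 ≤ (a1 x + |t| * a1 w) ^ 2 :=
    pow_le_pow_left₀ (a1_nonneg _) h1 2
  have h3 : (|t| * a1 w) ^ 2 = (t * t) * a1 w ^ 2 := by rw [mul_pow, sq_abs]; ring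
  nlinarith [sq_nonneg (a1 x - |t| * a1 w)]

/-- Cauchy-Schwarz for an almost positive form -/
private theorem lin_cs {ι : Type} [Fintype ι] (B : LinearMap.BilinForm ℝ (ι → ℝ))
    (hs : ∀ x y, B x y = B y x) {ε₁ ε₂ : ℝ} (hε₁ : 0 ≤ ε₁)
    (hP : ∀ x, -(ε₁ * a1 x ^ 2) ≤ B x x) {w : ι → ℝ}
    (hw : B w w ≤ ε₂ * a1 w ^ 2) (x : ι → ℝ) :
    B x w ^ 2 ≤ (B x x + 2 * ε₁ * a1 x ^ 2) * ((ε₂ + 2 * ε₁) * a1 w ^ 2) := by
  have key : ∀ t : ℝ, 0 ≤ ((ε₂ + 2 * ε₁) * a1 w ^ 2) * (t * t) + (2 * B x w) * t +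
      (B x x + 2 * ε₁ * a1 x ^ 2) := by
    intro t
    have h1 : B (x + t • w) (x + t • w) = B x x + 2 * t * B x w + t * t * B w w := by
      simp only [map_add, LinearMap.add_apply, map_smul, LinearMap.smul_apply, smul_eq_mul]
      rw [hs w x]
      ring
    have h2 := hP (x + t • w)
    rw [h1] at h2
    have h3 := mul_le_mul_of_nonneg_left (a1_add_smul x w t) hε₁
    have h4 : t * t * B w w ≤ t * t * (ε₂ * a1 w ^ 2) :=
      mul_le_mul_of_nonneg_left hw (mul_self_nonneg t)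
    nlinarith
  have h5 := discrim_le_zero key
  rw [discrim] at h5
  nlinarith

private theorem lin_pad {d' d : ℕ} (h : d' ≤ d) (u : ι → Fin d' → ℝ) :
    ∃ U : ι → EuclideanSpace ℝ (Fin d), ∀ i j, inner ℝ (U i) (U j) = ∑ l, u i l * u j l := by
  refine ⟨fun i => WithLp.toLp 2 fun m : Fin d => if hm : m.1 < d' then u i ⟨m, hm⟩ else 0,
    fun i j => ?_⟩
  rw [PiLp.inner_apply]
  symm
  refine Fintype.sum_of_injective (Fin.castLE h) (Fin.castLE_injective h) _ _ (fun m hm => ?_)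
    fun l => ?_
  · have h1 : ¬ m.1 < d' := fun h2 => hm ⟨⟨m.1, h2⟩, Fin.ext rfl⟩
    simp [h1]
  · simp [mul_comm]

/-- **Section 4** -/
theorem exists_vec (G : ι → ι → ℝ) (hG : ∀ i j, G i j = G j i) (ρ β ε₁ ε₂ : ℝ)
    (hε₁ : 0 ≤ ε₁) (hε₂ : 0 ≤ ε₂) (W : Submodule ℝ (ι → ℝ)) (d : ℕ)
    (hW : Module.finrank ℝ ((ι → ℝ) ⧸ W) ≤ d)
    (hP : ∀ x : ι → ℝ, ρ * (∑ i, x i) ^ 2 - ε₁ * (∑ i, |x i|) ^ 2 ≤ ∑ i, ∑ j, x i * x j * G i j)
    (hR : ∀ w ∈ W, ∑ i, ∑ j, w i * w j * G i j ≤ ρ * (∑ i, w i) ^ 2 + ε₂ * (∑ i, |w i|) ^ 2)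
    (hβ : ∀ i, G i i - ρ ≤ β) :
    ∃ u : ι → EuclideanSpace ℝ (Fin d), ∀ i j, |inner ℝ (u i) (u j) - (G i j - ρ)| ≤
      ((d : ℝ) + 1) ^ 2 * Real.sqrt ((β + 2 * ε₁) * (ε₂ + 2 * ε₁)) + ε₁ * (d : ℝ) ^ 2 := by
  set H : Matrix ι ι ℝ := Matrix.of fun i j => G i j - ρ with hH
  have hHs : ∀ i j, H i j = H j i := fun i j => by rw [hH, of_apply, of_apply, hG]
  set B : LinearMap.BilinForm ℝ (ι → ℝ) := Matrix.toBilin' H with hB
  have hBs : ∀ x y, B x y = B y x := by
    intro x y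
    rw [hB, Matrix.toBilin'_apply, Matrix.toBilin'_apply, Finset.sum_comm]
    refine Finset.sum_congr rfl fun i _ => Finset.sum_congr rfl fun j _ => ?_
    rw [hHs j i]
    ring
  have hBx : ∀ x : ι → ℝ, B x x = ∑ i, ∑ j, x i * x j * G i j - ρ * (∑ i, x i) ^ 2 := by
    intro x
    have h1 : (∑ i, x i) ^ 2 = ∑ i, ∑ j, x i * x j := by rw [sq, Finset.sum_mul_sum]
    rw [hB, Matrix.toBilin'_apply, h1, Finset.mul_sum, ← Finset.sum_sub_distrib]
    refine Finset.sum_congr rfl fun i _ => ?_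
    rw [Finset.mul_sum, ← Finset.sum_sub_distrib]
    refine Finset.sum_congr rfl fun j _ => ?_
    rw [hH, of_apply]
    ring
  have hPB : ∀ x, -(ε₁ * a1 x ^ 2) ≤ B x x := by
    intro x
    have h1 := hP x
    rw [hBx, a1]
    linarith
  have hRB : ∀ w ∈ W, B w w ≤ ε₂ * a1 w ^ 2 := by
    intro w hw
    have h1 := hR w hw
    rw [hBx, a1]
    linarith
  set d' : ℕ := Module.finrank ℝ ((ι → ℝ) ⧸ W) with hd'
  let e : ((ι → ℝ) ⧸ W) ≃ₗ[ℝ] (Fin d' → ℝ) := LinearEquiv.ofFinrankEq _ _ (by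
    rw [Module.finrank_fin_fun])
  let φ : (ι → ℝ) →ₗ[ℝ] (Fin d' → ℝ) := e.toLinearMap ∘ₗ W.mkQ
  have hφ : ∀ x, φ x = 0 → x ∈ W := by
    intro x hx
    have h1 : e (W.mkQ x) = 0 := hx
    rw [map_eq_zero_iff e e.injective] at h1
    exact (Submodule.Quotient.mk_eq_zero W).1 h1
  have hφs : LinearMap.range φ = ⊤ := by
    rw [LinearMap.range_eq_top]
    exact e.surjective.comp (Submodule.mkQ_surjective W)
  have hspan : Submodule.span ℝ (Set.range fun i => φ (Pi.single i (1 : ℝ))) = ⊤ := by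
    have h1 : (Set.range fun i => φ (Pi.single i (1 : ℝ))) =
        φ '' Set.range (fun i : ι => (Pi.single i (1 : ℝ) : ι → ℝ)) := by
      rw [← Set.range_comp]
      rfl
    have h2 : Submodule.span ℝ (Set.range (fun i : ι => (Pi.single i (1 : ℝ) : ι → ℝ))) = ⊤ := by
      have h3 := (Pi.basisFun ℝ ι).span_eq
      have h4 : Set.range (Pi.basisFun ℝ ι) =
          Set.range (fun i : ι => (Pi.single i (1 : ℝ) : ι → ℝ)) := by
        congr 1
        ext i
        rw [Pi.basisFun_apply]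
      rwa [h4] at h3
    rw [h1, Submodule.span_image, h2, Submodule.map_top, hφs]
  obtain ⟨k, α, hα, hv⟩ := exists_frame d' (fun i => φ (Pi.single i (1 : ℝ))) hspan
  let X : (Fin d' → ℝ) → (ι → ℝ) := fun x => ∑ l, x l • Pi.single (k l) (1 : ℝ)
  have hX : ∀ x y : Fin d' → ℝ, B (X x) (X y) = ∑ l, ∑ m, x l * y m * H (k l) (k m) := by
    intro x y
    simp only [X, map_sum, LinearMap.sum_apply, map_smul, LinearMap.smul_apply, smul_eq_mul, hB,
      Matrix.toBilin'_single]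
    rw [Finset.sum_comm]
    refine Finset.sum_congr rfl fun m _ => ?_
    rw [Finset.mul_sum]
    refine Finset.sum_congr rfl fun l _ => ?_
    ring
  let w : ι → ι → ℝ := fun j => Pi.single j (1 : ℝ) - X (α j)
  have hwW : ∀ j, w j ∈ W := by
    intro j
    refine hφ _ ?_
    simp only [w, X]
    rw [map_sub, map_sum, hv j, sub_eq_zero]
    refine Finset.sum_congr rfl fun l _ => ?_
    rw [map_smul]
  have hd0 : (0 : ℝ) ≤ d' := Nat.cast_nonneg _
  have hαs : ∀ j, ∑ l, |α j l| ≤ d' := by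
    intro j
    calc ∑ l, |α j l| ≤ ∑ _l : Fin d', (1 : ℝ) := Finset.sum_le_sum fun l _ => hα j l
      _ = d' := by rw [Finset.sum_const, Finset.card_univ, Fintype.card_fin, nsmul_eq_mul, mul_one]
  have hw1 : ∀ j, a1 (w j) ≤ d' + 1 := by
    intro j
    simp only [w]
    rw [sub_eq_add_neg]
    refine (a1_add _ _).trans ?_
    rw [a1_single, a1_neg, add_comm]
    exact add_le_add ((a1_comb k (α j)).trans (hαs j)) le_rfl
  have hone : ∀ i : ι, a1 (Pi.single i (1 : ℝ)) = 1 := fun i => a1_single i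
  set η : ℝ := Real.sqrt ((β + 2 * ε₁) * (ε₂ + 2 * ε₁)) with hη
  have hη0 : 0 ≤ η := Real.sqrt_nonneg _
  have hBw : ∀ i j, |B (Pi.single i 1) (w j)| ≤ η * (d' + 1) := by
    intro i j
    have h1 := lin_cs B hBs hε₁ hPB (hRB _ (hwW j)) (Pi.single i 1)
    have h2 : B (Pi.single i 1) (Pi.single i 1) = G i i - ρ := by
      rw [hB, Matrix.toBilin'_single, hH, of_apply]
    have h3 := hPB (Pi.single i 1)
    rw [hone, one_pow, mul_one] at h1 h3
    have h4 : a1 (w j) ^ 2 ≤ ((d' : ℝ) + 1) ^ 2 := pow_le_pow_left₀ (a1_nonneg _) (hw1 j) 2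
    have h5 : (B (Pi.single i 1) (Pi.single i 1) + 2 * ε₁) * ((ε₂ + 2 * ε₁) * a1 (w j) ^ 2) ≤
        (β + 2 * ε₁) * ((ε₂ + 2 * ε₁) * ((d' : ℝ) + 1) ^ 2) := by
      refine mul_le_mul ?_ ?_ ?_ ?_
      · rw [h2]
        linarith [hβ i]
      · exact mul_le_mul_of_nonneg_left h4 (by linarith)
      · exact mul_nonneg (by linarith) (sq_nonneg _)
      · have := hβ i
        rw [h2] at h3
        linarith
    refine (Real.abs_le_sqrt (h1.trans h5)).trans (le_of_eq ?_)
    rw [← mul_assoc, Real.sqrt_mul' _ (sq_nonneg _), Real.sqrt_sq (by linarith)]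
  have hmain : ∀ i j, |(∑ l, ∑ m, α i l * α j m * H (k l) (k m)) - (G i j - ρ)| ≤
      ((d' : ℝ) + 1) ^ 2 * η := by
    intro i j
    have h0 : ∀ j : ι, (Pi.single j 1 : ι → ℝ) = w j + X (α j) := fun j => by
      simp only [w]
      rw [sub_add_cancel]
    have h1 : G i j - ρ = B (Pi.single i 1) (w j) + (∑ m, α j m * B (Pi.single (k m) 1) (w i)) +
        ∑ l, ∑ m, α i l * α j m * H (k l) (k m) := by
      have h2 : G i j - ρ = B (Pi.single i 1) (Pi.single j 1) := by
        rw [hB, Matrix.toBilin'_single, hH, of_apply]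
      have h3 : B (Pi.single i 1) (Pi.single j 1) = B (Pi.single i 1) (w j) +
          B (Pi.single i 1) (X (α j)) := by
        conv_lhs => rw [h0 j]
        rw [map_add]
      have h4 : B (Pi.single i 1) (X (α j)) = B (w i) (X (α j)) + B (X (α i)) (X (α j)) := by
        conv_lhs => rw [h0 i]
        rw [map_add, LinearMap.add_apply]
      have h5 : B (w i) (X (α j)) = ∑ m, α j m * B (Pi.single (k m) 1) (w i) := by
        simp only [X]
        rw [map_sum]
        refine Finset.sum_congr rfl fun m _ => ?_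
        rw [map_smul, smul_eq_mul, hBs]
      rw [h2, h3, h4, h5, hX]
      ring
    have h6 : |∑ m, α j m * B (Pi.single (k m) 1) (w i)| ≤ d' * (η * (d' + 1)) := by
      refine (Finset.abs_sum_le_sum_abs _ _).trans ?_
      calc ∑ m, |α j m * B (Pi.single (k m) 1) (w i)| ≤ ∑ _m : Fin d', η * (d' + 1) := by
            refine Finset.sum_le_sum fun m _ => ?_
            rw [abs_mul]
            calc |α j m| * |B (Pi.single (k m) 1) (w i)| ≤ 1 * (η * (d' + 1)) :=
                  mul_le_mul (hα j m) (hBw _ _) (abs_nonneg _) zero_le_one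
              _ = η * (d' + 1) := one_mul _
        _ = d' * (η * (d' + 1)) := by
            rw [Finset.sum_const, Finset.card_univ, Fintype.card_fin, nsmul_eq_mul]
    have h7 := hBw i j
    rw [h1]
    rw [abs_le] at h6 h7 ⊢
    constructor <;> nlinarith [h6.1, h6.2, h7.1, h7.2]
  set M : Matrix (Fin d') (Fin d') ℝ := Matrix.of fun l m =>
    H (k l) (k m) + if l = m then ε₁ * d' else 0 with hM
  have hMsum : ∀ x y : Fin d' → ℝ, ∑ l, ∑ m, x l * y m * M l m =
      (∑ l, ∑ m, x l * y m * H (k l) (k m)) + ε₁ * d' * ∑ l, x l * y l := by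
    intro x y
    rw [Finset.mul_sum, ← Finset.sum_add_distrib]
    refine Finset.sum_congr rfl fun l _ => ?_
    have h1 : ε₁ * d' * (x l * y l) = ∑ m, x l * y m * (if l = m then ε₁ * d' else 0) := by
      rw [Finset.sum_eq_single l]
      · rw [if_pos rfl]
        ring
      · intro m _ hm
        rw [if_neg (Ne.symm hm), mul_zero]
      · intro h
        exact absurd (Finset.mem_univ l) h
    rw [h1, ← Finset.sum_add_distrib]
    refine Finset.sum_congr rfl fun m _ => ?_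
    rw [hM, of_apply]
    ring
  obtain ⟨C, hC⟩ := lin_psd M (fun l m => by
      rw [hM, of_apply, of_apply, hHs]
      congr 1
      exact if_congr eq_comm rfl rfl) (by
    intro x
    rw [hMsum, ← hX]
    have h1 := hPB (X x)
    have h2 : a1 (X x) ^ 2 ≤ d' * ∑ l, x l ^ 2 := by
      calc a1 (X x) ^ 2 ≤ (∑ l, |x l|) ^ 2 := pow_le_pow_left₀ (a1_nonneg _) (a1_comb k x) 2
        _ ≤ (Finset.univ : Finset (Fin d')).card * ∑ l, |x l| ^ 2 := sq_sum_le_card_mul_sum_sq
        _ = d' * ∑ l, x l ^ 2 := by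
            rw [Finset.card_univ, Fintype.card_fin]
            congr 1
            exact Finset.sum_congr rfl fun l _ => sq_abs _
    have h3 : ∑ l, x l * x l = ∑ l, x l ^ 2 := Finset.sum_congr rfl fun l _ => (sq _).symm
    have h4 := mul_le_mul_of_nonneg_left h2 hε₁
    rw [h3]
    linarith)
  obtain ⟨U, hU⟩ := lin_pad hW fun i => C *ᵥ α i
  refine ⟨U, fun i j => ?_⟩
  have hin : inner ℝ (U i) (U j) = (∑ l, ∑ m, α i l * α j m * H (k l) (k m)) +
      ε₁ * d' * ∑ l, α i l * α j l := by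
    rw [hU, ← hMsum]
    change (C *ᵥ α i) ⬝ᵥ (C *ᵥ α j) = _
    have h1 : (C *ᵥ α i) ⬝ᵥ (C *ᵥ α j) = α i ⬝ᵥ (M *ᵥ α j) := by
      rw [hC, ← mulVec_mulVec, dotProduct_mulVec (α i), vecMul_transpose]
    rw [h1, dotProduct]
    refine Finset.sum_congr rfl fun l _ => ?_
    rw [mulVec, dotProduct, Finset.mul_sum]
    refine Finset.sum_congr rfl fun m _ => ?_
    ring
  have hlast : |ε₁ * d' * ∑ l, α i l * α j l| ≤ ε₁ * (d' : ℝ) ^ 2 := by
    rw [abs_mul, abs_of_nonneg (mul_nonneg hε₁ hd0)]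
    have h1 : |∑ l, α i l * α j l| ≤ d' := by
      refine (Finset.abs_sum_le_sum_abs _ _).trans ?_
      calc ∑ l, |α i l * α j l| ≤ ∑ _l : Fin d', (1 : ℝ) := by
            refine Finset.sum_le_sum fun l _ => ?_
            rw [abs_mul]
            calc |α i l| * |α j l| ≤ 1 * 1 :=
                  mul_le_mul (hα i l) (hα j l) (abs_nonneg _) zero_le_one
              _ = 1 := one_mul _
        _ = d' := by
            rw [Finset.sum_const, Finset.card_univ, Fintype.card_fin, nsmul_eq_mul, mul_one]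
    calc ε₁ * d' * |∑ l, α i l * α j l| ≤ ε₁ * d' * d' :=
          mul_le_mul_of_nonneg_left h1 (mul_nonneg hε₁ hd0)
      _ = ε₁ * (d' : ℝ) ^ 2 := by ring
  have hdd : (d' : ℝ) ≤ d := Nat.cast_le.2 hW
  have hA : ((d' : ℝ) + 1) ^ 2 * η ≤ ((d : ℝ) + 1) ^ 2 * η :=
    mul_le_mul_of_nonneg_right (pow_le_pow_left₀ (by linarith) (by linarith) 2) hη0
  have hC' : ε₁ * (d' : ℝ) ^ 2 ≤ ε₁ * (d : ℝ) ^ 2 :=
    mul_le_mul_of_nonneg_left (pow_le_pow_left₀ hd0 hdd 2) hε₁
  have hm := hmain i j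
  rw [hin]
  rw [abs_le] at hm hlast ⊢
  constructor <;> linarith [hm.1, hm.2, hlast.1, hlast.2]

end Pool.TTF
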