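import Pool.Agent.Lib.MP_695920_nt.TT.Five.PosSeq

set_option autoImplicit false

/-!
TEAM TWOTORSION, n = 5: **positivity** of the height pairing.
-/

open Polynomial

namespace Pool.TTF

/-- a sequence with prescribed multiplicities -/
private theorem pos_seq {ι : Type*} [Fintype ι] (N : ι → ℕ) :
    ∃ e : Fin (∑ i, N i) → ι, ∀ f : ι → ℝ, ∑ k, f (e k) = ∑ i, (N i : ℝ) * f i := by
  classical
  have hc : Fintype.card (Σ i : ι, Fin (N i)) = ∑ i, N i := by
    rw [Fintype.card_sigma]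
    exact Finset.sum_congr rfl fun i _ => Fintype.card_fin _
  let φ : Fin (∑ i, N i) ≃ Σ i : ι, Fin (N i) := (Fintype.equivFinOfCardEq hc).symm
  refine ⟨fun k => (φ k).1, fun f => ?_⟩
  rw [Equiv.sum_comp φ fun p : Σ i : ι, Fin (N i) => f p.1, Fintype.sum_sigma]
  refine Finset.sum_congr rfl fun i _ => ?_
  change ∑ _y : Fin (N i), f i = _
  rw [Finset.sum_const, Finset.card_univ, Fintype.card_fin, nsmul_eq_mul]

private theorem pos_int {ι : Type*} [Fintype ι] (P : FPts ι) (R T : ℝ) (hR : 1 ≤ R) (hT : 4 ≤ T)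
    (hroot : ∀ z : ℂ, (P.F.map (Int.castRingHom ℂ)).IsRoot z → 2 * R ≤ ‖z‖)
    (ht : ∀ i, |(P.t i : ℝ)| ≤ 2 * R / T) (x : ι → ℤ) :
    1 / 2 * Real.log R * (∑ i, (x i : ℝ)) ^ 2 - 4 / T * (∑ i, |(x i : ℝ)|) ^ 2 ≤
      ∑ i, ∑ j, (x i : ℝ) * x j * P.G i j := by
  obtain ⟨C, hC, h⟩ := P.seq_ineq R T hR hT hroot ht fun i => decide (0 ≤ x i)
  set S : ℝ := ∑ i, |(x i : ℝ)| with hS
  have hS0 : 0 ≤ S := Finset.sum_nonneg fun i _ => abs_nonneg _
  set Q : ℝ := ∑ i, ∑ j, (x i : ℝ) * x j * P.G i j with hQ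
  have key : ∀ M : ℕ, 1 ≤ M → 1 / 2 * Real.log R * (∑ i, (x i : ℝ)) ^ 2 - 4 / T * S ^ 2 - Q ≤
      2 * C * (S * Real.sqrt S) / Real.sqrt M := by
    intro M hM
    have hM0 : (0 : ℝ) < M := by exact_mod_cast hM
    have hsM : 0 < Real.sqrt M := Real.sqrt_pos.2 hM0
    obtain ⟨e, he⟩ := pos_seq fun i => M * (x i).natAbs
    have hsg : ∀ i, ((M * (x i).natAbs : ℕ) : ℝ) * sg (decide (0 ≤ x i)) = M * x i := by
      intro i
      rw [Nat.cast_mul, mul_assoc]
      congr 1
      rw [Nat.cast_natAbs, Int.cast_abs, sg]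
      by_cases h0 : 0 ≤ x i
      · rw [decide_eq_true h0, if_pos rfl, mul_one, abs_of_nonneg (by exact_mod_cast h0)]
      · rw [decide_eq_false h0]
        have h1 : (x i : ℝ) < 0 := by exact_mod_cast not_le.1 h0
        rw [abs_of_neg h1]
        simp
    have hs : ((∑ i, M * (x i).natAbs : ℕ) : ℝ) = M * S := by
      rw [hS, Finset.mul_sum]
      push_cast
      refine Finset.sum_congr rfl fun i _ => ?_
      rw [Nat.cast_natAbs, Int.cast_abs]
    by_cases hz : S = 0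
    · have hx : ∀ i, (x i : ℝ) = 0 := by
        intro i
        have h1 := (Finset.sum_eq_zero_iff_of_nonneg fun i _ => abs_nonneg (x i : ℝ)).1
          (hS.symm.trans hz) i (Finset.mem_univ i)
        exact abs_eq_zero.1 h1
      have hQ0 : Q = 0 := by
        rw [hQ]
        refine Finset.sum_eq_zero fun i _ => Finset.sum_eq_zero fun j _ => ?_
        rw [hx i, zero_mul, zero_mul]
      have hx0 : ∑ i, (x i : ℝ) = 0 := Finset.sum_eq_zero fun i _ => hx i
      rw [hQ0, hx0, hz]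
      simp
    · have hSpos : 0 < S := lt_of_le_of_ne hS0 (Ne.symm hz)
      have hs1 : 1 ≤ ∑ i, M * (x i).natAbs := by
        have h1 : (0 : ℝ) < ((∑ i, M * (x i).natAbs : ℕ) : ℝ) := by
          rw [hs]
          positivity
        exact Nat.one_le_iff_ne_zero.2 (by
          intro h2
          rw [h2] at h1
          simp at h1)
      have h2 := h _ e hs1
      have h3 : ∑ k, sg (decide (0 ≤ x (e k))) = M * ∑ i, (x i : ℝ) := by
        rw [he fun i => sg (decide (0 ≤ x i)), Finset.mul_sum]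
        exact Finset.sum_congr rfl fun i _ => hsg i
      have h4 : ∑ k, ∑ m, sg (decide (0 ≤ x (e m))) * sg (decide (0 ≤ x (e k))) *
          P.G (e m) (e k) = (M : ℝ) ^ 2 * Q := by
        have h5 : ∀ k, ∑ m, sg (decide (0 ≤ x (e m))) * sg (decide (0 ≤ x (e k))) *
            P.G (e m) (e k) = sg (decide (0 ≤ x (e k))) * (M * ∑ j, (x j : ℝ) * P.G j (e k)) := by
          intro k
          rw [he fun j => sg (decide (0 ≤ x j)) * sg (decide (0 ≤ x (e k))) * P.G j (e k),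
            Finset.mul_sum, Finset.mul_sum]
          refine Finset.sum_congr rfl fun j _ => ?_
          have h6 := hsg j
          calc _ = (((M * (x j).natAbs : ℕ) : ℝ) * sg (decide (0 ≤ x j))) *
                (sg (decide (0 ≤ x (e k))) * P.G j (e k)) := by ring
            _ = _ := by rw [h6]; ring
        rw [Finset.sum_congr rfl fun k _ => h5 k,
          he fun i => sg (decide (0 ≤ x i)) * (M * ∑ j, (x j : ℝ) * P.G j i), hQ,
          Finset.mul_sum]
        refine Finset.sum_congr rfl fun i _ => ?_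
        have h6 := hsg i
        calc _ = (((M * (x i).natAbs : ℕ) : ℝ) * sg (decide (0 ≤ x i))) *
              (M * ∑ j, (x j : ℝ) * P.G j i) := by ring
          _ = (M : ℝ) ^ 2 * (x i * ∑ j, (x j : ℝ) * P.G j i) := by rw [h6]; ring
          _ = _ := by
            congr 1
            rw [Finset.mul_sum]
            refine Finset.sum_congr rfl fun j _ => ?_
            rw [P.G_comm j i]
            ring
      rw [h3, h4, hs] at h2
      have h7 : (M : ℝ) * S * Real.sqrt (M * S) = (M : ℝ) ^ 2 * (S * Real.sqrt S / Real.sqrt M) := by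
        rw [Real.sqrt_mul hM0.le]
        have h8 : (M : ℝ) = Real.sqrt M * Real.sqrt M := (Real.mul_self_sqrt hM0.le).symm
        field_simp
        rw [sq, ← h8]
      rw [h7] at h2
      have h9 : (M : ℝ) ^ 2 * (1 / 2 * Real.log R * (∑ i, (x i : ℝ)) ^ 2 - 4 / T * S ^ 2 - Q) ≤
          (M : ℝ) ^ 2 * (2 * C * (S * Real.sqrt S) / Real.sqrt M) := by
        have h10 : 2 * C * (S * Real.sqrt S) / Real.sqrt M = 2 * (C * (S * Real.sqrt S /
            Real.sqrt M)) := by ring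
        have h11 : (4 : ℝ) / T = 2 * (2 / T) := by ring
        rw [h10, h11]
        nlinarith [h2]
      exact le_of_mul_le_mul_left h9 (by positivity)
  have hlim : Filter.Tendsto (fun M : ℕ => 2 * C * (S * Real.sqrt S) / Real.sqrt M)
      Filter.atTop (nhds 0) := by
    refine Filter.Tendsto.const_div_atTop ?_ _
    exact Real.tendsto_sqrt_atTop.comp tendsto_natCast_atTop_atTop
  have hfin := ge_of_tendsto hlim (Filter.eventually_atTop.2 ⟨1, fun M hM => key M hM⟩)
  linarith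

/-- Proof from `seq_ineq`. (1) `x` integral: for `M ≥ 1` choose a sequence `e : Fin s → ι`,
`s = M ∑ |x i|`, which lists every `i` exactly `M |x i|` times, `b i = (0 ≤ x i)`; then
`∑ sg = M ∑ x i`, the double sum is `M ^ 2 ∑ ∑ x i x j G i j` (`G_comm` not even needed); divide by
`M ^ 2`, `M → ∞`. (2) `x` rational: homogeneity. (3) `x` real: continuity. -/
theorem FPts.positivity {ι : Type*} [Fintype ι] (P : FPts ι) (R T : ℝ) (hR : 1 ≤ R) (hT : 4 ≤ T)
    (hroot : ∀ z : ℂ, (P.F.map (Int.castRingHom ℂ)).IsRoot z → 2 * R ≤ ‖z‖)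
    (ht : ∀ i, |(P.t i : ℝ)| ≤ 2 * R / T) (x : ι → ℝ) :
    1 / 2 * Real.log R * (∑ i, x i) ^ 2 - 8 / T * (∑ i, |x i|) ^ 2 ≤
      ∑ i, ∑ j, x i * x j * P.G i j := by
  have hT0 : 0 < T := by linarith
  -- the approximations
  have hy : ∀ i, Filter.Tendsto (fun m : ℕ => (⌊(m : ℝ) * x i⌋ : ℝ) / m) Filter.atTop
      (nhds (x i)) := by
    intro i
    have h1 : Filter.Tendsto (fun m : ℕ => (1 : ℝ) / m) Filter.atTop (nhds 0) :=
      tendsto_one_div_atTop_nhds_zero_nat
    have h2 : Filter.Tendsto (fun m : ℕ => x i - 1 / (m : ℝ)) Filter.atTop (nhds (x i)) := by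
      have h3 := h1.const_sub (x i)
      rwa [sub_zero] at h3
    refine tendsto_of_tendsto_of_tendsto_of_le_of_le' h2 tendsto_const_nhds ?_ ?_
    · filter_upwards [Filter.eventually_ge_atTop 1] with m hm
      have hm0 : (0 : ℝ) < m := by exact_mod_cast hm
      rw [le_div_iff₀ hm0, sub_mul, one_div, inv_mul_cancel₀ hm0.ne']
      have := Int.sub_one_lt_floor ((m : ℝ) * x i)
      linarith
    · filter_upwards [Filter.eventually_ge_atTop 1] with m hm
      have hm0 : (0 : ℝ) < m := by exact_mod_cast hm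
      rw [div_le_iff₀ hm0]
      have := Int.floor_le ((m : ℝ) * x i)
      linarith
  have hL : Filter.Tendsto (fun m : ℕ => 1 / 2 * Real.log R *
      (∑ i, (⌊(m : ℝ) * x i⌋ : ℝ) / m) ^ 2 - 4 / T * (∑ i, |(⌊(m : ℝ) * x i⌋ : ℝ) / m|) ^ 2)
      Filter.atTop (nhds (1 / 2 * Real.log R * (∑ i, x i) ^ 2 - 4 / T * (∑ i, |x i|) ^ 2)) := by
    refine Filter.Tendsto.sub ?_ ?_
    · exact ((tendsto_finsetSum _ fun i _ => hy i).pow 2).const_mul _
    · exact ((tendsto_finsetSum _ fun i _ => (hy i).abs).pow 2).const_mul _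
  have hRr : Filter.Tendsto (fun m : ℕ => ∑ i, ∑ j, (⌊(m : ℝ) * x i⌋ : ℝ) / m *
      ((⌊(m : ℝ) * x j⌋ : ℝ) / m) * P.G i j) Filter.atTop
      (nhds (∑ i, ∑ j, x i * x j * P.G i j)) :=
    tendsto_finsetSum _ fun i _ => tendsto_finsetSum _ fun j _ => ((hy i).mul (hy j)).mul_const _
  have hle : 1 / 2 * Real.log R * (∑ i, x i) ^ 2 - 4 / T * (∑ i, |x i|) ^ 2 ≤
      ∑ i, ∑ j, x i * x j * P.G i j := by
    refine le_of_tendsto_of_tendsto hL hRr ?_
    filter_upwards [Filter.eventually_ge_atTop 1] with m hm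
    have hm0 : (0 : ℝ) < m := by exact_mod_cast hm
    have h1 := pos_int P R T hR hT hroot ht fun i => ⌊(m : ℝ) * x i⌋
    have h2 : ∑ i, (⌊(m : ℝ) * x i⌋ : ℝ) / m = (∑ i, (⌊(m : ℝ) * x i⌋ : ℝ)) / m :=
      (Finset.sum_div _ _ _).symm
    have h3 : ∑ i, |(⌊(m : ℝ) * x i⌋ : ℝ) / m| = (∑ i, |(⌊(m : ℝ) * x i⌋ : ℝ)|) / m := by
      rw [Finset.sum_div]
      refine Finset.sum_congr rfl fun i _ => ?_
      rw [abs_div, abs_of_pos hm0]
    have h4 : ∑ i, ∑ j, (⌊(m : ℝ) * x i⌋ : ℝ) / m * ((⌊(m : ℝ) * x j⌋ : ℝ) / m) * P.G i j =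
        (∑ i, ∑ j, (⌊(m : ℝ) * x i⌋ : ℝ) * ⌊(m : ℝ) * x j⌋ * P.G i j) / (m : ℝ) ^ 2 := by
      rw [Finset.sum_div]
      refine Finset.sum_congr rfl fun i _ => ?_
      rw [Finset.sum_div]
      refine Finset.sum_congr rfl fun j _ => ?_
      field_simp
    rw [h2, h3, h4, le_div_iff₀ (by positivity)]
    refine le_trans (le_of_eq ?_) h1
    rw [sub_mul, div_pow, div_pow]
    field_simp
  have h5 : 4 / T * (∑ i, |x i|) ^ 2 ≤ 8 / T * (∑ i, |x i|) ^ 2 := by
    refine mul_le_mul_of_nonneg_right ?_ (sq_nonneg _)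
    exact div_le_div_of_nonneg_right (by norm_num) hT0.le
  linarith

end Pool.TTF
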