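import Mathlib

set_option autoImplicit false

/-!
TEAM TWOTORSION, FIVE: the code bound of Kabatiansky and Levenshtein, asymptotics (weights and
dimensions).
-/

namespace Pool.TTV

open Real

/-- the tent function -/
noncomputable def tent (P c a : ℕ) : ℝ := max 0 ((P : ℝ) - |(a : ℝ) - c|)

theorem tent_nonneg (P c a : ℕ) : 0 ≤ tent P c a := le_max_left _ _

theorem tent_eq_zero {P c a : ℕ} (h : (P : ℝ) ≤ |(a : ℝ) - c|) : tent P c a = 0 :=
  max_eq_left (by linarith)

theorem tent_self {P c : ℕ} : tent P c c = P := by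
  rw [tent, sub_self, abs_zero, sub_zero]
  exact max_eq_right (Nat.cast_nonneg P)

theorem tent_mid {P : ℕ} (hP : 0 < P) (c a : ℕ) :
    2 * (1 - 1 / (P : ℝ)) * tent P c (a + 1) ≤ tent P c a + tent P c (a + 2) := by
  have hP0 : (0 : ℝ) < P := by exact_mod_cast hP
  have hP1 : (1 : ℝ) ≤ P := by exact_mod_cast hP
  have hinv : 0 < 1 / (P : ℝ) := by positivity
  have hinv1 : 1 / (P : ℝ) ≤ 1 := by
    rw [div_le_one hP0]
    exact hP1
  have h1 : (P : ℝ) - |(a : ℝ) - c| ≤ tent P c a := le_max_right _ _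
  have h2 : (P : ℝ) - |(a : ℝ) + 2 - c| ≤ tent P c (a + 2) := by
    have := le_max_right 0 ((P : ℝ) - |((a + 2 : ℕ) : ℝ) - c|)
    rw [tent]
    push_cast at this ⊢
    exact this
  have h01 := tent_nonneg P c a
  have h02 := tent_nonneg P c (a + 2)
  by_cases hlt : (P : ℝ) ≤ |((a + 1 : ℕ) : ℝ) - c|
  · rw [tent_eq_zero hlt, mul_zero]
    exact add_nonneg h01 h02
  push Not at hlt
  have h3 : tent P c (a + 1) = P - |((a + 1 : ℕ) : ℝ) - c| := max_eq_right (by linarith)
  rw [h3]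
  push_cast at hlt ⊢
  rcases lt_trichotomy (a + 1) c with h | h | h
  · have h4 : (a : ℝ) + 1 + 1 ≤ c := by exact_mod_cast h
    have e1 : |(a : ℝ) + 1 - c| = c - a - 1 := by
      rw [abs_of_nonpos (by linarith)]
      ring
    have e2 : |(a : ℝ) - c| = c - a := by
      rw [abs_of_nonpos (by linarith)]
      ring
    have e3 : |(a : ℝ) + 2 - c| = c - a - 2 := by
      rw [abs_of_nonpos (by linarith)]
      ring
    rw [e2] at h1
    rw [e3] at h2
    rw [e1] at hlt ⊢
    nlinarith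
  · have h4 : (a : ℝ) + 1 = c := by exact_mod_cast h
    have e1 : |(a : ℝ) + 1 - c| = 0 := by rw [h4, sub_self, abs_zero]
    have e2 : |(a : ℝ) - c| = 1 := by
      rw [← h4]
      rw [show (a : ℝ) - (a + 1) = -1 by ring, abs_neg, abs_one]
    have e3 : |(a : ℝ) + 2 - c| = 1 := by
      rw [← h4]
      rw [show (a : ℝ) + 2 - (a + 1) = 1 by ring, abs_one]
    rw [e2] at h1
    rw [e3] at h2
    rw [e1, sub_zero]
    have h5 : 2 * (1 - 1 / (P : ℝ)) * P = 2 * P - 2 := by
      field_simp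
    rw [h5]
    linarith
  · have h4 : (c : ℝ) + 1 ≤ a + 1 := by exact_mod_cast h
    have e1 : |(a : ℝ) + 1 - c| = a + 1 - c := abs_of_nonneg (by linarith)
    have e2 : |(a : ℝ) - c| = a - c := abs_of_nonneg (by linarith)
    have e3 : |(a : ℝ) + 2 - c| = a + 2 - c := abs_of_nonneg (by linarith)
    rw [e2] at h1
    rw [e3] at h2
    rw [e1] at hlt ⊢
    nlinarith

/-- **The weights.** -/
theorem kl_weights (κ s : ℝ) (hκ : 0 < κ) (hs0 : 0 ≤ s)
    (hs : s < 2 * √(κ * (1 + κ)) / (1 + 2 * κ)) :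
    ∃ η : ℝ, 0 < η ∧ ∃ M d₀ : ℕ, 0 < M ∧ ∀ d : ℕ, d₀ ≤ d → 3 ≤ d ∧ ∃ (k : ℕ) (g : ℕ → ℝ),
      (k : ℝ) ≤ κ * d + M ∧ (∀ a, 0 ≤ g a) ∧ (∃ a, 0 < g a) ∧ g 0 = 0 ∧
      (∀ a, k < a → g a = 0) ∧ (∀ a, a + M ≤ k → g a = 0) ∧
      ∀ a : ℕ, η * g (a + 1) ≤ ((a : ℝ) + d - 2) / (2 * a + d - 2) * g a +
        ((a : ℝ) + 2) / (2 * (a + 2) + d - 2) * g (a + 2) - s * g (a + 1) := by
  set τ : ℝ := √((1 + κ) / κ) with hτ
  have hτ0 : 0 < τ := by positivity
  have hτ2 : τ ^ 2 = (1 + κ) / κ := Real.sq_sqrt (by positivity)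
  have hden : (0 : ℝ) < 1 + 2 * κ := by positivity
  set lam : ℝ := κ / (1 + 2 * κ) * τ with hlam
  have hlam0 : 0 < lam := by positivity
  have hκτ : κ * τ = √(κ * (1 + κ)) := by
    rw [eq_comm, Real.sqrt_eq_iff_mul_self_eq_of_pos (by positivity)]
    have : κ * τ * (κ * τ) = κ ^ 2 * τ ^ 2 := by ring
    rw [this, hτ2]
    field_simp
  have h2lam : 2 * √(κ * (1 + κ)) / (1 + 2 * κ) = 2 * lam := by
    rw [← hκτ, hlam]
    ring
  rw [h2lam] at hs
  have hlam1 : 2 * lam ≤ 1 := by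
    have h1 : (2 * lam) ^ 2 ≤ 1 := by
      have h2 : (2 * lam) ^ 2 = 4 * κ ^ 2 * τ ^ 2 / (1 + 2 * κ) ^ 2 := by
        rw [hlam]
        field_simp
        ring
      rw [h2, hτ2, div_le_one (by positivity)]
      have h3 : 4 * κ ^ 2 * ((1 + κ) / κ) = 4 * κ * (1 + κ) := by
        field_simp
      rw [h3]
      nlinarith
    nlinarith
  set η : ℝ := (2 * lam - s) / 4 with hη
  have hη0 : 0 < η := by rw [hη]; linarith
  have hη1 : η ≤ 1 / 4 := by rw [hη]; linarith
  refine ⟨η, hη0, ?_⟩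
  obtain ⟨P, hP⟩ := exists_nat_gt (1 / η)
  have hP0 : (0 : ℝ) < P := lt_trans (by positivity) hP
  have hPpos : 0 < P := by exact_mod_cast hP0
  have hPη : 1 / (P : ℝ) ≤ η := by
    rw [div_le_iff₀ hP0]
    rw [div_lt_iff₀ hη0] at hP
    linarith
  obtain ⟨d₁, hd₁⟩ := exists_nat_gt ((P + 2 * κ) / (η * κ) + (P + 3) / κ + 3)
  refine ⟨2 * P, d₁, by omega, fun d hd => ?_⟩
  have hdr : (P + 2 * κ) / (η * κ) + (P + 3) / κ + 3 < (d : ℝ) :=
    lt_of_lt_of_le hd₁ (by exact_mod_cast hd)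
  have hpos1 : 0 < (P + 2 * κ) / (η * κ) := by positivity
  have hpos2 : 0 < (P + 3) / κ := by positivity
  have hd3 : (3 : ℝ) < d := by linarith
  have hd3' : 3 ≤ d := by
    have : 3 < d := by exact_mod_cast hd3
    omega
  -- the two conditions on d
  have hc1 : P + 2 * κ ≤ η * κ * (d - 2) := by
    have h1 : (P + 2 * κ) / (η * κ) ≤ d - 2 := by linarith
    rw [div_le_iff₀ (by positivity)] at h1
    linarith
  have hc2 : P + 3 ≤ κ * d := by
    have h1 : (P + 3) / κ ≤ d := by linarith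
    rw [div_le_iff₀ hκ] at h1
    linarith
  set c : ℕ := ⌊κ * d⌋₊ with hc
  have hcle : (c : ℝ) ≤ κ * d := Nat.floor_le (by positivity)
  have hclt : κ * d < c + 1 := Nat.lt_floor_add_one _
  have hcP : P + 1 ≤ c := by
    have h1 : (P : ℝ) + 1 ≤ c := by linarith
    exact_mod_cast h1
  refine ⟨hd3', c + P - 1, fun a => τ ^ a * tent P c a, ?_, ?_, ⟨c, ?_⟩, ?_, ?_, ?_, ?_⟩
  · have h1 : ((c + P - 1 : ℕ) : ℝ) ≤ c + P := by
      have : c + P - 1 ≤ c + P := Nat.sub_le _ _
      exact_mod_cast this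
    push_cast
    linarith
  · intro a
    exact mul_nonneg (by positivity) (tent_nonneg _ _ _)
  · show 0 < τ ^ c * tent P c c
    rw [tent_self]
    positivity
  · have h1 : tent P c 0 = 0 := by
      apply tent_eq_zero
      rw [Nat.cast_zero, zero_sub, abs_neg, abs_of_nonneg (Nat.cast_nonneg c)]
      have : P ≤ c := by omega
      exact_mod_cast this
    show τ ^ 0 * tent P c 0 = 0
    rw [h1, mul_zero]
  · intro a ha
    have h1 : tent P c a = 0 := by
      apply tent_eq_zero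
      have h2 : c + P ≤ a := by omega
      have h3 : (c : ℝ) + P ≤ a := by exact_mod_cast h2
      exact le_trans (by linarith) (le_abs_self _)
    show τ ^ a * tent P c a = 0
    rw [h1, mul_zero]
  · intro a ha
    have h1 : tent P c a = 0 := by
      apply tent_eq_zero
      have h2 : a + P ≤ c := by omega
      have h3 : (a : ℝ) + P ≤ c := by exact_mod_cast h2
      rw [abs_sub_comm]
      exact le_trans (by linarith) (le_abs_self _)
    show τ ^ a * tent P c a = 0
    rw [h1, mul_zero]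
  · intro a
    show η * (τ ^ (a + 1) * tent P c (a + 1)) ≤
      ((a : ℝ) + d - 2) / (2 * a + d - 2) * (τ ^ a * tent P c a) +
        ((a : ℝ) + 2) / (2 * (a + 2) + d - 2) * (τ ^ (a + 2) * tent P c (a + 2)) -
        s * (τ ^ (a + 1) * tent P c (a + 1))
    have hda : (0 : ℝ) < 2 * a + d - 2 := by
      have : (0 : ℝ) ≤ a := Nat.cast_nonneg a
      linarith
    have hda2 : (0 : ℝ) < 2 * (a + 2) + d - 2 := by linarith
    have ht1 := tent_nonneg P c a
    have ht2 := tent_nonneg P c (a + 1)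
    have ht3 := tent_nonneg P c (a + 2)
    have hτa : 0 < τ ^ (a + 1) := by positivity
    have ha0 : (0 : ℝ) ≤ a := Nat.cast_nonneg a
    -- outside of the support there is nothing to prove
    by_cases hin : (P : ℝ) ≤ |((a + 1 : ℕ) : ℝ) - c|
    · rw [tent_eq_zero hin, mul_zero, mul_zero, mul_zero, sub_zero]
      refine add_nonneg (mul_nonneg (div_nonneg (by linarith) hda.le) (by positivity))
        (mul_nonneg (div_nonneg (by linarith) hda2.le) (by positivity))
    push Not at hin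
    push_cast at hin
    rw [abs_lt] at hin
    -- the coefficients
    have hal : (1 - η) * ((1 + κ) / (1 + 2 * κ)) ≤ ((a : ℝ) + d - 2) / (2 * a + d - 2) := by
      rw [← mul_div_assoc, div_le_div_iff₀ hden hda]
      have h1 : (a : ℝ) ≤ κ * d + P := by linarith [hin.2]
      have h2 : 0 ≤ η * (1 + κ) * (2 * a) := by positivity
      have h3 : η * κ * (d - 2) ≤ η * (1 + κ) * (d - 2) := by
        apply mul_le_mul_of_nonneg_right _ (by linarith)
        nlinarith
      nlinarith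
    have hbe : (1 - η) * (κ / (1 + 2 * κ)) ≤ ((a : ℝ) + 2) / (2 * (a + 2) + d - 2) := by
      rw [← mul_div_assoc, div_le_div_iff₀ hden hda2]
      have h1 : κ * d - P ≤ (a : ℝ) + 2 := by linarith [hin.1]
      have h2 : 0 ≤ η * κ * (2 * (a + 2)) := by positivity
      nlinarith
    have hα : (1 + κ) / (1 + 2 * κ) = lam * τ := by
      rw [hlam, mul_assoc, ← pow_two, hτ2]
      field_simp
    have h1 : (1 - η) * lam * (τ ^ (a + 1) * tent P c a) ≤
        ((a : ℝ) + d - 2) / (2 * a + d - 2) * (τ ^ a * tent P c a) := by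
      rw [hα] at hal
      have h2 := mul_le_mul_of_nonneg_right hal (mul_nonneg (pow_nonneg hτ0.le a) ht1)
      calc (1 - η) * lam * (τ ^ (a + 1) * tent P c a) =
          (1 - η) * (lam * τ) * (τ ^ a * tent P c a) := by rw [pow_succ]; ring
        _ ≤ _ := h2
    have h2 : (1 - η) * lam * (τ ^ (a + 1) * tent P c (a + 2)) ≤
        ((a : ℝ) + 2) / (2 * (a + 2) + d - 2) * (τ ^ (a + 2) * tent P c (a + 2)) := by
      have h2 := mul_le_mul_of_nonneg_right hbe (mul_nonneg (pow_nonneg hτ0.le (a + 2)) ht3)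
      calc (1 - η) * lam * (τ ^ (a + 1) * tent P c (a + 2)) =
          (1 - η) * (κ / (1 + 2 * κ)) * (τ ^ (a + 2) * tent P c (a + 2)) := by
            rw [hlam, pow_succ τ (a + 1)]; ring
        _ ≤ _ := h2
    have h3 := tent_mid hPpos c a
    have h4 : (1 - η) * lam * (τ ^ (a + 1) * (2 * (1 - 1 / (P : ℝ)) * tent P c (a + 1))) ≤
        (1 - η) * lam * (τ ^ (a + 1) * (tent P c a + tent P c (a + 2))) := by
      apply mul_le_mul_of_nonneg_left _ (by nlinarith)
      exact mul_le_mul_of_nonneg_left h3 hτa.le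
    have h5 : (s + η) * (τ ^ (a + 1) * tent P c (a + 1)) ≤
        (1 - η) * lam * (τ ^ (a + 1) * (2 * (1 - 1 / (P : ℝ)) * tent P c (a + 1))) := by
      have h6 : s + η ≤ (1 - η) * (2 * lam) * (1 - 1 / (P : ℝ)) := by
        have h7 : s + η = 2 * lam - 3 * η := by rw [hη]; ring
        rw [h7]
        have h8 : (1 - η) * (1 - η) ≤ (1 - η) * (1 - 1 / (P : ℝ)) :=
          mul_le_mul_of_nonneg_left (by linarith) (by linarith)
        have h9 : 1 - 2 * η ≤ (1 - η) * (1 - 1 / (P : ℝ)) := by nlinarith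
        have h10 : 2 * lam * (1 - 2 * η) ≤ 2 * lam * ((1 - η) * (1 - 1 / (P : ℝ))) :=
          mul_le_mul_of_nonneg_left h9 (by linarith)
        nlinarith
      have h7 := mul_le_mul_of_nonneg_right h6 (mul_nonneg hτa.le ht2)
      calc _ ≤ _ := h7
        _ = _ := by ring
    have h6 : (1 - η) * lam * (τ ^ (a + 1) * (tent P c a + tent P c (a + 2))) =
        (1 - η) * lam * (τ ^ (a + 1) * tent P c a) +
          (1 - η) * lam * (τ ^ (a + 1) * tent P c (a + 2)) := by ring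
    linarith

/-- **The dimensions.** -/
theorem kl_binom (κ : ℝ) (hκ : 0 < κ) (M : ℕ) :
    ∃ A : ℝ, 0 < A ∧ ∀ d k : ℕ, (k : ℝ) ≤ κ * d + M →
      ((d + k - 1).choose k : ℝ) ≤ A * exp (((1 + κ) * log (1 + κ) - κ * log κ) * d) := by
  refine ⟨((1 + κ) / κ) ^ M, by positivity, fun d k hk => ?_⟩
  have h1 : ((d + k - 1).choose k : ℝ) ≤ ((d + k).choose k : ℝ) := by
    exact_mod_cast Nat.choose_le_choose k (Nat.sub_le _ _)
  have h2 : ((d + k).choose k : ℝ) * κ ^ k ≤ (κ + 1) ^ (d + k) := by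
    rw [add_pow]
    have h3 := Finset.single_le_sum (f := fun m : ℕ => κ ^ m * 1 ^ (d + k - m) *
      ((d + k).choose m : ℝ)) (fun m _ => by positivity)
      (Finset.mem_range.2 (show k < d + k + 1 by omega))
    simp only [one_pow, mul_one] at h3 ⊢
    linarith [mul_comm (κ ^ k) (((d + k).choose k : ℕ) : ℝ)]
  have h3 : ((d + k).choose k : ℝ) ≤ (1 + κ) ^ d * ((1 + κ) / κ) ^ k := by
    rw [div_pow, ← mul_div_assoc, le_div_iff₀ (by positivity), ← pow_add, add_comm 1 κ]
    exact h2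
  have h4 : (1 : ℝ) ≤ (1 + κ) / κ := by
    rw [le_div_iff₀ hκ]
    linarith
  have h5 : ((1 + κ) / κ) ^ k ≤ ((1 + κ) / κ) ^ (κ * d + M) := by
    rw [← rpow_natCast]
    exact rpow_le_rpow_of_exponent_le h4 hk
  refine (h1.trans h3).trans ((mul_le_mul_of_nonneg_left h5 (by positivity)).trans (le_of_eq ?_))
  rw [rpow_add (by positivity), rpow_natCast, rpow_def_of_pos (by positivity),
    ← rpow_natCast (1 + κ) d, rpow_def_of_pos (by positivity), log_div (by positivity) hκ.ne']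
  rw [show exp (log (1 + κ) * d) * (exp ((log (1 + κ) - log κ) * (κ * d)) *
    ((1 + κ) / κ) ^ M) = ((1 + κ) / κ) ^ M * (exp (log (1 + κ) * d) *
    exp ((log (1 + κ) - log κ) * (κ * d))) by ring, ← exp_add]
  congr 2
  ring

end Pool.TTV
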