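import Pool.Agent.Lib.MP_695920_nt.TT.Five.KL2
import Pool.Agent.Lib.MP_695920_nt.TT.Five.KL3

/-! # The bound of Kabatiansky and Levenshtein

The number of unit vectors in dimension `d` with pairwise scalar products at most `s` is at most
`A exp (H(κ) d)` for `s < 2 √(κ (1 + κ)) / (1 + 2 κ)`, `H(κ) = (1 + κ) log (1 + κ) - κ log κ`. -/

open Finset

namespace Pool.TT.Five

/-- `H(κ)` -/
noncomputable def ent (κ : ℝ) : ℝ := (1 + κ) * Real.log (1 + κ) - κ * Real.log κ

/-- `κ(s)`, `√(1 - s ^ 2) = 1 / (1 + 2 κ)` -/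
noncomputable def klk (s : ℝ) : ℝ := (1 / √(1 - s ^ 2) - 1) / 2

/-- An exponential rate for the number of unit vectors with scalar products of absolute value at
most `s`. -/
def CodeRate (s E : ℝ) : Prop :=
  ∀ ε : ℝ, 0 < ε → ∃ A : ℝ, 0 < A ∧ ∀ (d N : ℕ) (u : Fin N → Fin d → ℝ),
    (∀ i, dot (u i) (u i) = 1) → (∀ i j, i ≠ j → |dot (u i) (u j)| ≤ s) →
    (N : ℝ) ≤ A * Real.exp ((E + ε) * d)

/-- adding zero coordinates -/
theorem exists_pad {d e N : ℕ} (h : d ≤ e) (u : Fin N → Fin d → ℝ) :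
    ∃ v : Fin N → Fin e → ℝ, ∀ i j, dot (v i) (v j) = dot (u i) (u j) := by
  refine ⟨fun i m => if hm : m.1 < d then u i ⟨m, hm⟩ else 0, fun i j => ?_⟩
  unfold dot
  symm
  refine Fintype.sum_of_injective (Fin.castLE h) (Fin.castLE_injective h) _ _ (fun m hm => ?_)
    fun l => ?_
  · have h1 : ¬ m.1 < d := fun h2 => hm ⟨⟨m.1, h2⟩, Fin.ext rfl⟩
    simp [h1]
  · simp

theorem kl_s_lt_one {κ s : ℝ} (hκ : 0 < κ) (hs : s < 2 * √(κ * (1 + κ)) / (1 + 2 * κ)) :
    s < 1 := by
  refine hs.trans_le ?_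
  rw [div_le_one (by linarith)]
  have h1 : √(κ * (1 + κ)) ≤ (1 + 2 * κ) / 2 := by
    rw [Real.sqrt_le_left (by linarith)]
    nlinarith
  linarith

/-- **The bound of Kabatiansky and Levenshtein.** -/
theorem code_kl {κ s : ℝ} (hκ : 0 < κ) (hs0 : 0 ≤ s)
    (hs : s < 2 * √(κ * (1 + κ)) / (1 + 2 * κ)) :
    ∃ A : ℝ, 0 < A ∧ ∀ (d N : ℕ) (u : Fin N → Fin d → ℝ),
      (∀ i, dot (u i) (u i) = 1) → (∀ i j, i ≠ j → dot (u i) (u j) ≤ s) →
      (N : ℝ) ≤ A * Real.exp (ent κ * d) := by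
  obtain ⟨η, hη, M, d₀, hM, hw⟩ := Pool.TTV.kl_weights κ s hκ hs0 hs
  obtain ⟨A, hA, hbin⟩ := Pool.TTV.kl_binom κ hκ M
  have hs1 : s < 1 := kl_s_lt_one hκ hs
  have hM0 : (0 : ℝ) < M := by exact_mod_cast hM
  -- large dimension
  have hbig : ∀ (d N : ℕ) (u : Fin N → Fin d → ℝ), d₀ ≤ d →
      (∀ i, dot (u i) (u i) = 1) → (∀ i j, i ≠ j → dot (u i) (u j) ≤ s) →
      (N : ℝ) ≤ (1 - s) * M / η * A * Real.exp (ent κ * d) := by
    intro d N u hd hu hoff
    obtain ⟨hd3, k, g, hk, hg0, ⟨a₀, ha₀⟩, hg00, hgk, hgM, hrec⟩ := hw d hd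
    have hcard : Fintype.card (Fin d) = d := Fintype.card_fin d
    have h1 := kl_lp (σ := Fin d) u hu (by rw [hcard]; exact hd3) hs1.le hoff k g hg0 hgk hη.le
      (by
        intro a
        rw [hcard]
        rcases a with _ | a
        · rw [hg00, mul_zero, cf, if_pos rfl, hg00, mul_zero, sub_zero, zero_add]
          refine mul_nonneg ?_ (hg0 _)
          rw [be]
          have : (3 : ℝ) ≤ d := by exact_mod_cast hd3
          apply div_nonneg (Nat.cast_nonneg _)
          push_cast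
          linarith
        · rw [cf, if_neg (Nat.succ_ne_zero a), Nat.add_sub_cancel, al, be]
          have h2 := hrec a
          push_cast at h2 ⊢
          refine h2.trans (le_of_eq ?_)
          have e1 : (a : ℝ) + 1 + 1 = a + 2 := by ring
          rw [e1])
    rw [hcard, Fintype.card_fin] at h1
    -- the support
    have h2 : (∑ a ∈ range (k + 1), g a) ^ 2 ≤ M * ∑ a ∈ range (k + 1), g a ^ 2 := by
      have h3 : ∑ a ∈ range (k + 1), g a =
          ∑ a ∈ (range (k + 1)).filter (fun a => k < a + M), g a := by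
        symm
        refine Finset.sum_subset (Finset.filter_subset _ _) fun a ha ha' => ?_
        refine hgM a ?_
        by_contra hcon
        exact ha' (Finset.mem_filter.2 ⟨ha, by omega⟩)
      have h4 : ((range (k + 1)).filter (fun a => k < a + M)).card ≤ M := by
        have h5 : (range (k + 1)).filter (fun a => k < a + M) ⊆ Finset.Ico (k + 1 - M) (k + 1) := by
          intro a ha
          rw [Finset.mem_filter, Finset.mem_range] at ha
          rw [Finset.mem_Ico]
          omega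
        refine (Finset.card_le_card h5).trans ?_
        rw [Nat.card_Ico]
        omega
      rw [h3]
      refine (sq_sum_le_card_mul_sum_sq).trans ?_
      have h6 : ∑ a ∈ (range (k + 1)).filter (fun a => k < a + M), g a ^ 2 ≤
          ∑ a ∈ range (k + 1), g a ^ 2 :=
        Finset.sum_le_sum_of_subset_of_nonneg (Finset.filter_subset _ _)
          fun _ _ _ => sq_nonneg _
      exact mul_le_mul (by exact_mod_cast h4) h6 (Finset.sum_nonneg fun _ _ => sq_nonneg _)
        hM0.le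
    have ha₀k : a₀ ≤ k := by
      by_contra hcon
      rw [hgk a₀ (by omega)] at ha₀
      exact lt_irrefl _ ha₀
    have h7 : 0 < ∑ a ∈ range (k + 1), g a ^ 2 := by
      refine Finset.sum_pos' (fun _ _ => sq_nonneg _) ⟨a₀, ?_, by positivity⟩
      rw [Finset.mem_range]
      omega
    have hC : (0 : ℝ) ≤ ((d + k - 1).choose k : ℝ) := Nat.cast_nonneg _
    have h8 : (N : ℝ) * η ≤ (1 - s) * M * ((d + k - 1).choose k : ℝ) := by
      refine le_of_mul_le_mul_right ?_ h7
      calc (N : ℝ) * η * ∑ a ∈ range (k + 1), g a ^ 2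
          = (N : ℝ) * (η * ∑ a ∈ range (k + 1), g a ^ 2) := by ring
        _ ≤ (1 - s) * (∑ a ∈ range (k + 1), g a) ^ 2 * ((d + k - 1).choose k : ℝ) := h1
        _ ≤ (1 - s) * (M * ∑ a ∈ range (k + 1), g a ^ 2) * ((d + k - 1).choose k : ℝ) := by
            refine mul_le_mul_of_nonneg_right ?_ hC
            exact mul_le_mul_of_nonneg_left h2 (by linarith)
        _ = _ := by ring
    have h9 : ((d + k - 1).choose k : ℝ) ≤ A * Real.exp (ent κ * d) := hbin d k hk
    calc (N : ℝ) ≤ (1 - s) * M * ((d + k - 1).choose k : ℝ) / η := by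
          rw [le_div_iff₀ hη]
          exact h8
      _ ≤ (1 - s) * M * (A * Real.exp (ent κ * d)) / η := by
          refine div_le_div_of_nonneg_right ?_ hη.le
          exact mul_le_mul_of_nonneg_left h9 (mul_nonneg (by linarith) hM0.le)
      _ = _ := by ring
  -- all dimensions
  have hent : 0 ≤ ent κ := by
    unfold ent
    have h1 : κ * Real.log κ ≤ κ * Real.log (1 + κ) :=
      mul_le_mul_of_nonneg_left (Real.log_le_log hκ (by linarith)) hκ.le
    have h2 : 0 ≤ Real.log (1 + κ) := Real.log_nonneg (by linarith)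
    linarith
  have hB : 0 < (1 - s) * M / η * A := by
    have : 0 < 1 - s := by linarith
    positivity
  refine ⟨(1 - s) * M / η * A * Real.exp (ent κ * d₀), by positivity, fun d N u hu hoff => ?_⟩
  rcases le_total d₀ d with h | h
  · refine (hbig d N u h hu hoff).trans ?_
    have h1 : (1 : ℝ) ≤ Real.exp (ent κ * d₀) :=
      Real.one_le_exp (mul_nonneg hent (Nat.cast_nonneg _))
    calc (1 - s) * M / η * A * Real.exp (ent κ * d)
        ≤ (1 - s) * M / η * A * Real.exp (ent κ * d) * Real.exp (ent κ * d₀) :=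
          le_mul_of_one_le_right (by positivity) h1
      _ = _ := by ring
  · obtain ⟨v, hv⟩ := exists_pad h u
    refine (hbig d₀ N v le_rfl (fun i => by rw [hv]; exact hu i)
      (fun i j hij => by rw [hv]; exact hoff i j hij)).trans ?_
    exact le_mul_of_one_le_right (by positivity)
      (Real.one_le_exp (mul_nonneg hent (Nat.cast_nonneg _)))

/-- `κ > κ(s)` is enough. -/
theorem lt_of_klk_lt {κ s : ℝ} (hs0 : 0 ≤ s) (hs1 : s < 1) (h : klk s < κ) :
    s < 2 * √(κ * (1 + κ)) / (1 + 2 * κ) := by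
  have h1 : 0 < 1 - s ^ 2 := by nlinarith
  have hr : 0 < √(1 - s ^ 2) := Real.sqrt_pos.2 h1
  have hr1 : √(1 - s ^ 2) ≤ 1 := by
    rw [Real.sqrt_le_one]
    nlinarith
  have hk0 : 0 ≤ klk s := by
    unfold klk
    have : 1 ≤ 1 / √(1 - s ^ 2) := by
      rw [le_div_iff₀ hr]
      linarith
    linarith
  have hκ : 0 < κ := lt_of_le_of_lt hk0 h
  have h2 : 1 / √(1 - s ^ 2) < 1 + 2 * κ := by
    unfold klk at h
    linarith
  have h3 : 1 < (1 + 2 * κ) * √(1 - s ^ 2) := by rwa [div_lt_iff₀ hr] at h2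
  have h4 : 1 < (1 + 2 * κ) ^ 2 * (1 - s ^ 2) := by
    have h5 : 1 < ((1 + 2 * κ) * √(1 - s ^ 2)) ^ 2 := by
      rw [one_lt_sq_iff_one_lt_abs, abs_of_pos (by linarith)]
      exact h3
    rwa [mul_pow, Real.sq_sqrt h1.le] at h5
  rw [lt_div_iff₀ (by linarith)]
  have h6 : s * (1 + 2 * κ) = √((s * (1 + 2 * κ)) ^ 2) := by
    rw [Real.sqrt_sq]
    exact mul_nonneg hs0 (by linarith)
  have h7 : 2 * √(κ * (1 + κ)) = √(4 * (κ * (1 + κ))) := by
    have h8 : (4 : ℝ) * (κ * (1 + κ)) = 2 ^ 2 * (κ * (1 + κ)) := by norm_num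
    have h9 : √((2 : ℝ) ^ 2) = 2 := Real.sqrt_sq (by norm_num)
    rw [h8, Real.sqrt_mul (by norm_num) (κ * (1 + κ)), h9]
  rw [h6, h7]
  apply Real.sqrt_lt_sqrt (sq_nonneg _)
  nlinarith

theorem ent_continuousAt {κ : ℝ} (hκ : 0 < κ) : ContinuousAt ent κ := by
  unfold ent
  have h1 : (1 + κ) ≠ 0 := by linarith
  have h2 : κ ≠ 0 := hκ.ne'
  fun_prop (disch := assumption)

/-- **The rate of Kabatiansky and Levenshtein.** -/
theorem codeRate_kl {s : ℝ} (hs0 : 0 < s) (hs1 : s < 1) : CodeRate s (ent (klk s)) := by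
  intro ε hε
  have h1 : 0 < 1 - s ^ 2 := by nlinarith
  have hr : 0 < √(1 - s ^ 2) := Real.sqrt_pos.2 h1
  have hr1 : √(1 - s ^ 2) < 1 := by
    rw [Real.sqrt_lt' one_pos]
    nlinarith
  have hk0 : 0 < klk s := by
    unfold klk
    have : 1 < 1 / √(1 - s ^ 2) := by
      rw [lt_div_iff₀ hr]
      linarith
    linarith
  obtain ⟨δ, hδ, hδ'⟩ := Metric.continuousAt_iff.1 (ent_continuousAt hk0) ε hε
  set κ : ℝ := klk s + δ / 2 with hκ
  have hκk : klk s < κ := by rw [hκ]; linarith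
  have hκ0 : 0 < κ := hk0.trans hκk
  have h2 : ent κ < ent (klk s) + ε := by
    have h3 := hδ' (show dist κ (klk s) < δ by
      rw [Real.dist_eq, hκ, add_sub_cancel_left, abs_of_pos (by linarith)]
      linarith)
    rw [Real.dist_eq] at h3
    have := (abs_lt.1 h3).2
    linarith
  obtain ⟨A, hA, h⟩ := code_kl hκ0 hs0.le (lt_of_klk_lt hs0.le hs1 hκk)
  refine ⟨A, hA, fun d N u hu hoff => ?_⟩
  refine (h d N u hu fun i j hij => (le_abs_self _).trans (hoff i j hij)).trans ?_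
  refine mul_le_mul_of_nonneg_left (Real.exp_le_exp.2 ?_) hA.le
  exact mul_le_mul_of_nonneg_right h2.le (Nat.cast_nonneg _)

end Pool.TT.Five
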