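import Pool.Agent.Lib.MP_695920_nt.TT.Five.CoreCount
import Pool.Agent.Lib.MP_695920_nt.TT.Five.KL4

set_option autoImplicit false

/-!
TEAM TWOTORSION, plan (E), slices: counting the points of one class, abstract form, from any
one-sided rate for spherical codes (all degrees, no number field) (helper20).
-/

namespace Pool.TT.Five

/-- An exponential rate for the number of unit vectors with scalar products at most `s`. -/
def CodeRateT (s E : ℝ) : Prop :=
  ∀ ε : ℝ, 0 < ε → ∃ A : ℝ, 0 < A ∧ ∀ (d N : ℕ) (u : Fin N → Fin d → ℝ),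
    (∀ i, dot (u i) (u i) = 1) → (∀ i j, i ≠ j → dot (u i) (u j) ≤ s) →
    (N : ℝ) ≤ A * Real.exp ((E + ε) * d)

/-- **The rate of Kabatiansky and Levenshtein**, one-sided. -/
theorem codeRateT_kl {s : ℝ} (hs0 : 0 < s) (hs1 : s < 1) : CodeRateT s (ent (klk s)) := by
  intro ε hε
  have h1 : 0 < 1 - s ^ 2 := by nlinarith
  have hr : 0 < √(1 - s ^ 2) := Real.sqrt_pos.2 h1
  have hr1 : √(1 - s ^ 2) < 1 := by
    rw [Real.sqrt_lt' one_pos]
    nlinarith
  have hk0 : 0 < klk s := by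
    unfold klk
    have : 1 < 1 / √(1 - s ^ 2) := by
      rw [lt_div_iff₀ hr]
      linarith
    linarith
  obtain ⟨δ, hδ, hδ'⟩ := Metric.continuousAt_iff.1 (ent_continuousAt hk0) ε hε
  set κ : ℝ := klk s + δ / 2 with hκ
  have hκk : klk s < κ := by rw [hκ]; linarith
  have hκ0 : 0 < κ := hk0.trans hκk
  have h2 : ent κ < ent (klk s) + ε := by
    have h3 := hδ' (show dist κ (klk s) < δ by
      rw [Real.dist_eq, hκ, add_sub_cancel_left, abs_of_pos (by linarith)]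
      linarith)
    rw [Real.dist_eq] at h3
    have := (abs_lt.1 h3).2
    linarith
  obtain ⟨A, hA, h⟩ := code_kl hκ0 hs0.le (lt_of_klk_lt hs0.le hs1 hκk)
  refine ⟨A, hA, fun d N u hu hoff => ?_⟩
  refine (h d N u hu fun i j hij => hoff i j hij).trans ?_
  refine mul_le_mul_of_nonneg_left (Real.exp_le_exp.2 ?_) hA.le
  exact mul_le_mul_of_nonneg_right h2.le (Nat.cast_nonneg _)

end Pool.TT.Five

namespace Pool.TTV

open Real Polynomial Module Pool.TT Pool.TT.Five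

/-- A one-sided code rate for vectors of length at least `√m`. -/
theorem code_vec_rateT {s E ε : ℝ} (hs : 0 ≤ s) (hE : CodeRateT s E) (hε : 0 < ε) :
    ∃ A : ℝ, 0 < A ∧ ∀ (d N : ℕ) (u : Fin N → EuclideanSpace ℝ (Fin d)) (m : ℝ),
    0 < m → (∀ i, m ≤ inner ℝ (u i) (u i)) →
    (∀ i j, i ≠ j → inner ℝ (u i) (u j) ≤ s * m) →
    (N : ℝ) ≤ A * exp ((E + ε) * d) := by
  obtain ⟨A, hA, hcode⟩ := hE ε hε
  refine ⟨A, hA, fun d N u m hm hdiag hoff => ?_⟩
  have hpos : ∀ i, √m ≤ ‖u i‖ := by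
    intro i
    have h1 := hdiag i
    rw [real_inner_self_eq_norm_sq] at h1
    rw [sqrt_le_left (norm_nonneg _)]
    exact h1
  have hsm : 0 < √m := sqrt_pos.2 hm
  have hpos' : ∀ i, 0 < ‖u i‖ := fun i => lt_of_lt_of_le hsm (hpos i)
  have hinner : ∀ i j, dot (fun a => ‖u i‖⁻¹ * u i a) (fun a => ‖u j‖⁻¹ * u j a) =
      ‖u i‖⁻¹ * ‖u j‖⁻¹ * inner ℝ (u i) (u j) := by
    intro i j
    unfold dot
    rw [PiLp.inner_apply, Finset.mul_sum]
    refine Finset.sum_congr rfl fun a _ => ?_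
    simp only [RCLike.inner_apply, conj_trivial]
    ring
  refine hcode d N (fun i a => ‖u i‖⁻¹ * u i a) ?_ ?_
  · intro i
    rw [hinner, real_inner_self_eq_norm_sq]
    have := (hpos' i).ne'
    field_simp
  · intro i j hij
    rw [hinner, ← mul_inv, inv_mul_le_iff₀ (by
      have := hpos' i
      have := hpos' j
      positivity)]
    refine (hoff i j hij).trans ?_
    rw [mul_comm s m]
    apply mul_le_mul_of_nonneg_right _ hs
    calc m = √m * √m := (mul_self_sqrt hm.le).symm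
      _ ≤ ‖u i‖ * ‖u j‖ := mul_le_mul (hpos i) (hpos j) hsm.le (norm_nonneg _)

/-- The counting step, one-sided: `m` is a lower bound for the squares of the lengths. -/
theorem core_rateT {γ E ε : ℝ} (hγ : 0 < γ) (hE : CodeRateT γ E) (hε : 0 < ε) :
    ∃ A : ℝ, 0 < A ∧ ∀ (N d : ℕ) (P : TTF.FPts (Fin N)) (R T b m ε₂ : ℝ)
      (W : Submodule ℝ (Fin N → ℝ)),
      1 ≤ R → 4 ≤ T → 0 ≤ ε₂ → 0 < m →
      (∀ z : ℂ, (P.F.map (Int.castRingHom ℂ)).IsRoot z → 2 * R ≤ ‖z‖) →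
      (∀ i, |(P.t i : ℝ)| ≤ 2 * R / T) →
      (∀ i, P.G i i ≤ b) →
      (∀ i, m + (1 / 2 * log R + 1) ≤ P.G i i) →
      1 / 2 * log R + 1 - log (T / 4) ≤ γ * m →
      finrank ℝ ((Fin N → ℝ) ⧸ W) ≤ d →
      (∀ w ∈ W, ∑ i, w i = 0 ∧ ∑ i, ∑ j, w i * w j * P.G i j ≤ ε₂ * (∑ i, |w i|) ^ 2) →
      ((d : ℝ) + 1) ^ 2 * √((b + 2 * (8 / T)) * (ε₂ + 2 * (8 / T))) + 8 / T * (d : ℝ) ^ 2 ≤ 1 →
      (N : ℝ) ≤ A * exp ((E + ε) * d) := by
  obtain ⟨A, hA, hcode⟩ := code_vec_rateT hγ.le hE hε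
  refine ⟨A, hA, fun N d P R T b m ε₂ W hR hT hε₂ hm hroot ht hb hdiag hoff hd hW herr => ?_⟩
  have hT0 : 0 < T := by linarith
  have hR0 : 0 < R := by linarith
  have hlR : 0 ≤ log R := log_nonneg hR
  obtain ⟨u, hu⟩ := TTF.exists_vec P.G P.G_comm (1 / 2 * log R) b (8 / T) ε₂ (by positivity)
    hε₂ W d hd (fun x => P.positivity R T hR hT hroot ht x)
    (fun w hw => by
      obtain ⟨h1, h2⟩ := hW w hw
      rw [h1]
      linarith)
    (fun i => by have := hb i; linarith)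
  have hu' : ∀ i j, |inner ℝ (u i) (u j) - (P.G i j - 1 / 2 * log R)| ≤ 1 :=
    fun i j => (hu i j).trans herr
  refine hcode d N u m hm (fun i => ?_) (fun i j hij => ?_)
  · have h1 := hu' i i
    have h2 := hdiag i
    rw [abs_le] at h1
    linarith
  · have h1 := hu' i j
    have h3 : P.G i j ≤ log R - log (T / 4) := by
      refine (fpts_G_le P hij).trans ?_
      rw [← log_div hR0.ne' (by positivity)]
      apply log_le_log
      · rw [abs_pos, sub_ne_zero]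
        exact_mod_cast P.inj.ne hij
      · have h4 := ht i
        have h5 := ht j
        have h6 : R / (T / 4) = 2 * R / T + 2 * R / T := by
          field_simp
          ring
        rw [h6]
        calc |(P.t i : ℝ) - P.t j| ≤ |(P.t i : ℝ)| + |(P.t j : ℝ)| := abs_sub _ _
          _ ≤ 2 * R / T + 2 * R / T := by linarith
    rw [abs_le] at h1
    linarith

/-- **The numerical form of the counting step.** -/
theorem count_rateT {γ E σ a ε : ℝ} (hγ : 0 < γ) (hE : CodeRateT γ E) (hσ : E < σ * log 2)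
    (hσ0 : 0 ≤ σ) (ha : 1 ≤ a) (hε : 0 < ε) :
    ∃ C : ℝ, 1 ≤ C ∧ ∀ (D h : ℝ) (m N d : ℕ) (P : TTF.FPts (Fin N)) (R T g : ℝ)
      (W : Submodule ℝ (Fin N → ℝ)),
      1 ≤ D → 1 ≤ h → m ≠ 0 → (m : ℝ) ≤ (a * D) ^ a →
      (d : ℝ) ≤ log h / log 2 + a * (1 + m.primeFactors.card) →
      1 ≤ R → C * D ^ ε * h ^ ε ≤ T →
      (∀ z : ℂ, (P.F.map (Int.castRingHom ℂ)).IsRoot z → 2 * R ≤ ‖z‖) →
      (∀ i, |(P.t i : ℝ)| ≤ 2 * R / T) →
      (∀ i, P.G i i ≤ a * (log D + 1)) →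
      0 < g → (∀ i, g + (1 / 2 * log R + 1) ≤ P.G i i) →
      1 / 2 * log R + 1 - log (T / 4) ≤ γ * g →
      finrank ℝ ((Fin N → ℝ) ⧸ W) ≤ d →
      (∀ w ∈ W, ∑ i, w i = 0 ∧
        ∑ i, ∑ j, w i * w j * P.G i j ≤ a * (log D + 1) / T * (∑ i, |w i|) ^ 2) →
      (N : ℝ) ≤ C * h ^ σ * D ^ ε := by
  have hl2 : 0 < log 2 := log_pos (by norm_num)
  have hl2' : 1 / 2 < log 2 := by have := log_two_gt_d9; linarith
  have ha0 : 0 < a := by linarith
  obtain ⟨A, hA, hcore⟩ := core_rateT hγ hE (sub_pos.2 hσ)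
  obtain ⟨C1, hC1, hom1⟩ := exp_omega_le (σ * log 2 * a) (δ := ε / a) (by positivity)
  obtain ⟨C2, hC2, hom2⟩ := exp_omega_le 1 (δ := ε / (8 * a)) (by positivity)
  set C3 : ℝ := 16 / ε + (2 * a + a * (C2 * a ^ (ε / 8))) with hC3
  set C4 : ℝ := a * (8 / ε) + (a + 24) with hC4
  set C5 : ℝ := A * (exp (σ * log 2 * a) * (C1 * a ^ ε)) with hC5
  have hC3' : 0 < C3 := by positivity
  have hC4' : 0 < C4 := by positivity
  have hC5' : 0 < C5 := by positivity
  refine ⟨4 + (C3 ^ 2 * C4) ^ 2 + C5, by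
    have : 0 < (C3 ^ 2 * C4) ^ 2 := by positivity
    linarith, ?_⟩
  intro D h m N d P R T g W hD hh hm hmD hd hR hT hroot ht hb hg hdiag hoff hW hrel
  have hD0 : 0 < D := by linarith
  have hh0 : 0 < h := by linarith
  have hlD : 0 ≤ log D := log_nonneg hD
  have hlh : 0 ≤ log h := log_nonneg hh
  set p : ℝ := h ^ (ε / 8) with hp
  set q : ℝ := D ^ (ε / 8) with hq
  have hp1 : 1 ≤ p := one_le_rpow hh (by positivity)
  have hq1 : 1 ≤ q := one_le_rpow hD (by positivity)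
  have hp0 : 0 < p := by linarith
  have hq0 : 0 < q := by linarith
  have hp8 : h ^ ε = p ^ 8 := by
    rw [hp, ← rpow_natCast, ← rpow_mul hh0.le]
    congr 1
    push_cast
    ring
  have hq8 : D ^ ε = q ^ 8 := by
    rw [hq, ← rpow_natCast, ← rpow_mul hD0.le]
    congr 1
    push_cast
    ring
  set om : ℝ := (m.primeFactors.card : ℝ) with hom
  have hom0 : 0 ≤ om := Nat.cast_nonneg _
  have hmpow : ∀ δ : ℝ, 0 < δ → (m : ℝ) ^ (δ / a) ≤ a ^ δ * D ^ δ := by
    intro δ hδ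
    calc (m : ℝ) ^ (δ / a) ≤ ((a * D) ^ a) ^ (δ / a) :=
          rpow_le_rpow (Nat.cast_nonneg _) hmD (by positivity)
      _ = a ^ δ * D ^ δ := by
          rw [← rpow_mul (by positivity), mul_div_cancel₀ _ ha0.ne', mul_rpow ha0.le hD0.le]
  have h1 : d + 1 ≤ C3 * (p * q) := by
    have e1 : log h / log 2 ≤ 16 / ε * p := by
      have e2 := log_le_rpow_div hh0.le (show 0 < ε / 8 by positivity)
      rw [← hp] at e2
      rw [div_le_iff₀ hl2]
      have e3 : p / (ε / 8) = 8 / ε * p := by field_simp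
      rw [e3] at e2
      have e4 : 0 < 8 / ε * p := by positivity
      calc log h ≤ 8 / ε * p := e2
        _ ≤ 8 / ε * p * (2 * log 2) := le_mul_of_one_le_right e4.le (by linarith)
        _ = _ := by ring
    have e2 : om ≤ C2 * a ^ (ε / 8) * q := by
      have e3 := hom2 m hm
      rw [one_mul, ← hom] at e3
      have e4 := add_one_le_exp om
      have e5 := hmpow (ε / 8) (by positivity)
      have e6 : ε / 8 / a = ε / (8 * a) := by rw [div_div]
      rw [e6] at e5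
      calc om ≤ exp om := by linarith
        _ ≤ C2 * (m : ℝ) ^ (ε / (8 * a)) := e3
        _ ≤ C2 * (a ^ (ε / 8) * q) := mul_le_mul_of_nonneg_left e5 hC2.le
        _ = _ := by ring
    have e3 : 16 / ε * p ≤ 16 / ε * (p * q) := by
      apply mul_le_mul_of_nonneg_left _ (by positivity)
      exact le_mul_of_one_le_right hp0.le hq1
    have e4 : q ≤ p * q := le_mul_of_one_le_left hq0.le hp1
    have e5 : 1 ≤ p * q := le_trans hq1 e4
    have e6 : a * (1 + om) + 1 ≤ (2 * a + a * (C2 * a ^ (ε / 8))) * (p * q) := by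
      have e7 : a * om ≤ a * (C2 * a ^ (ε / 8)) * (p * q) := by
        calc a * om ≤ a * (C2 * a ^ (ε / 8) * q) := mul_le_mul_of_nonneg_left e2 ha0.le
          _ = a * (C2 * a ^ (ε / 8)) * q := by ring
          _ ≤ _ := mul_le_mul_of_nonneg_left e4 (by positivity)
      have e8 : 2 * a ≤ 2 * a * (p * q) := le_mul_of_one_le_right (by positivity) e5
      linarith
    rw [hC3, add_mul]
    linarith
  have h2 : a * (log D + 1) + 24 ≤ C4 * q := by
    have e2 := log_le_rpow_div hD0.le (show 0 < ε / 8 by positivity)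
    rw [← hq] at e2
    have e3 : q / (ε / 8) = 8 / ε * q := by field_simp
    rw [e3] at e2
    have e4 := mul_le_mul_of_nonneg_left e2 ha0.le
    have e5 : a + 24 ≤ (a + 24) * q := le_mul_of_one_le_right (by positivity) hq1
    rw [hC4, add_mul]
    linarith
  have h3 : (((d : ℝ) + 1) ^ 2 * (a * (log D + 1) + 24)) ^ 2 ≤ (C3 ^ 2 * C4) ^ 2 * (D ^ ε * h ^ ε) := by
    have e1 : ((d : ℝ) + 1) ^ 2 * (a * (log D + 1) + 24) ≤ (C3 * (p * q)) ^ 2 * (C4 * q) := by
      apply mul_le_mul _ h2 (by positivity) (by positivity)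
      exact pow_le_pow_left₀ (by positivity) h1 2
    calc (((d : ℝ) + 1) ^ 2 * (a * (log D + 1) + 24)) ^ 2 ≤ ((C3 * (p * q)) ^ 2 * (C4 * q)) ^ 2 :=
          pow_le_pow_left₀ (by positivity) e1 2
      _ = (C3 ^ 2 * C4) ^ 2 * (q ^ 6 * p ^ 4) := by ring
      _ ≤ (C3 ^ 2 * C4) ^ 2 * (q ^ 8 * p ^ 8) := by
          apply mul_le_mul_of_nonneg_left _ (by positivity)
          exact mul_le_mul (pow_le_pow_right₀ hq1 (by norm_num)) (pow_le_pow_right₀ hp1 (by norm_num))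
            (by positivity) (by positivity)
      _ = _ := by rw [hp8, hq8]
  have hDh : 1 ≤ D ^ ε * h ^ ε :=
    one_le_mul_of_one_le_of_one_le (one_le_rpow hD hε.le) (one_le_rpow hh hε.le)
  have hT4 : 4 + (C3 ^ 2 * C4) ^ 2 * (D ^ ε * h ^ ε) ≤ T := by
    have e1 : 0 < C5 * (D ^ ε * h ^ ε) := by positivity
    have e2 : (4 + (C3 ^ 2 * C4) ^ 2 + C5) * D ^ ε * h ^ ε =
        4 * (D ^ ε * h ^ ε) + (C3 ^ 2 * C4) ^ 2 * (D ^ ε * h ^ ε) + C5 * (D ^ ε * h ^ ε) := by ring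
    rw [e2] at hT
    linarith
  have h4 : 0 ≤ (C3 ^ 2 * C4) ^ 2 * (D ^ ε * h ^ ε) := by positivity
  have hT0 : 4 ≤ T := by linarith
  have h5 := hcore N d P R T (a * (log D + 1)) g (a * (log D + 1) / T) W hR hT0
    (by positivity) hg hroot ht hb hdiag hoff hW hrel
    (core_err (by positivity) hT0 (by linarith))
  have h6 : E + (σ * log 2 - E) = σ * log 2 := by ring
  rw [h6] at h5
  have h7 : σ * log 2 * d ≤ log h * σ + (σ * log 2 * a + σ * log 2 * a * om) := by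
    have e1 : 0 ≤ σ * log 2 := by positivity
    have e2 := mul_le_mul_of_nonneg_left hd e1
    have e3 : σ * log 2 * (log h / log 2 + a * (1 + om)) =
        log h * σ + (σ * log 2 * a + σ * log 2 * a * om) := by
      field_simp
    rw [e3] at e2
    exact e2
  have h8 : exp (σ * log 2 * a * om) ≤ C1 * a ^ ε * D ^ ε := by
    refine (hom1 m hm).trans ?_
    calc C1 * (m : ℝ) ^ (ε / a) ≤ C1 * (a ^ ε * D ^ ε) :=
          mul_le_mul_of_nonneg_left (hmpow ε hε) hC1.le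
      _ = _ := by ring
  have h9 : exp (σ * log 2 * d) ≤ h ^ σ * (exp (σ * log 2 * a) * (C1 * a ^ ε * D ^ ε)) := by
    refine (exp_le_exp.2 h7).trans ?_
    rw [exp_add, exp_add, ← rpow_def_of_pos hh0]
    apply mul_le_mul_of_nonneg_left _ (by positivity)
    exact mul_le_mul_of_nonneg_left h8 (exp_pos _).le
  have hpos : 0 ≤ h ^ σ * D ^ ε := by positivity
  calc (N : ℝ) ≤ A * exp (σ * log 2 * d) := h5
    _ ≤ A * (h ^ σ * (exp (σ * log 2 * a) * (C1 * a ^ ε * D ^ ε))) :=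
        mul_le_mul_of_nonneg_left h9 hA.le
    _ = C5 * (h ^ σ * D ^ ε) := by rw [hC5]; ring
    _ ≤ (4 + (C3 ^ 2 * C4) ^ 2 + C5) * (h ^ σ * D ^ ε) := by
        apply mul_le_mul_of_nonneg_right _ hpos
        have : 0 < (C3 ^ 2 * C4) ^ 2 := by positivity
        linarith
    _ = _ := by ring

end Pool.TTV
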