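import Pool.Agent.Lib.MP_695920_nt.TT.Even.MainAll

set_option autoImplicit false

/-!
TEAM TWOTORSION, FIVE: from the bound for the integral points on one line, `n = 5`, to the
theorem for every degree `n ≥ 5`.
-/

open Pool.TT

namespace Pool.TTV

open NumberField Module Real

/-- The bound for the points on one line in degree five: at most
`C' (D ^ a + h ^ σ D ^ κ)` with `a < 1 / 10` and `3 / 10 + κ < (2 / 5) (1 - σ)`. -/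
def Line5 : Prop :=
  ∃ a σ κ : ℝ, a < 1 / 10 ∧ 0 ≤ σ ∧ 3 / 10 + κ < 2 / 5 * (1 - σ) ∧ 0 ≤ κ ∧
    ∀ c : ℝ, 1 ≤ c → ∃ C' : ℝ, 0 < C' ∧
      ∀ (K : Type) [Field K] [NumberField K], finrank ℚ K = 5 → ∀ θ : 𝓞 K,
        (minpoly ℤ θ).natDegree = 5 →
        (∀ z : ℂ, ((minpoly ℤ θ).map (Int.castRingHom ℂ)).IsRoot z →
          ‖z‖ ≤ c * |(discr K : ℝ)| ^ ((1 : ℝ) / 5)) →
        (Set.ncard {p : ℤ × ℤ | |(p.1 : ℝ)| ≤ c * |(discr K : ℝ)| ^ ((1 : ℝ) / 5) ∧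
          0 < p.2 ∧ p.2 ^ 2 = (minpoly ℤ θ).eval p.1} : ℝ) ≤
        C' * (|(discr K : ℝ)| ^ a +
          (Nat.card {x : ClassGroup (𝓞 K) // x ^ 2 = 1} : ℝ) ^ σ * |(discr K : ℝ)| ^ κ)

/-- Degree five: an exponent below `2 / 5`. -/
theorem final_five (hline : Line5) :
    ∃ Δ : ℝ, Δ < 2 / 5 ∧ ∃ C : ℝ, ∀ (K : Type) [Field K] [NumberField K],
      finrank ℚ K = 5 →
      (Nat.card {x : ClassGroup (𝓞 K) // x ^ 2 = 1} : ℝ) ≤ C * |(discr K : ℝ)| ^ Δ := by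
  obtain ⟨a, σ, κ, ha, hσ0, hκ, hκ0, hline⟩ := hline
  have hσ : σ < 1 := by
    by_contra hcon
    push Not at hcon
    nlinarith
  have hσ1 : 0 < 1 - σ := by linarith
  obtain ⟨Δ, hΔ1, hΔ2⟩ : ∃ Δ : ℝ, max (1 / 3) (max (3 / 10 + a) ((3 / 10 + κ) / (1 - σ))) < Δ ∧
      Δ < 2 / 5 := by
    apply exists_between
    refine max_lt (by norm_num) (max_lt (by linarith) ?_)
    rw [div_lt_iff₀ hσ1]
    exact hκ
  have hM1 : 1 / 3 < Δ := lt_of_le_of_lt (le_max_left _ _) hΔ1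
  have hM2 : 3 / 10 + a < Δ :=
    lt_of_le_of_lt ((le_max_left _ _).trans (le_max_right _ _)) hΔ1
  have hM3 : 3 / 10 + κ < Δ * (1 - σ) := by
    have : (3 / 10 + κ) / (1 - σ) < Δ :=
      lt_of_le_of_lt ((le_max_right _ _).trans (le_max_right _ _)) hΔ1
    rwa [div_lt_iff₀ hσ1] at this
  refine ⟨Δ, hΔ2, ?_⟩
  obtain ⟨c, hc, hlines⟩ := linesStmt 5 ⟨2, by norm_num⟩ (by norm_num)
  obtain ⟨C', hC', hbound⟩ := hline c hc
  refine ⟨max (2 * (c + c * C')) ((2 * (c + c * C')) ^ (1 / (1 - σ))), fun K _ _ hK => ?_⟩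
  obtain ⟨F, hcard, hprop, hsum⟩ := hlines K hK
  set D : ℝ := |(discr K : ℝ)| with hD
  set h : ℝ := (Nat.card {x : ClassGroup (𝓞 K) // x ^ 2 = 1} : ℝ) with hh
  have hD1 : 1 ≤ D := by
    have : (1 : ℤ) ≤ |discr K| := Int.one_le_abs (NumberField.discr_ne_zero K)
    rw [hD]
    exact_mod_cast this
  have hD0 : 0 < D := by linarith
  have hh0 : 0 ≤ h := Nat.cast_nonneg _
  apply bootstrap hσ (by positivity) hD1 hh0
  have hcpos : 0 < c := by linarith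
  have hexp : ((1 : ℝ) / 2 - 1 / ((5 : ℕ) : ℝ)) = 3 / 10 := by norm_num
  have hexp5 : ((1 : ℝ) / ((5 : ℕ) : ℝ)) = 1 / 5 := by norm_num
  rw [hexp] at hcard
  simp only [hexp5] at hprop hsum
  have e1 : c * D ^ ((1 : ℝ) / 3) ≤ c * D ^ Δ :=
    mul_le_mul_of_nonneg_left (rpow_le_rpow_of_exponent_le hD1 hM1.le) hcpos.le
  have hhσ : 0 ≤ h ^ σ := rpow_nonneg hh0 _
  have hDa : 0 ≤ D ^ a := rpow_nonneg hD0.le _
  have hDk : 0 ≤ D ^ κ := rpow_nonneg hD0.le _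
  have e2 : ∑ θ ∈ F, (Set.ncard {p : ℤ × ℤ | |(p.1 : ℝ)| ≤ c * D ^ ((1 : ℝ) / 5) ∧
            0 < p.2 ∧ p.2 ^ 2 = (minpoly ℤ θ).eval p.1} : ℝ) ≤
      (F.card : ℝ) * (C' * (D ^ a + h ^ σ * D ^ κ)) := by
    rw [← nsmul_eq_mul]
    apply Finset.sum_le_card_nsmul
    intro θ hθ
    exact hbound K hK θ (hprop θ hθ).1 (hprop θ hθ).2
  have e3 : (F.card : ℝ) * (C' * (D ^ a + h ^ σ * D ^ κ)) ≤
      (c * D ^ ((3 : ℝ) / 10)) * (C' * (D ^ a + h ^ σ * D ^ κ)) := by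
    apply mul_le_mul_of_nonneg_right hcard
    positivity
  have e4 : D ^ ((3 : ℝ) / 10) * D ^ a ≤ D ^ Δ := by
    rw [← rpow_add hD0]
    exact rpow_le_rpow_of_exponent_le hD1 hM2.le
  have e5 : D ^ ((3 : ℝ) / 10) * D ^ κ ≤ D ^ (Δ * (1 - σ)) := by
    rw [← rpow_add hD0]
    exact rpow_le_rpow_of_exponent_le hD1 hM3.le
  have hDΔ : 0 ≤ D ^ Δ := rpow_nonneg hD0.le _
  have hDΔσ : 0 ≤ D ^ (Δ * (1 - σ)) := rpow_nonneg hD0.le _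
  calc h ≤ c * D ^ ((1 : ℝ) / 3) + _ := hsum
    _ ≤ c * D ^ Δ + (c * D ^ ((3 : ℝ) / 10)) * (C' * (D ^ a + h ^ σ * D ^ κ)) :=
          add_le_add e1 (e2.trans e3)
    _ = c * D ^ Δ + c * C' * (D ^ ((3 : ℝ) / 10) * D ^ a) +
        c * C' * (D ^ ((3 : ℝ) / 10) * D ^ κ) * h ^ σ := by ring
    _ ≤ c * D ^ Δ + c * C' * D ^ Δ + c * C' * D ^ (Δ * (1 - σ)) * h ^ σ := by
          gcongr
    _ ≤ (c + c * C') * D ^ Δ + (c + c * C') * D ^ (Δ * (1 - σ)) * h ^ σ := by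
          have : 0 ≤ c * D ^ (Δ * (1 - σ)) * h ^ σ := by positivity
          nlinarith

/-- The theorem for every degree `n ≥ 5`. -/
theorem main_five (hline : Line5) : ∃ Δ : ℕ → ℝ,
    (∀ n : ℕ, 5 ≤ n → Δ n < 1 / 2 - 1 / (2 * n) ∧ ∃ C : ℝ,
      ∀ (K : Type) [Field K] [NumberField K], finrank ℚ K = n →
        (Nat.card {x : ClassGroup (𝓞 K) // x ^ 2 = 1} : ℝ) ≤ C * |(discr K : ℝ)| ^ Δ n) ∧
    ∀ δ : ℝ, 0 < δ → ∃ n₀ : ℕ, ∀ n : ℕ, n₀ ≤ n →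
      Δ n ≤ (1 : ℝ) / 2 - (1 - δ) / n := by
  obtain ⟨Δ, hΔ1, hΔ2⟩ := Pool.TTE.main_all
  obtain ⟨Δ₅, h5, C₅, hC₅⟩ := final_five hline
  refine ⟨fun n => if n = 5 then Δ₅ else Δ n, fun n hn => ?_, fun δ hδ => ?_⟩
  · by_cases h : n = 5
    · subst h
      simp only [if_true]
      exact ⟨by norm_num; linarith, C₅, hC₅⟩
    · simp only [if_neg h]
      exact hΔ1 n (by omega)
  · obtain ⟨n₀, hn₀⟩ := hΔ2 δ hδ
    refine ⟨max n₀ 6, fun n hn => ?_⟩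
    have h6 : 6 ≤ n := le_trans (le_max_right _ _) hn
    have h : n ≠ 5 := by omega
    simp only [if_neg h]
    exact hn₀ n (le_trans (le_max_left _ _) hn)

end Pool.TTV
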