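import Pool.Agent.Lib.MP_695920_nt.TT.Five.KL4

set_option autoImplicit false

/-!
TEAM TWOTORSION, version 2: the numbers for the rate of Kabatiansky and Levenshtein at the cosine
`1 / (n - 1)` (helper90).
-/

open Real

namespace Pool.TT.Five

/-- the rate in powers of `h = #Cl[2]` -/
noncomputable def bKL (n : ℕ) : ℝ := ent (klk (1 / ((n : ℝ) - 1))) / log 2

/-- the exponent -/
noncomputable def thetaKL (n : ℕ) : ℝ := (1 / 2 - 1 / (n : ℝ)) / (1 - bKL n)

/-- `s = √(n (n - 2)) = (n - 1) √(1 - c ^ 2)` for `c = 1 / (n - 1)` -/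
noncomputable def sKL (n : ℕ) : ℝ := √((n : ℝ) * (n - 2))

section

variable {n : ℕ} (hn : 3 ≤ n)

include hn

theorem sKL_sq : sKL n ^ 2 = (n : ℝ) * (n - 2) := by
  have h : (3 : ℝ) ≤ n := by exact_mod_cast hn
  exact Real.sq_sqrt (by nlinarith)

theorem sKL_pos : 0 < sKL n := by
  have h : (3 : ℝ) ≤ n := by exact_mod_cast hn
  exact Real.sqrt_pos.2 (by nlinarith)

theorem sKL_lt : sKL n < (n : ℝ) - 1 := by
  have h : (3 : ℝ) ≤ n := by exact_mod_cast hn
  have h1 := sKL_sq hn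
  have h2 := sKL_pos hn
  nlinarith

/-- `κ_n = (n - 1 - s) / (2 s)` -/
theorem klk_eq : klk (1 / ((n : ℝ) - 1)) = ((n : ℝ) - 1 - sKL n) / (2 * sKL n) := by
  have h : (3 : ℝ) ≤ n := by exact_mod_cast hn
  have h1 := sKL_sq hn
  have h2 := sKL_pos hn
  have hn1 : 0 < (n : ℝ) - 1 := by linarith
  have h3 : √(1 - (1 / ((n : ℝ) - 1)) ^ 2) = sKL n / (n - 1) := by
    rw [Real.sqrt_eq_iff_mul_self_eq_of_pos (by positivity)]
    rw [← pow_two, div_pow, h1, div_pow, one_pow, eq_sub_iff_add_eq, ← add_div,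
      div_eq_one_iff_eq (by positivity)]
    ring
  rw [klk, h3]
  field_simp

/-- `κ_n = 1 / (2 s (n - 1 + s))` -/
theorem klk_eq' : klk (1 / ((n : ℝ) - 1)) = 1 / (2 * sKL n * ((n : ℝ) - 1 + sKL n)) := by
  have h : (3 : ℝ) ≤ n := by exact_mod_cast hn
  have h1 := sKL_sq hn
  have h2 := sKL_pos hn
  rw [klk_eq hn, div_eq_div_iff (by positivity) (by
    have : 0 < (n : ℝ) - 1 + sKL n := by linarith
    positivity)]
  nlinarith

theorem klk_pos : 0 < klk (1 / ((n : ℝ) - 1)) := by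
  have h : (3 : ℝ) ≤ n := by exact_mod_cast hn
  have h2 := sKL_pos hn
  rw [klk_eq' hn]
  have : 0 < (n : ℝ) - 1 + sKL n := by linarith
  positivity

theorem klk_lt : klk (1 / ((n : ℝ) - 1)) < 1 / (4 * ((n : ℝ) * (n - 2))) := by
  have h : (3 : ℝ) ≤ n := by exact_mod_cast hn
  have h1 := sKL_sq hn
  have h2 := sKL_pos hn
  have h3 := sKL_lt hn
  rw [klk_eq' hn, ← h1]
  apply one_div_lt_one_div_of_lt (by positivity)
  nlinarith

theorem klk_gt : 1 / (4 * ((n : ℝ) - 1) ^ 2) < klk (1 / ((n : ℝ) - 1)) := by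
  have h : (3 : ℝ) ≤ n := by exact_mod_cast hn
  have h1 := sKL_sq hn
  have h2 := sKL_pos hn
  have h3 := sKL_lt hn
  rw [klk_eq' hn]
  apply one_div_lt_one_div_of_lt
  · have : 0 < (n : ℝ) - 1 + sKL n := by linarith
    positivity
  · nlinarith

end

/-- the upper bound for the entropy -/
theorem ent_le {κ : ℝ} (h0 : 0 < κ) : ent κ ≤ κ * (1 + κ - log κ) := by
  unfold ent
  have h2 : log (1 + κ) ≤ κ := by
    have := log_le_sub_one_of_pos (show 0 < 1 + κ by linarith)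
    linarith
  nlinarith

/-- the lower bound for the entropy -/
theorem le_ent {κ : ℝ} (h0 : 0 < κ) : κ * (1 - log κ) ≤ ent κ := by
  unfold ent
  have h1 : κ / (1 + κ) ≤ log (1 + κ) := by
    have h2 := one_sub_inv_le_log_of_pos (show 0 < 1 + κ by linarith)
    have h3 : 1 - (1 + κ)⁻¹ = κ / (1 + κ) := by
      field_simp
      ring
    rwa [h3] at h2
  have h4 : κ ≤ (1 + κ) * log (1 + κ) := by
    rw [div_le_iff₀ (by linarith)] at h1
    linarith
  linarith

/-- the upper bound for the rate -/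
theorem ent_klk_le {n : ℕ} (hn : 5 ≤ n) : ent (klk (1 / ((n : ℝ) - 1))) ≤
    1 / (4 * ((n : ℝ) * (n - 2))) * (61 / 60 + 2 * log 2 + 2 * log ((n : ℝ) - 1)) := by
  have h : (5 : ℝ) ≤ n := by exact_mod_cast hn
  have hn3 : 3 ≤ n := by omega
  have h1 := klk_pos hn3
  have h2 := klk_lt hn3
  have h3 := klk_gt hn3
  set κ := klk (1 / ((n : ℝ) - 1)) with hκ
  have hn1 : 0 < (n : ℝ) - 1 := by linarith
  have h4 : -log κ ≤ 2 * log 2 + 2 * log ((n : ℝ) - 1) := by
    have h5 : log (1 / (4 * ((n : ℝ) - 1) ^ 2)) ≤ log κ := log_le_log (by positivity) h3.le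
    have h6 : log (1 / (4 * ((n : ℝ) - 1) ^ 2)) = -(2 * log 2 + 2 * log ((n : ℝ) - 1)) := by
      rw [one_div, log_inv, show (4 : ℝ) * ((n : ℝ) - 1) ^ 2 = (2 * ((n : ℝ) - 1)) ^ 2 by ring,
        log_pow, log_mul (by norm_num) hn1.ne']
      push_cast
      ring
    rw [h6] at h5
    linarith
  have h5 : 1 / (4 * ((n : ℝ) * (n - 2))) ≤ 1 / 60 := by
    apply one_div_le_one_div_of_le (by norm_num)
    nlinarith
  have h6 : 0 ≤ log 2 := log_nonneg (by norm_num)
  have h7 : 0 ≤ log ((n : ℝ) - 1) := log_nonneg (by linarith)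
  calc ent κ ≤ κ * (1 + κ - log κ) := ent_le h1
    _ ≤ κ * (61 / 60 + 2 * log 2 + 2 * log ((n : ℝ) - 1)) :=
        mul_le_mul_of_nonneg_left (by linarith) h1.le
    _ ≤ _ := mul_le_mul_of_nonneg_right h2.le (by positivity)

theorem ent_klk_nonneg {n : ℕ} (hn : 5 ≤ n) : 0 ≤ ent (klk (1 / ((n : ℝ) - 1))) := by
  have h : (5 : ℝ) ≤ n := by exact_mod_cast hn
  have hn3 : 3 ≤ n := by omega
  have h1 := klk_pos hn3
  have h2 := klk_lt hn3
  have h5 : 1 / (4 * ((n : ℝ) * (n - 2))) ≤ 1 / 60 := by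
    apply one_div_le_one_div_of_le (by norm_num)
    nlinarith
  refine le_trans (mul_nonneg h1.le ?_) (le_ent h1)
  have : log (klk (1 / ((n : ℝ) - 1))) ≤ 0 := log_nonpos h1.le (by linarith)
  linarith

theorem bKL_nonneg {n : ℕ} (hn : 5 ≤ n) : 0 ≤ bKL n :=
  div_nonneg (ent_klk_nonneg hn) (log_nonneg (by norm_num))

/-- `(n - 1) b_n < 1` -/
theorem sub_one_mul_bKL_lt {n : ℕ} (hn : 5 ≤ n) : ((n : ℝ) - 1) * bKL n < 1 := by
  have h : (5 : ℝ) ≤ n := by exact_mod_cast hn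
  have hl2 : 0 < log 2 := log_pos (by norm_num)
  have h1 := log_two_gt_d9
  have h2 := log_two_lt_d9
  have hn1 : 0 < (n : ℝ) - 1 := by linarith
  have hn2 : 0 < (n : ℝ) * (n - 2) := by nlinarith
  have h3 : log ((n : ℝ) - 1) ≤ 2 * log 2 + (n - 5) / 4 := by
    have h4 : log ((n : ℝ) - 1) = log 4 + log (((n : ℝ) - 1) / 4) := by
      rw [← log_mul (by norm_num) (by positivity)]
      congr 1
      ring
    have h5 : log (((n : ℝ) - 1) / 4) ≤ ((n : ℝ) - 1) / 4 - 1 :=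
      log_le_sub_one_of_pos (by positivity)
    have h6 : log (4 : ℝ) = 2 * log 2 := by
      rw [show (4 : ℝ) = 2 ^ 2 by norm_num, log_pow]
      push_cast
      ring
    rw [h4, h6]
    linarith
  have h4 := ent_klk_le hn
  rw [bKL, ← mul_div_assoc, div_lt_one hl2]
  have h5 : ((n : ℝ) - 1) * ent (klk (1 / ((n : ℝ) - 1))) ≤
      ((n : ℝ) - 1) * (1 / (4 * ((n : ℝ) * (n - 2))) *
        (61 / 60 + 2 * log 2 + 2 * (2 * log 2 + (n - 5) / 4))) := by
    refine mul_le_mul_of_nonneg_left (h4.trans ?_) hn1.le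
    exact mul_le_mul_of_nonneg_left (by linarith) (by positivity)
  refine lt_of_le_of_lt h5 ?_
  rw [show ((n : ℝ) - 1) * (1 / (4 * ((n : ℝ) * (n - 2))) *
        (61 / 60 + 2 * log 2 + 2 * (2 * log 2 + (n - 5) / 4))) =
      ((n : ℝ) - 1) * (61 / 60 + 2 * log 2 + 2 * (2 * log 2 + (n - 5) / 4)) /
        (4 * ((n : ℝ) * (n - 2))) by ring, div_lt_iff₀ (by positivity)]
  nlinarith

theorem bKL_lt_one {n : ℕ} (hn : 5 ≤ n) : bKL n < 1 := by
  have h : (5 : ℝ) ≤ n := by exact_mod_cast hn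
  have h1 := sub_one_mul_bKL_lt hn
  have h2 := bKL_nonneg hn
  nlinarith

/-- **The exponent is below `1 / 2 - 1 / (2 n)` for every `n ≥ 5`.** -/
theorem thetaKL_lt {n : ℕ} (hn : 5 ≤ n) : thetaKL n < 1 / 2 - 1 / (2 * (n : ℝ)) := by
  have h : (5 : ℝ) ≤ n := by exact_mod_cast hn
  have h1 := sub_one_mul_bKL_lt hn
  have h2 := bKL_lt_one hn
  have hn0 : (0 : ℝ) < n := by linarith
  rw [thetaKL, div_lt_iff₀ (by linarith)]
  have e1 : (1 : ℝ) / 2 - 1 / n = (n - 2) / (2 * n) := by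
    field_simp
  have e2 : (1 : ℝ) / 2 - 1 / (2 * n) = (n - 1) / (2 * n) := by
    field_simp
  rw [e1, e2, div_mul_eq_mul_div]
  apply div_lt_div_of_pos_right _ (by positivity)
  nlinarith

/-- `b_5 ≥ 1 / 10` -/
theorem bKL_five_ge : 1 / 10 ≤ bKL 5 := by
  have h1 := klk_pos (n := 5) (by norm_num)
  have h2 := klk_lt (n := 5) (by norm_num)
  have h3 := klk_gt (n := 5) (by norm_num)
  rw [bKL]
  set κ := klk (1 / (((5 : ℕ) : ℝ) - 1)) with hκ
  norm_num at h2 h3
  have hl2 : 0 < log 2 := log_pos (by norm_num)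
  have h4 := log_two_lt_d9
  rw [le_div_iff₀ hl2]
  have h5 : log κ ≤ -(5 * log 2) := by
    have h6 : log κ ≤ log ((1 / 2 : ℝ) ^ 5) := log_le_log h1 (by norm_num; linarith)
    rw [log_pow, one_div, log_inv] at h6
    push_cast at h6
    linarith
  have h6 := le_ent h1
  have h7 : 1 / 64 * (1 + 5 * log 2) ≤ κ * (1 - log κ) := by
    apply mul_le_mul h3.le (by linarith) (by positivity) h1.le
  linarith

/-- `1 / 3 ≤ θ_n` -/
theorem third_le_thetaKL {n : ℕ} (hn : 5 ≤ n) : 1 / 3 ≤ thetaKL n := by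
  have h2 := bKL_lt_one hn
  have h0 := bKL_nonneg hn
  rw [thetaKL, le_div_iff₀ (by linarith)]
  rcases Nat.lt_or_ge n 6 with h | h
  · have h5 : n = 5 := by omega
    subst h5
    have h6 := bKL_five_ge
    push_cast
    linarith
  · have h6 : (6 : ℝ) ≤ n := by exact_mod_cast h
    have h7 : 1 / (n : ℝ) ≤ 1 / 6 := one_div_le_one_div_of_le (by norm_num) h6
    linarith

/-- `θ_5 < .3415` -/
theorem thetaKL_five : thetaKL 5 < 3415 / 10000 := by
  have h1 := klk_pos (n := 5) (by norm_num)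
  have h3 := klk_gt (n := 5) (by norm_num)
  have hl2 : 0 < log 2 := log_pos (by norm_num)
  have h4 := log_two_gt_d9
  have h4' := log_two_lt_d9
  -- `√15`
  have hs := sKL_sq (n := 5) (by norm_num)
  have hs0 := sKL_pos (n := 5) (by norm_num)
  norm_num at hs
  have hs1 : 387298 / 100000 < sKL 5 := by nlinarith
  have hs2 : sKL 5 < 387299 / 100000 := by nlinarith
  have hk := klk_eq (n := 5) (by norm_num)
  have hb : bKL 5 < 12152 / 100000 := by
    rw [bKL]
    set κ := klk (1 / (((5 : ℕ) : ℝ) - 1)) with hκ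
    push_cast at hk
    have hk1 : κ < 163984 / 10000000 := by
      rw [hk, div_lt_iff₀ (by positivity)]
      linarith
    have hk2 : 1 / 61 < κ := by
      rw [hk, lt_div_iff₀ (by positivity)]
      linarith
    rw [div_lt_iff₀ hl2]
    have h5 : -log κ ≤ 6 * log 2 - 3 / 64 := by
      have h6 : log (1 / 61) ≤ log κ := log_le_log (by norm_num) hk2.le
      have h7 : log (1 / 61 : ℝ) = -(6 * log 2) - log (61 / 64) := by
        have h8 : (1 / 61 : ℝ) = ((2 : ℝ) ^ 6)⁻¹ / (61 / 64) := by norm_num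
        rw [h8, log_div (by norm_num) (by norm_num), log_inv, log_pow]
        push_cast
        ring
      have h8 : log (61 / 64 : ℝ) ≤ 61 / 64 - 1 := log_le_sub_one_of_pos (by norm_num)
      rw [h7] at h6
      linarith
    have h6 := ent_le h1
    have h7 : κ * (1 + κ - log κ) ≤ 163984 / 10000000 * (1 + 163984 / 10000000 +
        (6 * log 2 - 3 / 64)) := by
      apply mul_le_mul hk1.le (by linarith) _ (by norm_num)
      have : log κ ≤ 0 := log_nonpos h1.le (by linarith)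
      linarith
    linarith
  rw [thetaKL, div_lt_iff₀ (by linarith)]
  push_cast
  linarith

/-- **`θ_n ≤ 1 / 2 - (1 - δ) / n` for large `n`.** -/
theorem thetaKL_le {δ : ℝ} (hδ : 0 < δ) : ∃ n₀ : ℕ, ∀ n : ℕ, n₀ ≤ n →
    thetaKL n ≤ 1 / 2 - (1 - δ) / (n : ℝ) := by
  obtain ⟨n₁, hn₁⟩ := exists_nat_gt ((4 / δ) ^ 2)
  refine ⟨max n₁ 5, fun n hn => ?_⟩
  have hn5 : 5 ≤ n := le_trans (le_max_right _ _) hn
  have hnn₁ : n₁ ≤ n := le_trans (le_max_left _ _) hn
  have h : (5 : ℝ) ≤ n := by exact_mod_cast hn5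
  have hn0 : (0 : ℝ) < n := by linarith
  have hl2 : 0 < log 2 := log_pos (by norm_num)
  have h4 := log_two_gt_d9
  have h4' := log_two_lt_d9
  have hbig : (4 / δ) ^ 2 < (n : ℝ) := lt_of_lt_of_le hn₁ (by exact_mod_cast hnn₁)
  have hsq : 4 / δ < √n := by
    rw [Real.lt_sqrt (by positivity)]
    exact hbig
  set r : ℝ := √n with hr
  have hr0 : 0 < r := lt_trans (by positivity) hsq
  have hr2 : r ^ 2 = n := Real.sq_sqrt hn0.le
  have hr1 : 2 ≤ r := by nlinarith
  have h1 := ent_klk_le hn5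
  have h2 := bKL_lt_one hn5
  have h0 := bKL_nonneg hn5
  have hn2 : 0 < (n : ℝ) * (n - 2) := by nlinarith
  -- `log (n - 1) ≤ 2 √n`
  have h3 : log ((n : ℝ) - 1) ≤ 2 * (r - 1) := by
    have h5 : log ((n : ℝ) - 1) ≤ log n := log_le_log (by linarith) (by linarith)
    have h6 : log (n : ℝ) = 2 * log r := by
      rw [← hr2, log_pow]
      push_cast
      ring
    have h7 := log_le_sub_one_of_pos hr0
    linarith
  -- `n b_n ≤ 2 δ`
  have hb : (n : ℝ) * bKL n ≤ 2 * δ := by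
    rw [bKL, ← mul_div_assoc, div_le_iff₀ hl2]
    have h5 : (n : ℝ) * ent (klk (1 / ((n : ℝ) - 1))) ≤
        n * (1 / (4 * ((n : ℝ) * (n - 2))) * (61 / 60 + 2 * log 2 + 2 * (2 * (r - 1)))) := by
      refine mul_le_mul_of_nonneg_left (h1.trans ?_) hn0.le
      exact mul_le_mul_of_nonneg_left (by linarith) (by positivity)
    refine h5.trans ?_
    have h6 : n * (1 / (4 * ((n : ℝ) * (n - 2))) * (61 / 60 + 2 * log 2 + 2 * (2 * (r - 1)))) =
        (61 / 60 + 2 * log 2 + 2 * (2 * (r - 1))) / (4 * ((n : ℝ) - 2)) := by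
      have : (n : ℝ) - 2 ≠ 0 := by linarith
      field_simp
    rw [h6, div_le_iff₀ (by linarith)]
    have h7 : 61 / 60 + 2 * log 2 + 2 * (2 * (r - 1)) ≤ 4 * r := by linarith
    have h8 : 4 < δ * r := by
      rw [div_lt_iff₀ hδ] at hsq
      linarith
    have h9 : (n : ℝ) / 2 ≤ n - 2 := by linarith
    have h10 : 4 * r ≤ 2 * δ * log 2 * (4 * ((n : ℝ) / 2)) := by
      rw [← hr2]
      have : 2 * δ * log 2 * (4 * (r ^ 2 / 2)) = 4 * log 2 * (δ * r) * r := by ring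
      rw [this]
      have h11 : 1 ≤ log 2 * (δ * r) := by nlinarith
      nlinarith
    refine h7.trans (h10.trans ?_)
    apply mul_le_mul_of_nonneg_left _ (by positivity)
    linarith
  rw [thetaKL, div_le_iff₀ (by linarith)]
  have e1 : (1 / 2 - (1 - δ) / (n : ℝ)) * (1 - bKL n) = 1 / 2 - 1 / n + δ / n -
      bKL n * (1 / 2 - (1 - δ) / n) := by
    field_simp
    ring
  rw [e1]
  by_cases hδ1 : δ ≤ 1
  · have h5 : bKL n * (1 / 2 - (1 - δ) / n) ≤ bKL n * (1 / 2) := by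
      apply mul_le_mul_of_nonneg_left _ h0
      have : 0 ≤ (1 - δ) / (n : ℝ) := div_nonneg (by linarith) hn0.le
      linarith
    have h6 : bKL n * (1 / 2) ≤ δ / n := by
      rw [le_div_iff₀ hn0]
      linarith
    linarith
  · -- `δ > 1`: the bound `1 / 2 - 1 / (2 n)` is enough
    push Not at hδ1
    have h5 := thetaKL_lt hn5
    rw [thetaKL, div_lt_iff₀ (by linarith)] at h5
    have h6 : 1 / 2 - 1 / (2 * (n : ℝ)) ≤ 1 / 2 - (1 - δ) / (n : ℝ) := by
      have : (1 - δ) / (n : ℝ) ≤ 0 := div_nonpos_of_nonpos_of_nonneg (by linarith) hn0.le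
      have h7 : 0 < 1 / (2 * (n : ℝ)) := by positivity
      linarith
    have h7 := mul_le_mul_of_nonneg_right h6 (show 0 ≤ 1 - bKL n by linarith)
    rw [e1] at h7
    linarith

end Pool.TT.Five
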