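import Pool.Agent.Lib.MP_695920_nt.TT.Even.ELines

set_option autoImplicit false

/-!
TEAM TWOTORSION, version 2: the sum over the curves `y ^ 2 = f(x)` with a better exponent for the
elements which do not generate the field, in particular `1 / 6` for cubic fields (helper81).
-/

open NumberField Module Polynomial nonZeroDivisors

namespace Pool.TT.Five

open Pool.TT

/-- The statement `LinesStmtE` with the exponent `a` in place of `1 / 3`. -/
def LinesStmtA (n : ℕ) (a : ℝ) : Prop :=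
  ∃ c : ℝ, 1 ≤ c ∧ ∀ (K : Type) [Field K] [NumberField K], finrank ℚ K = n →
      ∃ 𝓕 : Finset (𝓞 K), (𝓕.card : ℝ) ≤ c * |(discr K : ℝ)| ^ ((1 : ℝ) / 2 - 1 / n) ∧
        (∀ θ ∈ 𝓕, (minpoly ℤ θ).natDegree = n ∧
          ∀ z : ℂ, ((minpoly ℤ θ).map (Int.castRingHom ℂ)).IsRoot z →
            ‖z‖ ≤ c * |(discr K : ℝ)| ^ ((1 : ℝ) / n)) ∧
        (Nat.card {x : ClassGroup (𝓞 K) // x ^ 2 = 1} : ℝ) ≤
          c * |(discr K : ℝ)| ^ a +
          2 * ∑ θ ∈ 𝓕, (Set.ncard {p : ℤ × ℤ | |(p.1 : ℝ)| ≤ c * |(discr K : ℝ)| ^ ((1 : ℝ) / n) ∧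
            0 < p.2 ∧ p.2 ^ 2 = (minpoly ℤ θ).eval p.1} : ℝ)

/-- The bound for the ideals whose square is generated by an element of the box which does not
generate the field. -/
def NongenStmt (n : ℕ) (a : ℝ) : Prop :=
  ∃ C' : ℝ, 0 ≤ C' ∧
    ∀ (K : Type) [Field K] [NumberField K], finrank ℚ K = n →
      {I : Ideal (𝓞 K) | ∃ φ ψ : K →+* ℂ, φ ≠ ψ ∧
        I ∈ SqIdeals K (2 * |(discr K : ℝ)| ^ ((1 : ℝ) / n)) φ ψ}.Finite ∧
      ({I : Ideal (𝓞 K) | ∃ φ ψ : K →+* ℂ, φ ≠ ψ ∧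
        I ∈ SqIdeals K (2 * |(discr K : ℝ)| ^ ((1 : ℝ) / n)) φ ψ}.ncard : ℝ) ≤
          C' * |(discr K : ℝ)| ^ a

theorem linesStmtA_of_nongen (n : ℕ) (hn : 0 < n) {a : ℝ} (hng : NongenStmt n a) :
    LinesStmtA n a := by
  classical
  obtain ⟨C₁, hC₁, hco⟩ := cosets_all.{0} n hn (C := 2) (by norm_num)
  obtain ⟨C₂, hC₂, hng⟩ := hng
  set c : ℝ := 4 + C₁ + 2 * C₂ with hc
  refine ⟨c, by rw [hc]; linarith, fun K _ _ hK => ?_⟩
  obtain ⟨Θ, hcard, hprop, hexc⟩ := hco K hK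
  obtain ⟨hfinE, hE⟩ := hng K hK
  set D : ℝ := |(discr K : ℝ)| with hD
  have hDpos : 0 < D := abs_pos.mpr (by exact_mod_cast NumberField.discr_ne_zero K)
  have hc1 : C₁ ≤ c := by rw [hc]; linarith
  have hc2 : 2 * C₂ ≤ c := by rw [hc]; linarith
  have hc4 : 4 ≤ c := by rw [hc]; linarith
  set X : ℝ := D ^ ((1 : ℝ) / n) with hX
  have hXpos : 0 < X := Real.rpow_pos_of_pos hDpos _
  have hneg : Function.Injective (fun θ : 𝓞 K => -θ) := neg_injective
  refine ⟨Θ.image fun θ => -θ, ?_, ?_, ?_⟩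
  · rw [Finset.card_image_of_injective _ hneg]
    exact hcard.trans (mul_le_mul_of_nonneg_right hc1 (Real.rpow_nonneg hDpos.le _))
  · intro η hη
    obtain ⟨θ, hθ, rfl⟩ := Finset.mem_image.mp hη
    have hcoe : ((-θ : 𝓞 K) : K) = -(θ : K) := by simp
    constructor
    · rw [← hK]
      apply natDegree_minpoly_of_injective
      intro σ τ hst
      by_contra hne
      apply (hprop θ hθ).2 σ τ hne
      simp only [hcoe, map_neg, neg_inj] at hst
      exact hst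
    · intro z hz
      refine (root_bound (-θ) (2 * X) (fun σ => ?_) z hz).trans
        (mul_le_mul_of_nonneg_right (by linarith) hXpos.le)
      rw [hcoe, map_neg, norm_neg]
      exact (hprop θ hθ).1 σ
  · set V : Set (Ideal (𝓞 K)) := BoxIdeals K (2 * X) with hV
    have hcl : Nat.card {x : ClassGroup (𝓞 K) // x ^ 2 = 1} ≤ 2 * V.ncard := by
      have := card_le_boxIdeals K
      rwa [hK] at this
    set E : Set (Ideal (𝓞 K)) := {I : Ideal (𝓞 K) | ∃ φ ψ : K →+* ℂ, φ ≠ ψ ∧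
        I ∈ SqIdeals K (2 * X) φ ψ} with hEdef
    set T : 𝓞 K → Set (Ideal (𝓞 K)) := fun θ => {I | I ∈ V ∧ ∃ β : 𝓞 K,
      I ^ 2 = Ideal.span {β} ∧ β ∈ box K (2 * X) ∧ (∃ y : ℤ, 0 < y ∧ y ^ 2 = Algebra.norm ℤ β) ∧
        ∃ x : ℤ, β = θ + x} with hT
    have hfinT : ∀ θ, (T θ).Finite := fun θ => (boxIdeals_finite K (2 * X)).subset
      fun I hI => hI.1
    have hcover : V ⊆ E ∪ ⋃ θ ∈ Θ, T θ := by
      intro I hI
      obtain ⟨β, hβ0, hIβ, hβ, hy⟩ := id hI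
      rcases hexc β hβ with ⟨θ, hθ, x, hx⟩ | ⟨φ, ψ, hne, he⟩
      · right
        simp only [Set.mem_iUnion]
        exact ⟨θ, hθ, hI, β, hIβ, hβ, hy, x, hx⟩
      · left
        exact ⟨φ, ψ, hne, β, hβ0, hIβ, hβ, he⟩
    have h1 : V.ncard ≤ E.ncard + ∑ θ ∈ Θ, (T θ).ncard := by
      have hfinU : (⋃ θ ∈ Θ, T θ).Finite := Θ.finite_toSet.biUnion fun θ _ => hfinT θ
      refine (Set.ncard_le_ncard hcover (hfinE.union hfinU)).trans ?_
      refine (Set.ncard_union_le _ _).trans ?_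
      exact Nat.add_le_add_left (Finset.set_ncard_biUnion_le _ _) _
    have h2 : ∀ θ ∈ Θ, (T θ).ncard ≤
        Set.ncard {p : ℤ × ℤ | |(p.1 : ℝ)| ≤ c * D ^ ((1 : ℝ) / n) ∧
            0 < p.2 ∧ p.2 ^ 2 = (minpoly ℤ (-θ)).eval p.1} := by
      intro θ hθ
      have hcoe : ((-θ : 𝓞 K) : K) = -(θ : K) := by simp
      have hdeg : (minpoly ℤ (-θ)).natDegree = finrank ℚ K := by
        apply natDegree_minpoly_of_injective
        intro σ τ hst
        by_contra hne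
        apply (hprop θ hθ).2 σ τ hne
        simp only [hcoe, map_neg, neg_inj] at hst
        exact hst
      have hex : ∀ I : T θ, ∃ p : ℤ × ℤ, (|(p.1 : ℝ)| ≤ c * D ^ ((1 : ℝ) / n) ∧
            0 < p.2 ∧ p.2 ^ 2 = (minpoly ℤ (-θ)).eval p.1) ∧
            (I : Ideal (𝓞 K)) ^ 2 = Ideal.span {θ + (p.1 : 𝓞 K)} := by
        rintro ⟨I, -, β, hIβ, hbox, ⟨y, hy, hyN⟩, x, hx⟩
        refine ⟨(x, y), ⟨?_, hy, ?_⟩, ?_⟩
        · obtain ⟨σ⟩ : Nonempty (K →+* ℂ) := inferInstance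
          have e1 : ((x : ℤ) : ℂ) = σ (β : K) - σ (θ : K) := by
            rw [hx]
            simp
          have e2 : ‖((x : ℤ) : ℂ)‖ = |(x : ℝ)| := by
            rw [← Complex.ofReal_intCast, Complex.norm_real, Real.norm_eq_abs]
          simp only
          rw [← e2, e1]
          calc _ ≤ ‖σ (β : K)‖ + ‖σ (θ : K)‖ := norm_sub_le _ _
            _ ≤ 2 * X + 2 * X := add_le_add (hbox σ) ((hprop θ hθ).1 σ)
            _ = 4 * X := by ring
            _ ≤ c * X := mul_le_mul_of_nonneg_right hc4 hXpos.le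
        · simp only
          rw [eval_minpoly_eq_norm _ hdeg, hyN, hx]
          congr 1
          ring
        · simp only
          rw [hIβ, hx]
      choose g hg hgI using hex
      have hfin : {p : ℤ × ℤ | |(p.1 : ℝ)| ≤ c * D ^ ((1 : ℝ) / n) ∧
            0 < p.2 ∧ p.2 ^ 2 = (minpoly ℤ (-θ)).eval p.1}.Finite := finite_curve _ _
      have : Finite {p : ℤ × ℤ | |(p.1 : ℝ)| ≤ c * D ^ ((1 : ℝ) / n) ∧
            0 < p.2 ∧ p.2 ^ 2 = (minpoly ℤ (-θ)).eval p.1} := hfin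
      rw [← Nat.card_coe_set_eq, ← Nat.card_coe_set_eq]
      refine Nat.card_le_card_of_injective (fun I => ⟨g I, hg I⟩) ?_
      intro I I' hh
      have hgg : g I = g I' := congrArg Subtype.val hh
      apply Subtype.ext
      apply ideal_eq_of_sq_eq
      rw [hgI I, hgI I', hgg]
    have h3 : ∑ θ ∈ Θ, (T θ).ncard ≤ ∑ η ∈ Θ.image (fun θ => -θ),
        Set.ncard {p : ℤ × ℤ | |(p.1 : ℝ)| ≤ c * D ^ ((1 : ℝ) / n) ∧
            0 < p.2 ∧ p.2 ^ 2 = (minpoly ℤ η).eval p.1} := by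
      rw [Finset.sum_image (fun a _ b _ h => hneg h)]
      exact Finset.sum_le_sum h2
    have h4 : (Nat.card {x : ClassGroup (𝓞 K) // x ^ 2 = 1} : ℝ) ≤
        2 * (E.ncard : ℝ) + 2 * ∑ η ∈ Θ.image (fun θ => -θ),
        (Set.ncard {p : ℤ × ℤ | |(p.1 : ℝ)| ≤ c * D ^ ((1 : ℝ) / n) ∧
            0 < p.2 ∧ p.2 ^ 2 = (minpoly ℤ η).eval p.1} : ℝ) := by
      rw [← mul_add]
      exact_mod_cast hcl.trans (Nat.mul_le_mul_left 2 (h1.trans (Nat.add_le_add_left h3 _)))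
    refine h4.trans (add_le_add ?_ le_rfl)
    calc 2 * (E.ncard : ℝ) ≤ 2 * (C₂ * D ^ a) := by linarith
      _ = (2 * C₂) * D ^ a := by ring
      _ ≤ c * D ^ a :=
          mul_le_mul_of_nonneg_right hc2 (Real.rpow_nonneg hDpos.le _)

/-- every degree, exponent `1 / 3` -/
theorem nongen_third (n : ℕ) (hn : 0 < n) : NongenStmt n (1 / 3) :=
  nongen_ideals_le n hn (C := 2) (by norm_num)

/-- In a cubic field an ideal whose square is generated by an element of the box with two equal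
conjugates is generated by a small integer. -/
theorem mem_sqIdeals_three {K : Type} [Field K] [NumberField K] (hK : finrank ℚ K = 3) {R : ℝ}
    {φ ψ : K →+* ℂ} (hne : φ ≠ ψ) {I : Ideal (𝓞 K)} (hI : I ∈ SqIdeals K R φ ψ) :
    ∃ a : ℕ, a < ⌊√R⌋₊ + 1 ∧ I = Ideal.span {(a : 𝓞 K)} := by
  classical
  obtain ⟨β, hβ0, hIβ, hβ, hβe⟩ := hI
  let F : IntermediateField ℚ K := (RingHom.eqLocusField φ ψ).toIntermediateField (by
    intro q
    show φ (algebraMap ℚ K q) = ψ (algebraMap ℚ K q)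
    simp)
  have hF : ∀ x : K, x ∈ F ↔ φ x = ψ x := fun x => Iff.rfl
  have h1 : finrank ℚ F * finrank F K = 3 := by rw [finrank_mul_finrank ℚ F K, hK]
  have h2 : finrank F K ≠ 1 := by
    intro h
    apply hne
    have hb := (IntermediateField.finrank_eq_one_iff_eq_top).1 h
    ext x
    exact (hF x).1 (by rw [hb]; exact IntermediateField.mem_top)
  have h3 : finrank ℚ F = 1 := by
    have h4 : finrank F K ∣ 3 := Dvd.intro_left _ h1
    rcases (Nat.dvd_prime Nat.prime_three).1 h4 with h | h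
    · exact absurd h h2
    · rw [h] at h1
      omega
  have hbot : F = ⊥ := IntermediateField.finrank_eq_one_iff.1 h3
  have hβF : (β : K) ∈ F := (hF _).2 hβe
  rw [hbot, IntermediateField.mem_bot] at hβF
  obtain ⟨q, hq⟩ := hβF
  -- `β` is an integer
  have hqint : IsIntegral ℤ q := by
    have h4 : IsIntegral ℤ (algebraMap ℚ K q) := by rw [hq]; exact β.isIntegral_coe
    exact (isIntegral_algebraMap_iff (algebraMap ℚ K).injective).1 h4
  obtain ⟨m, hm⟩ := IsIntegrallyClosed.isIntegral_iff.1 hqint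
  have hβm : β = algebraMap ℤ (𝓞 K) m := by
    apply RingOfIntegers.ext
    rw [← hq, ← hm]
    simp
  have hm0 : m ≠ 0 := by
    rintro rfl
    exact hβ0 (by rw [hβm, map_zero])
  -- the norm
  have hnorm : (Ideal.absNorm I) ^ 2 = m.natAbs ^ 3 := by
    rw [← map_pow, hIβ, Ideal.absNorm_span_singleton, hβm, Algebra.norm_algebraMap,
      RingOfIntegers.rank, hK, Int.natAbs_pow]
  obtain ⟨a, ha⟩ : ∃ a : ℕ, m.natAbs = a ^ 2 := by
    have h4 : m.natAbs ^ 2 ∣ (Ideal.absNorm I) ^ 2 := by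
      rw [hnorm]
      exact pow_dvd_pow _ (by norm_num)
    obtain ⟨k, hk⟩ := (Nat.pow_dvd_pow_iff two_ne_zero).1 h4
    refine ⟨k, ?_⟩
    rw [hk, mul_pow] at hnorm
    have h5 : 0 < m.natAbs ^ 2 := pow_pos (Int.natAbs_pos.2 hm0) 2
    have h6 : m.natAbs ^ 3 = m.natAbs ^ 2 * m.natAbs := by ring
    rw [h6] at hnorm
    exact (Nat.eq_of_mul_eq_mul_left h5 hnorm).symm
  refine ⟨a, ?_, ?_⟩
  · have h4 : ‖φ (β : K)‖ ≤ R := hβ φ
    have h5 : φ (β : K) = (m : ℂ) := by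
      rw [← hq, ← hm]
      simp
    rw [h5] at h4
    have h6 : ‖(m : ℂ)‖ = (m.natAbs : ℝ) := by
      rw [← Complex.ofReal_intCast, Complex.norm_real, Real.norm_eq_abs, Nat.cast_natAbs,
        Int.cast_abs]
    rw [h6, ha] at h4
    push_cast at h4
    have h7 : (a : ℝ) ≤ √R := Real.le_sqrt_of_sq_le h4
    exact Nat.lt_succ_of_le (Nat.le_floor h7)
  · apply ideal_eq_of_sq_eq
    rw [hIβ, Ideal.span_singleton_pow, hβm, Ideal.span_singleton_eq_span_singleton]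
    have h4 : Associated m (m.natAbs : ℤ) := Int.associated_natAbs m
    have h5 := h4.map (algebraMap ℤ (𝓞 K))
    rw [ha] at h5
    simpa using h5

/-- cubic fields, exponent `1 / 6` -/
theorem nongen_three : NongenStmt 3 (1 / 6) := by
  classical
  refine ⟨2 * √2, by positivity, fun K _ _ hK => ?_⟩
  set D : ℝ := |(discr K : ℝ)| with hD
  have hD1 : 1 ≤ D := by
    have : (1 : ℤ) ≤ |discr K| := Int.one_le_abs (NumberField.discr_ne_zero K)
    rw [hD]
    exact_mod_cast this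
  have hD0 : 0 < D := by linarith
  set R : ℝ := 2 * D ^ ((1 : ℝ) / (3 : ℕ)) with hR
  have hR1 : 1 ≤ R := by
    have : 1 ≤ D ^ ((1 : ℝ) / (3 : ℕ)) := Real.one_le_rpow hD1 (by positivity)
    rw [hR]
    linarith
  set S : Set (Ideal (𝓞 K)) := {I : Ideal (𝓞 K) | ∃ φ ψ : K →+* ℂ, φ ≠ ψ ∧
    I ∈ SqIdeals K R φ ψ} with hS
  have hsub : S ⊆ ((Finset.range (⌊√R⌋₊ + 1)).image fun a : ℕ => Ideal.span {(a : 𝓞 K)} :
      Finset (Ideal (𝓞 K))) := by
    rintro I ⟨φ, ψ, hne, hI⟩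
    obtain ⟨a, ha, hIa⟩ := mem_sqIdeals_three hK hne hI
    rw [Finset.mem_coe, Finset.mem_image]
    exact ⟨a, Finset.mem_range.2 ha, hIa.symm⟩
  refine ⟨(Finset.finite_toSet _).subset hsub, ?_⟩
  have h1 : S.ncard ≤ ⌊√R⌋₊ + 1 := by
    refine (Set.ncard_le_ncard hsub (Finset.finite_toSet _)).trans ?_
    rw [Set.ncard_coe_finset]
    exact Finset.card_image_le.trans (by rw [Finset.card_range])
  have h2 : (1 : ℝ) ≤ √R := by
    rw [Real.one_le_sqrt]
    exact hR1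
  have h3 : (S.ncard : ℝ) ≤ 2 * √R := by
    have h4 : (S.ncard : ℝ) ≤ (⌊√R⌋₊ : ℝ) + 1 := by exact_mod_cast h1
    have h5 : (⌊√R⌋₊ : ℝ) ≤ √R := Nat.floor_le (by positivity)
    linarith
  refine h3.trans (le_of_eq ?_)
  have h4 : √R = √2 * D ^ ((1 : ℝ) / 6) := by
    rw [hR, Real.sqrt_mul (by norm_num), Real.sqrt_eq_rpow (D ^ _), ← Real.rpow_mul hD0.le]
    norm_num
  rw [h4]
  ring

/-- every degree, exponent `1 / 3` -/
theorem linesA_third (n : ℕ) (hn : 0 < n) : LinesStmtA n (1 / 3) :=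
  linesStmtA_of_nongen n hn (nongen_third n hn)

/-- cubic fields, exponent `1 / 6` -/
theorem linesA_three : LinesStmtA 3 (1 / 6) :=
  linesStmtA_of_nongen 3 (by norm_num) nongen_three

end Pool.TT.Five
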