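import Pool.Agent.Lib.MP_695920_nt.TT.Five.CBoundT
import Pool.Agent.Lib.MP_695920_nt.TT.Five.Lines3
import Pool.Agent.Lib.MP_695920_nt.TT.Final

set_option autoImplicit false

/-!
TEAM TWOTORSION, version 2: from the line bound to the exponent, in abstract form (helper81).
-/

open Polynomial NumberField Module Real

namespace Pool.TT.Five

/-- the number of integral points on one line, with an additional factor `D ^ κ` (slices) -/
def LineK (n : ℕ) (σ κ : ℝ) : Prop :=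
  ∀ c ε : ℝ, 1 ≤ c → 0 < ε → ∃ C' : ℝ, 0 < C' ∧
    ∀ (K : Type) [Field K] [NumberField K], finrank ℚ K = n → ∀ θ : 𝓞 K,
      (minpoly ℤ θ).natDegree = n →
      (∀ z : ℂ, ((minpoly ℤ θ).map (Int.castRingHom ℂ)).IsRoot z →
        ‖z‖ ≤ c * |(discr K : ℝ)| ^ ((1 : ℝ) / n)) →
      (Set.ncard {p : ℤ × ℤ | |(p.1 : ℝ)| ≤ c * |(discr K : ℝ)| ^ ((1 : ℝ) / n) ∧
        0 < p.2 ∧ p.2 ^ 2 = (minpoly ℤ θ).eval p.1} : ℝ) ≤
      C' * ((Nat.card {x : ClassGroup (𝓞 K) // x ^ 2 = 1} : ℝ) ^ σ *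
        |(discr K : ℝ)| ^ (κ + ε))

theorem LineQ.toK {n : ℕ} {σ : ℝ} (h : LineQ n σ) : LineK n σ 0 := by
  intro c ε hc hε
  obtain ⟨C', hC', h1⟩ := h c ε hc hε
  refine ⟨C', hC', fun K _ _ hK θ hθ hroots => ?_⟩
  rw [zero_add]
  exact h1 K hK θ trivial hθ hroots

theorem LineQT.toK {n : ℕ} {σ κ : ℝ} (h : LineQT n κ σ) : LineK n σ κ := by
  intro c ε hc hε
  obtain ⟨C', hC', h1⟩ := h c ε hc hε
  exact ⟨C', hC', fun K _ _ hK θ hθ hroots => h1 K hK θ trivial hθ hroots⟩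

/-- From a bound `h ^ σ' D ^ (κ + ε)` for the number of integral points on every line, all
`σ' > σ`, and the exponent `a` for the elements which do not generate the field, to the exponent
`max a ((1 / 2 - 1 / n + κ) / (1 - σ)) + ε`. -/
theorem boot_gen (n : ℕ) {a σ κ : ℝ} (ha : 0 ≤ a) (hL : LinesStmtA n a) (hσ1 : σ < 1)
    (hline : ∀ σ' > σ, LineK n σ' κ) {ε : ℝ} (hε : 0 < ε) :
    ∃ C : ℝ, ∀ (K : Type) [Field K] [NumberField K], finrank ℚ K = n →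
      (Nat.card {x : ClassGroup (𝓞 K) // x ^ 2 = 1} : ℝ) ≤
        C * |(discr K : ℝ)| ^ (max a ((1 / 2 - 1 / (n : ℝ) + κ) / (1 - σ)) + ε) := by
  set M : ℝ := max a ((1 / 2 - 1 / (n : ℝ) + κ) / (1 - σ)) with hM
  set Δ : ℝ := M + ε with hΔ
  have hσ : 0 < 1 - σ := by linarith
  have hM1 : a ≤ M := le_max_left _ _
  have hM2 : 1 / 2 - 1 / (n : ℝ) + κ ≤ M * (1 - σ) := by
    rw [← div_le_iff₀ hσ]
    exact le_max_right _ _
  have hΔ0 : 0 < Δ := by linarith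
  set η : ℝ := min ((1 - σ) / 2) (ε * (1 - σ) / (2 * Δ)) with hη
  have hη0 : 0 < η := lt_min (by linarith) (by positivity)
  have hη1 : η ≤ (1 - σ) / 2 := min_le_left _ _
  have hη2 : Δ * η ≤ ε * (1 - σ) / 2 := by
    have h1 : η ≤ ε * (1 - σ) / (2 * Δ) := min_le_right _ _
    rw [le_div_iff₀ (by positivity)] at h1
    linarith
  set σ' : ℝ := σ + η with hσ'
  have hσ'1 : σ' < 1 := by linarith
  set ε' : ℝ := ε * (1 - σ) / 2 with hε'
  have hε'0 : 0 < ε' := by positivity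
  have hkey : 1 / 2 - 1 / (n : ℝ) + (κ + ε') ≤ Δ * (1 - σ') := by
    have h1 : Δ * (1 - σ') = M * (1 - σ) + ε * (1 - σ) - Δ * η := by
      rw [hσ', hΔ]
      ring
    rw [h1]
    linarith
  obtain ⟨c, hc, hlines⟩ := hL
  obtain ⟨C', hC', hbound⟩ := hline σ' (by linarith) c ε' hc hε'0
  refine ⟨max (2 * (c + 2 * c * C')) ((2 * (c + 2 * c * C')) ^ (1 / (1 - σ'))),
    fun K _ _ hK => ?_⟩
  obtain ⟨F, hcard, hprop, hsum⟩ := hlines K hK
  set D : ℝ := |(discr K : ℝ)| with hD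
  set h : ℝ := (Nat.card {x : ClassGroup (𝓞 K) // x ^ 2 = 1} : ℝ) with hh
  have hD1 : 1 ≤ D := by
    have : (1 : ℤ) ≤ |discr K| := Int.one_le_abs (NumberField.discr_ne_zero K)
    rw [hD]
    exact_mod_cast this
  have hD0 : 0 < D := by linarith
  have hh0 : 0 ≤ h := Nat.cast_nonneg _
  apply bootstrap hσ'1 (by positivity) hD1 hh0
  have hcpos : 0 < c := by linarith
  have e1 : c * D ^ a ≤ c * D ^ Δ :=
    mul_le_mul_of_nonneg_left (rpow_le_rpow_of_exponent_le hD1 (by linarith)) hcpos.le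
  have e2 : ∑ θ ∈ F, (Set.ncard {p : ℤ × ℤ | |(p.1 : ℝ)| ≤ c * D ^ ((1 : ℝ) / n) ∧
            0 < p.2 ∧ p.2 ^ 2 = (minpoly ℤ θ).eval p.1} : ℝ) ≤
      (F.card : ℝ) * (C' * (h ^ σ' * D ^ (κ + ε'))) := by
    rw [← nsmul_eq_mul]
    apply Finset.sum_le_card_nsmul
    intro θ hθ
    exact hbound K hK θ (hprop θ hθ).1 (hprop θ hθ).2
  have hhσ : 0 ≤ h ^ σ' := rpow_nonneg hh0 _
  have e3 : (F.card : ℝ) * (C' * (h ^ σ' * D ^ (κ + ε'))) ≤
      (c * D ^ ((1 : ℝ) / 2 - 1 / n)) * (C' * (h ^ σ' * D ^ (κ + ε'))) := by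
    apply mul_le_mul_of_nonneg_right hcard
    positivity
  have e5 : D ^ ((1 : ℝ) / 2 - 1 / n) * D ^ (κ + ε') ≤ D ^ (Δ * (1 - σ')) := by
    rw [← rpow_add hD0]
    exact rpow_le_rpow_of_exponent_le hD1 hkey
  have hDΔ : 0 ≤ D ^ Δ := rpow_nonneg hD0.le _
  have hDΔσ : 0 ≤ D ^ (Δ * (1 - σ')) := rpow_nonneg hD0.le _
  calc h ≤ c * D ^ a + 2 * _ := hsum
    _ ≤ c * D ^ Δ + 2 * ((c * D ^ ((1 : ℝ) / 2 - 1 / n)) * (C' * (h ^ σ' * D ^ (κ + ε')))) :=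
          add_le_add e1 (mul_le_mul_of_nonneg_left (e2.trans e3) (by norm_num))
    _ = c * D ^ Δ + 2 * c * C' * (D ^ ((1 : ℝ) / 2 - 1 / n) * D ^ (κ + ε')) * h ^ σ' := by ring
    _ ≤ c * D ^ Δ + 2 * c * C' * D ^ (Δ * (1 - σ')) * h ^ σ' := by
          gcongr
    _ ≤ (c + 2 * c * C') * D ^ Δ + (c + 2 * c * C') * D ^ (Δ * (1 - σ')) * h ^ σ' := by
          have h1 : 0 ≤ c * C' * D ^ Δ := by positivity
          have h2 : 0 ≤ c * D ^ (Δ * (1 - σ')) * h ^ σ' := by positivity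
          nlinarith

/-- From a bound `h ^ σ' D ^ ε` for the number of integral points on every line, all `σ' > σ`, to
the exponent `max (1 / 3) ((1 / 2 - 1 / n) / (1 - σ)) + ε`. -/
theorem boot (n : ℕ) (hn : 0 < n) {σ : ℝ} (hσ1 : σ < 1)
    (hline : ∀ σ' > σ, LineQ n σ') {ε : ℝ} (hε : 0 < ε) :
    ∃ C : ℝ, ∀ (K : Type) [Field K] [NumberField K], finrank ℚ K = n →
      (Nat.card {x : ClassGroup (𝓞 K) // x ^ 2 = 1} : ℝ) ≤
        C * |(discr K : ℝ)| ^ (max (1 / 3) ((1 / 2 - 1 / (n : ℝ)) / (1 - σ)) + ε) := by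
  have h := boot_gen n (a := 1 / 3) (κ := 0) (by norm_num) (linesA_third n hn) hσ1
    (fun σ' hσ' => (hline σ' hσ').toK) hε
  simpa only [add_zero] using h

/-- Cubic fields, with slices. -/
theorem boot_three {σ κ : ℝ} (hσ1 : σ < 1) (hline : ∀ σ' > σ, LineK 3 σ' κ) {ε : ℝ}
    (hε : 0 < ε) :
    ∃ C : ℝ, ∀ (K : Type) [Field K] [NumberField K], finrank ℚ K = 3 →
      (Nat.card {x : ClassGroup (𝓞 K) // x ^ 2 = 1} : ℝ) ≤
        C * |(discr K : ℝ)| ^ (max (1 / 6) ((1 / 6 + κ) / (1 - σ)) + ε) := by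
  have h := boot_gen 3 (a := 1 / 6) (by norm_num) linesA_three hσ1 hline hε
  have e : (1 : ℝ) / 2 - 1 / ((3 : ℕ) : ℝ) = 1 / 6 := by norm_num
  rwa [e] at h

end Pool.TT.Five
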