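import Pool.Agent.Lib.MP_695920_nt.TT.Five.RelLoc
import Pool.Agent.Lib.MP_695920_nt.TT.Gauss
import Pool.Agent.Lib.MP_695920_nt.TT.Ring

set_option autoImplicit false

/-!
TEAM TWOTORSION, `n = 5`: the substitution `x = q t + x_c`, `y = w z + y_c` and the characters.
-/

open Polynomial

namespace Pool.TT.Five

/-- the ring `ℤ[x, y]`, `y ^ 2 = f(x)` -/
abbrev OR (f0 : ℤ[X]) := QuadraticAlgebra ℤ[X] f0 0

/-- a model `z ^ 2 = E(t) + b z` of the curve `y ^ 2 = f(x)`, `x = q t + x_c`, `y = w z + y_c` -/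
structure Mdl (f0 : ℤ[X]) where
  xc : ℤ
  yc : ℤ
  q : ℤ
  w : ℤ
  b : ℤ
  E : ℤ[X]
  q0 : q ≠ 0
  w0 : w ≠ 0
  b0 : b ≠ 0
  hb : w * b = -(2 * yc)
  hE : C (w ^ 2) * E + C (yc ^ 2) = f0.comp (C q * X + C xc)
  E0 : E.coeff 0 = 0

/-- the inclusion in the coordinate ring over `ℚ` -/
noncomputable def orQ (f0 : ℤ[X]) : OR f0 →+* Crd (f0.map (Int.castRingHom ℚ)) where
  toFun φ := ⟨φ.re.map (Int.castRingHom ℚ), φ.im.map (Int.castRingHom ℚ)⟩
  map_one' := by
    ext1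
    · simp [QuadraticAlgebra.re_one]
    · simp [QuadraticAlgebra.im_one]
  map_zero' := by
    ext1
    · simp
    · simp
  map_add' φ ψ := by
    ext1
    · simp
    · simp
  map_mul' φ ψ := by
    ext1
    · simp only [QuadraticAlgebra.re_mul, Polynomial.map_add, Polynomial.map_mul]
    · simp only [QuadraticAlgebra.im_mul, Polynomial.map_add, Polynomial.map_mul,
        Polynomial.map_zero]

theorem orQ_re (f0 : ℤ[X]) (φ : OR f0) : (orQ f0 φ).re = φ.re.map (Int.castRingHom ℚ) := rfl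

theorem orQ_im (f0 : ℤ[X]) (φ : OR f0) : (orQ f0 φ).im = φ.im.map (Int.castRingHom ℚ) := rfl

theorem orQ_inj (f0 : ℤ[X]) : Function.Injective (orQ f0) := by
  intro φ ψ h
  have h1 := congrArg QuadraticAlgebra.re h
  have h2 := congrArg QuadraticAlgebra.im h
  rw [orQ_re, orQ_re] at h1
  rw [orQ_im, orQ_im] at h2
  ext1
  · exact map_injective _ (RingHom.injective_int _) h1
  · exact map_injective _ (RingHom.injective_int _) h2

theorem orQ_star (f0 : ℤ[X]) (φ : OR f0) : orQ f0 (star φ) = star (orQ f0 φ) := by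
  ext1
  · rw [orQ_re, QuadraticAlgebra.re_star, QuadraticAlgebra.re_star, orQ_re, orQ_im]
    simp
  · rw [orQ_im, QuadraticAlgebra.im_star, QuadraticAlgebra.im_star, orQ_im]
    simp

theorem orQ_algebraMap (f0 P : ℤ[X]) : orQ f0 (algebraMap ℤ[X] (OR f0) P) =
    algebraMap ℚ[X] (Crd (f0.map (Int.castRingHom ℚ))) (P.map (Int.castRingHom ℚ)) := by
  ext1
  · rw [orQ_re, QuadraticAlgebra.algebraMap_re, QuadraticAlgebra.algebraMap_re]
  · rw [orQ_im, QuadraticAlgebra.algebraMap_im, QuadraticAlgebra.algebraMap_im,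
      Polynomial.map_zero]

theorem orQ_norm (f0 : ℤ[X]) (φ : OR f0) :
    (orQ f0 φ).norm = φ.norm.map (Int.castRingHom ℚ) := by
  rw [QuadraticAlgebra.norm_def, QuadraticAlgebra.norm_def, orQ_re, orQ_im]
  simp

/-- a common denominator -/
theorem orQ_denom (f0 : ℤ[X]) (φ : Crd (f0.map (Int.castRingHom ℚ))) :
    ∃ (d : ℤ) (φ0 : OR f0), d ≠ 0 ∧ orQ f0 φ0 = algebraMap ℚ[X] _ (C (d : ℚ)) * φ := by
  have hden : ∀ P : ℚ[X], ∃ b : ℤ, b ≠ 0 ∧ ∃ Q : ℤ[X], Q.map (Int.castRingHom ℚ) =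
      C (b : ℚ) * P := by
    intro P
    obtain ⟨b, hb0, hb⟩ := IsLocalization.integerNormalization_spec (nonZeroDivisors ℤ) P
    refine ⟨b, nonZeroDivisors.ne_zero hb0, _, hb.trans ?_⟩
    rw [← smul_eq_C_mul]
    ext k
    simp
  obtain ⟨a, ha, A, hA⟩ := hden φ.re
  obtain ⟨b, hb, B, hB⟩ := hden φ.im
  refine ⟨a * b, ⟨C b * A, C a * B⟩, mul_ne_zero ha hb, ?_⟩
  ext1
  · rw [orQ_re, QuadraticAlgebra.re_mul, QuadraticAlgebra.algebraMap_re,
      QuadraticAlgebra.algebraMap_im, Polynomial.map_mul, hA, map_C]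
    push_cast
    rw [eq_intCast, C_mul]
    ring
  · rw [orQ_im, QuadraticAlgebra.im_mul, QuadraticAlgebra.algebraMap_re,
      QuadraticAlgebra.algebraMap_im, Polynomial.map_mul, hB, map_C]
    push_cast
    rw [eq_intCast, C_mul]
    ring

theorem or_norm (f0 : ℤ[X]) (φ : OR f0) : φ.norm = φ.re ^ 2 - f0 * φ.im ^ 2 := by
  rw [QuadraticAlgebra.norm_def]
  ring

/-- norms of nonzero elements are not zero -/
def NSq (f0 : ℤ[X]) : Prop := ∀ φ : OR f0, φ ≠ 0 → φ.norm ≠ 0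

theorem nsq_odd {f0 : ℤ[X]} (hm : f0.Monic) (hodd : Odd f0.natDegree) : NSq f0 := by
  intro φ hφ h
  rw [or_norm, sub_eq_zero] at h
  obtain ⟨h1, h2⟩ := Agent.Lib.MP_695920_nt.TT.eq_zero_of_sq_eq hm hodd h
  exact hφ (QuadraticAlgebra.ext h1 h2)

namespace Mdl

variable {f0 : ℤ[X]} (M : Mdl f0)

/-- the linear substitution -/
noncomputable def ell : ℤ[X] := C M.q * X + C M.xc

theorem two_yc : C (M.w * M.b) = -(2 * C M.yc) := by
  rw [M.hb, C_neg, C_mul]
  rfl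

/-- the substitution -/
noncomputable def lam : OR f0 →+* OZ M.E M.b where
  toFun φ := ⟨φ.re.comp M.ell + C M.yc * φ.im.comp M.ell, C M.w * φ.im.comp M.ell⟩
  map_one' := by
    ext1
    · rw [QuadraticAlgebra.re_one, QuadraticAlgebra.im_one, QuadraticAlgebra.re_one]
      simp
    · rw [QuadraticAlgebra.im_one, QuadraticAlgebra.im_one]
      simp
  map_zero' := by
    ext1
    · simp
    · simp
  map_add' φ ψ := by
    ext1
    · simp only [QuadraticAlgebra.re_add, QuadraticAlgebra.im_add, add_comp]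
      ring
    · simp only [QuadraticAlgebra.im_add, add_comp]
      ring
  map_mul' φ ψ := by
    have h1 := M.hE
    have h2 := M.two_yc
    rw [C_mul] at h2
    rw [C_pow, C_pow] at h1
    have h3 : f0.comp M.ell = C M.w ^ 2 * M.E + C M.yc ^ 2 := h1.symm
    ext1
    · simp only [QuadraticAlgebra.re_mul, QuadraticAlgebra.im_mul, add_comp, mul_comp, h3,
        zero_comp]
      ring
    · simp only [QuadraticAlgebra.im_mul, add_comp, mul_comp, zero_comp]
      linear_combination (-(C M.w * φ.im.comp M.ell * ψ.im.comp M.ell)) * h2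

theorem lam_re (φ : OR f0) : (M.lam φ).re = φ.re.comp M.ell + C M.yc * φ.im.comp M.ell := rfl

theorem lam_im (φ : OR f0) : (M.lam φ).im = C M.w * φ.im.comp M.ell := rfl

theorem lam_star (φ : OR f0) : M.lam (star φ) = star (M.lam φ) := by
  have h2 := M.two_yc
  rw [C_mul] at h2
  ext1
  · rw [lam_re, QuadraticAlgebra.re_star, QuadraticAlgebra.im_star, QuadraticAlgebra.re_star,
      lam_re, lam_im, neg_comp, add_comp, mul_comp, zero_comp]
    linear_combination (-(φ.im.comp M.ell)) * h2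
  · rw [lam_im, QuadraticAlgebra.im_star, QuadraticAlgebra.im_star, lam_im, neg_comp]
    ring

theorem lam_algebraMap (P : ℤ[X]) : M.lam (algebraMap ℤ[X] (OR f0) P) =
    algebraMap ℤ[X] (OZ M.E M.b) (P.comp M.ell) := by
  ext1
  · rw [lam_re, QuadraticAlgebra.algebraMap_re, QuadraticAlgebra.algebraMap_im,
      QuadraticAlgebra.algebraMap_re, zero_comp]
    ring
  · rw [lam_im, QuadraticAlgebra.algebraMap_im, QuadraticAlgebra.algebraMap_im, zero_comp]
    ring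

theorem lam_norm (φ : OR f0) : (M.lam φ).norm = φ.norm.comp M.ell := by
  have h1 : algebraMap ℤ[X] (OZ M.E M.b) (M.lam φ).norm =
      algebraMap ℤ[X] (OZ M.E M.b) (φ.norm.comp M.ell) := by
    rw [QuadraticAlgebra.algebraMap_norm_eq_mul_star, ← lam_star, ← map_mul,
      ← QuadraticAlgebra.algebraMap_norm_eq_mul_star, lam_algebraMap]
  exact QuadraticAlgebra.algebraMap_injective h1

theorem comp_ne_zero {P : ℤ[X]} (hP : P ≠ 0) : P.comp M.ell ≠ 0 := by
  intro h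
  apply hP
  rcases Polynomial.comp_eq_zero_iff.1 h with h1 | ⟨-, h1⟩
  · exact h1
  · exfalso
    have h2 := congrArg (fun p => coeff p 1) h1
    rw [Mdl.ell] at h2
    simp only [coeff_add, coeff_C_mul, coeff_X_one, mul_one, coeff_C_succ, add_zero] at h2
    exact M.q0 h2

/-- a branch at the origin -/
theorem exists_zeta : ∃ ζ : PowerSeries ℤ, PowerSeries.constantCoeff ζ = 0 ∧
    ζ ^ 2 = rlr M.b M.E + PowerSeries.C M.b * ζ := rl_branch M.E M.b M.E0

/-- the branch -/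
noncomputable def zeta : PowerSeries ℤ := M.exists_zeta.choose

theorem zeta0 : PowerSeries.constantCoeff M.zeta = 0 := M.exists_zeta.choose_spec.1

theorem zeta_eq : M.zeta ^ 2 = rlr M.b M.E + PowerSeries.C M.b * M.zeta :=
  M.exists_zeta.choose_spec.2

theorem or_mul_ne_zero (hns : NSq f0) {φ ψ : OR f0} (hφ : φ ≠ 0)
    (hψ : ψ ≠ 0) : φ * ψ ≠ 0 := by
  intro h
  have h1 := mul_ne_zero (hns φ hφ) (hns ψ hψ)
  rw [← map_mul, h, QuadraticAlgebra.norm_zero] at h1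
  exact h1 rfl

/-- the restriction to the branch -/
noncomputable def br : OZ M.E M.b →+* PowerSeries ℤ := rlp M.zeta M.zeta_eq

theorem br_ne_zero {Φ : OZ M.E M.b} (hΦ : Φ.norm ≠ 0) : M.br Φ ≠ 0 ∧ M.br (star Φ) ≠ 0 := by
  have h1 := rlr_ne_zero M.b M.b0 hΦ
  rw [← rlp_norm M.zeta M.zeta_eq] at h1
  exact ⟨left_ne_zero_of_mul h1, right_ne_zero_of_mul h1⟩

/-- the character at `p` -/
noncomputable def chi (p : ℕ) (φ : OR f0) : ℤ :=
  (rlv p (M.br (M.lam φ)) : ℤ) - rlv p (M.br (star (M.lam φ)))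

variable (hns : NSq f0)

include hns in
theorem lam_norm_ne_zero {φ : OR f0} (hφ : φ ≠ 0) : (M.lam φ).norm ≠ 0 := by
  rw [lam_norm]
  exact M.comp_ne_zero (hns φ hφ)

include hns in
theorem chi_mul (p : ℕ) (hp : p.Prime) {φ ψ : OR f0} (hφ : φ ≠ 0) (hψ : ψ ≠ 0) :
    M.chi p (φ * ψ) = M.chi p φ + M.chi p ψ := by
  obtain ⟨h1, h2⟩ := M.br_ne_zero (M.lam_norm_ne_zero hns hφ)
  obtain ⟨h3, h4⟩ := M.br_ne_zero (M.lam_norm_ne_zero hns hψ)
  rw [chi, map_mul M.lam, star_mul, map_mul M.br, map_mul M.br, mul_comm (M.br (star (M.lam ψ))),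
    rlv_mul p hp h1 h3, rlv_mul p hp h2 h4, chi, chi]
  push_cast
  ring

theorem chi_star (p : ℕ) (φ : OR f0) : M.chi p (star φ) = -M.chi p φ := by
  rw [chi, lam_star, star_star, chi]
  ring

theorem chi_algebraMap (p : ℕ) (P : ℤ[X]) : M.chi p (algebraMap ℤ[X] (OR f0) P) = 0 := by
  rw [chi, ← lam_star]
  have h1 : star (algebraMap ℤ[X] (OR f0) P) = algebraMap ℤ[X] (OR f0) P := by
    ext1
    · rw [QuadraticAlgebra.re_star, QuadraticAlgebra.algebraMap_re,
        QuadraticAlgebra.algebraMap_im]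
      ring
    · rw [QuadraticAlgebra.im_star, QuadraticAlgebra.algebraMap_im, neg_zero]
  rw [h1, sub_self]

include hns in
/-- elements which differ by elements of `ℤ[X]` -/
theorem chi_eq_of_mul_eq (p : ℕ) (hp : p.Prime) {φ ψ : OR f0} (hφ : φ ≠ 0) (hψ : ψ ≠ 0)
    {A B : ℤ[X]} (hA : A ≠ 0) (hB : B ≠ 0)
    (h : algebraMap ℤ[X] (OR f0) A * φ = algebraMap ℤ[X] (OR f0) B * ψ) :
    M.chi p φ = M.chi p ψ := by
  have hA' : algebraMap ℤ[X] (OR f0) A ≠ 0 := by
    intro h0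
    apply hA
    exact QuadraticAlgebra.algebraMap_injective (h0.trans (map_zero _).symm)
  have hB' : algebraMap ℤ[X] (OR f0) B ≠ 0 := by
    intro h0
    apply hB
    exact QuadraticAlgebra.algebraMap_injective (h0.trans (map_zero _).symm)
  have h1 := congrArg (M.chi p) h
  rw [M.chi_mul hns p hp hA' hφ, M.chi_mul hns p hp hB' hψ, chi_algebraMap,
    chi_algebraMap, zero_add, zero_add] at h1
  exact h1

/-- **The function in the model.** -/
theorem exists_phi (φ : OR f0) (d : ℤ) (hd : d ≠ 0) (ε : ℤ) (hε : IsUnit ε) (k : ℕ) {ι : Type*}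
    [Fintype ι] (t : ι → ℤ) (e : ι → ℕ)
    (he : ∑ i, e i = 2 * k)
    (hφ : φ.norm = C ε * (C (d ^ 2) * ∏ i, (X - C (M.q * t i + M.xc)) ^ e i))
    (hcop : ∀ p : ℕ, p.Prime → (p : ℤ) ∣ d * M.q ^ k → ¬ (p : ℤ) ∣ M.b)
    (hchi : ∀ p : ℕ, p.Prime → (p : ℤ) ∣ d * M.q ^ k → M.chi p φ = 0) :
    ∃ Φ : OZ M.E M.b, Φ.norm = C ε * ∏ i, (X - C (t i)) ^ e i ∧
      M.lam φ = algebraMap ℤ[X] (OZ M.E M.b) (C (d * M.q ^ k)) * Φ := by
  have hN : (∏ i, (X - C (t i)) ^ e i).Monic :=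
    monic_prod_of_monic _ _ fun i _ => (monic_X_sub_C _).pow _
  have hN' : ∀ p : ℕ, p.Prime → ¬ C (p : ℤ) ∣ C ε * ∏ i, (X - C (t i)) ^ e i := by
    intro p hp h
    exact rl_monic p hp hN ((IsUnit.dvd_mul_left (isUnit_C.2 hε)).1 h)
  have hc0 : d * M.q ^ k ≠ 0 := mul_ne_zero hd (pow_ne_zero _ M.q0)
  have h1 : (M.lam φ).norm = C ((d * M.q ^ k) ^ 2) * (C ε * ∏ i, (X - C (t i)) ^ e i) := by
    have h2 : (∏ i, (X - C (M.q * t i + M.xc)) ^ e i).comp M.ell =
        C ((M.q ^ k) ^ 2) * ∏ i, (X - C (t i)) ^ e i := by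
      rw [← pow_mul, mul_comm k 2, ← he, ← Finset.prod_pow_eq_pow_sum, Polynomial.prod_comp,
        map_prod, ← Finset.prod_mul_distrib]
      refine Finset.prod_congr rfl fun i _ => ?_
      rw [pow_comp, sub_comp, X_comp, C_comp, C_pow, ← mul_pow, ell, C_add, C_mul]
      congr 1
      ring
    rw [lam_norm, hφ, mul_comp, mul_comp, C_comp, C_comp, h2, mul_pow, C_mul]
    ring
  obtain ⟨⟨A, hA⟩, ⟨B, hB⟩⟩ := rl_balanced M.zeta M.zeta_eq M.zeta0 _ hc0 hcop M.b0 _ hN'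
    (M.lam φ) h1 fun p hp hpq => by
      have h2 := hchi p hp hpq
      rw [chi, sub_eq_zero] at h2
      exact_mod_cast h2
  have h3 : M.lam φ = algebraMap ℤ[X] (OZ M.E M.b) (C (d * M.q ^ k)) * (⟨A, B⟩ : OZ M.E M.b) := by
    ext1
    · rw [QuadraticAlgebra.re_mul, QuadraticAlgebra.algebraMap_re,
        QuadraticAlgebra.algebraMap_im, hA]
      ring
    · rw [QuadraticAlgebra.im_mul, QuadraticAlgebra.algebraMap_re,
        QuadraticAlgebra.algebraMap_im, hB]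
      ring
  refine ⟨⟨A, B⟩, ?_, h3⟩
  have h4 := congrArg QuadraticAlgebra.norm h3
  rw [map_mul, QuadraticAlgebra.norm_algebraMap, h1, C_pow] at h4
  exact (mul_left_cancel₀ (pow_ne_zero 2 (C_ne_zero.2 hc0)) h4).symm

end Mdl

end Pool.TT.Five
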