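import Pool.Agent.Lib.MP_695920_nt.TT.Five.SizeC

set_option autoImplicit false

/-!
TEAM TWOTORSION (plan C5): the size hypothesis of `rel_bound_gen` for curves of even degree.

`x = q t + x_c`, `y = w z + y_c`, `w b = - 2 y_c`, `z ^ 2 = E(t) + b z`. A function `U + V z` of the
`t`-plane with `2 κ (U + V z) = A(x) + B(x) y`, `A ^ 2 - f B ^ 2 = ± 4 ∏ (x - x_i) ^ |m_i|`, is at
most `(30 √ρ) ^ ∑ |m_i|` on both sheets over the points `t` with `|x_c| + |q| |t| ≤ 3 ρ`.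
-/

open Polynomial

namespace Pool.TTE

theorem size_hook_even {ι : Type*} [Fintype ι] (f0 : ℤ[X]) (hmon : f0.Monic)
    (heven : Even f0.natDegree) (ρ : ℝ) (hρ : 1 ≤ ρ)
    (hroots : ∀ z : ℂ, (f0.map (Int.castRingHom ℂ)).IsRoot z → ‖z‖ ≤ ρ) (x m : ι → ℤ)
    (hx : ∀ i, |(x i : ℝ)| ≤ ρ) (A B : ℤ[X]) (hgood : (A ^ 2).degree ≠ (f0 * B ^ 2).degree)
    (hAB : A ^ 2 - f0 * B ^ 2 = 4 * ∏ i, (X - C (x i)) ^ (m i).natAbs ∨
      A ^ 2 - f0 * B ^ 2 = -(4 * ∏ i, (X - C (x i)) ^ (m i).natAbs))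
    (xc yc q w b : ℤ) (E : ℤ[X]) (hb : w * b = -(2 * yc))
    (hE : C (w ^ 2) * E + C (yc ^ 2) = f0.comp (C q * X + C xc)) (U V : ℤ[X]) (κ : ℤ) (hκ : κ ≠ 0)
    (hU : C (2 * κ) * U = A.comp (C q * X + C xc) + C yc * B.comp (C q * X + C xc))
    (hV : C (2 * κ) * V = C w * B.comp (C q * X + C xc)) (hm : m ≠ 0) (s t : ℂ)
    (ht : |(xc : ℝ)| + |(q : ℝ)| * ‖t‖ ≤ 3 * ρ)
    (hs : s ^ 2 = ((4 * E + C (b ^ 2)).map (Int.castRingHom ℂ)).eval t) :
    ‖(U.map (Int.castRingHom ℂ)).eval t + (V.map (Int.castRingHom ℂ)).eval t * ((b + s) / 2)‖ ≤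
      (30 * Real.sqrt ρ) ^ (∑ i, (m i).natAbs) := by
  obtain ⟨d, hd, hsize⟩ := size_even_complex f0 hmon heven ρ hρ hroots x
    (fun i => (m i).natAbs) hx A B hgood hAB
  have hd1 : 1 ≤ d := by
    by_contra hcon
    have h0 : d = 0 := by omega
    rw [h0, mul_zero] at hd
    refine hm (funext fun i => ?_)
    have h1 := (Finset.sum_eq_zero_iff.1 hd) i (Finset.mem_univ i)
    simpa using h1
  set X0 : ℂ := q * t + xc with hX0
  have hev : ∀ P : ℤ[X], ((P.comp (C q * X + C xc)).map (Int.castRingHom ℂ)).eval t =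
      (P.map (Int.castRingHom ℂ)).eval X0 := by
    intro P
    rw [Polynomial.map_comp, eval_comp]
    congr 1
    simp [hX0]
  have hC : ∀ a : ℤ, ((C a : ℤ[X]).map (Int.castRingHom ℂ)).eval t = (a : ℂ) := by
    intro a
    rw [map_C, eval_C, eq_intCast]
  have h4C : ((4 : ℤ[X]).map (Int.castRingHom ℂ)).eval t = 4 := by
    rw [Polynomial.map_ofNat, eval_ofNat]
  have hXn : ‖X0‖ ≤ 3 * ρ := by
    refine (norm_add_le _ _).trans ?_
    rw [norm_mul, Complex.norm_intCast, Complex.norm_intCast]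
    linarith
  have hbC : (w : ℂ) * b = -(2 * yc) := by exact_mod_cast hb
  set Y0 : ℂ := w * s / 2 with hY0
  have hYeq : Y0 = yc + w * ((b + s) / 2) := by
    rw [hY0]
    linear_combination (-1 / 2 : ℂ) * hbC
  have hY : Y0 ^ 2 = (f0.map (Int.castRingHom ℂ)).eval X0 := by
    have h1 := congrArg (fun P => ((P : ℤ[X]).map (Int.castRingHom ℂ)).eval t) hE
    simp only [hev] at h1
    rw [← h1, hY0, div_pow, mul_pow, hs]
    simp only [Polynomial.map_add, Polynomial.map_mul, eval_add, eval_mul, hC, h4C, Int.cast_pow]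
    linear_combination (w * b - 2 * yc : ℂ) / 4 * hbC
  have h1 := (hsize X0 Y0 hXn hY).2
  have hU' := congrArg (fun P => ((P : ℤ[X]).map (Int.castRingHom ℂ)).eval t) hU
  have hV' := congrArg (fun P => ((P : ℤ[X]).map (Int.castRingHom ℂ)).eval t) hV
  simp only [Polynomial.map_add, Polynomial.map_mul, eval_add, eval_mul, hev, hC, Int.cast_mul,
    Int.cast_ofNat] at hU' hV'
  have hkey : (2 * κ : ℂ) * ((U.map (Int.castRingHom ℂ)).eval t +
      (V.map (Int.castRingHom ℂ)).eval t * ((b + s) / 2)) =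
      (A.map (Int.castRingHom ℂ)).eval X0 + Y0 * (B.map (Int.castRingHom ℂ)).eval X0 := by
    rw [hYeq]
    linear_combination hU' + ((b + s) / 2 : ℂ) * hV'
  have hκ1 : (1 : ℝ) ≤ |(κ : ℝ)| := by
    have h2 : (1 : ℤ) ≤ |κ| := Int.one_le_abs hκ
    exact_mod_cast h2
  have h2 : 2 * ‖(U.map (Int.castRingHom ℂ)).eval t +
      (V.map (Int.castRingHom ℂ)).eval t * ((b + s) / 2)‖ ≤ 6 * (300 * ρ) ^ d := by
    refine le_trans ?_ h1
    rw [← hkey, norm_mul, norm_mul, Complex.norm_intCast, Complex.norm_ofNat]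
    refine mul_le_mul_of_nonneg_right ?_ (norm_nonneg _)
    linarith
  have h3 : (30 * Real.sqrt ρ) ^ (∑ i, (m i).natAbs) = (900 * ρ) ^ d := by
    rw [hd, pow_mul, mul_pow, Real.sq_sqrt (by linarith)]
    norm_num
  have h4 : 3 * (300 * ρ) ^ d ≤ (900 * ρ) ^ d := by
    have h5 : (900 * ρ) ^ d = 3 ^ d * (300 * ρ) ^ d := by
      rw [← mul_pow]
      ring_nf
    rw [h5]
    refine mul_le_mul_of_nonneg_right ?_ (by positivity)
    calc (3 : ℝ) = 3 ^ 1 := by norm_num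
      _ ≤ 3 ^ d := pow_le_pow_right₀ (by norm_num) hd1
  rw [h3]
  linarith

end Pool.TTE
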