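import Pool.Agent.Lib.MP_695920_nt.TT.Five.RelAll
import Pool.Agent.Lib.MP_695920_nt.TT.Five.RelMdl
import Pool.Agent.Lib.MP_695920_nt.TT.Five.SizeHook
import Pool.Agent.Lib.MP_695920_nt.TT.Even.EPts

set_option autoImplicit false

/-!
TEAM TWOTORSION (plan C, even degree): from the relations in the `x`-plane and their images in the
`t`-plane to `HasRel`, with `K = 30 √ρ`.
-/

open Polynomial

namespace Pool.TT.Five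

theorem hasRel_even {ι : Type*} [Fintype ι] (P : Pool.TTE.EPts ι) (Q : Pool.TTF.FPts ι)
    (xc yc q w : ℤ) (hb : w * Q.b = -(2 * yc))
    (hE : C (w ^ 2) * Q.a + C (yc ^ 2) = P.f0.comp (C q * X + C xc)) (R ρ : ℝ) (hρ : 1 ≤ ρ)
    (hroots : ∀ z : ℂ, (P.f0.map (Int.castRingHom ℂ)).IsRoot z → ‖z‖ ≤ ρ)
    (hx : ∀ i, |(P.x i : ℝ)| ≤ ρ) (hRρ : |(xc : ℝ)| + |(q : ℝ)| * R ≤ 3 * ρ) (d : ℕ)
    (L : AddSubgroup (ι → ℤ))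
    (hd : ∀ S : Finset ι, d < S.card → ∃ m ∈ L, m ≠ 0 ∧ ∀ i, i ∉ S → m i = 0)
    (hL : ∀ m ∈ L, ∑ i, m i = 0 ∧ ∃ (A B : ℤ[X]) (κ : ℤ) (Φ : OZ Q.a Q.b), κ ≠ 0 ∧
      (A ^ 2).degree ≠ (P.f0 * B ^ 2).degree ∧
      (A ^ 2 - P.f0 * B ^ 2 = 4 * ∏ i, (X - C (P.x i)) ^ (m i).natAbs ∨
        A ^ 2 - P.f0 * B ^ 2 = -(4 * ∏ i, (X - C (P.x i)) ^ (m i).natAbs)) ∧
      C (2 * κ) * Φ.re = A.comp (C q * X + C xc) + C yc * B.comp (C q * X + C xc) ∧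
      C (2 * κ) * Φ.im = C w * B.comp (C q * X + C xc) ∧
      (Φ.norm = ∏ i, (X - C (Q.t i)) ^ (m i).natAbs ∨
        Φ.norm = -∏ i, (X - C (Q.t i)) ^ (m i).natAbs) ∧
      ∀ i, algebraMap ℤ[X] (OZ Q.a Q.b) ((X - C (Q.t i)) ^ (m i).natAbs) ∣
        (⟨-C (Q.b - relQ Q m i), 1⟩ : OZ Q.a Q.b) ^ (m i).natAbs * Φ) :
    HasRel Q R (30 * Real.sqrt ρ) d := by
  refine ⟨L, hd, fun m hm => ?_⟩
  obtain ⟨h0, A, B, κ, Φ, hκ, hgood, hAB, hU, hV, hN, hVan⟩ := hL m hm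
  refine ⟨h0, Φ, hN, hVan, fun hm0 s t ht hs => ?_⟩
  refine Pool.TTE.size_hook_even P.f0 P.monic P.even ρ hρ hroots P.x m hx A B hgood hAB xc yc q w
    Q.b Q.a hb hE Φ.re Φ.im κ hκ hU hV hm0 s t (by rw [ht]; exact hRρ) hs

/-- the same for a model `M` -/
theorem hasRel_even_mdl {ι : Type*} [Fintype ι] (P : Pool.TTE.EPts ι) (M : Mdl P.f0)
    (Q : Pool.TTF.FPts ι) (hQa : Q.a = M.E) (hQb : Q.b = M.b) (R ρ : ℝ) (hρ : 1 ≤ ρ)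
    (hroots : ∀ z : ℂ, (P.f0.map (Int.castRingHom ℂ)).IsRoot z → ‖z‖ ≤ ρ)
    (hx : ∀ i, |(P.x i : ℝ)| ≤ ρ) (hRρ : |(M.xc : ℝ)| + |(M.q : ℝ)| * R ≤ 3 * ρ) (d : ℕ)
    (L : AddSubgroup (ι → ℤ))
    (hd : ∀ S : Finset ι, d < S.card → ∃ m ∈ L, m ≠ 0 ∧ ∀ i, i ∉ S → m i = 0)
    (hL : ∀ m ∈ L, ∑ i, m i = 0 ∧ ∃ (A B : ℤ[X]) (l : ℕ) (Φ : OZ M.E M.b),
      (A ^ 2).degree ≠ (P.f0 * B ^ 2).degree ∧
      (A ^ 2 - P.f0 * B ^ 2 = 4 * ∏ i, (X - C (P.x i)) ^ (m i).natAbs ∨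
        A ^ 2 - P.f0 * B ^ 2 = -(4 * ∏ i, (X - C (P.x i)) ^ (m i).natAbs)) ∧
      M.lam ⟨A, B⟩ = algebraMap ℤ[X] (OZ M.E M.b) (C (2 * M.q ^ l)) * Φ ∧
      (Φ.norm = ∏ i, (X - C (Q.t i)) ^ (m i).natAbs ∨
        Φ.norm = -∏ i, (X - C (Q.t i)) ^ (m i).natAbs) ∧
      ∀ i, algebraMap ℤ[X] (OZ M.E M.b) ((X - C (Q.t i)) ^ (m i).natAbs) ∣
        (⟨-C (M.b - (if m i < 0 then M.b - Q.z i else Q.z i)), 1⟩ : OZ M.E M.b) ^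
          (m i).natAbs * Φ) :
    HasRel Q R (30 * Real.sqrt ρ) d := by
  refine hasRel_even P Q M.xc M.yc M.q M.w (by rw [hQb]; exact M.hb) (by rw [hQa]; exact M.hE)
    R ρ hρ hroots hx hRρ d L hd fun m hm => ?_
  obtain ⟨h0, A, B, l, Φ, hgood, hAB, hlam, hN, hVan⟩ := hL m hm
  have hre : C (2 * M.q ^ l) * Φ.re = A.comp (C M.q * X + C M.xc) +
      C M.yc * B.comp (C M.q * X + C M.xc) := by
    have h1 := congrArg QuadraticAlgebra.re hlam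
    rw [M.lam_re, QuadraticAlgebra.re_mul, QuadraticAlgebra.algebraMap_re,
      QuadraticAlgebra.algebraMap_im] at h1
    rw [Mdl.ell] at h1
    linear_combination -h1
  have him : C (2 * M.q ^ l) * Φ.im = C M.w * B.comp (C M.q * X + C M.xc) := by
    have h1 := congrArg QuadraticAlgebra.im hlam
    rw [M.lam_im, QuadraticAlgebra.im_mul, QuadraticAlgebra.algebraMap_re,
      QuadraticAlgebra.algebraMap_im] at h1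
    rw [Mdl.ell] at h1
    linear_combination -h1
  refine ⟨h0, A, B, M.q ^ l, ?_⟩
  obtain ⟨a, b, _, t, z, _, _, _, _⟩ := Q
  simp only at hQa hQb
  subst hQa hQb
  exact ⟨Φ, pow_ne_zero _ M.q0, hgood, hAB, hre, him, hN, hVan⟩

end Pool.TT.Five
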