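import Pool.Agent.Lib.MP_695920_nt.TT.Five.RelPhiE
import Pool.Agent.Lib.MP_695920_nt.TT.Five.HasRelE
import Pool.Agent.Lib.MP_695920_nt.TT.Five.CSupply
import Pool.Agent.Lib.MP_695920_nt.TT.Five.Disc
import Pool.Agent.Lib.MP_695920_nt.TT.Even.ClassRank
import Pool.Agent.Lib.MP_695920_nt.TT.Even.Descent

set_option autoImplicit false

/-!
TEAM TWOTORSION, version 2: the supplier of relations, even degree.
-/

open Polynomial NumberField Module

namespace Pool.TT.Five

/-! ### the parity of the coefficients -/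

/-- the odd coefficients of the square of a power series are even -/
theorem even_coeff_sq (s : PowerSeries ℤ) (k : ℕ) (hk : Odd k) :
    (2 : ℤ) ∣ PowerSeries.coeff k (s ^ 2) := by
  have h1 : ((PowerSeries.coeff k (s ^ 2) : ℤ) : ZMod 2) = 0 := by
    rw [sq, PowerSeries.coeff_mul]
    push_cast
    refine Finset.sum_involution (fun a _ => a.swap) ?_ ?_ ?_ ?_
    · rintro ⟨i, j⟩ _
      simp only [Prod.fst_swap, Prod.snd_swap]
      rw [mul_comm ((PowerSeries.coeff j s : ℤ) : ZMod 2), ← two_mul]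
      have : (2 : ZMod 2) = 0 := rfl
      rw [this, zero_mul]
    · rintro ⟨i, j⟩ h _ h2
      have h3 : j = i := congrArg Prod.fst h2
      rw [Finset.HasAntidiagonal.mem_antidiagonal] at h
      obtain ⟨c, hc⟩ := hk
      simp only at h
      omega
    · rintro ⟨i, j⟩ h
      rw [Finset.HasAntidiagonal.mem_antidiagonal] at h ⊢
      simp only [Prod.fst_swap, Prod.snd_swap] at h ⊢
      omega
    · rintro ⟨i, j⟩ _
      rfl
  rwa [ZMod.intCast_zmod_eq_zero_iff_dvd] at h1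

/-- if the reversed polynomial is a square, the derivative is divisible by two -/
theorem two_dvd_derivative {f0 : ℤ[X]} (hE : Even f0.natDegree) (hs : SqRev f0) :
    C (2 : ℤ) ∣ derivative f0 := by
  obtain ⟨s, -, hs⟩ := hs
  rw [C_dvd_iff_dvd_coeff]
  intro i
  rw [coeff_derivative]
  rcases Nat.even_or_odd (i + 1) with h | h
  · obtain ⟨c, hc⟩ := h
    refine Dvd.dvd.mul_left ⟨(c : ℤ), ?_⟩ _
    have : ((i + 1 : ℕ) : ℤ) = ((c + c : ℕ) : ℤ) := by rw [hc]
    push_cast at this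
    linarith
  · refine Dvd.dvd.mul_right ?_ _
    rcases le_or_gt (i + 1) f0.natDegree with h2 | h2
    · have h3 : PowerSeries.coeff (f0.natDegree - (i + 1)) (s ^ 2) = f0.coeff (i + 1) := by
        rw [hs, Polynomial.coeff_coe, coeff_reverse, revAt_le (Nat.sub_le _ _)]
        congr 1
        omega
      rw [← h3]
      apply even_coeff_sq
      obtain ⟨a, ha⟩ := hE
      obtain ⟨b, hb⟩ := h
      exact ⟨a - b - 1, by omega⟩
    · rw [coeff_eq_zero_of_natDegree_lt h2]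
      exact dvd_zero _

namespace CData

variable {ι : Type*} {P : CPts ι} (Q : CData P)

theorem two_dvd_w (hE : Even P.f0.natDegree) (hs : SqRev P.f0) : (2 : ℤ) ∣ (Q.w : ℤ) := by
  have h1 : (2 : ℤ) ∣ P.f0.derivative.eval (P.x Q.c) := by
    obtain ⟨g, hg⟩ := two_dvd_derivative hE hs
    rw [hg, eval_mul, eval_C]
    exact dvd_mul_right _ _
  have h2 : (Q.w : ℤ) * (2 * P.y Q.c / (Q.w : ℤ)) = 2 * P.y Q.c := Int.mul_ediv_cancel' (Q.dw Q.c)
  have h3 : (2 : ℤ) ∣ (Q.w : ℤ) * (2 * P.y Q.c / (Q.w : ℤ)) := by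
    rw [h2]
    exact dvd_mul_right _ _
  rcases Int.prime_two.dvd_or_dvd h3 with h4 | h4
  · exact h4
  · exfalso
    obtain ⟨u, v, huv⟩ := Q.cop Q.c
    have h5 : (2 : ℤ) ∣ 1 := by
      rw [← huv]
      exact dvd_add (h4.mul_left _) ((h1.mul_left _).mul_left _)
    norm_num at h5

theorem hE_ne_zero : Q.h ≠ 0 := by
  intro h0
  have h1 := Q.w_h
  rw [h0, mul_zero] at h1
  have h2 := P.pos Q.c
  omega

/-- the model -/
noncomputable def mdlE : Mdl P.f0 where
  xc := P.x Q.c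
  yc := P.y Q.c
  q := Q.q
  w := Q.w
  b := -Q.h
  E := Q.E
  q0 := Q.qz
  w0 := Q.wz
  b0 := neg_ne_zero.2 Q.hE_ne_zero
  hb := by
    rw [mul_neg, Q.w_h]
  hE := Q.E_spec
  E0 := by
    rw [coeff_zero_eq_eval_zero]
    exact Q.E_zero

/-- the class in the form used for positivity -/
noncomputable def fptsE : TTF.FPts ι where
  a := Q.E
  b := -Q.h
  nsq := TTF.nsq_of_irreducible Q.E (-Q.h) P.f0 P.irr P.monic (by have := P.two; omega)
    ((Q.w : ℤ) ^ 2) 4 Q.q (P.x Q.c) (pow_ne_zero 2 Q.wz) (by norm_num) Q.qz (by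
      rw [neg_sq]
      exact Q.four_E)
  t := Q.t
  z := Q.z
  inj := Q.t_inj
  eq i := by
    rw [← Q.eq i]
    ring
  pos i := by
    rw [sub_neg_eq_add]
    exact Q.two_z_pos i
  smooth i := by
    rw [sub_neg_eq_add]
    exact Int.isCoprime_iff_gcd_eq_one.1 (Q.smooth i)

/-- the primes of `w` divide twice the discriminant -/
theorem omegaE_le : Q.w.primeFactors.card ≤ (2 * P.f0.discr).natAbs.primeFactors.card := by
  apply Finset.card_le_card
  intro p hp
  have hpp := Nat.prime_of_mem_primeFactors hp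
  have hpd := Nat.dvd_of_mem_primeFactors hp
  rw [Nat.mem_primeFactors]
  refine ⟨hpp, ?_, two_discr_natAbs_ne_zero _ P.monic P.irr⟩
  have h3 := P.two
  exact Int.natCast_dvd.1 (dvd_two_discr P.monic (by omega) hpp (P.eq Q.c)
    ((Int.natCast_dvd_natCast.2 hpd).trans (Q.dw Q.c)) (Q.pd p hpp hpd))

end CData

/-- **The supplier of relations**, even degree. -/
theorem supply_even_core (n : ℕ) (hn : Even n) (h4 : 4 ≤ n) (K : Type) [Field K]
    [NumberField K] (hK : finrank ℚ K = n) (θ : 𝓞 K) (N : ℕ) (P : CPts (Fin N)) (Q : CData P)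
    (ρ R : ℝ) (hG : SqRev P.f0) (hθ : minpoly ℤ θ = P.f0) (hdeg : P.f0.natDegree = n)
    (hρ : 1 ≤ ρ) (hroots : ∀ z : ℂ, (P.f0.map (Int.castRingHom ℂ)).IsRoot z → ‖z‖ ≤ ρ)
    (hx : ∀ i, |(P.x i : ℝ)| ≤ ρ) (hqR : (Q.q : ℝ) * R ≤ ρ) :
    HasRel Q.fptsE R (30 * Real.sqrt ρ)
      (Nat.clog 2 (Nat.card {x : ClassGroup (𝓞 K) // x ^ 2 = 1}) +
        (n + 2) * (1 + (2 * P.f0.discr).natAbs.primeFactors.card)) := by
  classical
  set h : ℕ := Nat.card {x : ClassGroup (𝓞 K) // x ^ 2 = 1} with hh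
  set om : ℕ := (2 * P.f0.discr).natAbs.primeFactors.card with hom
  have hev : Even P.f0.natDegree := by rw [hdeg]; exact hn
  let E : Pool.TTE.EPts (Fin N) :=
    { f0 := P.f0
      monic := P.monic
      even := hev
      irr := P.irr
      four := by rw [hdeg]; exact h4
      root := hG
      x := P.x
      y := P.y
      inj := P.inj
      pos := P.pos
      eq := P.eq }
  obtain ⟨hfin, hcard⟩ := Pool.TTE.two_descent_even E K θ hθ (by rw [hK]; exact hdeg.symm)
  have hcard' : Nat.card (ClassGroup (Crd E.f) ⧸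
      (powMonoidHom 2 : ClassGroup (Crd E.f) →* _).range) ≤ 2 ^ (Nat.clog 2 h + n * (1 + om)) := by
    refine hcard.trans ?_
    rw [pow_add]
    have h1 : E.f0.natDegree = n := hdeg
    rw [h1]
    exact Nat.mul_le_mul_right _ (Nat.le_pow_clog (by norm_num) _)
  obtain ⟨L, hL1, hL2⟩ := rel_phi_even E Q.mdlE Q.t Q.z Q.x_eq (fun i => by
      have h3 := Q.w_z i
      show P.y i = (Q.w : ℤ) * Q.z i + P.y Q.c
      rw [h3]
      ring) Q.w.primeFactors (fun p hp => Nat.prime_of_mem_primeFactors hp)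
    (fun p hp hpq => by
      rw [Nat.mem_primeFactors]
      have h5 : (p : ℤ) ∣ 2 * (Q.q : ℤ) := hpq
      refine ⟨hp, ?_, Q.w0⟩
      rcases (Nat.prime_iff_prime_int.1 hp).dvd_or_dvd h5 with h6 | h6
      · exact Int.natCast_dvd_natCast.1 (h6.trans (Q.two_dvd_w hev hG))
      · exact Q.pq p hp (Int.natCast_dvd_natCast.1 h6))
    (fun p hp h6 => by
      obtain ⟨u, v, huv⟩ := Q.h_cop_w
      have h1 : (p : ℤ) ∣ Q.h := (dvd_neg).1 h6
      have h2 : (p : ℤ) ∣ 1 := by
        rw [← huv]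
        exact dvd_add (h1.mul_left _)
          ((Int.natCast_dvd_natCast.2 (Nat.dvd_of_mem_primeFactors hp)).mul_left _)
      exact (Nat.prime_iff_prime_int.1 (Nat.prime_of_mem_primeFactors hp)).not_isUnit
        (isUnit_of_dvd_one h2))
    (Nat.clog 2 h + n * (1 + om))
    (fun S hS => Pool.TTE.class_rank_even E _ hfin hcard' S hS)
  have hw := Q.omegaE_le
  refine hasRel_even_mdl E Q.mdlE Q.fptsE rfl rfl R ρ hρ hroots hx ?_ _ L ?_ ?_
  · have h1 : |((Q.mdlE.xc : ℤ) : ℝ)| ≤ ρ := hx Q.c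
    have h2 : |((Q.mdlE.q : ℤ) : ℝ)| = (Q.q : ℝ) := by
      show |(((Q.q : ℤ)) : ℝ)| = (Q.q : ℝ)
      rw [Int.cast_natCast, abs_of_nonneg (Nat.cast_nonneg _)]
    rw [h2]
    linarith
  · intro S hS
    refine hL1 S ?_
    have h1 : (n + 2) * (1 + om) = n * (1 + om) + 2 + 2 * om := by ring
    rw [h1] at hS
    have h2 : (2 * E.f0.discr).natAbs.primeFactors.card = om := rfl
    rw [h2]
    omega
  · intro m hm
    obtain ⟨h1, A, B, l, Φ, -, h2, h3, h5, h6, h7⟩ := hL2 m hm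
    exact ⟨h1, A, B, l, Φ, h2, h3, h5, h6, h7⟩

/-- **The supplier of relations**, even degree, in the form used by the class bound. -/
theorem supply_even (n : ℕ) (hn : Even n) (h4 : 4 ≤ n) : RelSupply SqRev n := by
  refine ⟨30, by norm_num, n + 2, ?_⟩
  intro K _ _ hK θ N P Q ρ r R T hG hθ hdeg hρ hroots hx _ _ _ _ hqR _
  exact ⟨Q.fptsE, rfl, rfl, rfl, rfl,
    supply_even_core n hn h4 K hK θ N P Q ρ R hG hθ hdeg hρ hroots hx hqR⟩

end Pool.TT.Five
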