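import Pool.Agent.Lib.MP_695920_nt.TT.Five.CSupply
import Pool.Agent.Lib.MP_695920_nt.TT.Five.CFPts
import Pool.Agent.Lib.MP_695920_nt.TT.Five.RelPhiQ
import Pool.Agent.Lib.MP_695920_nt.TT.Five.Disc
import Pool.Agent.Lib.MP_695920_nt.TT.Descent

set_option autoImplicit false

/-!
TEAM TWOTORSION, version 2: the supply of relations in odd degree (helper90).
-/

open Polynomial NumberField Module

namespace Pool.TT.Five

theorem HasRel.mono {ι : Type*} [Fintype ι] {P : Pool.TTF.FPts ι} {R K K' : ℝ} {d d' : ℕ}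
    (h : HasRel P R K d) (hK0 : 0 ≤ K) (hK : K ≤ K') (hd : d ≤ d') : HasRel P R K' d' := by
  obtain ⟨L, h1, h2⟩ := h
  refine ⟨L, fun S hS => h1 S (lt_of_le_of_lt hd hS), fun m hm => ?_⟩
  obtain ⟨h3, Φ, h4, h5, h6⟩ := h2 m hm
  refine ⟨h3, Φ, h4, h5, fun hm0 s t ht hs => (h6 hm0 s t ht hs).trans ?_⟩
  exact pow_le_pow_left₀ hK0 hK _

/-- the primes of `w` divide twice the discriminant -/
theorem CData.omega_le {ι : Type*} {P : CPts ι} (Q : CData P) :
    Q.w.primeFactors.card ≤ (2 * P.f0.discr).natAbs.primeFactors.card := by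
  apply Finset.card_le_card
  intro p hp
  have hpp := Nat.prime_of_mem_primeFactors hp
  have hpd := Nat.dvd_of_mem_primeFactors hp
  rw [Nat.mem_primeFactors]
  refine ⟨hpp, ?_, two_discr_natAbs_ne_zero _ P.monic P.irr⟩
  have h3 := P.two
  exact Int.natCast_dvd.1 (dvd_two_discr P.monic (by omega) hpp (P.eq Q.c)
    ((Int.natCast_dvd_natCast.2 hpd).trans (Q.dw Q.c)) (Q.pd p hpp hpd))

/-- the points as points of odd degree -/
def _root_.Pool.TT.CPts.toPts {ι : Type*} (P : CPts ι) (hodd : Odd P.f0.natDegree) (h3 : 3 ≤ P.f0.natDegree) :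
    Pts ι where
  f0 := P.f0
  monic := P.monic
  odd := hodd
  irr := P.irr
  three := h3
  x := P.x
  y := P.y
  inj := P.inj
  pos := P.pos
  eq := P.eq

/-- **The supply of relations in odd degree.** -/
theorem supply_odd (n : ℕ) (h3 : 3 ≤ n) : RelSupply OddDeg n := by
  refine ⟨33, by norm_num, n + 1, ?_⟩
  intro K _ _ hK θ N P Q ρ r R T hodd hθ hfn hρ hroots hx hr hR hT hqr hqρ ht
  have hn3 : 3 ≤ P.f0.natDegree := by rw [hfn]; exact h3
  let P' : Pts (Fin N) := P.toPts hodd hn3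
  let Q' : QData P' :=
    { c := Q.c, w := Q.w, q := Q.q, w0 := Q.w0, q0 := Q.q0, dx := Q.dx, dy := Q.dy,
      dE := Q.dE, dw := Q.dw, cop := Q.cop, pd := Q.pd, pq := Q.pq }
  set h : ℕ := Nat.card {x : ClassGroup (𝓞 K) // x ^ 2 = 1} with hh
  set om : ℕ := (2 * P.f0.discr).natAbs.primeFactors.card with hom
  have hf0 : P'.f0 = P.f0 := rfl
  obtain ⟨hfin, hcard⟩ := two_descent P' K θ hθ (by rw [hf0, hfn]; exact hK)
  have hcard' : Nat.card (ClassGroup (Crd P'.f) ⧸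
      (powMonoidHom 2 : ClassGroup (Crd P'.f) →* _).range) ≤ 2 ^ (Nat.clog 2 h + n * (1 + om)) := by
    refine hcard.trans ?_
    rw [pow_add, hf0, hfn]
    exact Nat.mul_le_mul_right _ (Nat.le_pow_clog (by norm_num) _)
  obtain ⟨L, hL1, hL2⟩ := rel_phi Q' (Nat.clog 2 h + n * (1 + om)) hfin hcard'
  have hE : Q'.E = Q.E := rfl
  refine ⟨Q'.toFPts, rfl, rfl, rfl, rfl, ?_⟩
  have hq0 : (0 : ℝ) < Q.q := by exact_mod_cast Nat.pos_of_ne_zero Q.q0
  have hq1 : (1 : ℝ) ≤ Q.q := by exact_mod_cast Nat.one_le_iff_ne_zero.2 Q.q0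
  have hR0 : 0 < R := by linarith
  have hRρ : R ≤ ρ := by
    refine le_trans ?_ hqρ
    exact le_mul_of_one_le_left hR0.le hq1
  have hroot' : ∀ z : ℂ, (Q'.toFPts.F.map (Int.castRingHom ℂ)).IsRoot z → ‖z‖ ≤ 2 * ρ := by
    intro z hz
    have h1 : 4 * (Q.E.map (Int.castRingHom ℂ)).eval z + (Q.h : ℂ) ^ 2 = 0 := by
      have h1 : (Q'.toFPts.F.map (Int.castRingHom ℂ)).eval z = 0 := hz
      have h2 : Q'.toFPts.F = C 4 * Q.E + C (Q.h ^ 2) := by
        rw [TTF.FPts.F, Q'.toFPts_a, Q'.toFPts_b, neg_sq]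
        rfl
      rw [h2] at h1
      simp only [Polynomial.map_add, Polynomial.map_mul, Polynomial.map_C, eval_add, eval_mul,
        eval_C] at h1
      simpa only [eq_intCast, Int.cast_pow, Int.cast_ofNat] using h1
    have h2 := hroots _ (Q.root_of_root z h1)
    have h3 : ‖(P.x Q.c : ℂ)‖ ≤ ρ := by
      rw [Complex.norm_intCast]
      exact hx Q.c
    have h4 : ‖(Q.q : ℂ) * z‖ ≤ 2 * ρ := by
      have e : (Q.q : ℂ) * z = ((Q.q : ℂ) * z + P.x Q.c) - P.x Q.c := by ring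
      rw [e]
      refine (norm_sub_le _ _).trans ?_
      linarith
    rw [norm_mul, Complex.norm_natCast] at h4
    have h5 : ‖z‖ ≤ Q.q * ‖z‖ := le_mul_of_one_le_left (norm_nonneg _) hq1
    linarith
  have hrel := hasRel_odd Q'.toFPts Q'.E_odd R T (2 * ρ) hR hT (by linarith) hroot' ht _ L hL1 hL2
  refine hrel.mono (Real.sqrt_nonneg _) ?_ ?_
  · have h1 : √(525 * (2 * ρ)) ≤ √(33 ^ 2 * ρ) := Real.sqrt_le_sqrt (by nlinarith)
    rwa [Real.sqrt_mul (x := (33 : ℝ) ^ 2) (by norm_num) ρ, Real.sqrt_sq (by norm_num)] at h1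
  · have h1 : Q'.w.primeFactors.card ≤ om := Q.omega_le
    have h2 : (n + 1) * (1 + om) = n * (1 + om) + (1 + om) := by ring
    omega

end Pool.TT.Five
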