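import Pool.Agent.Lib.MP_695920_nt.TT.Five.CClass
import Pool.Agent.Lib.MP_695920_nt.TT.Five.SupplyO
import Pool.Agent.Lib.MP_695920_nt.TT.Five.SupplyE
import Pool.Agent.Lib.MP_695920_nt.TT.Five.CLine
import Pool.Agent.Lib.MP_695920_nt.TT.Five.QBoot
import Pool.Agent.Lib.MP_695920_nt.TT.Five.KLNum

set_option autoImplicit false

/-!
TEAM TWOTORSION, version 2: the theorem for every degree `n ≥ 5` with the exponent
`θ_n = (1 / 2 - 1 / n) / (1 - b_n)`, `b_n` the Kabatiansky-Levenshtein rate at the cosine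
`1 / (n - 1)` (helper76).
-/

open Real NumberField Module

namespace Pool.TT.Five

/-- the number of points on a line, every degree `n ≥ 3` -/
theorem line_kl (n : ℕ) (h3 : 3 ≤ n) : ∀ σ > bKL n, LineQ n σ := by
  intro σ hσ
  have hn3 : (3 : ℝ) ≤ n := by exact_mod_cast h3
  have hn1 : (0 : ℝ) < (n : ℝ) - 1 := by linarith
  have hs0 : 0 < 1 / ((n : ℝ) - 1) := by positivity
  have hs1 : 1 / ((n : ℝ) - 1) < 1 := by
    rw [div_lt_one hn1]
    linarith
  have hE := codeRate_kl hs0 hs1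
  have hl2 : 0 < log 2 := log_pos (by norm_num)
  have hE0 : 0 ≤ ent (klk (1 / ((n : ℝ) - 1))) := by
    have h1 := klk_pos h3
    have h2 : 0 ≤ log (1 + klk (1 / ((n : ℝ) - 1))) := log_nonneg (by linarith)
    have h4 : log (klk (1 / ((n : ℝ) - 1))) ≤ log (1 + klk (1 / ((n : ℝ) - 1))) :=
      log_le_log h1 (by linarith)
    unfold ent
    nlinarith
  have hb0 : 0 ≤ bKL n := div_nonneg hE0 hl2.le
  obtain ⟨σ1, h1, h2⟩ := exists_between (show bKL n < σ from hσ)
  have hσ1 : 0 ≤ σ1 := hb0.trans h1.le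
  have hEσ : ent (klk (1 / ((n : ℝ) - 1))) < σ1 * log 2 := by
    rw [bKL, div_lt_iff₀ hl2] at h1
    exact h1
  rcases Nat.even_or_odd n with he | ho
  · have h4 : 4 ≤ n := by
      rcases he with ⟨k, hk⟩
      omega
    exact lineQ_even n he (lineC_of_classBoundC SqRev n h3 σ1 hσ1
      (class_boundC (by omega) hE (supply_even n he h4) hσ1 hEσ) σ h2)
  · exact lineQ_odd n ho (lineC_of_classBoundC OddDeg n h3 σ1 hσ1
      (class_boundC (by omega) hE (supply_odd n h3) hσ1 hEσ) σ h2)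

/-- **Every degree `n ≥ 5`.** -/
theorem main_kl (n : ℕ) (h5 : 5 ≤ n) {ε : ℝ} (hε : 0 < ε) :
    ∃ C : ℝ, ∀ (K : Type) [Field K] [NumberField K], finrank ℚ K = n →
      (Nat.card {x : ClassGroup (𝓞 K) // x ^ 2 = 1} : ℝ) ≤
        C * |(discr K : ℝ)| ^ (thetaKL n + ε) := by
  have h := boot n (by omega) (bKL_lt_one h5) (line_kl n (by omega)) hε
  have h1 : max (1 / 3) ((1 / 2 - 1 / (n : ℝ)) / (1 - bKL n)) = thetaKL n := by
    have := third_le_thetaKL h5
    rw [thetaKL] at this ⊢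
    exact max_eq_right this
  rwa [h1] at h

end Pool.TT.Five
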