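import Pool.Agent.Lib.MP_695920_nt.TT.Five.KL4

set_option autoImplicit false

/-!
TEAM TWOTORSION: the numbers for cubic fields. With the Kabatiansky-Levenshtein rate
`b(s) = ent (klk s) / log 2` at `s = (1 - u) / 2`, `u = 1 / 6`, the exponent
`(1 / 2 - 1 / 3 + u / 6) / (1 - b(s))` is less than `274 / 1000`; at `u = 0` it is less than
`2785 / 10000`.
-/

namespace Pool.TT.Five

private theorem kt_log_five : Real.log 5 ≤ 72 / 31 * Real.log 2 := by
  have h1 : (31 : ℕ) * Real.log 5 ≤ (72 : ℕ) * Real.log 2 := by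
    rw [← Real.log_pow, ← Real.log_pow]
    exact Real.log_le_log (by norm_num) (by norm_num)
  push_cast at h1
  linarith

private theorem kt_log_le {x y : ℝ} (hy : 0 ≤ y) (hx : 0 < x) (h : x ≤ 1 + y + y ^ 2 / 2) :
    Real.log x ≤ y := by
  rw [Real.log_le_iff_le_exp hx]
  exact h.trans (Real.quadratic_le_exp_of_nonneg hy)

private theorem kt_klk {s a b : ℝ} (ha : 0 < a) (hb : 0 < b) (h1 : a ^ 2 * (1 - s ^ 2) < 1)
    (h2 : 1 < b ^ 2 * (1 - s ^ 2)) : (a - 1) / 2 < klk s ∧ klk s < (b - 1) / 2 := by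
  have hs : 0 < 1 - s ^ 2 := by
    by_contra h
    push Not at h
    have := mul_nonpos_of_nonneg_of_nonpos (sq_nonneg b) h
    linarith
  have hr : 0 < √(1 - s ^ 2) := Real.sqrt_pos.mpr hs
  have hsq : √(1 - s ^ 2) ^ 2 = 1 - s ^ 2 := Real.sq_sqrt hs.le
  have h3 : a < 1 / √(1 - s ^ 2) := by
    rw [lt_div_iff₀ hr]
    rw [← hsq, ← mul_pow] at h1
    have := mul_pos ha hr
    nlinarith
  have h4 : 1 / √(1 - s ^ 2) < b := by
    rw [div_lt_iff₀ hr]
    rw [← hsq, ← mul_pow] at h2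
    have := mul_pos hb hr
    nlinarith
  unfold klk
  constructor <;> linarith

private theorem kt_ent {κ a b x y : ℝ} (ha : 0 < a) (h1 : a ≤ κ) (h2 : κ ≤ b)
    (hx : Real.log (1 + b) ≤ x) (hy : -Real.log a ≤ y) (hy0 : 0 ≤ y) :
    ent κ ≤ (1 + b) * x + b * y := by
  have hκ : 0 < κ := ha.trans_le h1
  have h3 : Real.log (1 + κ) ≤ x := (Real.log_le_log (by linarith) (by linarith)).trans hx
  have h4 : 0 ≤ Real.log (1 + κ) := Real.log_nonneg (by linarith)
  have h5 : -Real.log κ ≤ y := by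
    have := Real.log_le_log ha h1
    linarith
  unfold ent
  have h6 : (1 + κ) * Real.log (1 + κ) ≤ (1 + b) * x :=
    mul_le_mul (by linarith) h3 h4 (by linarith)
  have h7 : κ * (-Real.log κ) ≤ b * y :=
    (mul_le_mul_of_nonneg_left h5 hκ.le).trans (mul_le_mul_of_nonneg_right h2 hy0)
  linarith

/-- `b(5/12) < .2903` -/
theorem ent_klk_three : ent (klk (5 / 12)) < 2903 / 10000 * Real.log 2 := by
  obtain ⟨h1, h2⟩ := kt_klk (s := 5 / 12) (a := 11 / 10) (b := 110004 / 100000) (by norm_num)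
    (by norm_num) (by norm_num) (by norm_num)
  have hl5 := kt_log_five
  have h3 : Real.log (1 + 5002 / 100000) ≤ 4883 / 100000 :=
    kt_log_le (by norm_num) (by norm_num) (by norm_num)
  have h4 : -Real.log (1 / 20) ≤ 134 / 31 * Real.log 2 := by
    rw [one_div, Real.log_inv, neg_neg, show (20 : ℝ) = 2 ^ 2 * 5 by norm_num,
      Real.log_mul (by norm_num) (by norm_num), Real.log_pow]
    push_cast
    linarith
  have h6 := Real.log_two_gt_d9
  have h5 := kt_ent (κ := klk (5 / 12)) (a := 1 / 20) (b := 5002 / 100000) (by norm_num)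
    (by linarith) (by linarith) h3 h4 (by linarith)
  linarith

/-- the exponent for cubic fields (`u = 1 / 6`), `< .274` -/
theorem theta_three_lt : (1 / 2 - 1 / 3 + 1 / 6 / (2 * 3)) /
    (1 - ent (klk ((1 - 1 / 6) / (3 - 1))) / Real.log 2) < 274 / 1000 := by
  have h0 : ((1 : ℝ) - 1 / 6) / (3 - 1) = 5 / 12 := by norm_num
  rw [h0]
  have hl : 0 < Real.log 2 := Real.log_pos (by norm_num)
  have h1 : ent (klk (5 / 12)) / Real.log 2 < 2903 / 10000 := by
    rw [div_lt_iff₀ hl]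
    exact ent_klk_three
  rw [div_lt_iff₀ (by linarith)]
  linarith

end Pool.TT.Five
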