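import Pool.Agent.Lib.MP_695920_nt.TT.Five.CClassT
import Pool.Agent.Lib.MP_695920_nt.TT.Five.SupplyO
import Pool.Agent.Lib.MP_695920_nt.TT.Five.SupplyE
import Pool.Agent.Lib.MP_695920_nt.TT.Five.CLineT
import Pool.Agent.Lib.MP_695920_nt.TT.Five.QBoot
import Pool.Agent.Lib.MP_695920_nt.TT.Five.KLThree

set_option autoImplicit false

/-!
TEAM TWOTORSION, plan (E): slices. The number of points on a line with the parameter `t` of
Helfgott and Venkatesh, every degree, and the theorem for cubic fields (helper76).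
-/

open Real NumberField Module

namespace Pool.TT.Five

/-- the rate in powers of `h = #Cl[2]` -/
noncomputable def bT (n : ℕ) (t : ℝ) : ℝ := ent (klk ((1 - t) / ((n : ℝ) - 1))) / log 2

/-- the exponent -/
noncomputable def thetaT (n : ℕ) (t : ℝ) : ℝ :=
  (1 / 2 - 1 / (n : ℝ) + t / (2 * n)) / (1 - bT n t)

theorem klk_pos_of {s : ℝ} (hs0 : 0 < s) (hs1 : s < 1) : 0 < klk s := by
  have h1 : 0 < 1 - s ^ 2 := by nlinarith
  have hr : 0 < √(1 - s ^ 2) := Real.sqrt_pos.2 h1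
  have hr1 : √(1 - s ^ 2) < 1 := by
    rw [Real.sqrt_lt' one_pos]
    nlinarith
  unfold klk
  have : 1 < 1 / √(1 - s ^ 2) := by
    rw [lt_div_iff₀ hr]
    linarith
  linarith

theorem ent_nonneg_of {κ : ℝ} (h : 0 < κ) : 0 ≤ ent κ := by
  have h2 : 0 ≤ log (1 + κ) := log_nonneg (by linarith)
  have h4 : log κ ≤ log (1 + κ) := log_le_log h (by linarith)
  unfold ent
  nlinarith

theorem bT_nonneg {n : ℕ} (h3 : 3 ≤ n) {t : ℝ} (ht0 : 0 ≤ t) (ht1 : t < 1) : 0 ≤ bT n t := by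
  have hn3 : (3 : ℝ) ≤ n := by exact_mod_cast h3
  have hn1 : (0 : ℝ) < (n : ℝ) - 1 := by linarith
  have hs0 : 0 < (1 - t) / ((n : ℝ) - 1) := div_pos (by linarith) hn1
  have hs1 : (1 - t) / ((n : ℝ) - 1) < 1 := by
    rw [div_lt_one hn1]
    linarith
  exact div_nonneg (ent_nonneg_of (klk_pos_of hs0 hs1)) (log_pos (by norm_num)).le

/-- **The number of points on a line**, every degree `n ≥ 3`, every `0 ≤ t < 1`. -/
theorem lineT_kl (n : ℕ) (h3 : 3 ≤ n) {t : ℝ} (ht0 : 0 ≤ t) (ht1 : t < 1) :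
    ∀ σ > bT n t, LineQT n (t / (2 * n)) σ := by
  intro σ hσ
  have hn3 : (3 : ℝ) ≤ n := by exact_mod_cast h3
  have hn1 : (0 : ℝ) < (n : ℝ) - 1 := by linarith
  have hs0 : 0 < (1 - t) / ((n : ℝ) - 1) := div_pos (by linarith) hn1
  have hs1 : (1 - t) / ((n : ℝ) - 1) < 1 := by
    rw [div_lt_one hn1]
    linarith
  have hτ : 0 ≤ t / (2 * (n : ℝ)) := by positivity
  have hτs : 1 - 2 * n * (t / (2 * (n : ℝ))) ≤ (1 - t) / ((n : ℝ) - 1) * ((n : ℝ) - 1) := by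
    rw [div_mul_cancel₀ _ hn1.ne']
    have : 2 * (n : ℝ) * (t / (2 * n)) = t := by field_simp
    rw [this]
  have hE := codeRateT_kl hs0 hs1
  have hl2 : 0 < log 2 := log_pos (by norm_num)
  obtain ⟨σ1, h1, h2⟩ := exists_between (show bT n t < σ from hσ)
  have hσ1 : 0 ≤ σ1 := (bT_nonneg h3 ht0 ht1).trans h1.le
  have hEσ : ent (klk ((1 - t) / ((n : ℝ) - 1))) < σ1 * log 2 := by
    rw [bT, div_lt_iff₀ hl2] at h1
    exact h1
  rcases Nat.even_or_odd n with he | ho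
  · have h4 : 4 ≤ n := by
      rcases he with ⟨k, hk⟩
      omega
    exact lineQT_even n he (lineT_of_classBoundT SqRev n h3 hτ σ1
      (class_boundT (by omega) hτ hs0 hτs hE (supply_even n he h4) hσ1 hEσ) σ h2)
  · exact lineQT_odd n ho (lineT_of_classBoundT OddDeg n h3 hτ σ1
      (class_boundT (by omega) hτ hs0 hτs hE (supply_odd n h3) hσ1 hEσ) σ h2)

theorem thetaT_three : thetaT 3 (1 / 6) = 7 / 36 / (1 - ent (klk (5 / 12)) / log 2) := by
  unfold thetaT bT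
  norm_num

theorem bT_three_lt : bT 3 (1 / 6) < 2903 / 10000 := by
  have h0 : ((1 : ℝ) - 1 / 6) / (((3 : ℕ) : ℝ) - 1) = 5 / 12 := by norm_num
  rw [bT, h0, div_lt_iff₀ (log_pos (by norm_num))]
  exact ent_klk_three

theorem thetaT_three_lt : thetaT 3 (1 / 6) < 274 / 1000 := by
  have h1 := bT_three_lt
  rw [thetaT, div_lt_iff₀ (by linarith)]
  push_cast
  linarith

/-- **Cubic fields.** -/
theorem main_three {ε : ℝ} (hε : 0 < ε) :
    ∃ C : ℝ, ∀ (K : Type) [Field K] [NumberField K], finrank ℚ K = 3 →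
      (Nat.card {x : ClassGroup (𝓞 K) // x ^ 2 = 1} : ℝ) ≤
        C * |(discr K : ℝ)| ^ (thetaT 3 (1 / 6) + ε) := by
  have hb1 := bT_three_lt
  have hb0 := bT_nonneg (n := 3) le_rfl (t := 1 / 6) (by norm_num) (by norm_num)
  have h := boot_three (σ := bT 3 (1 / 6)) (κ := 1 / 6 / (2 * ((3 : ℕ) : ℝ))) (by linarith)
    (fun σ hσ => (lineT_kl 3 le_rfl (t := 1 / 6) (by norm_num) (by norm_num) σ hσ).toK) hε
  have h1 : max (1 / 6) ((1 / 6 + 1 / 6 / (2 * ((3 : ℕ) : ℝ))) / (1 - bT 3 (1 / 6))) =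
      thetaT 3 (1 / 6) := by
    have e : (1 : ℝ) / 6 + 1 / 6 / (2 * ((3 : ℕ) : ℝ)) =
        1 / 2 - 1 / ((3 : ℕ) : ℝ) + 1 / 6 / (2 * ((3 : ℕ) : ℝ)) := by norm_num
    rw [thetaT, ← e]
    apply max_eq_right
    rw [le_div_iff₀ (by linarith)]
    push_cast
    linarith
  rwa [h1] at h

end Pool.TT.Five
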