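import Mathlib

/-! # The Fischer inner product and power sums of linear forms -/

open MvPolynomial Finset

namespace Pool.TT.Five

set_option linter.unusedSectionVars false

variable {σ : Type*} [Fintype σ] [DecidableEq σ]

/-- The product of the factorials of the exponents. -/
noncomputable def fac (α : σ →₀ ℕ) : ℝ := ∏ i, ((α i).factorial : ℝ)

theorem fac_pos (α : σ →₀ ℕ) : 0 < fac α :=
  Finset.prod_pos fun i _ => by exact_mod_cast Nat.factorial_pos _

theorem fac_add_single (α : σ →₀ ℕ) (a : σ) :
    fac (α + Finsupp.single a 1) = ((α a : ℝ) + 1) * fac α := by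
  unfold fac
  rw [← Finset.mul_prod_erase _ _ (Finset.mem_univ a),
    ← Finset.mul_prod_erase Finset.univ (fun i => ((α i).factorial : ℝ)) (Finset.mem_univ a),
    ← mul_assoc]
  congr 1
  · rw [Finsupp.add_apply, Finsupp.single_eq_same, Nat.factorial_succ]
    push_cast
    ring
  · refine Finset.prod_congr rfl fun i hi => ?_
    rw [Finsupp.add_apply, Finsupp.single_eq_of_ne (Finset.ne_of_mem_erase hi), add_zero]

/-- The Fischer inner product. -/
noncomputable def fis (P Q : MvPolynomial σ ℝ) : ℝ :=
  (basisMonomials σ ℝ).constr ℝ (fun α => coeff α Q * fac α) P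

theorem fis_add_left (P P' Q : MvPolynomial σ ℝ) : fis (P + P') Q = fis P Q + fis P' Q :=
  map_add _ _ _

theorem fis_smul_left (c : ℝ) (P Q : MvPolynomial σ ℝ) : fis (c • P) Q = c * fis P Q := by
  unfold fis
  rw [map_smul, smul_eq_mul]

theorem fis_zero_left (Q : MvPolynomial σ ℝ) : fis 0 Q = 0 := map_zero _

theorem fis_monomial_left (α : σ →₀ ℕ) (c : ℝ) (Q : MvPolynomial σ ℝ) :
    fis (monomial α c) Q = c * (coeff α Q * fac α) := by
  have h1 : (monomial α c : MvPolynomial σ ℝ) = c • basisMonomials σ ℝ α := by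
    rw [coe_basisMonomials, smul_monomial, smul_eq_mul, mul_one]
  rw [h1, fis_smul_left]
  unfold fis
  rw [Module.Basis.constr_basis]

theorem fis_add_right (P Q Q' : MvPolynomial σ ℝ) : fis P (Q + Q') = fis P Q + fis P Q' := by
  induction P using MvPolynomial.induction_on' with
  | monomial α c =>
    rw [fis_monomial_left, fis_monomial_left, fis_monomial_left, coeff_add]
    ring
  | add p q hp hq =>
    rw [fis_add_left, fis_add_left, fis_add_left, hp, hq]
    ring

theorem fis_symm (P Q : MvPolynomial σ ℝ) : fis P Q = fis Q P := by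
  induction P using MvPolynomial.induction_on' with
  | monomial α c =>
    induction Q using MvPolynomial.induction_on' with
    | monomial β b =>
      rw [fis_monomial_left, fis_monomial_left, coeff_monomial, coeff_monomial]
      by_cases h : β = α
      · subst h
        simp only [if_true]
        ring
      · rw [if_neg h, if_neg (fun h' => h h'.symm)]
        ring
    | add p q hp hq => rw [fis_add_right, hp, hq, fis_add_left]
  | add p q hp hq => rw [fis_add_left, hp, hq, fis_add_right]

theorem fis_smul_right (c : ℝ) (P Q : MvPolynomial σ ℝ) : fis P (c • Q) = c * fis P Q := by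
  rw [fis_symm, fis_smul_left, fis_symm]

theorem fis_sum_left {ι : Type*} (s : Finset ι) (f : ι → MvPolynomial σ ℝ)
    (Q : MvPolynomial σ ℝ) : fis (∑ i ∈ s, f i) Q = ∑ i ∈ s, fis (f i) Q := by
  unfold fis
  rw [map_sum]

theorem fis_sum_right {ι : Type*} (s : Finset ι) (f : ι → MvPolynomial σ ℝ)
    (P : MvPolynomial σ ℝ) : fis P (∑ i ∈ s, f i) = ∑ i ∈ s, fis P (f i) := by
  rw [fis_symm, fis_sum_left]
  exact Finset.sum_congr rfl fun i _ => fis_symm _ _

theorem fis_self_nonneg (P : MvPolynomial σ ℝ) : 0 ≤ fis P P := by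
  have h : fis P P = ∑ α ∈ P.support, coeff α P * (coeff α P * fac α) := by
    conv_lhs => rw [P.as_sum]
    rw [fis_sum_left]
    refine Finset.sum_congr rfl fun α _ => ?_
    rw [fis_monomial_left, ← P.as_sum]
  rw [h]
  refine Finset.sum_nonneg fun α _ => ?_
  have := fac_pos α
  nlinarith [mul_nonneg (mul_self_nonneg (coeff α P)) this.le]

/-- Cauchy-Schwarz. -/
theorem fis_sq_le (P Q : MvPolynomial σ ℝ) : fis P Q ^ 2 ≤ fis P P * fis Q Q := by
  have h : ∀ x : ℝ, 0 ≤ fis Q Q * (x * x) + 2 * fis P Q * x + fis P P := by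
    intro x
    have h1 := fis_self_nonneg (P + x • Q)
    rw [fis_add_left, fis_add_right, fis_add_right, fis_smul_left, fis_smul_left,
      fis_smul_right, fis_smul_right, fis_symm Q P] at h1
    linarith
  have h2 := discrim_le_zero h
  unfold discrim at h2
  nlinarith

theorem coeff_pderiv' (a : σ) (Q : MvPolynomial σ ℝ) (α : σ →₀ ℕ) :
    coeff α (pderiv a Q) = ((α a : ℝ) + 1) * coeff (α + Finsupp.single a 1) Q := by
  induction Q using MvPolynomial.induction_on' with
  | monomial β b =>
    rw [pderiv_monomial, coeff_monomial, coeff_monomial]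
    by_cases h : β = α + Finsupp.single a 1
    · subst h
      rw [if_pos (by simp), if_pos rfl]
      simp
      ring
    · rw [if_neg h, mul_zero]
      by_cases h0 : β a = 0
      · simp [h0]
      · rw [if_neg]
        intro h1
        refine h ?_
        rw [← h1]
        ext i
        by_cases hi : i = a
        · subst hi
          simp
          omega
        · simp [Finsupp.single_eq_of_ne hi]
  | add p q hp hq =>
    rw [map_add, coeff_add, coeff_add, hp, hq]
    ring

/-- Multiplication by a variable is adjoint to the derivation. -/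
theorem fis_X_mul (a : σ) (P Q : MvPolynomial σ ℝ) : fis (X a * P) Q = fis P (pderiv a Q) := by
  induction P using MvPolynomial.induction_on' with
  | monomial α c =>
    have h : (X a * monomial α c : MvPolynomial σ ℝ) =
        monomial (α + Finsupp.single a 1) c := by
      rw [X, monomial_mul, one_mul, add_comm]
    rw [h, fis_monomial_left, fis_monomial_left, fac_add_single, coeff_pderiv']
    ring
  | add p q hp hq => rw [mul_add, fis_add_left, fis_add_left, hp, hq]

/-- The linear form with coefficients `u`. -/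
noncomputable def lin (u : σ → ℝ) : MvPolynomial σ ℝ := ∑ a, C (u a) * X a

/-- The square of the radius. -/
noncomputable def rad : MvPolynomial σ ℝ := ∑ a : σ, X a * X a

/-- The Laplace operator. -/
noncomputable def lap (P : MvPolynomial σ ℝ) : MvPolynomial σ ℝ := ∑ a, pderiv a (pderiv a P)

theorem lap_sum {ι : Type*} (s : Finset ι) (f : ι → MvPolynomial σ ℝ) :
    lap (∑ i ∈ s, f i) = ∑ i ∈ s, lap (f i) := by
  unfold lap
  rw [Finset.sum_comm]
  refine Finset.sum_congr rfl fun a _ => ?_
  rw [map_sum, map_sum]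

theorem fis_rad_mul (P Q : MvPolynomial σ ℝ) : fis (rad * P) Q = fis P (lap Q) := by
  unfold rad lap
  rw [Finset.sum_mul, fis_sum_left, fis_sum_right]
  refine Finset.sum_congr rfl fun a _ => ?_
  rw [mul_assoc, fis_X_mul, fis_X_mul]

theorem pderiv_lin (u : σ → ℝ) (a : σ) : pderiv a (lin u) = C (u a) := by
  unfold lin
  rw [map_sum, Finset.sum_eq_single a]
  · rw [pderiv_C_mul, pderiv_X_self, mul_one]
  · intro b _ hb
    rw [pderiv_C_mul, pderiv_X_of_ne hb, mul_zero]
  · intro h
    exact absurd (Finset.mem_univ a) h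

theorem pderiv_lin_pow (u : σ → ℝ) (a : σ) (k : ℕ) :
    pderiv a (lin u ^ (k + 1)) = C (((k : ℝ) + 1) * u a) * lin u ^ k := by
  rw [Derivation.leibniz_pow, pderiv_lin, Nat.add_sub_cancel, nsmul_eq_mul, smul_eq_mul, C_mul]
  push_cast
  rw [map_add, map_natCast, map_one]
  ring

/-- The scalar product. -/
def dot (u v : σ → ℝ) : ℝ := ∑ a, u a * v a

theorem fis_lin_mul (u : σ → ℝ) (P Q : MvPolynomial σ ℝ) :
    fis (lin u * P) Q = ∑ a, u a * fis P (pderiv a Q) := by
  unfold lin
  rw [Finset.sum_mul, fis_sum_left]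
  refine Finset.sum_congr rfl fun a _ => ?_
  have h : (C (u a) * X a * P : MvPolynomial σ ℝ) = u a • (X a * P) := by
    rw [smul_eq_C_mul, mul_assoc]
  rw [h, fis_smul_left, fis_X_mul]

theorem fis_pow (u v : σ → ℝ) (k : ℕ) :
    fis (lin u ^ k) (lin v ^ k) = (k.factorial : ℝ) * dot u v ^ k := by
  induction k with
  | zero =>
    have h : (1 : MvPolynomial σ ℝ) = monomial 0 1 := rfl
    rw [pow_zero, pow_zero, pow_zero, h, fis_monomial_left, coeff_monomial, if_pos rfl]
    simp [fac]
  | succ k ih =>
    rw [pow_succ' (lin u), fis_lin_mul]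
    have h : ∀ a, u a * fis (lin u ^ k) (pderiv a (lin v ^ (k + 1))) =
        ((k + 1).factorial : ℝ) * dot u v ^ k * (u a * v a) := by
      intro a
      rw [pderiv_lin_pow, ← smul_eq_C_mul, fis_smul_right, ih, Nat.factorial_succ]
      push_cast
      ring
    rw [Finset.sum_congr rfl fun a _ => h a, ← Finset.mul_sum]
    unfold dot
    ring

theorem lap_pow (u : σ → ℝ) (hu : dot u u = 1) (k : ℕ) :
    lap (lin u ^ (k + 2)) = (((k : ℝ) + 2) * ((k : ℝ) + 1)) • lin u ^ k := by
  unfold lap
  have h : ∀ a, pderiv a (pderiv a (lin u ^ (k + 2))) =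
      (((k : ℝ) + 2) * ((k : ℝ) + 1) * (u a * u a)) • lin u ^ k := by
    intro a
    rw [pderiv_lin_pow, pderiv_C_mul, pderiv_lin_pow, ← mul_assoc, ← C_mul, smul_eq_C_mul]
    congr 2
    push_cast
    ring
  rw [Finset.sum_congr rfl fun a _ => h a, ← Finset.sum_smul, ← Finset.mul_sum]
  congr 1
  unfold dot at hu
  rw [hu, mul_one]

theorem euler_pow (u : σ → ℝ) (k : ℕ) :
    ∑ a, X a * pderiv a (lin u ^ k) = (k : ℝ) • lin u ^ k := by
  cases k with
  | zero => simp
  | succ k =>
    have h : ∀ a, (X a * pderiv a (lin u ^ (k + 1)) : MvPolynomial σ ℝ) =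
        (C ((k : ℝ) + 1) * lin u ^ k) * (C (u a) * X a) := by
      intro a
      rw [pderiv_lin_pow, C_mul]
      ring
    rw [Finset.sum_congr rfl fun a _ => h a, ← Finset.mul_sum, smul_eq_C_mul]
    push_cast
    unfold lin
    ring

theorem lap_rad_mul (P : MvPolynomial σ ℝ) :
    lap (rad * P) = ((2 * Fintype.card σ : ℕ) : ℝ) • P +
      (4 : ℝ) • ∑ a, X a * pderiv a P + rad * lap P := by
  have h0 : ∀ a : σ, pderiv a (rad : MvPolynomial σ ℝ) = C 2 * X a := by
    intro a
    unfold rad
    rw [map_sum, Finset.sum_eq_single a]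
    · rw [Derivation.leibniz, pderiv_X_self, smul_eq_mul, mul_one]
      rw [show (C 2 : MvPolynomial σ ℝ) = 2 from map_ofNat C 2]
      ring
    · intro b _ hb
      rw [Derivation.leibniz, pderiv_X_of_ne hb, smul_zero, add_zero]
    · intro h
      exact absurd (Finset.mem_univ a) h
  have h1 : ∀ a : σ, pderiv a (pderiv a (rad * P)) =
      C 2 * P + C 4 * (X a * pderiv a P) + rad * pderiv a (pderiv a P) := by
    intro a
    rw [Derivation.leibniz, h0, smul_eq_mul, smul_eq_mul, map_add, Derivation.leibniz,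
      Derivation.leibniz, h0, pderiv_C_mul, pderiv_X_self]
    simp only [smul_eq_mul, mul_one]
    rw [show (C 4 : MvPolynomial σ ℝ) = C 2 + C 2 by rw [← C_add]; norm_num]
    ring
  unfold lap
  rw [Finset.sum_congr rfl fun a _ => h1 a, Finset.sum_add_distrib, Finset.sum_add_distrib,
    Finset.sum_const, ← Finset.mul_sum, ← Finset.mul_sum, Finset.card_univ, nsmul_eq_mul]
  congr 2
  · rw [smul_eq_C_mul]
    push_cast
    rw [C_mul, map_natCast]
    ring
  · rw [smul_eq_C_mul]

end Pool.TT.Five
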