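import Mathlib

set_option autoImplicit false

/-!
TEAM TWOTORSION, n = 5: triangular functionals on a lattice.
-/

namespace Pool.TTF

open Module

private theorem hnf_expand {K : Type} [Field K] [CharZero K] (s : ℕ)
    (ih : ∀ (M : Type) [AddCommGroup M] (l : Fin s → M →+ K) (β : Fin s → K),
      (∀ k v, (∀ j < k, l j v = 0) → ∃ m : ℤ, l k v = m * β k) → ∀ v : Fin s → M,
      ∃ m : ℤ, (Matrix.of fun k c => l k (v c)).det = m * ∏ k, β k)
    (M : Type) [AddCommGroup M] (l : Fin (s + 1) → M →+ K) (β : Fin (s + 1) → K)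
    (h : ∀ k v, (∀ j < k, l j v = 0) → ∃ m : ℤ, l k v = m * β k) (v : Fin (s + 1) → M)
    (c₀ : Fin (s + 1)) (h0 : ∀ c, c ≠ c₀ → l 0 (v c) = 0) :
    ∃ m : ℤ, (Matrix.of fun k c => l k (v c)).det = m * ∏ k, β k := by
  obtain ⟨m₀, hm₀⟩ := h 0 (v c₀) (fun j hj => absurd hj (Fin.not_lt_zero j))
  have hker : ∀ c : Fin s, v (c₀.succAbove c) ∈ (l 0).ker := fun c => by
    rw [AddMonoidHom.mem_ker]
    exact h0 _ (Fin.succAbove_ne c₀ c)
  obtain ⟨m₁, hm₁⟩ := ih (l 0).ker (fun k => (l k.succ).comp (l 0).ker.subtype)
    (fun k => β k.succ) (by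
      intro k w hw
      have h1 : ∀ j < k.succ, l j (w : M) = 0 := by
        intro j hj
        rcases Fin.eq_zero_or_eq_succ j with rfl | ⟨i, rfl⟩
        · exact w.2
        · exact hw i (Fin.succ_lt_succ_iff.mp hj)
      obtain ⟨m, hm⟩ := h k.succ w h1
      exact ⟨m, hm⟩) (fun c => ⟨v (c₀.succAbove c), hker c⟩)
  refine ⟨(-1) ^ (c₀ : ℕ) * m₀ * m₁, ?_⟩
  rw [Matrix.det_succ_row_zero, Finset.sum_eq_single c₀]
  · have h2 : (Matrix.of fun k c => l k (v c)).submatrix Fin.succ c₀.succAbove =
        Matrix.of fun (k c : Fin s) => ((l k.succ).comp (l 0).ker.subtype)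
          (⟨v (c₀.succAbove c), hker c⟩ : (l 0).ker) := by
      ext k c
      rfl
    rw [h2, hm₁, Fin.prod_univ_succ, Matrix.of_apply, hm₀]
    push_cast
    ring
  · intro c _ hc
    rw [Matrix.of_apply, h0 c hc]
    ring
  · intro hc
    exact absurd (Finset.mem_univ _) hc

private theorem hnf_step {K : Type} [Field K] [CharZero K] (s : ℕ)
    (ih : ∀ (M : Type) [AddCommGroup M] (l : Fin s → M →+ K) (β : Fin s → K),
      (∀ k v, (∀ j < k, l j v = 0) → ∃ m : ℤ, l k v = m * β k) → ∀ v : Fin s → M,
      ∃ m : ℤ, (Matrix.of fun k c => l k (v c)).det = m * ∏ k, β k)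
    (M : Type) [AddCommGroup M] (l : Fin (s + 1) → M →+ K) (β : Fin (s + 1) → K)
    (h : ∀ k v, (∀ j < k, l j v = 0) → ∃ m : ℤ, l k v = m * β k) (N : ℕ) :
    ∀ (v : Fin (s + 1) → M) (m : Fin (s + 1) → ℤ), (∀ c, l 0 (v c) = m c * β 0) →
      ∑ c, (m c).natAbs = N →
      ∃ m : ℤ, (Matrix.of fun k c => l k (v c)).det = m * ∏ k, β k := by
  classical
  induction N using Nat.strong_induction_on with
  | _ N ihN =>
    intro v m hm hN
    by_cases hA : ∃ c₀, ∀ c, c ≠ c₀ → m c = 0
    · obtain ⟨c₀, hc₀⟩ := hA
      refine hnf_expand s ih M l β h v c₀ fun c hc => ?_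
      rw [hm c, hc₀ c hc]
      simp
    · have hB : ∃ a b, a ≠ b ∧ m a ≠ 0 ∧ m b ≠ 0 := by
        push Not at hA
        obtain ⟨a, -, ha⟩ := hA 0
        obtain ⟨b, hb, hb'⟩ := hA a
        exact ⟨a, b, hb.symm, ha, hb'⟩
      have hC : ∃ a b, a ≠ b ∧ m a ≠ 0 ∧ m b ≠ 0 ∧ (m b).natAbs ≤ (m a).natAbs := by
        obtain ⟨a, b, hab, ha, hb⟩ := hB
        rcases le_total (m b).natAbs (m a).natAbs with hle | hle
        · exact ⟨a, b, hab, ha, hb, hle⟩
        · exact ⟨b, a, hab.symm, hb, ha, hle⟩
      obtain ⟨a, b, hab, ha, hb, hle⟩ := hC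
      set q : ℤ := m a / m b with hq
      set v' : Fin (s + 1) → M := Function.update v a (v a - q • v b) with hv'
      set m' : Fin (s + 1) → ℤ := Function.update m a (m a - q * m b) with hm'
      have hmod : m a - q * m b = m a % m b := by
        rw [hq, Int.emod_def, mul_comm]
      have hlt : (m a - q * m b).natAbs < (m a).natAbs := by
        rw [hmod]
        have h1 : m a % m b < |m b| := Int.emod_lt_abs _ hb
        have h2 : 0 ≤ m a % m b := Int.emod_nonneg _ hb
        have h3 : ((m a % m b).natAbs : ℤ) = m a % m b := Int.natAbs_of_nonneg h2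
        have h4 : ((m b).natAbs : ℤ) = |m b| := Int.natCast_natAbs _
        have h5 : ((m a % m b).natAbs : ℤ) < ((m b).natAbs : ℤ) := by rw [h3, h4]; exact h1
        exact lt_of_lt_of_le (by exact_mod_cast h5) hle
      have hdet : (Matrix.of fun k c => l k (v' c)).det = (Matrix.of fun k c => l k (v c)).det := by
        have h1 : (Matrix.of fun k c => l k (v' c)) =
            (Matrix.of fun k c => l k (v c)).updateCol a
              (fun k => (Matrix.of fun k c => l k (v c)) k a +
                (-(q : K)) • (Matrix.of fun k c => l k (v c)) k b) := by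
          ext k c
          rw [Matrix.updateCol_apply, Matrix.of_apply]
          by_cases hc : c = a
          · subst hc
            rw [if_pos rfl, hv', Function.update_self]
            simp only [map_sub, map_zsmul, Matrix.of_apply, zsmul_eq_mul, smul_eq_mul]
            ring
          · rw [if_neg hc, hv', Function.update_of_ne hc, Matrix.of_apply]
        rw [h1, Matrix.det_updateCol_add_smul_self _ hab]
      rw [← hdet]
      refine ihN _ ?_ v' m' ?_ rfl
      · rw [← hN]
        refine Finset.sum_lt_sum (fun c _ => ?_) ⟨a, Finset.mem_univ _, ?_⟩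
        · by_cases hc : c = a
          · subst hc
            rw [hm', Function.update_self]
            exact hlt.le
          · rw [hm', Function.update_of_ne hc]
        · rw [hm', Function.update_self]
          exact hlt
      · intro c
        by_cases hc : c = a
        · subst hc
          rw [hv', hm', Function.update_self, Function.update_self, map_sub, map_zsmul, hm c, hm b]
          push_cast
          rw [zsmul_eq_mul]
          ring
        · rw [hv', hm', Function.update_of_ne hc, Function.update_of_ne hc]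
          exact hm c

/-- the same for arbitrary vectors in an arbitrary commutative group -/
theorem det_eq_int_mul_aux {K : Type} [Field K] [CharZero K] (s : ℕ) :
    ∀ (M : Type) [AddCommGroup M] (l : Fin s → M →+ K) (β : Fin s → K),
      (∀ k v, (∀ j < k, l j v = 0) → ∃ m : ℤ, l k v = m * β k) → ∀ v : Fin s → M,
      ∃ m : ℤ, (Matrix.of fun k c => l k (v c)).det = m * ∏ k, β k := by
  induction s with
  | zero =>
    intro M _ l β _ v
    exact ⟨1, by simp⟩
  | succ s ih =>
    intro M _ l β h v
    choose m hm using fun c => h 0 (v c) (fun j hj => absurd hj (Fin.not_lt_zero j))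
    exact hnf_step s ih M l β h _ v m hm rfl

/-- If each functional `l k` takes values in `β k ℤ` on the common kernel of the functionals
`l j`, `j < k`, then the determinant is an integral multiple of `∏ β k`.
Proof: induction on `s`. `l 0 = β 0 * μ`, `μ : M →+ ℤ`; `μ = 0`: the determinant is zero; otherwise
`range μ = d ℤ`, `d ≠ 0`, `μ y = d`, and a basis of `ker μ` (submodule of a free module over a PID)
together with `y` (`Module.Basis.mkFinCons`) is a basis of `M`; the base change has determinant
`± 1` and the matrix in the new basis is block triangular. -/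
theorem det_eq_int_mul {K : Type} [Field K] [CharZero K] (s : ℕ) (M : Type) [AddCommGroup M]
    (b : Basis (Fin s) ℤ M) (l : Fin s → M →+ K) (β : Fin s → K) (hβ : ∀ k, β k ≠ 0)
    (h : ∀ k v, (∀ j < k, l j v = 0) → ∃ m : ℤ, l k v = m * β k) :
    ∃ m : ℤ, (Matrix.of fun k c => l k (b c)).det = m * ∏ k, β k :=
  det_eq_int_mul_aux s M l β h b

end Pool.TTF
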