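import Pool.Agent.Lib.MP_695920_nt.TT.Five.Fischer

/-! # Zonal harmonics by recursion and their positivity

`geg d a` is the Gegenbauer polynomial of degree `a` in dimension `d` with value `1` at `1`.
`zon u a = |x| ^ a geg d a (⟨u, x⟩ / |x|)` is harmonic, so that
`geg d a ⟨u, v⟩` is a positive multiple of the Fischer product of `zon u a` and `zon v a`. -/

open MvPolynomial Finset

namespace Pool.TT.Five

set_option linter.unusedSectionVars false

/-- The Gegenbauer polynomials with value `1` at `1`. -/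
noncomputable def geg (d : ℕ) : ℕ → ℝ → ℝ
  | 0, _ => 1
  | 1, t => t
  | (a + 2), t => ((2 * a + d) * (t * geg d (a + 1) t) - (a + 1) * geg d a t) / (a + d - 1)

theorem geg_zero (d : ℕ) (t : ℝ) : geg d 0 t = 1 := rfl

theorem geg_one (d : ℕ) (t : ℝ) : geg d 1 t = t := rfl

theorem geg_succ (d a : ℕ) (t : ℝ) : geg d (a + 2) t =
    ((2 * a + d) * (t * geg d (a + 1) t) - (a + 1) * geg d a t) / (a + d - 1) := rfl

theorem geg_eval_one (d : ℕ) (hd : 2 ≤ d) (a : ℕ) : geg d a 1 = 1 := by
  have h2 : (2 : ℝ) ≤ d := by exact_mod_cast hd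
  induction a using Nat.twoStepInduction with
  | zero => rfl
  | one => rfl
  | more a h0 h1 =>
    rw [geg_succ, h0, h1]
    have h3 : (0 : ℝ) < a + d - 1 := by
      have : (0 : ℝ) ≤ a := Nat.cast_nonneg a
      linarith
    rw [div_eq_one_iff_eq h3.ne']
    ring

/-- The three term recursion. -/
theorem mul_geg (d : ℕ) (hd : 2 ≤ d) (a : ℕ) (t : ℝ) :
    t * geg d (a + 1) t = (a + d - 1) / (2 * a + d) * geg d (a + 2) t +
      (a + 1) / (2 * a + d) * geg d a t := by
  have h2 : (2 : ℝ) ≤ d := by exact_mod_cast hd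
  have ha : (0 : ℝ) ≤ a := Nat.cast_nonneg a
  have h3 : (a : ℝ) + d - 1 ≠ 0 := by
    have : (0 : ℝ) < a + d - 1 := by linarith
    exact this.ne'
  have h4 : 2 * (a : ℝ) + d ≠ 0 := by
    have : (0 : ℝ) < 2 * a + d := by linarith
    exact this.ne'
  rw [geg_succ]
  field_simp
  ring

variable {σ : Type*} [Fintype σ] [DecidableEq σ]

/-- The zonal harmonic polynomial. -/
noncomputable def zon (u : σ → ℝ) : ℕ → MvPolynomial σ ℝ
  | 0 => 1
  | 1 => lin u
  | (a + 2) => ((a : ℝ) + Fintype.card σ - 1)⁻¹ •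
      ((2 * (a : ℝ) + Fintype.card σ) • (lin u * zon u (a + 1)) -
        ((a : ℝ) + 1) • (rad * zon u a))

theorem zon_succ (u : σ → ℝ) (a : ℕ) : zon u (a + 2) = ((a : ℝ) + Fintype.card σ - 1)⁻¹ •
      ((2 * (a : ℝ) + Fintype.card σ) • (lin u * zon u (a + 1)) -
        ((a : ℝ) + 1) • (rad * zon u a)) := rfl

/-- The derivative in the direction `u`. -/
noncomputable def dir (u : σ → ℝ) (P : MvPolynomial σ ℝ) : MvPolynomial σ ℝ :=
  ∑ a, u a • pderiv a P

theorem dir_smul (u : σ → ℝ) (c : ℝ) (P : MvPolynomial σ ℝ) : dir u (c • P) = c • dir u P := by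
  unfold dir
  rw [Finset.smul_sum]
  refine Finset.sum_congr rfl fun a _ => ?_
  rw [Derivation.map_smul, smul_comm]

theorem dir_sub (u : σ → ℝ) (P Q : MvPolynomial σ ℝ) : dir u (P - Q) = dir u P - dir u Q := by
  unfold dir
  rw [← Finset.sum_sub_distrib]
  refine Finset.sum_congr rfl fun a _ => ?_
  rw [map_sub, smul_sub]

theorem dir_mul (u : σ → ℝ) (P Q : MvPolynomial σ ℝ) :
    dir u (P * Q) = P * dir u Q + dir u P * Q := by
  unfold dir
  rw [Finset.mul_sum, Finset.sum_mul, ← Finset.sum_add_distrib]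
  refine Finset.sum_congr rfl fun a _ => ?_
  rw [Derivation.leibniz, smul_eq_mul, smul_eq_mul, smul_add, mul_smul_comm, smul_mul_assoc,
    mul_comm Q]

theorem dir_lin (u : σ → ℝ) (hu : dot u u = 1) : dir u (lin u) = 1 := by
  unfold dir
  have h : ∀ a, u a • pderiv a (lin u) = C (u a * u a) := by
    intro a
    rw [pderiv_lin, smul_eq_C_mul, C_mul]
  rw [Finset.sum_congr rfl fun a _ => h a, ← map_sum]
  unfold dot at hu
  rw [hu, C_1]

theorem pderiv_rad (a : σ) : pderiv a (rad : MvPolynomial σ ℝ) = C 2 * X a := by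
  unfold rad
  rw [map_sum, Finset.sum_eq_single a]
  · rw [Derivation.leibniz, pderiv_X_self, smul_eq_mul, mul_one]
    rw [show (C 2 : MvPolynomial σ ℝ) = 2 from map_ofNat C 2]
    ring
  · intro b _ hb
    rw [Derivation.leibniz, pderiv_X_of_ne hb, smul_zero, add_zero]
  · intro h
    exact absurd (Finset.mem_univ a) h

theorem dir_rad (u : σ → ℝ) : dir u (rad : MvPolynomial σ ℝ) = (2 : ℝ) • lin u := by
  unfold dir lin
  rw [Finset.smul_sum]
  refine Finset.sum_congr rfl fun a _ => ?_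
  rw [pderiv_rad, smul_eq_C_mul, smul_eq_C_mul]
  ring

theorem lap_add (P Q : MvPolynomial σ ℝ) : lap (P + Q) = lap P + lap Q := by
  unfold lap
  rw [← Finset.sum_add_distrib]
  refine Finset.sum_congr rfl fun a _ => ?_
  rw [map_add, map_add]

theorem lap_sub (P Q : MvPolynomial σ ℝ) : lap (P - Q) = lap P - lap Q := by
  unfold lap
  rw [← Finset.sum_sub_distrib]
  refine Finset.sum_congr rfl fun a _ => ?_
  rw [map_sub, map_sub]

theorem lap_smul (c : ℝ) (P : MvPolynomial σ ℝ) : lap (c • P) = c • lap P := by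
  unfold lap
  rw [Finset.smul_sum]
  refine Finset.sum_congr rfl fun a _ => ?_
  rw [Derivation.map_smul, Derivation.map_smul]

theorem lap_lin_mul (u : σ → ℝ) (P : MvPolynomial σ ℝ) :
    lap (lin u * P) = lin u * lap P + (2 : ℝ) • dir u P := by
  unfold lap dir
  rw [Finset.mul_sum, Finset.smul_sum, ← Finset.sum_add_distrib]
  refine Finset.sum_congr rfl fun a _ => ?_
  rw [Derivation.leibniz, smul_eq_mul, smul_eq_mul, pderiv_lin, map_add, Derivation.leibniz,
    smul_eq_mul, smul_eq_mul, pderiv_lin, Derivation.leibniz, smul_eq_mul, smul_eq_mul,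
    pderiv_C, mul_zero, zero_add]
  simp only [smul_eq_C_mul]
  rw [show (C 2 : MvPolynomial σ ℝ) = 2 from map_ofNat C 2]
  ring

/-- The Euler operator. -/
noncomputable def eul (P : MvPolynomial σ ℝ) : MvPolynomial σ ℝ := ∑ a, X a * pderiv a P

theorem eul_mul (P Q : MvPolynomial σ ℝ) : eul (P * Q) = P * eul Q + eul P * Q := by
  unfold eul
  rw [Finset.mul_sum, Finset.sum_mul, ← Finset.sum_add_distrib]
  refine Finset.sum_congr rfl fun a _ => ?_
  rw [Derivation.leibniz, smul_eq_mul, smul_eq_mul]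
  ring

theorem eul_sub (P Q : MvPolynomial σ ℝ) : eul (P - Q) = eul P - eul Q := by
  unfold eul
  rw [← Finset.sum_sub_distrib]
  refine Finset.sum_congr rfl fun a _ => ?_
  rw [map_sub, mul_sub]

theorem eul_smul (c : ℝ) (P : MvPolynomial σ ℝ) : eul (c • P) = c • eul P := by
  unfold eul
  rw [Finset.smul_sum]
  refine Finset.sum_congr rfl fun a _ => ?_
  rw [Derivation.map_smul, mul_smul_comm]

theorem eul_lin (u : σ → ℝ) : eul (lin u) = lin u := by
  have h := euler_pow u 1
  rw [pow_one, Nat.cast_one, one_smul] at h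
  exact h

theorem eul_rad : eul (rad : MvPolynomial σ ℝ) = (2 : ℝ) • rad := by
  unfold eul
  rw [rad, Finset.smul_sum]
  refine Finset.sum_congr rfl fun a _ => ?_
  have h := pderiv_rad (σ := σ) a
  rw [rad] at h
  rw [h, smul_eq_C_mul]
  ring

/-- The zonal polynomials are harmonic. -/
theorem zon_harm (u : σ → ℝ) (hu : dot u u = 1) (hd : 2 ≤ Fintype.card σ) (a : ℕ) :
    (lap (zon u a) = 0 ∧ eul (zon u a) = (a : ℝ) • zon u a) ∧
      (lap (zon u (a + 1)) = 0 ∧ eul (zon u (a + 1)) = ((a : ℝ) + 1) • zon u (a + 1)) ∧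
      dir u (zon u (a + 1)) = ((a : ℝ) + 1) • zon u a ∧
      (2 * (a : ℝ) + Fintype.card σ - 2) • (lin u * zon u a) - rad * dir u (zon u a) =
        ((a : ℝ) + Fintype.card σ - 2) • zon u (a + 1) := by
  have hd2 : (2 : ℝ) ≤ (Fintype.card σ : ℝ) := by exact_mod_cast hd
  have hone : ∀ i : σ, pderiv i (1 : MvPolynomial σ ℝ) = 0 := fun i =>
    Derivation.map_one_eq_zero _
  induction a with
  | zero =>
    have h1 : dir u (1 : MvPolynomial σ ℝ) = 0 := by
      unfold dir
      refine Finset.sum_eq_zero fun a _ => ?_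
      rw [hone, smul_zero]
    refine ⟨⟨?_, ?_⟩, ⟨?_, ?_⟩, ?_, ?_⟩
    · show lap (1 : MvPolynomial σ ℝ) = 0
      unfold lap
      refine Finset.sum_eq_zero fun a _ => ?_
      rw [hone, map_zero]
    · show eul (1 : MvPolynomial σ ℝ) = ((0 : ℕ) : ℝ) • 1
      unfold eul
      rw [Nat.cast_zero, zero_smul]
      refine Finset.sum_eq_zero fun a _ => ?_
      rw [hone, mul_zero]
    · show lap (lin u) = 0
      unfold lap
      refine Finset.sum_eq_zero fun a _ => ?_
      rw [pderiv_lin, pderiv_C]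
    · show eul (lin u) = _
      rw [eul_lin, Nat.cast_zero, zero_add, one_smul]
      rfl
    · show dir u (lin u) = _
      rw [dir_lin u hu, Nat.cast_zero, zero_add, one_smul]
      rfl
    · show _ • (lin u * 1) - rad * dir u (1 : MvPolynomial σ ℝ) = _ • lin u
      rw [h1, mul_zero, sub_zero, mul_one]
      congr 1
      push_cast
      ring
  | succ a ih =>
    obtain ⟨⟨h1, h2⟩, ⟨h3, h4⟩, h5, h6⟩ := ih
    have hne : ((a : ℝ) + Fintype.card σ - 1) ≠ 0 := by
      have : (0 : ℝ) ≤ a := Nat.cast_nonneg a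
      have : (0 : ℝ) < (a : ℝ) + Fintype.card σ - 1 := by linarith
      exact this.ne'
    have h7 : ((a : ℝ) + Fintype.card σ - 1) • zon u (a + 2) =
        (2 * (a : ℝ) + Fintype.card σ) • (lin u * zon u (a + 1)) -
          ((a : ℝ) + 1) • (rad * zon u a) := by
      rw [zon_succ, smul_smul, mul_inv_cancel₀ hne, one_smul]
    have hcancel : ∀ P Q : MvPolynomial σ ℝ,
        ((a : ℝ) + Fintype.card σ - 1) • P = ((a : ℝ) + Fintype.card σ - 1) • Q → P = Q := by
      intro P Q h
      have h8 := congrArg (fun R => ((a : ℝ) + Fintype.card σ - 1)⁻¹ • R) h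
      simpa [smul_smul, inv_mul_cancel₀ hne] using h8
    refine ⟨⟨h3, ?_⟩, ⟨?_, ?_⟩, ?_, ?_⟩
    · rw [h4]
      push_cast
      rfl
    · apply hcancel
      rw [← lap_smul, h7, lap_sub, lap_smul, lap_smul, lap_lin_mul, h3, h5, lap_rad_mul, h1]
      have h6 : ∑ i, X i * pderiv i (zon u a) = (a : ℝ) • zon u a := h2
      rw [h6]
      simp only [smul_eq_C_mul, mul_zero, zero_add, add_zero]
      push_cast
      simp only [C_add, C_mul, C_1, map_natCast, map_ofNat]
      ring
    · apply hcancel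
      rw [← eul_smul, h7, eul_sub, eul_smul, eul_smul, eul_mul, eul_mul, eul_lin, eul_rad, h2, h4,
        smul_comm _ (((a + 1 : ℕ) : ℝ) + 1), h7]
      simp only [smul_eq_C_mul]
      push_cast
      simp only [C_add, C_mul, C_1, map_natCast, map_ofNat]
      ring
    · apply hcancel
      rw [← dir_smul, h7, dir_sub, dir_smul, dir_smul, dir_mul, dir_mul, dir_lin u hu, dir_rad,
        h5]
      simp only [smul_eq_C_mul] at h6 ⊢
      push_cast at h6 ⊢
      simp only [C_add, C_mul, C_sub, C_1, map_natCast, map_ofNat] at h6 ⊢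
      linear_combination ((a : MvPolynomial σ ℝ) + 1) * h6
    · rw [h5]
      have h8 : (((a + 1 : ℕ) : ℝ) + Fintype.card σ - 2) = (a : ℝ) + Fintype.card σ - 1 := by
        push_cast
        ring
      rw [h8, h7]
      simp only [smul_eq_C_mul]
      push_cast
      simp only [C_add, C_mul, C_sub, C_1, map_natCast, map_ofNat]
      ring

theorem lap_zon (u : σ → ℝ) (hu : dot u u = 1) (hd : 2 ≤ Fintype.card σ) (a : ℕ) :
    lap (zon u a) = 0 := (zon_harm u hu hd a).1.1

theorem fis_sub_left (P P' Q : MvPolynomial σ ℝ) : fis (P - P') Q = fis P Q - fis P' Q := by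
  have h : P - P' = P + (-1 : ℝ) • P' := by rw [neg_one_smul, sub_eq_add_neg]
  rw [h, fis_add_left, fis_smul_left]
  ring

/-- The product with a power of a linear form is the value. -/
theorem fis_zon_lin (u v : σ → ℝ) (hv : dot v v = 1) (hd : 2 ≤ Fintype.card σ) (a : ℕ) :
    fis (zon u a) (lin v ^ a) = (a.factorial : ℝ) * geg (Fintype.card σ) a (dot u v) := by
  have hd2 : (2 : ℝ) ≤ (Fintype.card σ : ℝ) := by exact_mod_cast hd
  induction a using Nat.twoStepInduction with
  | zero =>
    have h := fis_pow u v 0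
    rw [pow_zero, pow_zero, pow_zero] at h
    rw [pow_zero, geg_zero]
    exact h
  | one =>
    have h := fis_pow u v 1
    rw [pow_one, pow_one, pow_one] at h
    rw [pow_one, geg_one]
    exact h
  | more a h0 h1 =>
    rw [zon_succ, fis_smul_left, fis_sub_left, fis_smul_left,
      fis_smul_left, fis_rad_mul, lap_pow v hv, fis_smul_right, h0, fis_lin_mul]
    have h2 : ∀ i, u i * fis (zon u (a + 1)) (pderiv i (lin v ^ (a + 2))) =
        ((a : ℝ) + 2) * (((a + 1).factorial : ℝ) * geg (Fintype.card σ) (a + 1) (dot u v)) *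
          (u i * v i) := by
      intro i
      rw [pderiv_lin_pow, ← smul_eq_C_mul, fis_smul_right, h1]
      push_cast
      ring
    have h3 : ∑ i, u i * v i = dot u v := rfl
    have h5 : (((a + 2).factorial : ℕ) : ℝ) = (a + 2) * ((a + 1) * (a.factorial : ℝ)) := by
      rw [Nat.factorial_succ, Nat.factorial_succ]
      push_cast
      ring
    have h6 : (((a + 1).factorial : ℕ) : ℝ) = (a + 1) * (a.factorial : ℝ) := by
      rw [Nat.factorial_succ]
      push_cast
      ring
    rw [Finset.sum_congr rfl fun i _ => h2 i, ← Finset.mul_sum, geg_succ, h3, h5, h6]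
    have ha : (0 : ℝ) ≤ a := Nat.cast_nonneg a
    have h4 : (a : ℝ) + Fintype.card σ - 1 ≠ 0 := by
      have : (0 : ℝ) < a + Fintype.card σ - 1 := by linarith
      exact this.ne'
    field_simp

/-- the leading coefficient -/
noncomputable def lc (d : ℕ) : ℕ → ℝ
  | 0 => 1
  | 1 => 1
  | (a + 2) => (2 * a + d) / (a + d - 1) * lc d (a + 1)

theorem lc_pos (d : ℕ) (hd : 2 ≤ d) (a : ℕ) : 0 < lc d a := by
  have hd2 : (2 : ℝ) ≤ (d : ℝ) := by exact_mod_cast hd
  induction a using Nat.twoStepInduction with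
  | zero => exact one_pos
  | one => exact one_pos
  | more a h0 h1 =>
    have ha : (0 : ℝ) ≤ a := Nat.cast_nonneg a
    have h2 : (0 : ℝ) < a + d - 1 := by linarith
    show 0 < (2 * (a : ℝ) + d) / (a + d - 1) * lc d (a + 1)
    positivity

theorem zon_lead (u : σ → ℝ) (a : ℕ) : ∃ W : MvPolynomial σ ℝ,
    zon u a = lc (Fintype.card σ) a • lin u ^ a + rad * W := by
  induction a using Nat.twoStepInduction with
  | zero => exact ⟨0, by rw [mul_zero, add_zero, pow_zero]; exact (one_smul _ _).symm⟩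
  | one => exact ⟨0, by rw [mul_zero, add_zero, pow_one]; exact (one_smul _ _).symm⟩
  | more a _ h1 =>
    obtain ⟨W, hW⟩ := h1
    refine ⟨((a : ℝ) + Fintype.card σ - 1)⁻¹ • ((2 * (a : ℝ) + Fintype.card σ) • (lin u * W) -
      ((a : ℝ) + 1) • zon u a), ?_⟩
    rw [zon_succ, hW]
    have h2 : lc (Fintype.card σ) (a + 2) = ((a : ℝ) + Fintype.card σ - 1)⁻¹ *
        ((2 * a + Fintype.card σ) * lc (Fintype.card σ) (a + 1)) := by
      show (2 * (a : ℝ) + Fintype.card σ) / (a + Fintype.card σ - 1) * lc _ (a + 1) = _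
      rw [div_eq_inv_mul]
      ring
    rw [h2]
    simp only [smul_eq_C_mul, C_mul]
    ring

/-- The Fischer products of the zonal polynomials. -/
theorem fis_zon (u v : σ → ℝ) (hu : dot u u = 1) (hv : dot v v = 1)
    (hd : 2 ≤ Fintype.card σ) (a : ℕ) : fis (zon u a) (zon v a) =
      lc (Fintype.card σ) a * (a.factorial : ℝ) * geg (Fintype.card σ) a (dot u v) := by
  obtain ⟨W, hW⟩ := zon_lead v a
  rw [hW, fis_add_right, fis_smul_right, fis_zon_lin u v hv hd, fis_symm _ (rad * W),
    fis_rad_mul, lap_zon u hu hd]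
  have h : fis W (0 : MvPolynomial σ ℝ) = 0 := by rw [fis_symm, fis_zero_left]
  rw [h]
  ring

end Pool.TT.Five
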