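import Pool.Agent.Lib.MP_695920_nt.TT.Five.KL1

/-! # The linear programming bound for spherical codes

`N η ≤ (1 - s) M (d + K - 1).choose K` for `N` unit vectors in dimension `d` with pairwise scalar
products at most `s`, if there is a nonnegative combination `∑ g a P_a` of Gegenbauer
polynomials, `K - M < a ≤ K`, with `(t - s) G ≥ η G` coefficientwise. -/

open MvPolynomial Finset

namespace Pool.TT.Five

set_option linter.unusedSectionVars false

/-! ### Gram matrices -/

section gram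

variable {ι κ κ' : Type*} [Fintype ι]

/-- rank and trace -/
theorem gram_trace (S : Finset κ) (z : ι → κ → ℝ) :
    (∑ i, ∑ s ∈ S, z i s * z i s) ^ 2 ≤
      S.card * ∑ i, ∑ k, (∑ s ∈ S, z i s * z k s) * (∑ s ∈ S, z i s * z k s) := by
  have h1 : ∑ i, ∑ k, (∑ s ∈ S, z i s * z k s) * (∑ s ∈ S, z i s * z k s) =
      ∑ s ∈ S, ∑ s' ∈ S, (∑ i, z i s * z i s') ^ 2 := by
    have e1 : ∀ i k, (∑ s ∈ S, z i s * z k s) * (∑ s ∈ S, z i s * z k s) =
        ∑ s ∈ S, ∑ s' ∈ S, (z i s * z i s') * (z k s * z k s') := by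
      intro i k
      rw [Finset.sum_mul_sum]
      refine Finset.sum_congr rfl fun s _ => Finset.sum_congr rfl fun s' _ => ?_
      ring
    have e2 : ∀ s s', (∑ i, z i s * z i s') ^ 2 =
        ∑ i, ∑ k, (z i s * z i s') * (z k s * z k s') := by
      intro s s'
      rw [sq, Finset.sum_mul_sum]
    rw [Finset.sum_congr rfl fun i _ => Finset.sum_congr rfl fun k _ => e1 i k,
      Finset.sum_congr rfl fun s _ => Finset.sum_congr rfl fun s' _ => e2 s s']
    calc _ = ∑ i, ∑ s ∈ S, ∑ k, ∑ s' ∈ S, (z i s * z i s') * (z k s * z k s') :=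
          Finset.sum_congr rfl fun i _ => Finset.sum_comm
      _ = ∑ s ∈ S, ∑ i, ∑ k, ∑ s' ∈ S, (z i s * z i s') * (z k s * z k s') := Finset.sum_comm
      _ = ∑ s ∈ S, ∑ i, ∑ s' ∈ S, ∑ k, (z i s * z i s') * (z k s * z k s') :=
          Finset.sum_congr rfl fun s _ => Finset.sum_congr rfl fun i _ => Finset.sum_comm
      _ = ∑ s ∈ S, ∑ s' ∈ S, ∑ i, ∑ k, (z i s * z i s') * (z k s * z k s') :=
          Finset.sum_congr rfl fun s _ => Finset.sum_comm
  have h2 : ∑ i, ∑ s ∈ S, z i s * z i s = ∑ s ∈ S, ∑ i, z i s * z i s := Finset.sum_comm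
  rw [h1, h2]
  refine (sq_sum_le_card_mul_sum_sq (s := S) (f := fun s => ∑ i, z i s * z i s)).trans ?_
  refine mul_le_mul_of_nonneg_left ?_ (Nat.cast_nonneg _)
  refine Finset.sum_le_sum fun s hs => ?_
  exact Finset.single_le_sum (f := fun s' => (∑ i, z i s * z i s') ^ 2)
    (fun _ _ => sq_nonneg _) hs

/-- the entrywise product of two Gram matrices -/
theorem gram_schur (S : Finset κ) (S' : Finset κ') (z : ι → κ → ℝ) (z' : ι → κ' → ℝ) :
    0 ≤ ∑ i, ∑ k, (∑ s ∈ S, z i s * z k s) * (∑ s ∈ S', z' i s * z' k s) := by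
  have e1 : ∀ i k, (∑ s ∈ S, z i s * z k s) * (∑ s ∈ S', z' i s * z' k s) =
      ∑ s ∈ S, ∑ s' ∈ S', (z i s * z' i s') * (z k s * z' k s') := by
    intro i k
    rw [Finset.sum_mul_sum]
    refine Finset.sum_congr rfl fun s _ => Finset.sum_congr rfl fun s' _ => ?_
    ring
  rw [Finset.sum_congr rfl fun i _ => Finset.sum_congr rfl fun k _ => e1 i k]
  have h : ∑ i, ∑ k, ∑ s ∈ S, ∑ s' ∈ S', (z i s * z' i s') * (z k s * z' k s') =
      ∑ s ∈ S, ∑ s' ∈ S', (∑ i, z i s * z' i s') ^ 2 := by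
    have e2 : ∀ s s', (∑ i, z i s * z' i s') ^ 2 =
        ∑ i, ∑ k, (z i s * z' i s') * (z k s * z' k s') := by
      intro s s'
      rw [sq, Finset.sum_mul_sum]
    rw [Finset.sum_congr rfl fun s _ => Finset.sum_congr rfl fun s' _ => e2 s s']
    calc _ = ∑ i, ∑ s ∈ S, ∑ k, ∑ s' ∈ S', (z i s * z' i s') * (z k s * z' k s') :=
          Finset.sum_congr rfl fun i _ => Finset.sum_comm
      _ = ∑ s ∈ S, ∑ i, ∑ k, ∑ s' ∈ S', (z i s * z' i s') * (z k s * z' k s') := Finset.sum_comm
      _ = ∑ s ∈ S, ∑ i, ∑ s' ∈ S', ∑ k, (z i s * z' i s') * (z k s * z' k s') :=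
          Finset.sum_congr rfl fun s _ => Finset.sum_congr rfl fun i _ => Finset.sum_comm
      _ = ∑ s ∈ S, ∑ s' ∈ S', ∑ i, ∑ k, (z i s * z' i s') * (z k s * z' k s') :=
          Finset.sum_congr rfl fun s _ => Finset.sum_comm
  rw [h]
  exact Finset.sum_nonneg fun _ _ => Finset.sum_nonneg fun _ _ => sq_nonneg _

end gram

variable {σ : Type*} [Fintype σ] [DecidableEq σ]

theorem lin_hom (u : σ → ℝ) : (lin u).IsHomogeneous 1 := by
  unfold lin
  refine IsHomogeneous.sum _ _ _ fun a _ => ?_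
  have h := (isHomogeneous_C σ (u a)).mul (isHomogeneous_X ℝ a)
  rwa [zero_add] at h

theorem rad_hom : (rad : MvPolynomial σ ℝ).IsHomogeneous 2 := by
  unfold rad
  refine IsHomogeneous.sum _ _ _ fun a _ => ?_
  exact (isHomogeneous_X ℝ a).mul (isHomogeneous_X ℝ a)

theorem smul_hom {P : MvPolynomial σ ℝ} {n : ℕ} (h : P.IsHomogeneous n) (c : ℝ) :
    (c • P).IsHomogeneous n := by
  rw [smul_eq_C_mul]
  have h1 := (isHomogeneous_C σ c).mul h
  rwa [zero_add] at h1

theorem sub_hom {P Q : MvPolynomial σ ℝ} {n : ℕ} (h : P.IsHomogeneous n)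
    (h' : Q.IsHomogeneous n) : (P - Q).IsHomogeneous n := by
  have h1 : P - Q = P + (-1 : ℝ) • Q := by rw [neg_one_smul, sub_eq_add_neg]
  rw [h1]
  exact h.add (smul_hom h' _)

theorem zon_hom (u : σ → ℝ) (a : ℕ) : (zon u a).IsHomogeneous a := by
  induction a using Nat.twoStepInduction with
  | zero => exact isHomogeneous_one σ ℝ
  | one => exact lin_hom u
  | more a h0 h1 =>
    rw [zon_succ]
    refine smul_hom (sub_hom (smul_hom ?_ _) (smul_hom ?_ _)) _
    · have h := (lin_hom u).mul h1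
      rwa [show 1 + (a + 1) = a + 2 by ring] at h
    · have h := (rad_hom (σ := σ)).mul h0
      rwa [show 2 + a = a + 2 by ring] at h

theorem fis_eq_sum {P Q : MvPolynomial σ ℝ} {a : ℕ} (hP : P.IsHomogeneous a) :
    fis P Q = ∑ α ∈ finsuppAntidiag univ a, coeff α P * coeff α Q * fac α := by
  have h : fis P Q = ∑ α ∈ P.support, coeff α P * coeff α Q * fac α := by
    conv_lhs => rw [P.as_sum]
    rw [fis_sum_left]
    refine Finset.sum_congr rfl fun α _ => ?_
    rw [fis_monomial_left, mul_assoc]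
  rw [h]
  refine Finset.sum_subset ?_ ?_
  · intro α hα
    rw [mem_finsuppAntidiag]
    refine ⟨?_, Finset.subset_univ _⟩
    have h1 := hP (mem_support_iff.1 hα)
    rw [Finsupp.weight_apply, Finsupp.sum_fintype _ _ (fun i => by simp)] at h1
    rw [← h1]
    exact Finset.sum_congr rfl fun i _ => by simp
  · intro α _ hα
    rw [notMem_support_iff.1 hα]
    ring

/-- coordinates of the zonal polynomial -/
noncomputable def crd (u : σ → ℝ) (a : ℕ) (α : σ →₀ ℕ) : ℝ :=
  coeff α (zon u a) * √(fac α / (lc (Fintype.card σ) a * (a.factorial : ℝ)))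

theorem geg_eq_sum (u v : σ → ℝ) (hu : dot u u = 1) (hv : dot v v = 1)
    (hd : 2 ≤ Fintype.card σ) (a : ℕ) : geg (Fintype.card σ) a (dot u v) =
      ∑ α ∈ finsuppAntidiag univ a, crd u a α * crd v a α := by
  have h1 := fis_zon u v hu hv hd a
  rw [fis_eq_sum (zon_hom u a)] at h1
  have h2 : 0 < lc (Fintype.card σ) a * (a.factorial : ℝ) :=
    mul_pos (lc_pos _ hd a) (by exact_mod_cast Nat.factorial_pos a)
  have h3 : ∀ α, crd u a α * crd v a α =
      (coeff α (zon u a) * coeff α (zon v a) * fac α) / (lc (Fintype.card σ) a *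
        (a.factorial : ℝ)) := by
    intro α
    have h4 : 0 ≤ fac α / (lc (Fintype.card σ) a * (a.factorial : ℝ)) :=
      div_nonneg (fac_pos α).le h2.le
    unfold crd
    calc _ = coeff α (zon u a) * coeff α (zon v a) *
        (√(fac α / (lc (Fintype.card σ) a * (a.factorial : ℝ))) *
          √(fac α / (lc (Fintype.card σ) a * (a.factorial : ℝ)))) := by ring
      _ = _ := by rw [Real.mul_self_sqrt h4]; ring
  rw [Finset.sum_congr rfl fun α _ => h3 α, ← Finset.sum_div, h1, mul_div_cancel_left₀ _ h2.ne']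

variable {ι : Type*} [Fintype ι]

/-- the number of monomials -/
theorem card_mon (a : ℕ) : (finsuppAntidiag (univ : Finset σ) a).card =
    (Fintype.card σ + a - 1).choose a := by
  rw [card_finsuppAntidiag_nat_eq_choose, Finset.card_univ]

theorem sum_geg_sq (u : ι → σ → ℝ) (hu : ∀ i, dot (u i) (u i) = 1)
    (hd : 2 ≤ Fintype.card σ) (a : ℕ) : (Fintype.card ι : ℝ) ^ 2 ≤
      ((Fintype.card σ + a - 1).choose a : ℝ) * ∑ i, ∑ k,
        geg (Fintype.card σ) a (dot (u i) (u k)) * geg (Fintype.card σ) a (dot (u i) (u k)) := by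
  have h1 := gram_trace (finsuppAntidiag (univ : Finset σ) a) (fun i => crd (u i) a)
  rw [card_mon] at h1
  simp only [← geg_eq_sum _ _ (hu _) (hu _) hd a] at h1
  have h2 : ∑ i, geg (Fintype.card σ) a (dot (u i) (u i)) = Fintype.card ι := by
    have h3 : ∀ i, geg (Fintype.card σ) a (dot (u i) (u i)) = 1 := by
      intro i
      rw [hu i, geg_eval_one _ hd]
    rw [Finset.sum_congr rfl fun i _ => h3 i]
    simp
  rwa [h2] at h1

theorem sum_geg_mul_nonneg (u : ι → σ → ℝ) (hu : ∀ i, dot (u i) (u i) = 1)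
    (hd : 2 ≤ Fintype.card σ) (a b : ℕ) : 0 ≤ ∑ i, ∑ k,
        geg (Fintype.card σ) a (dot (u i) (u k)) * geg (Fintype.card σ) b (dot (u i) (u k)) := by
  have h1 := gram_schur (finsuppAntidiag (univ : Finset σ) a) (finsuppAntidiag univ b)
    (fun i => crd (u i) a) (fun i => crd (u i) b)
  simpa only [← geg_eq_sum _ _ (hu _) (hu _) hd] using h1

/-- upper coefficient of the recursion -/
noncomputable def al (d : ℕ) (a : ℕ) : ℝ := ((a : ℝ) + d - 2) / (2 * a + d - 2)

/-- lower coefficient of the recursion -/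
noncomputable def be (d : ℕ) (a : ℕ) : ℝ := (a : ℝ) / (2 * a + d - 2)

/-- the coefficients of `(t - s) G` -/
noncomputable def cf (d : ℕ) (s : ℝ) (g : ℕ → ℝ) (a : ℕ) : ℝ :=
  (if a = 0 then 0 else al d (a - 1) * g (a - 1)) + be d (a + 1) * g (a + 1) - s * g a

theorem rec_geg_zero (d : ℕ) (hd : 3 ≤ d) (t : ℝ) : t * geg d 0 t = al d 0 * geg d 1 t := by
  have h3 : (3 : ℝ) ≤ d := by exact_mod_cast hd
  rw [geg_zero, geg_one, al]
  have h : ((0 : ℕ) : ℝ) + d - 2 ≠ 0 := by
    push_cast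
    linarith
  rw [show 2 * ((0 : ℕ) : ℝ) + d - 2 = ((0 : ℕ) : ℝ) + d - 2 by push_cast; ring, div_self h]
  ring

theorem rec_geg_succ (d : ℕ) (hd : 3 ≤ d) (a : ℕ) (t : ℝ) :
    t * geg d (a + 1) t = al d (a + 1) * geg d (a + 2) t + be d (a + 1) * geg d a t := by
  rw [mul_geg d (by omega), al, be]
  congr 2
  · push_cast
    congr 1 <;> ring
  · push_cast
    congr 1
    ring

theorem mul_sum_geg (d : ℕ) (hd : 3 ≤ d) (s t : ℝ) (g : ℕ → ℝ) (K : ℕ)
    (hK : ∀ a, K < a → g a = 0) :
    (t - s) * ∑ a ∈ range (K + 1), g a * geg d a t =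
      ∑ a ∈ range (K + 2), cf d s g a * geg d a t := by
  have h1 : ∀ R, ∑ a ∈ range (R + 1), t * (g a * geg d a t) =
      ∑ a ∈ range (R + 1), ((if a = 0 then 0 else al d (a - 1) * g (a - 1)) +
        be d (a + 1) * g (a + 1)) * geg d a t + al d R * g R * geg d (R + 1) t -
          be d (R + 1) * g (R + 1) * geg d R t := by
    intro R
    induction R with
    | zero =>
      rw [zero_add, Finset.sum_range_one, Finset.sum_range_one, if_pos rfl]
      have h2 := rec_geg_zero d hd t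
      linear_combination g 0 * h2
    | succ R ih =>
      rw [Finset.sum_range_succ, ih, Finset.sum_range_succ _ (R + 1), if_neg (by omega),
        Nat.add_sub_cancel]
      have h2 := rec_geg_succ d hd R t
      linear_combination g (R + 1) * h2
  have h2 := h1 (K + 1)
  have hz1 : g (K + 1) = 0 := hK _ (by omega)
  have hz2 : g (K + 1 + 1) = 0 := hK _ (by omega)
  rw [hz1, hz2] at h2
  have h3 : ∑ a ∈ range (K + 2), t * (g a * geg d a t) =
      ∑ a ∈ range (K + 1), t * (g a * geg d a t) := by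
    rw [Finset.sum_range_succ, hz1]
    ring
  have h4 : ∑ a ∈ range (K + 2), s * (g a * geg d a t) =
      ∑ a ∈ range (K + 1), s * (g a * geg d a t) := by
    rw [Finset.sum_range_succ, hz1]
    ring
  rw [sub_mul, Finset.mul_sum, Finset.mul_sum, ← h3, ← h4, h2]
  simp only [mul_zero, zero_mul, add_zero, sub_zero]
  rw [← Finset.sum_sub_distrib]
  refine Finset.sum_congr rfl fun a _ => ?_
  unfold cf
  ring

/-- **The linear programming bound.** -/
theorem kl_lp (u : ι → σ → ℝ) (hu : ∀ i, dot (u i) (u i) = 1) (hd : 3 ≤ Fintype.card σ)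
    {s η : ℝ} (hs : s ≤ 1) (hoff : ∀ i k, i ≠ k → dot (u i) (u k) ≤ s) (K : ℕ) (g : ℕ → ℝ)
    (hg : ∀ a, 0 ≤ g a) (hK : ∀ a, K < a → g a = 0) (hη : 0 ≤ η)
    (hcf : ∀ a, η * g a ≤ cf (Fintype.card σ) s g a) :
    (Fintype.card ι : ℝ) * (η * ∑ a ∈ range (K + 1), g a ^ 2) ≤
      (1 - s) * (∑ a ∈ range (K + 1), g a) ^ 2 *
        ((Fintype.card σ + K - 1).choose K : ℝ) := by
  set d := Fintype.card σ with hdd
  have hd2 : 2 ≤ d := by omega
  rcases Nat.eq_zero_or_pos (Fintype.card ι) with h0 | hpos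
  · rw [h0, Nat.cast_zero, zero_mul]
    exact mul_nonneg (mul_nonneg (by linarith) (sq_nonneg _)) (Nat.cast_nonneg _)
  have hNpos : (0 : ℝ) < (Fintype.card ι : ℝ) := by exact_mod_cast hpos
  set G : ℝ → ℝ := fun t => ∑ a ∈ range (K + 1), g a * geg d a t with hG
  have hG1 : G 1 = ∑ a ∈ range (K + 1), g a := by
    rw [hG]
    refine Finset.sum_congr rfl fun a _ => ?_
    rw [geg_eval_one d hd2, mul_one]
  -- upper bound
  have hup : ∑ i, ∑ k, (dot (u i) (u k) - s) * G (dot (u i) (u k)) * G (dot (u i) (u k)) ≤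
      (Fintype.card ι : ℝ) * ((1 - s) * G 1 ^ 2) := by
    have h1 : ∀ i, ∑ k, (dot (u i) (u k) - s) * G (dot (u i) (u k)) * G (dot (u i) (u k)) ≤
        (1 - s) * G 1 ^ 2 := by
      intro i
      classical
      rw [← Finset.add_sum_erase _ _ (Finset.mem_univ i), hu i]
      have h2 : ∑ k ∈ univ.erase i,
          (dot (u i) (u k) - s) * G (dot (u i) (u k)) * G (dot (u i) (u k)) ≤ 0 := by
        refine Finset.sum_nonpos fun k hk => ?_
        have h3 := hoff i k (Finset.ne_of_mem_erase hk).symm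
        rw [mul_assoc]
        exact mul_nonpos_of_nonpos_of_nonneg (by linarith) (mul_self_nonneg _)
      nlinarith
    calc _ ≤ ∑ _i : ι, (1 - s) * G 1 ^ 2 := Finset.sum_le_sum fun i _ => h1 i
      _ = _ := by rw [Finset.sum_const, Finset.card_univ, nsmul_eq_mul]
  -- lower bound
  have hDpos : ∀ a, 0 < ((d + a - 1).choose a : ℝ) := by
    intro a
    exact_mod_cast Nat.choose_pos (by omega)
  have hlow : (Fintype.card ι : ℝ) ^ 2 *
      (η * (∑ a ∈ range (K + 1), g a ^ 2) / ((d + K - 1).choose K : ℝ)) ≤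
      ∑ i, ∑ k, (dot (u i) (u k) - s) * G (dot (u i) (u k)) * G (dot (u i) (u k)) := by
    have h1 : ∀ i k, (dot (u i) (u k) - s) * G (dot (u i) (u k)) * G (dot (u i) (u k)) =
        ∑ a ∈ range (K + 2), ∑ b ∈ range (K + 1), (cf d s g a * g b) *
          (geg d a (dot (u i) (u k)) * geg d b (dot (u i) (u k))) := by
      intro i k
      rw [hG]
      simp only
      rw [mul_sum_geg d hd s _ g K hK, Finset.sum_mul_sum]
      refine Finset.sum_congr rfl fun a _ => Finset.sum_congr rfl fun b _ => ?_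
      ring
    have h2 : ∑ i, ∑ k, (dot (u i) (u k) - s) * G (dot (u i) (u k)) * G (dot (u i) (u k)) =
        ∑ a ∈ range (K + 2), ∑ b ∈ range (K + 1), (cf d s g a * g b) *
          ∑ i, ∑ k, (geg d a (dot (u i) (u k)) * geg d b (dot (u i) (u k))) := by
      rw [Finset.sum_congr rfl fun i _ => Finset.sum_congr rfl fun k _ => h1 i k]
      calc _ = ∑ i, ∑ a ∈ range (K + 2), ∑ k, ∑ b ∈ range (K + 1), (cf d s g a * g b) *
            (geg d a (dot (u i) (u k)) * geg d b (dot (u i) (u k))) :=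
            Finset.sum_congr rfl fun i _ => Finset.sum_comm
        _ = ∑ a ∈ range (K + 2), ∑ i, ∑ k, ∑ b ∈ range (K + 1), (cf d s g a * g b) *
            (geg d a (dot (u i) (u k)) * geg d b (dot (u i) (u k))) := Finset.sum_comm
        _ = ∑ a ∈ range (K + 2), ∑ i, ∑ b ∈ range (K + 1), ∑ k, (cf d s g a * g b) *
            (geg d a (dot (u i) (u k)) * geg d b (dot (u i) (u k))) :=
            Finset.sum_congr rfl fun a _ => Finset.sum_congr rfl fun i _ => Finset.sum_comm
        _ = ∑ a ∈ range (K + 2), ∑ b ∈ range (K + 1), ∑ i, ∑ k, (cf d s g a * g b) *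
            (geg d a (dot (u i) (u k)) * geg d b (dot (u i) (u k))) :=
            Finset.sum_congr rfl fun a _ => Finset.sum_comm
        _ = _ := by
            refine Finset.sum_congr rfl fun a _ => Finset.sum_congr rfl fun b _ => ?_
            rw [Finset.mul_sum]
            refine Finset.sum_congr rfl fun i _ => ?_
            rw [Finset.mul_sum]
    rw [h2]
    have hcf0 : ∀ a, 0 ≤ cf d s g a := fun a => (mul_nonneg hη (hg a)).trans (hcf a)
    have hterm : ∀ a b, 0 ≤ (cf d s g a * g b) *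
          ∑ i, ∑ k, (geg d a (dot (u i) (u k)) * geg d b (dot (u i) (u k))) := fun a b =>
      mul_nonneg (mul_nonneg (hcf0 a) (hg b)) (sum_geg_mul_nonneg u hu hd2 a b)
    have h3 : ∑ a ∈ range (K + 1), (cf d s g a * g a) *
          ∑ i, ∑ k, (geg d a (dot (u i) (u k)) * geg d a (dot (u i) (u k))) ≤
        ∑ a ∈ range (K + 2), ∑ b ∈ range (K + 1), (cf d s g a * g b) *
          ∑ i, ∑ k, (geg d a (dot (u i) (u k)) * geg d b (dot (u i) (u k))) := by
      refine le_trans ?_ (Finset.sum_le_sum_of_subset_of_nonneg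
        (s := range (K + 1)) (Finset.range_subset_range.2 (by omega)) fun a _ _ =>
          Finset.sum_nonneg fun b _ => hterm a b)
      refine Finset.sum_le_sum fun a ha => ?_
      exact Finset.single_le_sum (f := fun b => (cf d s g a * g b) *
          ∑ i, ∑ k, (geg d a (dot (u i) (u k)) * geg d b (dot (u i) (u k))))
        (fun b _ => hterm a b) ha
    refine le_trans ?_ h3
    rw [mul_div_assoc, ← mul_assoc, mul_comm _ η, mul_assoc, Finset.sum_div, Finset.mul_sum,
      Finset.mul_sum]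
    refine Finset.sum_le_sum fun a ha => ?_
    have h4 := sum_geg_sq u hu hd2 a
    have h5 : ((d + a - 1).choose a : ℝ) ≤ ((d + K - 1).choose K : ℝ) := by
      have ha' : a ≤ K := Nat.lt_succ_iff.1 (Finset.mem_range.1 ha)
      have h6 : ∀ b, (d + b - 1).choose b = (d - 1 + b).choose (d - 1) := by
        intro b
        rw [show d + b - 1 = d - 1 + b by omega]
        exact (Nat.choose_symm_add).symm
      rw [h6, h6]
      exact_mod_cast Nat.choose_le_choose _ (by omega)
    have h7 : 0 ≤ ∑ i, ∑ k, (geg d a (dot (u i) (u k)) * geg d a (dot (u i) (u k))) :=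
      sum_geg_mul_nonneg u hu hd2 a a
    have h8 : (Fintype.card ι : ℝ) ^ 2 / ((d + K - 1).choose K : ℝ) ≤
        ∑ i, ∑ k, (geg d a (dot (u i) (u k)) * geg d a (dot (u i) (u k))) := by
      rw [div_le_iff₀ (hDpos K)]
      refine h4.trans ?_
      rw [mul_comm]
      exact mul_le_mul_of_nonneg_left h5 h7
    have h9 : η * (g a * g a) ≤ cf d s g a * g a := by
      have := mul_le_mul_of_nonneg_right (hcf a) (hg a)
      linarith
    calc η * ((Fintype.card ι : ℝ) ^ 2 * (g a ^ 2 / ((d + K - 1).choose K : ℝ))) =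
        (η * (g a * g a)) * ((Fintype.card ι : ℝ) ^ 2 / ((d + K - 1).choose K : ℝ)) := by ring
      _ ≤ (cf d s g a * g a) *
          ∑ i, ∑ k, (geg d a (dot (u i) (u k)) * geg d a (dot (u i) (u k))) :=
          mul_le_mul h9 h8 (by positivity) (mul_nonneg (hcf0 a) (hg a))
  have h10 := hlow.trans hup
  rw [hG1] at h10
  have h11 : (Fintype.card ι : ℝ) *
      (η * (∑ a ∈ range (K + 1), g a ^ 2) / ((d + K - 1).choose K : ℝ)) ≤
      (1 - s) * (∑ a ∈ range (K + 1), g a) ^ 2 := by
    rw [sq, mul_assoc] at h10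
    exact le_of_mul_le_mul_left h10 hNpos
  rw [← mul_div_assoc, div_le_iff₀ (hDpos K)] at h11
  exact h11

end Pool.TT.Five
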