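import Mathlib

set_option autoImplicit false

/-!
TEAM TWOTORSION, n = 5: divided differences as Cauchy integrals. Everything on the disc
`ball 0 ρ`, circle of radius `R < ρ`, nodes of absolute value `< R`.
-/

open Polynomial Complex

namespace Pool.TTF

/-- The divided difference `(2πi)⁻¹ ∮_{|t| = R} g(t) / ∏_{m ∈ s} (t - τ m) dt`. -/
noncomputable def nc {κ : Type*} (R : ℝ) (s : Finset κ) (τ : κ → ℂ) (g : ℂ → ℂ) : ℂ :=
  (2 * Real.pi * I)⁻¹ * ∮ t in C(0, R), g t / ∏ m ∈ s, (t - τ m)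

variable {κ : Type*} {R ρ : ℝ} {s : Finset κ} {τ : κ → ℂ} {g g' q : ℂ → ℂ}

private theorem newton_ne_zero (hs : ∀ m ∈ s, ‖τ m‖ < R) {t : ℂ}
    (ht : t ∈ Metric.sphere (0 : ℂ) R) : ∏ m ∈ s, (t - τ m) ≠ 0 := by
  rw [Finset.prod_ne_zero_iff]
  intro m hm h
  have h1 := hs m hm
  rw [sub_eq_zero] at h
  rw [← h, mem_sphere_zero_iff_norm.mp ht] at h1
  exact lt_irrefl _ h1

private theorem newton_cont (hs : ∀ m ∈ s, ‖τ m‖ < R)
    (hg : ContinuousOn g (Metric.sphere 0 R)) :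
    ContinuousOn (fun t => g t / ∏ m ∈ s, (t - τ m)) (Metric.sphere 0 R) := by
  apply hg.div
  · exact (continuous_finsetProd _ fun m _ => continuous_id.sub continuous_const).continuousOn
  · intro t ht
    exact newton_ne_zero hs ht

theorem nc_congr (hR : 0 ≤ R) (h : ∀ t ∈ Metric.sphere (0 : ℂ) R, g t = g' t) :
    nc R s τ g = nc R s τ g' := by
  unfold nc
  rw [circleIntegral.integral_congr hR fun t ht => ?_]
  simp only [h t ht]

theorem nc_add (hR : 0 < R) (hs : ∀ m ∈ s, ‖τ m‖ < R)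
    (hg : ContinuousOn g (Metric.sphere 0 R)) (hg' : ContinuousOn g' (Metric.sphere 0 R)) :
    nc R s τ (fun t => g t + g' t) = nc R s τ g + nc R s τ g' := by
  unfold nc
  rw [← mul_add, ← circleIntegral.integral_add
    ((newton_cont hs hg).circleIntegrable hR.le) ((newton_cont hs hg').circleIntegrable hR.le)]
  congr 1
  refine circleIntegral.integral_congr hR.le fun t _ => ?_
  simp only [add_div]

theorem nc_const_mul (c : ℂ) : nc R s τ (fun t => c * g t) = c * nc R s τ g := by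
  unfold nc
  simp only [mul_div_assoc]
  rw [circleIntegral.integral_const_mul]
  ring

/-- Cauchy's bound. -/
theorem norm_nc_le (hR : 0 < R) (hs : ∀ m ∈ s, ‖τ m‖ < R) {M : ℝ}
    (hg : ∀ t ∈ Metric.sphere (0 : ℂ) R, ‖g t‖ ≤ M) :
    ‖nc R s τ g‖ ≤ M * R / ∏ m ∈ s, (R - ‖τ m‖) := by
  have hP : 0 < ∏ m ∈ s, (R - ‖τ m‖) := Finset.prod_pos fun m hm => sub_pos.mpr (hs m hm)
  have h1 : ∀ t ∈ Metric.sphere (0 : ℂ) R,
      ‖g t / ∏ m ∈ s, (t - τ m)‖ ≤ M / ∏ m ∈ s, (R - ‖τ m‖) := by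
    intro t ht
    have h2 : ∏ m ∈ s, (R - ‖τ m‖) ≤ ‖∏ m ∈ s, (t - τ m)‖ := by
      rw [norm_prod]
      refine Finset.prod_le_prod (fun m hm => (sub_pos.mpr (hs m hm)).le) fun m _ => ?_
      have h3 := norm_sub_norm_le t (τ m)
      rwa [mem_sphere_zero_iff_norm.mp ht] at h3
    rw [norm_div]
    have hM : 0 ≤ M := (norm_nonneg _).trans (hg t ht)
    exact div_le_div₀ hM (hg t ht) hP h2
  have h2 := circleIntegral.norm_two_pi_i_inv_smul_integral_le_of_norm_le_const hR.le h1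
  rw [smul_eq_mul] at h2
  unfold nc
  refine h2.trans (le_of_eq ?_)
  ring

/-- Cauchy's formula. -/
theorem nc_insert [DecidableEq κ] (hR : 0 < R) (hRρ : R < ρ) {k : κ} (hk : k ∉ s)
    (hs : ∀ m ∈ s, ‖τ m‖ < R) (hkR : ‖τ k‖ < R) (hq : DifferentiableOn ℂ q (Metric.ball 0 ρ))
    (h : ∀ t ∈ Metric.ball (0 : ℂ) ρ, g t = (∏ m ∈ s, (t - τ m)) * q t) :
    nc R (insert k s) τ g = q (τ k) := by
  have h1 : ∀ t ∈ Metric.sphere (0 : ℂ) R,
      g t / ∏ m ∈ insert k s, (t - τ m) = (t - τ k)⁻¹ • q t := by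
    intro t ht
    have htb : t ∈ Metric.ball (0 : ℂ) ρ := by
      rw [mem_ball_zero_iff, mem_sphere_zero_iff_norm.mp ht]
      exact hRρ
    have hne := newton_ne_zero hs ht
    have hk0 : t - τ k ≠ 0 := by
      intro h0
      rw [sub_eq_zero] at h0
      rw [← h0, mem_sphere_zero_iff_norm.mp ht] at hkR
      exact lt_irrefl _ hkR
    rw [h t htb, Finset.prod_insert hk, smul_eq_mul]
    field_simp
  have h2 : DifferentiableOn ℂ q (Metric.closedBall 0 R) :=
    hq.mono (Metric.closedBall_subset_ball hRρ)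
  have h3 := h2.circleIntegral_sub_inv_smul (w := τ k) (by rwa [mem_ball_zero_iff])
  unfold nc
  rw [circleIntegral.integral_congr hR.le h1, h3, smul_eq_mul, ← mul_assoc,
    inv_mul_cancel₀ two_pi_I_ne_zero, one_mul]

/-- A holomorphic function divided by a zero (`dslope`). -/
theorem exists_div {c : ℂ} (hc : c ∈ Metric.ball (0 : ℂ) ρ)
    (hq : DifferentiableOn ℂ q (Metric.ball 0 ρ)) (h0 : q c = 0) :
    ∃ q' : ℂ → ℂ, DifferentiableOn ℂ q' (Metric.ball 0 ρ) ∧
      ∀ t ∈ Metric.ball (0 : ℂ) ρ, q t = (t - c) * q' t := by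
  refine ⟨dslope q c, (Complex.differentiableOn_dslope (Metric.isOpen_ball.mem_nhds hc)).mpr hq,
    fun t _ => ?_⟩
  have h1 := sub_smul_dslope q c t
  rw [h0, sub_zero, smul_eq_mul] at h1
  exact h1.symm

/-- Cancellation: two holomorphic functions which agree after multiplication with
`∏ (t - τ m)` agree. -/
theorem eq_of_prod_mul_eq {q' : ℂ → ℂ} (hq : ContinuousOn q (Metric.ball 0 ρ))
    (hq' : ContinuousOn q' (Metric.ball 0 ρ))
    (h : ∀ t ∈ Metric.ball (0 : ℂ) ρ, (∏ m ∈ s, (t - τ m)) * q t = (∏ m ∈ s, (t - τ m)) * q' t) :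
    ∀ t ∈ Metric.ball (0 : ℂ) ρ, q t = q' t := by
  intro t ht
  have hb : Metric.ball (0 : ℂ) ρ ∈ nhds t := Metric.isOpen_ball.mem_nhds ht
  have h1 : Filter.Tendsto q (nhdsWithin t {t}ᶜ) (nhds (q t)) :=
    ((hq.continuousAt hb).tendsto).mono_left nhdsWithin_le_nhds
  have h2 : Filter.Tendsto q' (nhdsWithin t {t}ᶜ) (nhds (q' t)) :=
    ((hq'.continuousAt hb).tendsto).mono_left nhdsWithin_le_nhds
  refine tendsto_nhds_unique_of_eventuallyEq h1 h2 ?_
  have h3 : ∀ m ∈ s, ∀ᶠ u in nhdsWithin t {t}ᶜ, u - τ m ≠ 0 := by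
    intro m _
    by_cases hm : t = τ m
    · filter_upwards [self_mem_nhdsWithin] with u hu h0
      rw [sub_eq_zero, ← hm] at h0
      exact hu h0
    · have : ∀ᶠ u in nhds t, u - τ m ≠ 0 := by
        have hc : ContinuousAt (fun u : ℂ => u - τ m) t := by fun_prop
        exact hc.eventually_ne (sub_ne_zero.mpr hm)
      exact this.filter_mono nhdsWithin_le_nhds
  have h4 : ∀ᶠ u in nhdsWithin t {t}ᶜ, ∀ m ∈ s, u - τ m ≠ 0 := by
    rw [Filter.eventually_all_finset]
    exact h3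
  filter_upwards [h4, nhdsWithin_le_nhds hb] with u hu hub
  have h5 := h u hub
  exact mul_left_cancel₀ (Finset.prod_ne_zero_iff.mpr hu) h5

/-- If the next divided difference vanishes, one more factor can be divided out. -/
theorem nc_step [DecidableEq κ] (hR : 0 < R) (hRρ : R < ρ) {k : κ} (hk : k ∉ s)
    (hs : ∀ m ∈ s, ‖τ m‖ < R) (hkR : ‖τ k‖ < R) (hq : DifferentiableOn ℂ q (Metric.ball 0 ρ))
    (h : ∀ t ∈ Metric.ball (0 : ℂ) ρ, g t = (∏ m ∈ s, (t - τ m)) * q t)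
    (h0 : nc R (insert k s) τ g = 0) :
    ∃ q' : ℂ → ℂ, DifferentiableOn ℂ q' (Metric.ball 0 ρ) ∧
      ∀ t ∈ Metric.ball (0 : ℂ) ρ, g t = (∏ m ∈ insert k s, (t - τ m)) * q' t := by
  rw [nc_insert hR hRρ hk hs hkR hq h] at h0
  obtain ⟨q', hq', h1⟩ := exists_div (c := τ k)
    (by rw [mem_ball_zero_iff]; exact hkR.trans hRρ) hq h0
  refine ⟨q', hq', fun t ht => ?_⟩
  rw [h t ht, h1 t ht, Finset.prod_insert hk]
  ring

/-- Divisibility as holomorphic functions on a disc which contains the nodes implies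
divisibility as polynomials. -/
theorem poly_dvd (A : ℂ[X]) (hs : ∀ m ∈ s, τ m ∈ Metric.ball (0 : ℂ) ρ)
    (hq : DifferentiableOn ℂ q (Metric.ball 0 ρ))
    (h : ∀ t ∈ Metric.ball (0 : ℂ) ρ, A.eval t = (∏ m ∈ s, (t - τ m)) * q t) :
    ∏ m ∈ s, (X - C (τ m)) ∣ A := by
  classical
  induction s using Finset.induction_on generalizing A with
  | empty => simp
  | insert k s hk ih =>
    have hkρ : τ k ∈ Metric.ball (0 : ℂ) ρ := hs k (Finset.mem_insert_self k s)
    have h1 : A.IsRoot (τ k) := by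
      rw [IsRoot.def, h (τ k) hkρ, Finset.prod_insert hk, sub_self]
      ring
    obtain ⟨A', hA'⟩ := dvd_iff_isRoot.mpr h1
    have h2 : ∀ t ∈ Metric.ball (0 : ℂ) ρ, A'.eval t = (∏ m ∈ s, (t - τ m)) * q t := by
      refine eq_of_prod_mul_eq (s := {k}) (τ := τ) A'.continuous.continuousOn ?_ ?_
      · exact (continuous_finsetProd _ fun m _ =>
          continuous_id.sub continuous_const).continuousOn.mul hq.continuousOn
      · intro t ht
        have h3 := h t ht
        rw [hA', eval_mul, eval_sub, eval_X, eval_C, Finset.prod_insert hk] at h3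
        rw [Finset.prod_singleton, h3]
        ring
    have h4 := ih A' (fun m hm => hs m (Finset.mem_insert_of_mem hm)) h2
    rw [Finset.prod_insert hk, hA']
    exact mul_dvd_mul_left _ h4

end Pool.TTF
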