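import Pool.Agent.Lib.MP_695920_nt.TT.Five.PosDefs
import Pool.Agent.Lib.MP_695920_nt.TT.Five.Newton

set_option autoImplicit false

/-!
TEAM TWOTORSION, n = 5: the leading coefficient lemma (OWNER helper31).
-/

open Polynomial

namespace Pool.TTF

/-- A complex number which is a quotient with denominator prime to `p`, for every `p`. -/
private theorem ld_ideal (x y : ℂ)
    (h : ∀ p : ℕ, p.Prime → ∃ c n : ℤ, ¬ (p : ℤ) ∣ c ∧ x * c = n * y) :
    ∃ m : ℤ, x = m * y := by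
  let I : Ideal ℤ :=
    { carrier := {c | ∃ n : ℤ, x * c = n * y}
      add_mem' := by
        rintro c c' ⟨n, hn⟩ ⟨n', hn'⟩
        refine ⟨n + n', ?_⟩
        push_cast
        linear_combination hn + hn'
      zero_mem' := ⟨0, by simp⟩
      smul_mem' := by
        rintro c c' ⟨n, hn⟩
        refine ⟨c * n, ?_⟩
        rw [smul_eq_mul]
        push_cast
        linear_combination (c : ℂ) * hn }
  obtain ⟨d, hd⟩ : ∃ d, I = Ideal.span {d} := (IsPrincipalIdealRing.principal I).1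
  have hI : ∀ c, d ∣ c ↔ ∃ n : ℤ, x * c = n * y := by
    intro c
    rw [← Ideal.mem_span_singleton, ← hd]
    rfl
  have hu : d.natAbs = 1 := by
    by_contra hne
    obtain ⟨p, hp, hpd⟩ := Nat.exists_prime_and_dvd hne
    obtain ⟨c, n, hc, hn⟩ := h p hp
    exact hc ((Int.natCast_dvd.2 hpd).trans ((hI c).2 ⟨n, hn⟩))
  have h1 : d ∣ 1 := Int.isUnit_iff_natAbs_eq.2 hu |>.dvd
  obtain ⟨n, hn⟩ := (hI 1).1 h1
  exact ⟨n, by rw [← hn]; push_cast; ring⟩

/-- The cofactor of the greatest common divisor is prime to `p`. -/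
private theorem ld_cofactor {p : ℕ} (hp : p.Prime) {x y : ℤ} (hy : y ≠ 0)
    (h : emultiplicity (p : ℤ) y ≤ emultiplicity (p : ℤ) x) :
    ∃ c, y = Int.gcd x y * c ∧ ¬ (p : ℤ) ∣ c := by
  obtain ⟨c, hc⟩ : (Int.gcd x y : ℤ) ∣ y := Int.gcd_dvd_right ..
  refine ⟨c, hc, ?_⟩
  rintro ⟨c', hc'⟩
  have hfin : FiniteMultiplicity (p : ℤ) y := by
    rw [Int.finiteMultiplicity_iff]
    refine ⟨?_, hy⟩
    rw [Int.natAbs_natCast]
    exact hp.one_lt.ne'
  set k := multiplicity (p : ℤ) y with hk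
  have h1 : (p : ℤ) ^ k ∣ y := pow_multiplicity_dvd _ _
  have h2 : (p : ℤ) ^ k ∣ x := by
    rw [pow_dvd_iff_le_emultiplicity]
    refine le_trans ?_ h
    rw [hfin.emultiplicity_eq_multiplicity]
  have h3 : (p : ℤ) ^ k ∣ (Int.gcd x y : ℤ) := Int.dvd_coe_gcd h2 h1
  have h4 : (p : ℤ) ^ (k + 1) ∣ y := by
    rw [hc, hc', pow_succ, ← mul_assoc]
    obtain ⟨r, hr⟩ := h3
    exact ⟨r * c', by rw [hr]; ring⟩
  exact hfin.not_pow_dvd_of_multiplicity_lt (Nat.lt_succ_self _) h4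

section ring

variable {a : ℤ[X]} {b : ℤ}

/-- The value of an element of `ℤ[t, z]`. -/
private noncomputable def ev (u v : ℂ) (x : QuadraticAlgebra ℤ[X] a (C b)) : ℂ :=
  (x.re.map (Int.castRingHom ℂ)).eval u + (x.im.map (Int.castRingHom ℂ)).eval u * v

private theorem ev_mul {u v : ℂ} (h : v ^ 2 = (a.map (Int.castRingHom ℂ)).eval u + b * v)
    (x y : QuadraticAlgebra ℤ[X] a (C b)) : ev u v (x * y) = ev u v x * ev u v y := by
  unfold ev
  rw [QuadraticAlgebra.re_mul, QuadraticAlgebra.im_mul]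
  simp only [Polynomial.map_add, Polynomial.map_mul, map_C, eval_add, eval_mul, eval_C]
  rw [eq_intCast (Int.castRingHom ℂ) b]
  linear_combination (-((x.im.map (Int.castRingHom ℂ)).eval u *
    (y.im.map (Int.castRingHom ℂ)).eval u)) * h

private theorem ev_one (u v : ℂ) : ev u v (1 : QuadraticAlgebra ℤ[X] a (C b)) = 1 := by
  unfold ev
  simp [QuadraticAlgebra.re_one, QuadraticAlgebra.im_one]

private theorem ev_prod {u v : ℂ} (h : v ^ 2 = (a.map (Int.castRingHom ℂ)).eval u + b * v)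
    {κ : Type*} (s : Finset κ) (f : κ → QuadraticAlgebra ℤ[X] a (C b)) :
    ev u v (∏ m ∈ s, f m) = ∏ m ∈ s, ev u v (f m) := by
  classical
  induction s using Finset.induction_on with
  | empty => rw [Finset.prod_empty, Finset.prod_empty, ev_one]
  | insert m s hm ih => rw [Finset.prod_insert hm, Finset.prod_insert hm, ev_mul h, ih]

private theorem ev_lin (u v : ℂ) (c : ℤ) :
    ev u v (⟨C c, 1⟩ : QuadraticAlgebra ℤ[X] a (C b)) = v + c := by
  unfold ev
  simp only [map_C, eval_C, Polynomial.map_one, eval_one]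
  rw [eq_intCast (Int.castRingHom ℂ) c]
  ring

end ring

/-- Leading coefficient lemma: own sheet `w` with the nodes `U`, other sheet `b - w` with the nodes
`V`, the next node is `j` on the own sheet. -/
theorem lead {ι κ : Type*} (a : ℤ[X]) (b : ℤ) (t z : ι → ℤ) (hinj : Function.Injective t)
    (heq : ∀ i, z i ^ 2 = a.eval (t i) + b * z i)
    (hsum : ∀ i j, i ≠ j → Int.gcd (t i - t j) (z i - z j) * Int.gcd (t i - t j) (z i + z j - b) =
      (t i - t j).natAbs)
    {ρ : ℝ} (w : ℂ → ℂ) (hw : DifferentiableOn ℂ w (Metric.ball 0 ρ))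
    (hw2 : ∀ u ∈ Metric.ball (0 : ℂ) ρ, w u ^ 2 = (a.map (Int.castRingHom ℂ)).eval u + b * w u)
    (hne : ∀ u ∈ Metric.ball (0 : ℂ) ρ, 2 * w u - b ≠ 0)
    (ht : ∀ i, |(t i : ℝ)| < ρ) (hwt : ∀ i, w (t i) = z i)
    (A B : ℤ[X]) (U V : Finset κ) (e : κ → ι) (j : ι) (hV : ∀ m ∈ V, e m ≠ j)
    (hUV : ∀ m ∈ U, ∀ m' ∈ V, e m ≠ e m')
    (q q' : ℂ → ℂ) (hq : DifferentiableOn ℂ q (Metric.ball 0 ρ))
    (hq' : DifferentiableOn ℂ q' (Metric.ball 0 ρ))
    (hA : ∀ u ∈ Metric.ball (0 : ℂ) ρ, (A.map (Int.castRingHom ℂ)).eval u +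
      (B.map (Int.castRingHom ℂ)).eval u * w u = (∏ m ∈ U, (u - (t (e m) : ℂ))) * q u)
    (hA' : ∀ u ∈ Metric.ball (0 : ℂ) ρ, (A.map (Int.castRingHom ℂ)).eval u +
      (B.map (Int.castRingHom ℂ)).eval u * (b - w u) = (∏ m ∈ V, (u - (t (e m) : ℂ))) * q' u) :
    ∃ m : ℤ, q (t j) * ∏ k ∈ U, (Int.gcd (t (e k) - t j) (z (e k) + z j - b) : ℂ) =
      m * ∏ k ∈ V, (Int.gcd (t (e k) - t j) (z (e k) + z j - b) : ℂ) := by
  classical
  have htb : ∀ i, (t i : ℂ) ∈ Metric.ball (0 : ℂ) ρ := by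
    intro i
    rw [mem_ball_zero_iff]
    have : ‖((t i : ℤ) : ℂ)‖ = |(t i : ℝ)| := by simp
    rw [this]
    exact ht i
  -- the functions `v i`: `w - z i = (u - t i) v i`
  have hdiv : ∀ i, ∃ v : ℂ → ℂ, DifferentiableOn ℂ v (Metric.ball 0 ρ) ∧
      ∀ u ∈ Metric.ball (0 : ℂ) ρ, w u - z i = (u - t i) * v u := by
    intro i
    exact exists_div (q := fun u => w u - z i) (htb i) (hw.sub_const _)
      (by simp only [hwt i, sub_self])
  choose v hvd hv using hdiv
  apply ld_ideal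
  intro p hp
  have hpZ : Prime (p : ℤ) := Nat.prime_iff_prime_int.1 hp
  set PU : κ → Prop := fun m => emultiplicity (p : ℤ) (z (e m) + z j - b) ≤
    emultiplicity (p : ℤ) (t (e m) - t j) with hPU
  set PV : κ → Prop := fun m => emultiplicity (p : ℤ) (z (e m) - z j) ≤
    emultiplicity (p : ℤ) (t (e m) - t j) with hPV
  set U' := U.filter PU with hU'
  set V' := V.filter PV with hV'
  have hdisj : Disjoint U' V' := by
    rw [Finset.disjoint_left]
    intro m hm hm'
    exact hUV m (Finset.mem_filter.1 hm).1 m (Finset.mem_filter.1 hm').1 rfl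
  -- the auxiliary function
  set Φ : QuadraticAlgebra ℤ[X] a (C b) := ⟨A, B⟩ with hΦ
  set Ψ : QuadraticAlgebra ℤ[X] a (C b) := Φ * (∏ m ∈ U', (⟨C (z (e m) - b), 1⟩ :
    QuadraticAlgebra ℤ[X] a (C b))) * ∏ m ∈ V', (⟨C (-z (e m)), 1⟩ :
    QuadraticAlgebra ℤ[X] a (C b)) with hΨ
  have hw2' : ∀ u ∈ Metric.ball (0 : ℂ) ρ,
      (b - w u) ^ 2 = (a.map (Int.castRingHom ℂ)).eval u + b * (b - w u) := by
    intro u hu
    linear_combination hw2 u hu
  have ev1 : ∀ u ∈ Metric.ball (0 : ℂ) ρ, ev u (w u) Ψ =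
      ((∏ m ∈ U, (u - (t (e m) : ℂ))) * q u) * (∏ m ∈ U', (w u + z (e m) - b)) *
        ∏ m ∈ V', (w u - z (e m)) := by
    intro u hu
    rw [hΨ, ev_mul (hw2 u hu), ev_mul (hw2 u hu), ev_prod (hw2 u hu), ev_prod (hw2 u hu)]
    simp only [ev_lin]
    rw [show ev u (w u) Φ = _ from hA u hu]
    congr 1
    · congr 1
      refine Finset.prod_congr rfl fun m _ => ?_
      push_cast
      ring
    · refine Finset.prod_congr rfl fun m _ => ?_
      push_cast
      ring
  have ev2 : ∀ u ∈ Metric.ball (0 : ℂ) ρ, ev u (b - w u) Ψ =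
      ((∏ m ∈ V, (u - (t (e m) : ℂ))) * q' u) * (∏ m ∈ U', (-(w u - z (e m)))) *
        ∏ m ∈ V', (b - w u - z (e m)) := by
    intro u hu
    rw [hΨ, ev_mul (hw2' u hu), ev_mul (hw2' u hu), ev_prod (hw2' u hu), ev_prod (hw2' u hu)]
    simp only [ev_lin]
    rw [show ev u (b - w u) Φ = _ from hA' u hu]
    congr 1
    · congr 1
      refine Finset.prod_congr rfl fun m _ => ?_
      push_cast
      ring
    · refine Finset.prod_congr rfl fun m _ => ?_
      push_cast
      ring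
  -- the quotients
  set Q1 : ℂ → ℂ := fun u => (∏ m ∈ U.filter (fun m => ¬ PU m), (u - (t (e m) : ℂ))) * q u *
    (∏ m ∈ U', (w u + z (e m) - b)) * ∏ m ∈ V', v (e m) u with hQ1
  set Q2 : ℂ → ℂ := fun u => (∏ m ∈ V.filter (fun m => ¬ PV m), (u - (t (e m) : ℂ))) * q' u *
    (∏ m ∈ U', (-(v (e m) u))) * ∏ m ∈ V', (b - w u - z (e m)) with hQ2
  have hM1 : ∀ u ∈ Metric.ball (0 : ℂ) ρ,
      ev u (w u) Ψ = (∏ m ∈ U' ∪ V', (u - (t (e m) : ℂ))) * Q1 u := by
    intro u hu
    rw [ev1 u hu, Finset.prod_union hdisj, ← Finset.prod_filter_mul_prod_filter_not U PU, hQ1]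
    have h1 : ∏ m ∈ V', (w u - z (e m)) =
        (∏ m ∈ V', (u - (t (e m) : ℂ))) * ∏ m ∈ V', v (e m) u := by
      rw [← Finset.prod_mul_distrib]
      exact Finset.prod_congr rfl fun m _ => hv _ u hu
    rw [h1]
    ring
  have hM2 : ∀ u ∈ Metric.ball (0 : ℂ) ρ,
      ev u (b - w u) Ψ = (∏ m ∈ U' ∪ V', (u - (t (e m) : ℂ))) * Q2 u := by
    intro u hu
    rw [ev2 u hu, Finset.prod_union hdisj, ← Finset.prod_filter_mul_prod_filter_not V PV, hQ2]
    have h1 : ∏ m ∈ U', (-(w u - z (e m))) =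
        (∏ m ∈ U', (u - (t (e m) : ℂ))) * ∏ m ∈ U', (-(v (e m) u)) := by
      rw [← Finset.prod_mul_distrib]
      refine Finset.prod_congr rfl fun m _ => ?_
      rw [hv _ u hu]
      ring
    rw [h1]
    ring
  have hprod : ∀ (s : Finset κ) (f : κ → ℂ → ℂ), (∀ m ∈ s, DifferentiableOn ℂ (f m)
      (Metric.ball 0 ρ)) → DifferentiableOn ℂ (fun u => ∏ m ∈ s, f m u) (Metric.ball 0 ρ) := by
    intro s f hf
    have := DifferentiableOn.fun_finsetProd (u := s) (f := f) hf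
    exact this
  have hd1 : DifferentiableOn ℂ Q1 (Metric.ball 0 ρ) := by
    refine ((DifferentiableOn.mul ?_ hq).mul ?_).mul ?_
    · exact hprod _ _ fun m _ => (differentiableOn_id.sub_const _)
    · exact hprod _ _ fun m _ => (hw.add_const _).sub_const _
    · exact hprod _ _ fun m _ => hvd _
  have hd2 : DifferentiableOn ℂ Q2 (Metric.ball 0 ρ) := by
    refine ((DifferentiableOn.mul ?_ hq').mul ?_).mul ?_
    · exact hprod _ _ fun m _ => (differentiableOn_id.sub_const _)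
    · exact hprod _ _ fun m _ => (hvd _).neg
    · exact hprod _ _ fun m _ => (hw.const_sub _).sub_const _
  -- the coordinates of `Ψ`
  set QB : ℂ → ℂ := fun u => (Q1 u - Q2 u) / (2 * w u - b) with hQB
  have hdB : DifferentiableOn ℂ QB (Metric.ball 0 ρ) :=
    (hd1.sub hd2).div ((hw.const_mul _).sub_const _) hne
  have hB : ∀ u ∈ Metric.ball (0 : ℂ) ρ, (Ψ.im.map (Int.castRingHom ℂ)).eval u =
      (∏ m ∈ U' ∪ V', (u - (t (e m) : ℂ))) * QB u := by
    intro u hu
    have h1 := hM1 u hu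
    have h2 := hM2 u hu
    rw [ev] at h1 h2
    have h3 : (Ψ.im.map (Int.castRingHom ℂ)).eval u * (2 * w u - b) =
        (∏ m ∈ U' ∪ V', (u - (t (e m) : ℂ))) * (Q1 u - Q2 u) := by
      linear_combination h1 - h2
    rw [hQB]
    show _ = _ * ((Q1 u - Q2 u) / (2 * w u - b))
    rw [← mul_div_assoc, ← h3, mul_div_cancel_right₀ _ (hne u hu)]
  have hAA : ∀ u ∈ Metric.ball (0 : ℂ) ρ, (Ψ.re.map (Int.castRingHom ℂ)).eval u =
      (∏ m ∈ U' ∪ V', (u - (t (e m) : ℂ))) * (Q1 u - QB u * w u) := by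
    intro u hu
    have h1 := hM1 u hu
    rw [ev, hB u hu] at h1
    linear_combination h1
  set MZ : ℤ[X] := ∏ m ∈ U' ∪ V', (X - C (t (e m))) with hMZ
  have hMZm : MZ.Monic := monic_prod_of_monic _ _ fun m _ => monic_X_sub_C _
  have hMZmap : MZ.map (Int.castRingHom ℂ) = ∏ m ∈ U' ∪ V', (X - C ((t (e m) : ℤ) : ℂ)) := by
    rw [hMZ, Polynomial.map_prod]
    refine Finset.prod_congr rfl fun m _ => ?_
    rw [Polynomial.map_sub, map_X, map_C]
    rfl
  have hcinj : Function.Injective (Int.castRingHom ℂ) := Int.cast_injective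
  obtain ⟨B1, hB1⟩ : MZ ∣ Ψ.im := by
    rw [← Polynomial.map_dvd_map (Int.castRingHom ℂ) hcinj hMZm, hMZmap]
    exact poly_dvd (s := U' ∪ V') (τ := fun m => ((t (e m) : ℤ) : ℂ)) _ (fun m _ => htb _) hdB hB
  obtain ⟨A1, hA1⟩ : MZ ∣ Ψ.re := by
    rw [← Polynomial.map_dvd_map (Int.castRingHom ℂ) hcinj hMZm, hMZmap]
    exact poly_dvd (s := U' ∪ V') (τ := fun m => ((t (e m) : ℤ) : ℂ)) _ (fun m _ => htb _)
      (hd1.sub (hdB.mul hw)) hAA
  have hMev : ∀ u : ℂ, (MZ.map (Int.castRingHom ℂ)).eval u = ∏ m ∈ U' ∪ V', (u - (t (e m) : ℂ)) := by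
    intro u
    rw [hMZmap, eval_prod]
    refine Finset.prod_congr rfl fun m _ => ?_
    rw [eval_sub, eval_X, eval_C]
  have key := eq_of_prod_mul_eq (s := U' ∪ V') (τ := fun m => ((t (e m) : ℤ) : ℂ))
    (q := fun u => (A1.map (Int.castRingHom ℂ)).eval u + (B1.map (Int.castRingHom ℂ)).eval u * w u)
    (q' := Q1) (ρ := ρ)
    ((Polynomial.continuous _).continuousOn.add
      ((Polynomial.continuous _).continuousOn.mul hw.continuousOn)) hd1.continuousOn (by
      intro u hu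
      have h1 := hM1 u hu
      rw [ev, hA1, hB1, Polynomial.map_mul, Polynomial.map_mul, eval_mul, eval_mul, hMev] at h1
      linear_combination h1) (t j) (htb j)
  -- the integer
  set n : ℤ := A1.eval (t j) + B1.eval (t j) * z j with hn
  have hnQ : (n : ℂ) = Q1 (t j) := by
    rw [← key, hn, hwt j]
    push_cast
    have e1 : ∀ G : ℤ[X], (G.map (Int.castRingHom ℂ)).eval ((t j : ℤ) : ℂ) = ((G.eval (t j) : ℤ) : ℂ) := by
      intro G
      exact Polynomial.eval_intCast_map (Int.castRingHom ℂ) G (t j)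
    rw [e1, e1]
  set g : κ → ℤ := fun m => (Int.gcd (t (e m) - t j) (z (e m) + z j - b) : ℤ) with hg
  have h2z : 2 * z j - b ≠ 0 := by
    intro h0
    apply hne (t j) (htb j)
    rw [hwt j]
    exact_mod_cast h0
  have hcU : ∀ m, ∃ c : ℤ, ¬ (p : ℤ) ∣ c ∧
      (if PU m then z (e m) + z j - b else t j - t (e m)) = g m * c := by
    intro m
    by_cases hm : PU m
    · rw [if_pos hm]
      have hy : z (e m) + z j - b ≠ 0 := by
        intro h0
        by_cases he : e m = j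
        · rw [he] at h0
          exact h2z (by rw [← h0]; ring)
        · have h1 : emultiplicity (p : ℤ) (z (e m) + z j - b) ≤
            emultiplicity (p : ℤ) (t (e m) - t j) := hm
          rw [h0, emultiplicity_zero, top_le_iff, emultiplicity_eq_top,
            Int.finiteMultiplicity_iff, not_and_or] at h1
          rcases h1 with h1 | h1
          · apply h1
            rw [Int.natAbs_natCast]
            exact hp.one_lt.ne'
          · rw [not_ne_iff, sub_eq_zero] at h1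
            exact he (hinj h1)
      obtain ⟨c, hc, hc'⟩ := ld_cofactor hp hy hm
      exact ⟨c, hc', hc⟩
    · rw [if_neg hm]
      have hlt : emultiplicity (p : ℤ) (t (e m) - t j) <
          emultiplicity (p : ℤ) (z (e m) + z j - b) := not_le.1 hm
      have hx : t (e m) - t j ≠ 0 := by
        intro h0
        rw [h0, emultiplicity_zero] at hlt
        exact not_top_lt hlt
      obtain ⟨c, hc, hc'⟩ := ld_cofactor hp hx hlt.le
      refine ⟨-c, ?_, ?_⟩
      · rwa [dvd_neg]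
      · rw [Int.gcd_comm] at hc
        rw [hg]
        show t j - t (e m) = (Int.gcd (t (e m) - t j) (z (e m) + z j - b) : ℤ) * -c
        linear_combination -hc
  choose cU hcU1 hcU2 using hcU
  have hcV : ∀ m ∈ V, ∃ c : ℤ, ¬ (p : ℤ) ∣ c ∧
      (if PV m then (t j - t (e m)) * c = g m * (z j - z (e m)) else g m = c) := by
    intro m hm
    have he : e m ≠ j := hV m hm
    have hx : t (e m) - t j ≠ 0 := fun h0 => he (hinj (sub_eq_zero.1 h0))
    have hs := hsum (e m) j he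
    have hs' : (Int.gcd (t (e m) - t j) (z (e m) - z j) : ℤ) * g m = |t (e m) - t j| := by
      rw [hg]
      show (Int.gcd (t (e m) - t j) (z (e m) - z j) : ℤ) *
        (Int.gcd (t (e m) - t j) (z (e m) + z j - b) : ℤ) = _
      rw [← Int.natCast_mul, hs, Int.natCast_natAbs]
    have hg10 : (Int.gcd (t (e m) - t j) (z (e m) - z j) : ℤ) ≠ 0 := by
      intro h0
      rw [h0, zero_mul] at hs'
      exact hx (abs_eq_zero.1 hs'.symm)
    by_cases hm' : PV m
    · have hy : z (e m) - z j ≠ 0 := by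
        intro h0
        have h1 : emultiplicity (p : ℤ) (z (e m) - z j) ≤
          emultiplicity (p : ℤ) (t (e m) - t j) := hm'
        rw [h0, emultiplicity_zero, top_le_iff, emultiplicity_eq_top,
          Int.finiteMultiplicity_iff, not_and_or] at h1
        rcases h1 with h1 | h1
        · apply h1
          rw [Int.natAbs_natCast]
          exact hp.one_lt.ne'
        · exact h1 hx
      obtain ⟨c, hc, hc'⟩ := ld_cofactor hp hy hm'
      rcases abs_cases (t (e m) - t j) with ⟨h1, -⟩ | ⟨h1, -⟩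
      · refine ⟨c, hc', ?_⟩
        rw [if_pos hm']
        linear_combination c * hs' + c * h1 + g m * hc
      · refine ⟨-c, by rwa [dvd_neg], ?_⟩
        rw [if_pos hm']
        linear_combination c * hs' + c * h1 + g m * hc
    · have hlt : emultiplicity (p : ℤ) (t (e m) - t j) <
          emultiplicity (p : ℤ) (z (e m) - z j) := not_le.1 hm'
      obtain ⟨c, hc, hc'⟩ := ld_cofactor hp hx hlt.le
      rw [Int.gcd_comm] at hc
      refine ⟨g m, ?_, by rw [if_neg hm']⟩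
      have h3 : g m = c ∨ g m = -c := by
        rcases abs_cases (t (e m) - t j) with ⟨h1, -⟩ | ⟨h1, -⟩
        · left
          apply mul_left_cancel₀ hg10
          rw [hs', h1, ← hc]
        · right
          apply mul_left_cancel₀ hg10
          rw [hs', h1, mul_neg, ← hc]
      rcases h3 with h3 | h3
      · rwa [h3]
      · rwa [h3, dvd_neg]
  choose! cV hcV1 hcV2 using hcV
  refine ⟨(∏ m ∈ U, cU m) * ∏ m ∈ V, cV m, n, ?_, ?_⟩
  · rw [hpZ.dvd_mul, not_or]
    refine ⟨?_, ?_⟩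
    · intro h0
      obtain ⟨m, -, hm⟩ := (Prime.dvd_finsetProd_iff hpZ _).1 h0
      exact hcU1 m hm
    · intro h0
      obtain ⟨m, hmV, hm⟩ := (Prime.dvd_finsetProd_iff hpZ _).1 h0
      exact hcV1 m hmV hm
  -- the computation
  have hD : (∏ m ∈ V', ((z j : ℂ) - z (e m))) ≠ 0 := by
    rw [Finset.prod_ne_zero_iff]
    intro m hm h0
    have hmV := (Finset.mem_filter.1 hm).1
    have hm' : PV m := (Finset.mem_filter.1 hm).2
    have h1 := hcV2 m hmV
    rw [if_pos hm'] at h1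
    have h2 : z j - z (e m) = 0 := by exact_mod_cast h0
    rw [h2, mul_zero] at h1
    rcases mul_eq_zero.1 h1 with h3 | h3
    · exact hV m hmV (hinj (sub_eq_zero.1 h3).symm)
    · exact hcV1 m hmV (h3 ▸ dvd_zero _)
  have hgC : ∀ m, ((Int.gcd (t (e m) - t j) (z (e m) + z j - b) : ℕ) : ℂ) = ((g m : ℤ) : ℂ) := by
    intro m
    rw [hg]
    simp
  simp only [hgC]
  have kU : (∏ m ∈ U, ((g m : ℤ) : ℂ)) * ((∏ m ∈ U, cU m : ℤ) : ℂ) =
      (∏ m ∈ U.filter (fun m => ¬ PU m), ((t j : ℂ) - (t (e m) : ℂ))) *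
        ∏ m ∈ U', ((z j : ℂ) + z (e m) - b) := by
    rw [Int.cast_prod, ← Finset.prod_mul_distrib, ← Finset.prod_filter_mul_prod_filter_not U PU,
      mul_comm]
    congr 1
    · refine Finset.prod_congr rfl fun m hm => ?_
      have h1 := hcU2 m
      rw [if_neg (Finset.mem_filter.1 hm).2] at h1
      exact_mod_cast h1.symm
    · refine Finset.prod_congr rfl fun m hm => ?_
      have h1 := hcU2 m
      rw [if_pos (Finset.mem_filter.1 hm).2] at h1
      rw [← Int.cast_mul, ← h1]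
      push_cast
      ring
  have kV : (∏ m ∈ V', ((t j : ℂ) - (t (e m) : ℂ))) * ((∏ m ∈ V, cV m : ℤ) : ℂ) =
      (∏ m ∈ V', ((z j : ℂ) - z (e m))) * ∏ m ∈ V, ((g m : ℤ) : ℂ) := by
    rw [Int.cast_prod, ← Finset.prod_filter_mul_prod_filter_not V PV (f := fun m => ((cV m : ℤ) : ℂ)),
      ← Finset.prod_filter_mul_prod_filter_not V PV (f := fun m => ((g m : ℤ) : ℂ)), ← mul_assoc,
      ← mul_assoc]
    congr 1
    · rw [← Finset.prod_mul_distrib, ← Finset.prod_mul_distrib]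
      refine Finset.prod_congr rfl fun m hm => ?_
      have h1 := hcV2 m (Finset.mem_filter.1 hm).1
      rw [if_pos (Finset.mem_filter.1 hm).2] at h1
      have h2 : (((t j - t (e m)) * cV m : ℤ) : ℂ) = ((g m * (z j - z (e m)) : ℤ) : ℂ) := by
        rw [h1]
      push_cast at h2
      linear_combination h2
    · refine Finset.prod_congr rfl fun m hm => ?_
      have h1 := hcV2 m (Finset.mem_filter.1 hm).1
      rw [if_neg (Finset.mem_filter.1 hm).2] at h1
      rw [h1]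
  have kn : (n : ℂ) * (∏ m ∈ V', ((t j : ℂ) - (t (e m) : ℂ))) =
      (∏ m ∈ U.filter (fun m => ¬ PU m), ((t j : ℂ) - (t (e m) : ℂ))) * q (t j) *
        (∏ m ∈ U', ((z j : ℂ) + z (e m) - b)) * ∏ m ∈ V', ((z j : ℂ) - z (e m)) := by
    rw [hnQ, hQ1]
    show ((∏ m ∈ U.filter (fun m => ¬ PU m), ((t j : ℂ) - (t (e m) : ℂ))) * q (t j) *
      (∏ m ∈ U', (w (t j) + z (e m) - b)) * ∏ m ∈ V', v (e m) (t j)) * _ = _
    rw [mul_assoc, ← Finset.prod_mul_distrib, hwt j]
    congr 1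
    refine Finset.prod_congr rfl fun m _ => ?_
    have h1 := hv (e m) (t j) (htb j)
    rw [hwt j] at h1
    rw [h1]
    ring
  apply mul_left_cancel₀ hD
  rw [Int.cast_mul]
  calc (∏ m ∈ V', ((z j : ℂ) - z (e m))) * (q (t j) * (∏ m ∈ U, ((g m : ℤ) : ℂ)) *
        (((∏ m ∈ U, cU m : ℤ) : ℂ) * ((∏ m ∈ V, cV m : ℤ) : ℂ)))
      = (q (t j) * (∏ m ∈ V', ((z j : ℂ) - z (e m))) * ((∏ m ∈ V, cV m : ℤ) : ℂ)) *
          ((∏ m ∈ U, ((g m : ℤ) : ℂ)) * ((∏ m ∈ U, cU m : ℤ) : ℂ)) := by ring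
    _ = ((n : ℂ) * (∏ m ∈ V', ((t j : ℂ) - (t (e m) : ℂ)))) * ((∏ m ∈ V, cV m : ℤ) : ℂ) := by
        rw [kU, kn]; ring
    _ = (∏ m ∈ V', ((z j : ℂ) - z (e m))) * ((n : ℂ) * ∏ m ∈ V, ((g m : ℤ) : ℂ)) := by
        rw [mul_assoc, kV]; ring

end Pool.TTF
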