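import Pool.Agent.Lib.MP_695920_nt.TT.Five.Split
import Pool.Agent.Lib.MP_695920_nt.TT.Five.Final5

set_option autoImplicit false

/-!
TEAM TWOTORSION, `n = 5`: the bound for one line in degree five from the bound for one class.
-/

namespace Pool.TT.Five

open Polynomial NumberField Module Real

theorem line5_of_class (hcl : ClassBound 5 (1 / 100) (19 / 100)) : Pool.TTV.Line5 := by
  refine ⟨1 / 10 - 1 / 10000, 1901 / 10000, 71 / 10000, by norm_num, by norm_num, by norm_num,
    by norm_num, fun c hc => ?_⟩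
  obtain ⟨C', hC', h⟩ := line_of_class 5 ⟨2, by norm_num⟩ (by norm_num) (by norm_num)
    (by norm_num) hcl hc (ε := 1 / 10000) (by norm_num)
  refine ⟨C', hC', fun K _ _ hK θ hθ hroots => ?_⟩
  have h1 := h K hK θ hθ (by simpa using hroots)
  have e1 : (1 - (1 / 100 : ℝ) / ((5 : ℕ) : ℝ)) / (2 * ((5 : ℕ) : ℝ)) + 1 / 10000 =
      1 / 10 - 1 / 10000 := by norm_num
  have e2 : (19 / 100 : ℝ) + 1 / 10000 = 1901 / 10000 := by norm_num
  have e3 : 7 * (1 / 100 : ℝ) / (2 * ((5 : ℕ) : ℝ)) + 1 / 10000 = 71 / 10000 := by norm_num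
  rw [e1, e2, e3] at h1
  simpa using h1

end Pool.TT.Five
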