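import Mathlib

set_option autoImplicit false
set_option linter.unusedSectionVars false

/-!
TEAM TT-FIVE, positivity of the height pairing, part 1 (algebra).

The ring `O = ℤ[t][z] / (z² + h z - E)`, its integral points, the operators `θ`, the ideals
`V(Q, a)` of the functions which vanish to order `a` at `Q`, and the divisibility of the leading
coefficients.
-/

open Polynomial

namespace Pool.Five

section Gen

variable {A : Type*} [CommRing A]

/-- the ring `A[t][z] / (z ^ 2 + h z - E)` -/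
abbrev O (h : A) (E : A[X]) : Type _ := QuadraticAlgebra A[X] E (-(C h))

/-- a point of `z ^ 2 + h z = E(t)` with coordinates in `A`, different from its conjugate -/
structure Pt (h : A) (E : A[X]) where
  t : A
  z : A
  eq : z * z + h * z = E.eval t
  ne : 2 * z + h ≠ 0

variable {h : A} {E : A[X]}

/-- evaluation of `O` with values in any ring -/
noncomputable def evg {B : Type*} [CommRing B] (φ : A[X] →+* B) (y : B)
    (hy : y * y + φ (C h) * y = φ E) : O h E →+* B where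
  toFun Φ := φ Φ.re + φ Φ.im * y
  map_one' := by
    change φ (1 : A[X]) + φ (0 : A[X]) * y = 1
    simp
  map_zero' := by
    change φ (0 : A[X]) + φ (0 : A[X]) * y = 0
    simp
  map_add' a b := by
    simp only [QuadraticAlgebra.re_add, QuadraticAlgebra.im_add, map_add]
    ring
  map_mul' a b := by
    simp only [QuadraticAlgebra.re_mul, QuadraticAlgebra.im_mul, map_add, map_mul, map_neg]
    linear_combination (-(φ a.im * φ b.im)) * hy

/-- the conjugate point -/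
def Pt.conj (Q : Pt h E) : Pt h E where
  t := Q.t
  z := -h - Q.z
  eq := by rw [← Q.eq]; ring
  ne := by
    have := Q.ne
    intro h1
    apply this
    linear_combination -h1

/-- evaluation at a point -/
noncomputable def ev (Q : Pt h E) : O h E →+* A :=
  evg (Polynomial.evalRingHom Q.t) Q.z (by simpa using Q.eq)

theorem ev_apply (Q : Pt h E) (Φ : O h E) : ev Q Φ = Φ.re.eval Q.t + Φ.im.eval Q.t * Q.z := rfl

/-- `t - t(Q)` -/
noncomputable def tt (Q : Pt h E) : O h E := ⟨X - C Q.t, 0⟩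

/-- `z - z(Q*)` -/
noncomputable def zz (Q : Pt h E) : O h E := ⟨C (h + Q.z), 1⟩

theorem tt_mul (Q : Pt h E) (Φ : O h E) : tt Q * Φ = ⟨(X - C Q.t) * Φ.re, (X - C Q.t) * Φ.im⟩ := by
  ext1
  · simp [tt]
  · simp [tt]

/-- the constants -/
noncomputable def cc (a : A) : O h E := ⟨C a, 0⟩

theorem cc_mul (a : A) (Φ : O h E) : cc a * Φ = a • Φ := by
  ext1
  · simp [cc, smul_eq_C_mul]
  · simp [cc, smul_eq_C_mul]

@[simp] theorem ev_cc (Q : Pt h E) (a : A) : ev Q (cc a) = a := by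
  simp [ev_apply, cc]

theorem cc_add (a b : A) : (cc (a + b) : O h E) = cc a + cc b := by
  ext1
  · simp [cc]
  · simp [cc]

theorem cc_mul_cc (a b : A) : (cc (a * b) : O h E) = cc a * cc b := by
  ext1
  · simp [cc]
  · simp [cc]

theorem cc_zero : (cc (0 : A) : O h E) = 0 := by
  ext1
  · simp [cc]
  · simp [cc]

variable [IsDomain A]

theorem tt_cancel (Q : Pt h E) {Φ Ψ : O h E} (H : tt Q * Φ = tt Q * Ψ) : Φ = Ψ := by
  rw [tt_mul, tt_mul] at H
  have h1 := congrArg QuadraticAlgebra.re H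
  have h2 := congrArg QuadraticAlgebra.im H
  simp only at h1 h2
  have h0 : (X - C Q.t : A[X]) ≠ 0 := X_sub_C_ne_zero _
  ext1
  · exact mul_left_cancel₀ h0 h1
  · exact mul_left_cancel₀ h0 h2

theorem tt_pow_cancel (Q : Pt h E) (a : ℕ) {Φ Ψ : O h E} (H : tt Q ^ a * Φ = tt Q ^ a * Ψ) :
    Φ = Ψ := by
  induction a with
  | zero => simpa using H
  | succ a ih =>
    rw [pow_succ', mul_assoc, mul_assoc] at H
    exact ih (tt_cancel Q H)

theorem ev_tt (Q P : Pt h E) : ev P (tt Q) = P.t - Q.t := by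
  simp [ev_apply, tt]

theorem ev_zz (Q P : Pt h E) : ev P (zz Q) = P.z + h + Q.z := by
  simp [ev_apply, zz]; ring

/-- division: if `Φ(Q) = 0` then `t - t(Q)` divides `(z - z(Q*)) Φ` -/
theorem exists_div (Q : Pt h E) (Φ : O h E) (H : ev Q Φ = 0) :
    ∃ Ψ : O h E, zz Q * Φ = tt Q * Ψ := by
  rw [ev_apply] at H
  have h1 : (X - C Q.t) ∣ (zz Q * Φ).re := by
    rw [Polynomial.dvd_iff_isRoot, Polynomial.IsRoot.def]
    simp only [zz, QuadraticAlgebra.re_mul, eval_add, eval_mul, eval_C, eval_one]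
    rw [← Q.eq]
    linear_combination (h + Q.z) * H
  have h2 : (X - C Q.t) ∣ (zz Q * Φ).im := by
    rw [Polynomial.dvd_iff_isRoot, Polynomial.IsRoot.def]
    simp only [zz, QuadraticAlgebra.im_mul, eval_add, eval_mul, eval_C, eval_one, eval_neg]
    linear_combination H
  obtain ⟨A, hA⟩ := h1
  obtain ⟨B, hB⟩ := h2
  refine ⟨⟨A, B⟩, ?_⟩
  rw [tt_mul]
  ext1
  · exact hA
  · exact hB

/-- the operator `θ_Q` -/
noncomputable def theta (Q : Pt h E) : O h E →ₗ[A] O h E where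
  toFun Φ := (exists_div Q (Φ - cc (ev Q Φ)) (by simp)).choose
  map_add' U W := by
    have h1 := (exists_div Q (U - cc (ev Q U)) (by simp)).choose_spec
    have h2 := (exists_div Q (W - cc (ev Q W)) (by simp)).choose_spec
    have h3 := (exists_div Q ((U + W) - cc (ev Q (U + W))) (by simp)).choose_spec
    apply tt_cancel Q
    rw [← h3, mul_add, ← h1, ← h2, map_add, cc_add]
    ring
  map_smul' c U := by
    have h1 := (exists_div Q (U - cc (ev Q U)) (by simp)).choose_spec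
    have h3 := (exists_div Q ((c • U) - cc (ev Q (c • U))) (by simp)).choose_spec
    apply tt_cancel Q
    rw [← h3]
    simp only [RingHom.id_apply]
    rw [← cc_mul c, ← cc_mul c, map_mul, ev_cc, cc_mul_cc]
    linear_combination (cc c) * h1

theorem theta_spec (Q : Pt h E) (Φ : O h E) :
    zz Q * (Φ - cc (ev Q Φ)) = tt Q * theta Q Φ :=
  (exists_div Q (Φ - cc (ev Q Φ)) (by simp)).choose_spec

theorem theta_spec' (Q : Pt h E) {Φ : O h E} (H : ev Q Φ = 0) :
    zz Q * Φ = tt Q * theta Q Φ := by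
  have h1 := theta_spec Q Φ
  rw [H, cc_zero, sub_zero] at h1
  exact h1

/-- `Φ` vanishes to order `a` at `Q` -/
def V (Q : Pt h E) (a : ℕ) (Φ : O h E) : Prop := ∃ Ψ : O h E, zz Q ^ a * Φ = tt Q ^ a * Ψ

theorem V_zero (Q : Pt h E) (Φ : O h E) : V Q 0 Φ := ⟨Φ, by simp⟩

theorem V_mul (Q : Pt h E) {a : ℕ} {Φ : O h E} (Θ : O h E) (H : V Q a Φ) : V Q a (Θ * Φ) := by
  obtain ⟨Ψ, hΨ⟩ := H
  exact ⟨Θ * Ψ, by linear_combination Θ * hΨ⟩

theorem V_add (Q : Pt h E) {a : ℕ} {Φ Θ : O h E} (H : V Q a Φ) (H' : V Q a Θ) :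
    V Q a (Φ + Θ) := by
  obtain ⟨Ψ, hΨ⟩ := H
  obtain ⟨Ψ', hΨ'⟩ := H'
  exact ⟨Ψ + Ψ', by linear_combination hΨ + hΨ'⟩

theorem V_sub (Q : Pt h E) {a : ℕ} {Φ Θ : O h E} (H : V Q a Φ) (H' : V Q a Θ) :
    V Q a (Φ - Θ) := by
  obtain ⟨Ψ, hΨ⟩ := H
  obtain ⟨Ψ', hΨ'⟩ := H'
  exact ⟨Ψ - Ψ', by linear_combination hΨ - hΨ'⟩

theorem V_ev (Q : Pt h E) {a : ℕ} {Φ : O h E} (H : V Q (a + 1) Φ) : ev Q Φ = 0 := by
  obtain ⟨Ψ, hΨ⟩ := H
  have h1 := congrArg (ev Q) hΨ
  rw [map_mul, map_mul, map_pow, map_pow, ev_tt, ev_zz] at h1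
  have h2 : (Q.z + h + Q.z) ≠ 0 := by
    have := Q.ne
    intro h3
    apply this
    linear_combination h3
  have h3 : (Q.z + h + Q.z) ^ (a + 1) * ev Q Φ = 0 := by
    rw [h1]
    simp
  rcases mul_eq_zero.1 h3 with h4 | h4
  · exact absurd (pow_eq_zero_iff (by omega) |>.1 h4) h2
  · exact h4

theorem V_succ (Q : Pt h E) {a : ℕ} {Φ Ψ : O h E} (h1 : zz Q * Φ = tt Q * Ψ) :
    V Q (a + 1) Φ ↔ V Q a Ψ := by
  constructor
  · rintro ⟨Θ, hΘ⟩
    refine ⟨Θ, ?_⟩
    apply tt_cancel Q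
    linear_combination hΘ - zz Q ^ a * h1
  · rintro ⟨Θ, hΘ⟩
    refine ⟨Θ, ?_⟩
    linear_combination tt Q * hΘ + zz Q ^ a * h1

theorem V_mono_one (Q : Pt h E) {a : ℕ} : ∀ {Φ : O h E}, V Q (a + 1) Φ → V Q a Φ := by
  induction a with
  | zero => exact fun _ => V_zero _ _
  | succ a ih =>
    intro Φ H
    have h1 := theta_spec' Q (V_ev Q H)
    exact (V_succ Q h1).2 (ih ((V_succ Q h1).1 H))

theorem V_mono (Q : Pt h E) {a b : ℕ} (hab : a ≤ b) {Φ : O h E} (H : V Q b Φ) : V Q a Φ := by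
  induction hab with
  | refl => exact H
  | step _ ih => exact ih (V_mono_one Q H)

/-- the operators `θ` and the orders of vanishing -/
theorem V_iff (Q : Pt h E) (a : ℕ) : ∀ (Φ : O h E),
    V Q a Φ ↔ ∀ l < a, ev Q ((theta Q)^[l] Φ) = 0 := by
  induction a with
  | zero => exact fun Φ => ⟨fun _ l hl => absurd hl (by omega), fun _ => V_zero _ _⟩
  | succ a ih =>
    intro Φ
    constructor
    · intro H l hl
      have h0 := V_ev Q H
      have h1 := theta_spec' Q h0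
      have h2 := (ih _).1 ((V_succ Q h1).1 H)
      rcases l with _ | l
      · exact h0
      · rw [Function.iterate_succ_apply]
        exact h2 l (by omega)
    · intro H
      have h0 : ev Q Φ = 0 := H 0 (by omega)
      have h1 := theta_spec' Q h0
      refine (V_succ Q h1).2 ((ih _).2 fun l hl => ?_)
      rw [← Function.iterate_succ_apply]
      exact H (l + 1) (by omega)

theorem theta_iter (Q : Pt h E) (a : ℕ) : ∀ {Φ : O h E}, V Q a Φ →
    zz Q ^ a * Φ = tt Q ^ a * (theta Q)^[a] Φ := by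
  induction a with
  | zero => intro Φ _; simp
  | succ a ih =>
    intro Φ H
    have h1 := theta_spec' Q (V_ev Q H)
    have h2 := ih ((V_succ Q h1).1 H)
    rw [Function.iterate_succ_apply]
    linear_combination tt Q * h2 + zz Q ^ a * h1

/-- a power of `t - t(P)` which divides `(t - t(Q)) Φ` divides `Φ` -/
theorem tt_coprime {P Q : Pt h E} (hPQ : P.t ≠ Q.t) (a : ℕ) {Φ Θ : O h E}
    (H : tt Q * Φ = tt P ^ a * Θ) : ∃ Ψ : O h E, Φ = tt P ^ a * Ψ := by
  have hp : ∀ (k : ℕ) (Θ : O h E), tt P ^ k * Θ = ⟨(X - C P.t) ^ k * Θ.re, (X - C P.t) ^ k * Θ.im⟩ := by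
    intro k
    induction k with
    | zero => intro Θ; simp
    | succ k ih =>
      intro Θ
      rw [pow_succ, mul_assoc, ih, tt_mul]
      ext1
      · simp only; ring
      · simp only; ring
  rw [hp, tt_mul] at H
  have h1 := congrArg QuadraticAlgebra.re H
  have h2 := congrArg QuadraticAlgebra.im H
  simp only at h1 h2
  have hprime : Prime (X - C P.t : A[X]) := prime_X_sub_C _
  have hnd : ¬ (X - C P.t : A[X]) ∣ (X - C Q.t) := by
    rw [Polynomial.dvd_iff_isRoot, Polynomial.IsRoot.def]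
    simp only [eval_sub, eval_X, eval_C]
    exact sub_ne_zero.2 hPQ
  obtain ⟨A, hA⟩ := hprime.pow_dvd_of_dvd_mul_left a hnd (Dvd.intro _ h1.symm)
  obtain ⟨B, hB⟩ := hprime.pow_dvd_of_dvd_mul_left a hnd (Dvd.intro _ h2.symm)
  refine ⟨⟨A, B⟩, ?_⟩
  rw [hp]
  ext1
  · exact hA
  · exact hB

theorem V_other {P Q : Pt h E} (hPQ : P.t ≠ Q.t) {a : ℕ} {Φ Ψ : O h E}
    (h1 : zz Q * Φ = tt Q * Ψ) (H : V P a Φ) : V P a Ψ := by
  obtain ⟨Θ, hΘ⟩ := H
  have h2 : tt Q * (zz P ^ a * Ψ) = tt P ^ a * (zz Q * Θ) := by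
    linear_combination (- zz P ^ a) * h1 + zz Q * hΘ
  exact tt_coprime hPQ a h2

theorem V_other_iter {P Q : Pt h E} (hPQ : P.t ≠ Q.t) {a : ℕ} (l : ℕ) : ∀ {Φ : O h E},
    V Q l Φ → V P a Φ → V P a ((theta Q)^[l] Φ) := by
  induction l with
  | zero => exact fun _ H => H
  | succ l ih =>
    intro Φ H H'
    have h1 := theta_spec' Q (V_ev Q H)
    rw [Function.iterate_succ_apply]
    exact ih ((V_succ Q h1).1 H) (V_other hPQ h1 H')

end Gen

section Int

variable {h : ℤ} {E : ℤ[X]}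

/-- `(t(P) - t(Q)) / gcd(t(P) - t(Q), z(P) - z(Q*))` -/
def dd (Q P : Pt h E) : ℤ := (P.t - Q.t) / (Int.gcd (P.t - Q.t) (P.z + h + Q.z) : ℤ)

/-- one step of the divisibility -/
theorem exists_step {P Q : Pt h E} (hPQ : P.t ≠ Q.t) {a : ℕ} {Φ : O h E} (H : V Q (a + 1) Φ) :
    ∃ Ψ : O h E, ev P Φ = dd Q P * ev P Ψ ∧ V Q a Ψ ∧
      ∀ (R : Pt h E) (b : ℕ), R.t ≠ Q.t → V R b Φ → V R b Ψ := by
  set g : ℤ := (Int.gcd (P.t - Q.t) (P.z + h + Q.z) : ℤ) with hg
  have hne : P.t - Q.t ≠ 0 := sub_ne_zero.2 hPQ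
  have hg0 : g ≠ 0 := by
    rw [hg]
    exact_mod_cast (Int.gcd_pos_of_ne_zero_left _ hne).ne'
  set u : ℤ := Int.gcdA (P.t - Q.t) (P.z + h + Q.z)
  set v : ℤ := Int.gcdB (P.t - Q.t) (P.z + h + Q.z)
  have hbez : g = (P.t - Q.t) * u + (P.z + h + Q.z) * v := Int.gcd_eq_gcd_ab _ _
  have h1 := theta_spec' Q (V_ev Q H)
  have h2 := (V_succ Q h1).1 H
  refine ⟨cc u * Φ + cc v * theta Q Φ, ?_, ?_, ?_⟩
  · have h3 := congrArg (ev P) h1
    rw [map_mul, map_mul, ev_zz, ev_tt] at h3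
    have h4 : g * ev P Φ = (P.t - Q.t) * ev P (cc u * Φ + cc v * theta Q Φ) := by
      rw [map_add, map_mul, map_mul, ev_cc, ev_cc, hbez]
      linear_combination v * h3
    have h5 : (P.t - Q.t) = dd Q P * g := by
      rw [dd, ← hg, Int.ediv_mul_cancel]
      exact Int.gcd_dvd_left ..
    apply mul_left_cancel₀ hg0
    linear_combination h4 + (ev P (cc u * Φ + cc v * theta Q Φ)) * h5
  · exact V_add Q (V_mul Q _ (V_mono_one Q H)) (V_mul Q _ h2)
  · intro R b hR HR
    exact V_add R (V_mul R _ HR) (V_mul R _ (V_other hR h1 HR))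

/-- **Divisibility of the values.** -/
theorem dvd_ev {ι : Type*} [DecidableEq ι] (pt : ι → Pt h E)
    (hinj : ∀ i j, i ≠ j → (pt i).t ≠ (pt j).t) (P : Pt h E) (L : List ι)
    (hL : ∀ i ∈ L, (pt i).t ≠ P.t) : ∀ (Φ : O h E), (∀ i, V (pt i) (L.count i) Φ) →
    (L.map fun i => dd (pt i) P).prod ∣ ev P Φ := by
  induction L with
  | nil => intro Φ _; simp
  | cons i L ih =>
    intro Φ H
    have h1 : V (pt i) (L.count i + 1) Φ := by
      have := H i
      rwa [List.count_cons_self] at this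
    obtain ⟨Ψ, h2, h3, h4⟩ := exists_step (P := P)
      (fun h => hL i (List.mem_cons_self ..) h.symm) h1
    rw [List.map_cons, List.prod_cons, h2]
    refine mul_dvd_mul_left _ (ih (fun j hj => hL j (List.mem_cons_of_mem _ hj)) Ψ fun j => ?_)
    by_cases hj : j = i
    · rw [hj]; exact h3
    · have h5 := H j
      rw [List.count_cons_of_ne (fun h => hj h.symm)] at h5
      exact h4 _ _ (hinj j i hj) h5

end Int

end Pool.Five
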