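import Mathlib

set_option autoImplicit false

/-!
TEAM TT-FIVE, positivity of the height pairing, part 2: the determinant lemma.
-/

namespace Pool.Five

open Matrix

private theorem pos2_sum {s : ℕ} (f : Fin (s + 1) → ℤ) (j : Fin (s + 1)) (c : Fin s → ℤ) :
    ∑ k, f k * (j.insertNth (0 : ℤ) c : Fin (s + 1) → ℤ) k = ∑ k, f (j.succAbove k) * c k := by
  rw [Fin.sum_univ_succAbove _ j]
  simp

/-- **The determinant lemma.** -/
theorem det_key : ∀ (s : ℕ) (Λ : Matrix (Fin s) (Fin s) ℤ) (w : Fin s → ℝ) (_ : ∀ j, 0 < w j)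
    (N : Fin s → ℤ) (_ : ∀ m, N m ≠ 0) (Cb : Fin s → ℝ) (_ : ∀ m, 0 ≤ Cb m)
    (_ : ∀ m (c : Fin s → ℤ), (∀ i < m, ∑ j, Λ i j * c j = 0) → N m ∣ ∑ j, Λ m j * c j)
    (_ : ∀ m (c : Fin s → ℤ) (B : ℝ), (∀ i < m, ∑ j, Λ i j * c j = 0) →
      (∀ j, |(c j : ℝ)| * w j ≤ B) → |((∑ j, Λ m j * c j : ℤ) : ℝ)| ≤ Cb m * B),
    (∏ m, N m ∣ Λ.det) ∧ |(Λ.det : ℝ)| ≤ (∏ m, Cb m) * ∏ j, w j := by
  intro s
  induction s with
  | zero =>
    intro Λ w _ N _ Cb _ _ _
    simp
  | succ s ih =>
    intro Λ w hw N hN Cb hCb H H'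
    set c : Fin (s + 1) → ℤ := fun j => Λ.adjugate j (Fin.last s) with hc
    have hdet : Λ.det = ∑ j, Λ (Fin.last s) j * c j := by
      have h1 := congrFun (congrFun (Matrix.mul_adjugate Λ) (Fin.last s)) (Fin.last s)
      rw [Matrix.mul_apply] at h1
      rw [h1]
      simp
    have hzero : ∀ i < Fin.last s, ∑ j, Λ i j * c j = 0 := by
      intro i hi
      have h1 := congrFun (congrFun (Matrix.mul_adjugate Λ) i) (Fin.last s)
      rw [Matrix.mul_apply] at h1
      rw [h1]
      simp [hi.ne]
    have hcj : ∀ j, c j = (-1) ^ ((Fin.last s : ℕ) + (j : ℕ)) *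
        (Λ.submatrix Fin.castSucc j.succAbove).det := by
      intro j
      rw [hc]
      simp only
      rw [Matrix.adjugate_fin_succ_eq_det_submatrix, Fin.succAbove_last]
    have hmin : ∀ j : Fin (s + 1), (∏ m : Fin s, N m.castSucc ∣ (Λ.submatrix Fin.castSucc j.succAbove).det) ∧
        |((Λ.submatrix Fin.castSucc j.succAbove).det : ℝ)| ≤
          (∏ m : Fin s, Cb m.castSucc) * ∏ k, w (j.succAbove k) := by
      intro j
      apply ih (Λ.submatrix Fin.castSucc j.succAbove) (fun k => w (j.succAbove k))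
        (fun k => hw _) (fun m => N m.castSucc) (fun m => hN _) (fun m => Cb m.castSucc)
        (fun m => hCb _)
      · intro m c' h1
        have h2 := H m.castSucc (j.insertNth 0 c') (fun i hi => by
          rw [pos2_sum]
          have hi' : i ≠ Fin.last s := fun h => by
            rw [h] at hi
            exact absurd hi (not_lt.2 (Fin.le_last _))
          obtain ⟨i', rfl⟩ := Fin.exists_castSucc_eq.2 hi'
          exact h1 i' (by simpa using hi))
        rw [pos2_sum] at h2
        exact h2
      · intro m c' B h1 hB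
        have hB0 : 0 ≤ B := le_trans (mul_nonneg (abs_nonneg _) (hw _).le) (hB m)
        have h2 := H' m.castSucc (j.insertNth 0 c') B (fun i hi => by
          rw [pos2_sum]
          have hi' : i ≠ Fin.last s := fun h => by
            rw [h] at hi
            exact absurd hi (not_lt.2 (Fin.le_last _))
          obtain ⟨i', rfl⟩ := Fin.exists_castSucc_eq.2 hi'
          exact h1 i' (by simpa using hi)) (fun k => by
          rcases Fin.eq_self_or_eq_succAbove j k with rfl | ⟨k', rfl⟩
          · simpa using hB0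
          · simpa using hB k')
        rw [pos2_sum] at h2
        exact h2
    constructor
    · rw [Fin.prod_univ_castSucc]
      set N' : ℤ := ∏ m : Fin s, N m.castSucc with hN'
      have hN0 : N' ≠ 0 := Finset.prod_ne_zero_iff.2 fun m _ => hN _
      have h1 : ∀ j, ∃ c', c j = N' * c' := by
        intro j
        rw [hcj]
        exact Dvd.dvd.mul_left (hmin j).1 _
      choose c' hc' using h1
      have h2 : ∀ i, ∑ j, Λ i j * c j = N' * ∑ j, Λ i j * c' j := by
        intro i
        rw [Finset.mul_sum]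
        refine Finset.sum_congr rfl fun j _ => ?_
        rw [hc']
        ring
      rw [hdet, h2]
      refine mul_dvd_mul_left _ (H _ _ fun i hi => ?_)
      have h3 := hzero i hi
      rw [h2] at h3
      exact (mul_eq_zero.1 h3).resolve_left hN0
    · rw [Fin.prod_univ_castSucc, hdet]
      have h1 : ∀ j, |(c j : ℝ)| * w j ≤ (∏ m : Fin s, Cb m.castSucc) * ∏ j, w j := by
        intro j
        rw [hcj, Fin.prod_univ_succAbove w j]
        rw [Int.cast_mul, Int.cast_pow, Int.cast_neg, Int.cast_one,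
          abs_mul, abs_pow, abs_neg, abs_one, one_pow, one_mul]
        have h3 := mul_le_mul_of_nonneg_right (hmin j).2 (hw j).le
        linarith
      calc |((∑ j, Λ (Fin.last s) j * c j : ℤ) : ℝ)|
          ≤ Cb (Fin.last s) * ((∏ m : Fin s, Cb m.castSucc) * ∏ j, w j) :=
            H' _ _ _ hzero h1
        _ = _ := by ring

end Pool.Five
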