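import Pool.Agent.Lib.MP_695920_nt.TT.Five.Pos1

set_option autoImplicit false

/-!
TEAM TT-FIVE, positivity of the height pairing, part 3: the analytic estimate.
-/

open Polynomial Metric Filter Topology

namespace Pool.Five

/-- one step of the Schwarz lemma -/
theorem schwarz_step {R M ρ : ℝ} {g : ℂ → ℂ} (hg : DifferentiableOn ℂ g (ball 0 R))
    (hM : ∀ t ∈ ball (0 : ℂ) R, ‖g t‖ ≤ M) (hρR : ρ < R) {τ : ℂ} (hτ : ‖τ‖ ≤ ρ) (h0 : g τ = 0) :
    ∃ g1 : ℂ → ℂ, DifferentiableOn ℂ g1 (ball 0 R) ∧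
      (∀ t ∈ ball (0 : ℂ) R, g t = (t - τ) * g1 t) ∧
      ∀ t ∈ ball (0 : ℂ) R, ‖g1 t‖ ≤ M / (R - ρ) := by
  have hτR : τ ∈ ball (0 : ℂ) R := by
    rw [mem_ball_zero_iff]
    exact lt_of_le_of_lt hτ hρR
  have hd : DifferentiableOn ℂ (dslope g τ) (ball 0 R) :=
    (Complex.differentiableOn_dslope (isOpen_ball.mem_nhds hτR)).2 hg
  have heq : ∀ t, g t = (t - τ) * dslope g τ t := by
    intro t
    have := sub_smul_dslope g τ t
    rw [smul_eq_mul, h0, sub_zero] at this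
    exact this.symm
  refine ⟨dslope g τ, hd, fun t _ => heq t, fun t ht => ?_⟩
  have hρ0 : 0 ≤ ρ := le_trans (norm_nonneg _) hτ
  have hM0 : 0 ≤ M := le_trans (norm_nonneg _) (hM τ hτR)
  rw [mem_ball_zero_iff] at ht
  set K : ℝ := ‖dslope g τ t‖ with hK
  rw [le_div_iff₀ (by linarith)]
  by_contra hcon
  push Not at hcon
  have hKpos : 0 < K := by
    rcases (norm_nonneg (dslope g τ t)).eq_or_lt with h | h
    · rw [hK, ← h, zero_mul] at hcon
      linarith
    · exact h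
  have h1 : M / K + ρ < R := by
    have : M / K < R - ρ := by
      rw [div_lt_iff₀ hKpos]
      linarith
    linarith
  set a : ℝ := max (max ‖t‖ ρ) (M / K + ρ) with ha
  have haR : a < R := max_lt (max_lt ht hρR) h1
  set r : ℝ := (a + R) / 2 with hr
  have har : a < r := by rw [hr]; linarith
  have hrR : r < R := by rw [hr]; linarith
  have htr : ‖t‖ < r := lt_of_le_of_lt ((le_max_left _ _).trans (le_max_left _ _)) har
  have hρr : ρ < r := lt_of_le_of_lt ((le_max_right _ _).trans (le_max_left _ _)) har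
  have hMr : M / K + ρ < r := lt_of_le_of_lt (le_max_right _ _) har
  have hr0 : r ≠ 0 := by linarith
  have h2 : K ≤ M / (r - ρ) := by
    rw [hK]
    refine Complex.norm_le_of_forall_mem_frontier_norm_le (U := ball 0 r) isBounded_ball
      (hd.diffContOnCl_ball (closedBall_subset_ball hrR)) ?_ ?_
    · intro s hs
      rw [frontier_ball (0 : ℂ) hr0, mem_sphere_zero_iff_norm] at hs
      have hsR : s ∈ ball (0 : ℂ) R := by
        rw [mem_ball_zero_iff, hs]
        exact hrR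
      have h3 := heq s
      have h4 : r - ρ ≤ ‖s - τ‖ := by
        have := norm_sub_norm_le s τ
        rw [hs] at this
        linarith
      have h5 : ‖g s‖ = ‖s - τ‖ * ‖dslope g τ s‖ := by
        rw [h3, norm_mul]
      rw [le_div_iff₀ (by linarith)]
      calc ‖dslope g τ s‖ * (r - ρ) ≤ ‖dslope g τ s‖ * ‖s - τ‖ :=
            mul_le_mul_of_nonneg_left h4 (norm_nonneg _)
        _ = ‖g s‖ := by rw [h5]; ring
        _ ≤ M := hM s hsR
    · exact subset_closure (by rw [mem_ball_zero_iff]; exact htr)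
  rw [le_div_iff₀ (by linarith)] at h2
  have h3 : M < K * (r - ρ) := by
    have : M / K < r - ρ := by linarith
    rw [div_lt_iff₀ hKpos] at this
    linarith
  linarith

/-- **Dividing by many zeros.** -/
theorem factor {ι : Type*} [DecidableEq ι] (τ : ι → ℂ) (hτ : Function.Injective τ) {R ρ : ℝ}
    (hρR : ρ < R) (L : List ι) (hL : ∀ i ∈ L, ‖τ i‖ ≤ ρ) : ∀ (M : ℝ) (g : ℂ → ℂ),
    DifferentiableOn ℂ g (ball 0 R) → (∀ t ∈ ball (0 : ℂ) R, ‖g t‖ ≤ M) →
    (∀ i ∈ L, (L.count i : ℕ∞) ≤ analyticOrderAt g (τ i)) →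
    ∃ k : ℂ → ℂ, DifferentiableOn ℂ k (ball 0 R) ∧
      (∀ t ∈ ball (0 : ℂ) R, g t = (L.map fun i => t - τ i).prod * k t) ∧
      ∀ t ∈ ball (0 : ℂ) R, ‖k t‖ ≤ M / (R - ρ) ^ L.length := by
  induction L with
  | nil =>
    intro M g hg hM _
    exact ⟨g, hg, fun t _ => by simp, fun t ht => by simpa using hM t ht⟩
  | cons i L ih =>
    intro M g hg hM hord
    have hiρ := hL i (List.mem_cons_self ..)
    have hin : ∀ j ∈ (i :: L), τ j ∈ ball (0 : ℂ) R := by
      intro j hj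
      rw [mem_ball_zero_iff]
      exact lt_of_le_of_lt (hL j hj) hρR
    have h0 : g (τ i) = 0 := by
      apply apply_eq_zero_of_analyticOrderAt_ne_zero
      intro h
      have h1 := hord i (List.mem_cons_self ..)
      rw [h, List.count_cons_self] at h1
      simp at h1
    obtain ⟨g1, hg1, h2, h3⟩ := schwarz_step hg hM hρR hiρ h0
    obtain ⟨k, hk, h4, h5⟩ := ih (fun j hj => hL j (List.mem_cons_of_mem _ hj)) (M / (R - ρ)) g1
      hg1 h3 (fun j hj => by
        have hj' := hin j (List.mem_cons_of_mem _ hj)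
        have hnhds : ball (0 : ℂ) R ∈ 𝓝 (τ j) := isOpen_ball.mem_nhds hj'
        have hg1a : AnalyticAt ℂ g1 (τ j) := hg1.analyticAt hnhds
        have hid : AnalyticAt ℂ (fun t : ℂ => t - τ i) (τ j) := by fun_prop
        have heq : analyticOrderAt g (τ j) =
            analyticOrderAt (fun t : ℂ => t - τ i) (τ j) + analyticOrderAt g1 (τ j) := by
          rw [← analyticOrderAt_mul hid hg1a]
          apply analyticOrderAt_congr
          filter_upwards [hnhds] with t ht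
          exact h2 t ht
        have h6 := hord j (List.mem_cons_of_mem _ hj)
        rw [heq] at h6
        by_cases hji : j = i
        · subst hji
          rw [List.count_cons_self] at h6
          have h7 : analyticOrderAt (fun t : ℂ => t - τ j) (τ j) = 1 :=
            analyticOrderAt_id_sub_const_self
          rw [h7, add_comm (1 : ℕ∞)] at h6
          push_cast at h6
          exact (ENat.add_le_add_iff_right (by simp)).1 h6
        · rw [List.count_cons_of_ne (fun h => hji h.symm)] at h6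
          have h7 : analyticOrderAt (fun t : ℂ => t - τ i) (τ j) = 0 :=
            analyticOrderAt_id_sub_const_of_ne (fun h => hji (hτ h))
          rw [h7, zero_add] at h6
          exact h6)
    refine ⟨k, hk, fun t ht => ?_, fun t ht => ?_⟩
    · rw [h2 t ht, h4 t ht, List.map_cons, List.prod_cons, mul_assoc]
    · have := h5 t ht
      rwa [div_div, ← pow_succ', ← List.length_cons (a := i)] at this

variable {h : ℤ} {E : ℤ[X]}

/-- the value of `Φ` on the sheet `z = Y(t)` -/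
noncomputable def sh (Y : ℂ → ℂ) (Φ : O h E) (t : ℂ) : ℂ :=
  Polynomial.aeval t Φ.re + Polynomial.aeval t Φ.im * Y t

/-- the evaluation as a ring homomorphism -/
noncomputable def shHom (Y : ℂ → ℂ) (t : ℂ)
    (hY : Y t * Y t + (h : ℂ) * Y t = Polynomial.aeval t E) : O h E →+* ℂ :=
  evg (Polynomial.aeval t : ℤ[X] →ₐ[ℤ] ℂ).toRingHom (Y t) (by simpa using hY)

theorem shHom_apply (Y : ℂ → ℂ) (t : ℂ)
    (hY : Y t * Y t + (h : ℂ) * Y t = Polynomial.aeval t E) (Φ : O h E) :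
    shHom Y t hY Φ = sh Y Φ t := rfl

theorem sh_mul {Y : ℂ → ℂ} {t : ℂ}
    (hY : Y t * Y t + (h : ℂ) * Y t = Polynomial.aeval t E) (Φ Ψ : O h E) :
    sh Y (Φ * Ψ) t = sh Y Φ t * sh Y Ψ t := by
  rw [← shHom_apply Y t hY, map_mul]; rfl

theorem sh_pow {Y : ℂ → ℂ} {t : ℂ}
    (hY : Y t * Y t + (h : ℂ) * Y t = Polynomial.aeval t E) (Φ : O h E) (a : ℕ) :
    sh Y (Φ ^ a) t = sh Y Φ t ^ a := by
  rw [← shHom_apply Y t hY, map_pow]; rfl

theorem sh_tt (Y : ℂ → ℂ) (Q : Pt h E) (t : ℂ) : sh Y (tt Q) t = t - Q.t := by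
  simp [sh, tt]

theorem sh_zz (Y : ℂ → ℂ) (Q : Pt h E) (t : ℂ) : sh Y (zz Q) t = h + Q.z + Y t := by
  simp [sh, zz]

theorem sh_pt {Y : ℂ → ℂ} {Q : Pt h E} (hQ : Y Q.t = Q.z) (Φ : O h E) :
    sh Y Φ Q.t = (ev Q Φ : ℤ) := by
  have h1 : ∀ p : ℤ[X], Polynomial.aeval (Q.t : ℂ) p = ((p.eval Q.t : ℤ) : ℂ) := by
    intro p
    have := Polynomial.aeval_algebraMap_apply ℂ (Q.t : ℤ) p
    simpa using this
  rw [sh, h1, h1, hQ, ev_apply]
  push_cast
  rfl

theorem sh_diff {Y : ℂ → ℂ} {R : ℝ} (hY : DifferentiableOn ℂ Y (ball 0 R)) (Φ : O h E) :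
    DifferentiableOn ℂ (sh Y Φ) (ball 0 R) := by
  have h1 : ∀ p : ℤ[X], Differentiable ℂ fun t : ℂ => Polynomial.aeval t p := fun p => by
    exact Polynomial.differentiable_aeval p
  exact (h1 _).differentiableOn.add ((h1 _).differentiableOn.mul hY)

/-- order of vanishing, from `V` -/
theorem order_of_V {Y : ℂ → ℂ} {R : ℝ} (hY : DifferentiableOn ℂ Y (ball 0 R))
    (hYE : ∀ t ∈ ball (0 : ℂ) R, Y t * Y t + (h : ℂ) * Y t = Polynomial.aeval t E)
    {Q : Pt h E} (hQR : (Q.t : ℂ) ∈ ball (0 : ℂ) R) (hQ : Y Q.t = Q.z) {a : ℕ} {Φ : O h E}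
    (H : V Q a Φ) : (a : ℕ∞) ≤ analyticOrderAt (sh Y Φ) (Q.t : ℂ) := by
  obtain ⟨Ψ, hΨ⟩ := H
  have hnhds : ball (0 : ℂ) R ∈ 𝓝 (Q.t : ℂ) := isOpen_ball.mem_nhds hQR
  have hYa : AnalyticAt ℂ Y (Q.t : ℂ) := hY.analyticAt hnhds
  have hu : AnalyticAt ℂ (fun t => (h : ℂ) + Q.z + Y t) (Q.t : ℂ) := analyticAt_const.add hYa
  have hΦa : AnalyticAt ℂ (sh Y Φ) (Q.t : ℂ) := (sh_diff hY Φ).analyticAt hnhds
  have hΨa : AnalyticAt ℂ (sh Y Ψ) (Q.t : ℂ) := (sh_diff hY Ψ).analyticAt hnhds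
  have hu0 : analyticOrderAt ((fun t => (h : ℂ) + Q.z + Y t) ^ a) (Q.t : ℂ) = 0 := by
    rw [analyticOrderAt_pow hu]
    have : analyticOrderAt (fun t => (h : ℂ) + Q.z + Y t) (Q.t : ℂ) = 0 := by
      rw [hu.analyticOrderAt_eq_zero, hQ]
      intro h1
      apply Q.ne
      have h2 : ((2 * Q.z + h : ℤ) : ℂ) = 0 := by
        push_cast
        linear_combination h1
      exact_mod_cast h2
    rw [this]
    simp
  have h1 : analyticOrderAt ((fun t => (h : ℂ) + Q.z + Y t) ^ a * sh Y Φ) (Q.t : ℂ) =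
      analyticOrderAt (sh Y Φ) (Q.t : ℂ) := by
    rw [analyticOrderAt_mul (hu.pow a) hΦa, hu0, zero_add]
  rw [← h1, natCast_le_analyticOrderAt ((hu.pow a).mul hΦa)]
  refine ⟨sh Y Ψ, hΨa, ?_⟩
  filter_upwards [hnhds] with t ht
  have h2 : sh Y (zz Q ^ a * Φ) t = sh Y (tt Q ^ a * Ψ) t := by rw [hΨ]
  rw [sh_mul (hYE t ht), sh_mul (hYE t ht), sh_pow (hYE t ht), sh_pow (hYE t ht), sh_zz, sh_tt]
    at h2
  rw [smul_eq_mul]
  exact h2

theorem prod_split {α ι : Type*} [CommMonoid α] [DecidableEq ι] (f : ι → α) (c : α) (p : ι)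
    (L : List ι) : (L.map fun i => if i = p then c else f i).prod =
      c ^ L.count p * (L.map fun i => if i = p then 1 else f i).prod := by
  induction L with
  | nil => simp
  | cons i L ih =>
    rw [List.map_cons, List.prod_cons, List.map_cons, List.prod_cons, ih]
    by_cases hi : i = p
    · subst hi
      rw [if_pos rfl, if_pos rfl, List.count_cons_self, one_mul, pow_succ']
      rw [mul_assoc]
    · rw [if_neg hi, if_neg hi, List.count_cons_of_ne hi]
      exact mul_left_comm _ _ _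

/-- the local factor of the size estimate -/
def kk (Q P : Pt h E) : ℝ := if Q.t = P.t then |((2 * P.z + h : ℤ) : ℝ)| else |((P.t - Q.t : ℤ) : ℝ)|

theorem norm_prod_if {ι : Type*} [DecidableEq ι] (t : ι → ℤ) (p : ι) (L : List ι) :
    (L.map fun i => if i = p then (1 : ℝ) else |((t p - t i : ℤ) : ℝ)|).prod =
      ‖(L.map fun i => if i = p then (1 : ℂ) else ((t p : ℤ) : ℂ) - ((t i : ℤ) : ℂ)).prod‖ := by
  induction L with
  | nil => simp
  | cons j L ih =>
    rw [List.map_cons, List.prod_cons, ih, List.map_cons, List.prod_cons, norm_mul]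
    congr 1
    by_cases hj : j = p
    · simp [hj]
    · rw [if_neg hj, if_neg hj]
      have h1 : ((t p : ℤ) : ℂ) - ((t j : ℤ) : ℂ) = ((t p - t j : ℤ) : ℂ) := by push_cast; rfl
      rw [h1, Complex.norm_intCast]

/-- **The size of the leading coefficient.** -/
theorem size {Y : ℂ → ℂ} {R : ℝ} (hY : DifferentiableOn ℂ Y (ball 0 R))
    (hYE : ∀ t ∈ ball (0 : ℂ) R, Y t * Y t + (h : ℂ) * Y t = Polynomial.aeval t E)
    {ι : Type*} [DecidableEq ι] (pt : ι → Pt h E) (hinj : ∀ i j, i ≠ j → (pt i).t ≠ (pt j).t)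
    {ρ : ℝ} (hρR : ρ < R) (hρ : ∀ i, |((pt i).t : ℝ)| ≤ ρ) (L : List ι) (p : ι)
    (hL : ∀ i ∈ L, Y (pt i).t = (pt i).z) (hp : Y (pt p).t = (pt p).z) {M : ℝ} (Φ : O h E)
    (hV : ∀ i ∈ L, V (pt i) (L.count i) Φ) (hM : ∀ t ∈ ball (0 : ℂ) R, ‖sh Y Φ t‖ ≤ M) :
    |((ev (pt p) ((theta (pt p))^[L.count p] Φ) : ℤ) : ℝ)| ≤
      (L.map fun i => kk (pt i) (pt p)).prod * (M / (R - ρ) ^ L.length) := by
  have hρ' : ∀ i, ‖((pt i).t : ℂ)‖ ≤ ρ := by
    intro i
    have := hρ i
    rw [← Int.cast_abs] at this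
    rwa [Complex.norm_intCast, ← Int.cast_abs]
  have hball : ∀ i, ((pt i).t : ℂ) ∈ ball (0 : ℂ) R := by
    intro i
    rw [mem_ball_zero_iff]
    exact lt_of_le_of_lt (hρ' i) hρR
  obtain ⟨k, hk, h1, h2⟩ := factor (fun i => ((pt i).t : ℂ)) (fun i j hij => by
      by_contra hne
      have h3 : ((pt i).t : ℂ) = ((pt j).t : ℂ) := hij
      exact hinj i j hne (by exact_mod_cast h3)) hρR L (fun i _ => hρ' i) M (sh Y Φ)
      (sh_diff hY Φ) hM (fun i hi => order_of_V hY hYE (hball i) (hL i hi) (hV i hi))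
  set a : ℕ := L.count p with ha
  have hVp : V (pt p) a Φ := by
    by_cases hpL : p ∈ L
    · exact hV p hpL
    · have : a = 0 := List.count_eq_zero.2 hpL
      rw [this]
      exact V_zero _ _
  have h3 := theta_iter (pt p) a hVp
  set Θ : O h E := (theta (pt p))^[a] Φ with hΘ
  set F : ℂ → ℂ := sh Y Θ with hF
  set G : ℂ → ℂ := fun t => ((h : ℂ) + (pt p).z + Y t) ^ a *
    (L.map fun i => if i = p then 1 else t - ((pt i).t : ℂ)).prod * k t with hG
  have hnhds : ball (0 : ℂ) R ∈ 𝓝 ((pt p).t : ℂ) := isOpen_ball.mem_nhds (hball p)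
  have h4 : ∀ t ∈ ball (0 : ℂ) R, t ≠ ((pt p).t : ℂ) → F t = G t := by
    intro t ht htp
    have h5 : sh Y (zz (pt p) ^ a * Φ) t = sh Y (tt (pt p) ^ a * Θ) t := by rw [h3]
    rw [sh_mul (hYE t ht), sh_mul (hYE t ht), sh_pow (hYE t ht), sh_pow (hYE t ht), sh_zz, sh_tt]
      at h5
    have h6 := h1 t ht
    have h7 : (L.map fun i => t - ((pt i).t : ℂ)) =
        L.map fun i => if i = p then (t - ((pt p).t : ℂ)) else (t - ((pt i).t : ℂ)) := by
      refine List.map_congr_left fun i _ => ?_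
      by_cases hi : i = p
      · rw [if_pos hi, hi]
      · rw [if_neg hi]
    rw [h7, prod_split (fun i => t - ((pt i).t : ℂ)) (t - ((pt p).t : ℂ)) p L] at h6
    have h8 : (t - ((pt p).t : ℂ)) ^ a ≠ 0 := pow_ne_zero _ (sub_ne_zero.2 htp)
    apply mul_left_cancel₀ h8
    rw [← h5, h6]
    simp only [hG]
    ring
  have hFc : ContinuousAt F ((pt p).t : ℂ) :=
    ((sh_diff hY Θ).differentiableAt hnhds).continuousAt
  have hGc : ContinuousAt G ((pt p).t : ℂ) := by
    have hYc : ContinuousAt Y ((pt p).t : ℂ) := (hY.differentiableAt hnhds).continuousAt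
    have hkc : ContinuousAt k ((pt p).t : ℂ) := (hk.differentiableAt hnhds).continuousAt
    have hprod : ContinuousAt (fun t : ℂ =>
        (L.map fun i => if i = p then 1 else t - ((pt i).t : ℂ)).prod) ((pt p).t : ℂ) := by
      apply Continuous.continuousAt
      apply continuous_list_prod
      intro i _
      by_cases hi : i = p
      · simp only [hi, if_true]
        exact continuous_const
      · simp only [hi, if_false]
        fun_prop
    exact (((continuousAt_const.add hYc).pow a).mul hprod).mul hkc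
  have hFG : F ((pt p).t : ℂ) = G ((pt p).t : ℂ) := by
    have h5 : Tendsto F (𝓝[≠] ((pt p).t : ℂ)) (𝓝 (F ((pt p).t : ℂ))) :=
      hFc.tendsto.mono_left nhdsWithin_le_nhds
    have h6 : Tendsto G (𝓝[≠] ((pt p).t : ℂ)) (𝓝 (G ((pt p).t : ℂ))) :=
      hGc.tendsto.mono_left nhdsWithin_le_nhds
    refine tendsto_nhds_unique h5 (h6.congr' ?_)
    have h7 : ∀ᶠ t in 𝓝[≠] ((pt p).t : ℂ), t ∈ ball (0 : ℂ) R :=
      mem_nhdsWithin_of_mem_nhds hnhds
    filter_upwards [h7, self_mem_nhdsWithin] with t ht htp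
    exact (h4 t ht htp).symm
  have h5 : ((ev (pt p) Θ : ℤ) : ℂ) = F ((pt p).t : ℂ) := (sh_pt hp Θ).symm
  have h6 : |((ev (pt p) Θ : ℤ) : ℝ)| = ‖F ((pt p).t : ℂ)‖ := by
    rw [← h5, Complex.norm_intCast]
  rw [h6, hFG]
  simp only [hG]
  rw [norm_mul, norm_mul, norm_pow, hp]
  have h7 : (L.map fun i => kk (pt i) (pt p)).prod =
      ‖(h : ℂ) + (pt p).z + (pt p).z‖ ^ a *
        ‖(L.map fun i => if i = p then 1 else ((pt p).t : ℂ) - ((pt i).t : ℂ)).prod‖ := by
    have h8 : (L.map fun i => kk (pt i) (pt p)) = L.map fun i =>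
        if i = p then ‖(h : ℂ) + (pt p).z + (pt p).z‖ else |(((pt p).t - (pt i).t : ℤ) : ℝ)| := by
      refine List.map_congr_left fun i _ => ?_
      by_cases hi : i = p
      · rw [if_pos hi, hi, kk, if_pos rfl]
        have h9 : (h : ℂ) + (pt p).z + (pt p).z = ((2 * (pt p).z + h : ℤ) : ℂ) := by
          push_cast
          ring
        rw [h9, Complex.norm_intCast]
      · rw [if_neg hi, kk, if_neg (hinj i p hi)]
    rw [h8, prod_split, norm_prod_if (fun i => (pt i).t)]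
  rw [h7]
  exact mul_le_mul_of_nonneg_left (h2 _ (hball p)) (mul_nonneg (pow_nonneg (norm_nonneg _) _)
    (norm_nonneg _))

end Pool.Five
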