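import Mathlib

set_option autoImplicit false

/-!
TEAM TWOTORSION, n = 5: some columns of low degree have a nonzero determinant.
-/

open Polynomial Module

namespace Pool.TTF

/-- the pairs `(t ^ a, 0)` and `(0, t ^ a)` -/
noncomputable def mono (c : ℕ × Bool) : ℂ[X] × ℂ[X] :=
  if c.2 then (0, X ^ c.1) else (X ^ c.1, 0)

namespace RankE

variable {s : ℕ} (L : (ℂ[X] × ℂ[X]) →ₗ[ℂ] (Fin s → ℂ))

/-- the pairs of degree `< k` -/
noncomputable def E (k : ℕ) : Submodule ℂ (ℂ[X] × ℂ[X]) := (degreeLT ℂ k).prod (degreeLT ℂ k)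

theorem mem_E {k : ℕ} {v : ℂ[X] × ℂ[X]} : v ∈ E k ↔ v.1.degree < k ∧ v.2.degree < k := by
  rw [E, Submodule.mem_prod, mem_degreeLT, mem_degreeLT]

theorem E_mono {k l : ℕ} (h : k ≤ l) : E k ≤ E l := fun v hv => by
  rw [mem_E] at hv ⊢
  have : (k : WithBot ℕ) ≤ l := by exact_mod_cast h
  exact ⟨lt_of_lt_of_le hv.1 this, lt_of_lt_of_le hv.2 this⟩

/-- the image -/
noncomputable def Rk (k : ℕ) : Submodule ℂ (Fin s → ℂ) := (E k).map L

theorem Rk_mono {k l : ℕ} (h : k ≤ l) : Rk L k ≤ Rk L l := Submodule.map_mono (E_mono h)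

theorem degree_divX_lt {A : ℂ[X]} {m : ℕ} (h : A.degree < ((m + 1 : ℕ) : WithBot ℕ)) :
    A.divX.degree < m := by
  rw [degree_lt_iff_coeff_zero] at h ⊢
  intro k hk
  rw [coeff_divX]
  exact h (k + 1) (by omega)

theorem degree_X_mul_lt {A : ℂ[X]} {m : ℕ} (h : A.degree < m) :
    (X * A).degree < ((m + 1 : ℕ) : WithBot ℕ) := by
  rw [degree_lt_iff_coeff_zero] at h ⊢
  intro k hk
  obtain ⟨k, rfl⟩ : ∃ l, k = l + 1 := ⟨k - 1, by omega⟩
  rw [coeff_X_mul]
  exact h k (by omega)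

theorem stable (hX : ∀ A B : ℂ[X], L (A, B) = 0 → L (X * A, X * B) = 0) (k : ℕ)
    (h : Rk L (k + 1) ≤ Rk L k) (m : ℕ) : ∀ v ∈ E m, L v ∈ Rk L k := by
  induction m with
  | zero =>
    intro v hv
    rw [mem_E] at hv
    have h1 : v.1 = 0 := by
      have := hv.1
      rw [Nat.cast_zero, ← degree_one (R := ℂ)] at this
      by_contra h0
      rw [degree_one, degree_eq_natDegree h0] at this
      exact absurd this (by simp)
    have h2 : v.2 = 0 := by
      have := hv.2
      rw [Nat.cast_zero, ← degree_one (R := ℂ)] at this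
      by_contra h0
      rw [degree_one, degree_eq_natDegree h0] at this
      exact absurd this (by simp)
    have h3 : v = 0 := Prod.ext h1 h2
    rw [h3, map_zero]
    exact Submodule.zero_mem _
  | succ m ih =>
    rintro ⟨A, B⟩ hv
    rw [mem_E] at hv
    apply h
    obtain ⟨⟨w1, w2⟩, hw, hwL⟩ := ih (A.divX, B.divX)
      (mem_E.2 ⟨degree_divX_lt hv.1, degree_divX_lt hv.2⟩)
    have h0 : L (A.divX - w1, B.divX - w2) = 0 := by
      have : ((A.divX - w1, B.divX - w2) : ℂ[X] × ℂ[X]) = (A.divX, B.divX) - (w1, w2) := rfl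
      rw [this, map_sub, hwL, sub_self]
    have h1 := hX _ _ h0
    refine ⟨(X * w1 + C (A.coeff 0), X * w2 + C (B.coeff 0)), mem_E.2 ⟨?_, ?_⟩, ?_⟩
    · refine lt_of_le_of_lt (degree_add_le _ _) (max_lt (degree_X_mul_lt (mem_E.1 hw).1) ?_)
      exact lt_of_le_of_lt degree_C_le (by exact_mod_cast Nat.succ_pos k)
    · refine lt_of_le_of_lt (degree_add_le _ _) (max_lt (degree_X_mul_lt (mem_E.1 hw).2) ?_)
      exact lt_of_le_of_lt degree_C_le (by exact_mod_cast Nat.succ_pos k)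
    · have e1 : ((X * w1 + C (A.coeff 0), X * w2 + C (B.coeff 0)) : ℂ[X] × ℂ[X]) =
          (A, B) - (X * (A.divX - w1), X * (B.divX - w2)) := by
        have hA := divX_mul_X_add A
        have hB := divX_mul_X_add B
        refine Prod.ext ?_ ?_
        · show X * w1 + C (A.coeff 0) = A - X * (A.divX - w1)
          nth_rw 2 [← hA]
          ring
        · show X * w2 + C (B.coeff 0) = B - X * (B.divX - w2)
          nth_rw 2 [← hB]
          ring
      rw [e1, map_sub, h1, sub_zero]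

theorem exists_mem (v : ℂ[X] × ℂ[X]) : ∃ m, v ∈ E m := by
  refine ⟨v.1.natDegree + v.2.natDegree + 1, mem_E.2 ⟨?_, ?_⟩⟩
  · exact lt_of_le_of_lt degree_le_natDegree (Nat.cast_lt.2 (by omega))
  · exact lt_of_le_of_lt degree_le_natDegree (Nat.cast_lt.2 (by omega))

theorem step (hX : ∀ A B : ℂ[X], L (A, B) = 0 → L (X * A, X * B) = 0)
    (hsurj : Function.Surjective L) (k : ℕ) :
    min s (finrank ℂ (Rk L k) + 1) ≤ finrank ℂ (Rk L (k + 1)) := by
  by_cases h : Rk L (k + 1) ≤ Rk L k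
  · have htop : Rk L (k + 1) = ⊤ := by
      rw [eq_top_iff]
      intro u _
      obtain ⟨v, rfl⟩ := hsurj u
      obtain ⟨m, hm⟩ := exists_mem v
      exact Rk_mono L (Nat.le_succ k) (stable L hX k h m v hm)
    rw [htop, finrank_top, finrank_fin_fun]
    exact min_le_left _ _
  · have h1 : Rk L k < Rk L (k + 1) :=
      lt_of_le_not_ge (Rk_mono L (Nat.le_succ k)) h
    have := Submodule.finrank_lt_finrank_of_lt h1
    exact (min_le_right _ _).trans this

theorem steps (hX : ∀ A B : ℂ[X], L (A, B) = 0 → L (X * A, X * B) = 0)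
    (hsurj : Function.Surjective L) (k j : ℕ) :
    min s (finrank ℂ (Rk L k) + j) ≤ finrank ℂ (Rk L (k + j)) := by
  induction j with
  | zero => simp
  | succ j ih =>
    have h := step L hX hsurj (k + j)
    have e : k + (j + 1) = k + j + 1 := rfl
    rw [e]
    omega

theorem low (n : ℕ) (hinj : ∀ (k : ℕ) (A B : ℂ[X]), 2 * k + n < s + 2 → A.degree < k →
    B.degree < k → L (A, B) = 0 → A = 0 ∧ B = 0) (k : ℕ) (hk : 2 * k + n < s + 2) :
    2 * k ≤ finrank ℂ (Rk L k) := by
  let Φ : (degreeLT ℂ k × degreeLT ℂ k) →ₗ[ℂ] (Fin s → ℂ) :=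
    L ∘ₗ ((degreeLT ℂ k).subtype.prodMap (degreeLT ℂ k).subtype)
  have hΦ : Function.Injective Φ := by
    rw [← LinearMap.ker_eq_bot, LinearMap.ker_eq_bot']
    rintro ⟨A, B⟩ h
    have h1 : L ((A : ℂ[X]), (B : ℂ[X])) = 0 := h
    obtain ⟨h2, h3⟩ := hinj k A B hk (mem_degreeLT.1 A.2) (mem_degreeLT.1 B.2) h1
    exact Prod.ext (Subtype.ext h2) (Subtype.ext h3)
  have hf : finrank ℂ (degreeLT ℂ k × degreeLT ℂ k) = 2 * k := by
    rw [finrank_prod, LinearEquiv.finrank_eq (degreeLTEquiv ℂ k), finrank_fin_fun]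
    ring
  rw [← hf, ← LinearMap.finrank_range_of_inj hΦ]
  apply Submodule.finrank_mono
  rintro _ ⟨⟨A, B⟩, rfl⟩
  exact ⟨((A : ℂ[X]), (B : ℂ[X])), ⟨A.2, B.2⟩, rfl⟩

theorem Rk_le_span (k : ℕ) :
    Rk L k ≤ Submodule.span ℂ ((fun c => L (mono c)) '' {c : ℕ × Bool | c.1 < k}) := by
  rintro _ ⟨⟨A, B⟩, hv, rfl⟩
  have hv' := mem_E.1 hv
  have hsum : ∀ P : ℂ[X], P.degree < k → P = ∑ i ∈ Finset.range k, P.coeff i • (X : ℂ[X]) ^ i := by
    intro P hP
    ext j
    rw [finsetSum_coeff]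
    simp only [coeff_smul, coeff_X_pow, smul_eq_mul, mul_ite, mul_one, mul_zero]
    rw [Finset.sum_ite_eq (Finset.range k) j]
    split_ifs with h
    · rfl
    · exact (degree_lt_iff_coeff_zero _ _).1 hP j (by simpa using h)
  have h1 : ((A, B) : ℂ[X] × ℂ[X]) = ∑ i ∈ Finset.range k, A.coeff i • mono (i, false) +
      ∑ i ∈ Finset.range k, B.coeff i • mono (i, true) := by
    refine Prod.ext ?_ ?_
    · simp only [Prod.fst_add, Prod.fst_sum, Prod.smul_fst, mono, Bool.false_eq_true, if_false,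
        if_true, smul_zero, Finset.sum_const_zero, add_zero]
      exact hsum A hv'.1
    · simp only [Prod.snd_add, Prod.snd_sum, Prod.smul_snd, mono, Bool.false_eq_true, if_false,
        if_true, smul_zero, Finset.sum_const_zero, zero_add]
      exact hsum B hv'.2
  rw [h1, map_add, map_sum, map_sum]
  refine Submodule.add_mem _ (Submodule.sum_mem _ fun i hi => ?_)
    (Submodule.sum_mem _ fun i hi => ?_)
  · rw [map_smul]
    exact Submodule.smul_mem _ _ (Submodule.subset_span ⟨(i, false), Finset.mem_range.1 hi, rfl⟩)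
  · rw [map_smul]
    exact Submodule.smul_mem _ _ (Submodule.subset_span ⟨(i, true), Finset.mem_range.1 hi, rfl⟩)

end RankE

theorem exists_columns (n s k' : ℕ) (hk : s + n + 1 ≤ 2 * k')
    (L : (ℂ[X] × ℂ[X]) →ₗ[ℂ] (Fin s → ℂ))
    (hX : ∀ A B : ℂ[X], L (A, B) = 0 → L (X * A, X * B) = 0)
    (hsurj : Function.Surjective L)
    (hinj : ∀ (k : ℕ) (A B : ℂ[X]), 2 * k + n < s + 2 → A.degree < k → B.degree < k →
      L (A, B) = 0 → A = 0 ∧ B = 0) :
    ∃ c : Fin s → ℕ × Bool, Function.Injective c ∧ (∀ l, (c l).1 < k') ∧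
      (Matrix.of fun k l => L (mono (c l)) k).det ≠ 0 := by
  set k0 := (s + 1 - n) / 2 with hk0
  have hlow : 2 * k0 ≤ finrank ℂ (RankE.Rk L k0) := by
    rcases Nat.eq_zero_or_pos k0 with h | h
    · rw [h]
      simp
    · exact RankE.low L n hinj k0 (by omega)
  have hst := RankE.steps L hX hsurj k0 (k' - k0)
  have hkk : k0 + (k' - k0) = k' := by omega
  rw [hkk] at hst
  have hs : s ≤ finrank ℂ (RankE.Rk L k') := by omega
  have htop : Submodule.span ℂ ((fun c => L (mono c)) '' {c : ℕ × Bool | c.1 < k'}) = ⊤ := by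
    rw [eq_top_iff]
    refine le_trans (le_of_eq ?_) (RankE.Rk_le_span L k')
    symm
    apply Submodule.eq_top_of_finrank_eq
    apply le_antisymm (Submodule.finrank_le _)
    rw [finrank_fin_fun]
    exact hs
  obtain ⟨f, hf1, hf2, hf3⟩ := Submodule.exists_fun_fin_finrank_span_eq ℂ
    ((fun c => L (mono c)) '' {c : ℕ × Bool | c.1 < k'})
  have hfr : finrank ℂ (Submodule.span ℂ ((fun c => L (mono c)) '' {c : ℕ × Bool | c.1 < k'})) =
      s := by
    rw [htop, finrank_top, finrank_fin_fun]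
  choose c hc1 hc2 using hf1
  let e : Fin s ≃ Fin (finrank ℂ (Submodule.span ℂ
    ((fun c => L (mono c)) '' {c : ℕ × Bool | c.1 < k'}))) := finCongr hfr.symm
  have hind : LinearIndependent ℂ (fun l : Fin s => L (mono (c (e l)))) := by
    have h1 : (fun l : Fin s => L (mono (c (e l)))) = f ∘ e := by
      funext l
      exact hc2 (e l)
    rw [h1]
    exact hf3.comp _ e.injective
  refine ⟨fun l => c (e l), ?_, fun l => hc1 (e l), ?_⟩
  · intro a b hab
    have : (fun l : Fin s => L (mono (c (e l)))) a = (fun l : Fin s => L (mono (c (e l)))) b := by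
      simp only at hab ⊢
      rw [hab]
    exact hind.injective this
  · have h2 : IsUnit (Matrix.of fun k l => L (mono (c (e l))) k) := by
      rw [← Matrix.linearIndependent_cols_iff_isUnit]
      exact hind
    rw [Matrix.isUnit_iff_isUnit_det] at h2
    exact h2.ne_zero

end Pool.TTF
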