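import Pool.Agent.Lib.MP_695920_nt.TT.Five.Newton
import Pool.Agent.Lib.MP_695920_nt.TT.Five.RankE

set_option autoImplicit false

/-!
TEAM TWOTORSION, n = 5: the functionals of an interleaved sequence of nodes on the two sheets
(OWNER helper31).
-/

open Polynomial Module

namespace Pool.TTF

/-- the previous nodes with sign `σ` -/
def pn {s : ℕ} (sn : Fin s → Bool) (σ : Bool) (k : ℕ) : Finset (Fin s) :=
  Finset.univ.filter fun m => m.val < k ∧ sn m = σ

theorem mem_pn {s : ℕ} {sn : Fin s → Bool} {σ : Bool} {k : ℕ} {m : Fin s} :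
    m ∈ pn sn σ k ↔ m.val < k ∧ sn m = σ := by
  simp [pn]

theorem pn_zero {s : ℕ} (sn : Fin s → Bool) (σ : Bool) : pn sn σ 0 = ∅ := by
  ext m
  simp [mem_pn]

theorem pn_succ_same {s : ℕ} (sn : Fin s → Bool) (k : Fin s) :
    pn sn (sn k) (k.val + 1) = insert k (pn sn (sn k) k.val) := by
  ext m
  rw [Finset.mem_insert, mem_pn, mem_pn, Fin.ext_iff]
  constructor
  · rintro ⟨h1, h2⟩
    rcases Nat.lt_succ_iff_lt_or_eq.1 h1 with h | h
    · exact Or.inr ⟨h, h2⟩
    · exact Or.inl h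
  · rintro (h | ⟨h1, h2⟩)
    · have : m = k := Fin.ext h
      subst this
      exact ⟨Nat.lt_succ_self _, rfl⟩
    · exact ⟨by omega, h2⟩

theorem pn_succ_ne {s : ℕ} (sn : Fin s → Bool) (k : Fin s) {σ : Bool} (hσ : σ ≠ sn k) :
    pn sn σ (k.val + 1) = pn sn σ k.val := by
  ext m
  rw [mem_pn, mem_pn]
  constructor
  · rintro ⟨h1, h2⟩
    rcases Nat.lt_succ_iff_lt_or_eq.1 h1 with h | h
    · exact ⟨h, h2⟩
    · exfalso
      have : m = k := Fin.ext h
      subst this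
      exact hσ h2.symm
  · rintro ⟨h1, h2⟩
    exact ⟨by omega, h2⟩

theorem not_mem_pn {s : ℕ} (sn : Fin s → Bool) (σ : Bool) (k : Fin s) :
    k ∉ pn sn σ k.val := by
  rw [mem_pn]
  exact fun h => lt_irrefl _ h.1

/-- the value on the sheet `σ` -/
noncomputable def sh (b : ℤ) (w : ℂ → ℂ) (σ : Bool) (u : ℂ) : ℂ := if σ then w u else b - w u

/-- the function on the sheet `σ` -/
noncomputable def fn (b : ℤ) (w : ℂ → ℂ) (σ : Bool) (A B : ℂ[X]) (u : ℂ) : ℂ :=
  A.eval u + B.eval u * sh b w σ u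

section

variable {b : ℤ} {w : ℂ → ℂ} {R : ℝ}

theorem sh_diff (hw : DifferentiableOn ℂ w (Metric.ball 0 (2 * R))) (σ : Bool) :
    DifferentiableOn ℂ (sh b w σ) (Metric.ball 0 (2 * R)) := by
  cases σ
  · have : sh b w false = fun u => (b : ℂ) - w u := by
      funext u
      simp [sh]
    rw [this]
    exact hw.const_sub _
  · have : sh b w true = w := by
      funext u
      simp [sh]
    rw [this]
    exact hw

theorem fn_diff (hw : DifferentiableOn ℂ w (Metric.ball 0 (2 * R))) (σ : Bool) (A B : ℂ[X]) :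
    DifferentiableOn ℂ (fn b w σ A B) (Metric.ball 0 (2 * R)) :=
  (Polynomial.differentiable A).differentiableOn.add
    ((Polynomial.differentiable B).differentiableOn.mul (sh_diff hw σ))

theorem fn_add (σ : Bool) (A B A' B' : ℂ[X]) (u : ℂ) :
    fn b w σ (A + A') (B + B') u = fn b w σ A B u + fn b w σ A' B' u := by
  unfold fn
  rw [eval_add, eval_add]
  ring

theorem fn_smul (σ : Bool) (c : ℂ) (A B : ℂ[X]) (u : ℂ) :
    fn b w σ (c • A) (c • B) u = c * fn b w σ A B u := by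
  unfold fn
  rw [eval_smul, eval_smul, smul_eq_mul, smul_eq_mul]
  ring

theorem sphere_sub_ball (hR : 0 < R) : Metric.sphere (0 : ℂ) R ⊆ Metric.ball 0 (2 * R) := by
  intro u hu
  rw [mem_sphere_zero_iff_norm] at hu
  rw [mem_ball_zero_iff, hu]
  linarith

/-- the functional of the node `k` -/
noncomputable def lf (R : ℝ) {s : ℕ} (sn : Fin s → Bool) (τ : Fin s → ℂ) (b : ℤ) (w : ℂ → ℂ)
    (k : Fin s) (A B : ℂ[X]) : ℂ :=
  nc R (insert k (pn sn (sn k) k.val)) τ (fn b w (sn k) A B)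

variable {s : ℕ} {sn : Fin s → Bool} {τ : Fin s → ℂ}

theorem lf_add (hR : 0 < R) (hτ : ∀ m, ‖τ m‖ < R)
    (hw : DifferentiableOn ℂ w (Metric.ball 0 (2 * R))) (k : Fin s) (A B A' B' : ℂ[X]) :
    lf R sn τ b w k (A + A') (B + B') = lf R sn τ b w k A B + lf R sn τ b w k A' B' := by
  unfold lf
  rw [← nc_add hR (fun m _ => hτ m) ((fn_diff hw _ A B).continuousOn.mono (sphere_sub_ball hR))
    ((fn_diff hw _ A' B').continuousOn.mono (sphere_sub_ball hR))]
  exact nc_congr hR.le fun u _ => fn_add _ _ _ _ _ _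

theorem lf_smul (hR : 0 < R) (k : Fin s) (c : ℂ) (A B : ℂ[X]) :
    lf R sn τ b w k (c • A) (c • B) = c * lf R sn τ b w k A B := by
  unfold lf
  rw [← nc_const_mul]
  exact nc_congr hR.le fun u _ => fn_smul _ _ _ _ _

/-- all functionals as a linear map -/
noncomputable def lmap (R : ℝ) (hR : 0 < R) (sn : Fin s → Bool) (τ : Fin s → ℂ)
    (hτ : ∀ m, ‖τ m‖ < R) (b : ℤ) (w : ℂ → ℂ)
    (hw : DifferentiableOn ℂ w (Metric.ball 0 (2 * R))) :
    (ℂ[X] × ℂ[X]) →ₗ[ℂ] (Fin s → ℂ) where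
  toFun v k := lf R sn τ b w k v.1 v.2
  map_add' v v' := by
    funext k
    exact lf_add hR hτ hw k _ _ _ _
  map_smul' c v := by
    funext k
    exact lf_smul hR k c _ _

theorem lmap_apply (hR : 0 < R) (hτ : ∀ m, ‖τ m‖ < R)
    (hw : DifferentiableOn ℂ w (Metric.ball 0 (2 * R))) (v : ℂ[X] × ℂ[X]) (k : Fin s) :
    lmap R hR sn τ hτ b w hw v k = lf R sn τ b w k v.1 v.2 := rfl

/-- If the functionals below `k` vanish, both sheets are divisible. -/
theorem both_div (hR : 0 < R) (hτ : ∀ m, ‖τ m‖ < R)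
    (hw : DifferentiableOn ℂ w (Metric.ball 0 (2 * R))) (A B : ℂ[X]) :
    ∀ k : ℕ, k ≤ s → (∀ m : Fin s, m.val < k → lf R sn τ b w m A B = 0) → ∀ σ : Bool,
      ∃ q : ℂ → ℂ, DifferentiableOn ℂ q (Metric.ball 0 (2 * R)) ∧
        ∀ u ∈ Metric.ball (0 : ℂ) (2 * R), fn b w σ A B u = (∏ m ∈ pn sn σ k, (u - τ m)) * q u := by
  intro k
  induction k with
  | zero =>
    intro _ _ σ
    refine ⟨fn b w σ A B, fn_diff hw σ A B, fun u _ => ?_⟩
    rw [pn_zero, Finset.prod_empty, one_mul]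
  | succ k ih =>
    intro hk h0 σ
    obtain ⟨q, hq, hqe⟩ := ih (by omega) (fun m hm => h0 m (by omega)) σ
    set k' : Fin s := ⟨k, by omega⟩ with hk'
    by_cases hσ : σ = sn k'
    · subst hσ
      have h1 := pn_succ_same sn k'
      rw [show k + 1 = k'.val + 1 from rfl, h1]
      exact nc_step hR (by linarith) (not_mem_pn sn _ k') (fun m _ => hτ m) (hτ _) hq hqe
        (h0 k' (Nat.lt_succ_self _))
    · rw [show k + 1 = k'.val + 1 from rfl, pn_succ_ne sn k' hσ]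
      exact ⟨q, hq, hqe⟩

/-- The value of the functional in terms of the quotient. -/
theorem lf_eq (hR : 0 < R) (hτ : ∀ m, ‖τ m‖ < R) (A B : ℂ[X]) (k : Fin s) (q : ℂ → ℂ)
    (hq : DifferentiableOn ℂ q (Metric.ball 0 (2 * R)))
    (h : ∀ u ∈ Metric.ball (0 : ℂ) (2 * R),
      fn b w (sn k) A B u = (∏ m ∈ pn sn (sn k) k.val, (u - τ m)) * q u) :
    lf R sn τ b w k A B = q (τ k) :=
  nc_insert hR (by linarith) (not_mem_pn sn _ k) (fun m _ => hτ m) (hτ _) hq h

/-- If both sheets are divisible by all nodes, all functionals vanish. -/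
theorem lf_zero (hR : 0 < R) (hτ : ∀ m, ‖τ m‖ < R) (A B : ℂ[X])
    (h : ∀ σ : Bool, ∃ q : ℂ → ℂ, DifferentiableOn ℂ q (Metric.ball 0 (2 * R)) ∧
      ∀ u ∈ Metric.ball (0 : ℂ) (2 * R), fn b w σ A B u = (∏ m ∈ pn sn σ s, (u - τ m)) * q u)
    (k : Fin s) : lf R sn τ b w k A B = 0 := by
  classical
  obtain ⟨q, hq, hqe⟩ := h (sn k)
  have hsub : insert k (pn sn (sn k) k.val) ⊆ pn sn (sn k) s := by
    intro m hm
    rw [Finset.mem_insert, mem_pn] at hm
    rw [mem_pn]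
    rcases hm with rfl | ⟨h1, h2⟩
    · exact ⟨m.2, rfl⟩
    · exact ⟨m.2, h2⟩
  rw [lf_eq hR hτ A B k (fun u => (u - τ k) *
    ((∏ m ∈ pn sn (sn k) s \ insert k (pn sn (sn k) k.val), (u - τ m)) * q u)) ?_ ?_]
  · rw [sub_self, zero_mul]
  · refine (differentiableOn_id.sub_const _).mul (DifferentiableOn.mul ?_ hq)
    exact DifferentiableOn.fun_finsetProd fun m _ => (differentiableOn_id.sub_const _)
  · intro u hu
    rw [hqe u hu, ← Finset.prod_sdiff hsub, Finset.prod_insert (not_mem_pn sn _ k)]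
    ring

end

end Pool.TTF
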