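import Pool.Agent.Lib.MP_695920_nt.TT.Five.PosA

set_option autoImplicit false

/-!
TEAM TWOTORSION, n = 5: the functionals are independent on pairs of low degree (OWNER helper31).
-/

open Polynomial Module

namespace Pool.TTF

variable {b : ℤ} {w : ℂ → ℂ} {R : ℝ} {s : ℕ} {sn : Fin s → Bool} {τ : Fin s → ℂ}

theorem lmap_X (hR : 0 < R) (hτ : ∀ m, ‖τ m‖ < R)
    (hw : DifferentiableOn ℂ w (Metric.ball 0 (2 * R))) (A B : ℂ[X])
    (h : lmap R hR sn τ hτ b w hw (A, B) = 0) : lmap R hR sn τ hτ b w hw (X * A, X * B) = 0 := by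
  funext k
  rw [lmap_apply]
  refine lf_zero hR hτ _ _ (fun σ => ?_) k
  obtain ⟨q, hq, hqe⟩ := both_div (sn := sn) hR hτ hw A B s le_rfl
    (fun m _ => congrFun h m) σ
  refine ⟨fun u => u * q u, differentiableOn_id.mul hq, fun u hu => ?_⟩
  have h1 := hqe u hu
  unfold fn at h1 ⊢
  simp only [eval_mul, eval_X]
  linear_combination u * h1

private theorem pb_mem (hR : 0 < R) (hτ : ∀ m, ‖τ m‖ < R) (m : Fin s) :
    τ m ∈ Metric.ball (0 : ℂ) (2 * R) := by
  rw [mem_ball_zero_iff]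
  linarith [hτ m]

private theorem pb_prod (f : Fin s → ℂ[X]) :
    (∏ m ∈ pn sn true s, f m) * ∏ m ∈ pn sn false s, f m = ∏ m, f m := by
  have h1 : pn sn true s = Finset.univ.filter fun m => sn m = true := by
    ext m
    simp [mem_pn]
  have h2 : pn sn false s = Finset.univ.filter fun m => ¬ sn m = true := by
    ext m
    simp [mem_pn]
  rw [h1, h2, Finset.prod_filter_mul_prod_filter_not]

/-- A polynomial on which all functionals vanish. -/
theorem dvd_of_lmap (hR : 0 < R) (hτ : ∀ m, ‖τ m‖ < R)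
    (hw : DifferentiableOn ℂ w (Metric.ball 0 (2 * R)))
    (hsep : ∀ m m', sn m ≠ sn m' → τ m ≠ τ m') (A : ℂ[X])
    (h : lmap R hR sn τ hτ b w hw (A, 0) = 0) : ∏ m, (X - C (τ m)) ∣ A := by
  have h1 : ∀ σ, ∏ m ∈ pn sn σ s, (X - C (τ m)) ∣ A := by
    intro σ
    obtain ⟨q, hq, hqe⟩ := both_div (sn := sn) hR hτ hw A 0 s le_rfl (fun m _ => congrFun h m) σ
    refine poly_dvd (ρ := 2 * R) A (fun m _ => pb_mem hR hτ m) hq fun u hu => ?_
    have h2 := hqe u hu
    unfold fn at h2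
    rw [eval_zero, zero_mul, add_zero] at h2
    exact h2
  rw [← pb_prod (sn := sn)]
  refine IsCoprime.mul_dvd ?_ (h1 true) (h1 false)
  refine IsCoprime.prod_left fun m hm => IsCoprime.prod_right fun m' hm' => ?_
  refine isCoprime_X_sub_C_of_isUnit_sub ?_
  rw [isUnit_iff_ne_zero, sub_ne_zero]
  apply hsep
  rw [(mem_pn.1 hm).2, (mem_pn.1 hm').2]
  decide

private theorem pb_natDegree (τ : Fin s → ℂ) : (∏ m, (X - C (τ m))).natDegree = s := by
  rw [natDegree_prod_of_monic _ _ fun m _ => monic_X_sub_C _]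
  simp

theorem lmap_surj (hR : 0 < R) (hτ : ∀ m, ‖τ m‖ < R)
    (hw : DifferentiableOn ℂ w (Metric.ball 0 (2 * R)))
    (hsep : ∀ m m', sn m ≠ sn m' → τ m ≠ τ m') :
    Function.Surjective (lmap R hR sn τ hτ b w hw) := by
  let L0 : degreeLT ℂ s →ₗ[ℂ] (Fin s → ℂ) :=
    (lmap R hR sn τ hτ b w hw).comp ((LinearMap.inl ℂ ℂ[X] ℂ[X]).comp (degreeLT ℂ s).subtype)
  have hL0 : ∀ p, L0 p = lmap R hR sn τ hτ b w hw ((p : ℂ[X]), 0) := fun p => rfl
  have hinj : Function.Injective L0 := by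
    rw [injective_iff_map_eq_zero]
    intro p hp
    rw [hL0] at hp
    have h1 := dvd_of_lmap hR hτ hw hsep _ hp
    by_contra hne
    have hne' : (p : ℂ[X]) ≠ 0 := fun h => hne (Subtype.ext h)
    have h2 := natDegree_le_of_dvd h1 hne'
    rw [pb_natDegree] at h2
    have h3 : (p : ℂ[X]).degree < s := mem_degreeLT.1 p.2
    have h4 := (natDegree_lt_iff_degree_lt hne').2 h3
    omega
  have hfr : finrank ℂ (degreeLT ℂ s) = finrank ℂ (Fin s → ℂ) := by
    rw [finrank_fin_fun, (degreeLTEquiv ℂ s).finrank_eq, finrank_fin_fun]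
  have : FiniteDimensional ℂ (degreeLT ℂ s) :=
    (degreeLTEquiv ℂ s).symm.finiteDimensional
  have hsurj : Function.Surjective L0 :=
    (LinearMap.injective_iff_surjective_of_finrank_eq_finrank hfr).1 hinj
  intro v
  obtain ⟨p, hp⟩ := hsurj v
  exact ⟨_, hp⟩

/-- Injectivity on pairs of low degree. -/
theorem lmap_inj (hR : 0 < R) (hτ : ∀ m, ‖τ m‖ < R)
    (hw : DifferentiableOn ℂ w (Metric.ball 0 (2 * R))) (a : ℂ[X])
    (ha : ∀ A B : ℂ[X], A ^ 2 = (4 * a + C ((b : ℂ) ^ 2)) * B ^ 2 → B = 0)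
    (hw2 : ∀ u ∈ Metric.ball (0 : ℂ) (2 * R), w u ^ 2 = a.eval u + b * w u)
    (k : ℕ) (A B : ℂ[X]) (hk : 2 * k + a.natDegree < s + 2) (hA : A.degree < k) (hB : B.degree < k)
    (h : lmap R hR sn τ hτ b w hw (A, B) = 0) : A = 0 ∧ B = 0 := by
  rcases Nat.eq_zero_or_pos k with hk0 | hk0
  · subst hk0
    rw [Nat.cast_zero, Nat.WithBot.lt_zero_iff, degree_eq_bot] at hA hB
    exact ⟨hA, hB⟩
  obtain ⟨q, hq, hqe⟩ := both_div (sn := sn) hR hτ hw A B s le_rfl (fun m _ => congrFun h m) true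
  obtain ⟨q', hq', hqe'⟩ :=
    both_div (sn := sn) hR hτ hw A B s le_rfl (fun m _ => congrFun h m) false
  set N : ℂ[X] := A ^ 2 + C (b : ℂ) * A * B - a * B ^ 2 with hN
  have hdvd : ∏ m, (X - C (τ m)) ∣ N := by
    refine poly_dvd (s := Finset.univ) (ρ := 2 * R) (q := fun u => q u * q' u) N
      (fun m _ => pb_mem hR hτ m) (hq.mul hq') fun u hu => ?_
    have h1 := hqe u hu
    have h2 := hqe' u hu
    have h3 := hw2 u hu
    have h4 : N.eval u = fn b w true A B u * fn b w false A B u := by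
      rw [hN]
      unfold fn sh
      simp only [eval_sub, eval_add, eval_mul, eval_pow, eval_C, if_true, Bool.false_eq_true,
        if_false]
      linear_combination (B.eval u) ^ 2 * h3
    have h5 : (∏ m ∈ pn sn true s, (u - τ m)) * (∏ m ∈ pn sn false s, (u - τ m)) =
        ∏ m, (u - τ m) := by
      have := congrArg (fun p => eval u p) (pb_prod (sn := sn) fun m => (X - C (τ m)))
      simp only [eval_mul, eval_prod, eval_sub, eval_X, eval_C] at this
      exact this
    rw [h4, h1, h2, ← h5]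
    ring
  have hAn : A.natDegree ≤ k - 1 := by
    rw [natDegree_le_iff_degree_le]
    rcases eq_or_ne A 0 with h0 | h0
    · rw [h0, degree_zero]
      exact bot_le
    · have h1 := (natDegree_lt_iff_degree_lt h0).2 hA
      rw [degree_eq_natDegree h0]
      exact_mod_cast Nat.le_sub_one_of_lt h1
  have hBn : B.natDegree ≤ k - 1 := by
    rw [natDegree_le_iff_degree_le]
    rcases eq_or_ne B 0 with h0 | h0
    · rw [h0, degree_zero]
      exact bot_le
    · have h1 := (natDegree_lt_iff_degree_lt h0).2 hB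
      rw [degree_eq_natDegree h0]
      exact_mod_cast Nat.le_sub_one_of_lt h1
  have hNn : N.natDegree ≤ a.natDegree + 2 * (k - 1) := by
    rw [hN]
    refine (natDegree_sub_le _ _).trans (max_le ((natDegree_add_le _ _).trans (max_le ?_ ?_)) ?_)
    · refine natDegree_pow_le.trans ?_
      omega
    · refine natDegree_mul_le.trans ?_
      have := natDegree_C_mul_le (b : ℂ) A
      omega
    · refine natDegree_mul_le.trans ?_
      have := natDegree_pow_le (p := B) (n := 2)
      omega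
  have hN0 : N = 0 := by
    by_contra hne
    have h1 := natDegree_le_of_dvd hdvd hne
    rw [pb_natDegree] at h1
    omega
  have hsq : (2 * A + C (b : ℂ) * B) ^ 2 = (4 * a + C ((b : ℂ) ^ 2)) * B ^ 2 := by
    have : (2 * A + C (b : ℂ) * B) ^ 2 = 4 * N + (4 * a + C ((b : ℂ) ^ 2)) * B ^ 2 := by
      rw [hN, C_pow]
      ring
    rw [this, hN0]
    ring
  have hB0 : B = 0 := ha _ _ hsq
  refine ⟨?_, hB0⟩
  rw [hB0] at hsq
  have h2 : (2 * A) ^ 2 = 0 := by
    rw [mul_zero, add_zero] at hsq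
    rw [hsq]
    ring
  have h3 := pow_eq_zero_iff two_ne_zero |>.1 h2
  rcases mul_eq_zero.1 h3 with h4 | h4
  · exact absurd h4 two_ne_zero
  · exact h4

end Pool.TTF
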