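import Mathlib

set_option autoImplicit false

/-!
TEAM TWOTORSION, n = 5: the elementary estimates of the determinant inequality (OWNER helper31).
-/

open Finset

namespace Pool.TTF

/-- the sign -/
def sg (b : Bool) : ℝ := if b then 1 else -1

theorem sg_mul (b b' : Bool) : sg b * sg b' = if b = b' then 1 else -1 := by
  cases b <;> cases b' <;> simp [sg]

theorem sg_abs (b : Bool) : |sg b| = 1 := by
  cases b <;> simp [sg]

theorem norm_det_le {s : ℕ} (M : Matrix (Fin s) (Fin s) ℂ) (γ α : Fin s → ℝ)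
    (h : ∀ k c, ‖M k c‖ ≤ γ k * α c) :
    ‖M.det‖ ≤ (s.factorial : ℝ) * ((∏ k, γ k) * ∏ c, α c) := by
  rw [Matrix.det_apply]
  refine (norm_sum_le _ _).trans ?_
  have h1 : ∀ σ ∈ (Finset.univ : Finset (Equiv.Perm (Fin s))),
      ‖Equiv.Perm.sign σ • ∏ i, M (σ i) i‖ ≤ (∏ k, γ k) * ∏ c, α c := by
    intro σ _
    have h2 : ‖Equiv.Perm.sign σ • ∏ i, M (σ i) i‖ = ∏ i, ‖M (σ i) i‖ := by
      rw [← norm_prod]
      rcases Int.units_eq_one_or (Equiv.Perm.sign σ) with h3 | h3
      · rw [h3, one_smul]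
      · rw [h3, Units.neg_smul, one_smul, norm_neg]
    rw [h2]
    refine (Finset.prod_le_prod (fun i _ => norm_nonneg _) fun i _ => h (σ i) i).trans ?_
    rw [Finset.prod_mul_distrib, Equiv.prod_comp σ γ]
  refine (Finset.sum_le_sum h1).trans ?_
  rw [Finset.sum_const, Finset.card_univ, Fintype.card_perm, Fintype.card_fin, nsmul_eq_mul]

/-- Sums over pairs `m < k`. -/
theorem sum_lt {s : ℕ} (f : Fin s → Fin s → ℝ) (hf : ∀ m k, f m k = f k m) :
    ∑ k, ∑ m ∈ Finset.univ.filter (fun m : Fin s => m.val < k.val), f m k =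
      1 / 2 * (∑ k, ∑ m, f m k - ∑ k, f k k) := by
  have h1 : ∀ k : Fin s, ∑ m, f m k = ∑ m ∈ Finset.univ.filter (fun m : Fin s => m.val < k.val),
      f m k + (∑ m ∈ Finset.univ.filter (fun m : Fin s => k.val < m.val), f m k + f k k) := by
    intro k
    rw [← Finset.sum_filter_add_sum_filter_not Finset.univ (fun m : Fin s => m.val < k.val)]
    congr 1
    rw [← Finset.sum_filter_add_sum_filter_not
      (Finset.univ.filter (fun m : Fin s => ¬ m.val < k.val)) (fun m : Fin s => k.val < m.val)]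
    congr 1
    · refine Finset.sum_congr ?_ fun _ _ => rfl
      ext m
      simp only [Finset.mem_filter, Finset.mem_univ, true_and]
      omega
    · have : Finset.filter (fun m : Fin s => ¬ k.val < m.val)
          (Finset.univ.filter (fun m : Fin s => ¬ m.val < k.val)) = {k} := by
        ext m
        simp only [Finset.mem_filter, Finset.mem_univ, true_and, Finset.mem_singleton]
        rw [Fin.ext_iff]
        omega
      rw [this, Finset.sum_singleton]
  have h2 : ∑ k, ∑ m ∈ Finset.univ.filter (fun m : Fin s => k.val < m.val), f m k =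
      ∑ k, ∑ m ∈ Finset.univ.filter (fun m : Fin s => m.val < k.val), f m k := by
    simp only [Finset.sum_filter]
    rw [Finset.sum_comm]
    refine Finset.sum_congr rfl fun k _ => Finset.sum_congr rfl fun m _ => ?_
    by_cases h : m.val < k.val
    · rw [if_pos h, if_pos h, hf]
    · rw [if_neg h, if_neg h]
  have h3 : ∑ k, ∑ m, f m k = ∑ k, ∑ m ∈ Finset.univ.filter (fun m : Fin s => m.val < k.val), f m k +
      (∑ k, ∑ m ∈ Finset.univ.filter (fun m : Fin s => k.val < m.val), f m k + ∑ k, f k k) := by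
    rw [← Finset.sum_add_distrib, ← Finset.sum_add_distrib]
    exact Finset.sum_congr rfl fun k _ => h1 k
  rw [h3, h2]
  ring

/-- The total degree of distinct monomials. -/
theorem sum_deg_le {s k' : ℕ} (c : Fin s → ℕ × Bool) (hc : Function.Injective c)
    (hk : ∀ l, (c l).1 < k') : ∑ l, (c l).1 ≤ k' * (k' - 1) := by
  have h1 : ∑ l, (c l).1 = ∑ x ∈ Finset.univ.image c, x.1 := by
    rw [Finset.sum_image fun a _ b _ hab => hc hab]
  rw [h1]
  have h2 : Finset.univ.image c ⊆ Finset.range k' ×ˢ (Finset.univ : Finset Bool) := by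
    intro x hx
    rw [Finset.mem_image] at hx
    obtain ⟨l, -, rfl⟩ := hx
    rw [Finset.mem_product, Finset.mem_range]
    exact ⟨hk l, Finset.mem_univ _⟩
  refine (Finset.sum_le_sum_of_subset h2).trans ?_
  rw [Finset.sum_product]
  simp only [Finset.sum_const, Finset.card_univ, Fintype.card_bool, smul_eq_mul]
  rw [← Finset.mul_sum, mul_comm, Finset.sum_range_id_mul_two]

theorem log_factorial_le {s : ℕ} (hs : 1 ≤ s) :
    Real.log (s.factorial : ℝ) ≤ 2 * ((s : ℝ) * Real.sqrt s) := by
  have hs' : (1 : ℝ) ≤ s := by exact_mod_cast hs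
  have h1 : (s.factorial : ℝ) ≤ (s : ℝ) ^ s := by exact_mod_cast Nat.factorial_le_pow s
  have h2 : Real.log (s.factorial : ℝ) ≤ s * Real.log s := by
    rw [← Real.log_pow]
    exact Real.log_le_log (by exact_mod_cast Nat.factorial_pos s) h1
  have h3 : Real.log s ≤ 2 * Real.sqrt s := by
    have h4 : Real.log (Real.sqrt s) ≤ Real.sqrt s - 1 :=
      Real.log_le_sub_one_of_pos (Real.sqrt_pos.2 (by linarith))
    rw [Real.log_sqrt (by linarith)] at h4
    linarith
  calc Real.log (s.factorial : ℝ) ≤ s * Real.log s := h2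
    _ ≤ s * (2 * Real.sqrt s) := by gcongr
    _ = _ := by ring

theorem neg_log_le {T : ℝ} (hT : 4 ≤ T) : -Real.log (1 - 2 / T) ≤ 4 / T := by
  have hT0 : 0 < T := by linarith
  have h1 : 2 / T ≤ 1 / 2 := by
    rw [div_le_div_iff₀ hT0 two_pos]
    linarith
  have h2 : 0 < 2 / T := by positivity
  have h3 : 0 < 1 - 2 / T := by linarith
  have h4 := Real.one_sub_inv_le_log_of_pos h3
  have h5 : (1 - 2 / T)⁻¹ ≤ 1 + 4 / T := by
    rw [inv_le_comm₀ h3 (by positivity)]
    rw [inv_le_iff_one_le_mul₀ (by positivity)]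
    have h6 : 4 / T = 2 * (2 / T) := by ring
    rw [h6]
    nlinarith
  linarith

end Pool.TTF
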