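import Pool.Agent.Lib.MP_695920_nt.TT.Five.PosDefs
import Pool.Agent.Lib.MP_695920_nt.TT.Five.PosB
import Pool.Agent.Lib.MP_695920_nt.TT.Five.PosC
import Pool.Agent.Lib.MP_695920_nt.TT.Five.Branch
import Pool.Agent.Lib.MP_695920_nt.TT.Five.Lead
import Pool.Agent.Lib.MP_695920_nt.TT.Five.HNF

set_option autoImplicit false

/-!
TEAM TWOTORSION, n = 5: the lower bound of the determinant (OWNER helper31).
-/

open Polynomial Module

namespace Pool.TTF

namespace FPts

variable {ι : Type*} (P : FPts ι)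

/-- The upper sheet. -/
theorem exists_w {R : ℝ} (hR : 0 < R)
    (hroot : ∀ z : ℂ, (P.F.map (Int.castRingHom ℂ)).IsRoot z → 2 * R ≤ ‖z‖)
    (ht : ∀ i, |(P.t i : ℝ)| < 2 * R) (i₀ : ι) :
    ∃ w : ℂ → ℂ, DifferentiableOn ℂ w (Metric.ball 0 (2 * R)) ∧
      (∀ u ∈ Metric.ball (0 : ℂ) (2 * R),
        w u ^ 2 = (P.a.map (Int.castRingHom ℂ)).eval u + P.b * w u) ∧
      (∀ u ∈ Metric.ball (0 : ℂ) (2 * R), 2 * w u - P.b ≠ 0) ∧ ∀ i, w (P.t i) = P.z i := by
  have hFt : ∀ i, (2 * P.z i - P.b) ^ 2 = P.F.eval (P.t i) := by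
    intro i
    have h1 := P.eq i
    rw [FPts.F, eval_add, eval_mul, eval_C]
    have h4 : (4 : ℤ[X]).eval (P.t i) = 4 := by
      have : (4 : ℤ[X]) = C 4 := rfl
      rw [this, eval_C]
    rw [h4]
    linear_combination 4 * h1
  obtain ⟨h, hd, h2, hne, hval⟩ := exists_branch P.F (2 * R) (by linarith) hroot
    ⟨P.t i₀, ht i₀, by rw [← hFt i₀]; exact pow_pos (P.pos i₀) 2⟩
  refine ⟨fun u => ((P.b : ℂ) + h u) / 2, (hd.const_add _).div_const _, ?_, ?_, ?_⟩
  · intro u hu
    have h3 := h2 u hu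
    have h4 : (P.F.map (Int.castRingHom ℂ)).eval u =
        4 * (P.a.map (Int.castRingHom ℂ)).eval u + (P.b : ℂ) ^ 2 := by
      rw [FPts.F, Polynomial.map_add, Polynomial.map_mul, map_C, eval_add, eval_mul, eval_C]
      have : ((4 : ℤ[X]).map (Int.castRingHom ℂ)).eval u = 4 := by
        have h5 : (4 : ℤ[X]) = C 4 := rfl
        rw [h5, map_C, eval_C]
        simp
      rw [this]
      simp
    rw [h4] at h3
    linear_combination (1 / 4 : ℂ) * h3
  · intro u hu
    have := hne u hu
    have e : 2 * (((P.b : ℂ) + h u) / 2) - P.b = h u := by ring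
    rw [e]
    exact this
  · intro i
    have h3 := hval (P.t i) (2 * P.z i - P.b) (ht i) (P.pos i) (hFt i)
    show ((P.b : ℂ) + h (P.t i)) / 2 = P.z i
    rw [h3]
    push_cast
    ring

/-- the greatest common divisors -/
def g (i j : ι) : ℕ := Int.gcd (P.t i - P.t j) (P.z i + P.z j - P.b)

theorem g_pos {i j : ι} : 0 < P.g i j := by
  rw [g, Nat.pos_iff_ne_zero, Ne, Int.gcd_eq_zero_iff]
  rintro ⟨h1, h2⟩
  have h3 : i = j := P.inj (sub_eq_zero.1 h1)
  subst h3
  have := P.pos i
  omega

theorem G_eq (i j : ι) : P.G i j = Real.log (P.g i j) := rfl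

theorem G_nonneg (i j : ι) : 0 ≤ P.G i j := by
  rw [G_eq]
  exact Real.log_natCast_nonneg _

/-- the lattice lemma -/
theorem lattice {R : ℝ} (hR : 0 < R) (w : ℂ → ℂ)
    (hw : DifferentiableOn ℂ w (Metric.ball 0 (2 * R)))
    (hw2 : ∀ u ∈ Metric.ball (0 : ℂ) (2 * R),
        w u ^ 2 = (P.a.map (Int.castRingHom ℂ)).eval u + P.b * w u)
    (hne : ∀ u ∈ Metric.ball (0 : ℂ) (2 * R), 2 * w u - P.b ≠ 0)
    (hwt : ∀ i, w (P.t i) = P.z i) (ht : ∀ i, |(P.t i : ℝ)| < R)
    {s : ℕ} (e : Fin s → ι) (b : ι → Bool) (A B : ℤ[X]) (k : Fin s)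
    (h0 : ∀ m : Fin s, m < k → lf R (fun m => b (e m)) (fun m => (P.t (e m) : ℂ)) P.b w m
      (A.map (Int.castRingHom ℂ)) (B.map (Int.castRingHom ℂ)) = 0) :
    ∃ n : ℤ, lf R (fun m => b (e m)) (fun m => (P.t (e m) : ℂ)) P.b w k
      (A.map (Int.castRingHom ℂ)) (B.map (Int.castRingHom ℂ)) =
      n * ((∏ m ∈ pn (fun m => b (e m)) (!b (e k)) k.val, (P.g (e m) (e k) : ℂ)) /
        ∏ m ∈ pn (fun m => b (e m)) (b (e k)) k.val, (P.g (e m) (e k) : ℂ)) := by
  classical
  have hτ : ∀ m : Fin s, ‖((P.t (e m) : ℤ) : ℂ)‖ < R := by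
    intro m
    have : ‖((P.t (e m) : ℤ) : ℂ)‖ = |(P.t (e m) : ℝ)| := by simp
    rw [this]
    exact ht _
  have hdiv := both_div (sn := fun m => b (e m)) (τ := fun m => (P.t (e m) : ℂ)) hR hτ hw
    (A.map (Int.castRingHom ℂ)) (B.map (Int.castRingHom ℂ)) k.val k.2.le (fun m hm => h0 m hm)
  obtain ⟨q, hq, hqe⟩ := hdiv (b (e k))
  obtain ⟨q', hq', hqe'⟩ := hdiv (!b (e k))
  rw [lf_eq hR hτ _ _ k q hq hqe]
  set σ := b (e k) with hσ
  -- own sheet
  set z' : ι → ℤ := fun i => if σ then P.z i else P.b - P.z i with hz'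
  have hzd : ∀ i j, z' i - z' j = P.z i - P.z j ∨ z' i - z' j = -(P.z i - P.z j) := by
    intro i j
    rw [hz']
    cases σ
    · right
      simp only [Bool.false_eq_true, if_false]
      ring
    · left
      simp
  have hzs : ∀ i j, z' i + z' j - P.b = P.z i + P.z j - P.b ∨
      z' i + z' j - P.b = -(P.z i + P.z j - P.b) := by
    intro i j
    rw [hz']
    cases σ
    · right
      simp only [Bool.false_eq_true, if_false]
      ring
    · left
      simp
  have hgd : ∀ i j, Int.gcd (P.t i - P.t j) (z' i - z' j) =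
      Int.gcd (P.t i - P.t j) (P.z i - P.z j) := by
    intro i j
    rcases hzd i j with h | h
    · rw [h]
    · rw [h, Int.gcd_neg]
  have hgs : ∀ i j, Int.gcd (P.t i - P.t j) (z' i + z' j - P.b) = P.g i j := by
    intro i j
    rcases hzs i j with h | h
    · rw [h, g]
    · rw [h, Int.gcd_neg, g]
  have key := lead P.a P.b P.t z' P.inj (by
      intro i
      have := P.eq i
      rw [hz']
      cases σ
      · simp only [Bool.false_eq_true, if_false]
        linear_combination this
      · simpa using this) (by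
      intro i j hij
      rw [hgd, hgs]
      exact P.smooth_sum hij) (ρ := 2 * R) (sh P.b w σ) (sh_diff hw σ) (by
      intro u hu
      have := hw2 u hu
      unfold sh
      cases σ
      · simp only [Bool.false_eq_true, if_false]
        linear_combination this
      · simpa using this) (by
      intro u hu
      have := hne u hu
      unfold sh
      cases σ
      · simp only [Bool.false_eq_true, if_false]
        intro h1
        apply this
        linear_combination -h1
      · simpa using this) (fun i => by linarith [ht i]) (by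
      intro i
      have := hwt i
      rw [hz']
      unfold sh
      cases σ
      · simp only [Bool.false_eq_true, if_false]
        rw [this]
        push_cast
        rfl
      · simpa using this) A B (pn (fun m => b (e m)) σ k.val) (pn (fun m => b (e m)) (!σ) k.val) e
      (e k) (by
      intro m hm he
      have h1 := (mem_pn.1 hm).2
      rw [he, ← hσ] at h1
      cases σ <;> simp at h1) (by
      intro m hm m' hm' he
      have h1 := (mem_pn.1 hm).2
      have h2 := (mem_pn.1 hm').2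
      rw [he, h2] at h1
      cases σ <;> simp at h1) q q' hq hq' hqe (by
      intro u hu
      have := hqe' u hu
      unfold fn at this
      rw [← this]
      congr 2
      unfold sh
      cases σ <;> simp)
  obtain ⟨n, hn⟩ := key
  refine ⟨n, ?_⟩
  simp only [hgs] at hn
  have hU : (∏ m ∈ pn (fun m => b (e m)) σ k.val, (P.g (e m) (e k) : ℂ)) ≠ 0 := by
    rw [Finset.prod_ne_zero_iff]
    intro m _
    exact_mod_cast (P.g_pos).ne'
  rw [← mul_div_assoc, eq_div_iff hU]
  exact hn

end FPts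

end Pool.TTF
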