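import Pool.Agent.Lib.MP_695920_nt.TT.Five.PosD

set_option autoImplicit false

/-!
TEAM TWOTORSION, n = 5: the determinant inequality for a sequence of nodes (OWNER helper31).
-/

open Polynomial Module

namespace Pool.TTF

namespace FPts

variable {ι : Type*} (P : FPts ι)

/-- The lower bound of a nonzero determinant. -/
theorem det_lower {R : ℝ} (hR : 0 < R) (w : ℂ → ℂ)
    (hw : DifferentiableOn ℂ w (Metric.ball 0 (2 * R)))
    (hw2 : ∀ u ∈ Metric.ball (0 : ℂ) (2 * R),
        w u ^ 2 = (P.a.map (Int.castRingHom ℂ)).eval u + P.b * w u)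
    (hne : ∀ u ∈ Metric.ball (0 : ℂ) (2 * R), 2 * w u - P.b ≠ 0)
    (hwt : ∀ i, w (P.t i) = P.z i) (ht : ∀ i, |(P.t i : ℝ)| < R)
    {s : ℕ} (e : Fin s → ι) (b : ι → Bool) (hτ : ∀ m : Fin s, ‖((P.t (e m) : ℤ) : ℂ)‖ < R)
    (c : Fin s → ℕ × Bool)
    (hdet : (Matrix.of fun k l => lmap R hR (fun m => b (e m)) (fun m => (P.t (e m) : ℂ)) hτ P.b w hw
      (mono (c l)) k).det ≠ 0) :
    -(1 / 2) * ∑ k, ∑ m, sg (b (e m)) * sg (b (e k)) * P.G (e m) (e k) ≤
      Real.log ‖(Matrix.of fun k l => lmap R hR (fun m => b (e m)) (fun m => (P.t (e m) : ℂ)) hτ P.b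
        w hw (mono (c l)) k).det‖ := by
  classical
  set sn : Fin s → Bool := fun m => b (e m) with hsn
  set τ : Fin s → ℂ := fun m => (P.t (e m) : ℂ) with hτd
  set L := lmap R hR sn τ hτ P.b w hw with hL
  set M : Matrix (Fin s) (Fin s) ℂ := Matrix.of fun k l => L (mono (c l)) k with hM
  let l : Fin s → (Fin s → ℤ) →+ ℂ := fun k =>
    { toFun := fun v => ∑ j, (v j : ℂ) * M k j
      map_zero' := by simp
      map_add' := by
        intro v v'
        rw [← Finset.sum_add_distrib]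
        refine Finset.sum_congr rfl fun j _ => ?_
        simp only [Pi.add_apply]
        push_cast
        ring }
  have hl : ∀ k v, l k v = ∑ j, (v j : ℂ) * M k j := fun k v => rfl
  set β : Fin s → ℂ := fun k => (∏ m ∈ pn sn (!b (e k)) k.val, (P.g (e m) (e k) : ℂ)) /
    ∏ m ∈ pn sn (b (e k)) k.val, (P.g (e m) (e k) : ℂ) with hβ
  have hgne : ∀ i j, (P.g i j : ℂ) ≠ 0 := fun i j => by exact_mod_cast (P.g_pos).ne'
  have hβ0 : ∀ k, β k ≠ 0 := by
    intro k
    rw [hβ]
    refine div_ne_zero ?_ ?_ <;>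
    · rw [Finset.prod_ne_zero_iff]
      intro m _
      exact hgne _ _
  have hlf : ∀ (v : Fin s → ℤ) (k : Fin s), lf R sn τ P.b w k
      ((∑ j, C (v j) * (if (c j).2 then 0 else X ^ (c j).1) : ℤ[X]).map (Int.castRingHom ℂ))
      ((∑ j, C (v j) * (if (c j).2 then X ^ (c j).1 else 0) : ℤ[X]).map (Int.castRingHom ℂ)) =
      l k v := by
    intro v k
    rw [← lmap_apply hR hτ hw (_, _) k, ← hL, hl]
    have h1 : (((∑ j, C (v j) * (if (c j).2 then 0 else X ^ (c j).1) : ℤ[X]).map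
        (Int.castRingHom ℂ), (∑ j, C (v j) * (if (c j).2 then X ^ (c j).1 else 0) : ℤ[X]).map
        (Int.castRingHom ℂ)) : ℂ[X] × ℂ[X]) = ∑ j, (v j : ℂ) • mono (c j) := by
      rw [Polynomial.map_sum, Polynomial.map_sum]
      have e1 : ∑ j, (C (v j) * (if (c j).2 then 0 else X ^ (c j).1) : ℤ[X]).map
          (Int.castRingHom ℂ) = ∑ j, ((v j : ℂ) • mono (c j)).1 := by
        refine Finset.sum_congr rfl fun j _ => ?_
        unfold mono
        by_cases h : (c j).2
        · rw [if_pos h, if_pos h]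
          simp
        · rw [if_neg h, if_neg h]
          simp [smul_eq_C_mul]
      have e2 : ∑ j, (C (v j) * (if (c j).2 then X ^ (c j).1 else 0) : ℤ[X]).map
          (Int.castRingHom ℂ) = ∑ j, ((v j : ℂ) • mono (c j)).2 := by
        refine Finset.sum_congr rfl fun j _ => ?_
        unfold mono
        by_cases h : (c j).2
        · rw [if_pos h, if_pos h]
          simp [smul_eq_C_mul]
        · rw [if_neg h, if_neg h]
          simp
      rw [e1, e2]
      refine Prod.ext ?_ ?_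
      · exact (Prod.fst_sum (s := Finset.univ) (f := fun j => (v j : ℂ) • mono (c j))).symm
      · exact (Prod.snd_sum (s := Finset.univ) (f := fun j => (v j : ℂ) • mono (c j))).symm
    rw [h1, map_sum, Finset.sum_apply]
    refine Finset.sum_congr rfl fun j _ => ?_
    rw [map_smul]
    rfl
  obtain ⟨m0, hm0⟩ := det_eq_int_mul s (Fin s → ℤ) (Pi.basisFun ℤ (Fin s)) l β hβ0 (by
    intro k v h0
    obtain ⟨n, hn⟩ := P.lattice hR w hw hw2 hne hwt ht e b
      (∑ j, C (v j) * (if (c j).2 then 0 else X ^ (c j).1))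
      (∑ j, C (v j) * (if (c j).2 then X ^ (c j).1 else 0)) k
      (fun m hm => by
        have := hlf v m
        rw [h0 m hm] at this
        exact this)
    refine ⟨n, ?_⟩
    rw [← hlf v k]
    exact hn)
  have hMl : (Matrix.of fun k j => l k ((Pi.basisFun ℤ (Fin s)) j)) = M := by
    ext k j
    rw [Matrix.of_apply, hl, Pi.basisFun_apply, Finset.sum_eq_single j]
    · simp
    · intro i _ hij
      rw [Pi.single_eq_of_ne hij]
      simp
    · intro h
      exact absurd (Finset.mem_univ j) h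
  rw [hMl] at hm0
  have hm0ne : m0 ≠ 0 := by
    rintro rfl
    rw [Int.cast_zero, zero_mul] at hm0
    exact hdet hm0
  -- logarithms
  have hnorm : ‖M.det‖ = |(m0 : ℝ)| * ∏ k, ‖β k‖ := by
    rw [hm0, norm_mul, norm_prod]
    congr 1
    simp
  have h1 : Real.log (∏ k, ‖β k‖) ≤ Real.log ‖M.det‖ := by
    apply Real.log_le_log
    · exact Finset.prod_pos fun k _ => norm_pos_iff.2 (hβ0 k)
    · rw [hnorm]
      have h2 : (1 : ℝ) ≤ |(m0 : ℝ)| := by exact_mod_cast Int.one_le_abs hm0ne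
      have h3 : 0 ≤ ∏ k, ‖β k‖ := Finset.prod_nonneg fun k _ => norm_nonneg _
      nlinarith
  refine le_trans ?_ h1
  rw [Real.log_prod fun k _ => (norm_pos_iff.2 (hβ0 k)).ne']
  have h2 : ∀ k, Real.log ‖β k‖ = ∑ m ∈ Finset.univ.filter (fun m : Fin s => m.val < k.val),
      (-(sg (b (e m)) * sg (b (e k)) * P.G (e m) (e k))) := by
    intro k
    have hp : ∀ σ, Real.log ‖∏ m ∈ pn sn σ k.val, (P.g (e m) (e k) : ℂ)‖ =
        ∑ m ∈ pn sn σ k.val, P.G (e m) (e k) := by
      intro σ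
      rw [norm_prod, Real.log_prod fun m _ => (norm_pos_iff.2 (hgne _ _)).ne']
      refine Finset.sum_congr rfl fun m _ => ?_
      rw [G_eq]
      simp
    rw [hβ]
    show Real.log ‖(∏ m ∈ pn sn (!b (e k)) k.val, (P.g (e m) (e k) : ℂ)) /
      ∏ m ∈ pn sn (b (e k)) k.val, (P.g (e m) (e k) : ℂ)‖ = _
    rw [norm_div, Real.log_div, hp, hp]
    · have e1 : pn sn (!b (e k)) k.val =
          (Finset.univ.filter (fun m : Fin s => m.val < k.val)).filter
            (fun m => ¬ b (e m) = b (e k)) := by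
        ext m
        rw [mem_pn, Finset.mem_filter, Finset.mem_filter]
        simp only [Finset.mem_univ, true_and, hsn]
        cases b (e m) <;> cases b (e k) <;> simp
      have e2 : pn sn (b (e k)) k.val =
          (Finset.univ.filter (fun m : Fin s => m.val < k.val)).filter
            (fun m => b (e m) = b (e k)) := by
        ext m
        rw [mem_pn, Finset.mem_filter, Finset.mem_filter]
        simp only [Finset.mem_univ, true_and, hsn]
      rw [e1, e2, ← Finset.sum_filter_add_sum_filter_not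
        (Finset.univ.filter (fun m : Fin s => m.val < k.val)) (fun m => b (e m) = b (e k))
        (f := fun m => -(sg (b (e m)) * sg (b (e k)) * P.G (e m) (e k)))]
      have e3 : ∑ m ∈ (Finset.univ.filter (fun m : Fin s => m.val < k.val)).filter
          (fun m => b (e m) = b (e k)), (-(sg (b (e m)) * sg (b (e k)) * P.G (e m) (e k))) =
          -∑ m ∈ (Finset.univ.filter (fun m : Fin s => m.val < k.val)).filter
            (fun m => b (e m) = b (e k)), P.G (e m) (e k) := by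
        rw [← Finset.sum_neg_distrib]
        refine Finset.sum_congr rfl fun m hm => ?_
        rw [sg_mul, if_pos (Finset.mem_filter.1 hm).2, one_mul]
      have e4 : ∑ m ∈ (Finset.univ.filter (fun m : Fin s => m.val < k.val)).filter
          (fun m => ¬ b (e m) = b (e k)), (-(sg (b (e m)) * sg (b (e k)) * P.G (e m) (e k))) =
          ∑ m ∈ (Finset.univ.filter (fun m : Fin s => m.val < k.val)).filter
            (fun m => ¬ b (e m) = b (e k)), P.G (e m) (e k) := by
        refine Finset.sum_congr rfl fun m hm => ?_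
        rw [sg_mul, if_neg (Finset.mem_filter.1 hm).2]
        ring
      rw [e3, e4]
      ring
    · rw [norm_ne_zero_iff, Finset.prod_ne_zero_iff]
      intro m _
      exact hgne _ _
    · rw [norm_ne_zero_iff, Finset.prod_ne_zero_iff]
      intro m _
      exact hgne _ _
  rw [Finset.sum_congr rfl fun k _ => h2 k,
    sum_lt (fun m k => -(sg (b (e m)) * sg (b (e k)) * P.G (e m) (e k))) (by
      intro m k
      rw [P.G_comm (e m) (e k)]
      ring)]
  simp only [Finset.sum_neg_distrib]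
  have h3 : 0 ≤ ∑ k, sg (b (e k)) * sg (b (e k)) * P.G (e k) (e k) := by
    refine Finset.sum_nonneg fun k _ => ?_
    rw [sg_mul, if_pos rfl, one_mul]
    exact P.G_nonneg _ _
  linarith

end FPts

/-- The determinant inequality. -/
theorem FPts.seq_ineq {ι : Type*} [Fintype ι] (P : FPts ι) (R T : ℝ) (hR : 1 ≤ R) (hT : 4 ≤ T)
    (hroot : ∀ z : ℂ, (P.F.map (Int.castRingHom ℂ)).IsRoot z → 2 * R ≤ ‖z‖)
    (ht : ∀ i, |(P.t i : ℝ)| ≤ 2 * R / T) (b : ι → Bool) :
    ∃ C : ℝ, 0 ≤ C ∧ ∀ (s : ℕ) (e : Fin s → ι), 1 ≤ s →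
      -(1 / 2) * ∑ k, ∑ m, sg (b (e m)) * sg (b (e k)) * P.G (e m) (e k) ≤
        -(1 / 4) * Real.log R * (∑ k, sg (b (e k))) ^ 2 + 2 / T * (s : ℝ) ^ 2 +
          C * ((s : ℝ) * Real.sqrt s) := by
  classical
  rcases isEmpty_or_nonempty ι with hemp | ⟨⟨i₀⟩⟩
  · refine ⟨0, le_rfl, fun s e hs => ?_⟩
    exact (hemp.false (e ⟨0, hs⟩)).elim
  have hR0 : 0 < R := by linarith
  have hT0 : 0 < T := by linarith
  have htR : 2 * R / T ≤ R / 2 := by
    rw [div_le_div_iff₀ hT0 two_pos]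
    nlinarith
  have ht1 : ∀ i, |(P.t i : ℝ)| < R := fun i => by linarith [ht i]
  obtain ⟨w, hw, hw2, hne, hwt⟩ := P.exists_w hR0 hroot (fun i => by linarith [ht1 i]) i₀
  -- a bound on the circle
  obtain ⟨Z, hZ1, hZ⟩ : ∃ Z : ℝ, 1 ≤ Z ∧ ∀ σ, ∀ u ∈ Metric.sphere (0 : ℂ) R, ‖sh P.b w σ u‖ ≤ Z := by
    obtain ⟨Z1, h1⟩ := (isCompact_sphere (0 : ℂ) R).exists_bound_of_continuousOn
      ((sh_diff (b := P.b) hw true).continuousOn.mono (sphere_sub_ball hR0))
    obtain ⟨Z2, h2⟩ := (isCompact_sphere (0 : ℂ) R).exists_bound_of_continuousOn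
      ((sh_diff (b := P.b) hw false).continuousOn.mono (sphere_sub_ball hR0))
    refine ⟨max 1 (max Z1 Z2), le_max_left _ _, fun σ u hu => ?_⟩
    cases σ
    · exact (h2 u hu).trans ((le_max_right _ _).trans (le_max_right _ _))
    · exact (h1 u hu).trans ((le_max_left _ _).trans (le_max_right _ _))
  set n := P.a.natDegree with hn
  set lR := Real.log R with hlR
  have hlR0 : 0 ≤ lR := Real.log_nonneg hR
  have hlZ0 : 0 ≤ Real.log Z := Real.log_nonneg hZ1
  refine ⟨2 + Real.log Z + 1 / 4 * (2 * ((n : ℝ) + 2) + ((n : ℝ) + 2) ^ 2) * lR + 1 / 2 * lR + 1 / 2,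
    by positivity, fun s e hs => ?_⟩
  have hs' : (1 : ℝ) ≤ s := by exact_mod_cast hs
  set sn : Fin s → Bool := fun m => b (e m) with hsn
  set τ : Fin s → ℂ := fun m => (P.t (e m) : ℂ) with hτd
  have hτn : ∀ m : Fin s, ‖τ m‖ = |(P.t (e m) : ℝ)| := by
    intro m
    rw [hτd]
    simp
  have hτ : ∀ m : Fin s, ‖τ m‖ < R := fun m => by rw [hτn]; exact ht1 _
  have hsep : ∀ m m', sn m ≠ sn m' → τ m ≠ τ m' := by
    intro m m' h1 h2
    have h2' : ((P.t (e m) : ℤ) : ℂ) = ((P.t (e m') : ℤ) : ℂ) := h2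
    have h3 : P.t (e m) = P.t (e m') := by exact_mod_cast h2'
    apply h1
    rw [hsn]
    show b (e m) = b (e m')
    rw [P.inj h3]
  have hcinj : Function.Injective (Int.castRingHom ℂ) := Int.cast_injective
  have hndeg : (P.a.map (Int.castRingHom ℂ)).natDegree = n := natDegree_map_eq_of_injective hcinj _
  obtain ⟨c, hcinj', hcdeg, hdet⟩ := exists_columns n s ((s + n + 2) / 2) (by omega)
    (lmap R hR0 sn τ hτ P.b w hw) (lmap_X hR0 hτ hw) (lmap_surj hR0 hτ hw hsep)
    (fun k A B hk hA hB h => lmap_inj hR0 hτ hw (P.a.map (Int.castRingHom ℂ))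
      P.nsq hw2 k A B (by rw [hndeg]; exact hk) hA hB h)
  refine (P.det_lower hR0 w hw hw2 hne hwt ht1 e b hτ c hdet).trans ?_
  -- the upper bound
  set q : ℝ := R * (1 - 2 / T) with hq
  have h2T : 2 / T ≤ 1 / 2 := by
    rw [div_le_div_iff₀ hT0 two_pos]
    linarith
  have hq0 : 0 < q := by
    rw [hq]
    exact mul_pos hR0 (by linarith)
  set K : Fin s → ℕ := fun k => (insert k (pn sn (sn k) k.val)).card with hK
  have hent : ∀ k j, ‖(Matrix.of fun k l => lmap R hR0 sn τ hτ P.b w hw (mono (c l)) k) k j‖ ≤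
      (R / q ^ K k) * (R ^ (c j).1 * Z) := by
    intro k j
    rw [Matrix.of_apply, lmap_apply]
    have h1 : ∀ u ∈ Metric.sphere (0 : ℂ) R,
        ‖fn P.b w (sn k) (mono (c j)).1 (mono (c j)).2 u‖ ≤ R ^ (c j).1 * Z := by
      intro u hu
      have hu' : ‖u‖ = R := mem_sphere_zero_iff_norm.1 hu
      unfold fn mono
      by_cases h : (c j).2
      · rw [if_pos h]
        simp only [eval_zero, zero_add, eval_pow, eval_X]
        rw [norm_mul, norm_pow, hu']
        exact mul_le_mul_of_nonneg_left (hZ _ u hu) (by positivity)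
      · rw [if_neg h]
        simp only [eval_zero, zero_mul, add_zero, eval_pow, eval_X]
        rw [norm_pow, hu']
        exact le_mul_of_one_le_right (by positivity) hZ1
    refine (norm_nc_le hR0 (fun m _ => hτ m) h1).trans ?_
    have h2 : q ^ K k ≤ ∏ m ∈ insert k (pn sn (sn k) k.val), (R - ‖τ m‖) := by
      rw [hK, ← Finset.prod_const]
      refine Finset.prod_le_prod (fun _ _ => hq0.le) fun m _ => ?_
      rw [hτn, hq]
      have := ht (e m)
      have e3 : R * (1 - 2 / T) = R - 2 * R / T := by ring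
      rw [e3]
      linarith
    have h3 : 0 < q ^ K k := by positivity
    calc R ^ (c j).1 * Z * R / ∏ m ∈ insert k (pn sn (sn k) k.val), (R - ‖τ m‖)
        ≤ R ^ (c j).1 * Z * R / q ^ K k := by
          apply div_le_div_of_nonneg_left (by positivity) h3 h2
      _ = (R / q ^ K k) * (R ^ (c j).1 * Z) := by ring
  have hup := norm_det_le _ (fun k => R / q ^ K k) (fun j => R ^ (c j).1 * Z) hent
  have hlog : Real.log ‖(Matrix.of fun k l => lmap R hR0 sn τ hτ P.b w hw (mono (c l)) k).det‖ ≤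
      Real.log (s.factorial : ℝ) + (∑ k, (lR - K k * Real.log q) +
        ∑ j, ((c j).1 * lR + Real.log Z)) := by
    have h1 := Real.log_le_log (norm_pos_iff.2 hdet) hup
    refine h1.trans (le_of_eq ?_)
    have hp1 : ∀ k : Fin s, 0 < R / q ^ K k := fun k => by positivity
    have hp2 : ∀ j : Fin s, 0 < R ^ (c j).1 * Z := fun j => by positivity
    rw [Real.log_mul (by exact_mod_cast (Nat.factorial_pos s).ne')
        (mul_pos (Finset.prod_pos fun k _ => hp1 k) (Finset.prod_pos fun j _ => hp2 j)).ne',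
      Real.log_mul (Finset.prod_pos fun k _ => hp1 k).ne' (Finset.prod_pos fun j _ => hp2 j).ne',
      Real.log_prod fun k _ => (hp1 k).ne', Real.log_prod fun j _ => (hp2 j).ne']
    congr 2
    · refine Finset.sum_congr rfl fun k _ => ?_
      rw [Real.log_div hR0.ne' (by positivity), Real.log_pow]
    · refine Finset.sum_congr rfl fun j _ => ?_
      rw [Real.log_mul (by positivity) (by positivity), Real.log_pow]
  refine hlog.trans ?_
  -- the number of pairs of nodes on the same sheet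
  set E : ℝ := ∑ k, sg (b (e k)) with hE
  have hKsum : ∑ k, (K k : ℝ) = 1 / 2 * s + 1 / 4 * ((s : ℝ) ^ 2 + E ^ 2) := by
    have h1 : ∀ k, (K k : ℝ) = 1 + ∑ m ∈ Finset.univ.filter (fun m : Fin s => m.val < k.val),
        (1 + sg (b (e m)) * sg (b (e k))) / 2 := by
      intro k
      have h2 : K k = 1 + (pn sn (sn k) k.val).card := by
        rw [hK]
        show (insert k (pn sn (sn k) k.val)).card = _
        rw [Finset.card_insert_of_notMem (not_mem_pn sn _ k), add_comm]
      have h3 : pn sn (sn k) k.val = (Finset.univ.filter (fun m : Fin s => m.val < k.val)).filter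
          (fun m => b (e m) = b (e k)) := by
        ext m
        rw [mem_pn, Finset.mem_filter, Finset.mem_filter]
        simp only [Finset.mem_univ, true_and, hsn]
      rw [h2, h3, Finset.card_filter]
      push_cast
      congr 1
      refine Finset.sum_congr rfl fun m _ => ?_
      rw [sg_mul]
      by_cases h : b (e m) = b (e k)
      · rw [if_pos h, if_pos h]
        norm_num
      · rw [if_neg h, if_neg h]
        norm_num
    rw [Finset.sum_congr rfl fun k _ => h1 k, Finset.sum_add_distrib,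
      sum_lt (fun m k => (1 + sg (b (e m)) * sg (b (e k))) / 2) (by intro m k; ring)]
    have h4 : ∑ k : Fin s, ∑ m : Fin s, (1 + sg (b (e m)) * sg (b (e k))) / 2 =
        1 / 2 * ((s : ℝ) ^ 2 + E ^ 2) := by
      have h6 : ∑ k : Fin s, ∑ m : Fin s, (1 + sg (b (e m)) * sg (b (e k))) / 2 =
          1 / 2 * (∑ k : Fin s, ∑ m : Fin s, (1 : ℝ)) +
            1 / 2 * ∑ k : Fin s, ∑ m : Fin s, sg (b (e k)) * sg (b (e m)) := by
        simp only [Finset.mul_sum]
        rw [← Finset.sum_add_distrib]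
        refine Finset.sum_congr rfl fun k _ => ?_
        rw [← Finset.sum_add_distrib]
        refine Finset.sum_congr rfl fun m _ => ?_
        ring
      rw [h6, ← Finset.sum_mul_sum, ← hE]
      simp only [Finset.sum_const, Finset.card_univ, Fintype.card_fin, nsmul_eq_mul, mul_one]
      ring
    have h5 : ∑ k : Fin s, (1 + sg (b (e k)) * sg (b (e k))) / 2 = s := by
      have : ∀ k : Fin s, (1 + sg (b (e k)) * sg (b (e k))) / 2 = 1 := by
        intro k
        rw [sg_mul, if_pos rfl]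
        norm_num
      rw [Finset.sum_congr rfl fun k _ => this k]
      simp
    rw [h4, h5]
    simp only [Finset.sum_const, Finset.card_univ, Fintype.card_fin, nsmul_eq_mul, mul_one]
    ring
  have hEs : E ^ 2 ≤ (s : ℝ) ^ 2 := by
    rw [sq_le_sq, abs_of_nonneg (by linarith : (0 : ℝ) ≤ s)]
    refine (Finset.abs_sum_le_sum_abs _ _).trans (le_of_eq ?_)
    rw [Finset.sum_congr rfl fun k _ => sg_abs (b (e k))]
    simp
  have hdegsum : ∑ j, ((c j).1 : ℝ) ≤ (((s : ℝ) + n + 2) / 2) ^ 2 := by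
    have h1 := sum_deg_le c hcinj' hcdeg
    have h2 : (∑ j, (c j).1 : ℕ) ≤ ((s + n + 2) / 2) * ((s + n + 2) / 2) :=
      h1.trans (Nat.mul_le_mul_left _ (Nat.sub_le _ _))
    have h3 : (((s + n + 2) / 2 : ℕ) : ℝ) ≤ ((s : ℝ) + n + 2) / 2 := by
      have := @Nat.cast_div_le ℝ _ _ _ (s + n + 2) 2
      push_cast at this
      exact this
    have h4 : ((∑ j, (c j).1 : ℕ) : ℝ) ≤ (((s + n + 2) / 2 : ℕ) : ℝ) * (((s + n + 2) / 2 : ℕ) : ℝ) := by
      exact_mod_cast h2
    push_cast at h4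
    refine h4.trans ?_
    rw [sq]
    exact mul_le_mul h3 h3 (by positivity) (by positivity)
  have hlogq : lR - 4 / T ≤ Real.log q := by
    rw [hq, Real.log_mul hR0.ne' (by linarith)]
    have := neg_log_le hT
    linarith
  have hK0 : 0 ≤ ∑ k, (K k : ℝ) := Finset.sum_nonneg fun k _ => by positivity
  have hsum1 : ∑ k, (lR - K k * Real.log q) = s * lR - (∑ k, (K k : ℝ)) * Real.log q := by
    rw [Finset.sum_sub_distrib, ← Finset.sum_mul]
    simp
  have hsum2 : ∑ j : Fin s, (((c j).1 : ℝ) * lR + Real.log Z) =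
      (∑ j, ((c j).1 : ℝ)) * lR + s * Real.log Z := by
    rw [Finset.sum_add_distrib, ← Finset.sum_mul]
    simp
  rw [hsum1, hsum2]
  have hfac := log_factorial_le hs
  have hsq : (s : ℝ) ≤ s * Real.sqrt s :=
    le_mul_of_one_le_right (by linarith) (Real.one_le_sqrt.2 hs')
  have b1 : -((∑ k, (K k : ℝ)) * Real.log q) ≤ -((∑ k, (K k : ℝ)) * lR) +
      (∑ k, (K k : ℝ)) * (4 / T) := by
    have := mul_le_mul_of_nonneg_left hlogq hK0
    linarith
  have b2 : (∑ k, (K k : ℝ)) * (4 / T) ≤ 2 / T * ((s : ℝ) ^ 2 + s) := by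
    rw [hKsum]
    have h4T : 0 ≤ 4 / T := by positivity
    have : 1 / 2 * (s : ℝ) + 1 / 4 * ((s : ℝ) ^ 2 + E ^ 2) ≤ 1 / 2 * ((s : ℝ) ^ 2 + s) := by
      linarith
    calc (1 / 2 * (s : ℝ) + 1 / 4 * ((s : ℝ) ^ 2 + E ^ 2)) * (4 / T)
        ≤ (1 / 2 * ((s : ℝ) ^ 2 + s)) * (4 / T) := mul_le_mul_of_nonneg_right this h4T
      _ = _ := by ring
  have b3 : (∑ j, ((c j).1 : ℝ)) * lR ≤ (((s : ℝ) + n + 2) / 2) ^ 2 * lR :=
    mul_le_mul_of_nonneg_right hdegsum hlR0
  have b4 : 2 / T * (s : ℝ) ≤ 1 / 2 * s := mul_le_mul_of_nonneg_right h2T (by linarith)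
  rw [hKsum] at b1 b2
  have b5 : 1 / 4 * (2 * ((n : ℝ) + 2) * s + ((n : ℝ) + 2) ^ 2) * lR ≤
      1 / 4 * (2 * ((n : ℝ) + 2) + ((n : ℝ) + 2) ^ 2) * lR * s := by
    have : 1 / 4 * (2 * ((n : ℝ) + 2) * s + ((n : ℝ) + 2) ^ 2) ≤
        1 / 4 * (2 * ((n : ℝ) + 2) + ((n : ℝ) + 2) ^ 2) * s := by
      nlinarith [sq_nonneg ((n : ℝ) + 2)]
    calc 1 / 4 * (2 * ((n : ℝ) + 2) * s + ((n : ℝ) + 2) ^ 2) * lR
        ≤ 1 / 4 * (2 * ((n : ℝ) + 2) + ((n : ℝ) + 2) ^ 2) * s * lR :=
          mul_le_mul_of_nonneg_right this hlR0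
      _ = _ := by ring
  have b6 : (Real.log Z + 1 / 4 * (2 * ((n : ℝ) + 2) + ((n : ℝ) + 2) ^ 2) * lR + 1 / 2 * lR +
      1 / 2) * s ≤ (Real.log Z + 1 / 4 * (2 * ((n : ℝ) + 2) + ((n : ℝ) + 2) ^ 2) * lR +
      1 / 2 * lR + 1 / 2) * (s * Real.sqrt s) :=
    mul_le_mul_of_nonneg_left hsq (by positivity)
  rw [hKsum]
  have e1 : (((s : ℝ) + n + 2) / 2) ^ 2 * lR =
      1 / 4 * (s : ℝ) ^ 2 * lR + 1 / 4 * (2 * ((n : ℝ) + 2) * s + ((n : ℝ) + 2) ^ 2) * lR := by ring
  rw [e1] at b3
  linarith [b1, b2, b3, b4, b5, b6, hfac]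

end Pool.TTF
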