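import Pool.Agent.Lib.MP_695920_nt.TT.Five.QCls
import Pool.Agent.Lib.MP_695920_nt.TT.Five.WPart

set_option autoImplicit false

/-!
TEAM TWOTORSION, `n = 5`: the coarsest modulus of a class from the ideal `(x - θ, w ^ 2)`
(helper16).
-/

open Polynomial NumberField Module

namespace Pool.TT.Five

section

variable {K : Type} [Field K] [NumberField K] (θ : 𝓞 K)

/-- the ideal `(x - θ, w ^ 2)` -/
noncomputable def Jx (x : ℤ) (w : ℕ) : Ideal (𝓞 K) :=
  Ideal.span {(x : 𝓞 K) - θ, (w : 𝓞 K) ^ 2}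

/-- the positive generator of `J ∩ ℤ` -/
noncomputable def gen (J : Ideal (𝓞 K)) : ℕ :=
  (Submodule.IsPrincipal.generator (J.comap (algebraMap ℤ (𝓞 K)))).natAbs

theorem gen_dvd {J : Ideal (𝓞 K)} {a : ℤ} : (gen J : ℤ) ∣ a ↔ (a : 𝓞 K) ∈ J := by
  rw [gen, Int.natAbs_dvd, ← Submodule.IsPrincipal.mem_iff_generator_dvd, Ideal.mem_comap]
  rfl

theorem gen_mem (J : Ideal (𝓞 K)) : ((gen J : ℕ) : 𝓞 K) ∈ J := by
  have := (gen_dvd (J := J) (a := gen J)).1 dvd_rfl
  exact_mod_cast this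

theorem w_sq_mem (x : ℤ) (w : ℕ) : (w : 𝓞 K) ^ 2 ∈ Jx θ x w :=
  Ideal.subset_span (by simp)

theorem sub_mem_Jx (x : ℤ) (w : ℕ) : (x : 𝓞 K) - θ ∈ Jx θ x w :=
  Ideal.subset_span (by simp)

theorem gen_dvd_w (x : ℤ) (w : ℕ) : gen (Jx θ x w) ∣ w ^ 2 := by
  have h := (gen_dvd (J := Jx θ x w) (a := (w : ℤ) ^ 2)).2 (by
    have := w_sq_mem θ x w
    push_cast
    exact this)
  exact_mod_cast h

/-- points with the same ideal are congruent -/
theorem gen_dvd_sub {x x' : ℤ} {w : ℕ} (h : Jx θ x w = Jx θ x' w) :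
    (gen (Jx θ x w) : ℤ) ∣ x - x' := by
  rw [gen_dvd]
  have h1 := sub_mem_Jx θ x w
  have h2 := sub_mem_Jx θ x' w
  rw [← h] at h2
  have h3 := Ideal.sub_mem _ h1 h2
  push_cast
  have e : (x : 𝓞 K) - θ - ((x' : 𝓞 K) - θ) = (x : 𝓞 K) - x' := by ring
  rwa [e] at h3

/-- `x - θ` divides `f(x)` -/
theorem sub_dvd_eval (x : ℤ) :
    (x : 𝓞 K) - θ ∣ (((minpoly ℤ θ).eval x : ℤ) : 𝓞 K) := by
  have h1 := Polynomial.sub_dvd_eval_sub (x : 𝓞 K) θ ((minpoly ℤ θ).map (algebraMap ℤ (𝓞 K)))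
  have h2 : ((minpoly ℤ θ).map (algebraMap ℤ (𝓞 K))).eval θ = 0 := by
    rw [eval_map_algebraMap, minpoly.aeval]
  have h3 : ((minpoly ℤ θ).map (algebraMap ℤ (𝓞 K))).eval (x : 𝓞 K) =
      (((minpoly ℤ θ).eval x : ℤ) : 𝓞 K) := by
    rw [show (x : 𝓞 K) = algebraMap ℤ (𝓞 K) x from rfl, eval_map_algebraMap,
      aeval_algebraMap_apply]
    rfl
  rw [h2, h3, sub_zero] at h1
  exact h1

/-- the generator of `J ∩ ℤ` times a number prime to `w` is divisible by `x - θ` -/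
theorem exists_quot {x y : ℤ} {w : ℕ} {u : ℤ} (hy : y ^ 2 = (minpoly ℤ θ).eval x)
    (hu : (w : ℤ) * u = 2 * y) :
    ∃ γ : 𝓞 K, γ * (θ - x) = (u : 𝓞 K) ^ 2 * (gen (Jx θ x w) : ℕ) := by
  have h1 := gen_mem (Jx θ x w)
  rw [Jx, Ideal.mem_span_pair] at h1
  obtain ⟨a, b, hab⟩ := h1
  obtain ⟨d, hd⟩ := sub_dvd_eval θ x
  rw [← hy] at hd
  push_cast at hd
  have hu' : (w : 𝓞 K) * u = 2 * y := by exact_mod_cast hu
  refine ⟨-((u : 𝓞 K) ^ 2 * a + b * (4 * d)), ?_⟩
  rw [Jx, ← hab]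
  have h2 : (w : 𝓞 K) ^ 2 * (u : 𝓞 K) ^ 2 = 4 * ((x : 𝓞 K) - θ) * d := by
    have : (w : 𝓞 K) ^ 2 * (u : 𝓞 K) ^ 2 = ((w : 𝓞 K) * u) ^ 2 := by ring
    rw [this, hu']
    linear_combination 4 * hd
  linear_combination (-b) * h2

end

theorem natDegree_le_of_mul {K : Type} [Field K] [NumberField K] (θ γ : 𝓞 K) (x a : ℤ)
    (ha : a ≠ 0) (hγ : γ * (θ - x) = a) :
    (minpoly ℤ θ).natDegree ≤ (minpoly ℤ γ).natDegree := by
  have key : ∀ δ : 𝓞 K, (minpoly ℤ δ).natDegree =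
      finrank ℚ (IntermediateField.adjoin ℚ {(δ : K)}) := by
    intro δ
    have hint : IsIntegral ℤ (δ : K) := δ.isIntegral_coe
    have h1 : minpoly ℚ (δ : K) = (minpoly ℤ (δ : K)).map (algebraMap ℤ ℚ) :=
      minpoly.isIntegrallyClosed_eq_field_fractions' ℚ hint
    have h2 : minpoly ℤ (δ : K) = minpoly ℤ δ :=
      minpoly.algebraMap_eq NumberField.RingOfIntegers.coe_injective δ
    rw [IntermediateField.adjoin.finrank (hint.tower_top), h1, h2,
      (minpoly.monic (NumberField.RingOfIntegers.isIntegral δ)).natDegree_map]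
  rw [key, key]
  have hγK : (γ : K) * ((θ : K) - x) = a := by
    have := congrArg (fun z : 𝓞 K => (z : K)) hγ
    simpa using this
  have hγ0 : (γ : K) ≠ 0 := by
    intro h0
    rw [h0, zero_mul] at hγK
    have : (a : K) = 0 := hγK.symm
    exact ha (by exact_mod_cast this)
  have hmem : (θ : K) ∈ IntermediateField.adjoin ℚ {(γ : K)} := by
    have h1 : (θ : K) = a * (γ : K)⁻¹ + x := by
      field_simp
      linear_combination hγK
    rw [h1]
    have hg : (γ : K) ∈ IntermediateField.adjoin ℚ {(γ : K)} :=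
      IntermediateField.mem_adjoin_simple_self ℚ _
    exact add_mem (mul_mem (intCast_mem _ a) (inv_mem hg)) (intCast_mem _ x)
  have hle : IntermediateField.adjoin ℚ {(θ : K)} ≤ IntermediateField.adjoin ℚ {(γ : K)} := by
    rw [IntermediateField.adjoin_le_iff]
    simpa using hmem
  exact Submodule.finrank_mono (show (IntermediateField.adjoin ℚ {(θ : K)}).toSubmodule ≤
    (IntermediateField.adjoin ℚ {(γ : K)}).toSubmodule from hle)

/-- the coefficients of the reversed polynomial -/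
theorem coeff_dvd {K : Type} [Field K] [NumberField K] (θ : 𝓞 K) (x : ℤ)
    (hx : (minpoly ℤ θ).eval x ≠ 0)
    (a : ℤ) (ha : a ≠ 0) (γ : 𝓞 K) (hγ : γ * (θ - x) = a) (k : ℕ) :
    (minpoly ℤ θ).eval x ∣ a ^ k * (taylor x (minpoly ℤ θ)).coeff k := by
  have hγdeg := natDegree_le_of_mul θ γ x a ha hγ
  set f := minpoly ℤ θ with hf
  set n := f.natDegree with hn
  have hint : IsIntegral ℤ θ := NumberField.RingOfIntegers.isIntegral θ
  have hmon : f.Monic := minpoly.monic hint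
  set g := taylor x f with hg
  have hgn : g.natDegree = n := by rw [hg, natDegree_taylor]
  have hg0 : g.coeff 0 = f.eval x := by rw [hg, taylor_coeff_zero]
  -- the polynomial `h`
  set h : ℤ[X] := ∑ i ∈ Finset.range (n + 1), C (g.coeff i * a ^ i) * X ^ (n - i) with hh
  have hcoeff : ∀ i ≤ n, h.coeff (n - i) = g.coeff i * a ^ i := by
    intro i hi
    rw [hh, finsetSum_coeff, Finset.sum_eq_single i]
    · rw [coeff_C_mul_X_pow, if_pos rfl]
    · intro j hj hji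
      rw [coeff_C_mul_X_pow, if_neg]
      have := Finset.mem_range.1 hj
      omega
    · intro hi'
      exact absurd (Finset.mem_range.2 (by omega)) hi'
  have hroot : aeval γ h = 0 := by
    have hgβ : aeval (θ - x) g = 0 := by
      rw [hg, taylor_apply, aeval_comp]
      simp only [map_add, aeval_X, aeval_C]
      have : (θ - (x : 𝓞 K) + (algebraMap ℤ (𝓞 K)) x) = θ := by
        rw [show (algebraMap ℤ (𝓞 K)) x = (x : 𝓞 K) from rfl]
        ring
      rw [this, hf, minpoly.aeval]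
    have h1 : aeval γ h = γ ^ n * aeval (θ - (x : 𝓞 K)) g := by
      rw [aeval_eq_sum_range (p := g), hgn, Finset.mul_sum, hh, map_sum]
      refine Finset.sum_congr rfl fun i hi => ?_
      have hi' : i ≤ n := by
        have := Finset.mem_range.1 hi
        omega
      rw [map_mul, map_pow, aeval_X, aeval_C]
      have h2 : γ ^ n = γ ^ i * γ ^ (n - i) := by rw [← pow_add]; congr 1; omega
      have h3 : ((a : ℤ) : 𝓞 K) ^ i = γ ^ i * (θ - x) ^ i := by rw [← mul_pow, hγ]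
      rw [h2, map_mul, map_pow]
      rw [show (algebraMap ℤ (𝓞 K)) a = (a : 𝓞 K) from rfl, h3, zsmul_eq_mul]
      rw [show (algebraMap ℤ (𝓞 K)) (g.coeff i) = ((g.coeff i : ℤ) : 𝓞 K) from rfl]
      ring
    rw [h1, hgβ, mul_zero]
  have hintγ : IsIntegral ℤ γ := NumberField.RingOfIntegers.isIntegral γ
  obtain ⟨r, hr⟩ := minpoly.isIntegrallyClosed_dvd hintγ hroot
  have hlead : h.coeff n = f.eval x := by
    have := hcoeff 0 (Nat.zero_le _)
    rw [Nat.sub_zero, hg0, pow_zero, mul_one] at this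
    exact this
  have hh0 : h ≠ 0 := by
    intro h0
    rw [h0, coeff_zero] at hlead
    exact hx hlead.symm
  have hr0 : r ≠ 0 := by
    rintro rfl
    rw [mul_zero] at hr
    exact hh0 hr
  have hmonγ : (minpoly ℤ γ).Monic := minpoly.monic hintγ
  have hdeg : h.natDegree ≤ n := by
    rw [hh]
    apply natDegree_sum_le_of_forall_le
    intro i _
    exact (natDegree_C_mul_X_pow_le _ _).trans (Nat.sub_le _ _)
  have hrdeg : r.natDegree = 0 := by
    rw [hr, hmonγ.natDegree_mul' hr0] at hdeg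
    omega
  obtain ⟨c, hc⟩ := natDegree_eq_zero.1 hrdeg
  have hcn : c = f.eval x := by
    have hγn : (minpoly ℤ γ).natDegree = n := by
      rw [hr, hmonγ.natDegree_mul' hr0] at hdeg
      omega
    rw [← hlead, hr, ← hc, coeff_mul_C, ← hγn, hmonγ.coeff_natDegree, one_mul]
  rcases le_or_gt k n with hk | hk
  · have h1 := hcoeff k hk
    rw [hr, ← hc, coeff_mul_C, hcn] at h1
    rw [mul_comm, ← h1]
    exact dvd_mul_left _ _
  · rw [coeff_eq_zero_of_natDegree_lt (by rw [hgn]; exact hk), mul_zero]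
    exact dvd_zero _

/-- the modulus of the class of the point -/
noncomputable def modq {K : Type} [Field K] [NumberField K] (θ : 𝓞 K) (x : ℤ) (w : ℕ) : ℕ :=
  if Even w then 4 * gen (Jx θ x w) else gen (Jx θ x w)

theorem gen_ne_zero {K : Type} [Field K] [NumberField K] (θ : 𝓞 K) (x : ℤ) {w : ℕ}
    (hw : w ≠ 0) : gen (Jx θ x w) ≠ 0 := by
  intro h0
  have h1 := gen_dvd_w θ x w
  rw [h0, zero_dvd_iff] at h1
  exact hw (pow_eq_zero_iff two_ne_zero |>.1 h1)

theorem modq_ne_zero {K : Type} [Field K] [NumberField K] (θ : 𝓞 K) (x : ℤ) {w : ℕ}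
    (hw : w ≠ 0) : modq θ x w ≠ 0 := by
  have := gen_ne_zero θ x hw
  unfold modq
  split_ifs
  · omega
  · exact this

theorem prime_dvd_modq {K : Type} [Field K] [NumberField K] (θ : 𝓞 K) (x : ℤ) (w : ℕ) {p : ℕ}
    (hp : p.Prime) (h : p ∣ modq θ x w) : p ∣ w := by
  have h1 := gen_dvd_w θ x w
  unfold modq at h
  split_ifs at h with hev
  · rcases (Nat.Prime.dvd_mul hp).1 h with h2 | h2
    · have h3 : p ∣ 2 := by
        have : p ∣ 2 ^ 2 := h2
        exact hp.dvd_of_dvd_pow this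
      have h4 : p = 2 := (Nat.prime_dvd_prime_iff_eq hp Nat.prime_two).1 h3
      rw [h4]
      exact hev.two_dvd
    · exact hp.dvd_of_dvd_pow (h2.trans h1)
  · exact hp.dvd_of_dvd_pow (h.trans h1)

theorem comp_eq_taylor (f : ℤ[X]) (q x : ℤ) :
    f.comp (C q * X + C x) = (taylor x f).comp (C q * X) := by
  rw [taylor_apply, comp_assoc]
  simp

/-- (Q): `w ^ 2` divides `f(x + q t) - f(x)` -/
theorem dE_of_ideal {K : Type} [Field K] [NumberField K] (θ : 𝓞 K) {x y : ℤ} {w : ℕ}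
    (hw : w ≠ 0) (hy0 : 0 < y) (hy : y ^ 2 = (minpoly ℤ θ).eval x) {u : ℤ}
    (hu : (w : ℤ) * u = 2 * y) (hcop : IsCoprime u (w : ℤ)) :
    C ((w : ℤ) ^ 2) ∣
      (minpoly ℤ θ).comp (C ((modq θ x w : ℕ) : ℤ) * X + C x) - C (y ^ 2) := by
  obtain ⟨γ, hγ⟩ := exists_quot θ hy hu
  set G : ℤ := ((gen (Jx θ x w) : ℕ) : ℤ) with hG
  have hG0 : G ≠ 0 := by
    rw [hG]
    exact_mod_cast gen_ne_zero θ x hw
  have hu0 : u ≠ 0 := by
    rintro rfl
    rw [mul_zero] at hu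
    omega
  have hx : (minpoly ℤ θ).eval x ≠ 0 := by
    rw [← hy]
    exact pow_ne_zero 2 hy0.ne'
  have hc := coeff_dvd θ x hx (u ^ 2 * G) (mul_ne_zero (pow_ne_zero 2 hu0) hG0) γ (by
    rw [hγ, hG]
    push_cast
    ring)
  rw [← hy] at hc
  have hcop2 : IsCoprime ((w : ℤ) ^ 2) (u ^ 2) := (hcop.symm).pow
  rw [comp_eq_taylor, C_dvd_iff_dvd_coeff]
  intro k
  rw [coeff_sub, comp_C_mul_X_coeff, coeff_C]
  rcases Nat.eq_zero_or_pos k with rfl | hk
  · rw [if_pos rfl, taylor_coeff_zero, ← hy, pow_zero, mul_one, sub_self]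
    exact dvd_zero _
  rw [if_neg hk.ne', sub_zero]
  set gk := (taylor x (minpoly ℤ θ)).coeff k with hgk
  have hck : y ^ 2 ∣ (u ^ 2) ^ k * (gk * G ^ k) := by
    have := hc k
    rw [mul_pow, ← hgk] at this
    have e : (u ^ 2) ^ k * (gk * G ^ k) = (u ^ 2) ^ k * G ^ k * gk := by ring
    rw [e]
    exact this
  unfold modq
  split_ifs with hev
  · push_cast
    rw [← hG]
    have h1 : (w : ℤ) ^ 2 ∣ (2 * y) ^ 2 := pow_dvd_pow_of_dvd ⟨u, hu.symm⟩ 2
    have h2 : (2 * y) ^ 2 ∣ (u ^ 2) ^ k * (gk * (4 * G) ^ k) := by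
      obtain ⟨m, hm⟩ := hck
      obtain ⟨l, rfl⟩ : ∃ l, k = l + 1 := ⟨k - 1, by omega⟩
      refine ⟨m * 4 ^ l, ?_⟩
      calc (u ^ 2) ^ (l + 1) * (gk * (4 * G) ^ (l + 1)) =
            4 ^ (l + 1) * ((u ^ 2) ^ (l + 1) * (gk * G ^ (l + 1))) := by rw [mul_pow]; ring
        _ = _ := by rw [hm]; ring
    exact ((hcop2.pow_right (n := k))).dvd_of_dvd_mul_left (h1.trans h2)
  · rw [← hG]
    have hodd : IsCoprime (w : ℤ) 2 := by
      have h3 : Odd (w : ℤ) := by
        rw [← Int.not_even_iff_odd]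
        intro h4
        exact hev (by exact_mod_cast h4)
      exact (Int.isCoprime_two_left.2 h3).symm
    have h1 : (w : ℤ) ∣ y := hodd.dvd_of_dvd_mul_left ⟨u, hu.symm⟩
    have h2 : (w : ℤ) ^ 2 ∣ (u ^ 2) ^ k * (gk * G ^ k) := (pow_dvd_pow_of_dvd h1 2).trans hck
    exact ((hcop2.pow_right (n := k))).dvd_of_dvd_mul_left h2

end Pool.TT.Five
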