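import Mathlib

set_option autoImplicit false

/-!
TEAM TWOTORSION, FIVE: finitely many linear conditions on a group of relations.
-/

namespace Pool.TT.Five

variable {ι κ : Type*}

/-- conditions in a finite set of coordinates -/
theorem rel_count_aux (R : AddSubgroup ((ι → ℤ) × (κ → ℤ))) (d : ℕ)
    (h : ∀ S : Finset ι, d < S.card → ∃ m v, (m, v) ∈ R ∧ m ≠ 0 ∧ ∀ i, i ∉ S → m i = 0)
    (T : Finset κ) : ∀ S : Finset ι, d + T.card < S.card →
      ∃ m v, (m, v) ∈ R ∧ m ≠ 0 ∧ (∀ i, i ∉ S → m i = 0) ∧ ∀ k ∈ T, v k = 0 := by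
  classical
  induction T using Finset.induction_on with
  | empty =>
    intro S hS
    obtain ⟨m, v, h1, h2, h3⟩ := h S (by simpa using hS)
    exact ⟨m, v, h1, h2, h3, fun k hk => absurd hk (Finset.notMem_empty k)⟩
  | insert k T hk ih =>
    intro S hS
    rw [Finset.card_insert_of_notMem hk] at hS
    obtain ⟨m1, v1, h1, h2, h3, h4⟩ := ih S (by omega)
    obtain ⟨i, hi⟩ : ∃ i, m1 i ≠ 0 := by
      by_contra hcon
      push Not at hcon
      exact h2 (funext hcon)
    have hiS : i ∈ S := by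
      by_contra hcon
      exact hi (h3 i hcon)
    obtain ⟨m2, v2, g1, g2, g3, g4⟩ := ih (S.erase i) (by rw [Finset.card_erase_of_mem hiS]; omega)
    have hm2i : m2 i = 0 := g3 i (Finset.notMem_erase i S)
    by_cases hv : v2 k = 0
    · refine ⟨m2, v2, g1, g2, fun j hj => g3 j fun hj' => hj (Finset.mem_of_mem_erase hj'), ?_⟩
      intro l hl
      rcases Finset.mem_insert.1 hl with rfl | hl
      · exact hv
      · exact g4 l hl
    · refine ⟨v2 k • m1 - v1 k • m2, v2 k • v1 - v1 k • v2, ?_, ?_, ?_, ?_⟩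
      · exact R.sub_mem (R.zsmul_mem h1 (v2 k)) (R.zsmul_mem g1 (v1 k))
      · intro h0
        have h5 := congrFun h0 i
        simp only [Pi.sub_apply, Pi.smul_apply, smul_eq_mul, Pi.zero_apply, hm2i, mul_zero,
          sub_zero] at h5
        exact (mul_ne_zero hv hi) h5
      · intro j hj
        simp only [Pi.sub_apply, Pi.smul_apply, smul_eq_mul]
        rw [h3 j hj, g3 j fun hj' => hj (Finset.mem_of_mem_erase hj')]
        ring
      · intro l hl
        simp only [Pi.sub_apply, Pi.smul_apply, smul_eq_mul]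
        rcases Finset.mem_insert.1 hl with rfl | hl
        · ring
        · rw [h4 l hl, g4 l hl]
          ring

/-- **Linear conditions.** A group `R` of pairs `(m, v)`: if every set of more than `d` indices
carries a non-zero `m`, then every set of more than `d + #κ` indices carries a non-zero `m`
with `v = 0`. -/
theorem rel_count [Fintype κ] (R : AddSubgroup ((ι → ℤ) × (κ → ℤ))) (d : ℕ)
    (h : ∀ S : Finset ι, d < S.card → ∃ m v, (m, v) ∈ R ∧ m ≠ 0 ∧ ∀ i, i ∉ S → m i = 0)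
    (S : Finset ι) (hS : d + Fintype.card κ < S.card) :
    ∃ m, (m, (0 : κ → ℤ)) ∈ R ∧ m ≠ 0 ∧ ∀ i, i ∉ S → m i = 0 := by
  obtain ⟨m, v, h1, h2, h3, h4⟩ := rel_count_aux R d h Finset.univ S
    (by rwa [Finset.card_univ])
  have hv : v = 0 := funext fun k => h4 k (Finset.mem_univ k)
  rw [hv] at h1
  exact ⟨m, h1, h2, h3⟩

/-- the same for a homomorphism on a group of relations -/
theorem rel_count_hom [Fintype κ] (L : AddSubgroup (ι → ℤ)) (φ : L →+ (κ → ℤ)) (d : ℕ)
    (h : ∀ S : Finset ι, d < S.card → ∃ m ∈ L, m ≠ 0 ∧ ∀ i, i ∉ S → m i = 0)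
    (S : Finset ι) (hS : d + Fintype.card κ < S.card) :
    ∃ m ∈ (φ.ker).map L.subtype, m ≠ 0 ∧ ∀ i, i ∉ S → m i = 0 := by
  obtain ⟨m, h1, h2, h3⟩ := rel_count ((⊤ : AddSubgroup L).map (L.subtype.prod φ)) d
    (fun S hS => by
      obtain ⟨m, h1, h2, h3⟩ := h S hS
      exact ⟨m, φ ⟨m, h1⟩, ⟨⟨m, h1⟩, AddSubgroup.mem_top _, rfl⟩, h2, h3⟩) S hS
  obtain ⟨x, -, hx⟩ := h1
  have e1 : (x : ι → ℤ) = m := congrArg Prod.fst hx
  have e2 : φ x = 0 := congrArg Prod.snd hx
  exact ⟨m, ⟨x, e2, e1⟩, h2, h3⟩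

end Pool.TT.Five
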