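import Pool.Agent.Lib.MP_695920_nt.TT.Pts
import Pool.Agent.Lib.MP_695920_nt.TT.Ideals

set_option autoImplicit false

/-!
TEAM TWOTORSION, `n = 5`: the ideals of relations (after helper93's file for even degree).
-/

open Polynomial

namespace Pool.TT.Five

/-! ### signed powers -/

/-- signed powers in a monoid -/
def rpw {M : Type*} [Monoid M] (a a' : M) (k : ℤ) : M :=
  if k < 0 then a' ^ k.natAbs else a ^ k.natAbs

theorem rpw_nat {M : Type*} [Monoid M] (a a' : M) (n : ℕ) : rpw a a' (n : ℤ) = a ^ n := by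
  unfold rpw
  rw [if_neg (by omega), Int.natAbs_natCast]

theorem rpw_neg {M : Type*} [Monoid M] (a a' : M) (n : ℕ) : rpw a a' (-(n : ℤ)) = a' ^ n := by
  unfold rpw
  rw [Int.natAbs_neg, Int.natAbs_natCast]
  split_ifs with h
  · rfl
  · have : n = 0 := by omega
    rw [this, pow_zero, pow_zero]

theorem rpw_swap {M : Type*} [Monoid M] (a a' : M) (k : ℤ) : rpw a a' (-k) = rpw a' a k := by
  obtain ⟨n, rfl | rfl⟩ := k.eq_nat_or_neg
  · rw [rpw_neg, rpw_nat]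
  · rw [neg_neg, rpw_nat, rpw_neg]

theorem rpw_mul {M : Type*} [CommMonoid M] {a a' t : M} (h : a * a' = t) (k l : ℤ) :
    ∃ e : ℕ, rpw a a' k * rpw a a' l = t ^ e * rpw a a' (k + l) := by
  have key : ∀ (b b' : M), b * b' = t → ∀ n m : ℕ, ∃ e : ℕ,
      b ^ n * b' ^ m = t ^ e * rpw b b' (n - m) := by
    intro b b' hb n m
    rcases le_total n m with h1 | h1
    · obtain ⟨c, rfl⟩ := Nat.exists_eq_add_of_le h1
      refine ⟨n, ?_⟩
      have h2 : (n : ℤ) - ((n + c : ℕ) : ℤ) = -(c : ℤ) := by push_cast; ring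
      rw [h2, rpw_neg, ← hb, mul_pow, pow_add]
      ac_rfl
    · obtain ⟨c, rfl⟩ := Nat.exists_eq_add_of_le h1
      refine ⟨m, ?_⟩
      have h2 : ((m + c : ℕ) : ℤ) - (m : ℤ) = (c : ℤ) := by push_cast; ring
      rw [h2, rpw_nat, ← hb, mul_pow, pow_add]
      ac_rfl
  obtain ⟨n, rfl | rfl⟩ := k.eq_nat_or_neg <;> obtain ⟨m, rfl | rfl⟩ := l.eq_nat_or_neg
  · refine ⟨0, ?_⟩
    rw [rpw_nat, rpw_nat, pow_zero, one_mul, ← pow_add, ← Nat.cast_add, rpw_nat]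
  · obtain ⟨e, he⟩ := key a a' h n m
    refine ⟨e, ?_⟩
    rw [rpw_nat, rpw_neg, he, sub_eq_add_neg]
  · obtain ⟨e, he⟩ := key a a' h m n
    refine ⟨e, ?_⟩
    rw [rpw_nat, rpw_neg, mul_comm, he, sub_eq_add_neg, add_comm]
  · refine ⟨0, ?_⟩
    rw [rpw_neg, rpw_neg, pow_zero, one_mul, ← pow_add, ← neg_add, ← Nat.cast_add, rpw_neg]

variable {ι : Type*} [Fintype ι]

/-- the ideal of the relation `m`: `∏ I_i ^ (m_i)`, the conjugate ideal for negative exponents -/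
noncomputable def relJ (P : Pts ι) (m : ι → ℤ) : Ideal (Crd P.f) :=
  ∏ i, pt P.f (X - C (P.x i : ℚ)) (C ((if m i < 0 then -P.y i else P.y i : ℤ) : ℚ)) ^
    (m i).natAbs

omit [Fintype ι] in
theorem rel_dvd_pt (P : Pts ι) (i : ι) :
    (X - C (P.x i : ℚ)) ∣ P.f - C (P.y i : ℚ) ^ 2 := by
  have h1 : P.f.eval (P.x i : ℚ) = (P.y i : ℚ) ^ 2 := by
    rw [Pts.f, eval_intCast_map, Int.cast_id, ← P.eq i]
    simp
  rw [← C_pow, ← h1]
  exact X_sub_C_dvd_sub_C_eval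

omit [Fintype ι] in
theorem rel_dvd_pt' (P : Pts ι) (m : ι → ℤ) (i : ι) : (X - C (P.x i : ℚ)) ∣
      P.f - (C ((if m i < 0 then -P.y i else P.y i : ℤ) : ℚ)) ^ 2 := by
  have h1 : (C ((if m i < 0 then -P.y i else P.y i : ℤ) : ℚ) : ℚ[X]) ^ 2 =
      C (P.y i : ℚ) ^ 2 := by
    split_ifs
    · push_cast
      rw [C_neg, neg_sq]
    · rfl
  rw [h1]
  exact rel_dvd_pt P i

theorem relJ_eq (P : Pts ι) (m : ι → ℤ) :
    relJ P m = ∏ i, rpw (pt P.f (X - C (P.x i : ℚ)) (C (P.y i : ℚ)))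
      (pt P.f (X - C (P.x i : ℚ)) (-C (P.y i : ℚ))) (m i) := by
  unfold relJ rpw
  refine Finset.prod_congr rfl fun i _ => ?_
  split_ifs with h
  · push_cast
    rw [C_neg]
  · rfl

theorem relJ_zero (P : Pts ι) : relJ P 0 = Ideal.span {(1 : Crd P.f)} := by
  unfold relJ
  simp

theorem relJ_neg (P : Pts ι) (m : ι → ℤ) : (relJ P m).map (conj P.f) = relJ P (-m) := by
  rw [relJ_eq, relJ_eq]
  rw [show Ideal.map (conj P.f) (∏ i, rpw (pt P.f (X - C (P.x i : ℚ)) (C (P.y i : ℚ)))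
      (pt P.f (X - C (P.x i : ℚ)) (-C (P.y i : ℚ))) (m i)) =
      ∏ i, Ideal.map (conj P.f) (rpw (pt P.f (X - C (P.x i : ℚ)) (C (P.y i : ℚ)))
      (pt P.f (X - C (P.x i : ℚ)) (-C (P.y i : ℚ))) (m i)) from
        map_prod (Ideal.mapHom (conj P.f)) _ _]
  refine Finset.prod_congr rfl fun i _ => ?_
  rw [Pi.neg_apply, rpw_swap]
  unfold rpw
  split_ifs
  · rw [Ideal.map_pow, map_conj_pt, neg_neg]
  · rw [Ideal.map_pow, map_conj_pt]

theorem relJ_mul (P : Pts ι) (m m' : ι → ℤ) : ∃ p : ℚ[X], p ≠ 0 ∧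
    relJ P m * relJ P m' = Ideal.span {(⟨p, 0⟩ : Crd P.f)} * relJ P (m + m') := by
  have h1 : ∀ i, ∃ e : ℕ, rpw (pt P.f (X - C (P.x i : ℚ)) (C (P.y i : ℚ)))
      (pt P.f (X - C (P.x i : ℚ)) (-C (P.y i : ℚ))) (m i) *
      rpw (pt P.f (X - C (P.x i : ℚ)) (C (P.y i : ℚ)))
      (pt P.f (X - C (P.x i : ℚ)) (-C (P.y i : ℚ))) (m' i) =
      Ideal.span {(⟨X - C (P.x i : ℚ), 0⟩ : Crd P.f)} ^ e *
      rpw (pt P.f (X - C (P.x i : ℚ)) (C (P.y i : ℚ)))
      (pt P.f (X - C (P.x i : ℚ)) (-C (P.y i : ℚ))) (m i + m' i) := fun i =>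
    rpw_mul (pt_mul_conj P.f P.f_irr.squarefree _ _ (rel_dvd_pt P i)) _ _
  choose e he using h1
  refine ⟨∏ i, (X - C (P.x i : ℚ)) ^ e i,
    Finset.prod_ne_zero_iff.2 fun i _ => pow_ne_zero _ (X_sub_C_ne_zero _), ?_⟩
  rw [relJ_eq, relJ_eq, relJ_eq, ← Finset.prod_mul_distrib,
    Finset.prod_congr rfl fun i _ => he i, Finset.prod_mul_distrib]
  congr 1
  have h2 : (⟨∏ i, (X - C (P.x i : ℚ)) ^ e i, 0⟩ : Crd P.f) =
      algebraMap ℚ[X] (Crd P.f) (∏ i, (X - C (P.x i : ℚ)) ^ e i) := rfl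
  rw [h2, map_prod, ← Ideal.prod_span_singleton]
  refine Finset.prod_congr rfl fun i _ => ?_
  rw [Ideal.span_singleton_pow, map_pow]
  rfl

/-- the product of two generators -/
theorem rel_gen_mul (P : Pts ι) {m m' : ι → ℤ} {φ φ' : Crd P.f}
    (h : Ideal.span {φ} = relJ P m) (h' : Ideal.span {φ'} = relJ P m') :
    ∃ (p : ℚ[X]) (ψ : Crd P.f), p ≠ 0 ∧ φ * φ' = (⟨p, 0⟩ : Crd P.f) * ψ ∧
      Ideal.span {ψ} = relJ P (m + m') := by
  obtain ⟨p, hp, hJ⟩ := relJ_mul P m m'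
  rw [← h, ← h', Ideal.span_singleton_mul_span_singleton] at hJ
  have hp0 : (⟨p, 0⟩ : Crd P.f) ≠ 0 := fun h0 => hp (congrArg QuadraticAlgebra.re h0)
  obtain ⟨ψ, hψ⟩ : (⟨p, 0⟩ : Crd P.f) ∣ φ * φ' := by
    rw [← Ideal.span_singleton_le_span_singleton, hJ]
    exact Ideal.mul_le_left
  refine ⟨p, ψ, hp, hψ, ?_⟩
  rw [hψ, ← Ideal.span_singleton_mul_span_singleton] at hJ
  have hs0 : Ideal.span {(⟨p, 0⟩ : Crd P.f)} ≠ ⊥ := by
    rwa [Ne, Ideal.span_singleton_eq_bot]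
  exact mul_left_cancel₀ hs0 hJ

theorem rel_gen_star (P : Pts ι) {m : ι → ℤ} {φ : Crd P.f} (h : Ideal.span {φ} = relJ P m) :
    Ideal.span {star φ} = relJ P (-m) := by
  rw [← relJ_neg, ← h, Ideal.map_span, Set.image_singleton, conj_apply]

/-- a relation between the classes has a generator -/
theorem rel_exists_gen (P : Pts ι) (m : ι → ℤ) (hm : ∏ i, P.cls i ^ m i = 1) :
    ∃ φ : Crd P.f, φ ≠ 0 ∧ Ideal.span {φ} = relJ P m := by
  have hrel : ∏ i, cl P.f (X - C (P.x i : ℚ))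
      (C ((if m i < 0 then -P.y i else P.y i : ℤ) : ℚ)) ^ (m i).natAbs = 1 := by
    rw [← hm]
    refine Finset.prod_congr rfl fun i _ => ?_
    split_ifs with h
    · have h2 : (C ((-P.y i : ℤ) : ℚ) : ℚ[X]) = -C (P.y i : ℚ) := by
        push_cast
        rw [C_neg]
      rw [h2, cl_neg P.f _ _ (rel_dvd_pt P i), inv_pow, ← zpow_natCast, ← zpow_neg]
      congr 1
      omega
    · rw [← zpow_natCast]
      congr 1
      omega
  obtain ⟨φ, hφ0, hφ, -⟩ := exists_function P.f P.f_monic (fun i => X - C (P.x i : ℚ))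
    (fun i => C ((if m i < 0 then -P.y i else P.y i : ℤ) : ℚ)) (fun i => (m i).natAbs)
    (fun i => monic_X_sub_C _) (rel_dvd_pt' P m) hrel
  exact ⟨φ, hφ0, hφ⟩

/-- a generator of the ideal of a relation with `∑ |m i|` even has norm `α ^ 2 ∏ (X - x_i)^|m_i|` -/
theorem rel_gen_norm (P : Pts ι) (m : ι → ℤ) (φ : Crd P.f) (hφ : Ideal.span {φ} = relJ P m)
    (hφ0 : φ ≠ 0) (heven : Even (∑ i, (m i).natAbs)) :
    ∃ α : ℚ, α ≠ 0 ∧ φ.norm = C (α ^ 2) * ∏ i, (X - C (P.x i : ℚ)) ^ (m i).natAbs := by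
  classical
  have h4 : Associated (φ.norm * ∏ i ∈ (∅ : Finset ι), (X - C (P.x i : ℚ)) ^ (m i).natAbs)
      ((1 : Crd P.f).norm * ∏ i ∈ Finset.univ, (X - C (P.x i : ℚ)) ^ (m i).natAbs) := by
    refine norm_relation P.f ∅ Finset.univ (fun i => X - C (P.x i : ℚ))
      (fun i => C ((if m i < 0 then -P.y i else P.y i : ℤ) : ℚ)) (fun i => X - C (P.x i : ℚ))
      (fun i => C ((if m i < 0 then -P.y i else P.y i : ℤ) : ℚ)) (fun i => (m i).natAbs)
      (fun i => (m i).natAbs) (by simp) (fun i _ => rel_dvd_pt' P m i) φ 1 ?_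
    rw [Finset.prod_empty, mul_one, hφ, Ideal.span_singleton_one, Ideal.one_eq_top.symm, one_mul]
    rfl
  rw [Finset.prod_empty, mul_one, QuadraticAlgebra.norm_one, one_mul] at h4
  obtain ⟨hn0, α, hα0, hα, -, -⟩ := norm_leadingCoeff P.f P.f_monic φ hφ0
  have hWm : (∏ i, (X - C (P.x i : ℚ)) ^ (m i).natAbs).Monic :=
    monic_prod_of_monic _ _ fun i _ => (monic_X_sub_C _).pow _
  have h5 : φ.norm = C φ.norm.leadingCoeff * ∏ i, (X - C (P.x i : ℚ)) ^ (m i).natAbs := by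
    obtain ⟨u, hu⟩ := h4.symm
    obtain ⟨c, hc⟩ := Polynomial.isUnit_iff.1 u.isUnit
    have h6 : φ.norm = C c * ∏ i, (X - C (P.x i : ℚ)) ^ (m i).natAbs := by
      rw [← hu, hc.2, mul_comm]
    have h7 : φ.norm.leadingCoeff = c := by
      rw [h6, leadingCoeff_mul, hWm.leadingCoeff, leadingCoeff_C, mul_one]
    rw [h7]
    exact h6
  have hdeg : φ.norm.natDegree = ∑ i, (m i).natAbs := by
    rw [h5, natDegree_C_mul (leadingCoeff_ne_zero.2 hn0),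
      natDegree_prod_of_monic _ _ fun i _ => (monic_X_sub_C _).pow _]
    refine Finset.sum_congr rfl fun i _ => ?_
    rw [(monic_X_sub_C _).natDegree_pow, natDegree_X_sub_C, mul_one]
  refine ⟨α, hα0, ?_⟩
  rw [hdeg, heven.neg_one_pow, one_mul] at hα
  rw [← hα]
  exact h5

/-- a generator is in the powers of the ideals of the points -/
theorem rel_gen_dvd (P : Pts ι) (m : ι → ℤ) (φ : Crd P.f) (hφ : Ideal.span {φ} = relJ P m)
    (i : ι) : algebraMap ℚ[X] (Crd P.f) ((X - C (P.x i : ℚ)) ^ (m i).natAbs) ∣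
      (⟨C ((if m i < 0 then -P.y i else P.y i : ℤ) : ℚ), 1⟩ : Crd P.f) ^ (m i).natAbs * φ := by
  set v : ℚ[X] := C ((if m i < 0 then -P.y i else P.y i : ℤ) : ℚ) with hv
  have h1 : φ ∈ pt P.f (X - C (P.x i : ℚ)) v ^ (m i).natAbs := by
    have h2 : φ ∈ Ideal.span {φ} := Ideal.mem_span_singleton_self φ
    rw [hφ] at h2
    exact Ideal.le_of_dvd (Finset.dvd_prod_of_mem _ (Finset.mem_univ i)) h2
  have h2 : (⟨v, 1⟩ : Crd P.f) ^ (m i).natAbs ∈
      pt P.f (X - C (P.x i : ℚ)) (-v) ^ (m i).natAbs := by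
    refine Ideal.pow_mem_pow ?_ _
    have h3 := mem_pt_y P.f (X - C (P.x i : ℚ)) (-v)
    rwa [neg_neg] at h3
  have h3 := Ideal.mul_mem_mul h2 h1
  rw [← mul_pow, mul_comm (pt P.f _ (-v)), pt_mul_conj P.f P.f_irr.squarefree _ _
    (rel_dvd_pt' P m i), Ideal.span_singleton_pow, Ideal.mem_span_singleton] at h3
  rw [map_pow]
  exact h3

end Pool.TT.Five
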