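import Pool.Agent.Lib.MP_695920_nt.TT.Five.RelArith

/-!
# The two branches at the origin

`O = ℤ[t, z]`, `z² = a(t) + b z`, `a(0) = 0`. The two branches of the curve at `t = 0` over `ℤ` (after the
substitution `t ↦ b² t`) and divisibility in `O` by prime numbers which do not divide `b`.
-/

set_option autoImplicit false

open Polynomial

namespace Pool.TT.Five

/-! ### prime numbers in the ring of power series -/

theorem rl_C_dvd (n : ℤ) (F : PowerSeries ℤ) :
    PowerSeries.C n ∣ F ↔ ∀ k, n ∣ PowerSeries.coeff k F := by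
  constructor
  · rintro ⟨G, rfl⟩ k
    rw [PowerSeries.coeff_C_mul]
    exact dvd_mul_right _ _
  · intro h
    choose g hg using h
    refine ⟨PowerSeries.mk g, ?_⟩
    ext k
    rw [PowerSeries.coeff_C_mul, PowerSeries.coeff_mk]
    exact hg k

theorem rl_prime (p : ℕ) (hp : p.Prime) : Prime (PowerSeries.C (p : ℤ)) := by
  have : Fact p.Prime := ⟨hp⟩
  have hker : ∀ F : PowerSeries ℤ, PowerSeries.map (Int.castRingHom (ZMod p)) F = 0 ↔
      PowerSeries.C (p : ℤ) ∣ F := by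
    intro F
    rw [rl_C_dvd, PowerSeries.ext_iff]
    refine forall_congr' fun k => ?_
    rw [PowerSeries.coeff_map, map_zero, eq_intCast, ZMod.intCast_zmod_eq_zero_iff_dvd]
  refine ⟨?_, ?_, ?_⟩
  · intro h0
    have h1 := congrArg (PowerSeries.coeff 0) h0
    rw [PowerSeries.coeff_zero_C, map_zero] at h1
    exact hp.ne_zero (by exact_mod_cast h1)
  · intro h0
    have h1 := (rl_C_dvd p 1).1 h0.dvd 0
    rw [PowerSeries.coeff_zero_one] at h1
    exact (Nat.prime_iff_prime_int.1 hp).not_isUnit (isUnit_of_dvd_one h1)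
  · intro F G hFG
    rw [← hker, map_mul, mul_eq_zero, hker, hker] at hFG
    exact hFG

theorem rl_finite (p : ℕ) (hp : p.Prime) {F : PowerSeries ℤ} (hF : F ≠ 0) :
    FiniteMultiplicity (PowerSeries.C (p : ℤ)) F := by
  obtain ⟨k, hk⟩ : ∃ k, PowerSeries.coeff k F ≠ 0 := by
    by_contra hcon
    push Not at hcon
    exact hF (PowerSeries.ext fun k => by rw [hcon k, map_zero])
  have h1 : FiniteMultiplicity (p : ℤ) (PowerSeries.coeff k F) := by
    rw [Int.finiteMultiplicity_iff]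
    exact ⟨by simpa using hp.ne_one, hk⟩
  obtain ⟨n, hn⟩ := h1
  refine ⟨n, fun h => hn ?_⟩
  rw [← map_pow, rl_C_dvd] at h
  exact h k

/-- the multiplicity of `p` -/
noncomputable def rlv (p : ℕ) (F : PowerSeries ℤ) : ℕ := multiplicity (PowerSeries.C (p : ℤ)) F

theorem rlv_mul (p : ℕ) (hp : p.Prime) {F G : PowerSeries ℤ} (hF : F ≠ 0) (hG : G ≠ 0) :
    rlv p (F * G) = rlv p F + rlv p G :=
  multiplicity_mul (rl_prime p hp) (rl_finite p hp (mul_ne_zero hF hG))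

theorem rlv_dvd_iff (p : ℕ) (hp : p.Prime) {F : PowerSeries ℤ} (hF : F ≠ 0) (k : ℕ) :
    PowerSeries.C ((p : ℤ) ^ k) ∣ F ↔ k ≤ rlv p F := by
  rw [map_pow]
  exact (rl_finite p hp hF).pow_dvd_iff_le_multiplicity

theorem rlv_eq_zero (p : ℕ) {F : PowerSeries ℤ} (h : ¬ PowerSeries.C (p : ℤ) ∣ F) :
    rlv p F = 0 := multiplicity_eq_zero.2 h

/-! ### the substitution -/

/-- the substitution `X ↦ b ^ 2 X` followed by the inclusion in the power series -/
noncomputable def rlr (b : ℤ) : ℤ[X] →+* PowerSeries ℤ :=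
  (Polynomial.coeToPowerSeries.ringHom).comp (Polynomial.compRingHom (C (b ^ 2) * X))

theorem rlr_coeff (b : ℤ) (P : ℤ[X]) (k : ℕ) :
    PowerSeries.coeff k (rlr b P) = P.coeff k * (b ^ 2) ^ k := by
  rw [rlr, RingHom.comp_apply, Polynomial.coeToPowerSeries.ringHom_apply, Polynomial.coeff_coe,
    Polynomial.coe_compRingHom_apply, Polynomial.comp_C_mul_X_coeff]

theorem rlr_C (b c : ℤ) : rlr b (C c) = PowerSeries.C c := by
  ext k
  rw [rlr_coeff, coeff_C, PowerSeries.coeff_C]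
  split_ifs with h
  · rw [h, pow_zero, mul_one]
  · rw [zero_mul]

theorem rlr_ne_zero (b : ℤ) (hb : b ≠ 0) {P : ℤ[X]} (hP : P ≠ 0) : rlr b P ≠ 0 := by
  intro h
  apply hP
  ext k
  have h1 := congrArg (PowerSeries.coeff k) h
  rw [rlr_coeff, map_zero] at h1
  rw [coeff_zero]
  exact (mul_eq_zero.1 h1).resolve_right (pow_ne_zero _ (pow_ne_zero _ hb))

theorem rlr_dvd (b : ℤ) (p : ℕ) (hp : p.Prime) (hb : ¬ (p : ℤ) ∣ b) (k : ℕ) (P : ℤ[X])
    (h : PowerSeries.C ((p : ℤ) ^ k) ∣ rlr b P) : C ((p : ℤ) ^ k) ∣ P := by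
  rw [rl_C_dvd] at h
  rw [C_dvd_iff_dvd_coeff]
  intro j
  have h1 := h j
  rw [rlr_coeff] at h1
  have hpz := Nat.prime_iff_prime_int.1 hp
  refine hpz.pow_dvd_of_dvd_mul_right k (fun h2 => hb ?_) h1
  exact hpz.dvd_of_dvd_pow (hpz.dvd_of_dvd_pow h2)

/-- the multiplicity of `p` in a polynomial which it does not divide -/
theorem rlv_prim (b : ℤ) (p : ℕ) (hp : p.Prime) (hb : ¬ (p : ℤ) ∣ b) {P : ℤ[X]}
    (hP : ¬ C (p : ℤ) ∣ P) : rlv p (rlr b P) = 0 := by
  apply rlv_eq_zero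
  intro h
  have h1 := rlr_dvd b p hp hb 1 P (by rwa [pow_one])
  rw [pow_one] at h1
  exact hP h1

/-- prime numbers do not divide monic polynomials -/
theorem rl_monic (p : ℕ) (hp : p.Prime) {P : ℤ[X]} (hP : P.Monic) : ¬ C (p : ℤ) ∣ P := by
  intro h1
  rw [C_dvd_iff_dvd_coeff] at h1
  have h2 := h1 P.natDegree
  rw [coeff_natDegree, hP.leadingCoeff] at h2
  exact (Nat.prime_iff_prime_int.1 hp).not_isUnit (isUnit_of_dvd_one h2)

/-- the multiplicity of `p` in an integer -/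
theorem rlv_C (p : ℕ) (hp : p.Prime) {c : ℤ} (hc : c ≠ 0) :
    rlv p (PowerSeries.C c) = multiplicity (p : ℤ) c := by
  have h0 : PowerSeries.C c ≠ 0 := by
    intro h
    have h1 := congrArg (PowerSeries.coeff 0) h
    rw [PowerSeries.coeff_zero_C, map_zero] at h1
    exact hc h1
  have hf : FiniteMultiplicity (p : ℤ) c := by
    rw [Int.finiteMultiplicity_iff]
    exact ⟨by simpa using hp.ne_one, hc⟩
  have hiff : ∀ k, k ≤ rlv p (PowerSeries.C c) ↔ k ≤ multiplicity (p : ℤ) c := by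
    intro k
    rw [← rlv_dvd_iff p hp h0, ← hf.pow_dvd_iff_le_multiplicity, rl_C_dvd]
    constructor
    · intro h
      have h1 := h 0
      rwa [PowerSeries.coeff_zero_C] at h1
    · intro h j
      rw [PowerSeries.coeff_C]
      split_ifs
      · exact h
      · exact dvd_zero _
  exact le_antisymm ((hiff _).1 le_rfl) ((hiff _).2 le_rfl)

/-! ### the branches -/

theorem rl_add_sq (V : PowerSeries ℤ) (hV : PowerSeries.constantCoeff V = 0) :
    ∃ t : PowerSeries ℤ, PowerSeries.constantCoeff t = 0 ∧ t + t ^ 2 = V := by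
  have ha : PowerSeries.HasSubst (-V : PowerSeries ℤ) :=
    PowerSeries.HasSubst.of_constantCoeff_zero' (by rw [map_neg, hV, neg_zero])
  set c : PowerSeries ℤ := PowerSeries.catalanSeries.map (Nat.castRingHom ℤ) with hc
  have h1 : c ^ 2 * PowerSeries.X + 1 = c := by
    have := congrArg (PowerSeries.map (Nat.castRingHom ℤ)) PowerSeries.catalanSeries_sq_mul_X_add_one
    rw [map_add, map_mul, map_pow, PowerSeries.map_X, map_one] at this
    exact this
  have h2 := congrArg (PowerSeries.substAlgHom ha) h1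
  rw [map_add, map_mul, map_pow, map_one, PowerSeries.substAlgHom_X] at h2
  set d : PowerSeries ℤ := PowerSeries.substAlgHom ha c with hd
  refine ⟨V * d, by rw [map_mul, hV, zero_mul], ?_⟩
  linear_combination (-V) * h2

/-- the branch -/
theorem rl_branch (a : ℤ[X]) (b : ℤ) (ha : a.coeff 0 = 0) :
    ∃ ζ : PowerSeries ℤ, PowerSeries.constantCoeff ζ = 0 ∧
      ζ ^ 2 = rlr b a + PowerSeries.C b * ζ := by
  obtain ⟨V, hV0, hV⟩ : ∃ V : PowerSeries ℤ, PowerSeries.constantCoeff V = 0 ∧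
      rlr b a = PowerSeries.C (b ^ 2) * V := by
    refine ⟨PowerSeries.mk fun k => if k = 0 then 0 else a.coeff k * (b ^ 2) ^ (k - 1), ?_, ?_⟩
    · rw [← PowerSeries.coeff_zero_eq_constantCoeff_apply, PowerSeries.coeff_mk, if_pos rfl]
    · ext k
      rw [rlr_coeff, PowerSeries.coeff_C_mul, PowerSeries.coeff_mk]
      split_ifs with h
      · rw [h, ha, zero_mul, mul_zero]
      · obtain ⟨j, rfl⟩ := Nat.exists_eq_succ_of_ne_zero h
        rw [Nat.succ_sub_one, Nat.succ_eq_add_one, pow_succ]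
        ring
  obtain ⟨t, ht0, ht⟩ := rl_add_sq V hV0
  refine ⟨-(PowerSeries.C b * t), by rw [map_neg, map_mul, ht0, mul_zero, neg_zero], ?_⟩
  rw [hV, ← ht, map_pow]
  ring

variable {a : ℤ[X]} {b : ℤ} (ζ : PowerSeries ℤ) (hζ : ζ ^ 2 = rlr b a + PowerSeries.C b * ζ)

/-- the restriction to a branch -/
noncomputable def rlp (hζ : ζ ^ 2 = rlr b a + PowerSeries.C b * ζ) : OZ a b →+* PowerSeries ℤ where
  toFun Φ := rlr b Φ.re + rlr b Φ.im * ζ
  map_one' := by
    rw [QuadraticAlgebra.re_one, QuadraticAlgebra.im_one, map_one, map_zero]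
    ring
  map_zero' := by
    rw [QuadraticAlgebra.re_zero, QuadraticAlgebra.im_zero, map_zero]
    ring
  map_add' Φ Ψ := by
    rw [QuadraticAlgebra.re_add, QuadraticAlgebra.im_add, map_add, map_add]
    ring
  map_mul' Φ Ψ := by
    rw [QuadraticAlgebra.re_mul, QuadraticAlgebra.im_mul]
    simp only [map_add, map_mul, rlr_C]
    linear_combination (-(rlr b Φ.im * rlr b Ψ.im)) * hζ

theorem rlp_apply (Φ : OZ a b) : rlp ζ hζ Φ = rlr b Φ.re + rlr b Φ.im * ζ := rfl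

theorem rlp_star (Φ : OZ a b) :
    rlp ζ hζ (star Φ) = rlr b Φ.re + rlr b Φ.im * (PowerSeries.C b - ζ) := by
  rw [rlp_apply, QuadraticAlgebra.re_star, QuadraticAlgebra.im_star, map_add, map_neg, map_mul,
    rlr_C]
  ring

theorem rlp_algebraMap (P : ℤ[X]) : rlp ζ hζ (algebraMap ℤ[X] (OZ a b) P) = rlr b P := by
  rw [rlp_apply, QuadraticAlgebra.algebraMap_re, QuadraticAlgebra.algebraMap_im, map_zero]
  ring

theorem rlp_norm (Φ : OZ a b) : rlp ζ hζ Φ * rlp ζ hζ (star Φ) = rlr b Φ.norm := by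
  rw [← map_mul, ← QuadraticAlgebra.algebraMap_norm_eq_mul_star, rlp_algebraMap]

/-- an element which is divisible by a prime power on both branches is divisible by it -/
theorem rl_both (h0 : PowerSeries.constantCoeff ζ = 0) (p : ℕ) (hp : p.Prime)
    (hb : ¬ (p : ℤ) ∣ b) (k : ℕ) (Φ : OZ a b)
    (h1 : PowerSeries.C ((p : ℤ) ^ k) ∣ rlp ζ hζ Φ)
    (h2 : PowerSeries.C ((p : ℤ) ^ k) ∣ rlp ζ hζ (star Φ)) :
    C ((p : ℤ) ^ k) ∣ Φ.re ∧ C ((p : ℤ) ^ k) ∣ Φ.im := by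
  have h3 : PowerSeries.C ((p : ℤ) ^ k) ∣ rlr b Φ.im := by
    have h4 := dvd_sub h1 h2
    rw [rlp_star, rlp_apply] at h4
    have h5 : rlr b Φ.re + rlr b Φ.im * ζ - (rlr b Φ.re + rlr b Φ.im * (PowerSeries.C b - ζ)) =
        rlr b Φ.im * (2 * ζ - PowerSeries.C b) := by ring
    rw [h5, map_pow] at h4
    rw [map_pow]
    refine (rl_prime p hp).pow_dvd_of_dvd_mul_right k (fun h6 => hb ?_) h4
    rw [rl_C_dvd] at h6
    have h7 := h6 0
    rw [PowerSeries.coeff_zero_eq_constantCoeff_apply, map_sub, map_mul, h0, mul_zero,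
      PowerSeries.constantCoeff_C, zero_sub] at h7
    exact (dvd_neg).1 h7
  have h4 : PowerSeries.C ((p : ℤ) ^ k) ∣ rlr b Φ.re := by
    rw [rlp_apply] at h1
    exact (dvd_add_left (h3.mul_right ζ)).1 h1
  exact ⟨rlr_dvd b p hp hb k _ h4, rlr_dvd b p hp hb k _ h3⟩

/-- **Divisibility of a balanced element.** -/
theorem rl_balanced (h0 : PowerSeries.constantCoeff ζ = 0) (c : ℤ) (hc : c ≠ 0)
    (hcb : ∀ p : ℕ, p.Prime → (p : ℤ) ∣ c → ¬ (p : ℤ) ∣ b) (hb : b ≠ 0) (N : ℤ[X])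
    (hN : ∀ p : ℕ, p.Prime → ¬ C (p : ℤ) ∣ N) (Φ : OZ a b) (hΦ : Φ.norm = C (c ^ 2) * N)
    (hbal : ∀ p : ℕ, p.Prime → (p : ℤ) ∣ c → rlv p (rlp ζ hζ Φ) = rlv p (rlp ζ hζ (star Φ))) :
    C c ∣ Φ.re ∧ C c ∣ Φ.im := by
  have hN0 : N ≠ 0 := by
    rintro rfl
    exact hN 2 Nat.prime_two (dvd_zero _)
  have hnorm : Φ.norm ≠ 0 := by
    rw [hΦ]
    exact mul_ne_zero (C_ne_zero.2 (pow_ne_zero _ hc)) hN0
  have hne := rlr_ne_zero b hb hnorm
  rw [← rlp_norm ζ hζ] at hne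
  have hne1 := left_ne_zero_of_mul hne
  have hne2 := right_ne_zero_of_mul hne
  have key : ∀ p : ℕ, p.Prime → ∀ j : ℕ, (p : ℤ) ^ j ∣ c →
      C ((p : ℤ) ^ j) ∣ Φ.re ∧ C ((p : ℤ) ^ j) ∣ Φ.im := by
    intro p hp j hj
    rcases Nat.eq_zero_or_pos j with rfl | hj0
    · rw [pow_zero, C_1]
      exact ⟨one_dvd _, one_dvd _⟩
    have hpz := Nat.prime_iff_prime_int.1 hp
    have hpq : (p : ℤ) ∣ c := (dvd_pow_self _ hj0.ne').trans hj
    have hpb := hcb p hp hpq
    have h1 := congrArg (rlv p) (rlp_norm ζ hζ Φ)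
    have hC : rlr b (C (c ^ 2)) ≠ 0 := rlr_ne_zero b hb (C_ne_zero.2 (pow_ne_zero _ hc))
    rw [rlv_mul p hp hne1 hne2, hbal p hp hpq, hΦ, map_mul,
      rlv_mul p hp hC (rlr_ne_zero b hb hN0), rlv_prim b p hp hpb (hN p hp), rlr_C,
      rlv_C p hp (pow_ne_zero _ hc)] at h1
    have hf : ∀ n : ℕ, FiniteMultiplicity (p : ℤ) (c ^ n) := by
      intro n
      rw [Int.finiteMultiplicity_iff]
      exact ⟨by simpa using hp.ne_one, pow_ne_zero _ hc⟩
    have h2 : multiplicity (p : ℤ) (c ^ 2) = 2 * multiplicity (p : ℤ) c := by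
      rw [sq, multiplicity_mul hpz (by rw [← sq]; exact hf _)]
      ring
    have hf1 : FiniteMultiplicity (p : ℤ) c := by
      have := hf 1
      rwa [pow_one] at this
    have h3 : j ≤ multiplicity (p : ℤ) c := hf1.le_multiplicity_of_pow_dvd hj
    have h4 : j ≤ rlv p (rlp ζ hζ (star Φ)) := by omega
    have h5 : j ≤ rlv p (rlp ζ hζ Φ) := by rw [hbal p hp hpq]; exact h4
    exact rl_both ζ hζ h0 p hp hpb j Φ ((rlv_dvd_iff p hp hne1 j).2 h5)
      ((rlv_dvd_iff p hp hne2 j).2 h4)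
  have fin : ∀ a : ℤ, (∀ p : ℕ, p.Prime → ∀ j : ℕ, (p : ℤ) ^ j ∣ c → (p : ℤ) ^ j ∣ a) →
      c ∣ a := by
    intro a ha
    rw [← Int.natAbs_dvd_natAbs, Nat.dvd_iff_prime_pow_dvd_dvd]
    intro p j hp hj
    have h1 : (p : ℤ) ^ j ∣ c := by
      rw [← Int.natAbs_dvd_natAbs, Int.natAbs_pow, Int.natAbs_natCast]
      exact hj
    have h2 := ha p hp j h1
    rwa [← Int.natAbs_dvd_natAbs, Int.natAbs_pow, Int.natAbs_natCast] at h2
  constructor
  · rw [C_dvd_iff_dvd_coeff]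
    intro i
    refine fin _ fun p hp j hj => ?_
    have h1 := (key p hp j hj).1
    rw [C_dvd_iff_dvd_coeff] at h1
    exact h1 i
  · rw [C_dvd_iff_dvd_coeff]
    intro i
    refine fin _ fun p hp j hj => ?_
    have h1 := (key p hp j hj).2
    rw [C_dvd_iff_dvd_coeff] at h1
    exact h1 i

end Pool.TT.Five
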