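import Pool.Agent.Lib.MP_695920_nt.TT.Five.RelMdl
import Pool.Agent.Lib.MP_695920_nt.TT.Five.RelIdl
import Pool.Agent.Lib.MP_695920_nt.TT.Even.Drop

set_option autoImplicit false

/-!
TEAM TWOTORSION, `n = 5`: balanced relations and their functions in the model.
-/

open Polynomial

namespace Pool.TT.Five

section

variable {ι : Type*} (P : Pts ι)

/-- the inclusion in the coordinate ring over `ℚ` -/
noncomputable def toQ : OR P.f0 →+* Crd P.f := orQ P.f0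

theorem toQ_re (φ : OR P.f0) : (toQ P φ).re = φ.re.map (Int.castRingHom ℚ) := rfl

theorem toQ_im (φ : OR P.f0) : (toQ P φ).im = φ.im.map (Int.castRingHom ℚ) := rfl

theorem toQ_inj : Function.Injective (toQ P) := orQ_inj P.f0

theorem toQ_star (φ : OR P.f0) : toQ P (star φ) = star (toQ P φ) := orQ_star P.f0 φ

theorem toQ_algebraMap (p : ℤ[X]) : toQ P (algebraMap ℤ[X] (OR P.f0) p) =
    algebraMap ℚ[X] (Crd P.f) (p.map (Int.castRingHom ℚ)) := orQ_algebraMap P.f0 p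

theorem toQ_norm (φ : OR P.f0) : (toQ P φ).norm = φ.norm.map (Int.castRingHom ℚ) :=
  orQ_norm P.f0 φ

theorem toQ_denom (φ : Crd P.f) :
    ∃ (d : ℤ) (φ0 : OR P.f0), d ≠ 0 ∧ toQ P φ0 = algebraMap ℚ[X] (Crd P.f) (C (d : ℚ)) * φ :=
  orQ_denom P.f0 φ

theorem toQ_ne_zero {φ : OR P.f0} : toQ P φ ≠ 0 ↔ φ ≠ 0 := by
  constructor
  · rintro h rfl
    exact h (map_zero _)
  · intro h h0
    exact h (toQ_inj P (h0.trans (map_zero _).symm))

theorem span_unit_mul (d : ℤ) (hd : d ≠ 0) (φ : Crd P.f) :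
    Ideal.span {algebraMap ℚ[X] (Crd P.f) (C (d : ℚ)) * φ} = Ideal.span {φ} := by
  refine Ideal.span_singleton_eq_span_singleton.2 ?_
  have hu : IsUnit (algebraMap ℚ[X] (Crd P.f) (C (d : ℚ))) :=
    (isUnit_C.2 (isUnit_iff_ne_zero.2 (by exact_mod_cast hd))).map _
  exact associated_unit_mul_left _ _ hu

/-- an integral generator -/
theorem exists_int_gen {I : Ideal (Crd P.f)} {φ : Crd P.f} (hφ : φ ≠ 0)
    (hI : Ideal.span {φ} = I) : ∃ φ0 : OR P.f0, φ0 ≠ 0 ∧ Ideal.span {toQ P φ0} = I ∧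
      ∃ d : ℤ, d ≠ 0 ∧ toQ P φ0 = algebraMap ℚ[X] (Crd P.f) (C (d : ℚ)) * φ := by
  obtain ⟨d, φ0, hd, h⟩ := toQ_denom P φ
  refine ⟨φ0, ?_, ?_, d, hd, h⟩
  · rw [← toQ_ne_zero P, h]
    refine mul_ne_zero ?_ hφ
    intro h0
    have h1 : (C (d : ℚ) : ℚ[X]) = 0 :=
      QuadraticAlgebra.algebraMap_injective (h0.trans (map_zero _).symm)
    rw [C_eq_zero] at h1
    exact hd (by exact_mod_cast h1)
  · rw [h, span_unit_mul P d hd, hI]

end

variable {ι : Type*} [Fintype ι]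

/-- **Normalisation**: the generator of a relation with `∑ |m i|` even. -/
theorem rel_normalise (P : Pts ι) (M : Mdl P.f0) (m : ι → ℤ) (φ : OR P.f0) (hφ0 : φ ≠ 0)
    (hφ : Ideal.span {toQ P φ} = relJ P m) (heven : Even (∑ i, (m i).natAbs)) :
    ∃ φ2 : OR P.f0, φ2 ≠ 0 ∧ Ideal.span {toQ P φ2} = relJ P m ∧
      φ2.norm = ∏ i, (X - C (P.x i)) ^ (m i).natAbs ∧
      ∀ p : ℕ, p.Prime → M.chi p φ2 = M.chi p φ := by
  obtain ⟨α, hα, hN⟩ := rel_gen_norm P m (toQ P φ) hφ ((toQ_ne_zero P).2 hφ0) heven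
  have hprodZ : (∏ i, (X - C (P.x i)) ^ (m i).natAbs : ℤ[X]).map (Int.castRingHom ℚ) =
      ∏ i, (X - C (P.x i : ℚ)) ^ (m i).natAbs := by
    rw [Polynomial.map_prod]
    refine Finset.prod_congr rfl fun i _ => ?_
    rw [Polynomial.map_pow, Polynomial.map_sub, map_X, map_C]
    simp
  have hnorm1 : (algebraMap ℚ[X] (Crd P.f) (C α⁻¹) * toQ P φ).norm =
      ∏ i, (X - C (P.x i : ℚ)) ^ (m i).natAbs := by
    rw [map_mul, QuadraticAlgebra.norm_algebraMap, hN, ← mul_assoc, ← C_pow, ← C_mul,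
      ← mul_pow, inv_mul_cancel₀ hα, one_pow, C_1, one_mul]
  set φ1 : Crd P.f := algebraMap ℚ[X] (Crd P.f) (C α⁻¹) * toQ P φ with hφ1
  have hQ : (algebraMap ℤ ℚ) = Int.castRingHom ℚ := rfl
  obtain ⟨A, B, hA, hB, hAB⟩ := Agent.Lib.MP_695920_nt.TT.integral_of_norm (K := ℚ) P.monic P.odd
    φ1.re φ1.im (∏ i, (X - C (P.x i)) ^ (m i).natAbs) (by
      rw [hQ, hprodZ, ← hnorm1, norm_crd]
      rfl)
  rw [hQ] at hA hB
  have h12 : toQ P ⟨A, B⟩ = φ1 := by
    ext1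
    · exact hA.symm
    · exact hB.symm
  have hα0 : (C α⁻¹ : ℚ[X]) ≠ 0 := C_ne_zero.2 (inv_ne_zero hα)
  have hφ10 : φ1 ≠ 0 := by
    refine mul_ne_zero ?_ ((toQ_ne_zero P).2 hφ0)
    intro h0
    exact hα0 (QuadraticAlgebra.algebraMap_injective (h0.trans (map_zero _).symm))
  have hφ20 : (⟨A, B⟩ : OR P.f0) ≠ 0 := by
    rw [← toQ_ne_zero P, h12]
    exact hφ10
  refine ⟨⟨A, B⟩, hφ20, ?_, ?_, ?_⟩
  · rw [h12, ← hφ]
    refine Ideal.span_singleton_eq_span_singleton.2 ?_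
    have hu : IsUnit (algebraMap ℚ[X] (Crd P.f) (C α⁻¹)) :=
      (isUnit_C.2 (isUnit_iff_ne_zero.2 (inv_ne_zero hα))).map _
    exact associated_unit_mul_left _ _ hu
  · rw [or_norm]
    exact hAB
  · intro p hp
    refine M.chi_eq_of_mul_eq (nsq_odd P.monic P.odd) p hp hφ20 hφ0 (A := C α.num) (B := C (α.den : ℤ))
      (C_ne_zero.2 (Rat.num_ne_zero.2 hα)) (C_ne_zero.2 (by exact_mod_cast α.den_nz)) ?_
    apply toQ_inj P
    rw [map_mul, map_mul, toQ_algebraMap, toQ_algebraMap, h12, hφ1, ← mul_assoc, ← map_mul,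
      map_C, map_C, ← C_mul]
    congr 3
    rw [eq_intCast, eq_intCast, Int.cast_natCast]
    have h1 := Rat.num_div_den α
    have h2 : (α.den : ℚ) ≠ 0 := by exact_mod_cast α.den_nz
    rw [mul_inv_eq_iff_eq_mul₀ hα, mul_comm]
    rw [div_eq_iff h2] at h1
    exact h1

/-- divisibility by a monic polynomial up to a constant -/
theorem dvd_of_dvd_C_mul {N G : ℤ[X]} (hN : N.Monic) (c : ℤ) (hc : c ≠ 0) (h : N ∣ C c * G) :
    N ∣ G := by
  rw [← map_dvd_map (Int.castRingHom ℚ) (RingHom.injective_int _) hN] at h ⊢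
  rw [Polynomial.map_mul, map_C] at h
  have hu : IsUnit (C (Int.castRingHom ℚ c)) :=
    isUnit_C.2 (isUnit_iff_ne_zero.2 (by simpa using hc))
  exact (IsUnit.dvd_mul_left hu).1 h

/-- **(V)** -/
theorem rel_van (P : Pts ι) (M : Mdl P.f0) (t z : ι → ℤ) (hx : ∀ i, P.x i = M.q * t i + M.xc)
    (hy : ∀ i, P.y i = M.w * z i + M.yc) (m : ι → ℤ) (φ : OR P.f0)
    (hφ : Ideal.span {toQ P φ} = relJ P m) (c : ℤ) (hc : c ≠ 0) (Φ : OZ M.E M.b)
    (hΦ : M.lam φ = algebraMap ℤ[X] (OZ M.E M.b) (C c) * Φ) (j : ι) :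
    algebraMap ℤ[X] (OZ M.E M.b) ((X - C (t j)) ^ (m j).natAbs) ∣
      (⟨-C (M.b - (if m j < 0 then M.b - z j else z j)), 1⟩ : OZ M.E M.b) ^ (m j).natAbs * Φ := by
  set a := (m j).natAbs with ha
  set v : ℤ := if m j < 0 then -P.y j else P.y j with hv
  -- over `ℤ`
  have h1 := rel_gen_dvd P m (toQ P φ) hφ j
  have h2 : (⟨C ((v : ℤ) : ℚ), 1⟩ : Crd P.f) = toQ P ⟨C v, 1⟩ := by
    ext1
    · rw [toQ_re, map_C, eq_intCast]
    · rw [toQ_im, Polynomial.map_one]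
  rw [← ha, ← hv, h2, ← map_pow, ← map_mul, QuadraticAlgebra.algebraMap_dvd_iff, toQ_re,
    toQ_im] at h1
  have h3 : (X - C (P.x j : ℚ)) ^ a = ((X - C (P.x j)) ^ a : ℤ[X]).map (Int.castRingHom ℚ) := by
    rw [Polynomial.map_pow, Polynomial.map_sub, map_X, map_C]
    simp
  have hmon : ((X - C (P.x j)) ^ a : ℤ[X]).Monic := (monic_X_sub_C _).pow _
  rw [h3, map_dvd_map _ (RingHom.injective_int _) hmon,
    map_dvd_map _ (RingHom.injective_int _) hmon] at h1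
  have h4 : algebraMap ℤ[X] (OR P.f0) ((X - C (P.x j)) ^ a) ∣ (⟨C v, 1⟩ : OR P.f0) ^ a * φ :=
    QuadraticAlgebra.algebraMap_dvd_iff.2 h1
  -- in the model
  have h5 := _root_.map_dvd M.lam h4
  rw [map_mul, map_pow M.lam, M.lam_algebraMap, pow_comp, sub_comp, X_comp, C_comp, hΦ] at h5
  have h6 : M.ell - C (P.x j) = C M.q * (X - C (t j)) := by
    rw [Mdl.ell, hx j, C_add, C_mul]
    ring
  have h7 : M.lam ⟨C v, 1⟩ = algebraMap ℤ[X] (OZ M.E M.b) (C M.w) *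
      (⟨-C (M.b - (if m j < 0 then M.b - z j else z j)), 1⟩ : OZ M.E M.b) := by
    have h8 : v + M.yc = -(M.w * (M.b - (if m j < 0 then M.b - z j else z j))) := by
      have h9 := M.hb
      rw [hv]
      split_ifs
      · rw [hy j]
        ring
      · rw [hy j]
        linear_combination h9
    ext1
    · rw [M.lam_re, QuadraticAlgebra.re_mul, QuadraticAlgebra.algebraMap_re,
        QuadraticAlgebra.algebraMap_im, C_comp, one_comp, mul_one, ← C_add, h8, C_neg, C_mul]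
      ring
    · rw [M.lam_im, QuadraticAlgebra.im_mul, QuadraticAlgebra.algebraMap_re,
        QuadraticAlgebra.algebraMap_im, one_comp]
      ring
  rw [h6, h7, mul_pow, mul_pow] at h5
  set L : OZ M.E M.b := ⟨-C (M.b - (if m j < 0 then M.b - z j else z j)), 1⟩ with hL
  have h8 : algebraMap ℤ[X] (OZ M.E M.b) ((X - C (t j)) ^ a) ∣
      algebraMap ℤ[X] (OZ M.E M.b) (C (M.w ^ a * c)) * (L ^ a * Φ) := by
    refine (_root_.map_dvd (algebraMap ℤ[X] (OZ M.E M.b))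
      (dvd_mul_left ((X - C (t j)) ^ a) (C M.q ^ a))).trans (h5.trans ?_)
    refine dvd_of_eq ?_
    rw [C_mul, map_mul, C_pow, map_pow]
    ring
  rw [QuadraticAlgebra.algebraMap_dvd_iff] at h8 ⊢
  have hwc : M.w ^ a * c ≠ 0 := mul_ne_zero (pow_ne_zero _ M.w0) hc
  have hmon2 : ((X - C (t j)) ^ a : ℤ[X]).Monic := (monic_X_sub_C _).pow _
  obtain ⟨h9, h10⟩ := h8
  rw [QuadraticAlgebra.re_mul, QuadraticAlgebra.algebraMap_re, QuadraticAlgebra.algebraMap_im,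
    mul_zero, zero_mul, add_zero] at h9
  rw [QuadraticAlgebra.im_mul, QuadraticAlgebra.algebraMap_re, QuadraticAlgebra.algebraMap_im,
    zero_mul, add_zero, mul_zero, zero_mul, add_zero] at h10
  exact ⟨dvd_of_dvd_C_mul hmon2 _ hwc h9, dvd_of_dvd_C_mul hmon2 _ hwc h10⟩

/-- **Balanced relations.** -/
theorem rel_phi_gen (P : Pts ι) (M : Mdl P.f0) (t z : ι → ℤ)
    (hx : ∀ i, P.x i = M.q * t i + M.xc) (hy : ∀ i, P.y i = M.w * z i + M.yc) (T : Finset ℕ)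
    (hT : ∀ p ∈ T, p.Prime) (hqT : ∀ p : ℕ, p.Prime → (p : ℤ) ∣ M.q → p ∈ T)
    (hcop : ∀ p ∈ T, ¬ (p : ℤ) ∣ M.b) (k : ℕ)
    (hk : ∀ S : Finset ι, k < S.card → ∃ m : ι → ℤ, m ≠ 0 ∧ (∀ i, i ∉ S → m i = 0) ∧
      ∏ i, P.cls i ^ m i = 1) :
    ∃ L : AddSubgroup (ι → ℤ), (∀ S : Finset ι, k + 1 + T.card < S.card →
      ∃ m ∈ L, m ≠ 0 ∧ ∀ j, j ∉ S → m j = 0) ∧
      ∀ m ∈ L, ∑ i, m i = 0 ∧ ∃ Φ : OZ M.E M.b,
        Φ.norm = ∏ i, (X - C (t i)) ^ (m i).natAbs ∧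
        ∀ j, algebraMap ℤ[X] (OZ M.E M.b) ((X - C (t j)) ^ (m j).natAbs) ∣
          (⟨-C (M.b - (if m j < 0 then M.b - z j else z j)), 1⟩ : OZ M.E M.b) ^ (m j).natAbs *
            Φ := by
  classical
  let Γ : AddSubgroup ((ι → ℤ) × (Option T → ℤ)) :=
    { carrier := {g | ∃ φ : OR P.f0, φ ≠ 0 ∧ Ideal.span {toQ P φ} = relJ P g.1 ∧
        (∀ p : T, M.chi p φ = g.2 (some p)) ∧ ∑ i, g.1 i = g.2 none}
      zero_mem' := by
        refine ⟨1, one_ne_zero, by rw [map_one]; exact (relJ_zero P).symm, fun p => ?_, ?_⟩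
        · have h1 := M.chi_algebraMap p 1
          rw [map_one] at h1
          exact h1
        · simp
      add_mem' := by
        rintro a b ⟨φ, hφ, hJ, hc, hs⟩ ⟨φ', hφ', hJ', hc', hs'⟩
        obtain ⟨p, ψ, hp, hψ, hJψ⟩ := rel_gen_mul P hJ hJ'
        have hprod : toQ P φ * toQ P φ' ≠ 0 :=
          mul_ne_zero ((toQ_ne_zero P).2 hφ) ((toQ_ne_zero P).2 hφ')
        have hψ0 : ψ ≠ 0 := by
          rintro rfl
          rw [mul_zero] at hψ
          exact hprod hψ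
        obtain ⟨ψ0, hψ00, hJψ0, d, hd, hdψ⟩ := exists_int_gen P hψ0 hJψ
        -- clear the denominator of `p`
        obtain ⟨e, he, p0, hp0⟩ : ∃ e : ℤ, e ≠ 0 ∧ ∃ p0 : ℤ[X],
            p0.map (Int.castRingHom ℚ) = C (e : ℚ) * p := by
          obtain ⟨e, φ0, he, h1⟩ := toQ_denom P (algebraMap ℚ[X] (Crd P.f) p)
          refine ⟨e, he, φ0.re, ?_⟩
          have h2 := congrArg QuadraticAlgebra.re h1
          rw [toQ_re, ← map_mul, QuadraticAlgebra.algebraMap_re] at h2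
          exact h2
        have hp00 : p0 ≠ 0 := by
          rintro rfl
          rw [Polynomial.map_zero] at hp0
          have h1 : (C (e : ℚ) : ℚ[X]) ≠ 0 := C_ne_zero.2 (by exact_mod_cast he)
          exact mul_ne_zero h1 hp hp0.symm
        refine ⟨ψ0, hψ00, hJψ0, fun r => ?_, ?_⟩
        · have h1 : algebraMap ℤ[X] (OR P.f0) (C (e * d)) * (φ * φ') =
              algebraMap ℤ[X] (OR P.f0) p0 * ψ0 := by
            apply toQ_inj P
            rw [map_mul, map_mul (toQ P) φ, map_mul (toQ P) (algebraMap ℤ[X] (OR P.f0) p0),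
              toQ_algebraMap, toQ_algebraMap, hψ, hdψ, hp0, map_C]
            have h2 : (⟨p, 0⟩ : Crd P.f) = algebraMap ℚ[X] (Crd P.f) p := rfl
            rw [h2, eq_intCast, Int.cast_mul, C_mul, map_mul, map_mul]
            ring
          have hpr := hT r r.2
          have h2 := M.chi_eq_of_mul_eq (nsq_odd P.monic P.odd) r hpr
            (Mdl.or_mul_ne_zero (nsq_odd P.monic P.odd) hφ hφ') hψ00 (C_ne_zero.2 (mul_ne_zero he hd)) hp00 h1
          rw [← h2, M.chi_mul (nsq_odd P.monic P.odd) r hpr hφ hφ', hc r, hc' r]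
          rfl
        · rw [Prod.fst_add, Prod.snd_add, Pi.add_apply, ← hs, ← hs', ← Finset.sum_add_distrib]
          rfl
      neg_mem' := by
        rintro a ⟨φ, hφ, hJ, hc, hs⟩
        refine ⟨star φ, ?_, ?_, fun p => ?_, ?_⟩
        · intro h0
          apply hφ
          have h1 := congrArg star h0
          rwa [star_star, star_zero] at h1
        · rw [toQ_star]
          exact rel_gen_star P hJ
        · rw [M.chi_star, hc p]
          rfl
        · rw [Prod.fst_neg, Prod.snd_neg, Pi.neg_apply, ← hs, ← Finset.sum_neg_distrib]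
          rfl }
  refine ⟨Γ.comap (AddMonoidHom.inl (ι → ℤ) (Option T → ℤ)), ?_, ?_⟩
  · intro S hS
    obtain ⟨m, hm, hm0, hmS⟩ := Pool.TTE.drop_chars Γ k (fun S' hS' => by
      obtain ⟨m, h1, h2, h3⟩ := hk S' hS'
      obtain ⟨φ, hφ, hJ⟩ := rel_exists_gen P m h3
      obtain ⟨φ0, hφ0, hJ0, -⟩ := exists_int_gen P hφ hJ
      exact ⟨m, fun o => o.elim (∑ i, m i) fun p => M.chi p φ0,
        ⟨φ0, hφ0, hJ0, fun p => rfl, rfl⟩, h1, h2⟩) S (by
        rw [Fintype.card_option, Fintype.card_coe]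
        omega)
    exact ⟨m, hm, hm0, hmS⟩
  · rintro m ⟨φ, hφ0, hφ, hchi, hsum⟩
    have hsum' : ∑ i, m i = 0 := hsum
    refine ⟨hsum', ?_⟩
    have heven : Even (∑ i, (m i).natAbs) := by
      have h1 : ((∑ i, (m i).natAbs : ℕ) : ℤ) % 2 = (∑ i, m i) % 2 := by
        rw [Nat.cast_sum, Finset.sum_int_mod, Finset.sum_int_mod (f := m)]
        congr 1
        refine Finset.sum_congr rfl fun i _ => ?_
        omega
      rw [hsum'] at h1
      rw [Nat.even_iff]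
      omega
    obtain ⟨l, hl⟩ := heven
    obtain ⟨φ2, hφ20, hJ2, hN2, hchi2⟩ := rel_normalise P M m φ hφ0 hφ ⟨l, hl⟩
    have hql : ∀ p : ℕ, p.Prime → (p : ℤ) ∣ 1 * M.q ^ l → (p : ℤ) ∣ M.q := by
      intro p hp h
      rw [one_mul] at h
      exact (Nat.prime_iff_prime_int.1 hp).dvd_of_dvd_pow h
    obtain ⟨Φ, hΦ1, hΦ2⟩ := M.exists_phi φ2 1 one_ne_zero 1 isUnit_one l t
      (fun i => (m i).natAbs) (by rw [hl, two_mul])
      (by
        rw [hN2, C_1, one_mul, one_pow, C_1, one_mul]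
        refine Finset.prod_congr rfl fun i _ => ?_
        rw [hx i]) (fun p hp hpq => hcop p (hqT p hp (hql p hp hpq))) (fun p hp hpq => by
        rw [hchi2 p hp]
        exact hchi ⟨p, hqT p hp (hql p hp hpq)⟩)
    rw [C_1, one_mul] at hΦ1
    exact ⟨Φ, hΦ1, rel_van P M t z hx hy m φ2 hJ2 _ (mul_ne_zero one_ne_zero
      (pow_ne_zero _ M.q0)) Φ hΦ2⟩

end Pool.TT.Five
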