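import Pool.Agent.Lib.MP_695920_nt.TT.Five.RelMdl
import Pool.Agent.Lib.MP_695920_nt.TT.Even.Rel

set_option autoImplicit false

/-!
TEAM TWOTORSION, version 2 (C4): balanced relations and their functions, even degree.
-/

open Polynomial

namespace Pool.TT.Five

open Pool.TTE

theorem nsq_irr {f0 : ℤ[X]} (hm : f0.Monic) (hirr : Irreducible f0) : NSq f0 := by
  intro φ hφ h
  have hf : Irreducible (f0.map (Int.castRingHom ℚ)) :=
    (Polynomial.Monic.irreducible_iff_irreducible_map_fraction_map (K := ℚ) hm).1 hirr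
  rw [or_norm, sub_eq_zero] at h
  have h1 := congrArg (Polynomial.map (Int.castRingHom ℚ)) h
  rw [Polynomial.map_mul, Polynomial.map_pow, Polynomial.map_pow] at h1
  obtain ⟨h2, h3⟩ := nsq hf h1
  have hinj : Function.Injective (Int.castRingHom ℚ) := RingHom.injective_int _
  exact hφ (QuadraticAlgebra.ext ((Polynomial.map_eq_zero_iff hinj).1 h2)
    ((Polynomial.map_eq_zero_iff hinj).1 h3))

/-- divisibility by a monic polynomial up to a constant -/
theorem dvd_of_dvd_C_mul' {N G : ℤ[X]} (hN : N.Monic) (c : ℤ) (hc : c ≠ 0) (h : N ∣ C c * G) :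
    N ∣ G := by
  rw [← map_dvd_map (Int.castRingHom ℚ) (RingHom.injective_int _) hN] at h ⊢
  rw [Polynomial.map_mul, map_C] at h
  have hu : IsUnit (C (Int.castRingHom ℚ c)) :=
    isUnit_C.2 (isUnit_iff_ne_zero.2 (by simpa using hc))
  exact (IsUnit.dvd_mul_left hu).1 h

/-- **(V)**, one point -/
theorem van_core {f0 : ℤ[X]} (M : Mdl f0) (φ : OR f0) (x v : ℤ) (a : ℕ)
    (h1 : algebraMap ℚ[X] (Crd (f0.map (Int.castRingHom ℚ))) ((X - C (x : ℚ)) ^ a) ∣
      (⟨C (v : ℚ), 1⟩ : Crd (f0.map (Int.castRingHom ℚ))) ^ a * orQ f0 φ) (t u : ℤ)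
    (hx : x = M.q * t + M.xc) (hv : v + M.yc = -(M.w * u)) (c : ℤ) (hc : c ≠ 0) (Φ : OZ M.E M.b)
    (hΦ : M.lam φ = algebraMap ℤ[X] (OZ M.E M.b) (C c) * Φ) :
    algebraMap ℤ[X] (OZ M.E M.b) ((X - C t) ^ a) ∣ (⟨-C u, 1⟩ : OZ M.E M.b) ^ a * Φ := by
  have h2 : (⟨C (v : ℚ), 1⟩ : Crd (f0.map (Int.castRingHom ℚ))) = orQ f0 ⟨C v, 1⟩ := by
    ext1
    · rw [orQ_re, map_C, eq_intCast]
    · rw [orQ_im, Polynomial.map_one]
  rw [h2, ← map_pow, ← map_mul, QuadraticAlgebra.algebraMap_dvd_iff, orQ_re, orQ_im] at h1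
  have h3 : (X - C (x : ℚ)) ^ a = ((X - C x) ^ a : ℤ[X]).map (Int.castRingHom ℚ) := by
    rw [Polynomial.map_pow, Polynomial.map_sub, map_X, map_C]
    simp
  have hmon : ((X - C x) ^ a : ℤ[X]).Monic := (monic_X_sub_C _).pow _
  rw [h3, map_dvd_map _ (RingHom.injective_int _) hmon,
    map_dvd_map _ (RingHom.injective_int _) hmon] at h1
  have h4 : algebraMap ℤ[X] (OR f0) ((X - C x) ^ a) ∣ (⟨C v, 1⟩ : OR f0) ^ a * φ :=
    QuadraticAlgebra.algebraMap_dvd_iff.2 h1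
  have h5 := _root_.map_dvd M.lam h4
  rw [map_mul, map_pow M.lam, M.lam_algebraMap, pow_comp, sub_comp, X_comp, C_comp, hΦ] at h5
  have h6 : M.ell - C x = C M.q * (X - C t) := by
    rw [Mdl.ell, hx, C_add, C_mul]
    ring
  have h7 : M.lam ⟨C v, 1⟩ = algebraMap ℤ[X] (OZ M.E M.b) (C M.w) *
      (⟨-C u, 1⟩ : OZ M.E M.b) := by
    ext1
    · rw [M.lam_re, QuadraticAlgebra.re_mul, QuadraticAlgebra.algebraMap_re,
        QuadraticAlgebra.algebraMap_im, C_comp, one_comp, mul_one, ← C_add, hv, C_neg, C_mul]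
      ring
    · rw [M.lam_im, QuadraticAlgebra.im_mul, QuadraticAlgebra.algebraMap_re,
        QuadraticAlgebra.algebraMap_im, one_comp]
      ring
  rw [h6, h7, mul_pow, mul_pow] at h5
  set L : OZ M.E M.b := ⟨-C u, 1⟩ with hL
  have h8 : algebraMap ℤ[X] (OZ M.E M.b) ((X - C t) ^ a) ∣
      algebraMap ℤ[X] (OZ M.E M.b) (C (M.w ^ a * c)) * (L ^ a * Φ) := by
    refine (_root_.map_dvd (algebraMap ℤ[X] (OZ M.E M.b))
      (dvd_mul_left ((X - C t) ^ a) (C M.q ^ a))).trans (h5.trans ?_)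
    refine dvd_of_eq ?_
    rw [C_mul, map_mul, C_pow, map_pow]
    ring
  rw [QuadraticAlgebra.algebraMap_dvd_iff] at h8 ⊢
  have hwc : M.w ^ a * c ≠ 0 := mul_ne_zero (pow_ne_zero _ M.w0) hc
  have hmon2 : ((X - C t) ^ a : ℤ[X]).Monic := (monic_X_sub_C _).pow _
  obtain ⟨h9, h10⟩ := h8
  rw [QuadraticAlgebra.re_mul, QuadraticAlgebra.algebraMap_re, QuadraticAlgebra.algebraMap_im,
    mul_zero, zero_mul, add_zero] at h9
  rw [QuadraticAlgebra.im_mul, QuadraticAlgebra.algebraMap_re, QuadraticAlgebra.algebraMap_im,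
    zero_mul, add_zero, mul_zero, zero_mul, add_zero] at h10
  exact ⟨dvd_of_dvd_C_mul' hmon2 _ hwc h9, dvd_of_dvd_C_mul' hmon2 _ hwc h10⟩

section

variable {ι : Type*} (P : EPts ι)

/-- the inclusion in the coordinate ring over `ℚ` -/
noncomputable def toQE : OR P.f0 →+* Crd P.f := orQ P.f0

theorem toQE_re (φ : OR P.f0) : (toQE P φ).re = φ.re.map (Int.castRingHom ℚ) := rfl

theorem toQE_im (φ : OR P.f0) : (toQE P φ).im = φ.im.map (Int.castRingHom ℚ) := rfl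

theorem toQE_inj : Function.Injective (toQE P) := orQ_inj P.f0

theorem toQE_star (φ : OR P.f0) : toQE P (star φ) = star (toQE P φ) := orQ_star P.f0 φ

theorem toQE_algebraMap (p : ℤ[X]) : toQE P (algebraMap ℤ[X] (OR P.f0) p) =
    algebraMap ℚ[X] (Crd P.f) (p.map (Int.castRingHom ℚ)) := orQ_algebraMap P.f0 p

theorem toQE_norm (φ : OR P.f0) : (toQE P φ).norm = φ.norm.map (Int.castRingHom ℚ) :=
  orQ_norm P.f0 φ

theorem toQE_denom (φ : Crd P.f) :
    ∃ (d : ℤ) (φ0 : OR P.f0), d ≠ 0 ∧ toQE P φ0 = algebraMap ℚ[X] (Crd P.f) (C (d : ℚ)) * φ :=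
  orQ_denom P.f0 φ

theorem toQE_ne_zero {φ : OR P.f0} : toQE P φ ≠ 0 ↔ φ ≠ 0 := by
  constructor
  · rintro h rfl
    exact h (map_zero _)
  · intro h h0
    exact h (toQE_inj P (h0.trans (map_zero _).symm))

theorem span_const_mul (d : ℚ) (hd : d ≠ 0) (φ : Crd P.f) :
    Ideal.span {algebraMap ℚ[X] (Crd P.f) (C d) * φ} = Ideal.span {φ} := by
  refine Ideal.span_singleton_eq_span_singleton.2 ?_
  have hu : IsUnit (algebraMap ℚ[X] (Crd P.f) (C d)) :=
    (isUnit_C.2 (isUnit_iff_ne_zero.2 hd)).map _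
  exact associated_unit_mul_left _ _ hu

theorem const_ne_zero (d : ℚ) (hd : d ≠ 0) : algebraMap ℚ[X] (Crd P.f) (C d) ≠ 0 := by
  intro h0
  exact (C_ne_zero.2 hd) (QuadraticAlgebra.algebraMap_injective (h0.trans (map_zero _).symm))

/-- an integral generator -/
theorem exists_int_genE {I : Ideal (Crd P.f)} {φ : Crd P.f} (hφ : φ ≠ 0)
    (hI : Ideal.span {φ} = I) : ∃ φ0 : OR P.f0, φ0 ≠ 0 ∧ Ideal.span {toQE P φ0} = I ∧
      ∃ d : ℤ, d ≠ 0 ∧ toQE P φ0 = algebraMap ℚ[X] (Crd P.f) (C (d : ℚ)) * φ := by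
  obtain ⟨d, φ0, hd, h⟩ := toQE_denom P φ
  have hd' : (d : ℚ) ≠ 0 := by exact_mod_cast hd
  refine ⟨φ0, ?_, ?_, d, hd, h⟩
  · rw [← toQE_ne_zero P, h]
    exact mul_ne_zero (const_ne_zero P _ hd') hφ
  · rw [h, span_const_mul P _ hd', hI]

end

variable {ι : Type*} [Fintype ι]

/-- **Normalisation** of a good generator. -/
theorem rel_normaliseE (P : EPts ι) (M : Mdl P.f0) (m : ι → ℤ) (φ : OR P.f0) (hφ0 : φ ≠ 0)
    (hφ : Ideal.span {toQE P φ} = P.J m) (hgood : Good (toQE P φ)) :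
    ∃ (φ2 : OR P.f0) (ε : ℤ), φ2 ≠ 0 ∧ Ideal.span {toQE P φ2} = P.J m ∧
      (ε = 1 ∨ ε = -1) ∧
      φ2.norm = C ε * (C (2 ^ 2) * ∏ i, (X - C (P.x i)) ^ (m i).natAbs) ∧
      (φ2.re ^ 2).degree ≠ (P.f0 * φ2.im ^ 2).degree ∧
      ∀ p : ℕ, p.Prime → M.chi p φ2 = M.chi p φ := by
  obtain ⟨h, hh⟩ := P.even
  have hn : P.f0.natDegree = 2 * h := by omega
  have hfm : P.f.Monic := P.f_monic
  have hfd : P.f.natDegree = 2 * h := by rw [P.f_natDegree, hn]
  have hinj : Function.Injective (Int.castRingHom ℚ) := RingHom.injective_int _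
  set W : ℤ[X] := ∏ i, (X - C (P.x i)) ^ (m i).natAbs with hW
  have hWm : W.Monic := monic_prod_of_monic _ _ fun i _ => (monic_X_sub_C _).pow _
  have hprodZ : W.map (Int.castRingHom ℚ) = ∏ i, (X - C (P.x i : ℚ)) ^ (m i).natAbs := by
    rw [hW, Polynomial.map_prod]
    refine Finset.prod_congr rfl fun i _ => ?_
    rw [Polynomial.map_pow, Polynomial.map_sub, map_X, map_C]
    simp
  have hdvd : ∀ i, (X - C (P.x i : ℚ)) ∣
      P.f - (C ((if m i < 0 then -P.y i else P.y i : ℤ) : ℚ)) ^ 2 := by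
    intro i
    have h1 : (C ((if m i < 0 then -P.y i else P.y i : ℤ) : ℚ) : ℚ[X]) ^ 2 =
        C (P.y i : ℚ) ^ 2 := by
      split_ifs
      · push_cast
        rw [C_neg, neg_sq]
      · rfl
    rw [h1]
    exact P.dvd_pt i
  obtain ⟨κ, hκ0, hκ⟩ := norm_of_span P.f (fun i => X - C (P.x i : ℚ))
    (fun i => C ((if m i < 0 then -P.y i else P.y i : ℤ) : ℚ)) (fun i => (m i).natAbs) hdvd
    (toQE P φ) hφ
  rw [← hprodZ] at hκ
  have hlcκ : (toQE P φ).norm.leadingCoeff = κ := by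
    rw [hκ, leadingCoeff_mul, (hWm.map _).leadingCoeff, leadingCoeff_C, mul_one]
  obtain ⟨c, ε, hc0, hε, hc⟩ : ∃ (c : ℚ) (ε : ℤ), c ≠ 0 ∧ (ε = 1 ∨ ε = -1) ∧
      κ = (ε : ℚ) * c ^ 2 := by
    rcases hgood.norm_lc hfm with ⟨-, -, h3, h4⟩ | ⟨-, -, h3, h4⟩
    · exact ⟨_, 1, leadingCoeff_ne_zero.2 h4, Or.inl rfl, by rw [← hlcκ, h3]; simp⟩
    · exact ⟨_, -1, leadingCoeff_ne_zero.2 h4, Or.inr rfl, by rw [← hlcκ, h3]; simp⟩
  have hε2 : ((ε : ℚ)) ≠ 0 := by rcases hε with rfl | rfl <;> simp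
  set φ1 : Crd P.f := algebraMap ℚ[X] (Crd P.f) (C c⁻¹) * toQE P φ with hφ1
  have hgood1 : Good φ1 := Good.mul hfm hfd (good_poly (C_ne_zero.2 (inv_ne_zero hc0))) hgood
  have hN1 : φ1.norm = (C ε * W).map (Int.castRingHom ℚ) := by
    rw [hφ1, map_mul, QuadraticAlgebra.norm_algebraMap, hκ, ← mul_assoc, ← C_pow, ← C_mul, hc,
      Polynomial.map_mul, map_C, eq_intCast]
    congr 2
    field_simp
  have hlcN : (C ε * W).leadingCoeff = 1 ∨ (C ε * W).leadingCoeff = -1 := by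
    rw [leadingCoeff_mul, hWm.leadingCoeff, leadingCoeff_C, mul_one]
    exact hε
  obtain ⟨A, B, hA, hB⟩ := gauss_even P.monic hn P.root φ1 hgood1 (C ε * W) hlcN hN1
  have h12 : toQE P ⟨A, B⟩ = algebraMap ℚ[X] (Crd P.f) (C 2) * φ1 := by
    ext1
    · rw [toQE_re, QuadraticAlgebra.re_mul, QuadraticAlgebra.algebraMap_re,
        QuadraticAlgebra.algebraMap_im]
      show A.map (Int.castRingHom ℚ) = _
      rw [← hA]
      ring
    · rw [toQE_im, QuadraticAlgebra.im_mul, QuadraticAlgebra.algebraMap_re,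
        QuadraticAlgebra.algebraMap_im]
      show B.map (Int.castRingHom ℚ) = _
      rw [← hB]
      ring
  have hφ10 : φ1 ≠ 0 := mul_ne_zero (const_ne_zero P _ (inv_ne_zero hc0)) ((toQE_ne_zero P).2 hφ0)
  have hφ20 : (⟨A, B⟩ : OR P.f0) ≠ 0 := by
    rw [← toQE_ne_zero P, h12]
    exact mul_ne_zero (const_ne_zero P _ two_ne_zero) hφ10
  refine ⟨⟨A, B⟩, ε, hφ20, ?_, hε, ?_, ?_, ?_⟩
  · rw [h12, span_const_mul P _ two_ne_zero, hφ1, span_const_mul P _ (inv_ne_zero hc0), hφ]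
  · apply map_injective _ hinj
    rw [← toQE_norm, h12, map_mul, QuadraticAlgebra.norm_algebraMap, hN1, Polynomial.map_mul,
      Polynomial.map_mul, Polynomial.map_mul, map_C, map_C, ← C_pow]
    simp only [eq_intCast, Int.cast_pow, Int.cast_ofNat]
    ring
  · have h2 : ∀ q : ℚ[X], (C (2 : ℚ) * q).degree = q.degree := by
      intro q
      rw [degree_mul, degree_C (two_ne_zero), zero_add]
    have hd : ∀ G : ℤ[X], (G.map (Int.castRingHom ℚ)).degree = G.degree := fun G =>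
      degree_map_eq_of_injective hinj G
    show (A ^ 2).degree ≠ (P.f0 * B ^ 2).degree
    rw [← hd (A ^ 2), ← hd (P.f0 * B ^ 2), Polynomial.map_pow, Polynomial.map_mul,
      Polynomial.map_pow, ← hA, ← hB, degree_pow, h2, degree_mul, degree_pow, h2]
    have h3 := hgood1
    unfold Good at h3
    rw [degree_pow, degree_mul, degree_pow] at h3
    exact h3
  · intro p hp
    refine M.chi_eq_of_mul_eq (nsq_irr P.monic P.irr) p hp hφ20 hφ0 (A := C c.num)
      (B := C (2 * (c.den : ℤ))) (C_ne_zero.2 (Rat.num_ne_zero.2 hc0))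
      (C_ne_zero.2 (mul_ne_zero two_ne_zero (by exact_mod_cast c.den_nz))) ?_
    apply toQE_inj P
    rw [map_mul, map_mul, toQE_algebraMap, toQE_algebraMap, h12, hφ1, ← mul_assoc, ← mul_assoc,
      ← map_mul, ← map_mul, map_C, map_C, ← C_mul, ← C_mul]
    congr 3
    rw [eq_intCast, eq_intCast, Int.cast_mul, Int.cast_natCast, Int.cast_ofNat]
    have h1 := Rat.num_div_den c
    have h2 : (c.den : ℚ) ≠ 0 := by exact_mod_cast c.den_nz
    rw [div_eq_iff h2] at h1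
    rw [mul_inv_eq_iff_eq_mul₀ hc0, h1]
    ring

/-- a generator is in the powers of the ideals of the points -/
theorem rel_gen_dvdE (P : EPts ι) (m : ι → ℤ) (φ : Crd P.f) (hφ : Ideal.span {φ} = P.J m)
    (i : ι) : algebraMap ℚ[X] (Crd P.f) ((X - C (P.x i : ℚ)) ^ (m i).natAbs) ∣
      (⟨C ((if m i < 0 then -P.y i else P.y i : ℤ) : ℚ), 1⟩ : Crd P.f) ^ (m i).natAbs * φ := by
  set v : ℚ[X] := C ((if m i < 0 then -P.y i else P.y i : ℤ) : ℚ) with hv
  have hdvd : (X - C (P.x i : ℚ)) ∣ P.f - v ^ 2 := by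
    have h1 : v ^ 2 = C (P.y i : ℚ) ^ 2 := by
      rw [hv]
      split_ifs
      · push_cast
        rw [C_neg, neg_sq]
      · rfl
    rw [h1]
    exact P.dvd_pt i
  have h1 : φ ∈ pt P.f (X - C (P.x i : ℚ)) v ^ (m i).natAbs := by
    have h2 : φ ∈ Ideal.span {φ} := Ideal.mem_span_singleton_self φ
    rw [hφ] at h2
    exact Ideal.le_of_dvd (Finset.dvd_prod_of_mem _ (Finset.mem_univ i)) h2
  have h2 : (⟨v, 1⟩ : Crd P.f) ^ (m i).natAbs ∈
      pt P.f (X - C (P.x i : ℚ)) (-v) ^ (m i).natAbs := by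
    refine Ideal.pow_mem_pow ?_ _
    have h3 := mem_pt_y P.f (X - C (P.x i : ℚ)) (-v)
    rwa [neg_neg] at h3
  have h3 := Ideal.mul_mem_mul h2 h1
  rw [← mul_pow, mul_comm (pt P.f _ (-v)), pt_mul_conj P.f P.f_irr.squarefree _ _ hdvd,
    Ideal.span_singleton_pow, Ideal.mem_span_singleton] at h3
  rw [map_pow]
  exact h3

/-- **Balanced relations**, even degree. -/
theorem rel_phi_even (P : EPts ι) (M : Mdl P.f0) (t z : ι → ℤ)
    (hx : ∀ i, P.x i = M.q * t i + M.xc) (hy : ∀ i, P.y i = M.w * z i + M.yc) (T : Finset ℕ)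
    (hT : ∀ p ∈ T, p.Prime) (hqT : ∀ p : ℕ, p.Prime → (p : ℤ) ∣ 2 * M.q → p ∈ T)
    (hcop : ∀ p ∈ T, ¬ (p : ℤ) ∣ M.b) (k : ℕ)
    (hk : ∀ S : Finset ι, k < S.card → ∃ m : ι → ℤ, m ≠ 0 ∧ (∀ i, i ∉ S → m i = 0) ∧
      ∏ i, P.cls i ^ m i = 1) :
    ∃ L : AddSubgroup (ι → ℤ),
      (∀ S : Finset ι, k + 2 + (2 * P.f0.discr).natAbs.primeFactors.card + T.card < S.card →
        ∃ m ∈ L, m ≠ 0 ∧ ∀ j, j ∉ S → m j = 0) ∧
      ∀ m ∈ L, ∑ i, m i = 0 ∧ ∃ (A B : ℤ[X]) (l : ℕ) (Φ : OZ M.E M.b),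
        ∑ i, (m i).natAbs = 2 * l ∧
        (A ^ 2).degree ≠ (P.f0 * B ^ 2).degree ∧
        (A ^ 2 - P.f0 * B ^ 2 = 4 * ∏ i, (X - C (P.x i)) ^ (m i).natAbs ∨
          A ^ 2 - P.f0 * B ^ 2 = -(4 * ∏ i, (X - C (P.x i)) ^ (m i).natAbs)) ∧
        M.lam ⟨A, B⟩ = algebraMap ℤ[X] (OZ M.E M.b) (C (2 * M.q ^ l)) * Φ ∧
        (Φ.norm = ∏ i, (X - C (t i)) ^ (m i).natAbs ∨
          Φ.norm = -∏ i, (X - C (t i)) ^ (m i).natAbs) ∧
        ∀ j, algebraMap ℤ[X] (OZ M.E M.b) ((X - C (t j)) ^ (m j).natAbs) ∣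
          (⟨-C (M.b - (if m j < 0 then M.b - z j else z j)), 1⟩ : OZ M.E M.b) ^ (m j).natAbs *
            Φ := by
  classical
  have hns : NSq P.f0 := nsq_irr P.monic P.irr
  obtain ⟨χ, hmul, hstar, hpoly, hgood⟩ :
      ∃ χ : Option (2 * P.f0.discr).natAbs.primeFactors → Crd P.f → ℤ,
      (∀ k φ ψ, φ ≠ 0 → ψ ≠ 0 → χ k (φ * ψ) = χ k φ + χ k ψ) ∧
      (∀ k φ, χ k (star φ) = -χ k φ) ∧
      (∀ k (p : ℚ[X]), p ≠ 0 → χ k (algebraMap ℚ[X] (Crd P.f) p) = 0) ∧
      ∀ φ : Crd P.f, φ ≠ 0 →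
        (∃ (κ : ℚ) (N : ℤ[X]), κ ≠ 0 ∧ N.Monic ∧
          φ.norm = C κ * N.map (Int.castRingHom ℚ)) → (∀ k, χ k φ = 0) → Good φ :=
    exists_chars P.f0 P.monic P.even P.irr P.root
  let D := (2 * P.f0.discr).natAbs.primeFactors
  let Γ : AddSubgroup ((ι → ℤ) × (Option D ⊕ Option T → ℤ)) :=
    { carrier := {g | ∃ φ : OR P.f0, φ ≠ 0 ∧ Ideal.span {toQE P φ} = P.J g.1 ∧
        (∀ k : Option D, χ k (toQE P φ) = g.2 (Sum.inl k)) ∧
        (∀ p : T, M.chi p φ = g.2 (Sum.inr (some p))) ∧ ∑ i, g.1 i = g.2 (Sum.inr none)}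
      zero_mem' := by
        refine ⟨1, one_ne_zero, by rw [map_one]; exact P.J_zero.symm, fun r => ?_, fun p => ?_, ?_⟩
        · rw [map_one]
          exact hpoly r 1 one_ne_zero
        · have h1 := M.chi_algebraMap p 1
          rw [map_one] at h1
          exact h1
        · simp
      add_mem' := by
        rintro a b ⟨φ, hφ, hJ, hd, hc, hs⟩ ⟨φ', hφ', hJ', hd', hc', hs'⟩
        obtain ⟨p, ψ, hp, hψ, hJψ⟩ := P.gen_mul hJ hJ'
        have hq0 := (toQE_ne_zero P).2 hφ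
        have hq0' := (toQE_ne_zero P).2 hφ'
        have hψ0 : ψ ≠ 0 := by
          rintro rfl
          rw [mul_zero] at hψ
          exact mul_ne_zero hq0 hq0' hψ
        obtain ⟨ψ0, hψ00, hJψ0, d, hd0, hdψ⟩ := exists_int_genE P hψ0 hJψ
        have hdQ : (d : ℚ) ≠ 0 := by exact_mod_cast hd0
        obtain ⟨e, he, p0, hp0⟩ : ∃ e : ℤ, e ≠ 0 ∧ ∃ p0 : ℤ[X],
            p0.map (Int.castRingHom ℚ) = C (e : ℚ) * p := by
          obtain ⟨e, φ0, he, h1⟩ := toQE_denom P (algebraMap ℚ[X] (Crd P.f) p)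
          refine ⟨e, he, φ0.re, ?_⟩
          have h2 := congrArg QuadraticAlgebra.re h1
          rw [toQE_re, ← map_mul, QuadraticAlgebra.algebraMap_re] at h2
          exact h2
        have hp00 : p0 ≠ 0 := by
          rintro rfl
          rw [Polynomial.map_zero] at hp0
          have h1 : (C (e : ℚ) : ℚ[X]) ≠ 0 := C_ne_zero.2 (by exact_mod_cast he)
          exact mul_ne_zero h1 hp hp0.symm
        have hpe : (⟨p, 0⟩ : Crd P.f) = algebraMap ℚ[X] (Crd P.f) p := rfl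
        have hpe0 : (⟨p, 0⟩ : Crd P.f) ≠ 0 := fun h0 => hp (congrArg QuadraticAlgebra.re h0)
        refine ⟨ψ0, hψ00, hJψ0, fun r => ?_, fun r => ?_, ?_⟩
        · have h1 := hmul r (toQE P φ) (toQE P φ') hq0 hq0'
          rw [hψ, hmul r _ _ hpe0 hψ0, hpe, hpoly r p hp, zero_add, hd r, hd' r] at h1
          rw [hdψ, hmul r _ _ (const_ne_zero P _ hdQ) hψ0, hpoly r _ (C_ne_zero.2 hdQ), zero_add,
            h1]
          rfl
        · have h1 : algebraMap ℤ[X] (OR P.f0) (C (e * d)) * (φ * φ') =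
              algebraMap ℤ[X] (OR P.f0) p0 * ψ0 := by
            apply toQE_inj P
            rw [map_mul, map_mul (toQE P) φ, map_mul (toQE P) (algebraMap ℤ[X] (OR P.f0) p0),
              toQE_algebraMap, toQE_algebraMap, hψ, hdψ, hp0, map_C, hpe, eq_intCast,
              Int.cast_mul, C_mul, map_mul, map_mul]
            ring
          have hpr := hT r r.2
          have h2 := M.chi_eq_of_mul_eq hns r hpr (Mdl.or_mul_ne_zero hns hφ hφ')
            hψ00 (C_ne_zero.2 (mul_ne_zero he hd0)) hp00 h1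
          rw [← h2, M.chi_mul hns r hpr hφ hφ', hc r, hc' r]
          rfl
        · rw [Prod.fst_add, Prod.snd_add, Pi.add_apply, ← hs, ← hs', ← Finset.sum_add_distrib]
          rfl
      neg_mem' := by
        rintro a ⟨φ, hφ, hJ, hd, hc, hs⟩
        refine ⟨star φ, ?_, ?_, fun r => ?_, fun p => ?_, ?_⟩
        · intro h0
          apply hφ
          have h1 := congrArg star h0
          rwa [star_star, star_zero] at h1
        · rw [toQE_star]
          exact P.gen_star hJ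
        · rw [toQE_star, hstar, hd r]
          rfl
        · rw [M.chi_star, hc p]
          rfl
        · rw [Prod.fst_neg, Prod.snd_neg, Pi.neg_apply, ← hs, ← Finset.sum_neg_distrib]
          rfl }
  refine ⟨Γ.comap (AddMonoidHom.inl (ι → ℤ) (Option D ⊕ Option T → ℤ)), ?_, ?_⟩
  · intro S hS
    obtain ⟨m, hm, hm0, hmS⟩ := Pool.TTE.drop_chars Γ k (fun S' hS' => by
      obtain ⟨m, h1, h2, h3⟩ := hk S' hS'
      obtain ⟨φ, hφ, hJ⟩ := P.exists_gen m h3
      obtain ⟨φ0, hφ0, hJ0, -⟩ := exists_int_genE P hφ hJ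
      exact ⟨m, fun o => o.elim (fun r => χ r (toQE P φ0))
        (fun o => o.elim (∑ i, m i) fun p => M.chi p φ0),
        ⟨φ0, hφ0, hJ0, fun r => rfl, fun p => rfl, rfl⟩, h1, h2⟩) S (by
        rw [Fintype.card_sum, Fintype.card_option, Fintype.card_option, Fintype.card_coe,
          Fintype.card_coe]
        have hD : D.card = (2 * P.f0.discr).natAbs.primeFactors.card := rfl
        omega)
    exact ⟨m, hm, hm0, hmS⟩
  · rintro m ⟨φ, hφ0, hφ, hd, hchi, hsum⟩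
    have hsum' : ∑ i, m i = 0 := hsum
    refine ⟨hsum', ?_⟩
    have heven : Even (∑ i, (m i).natAbs) := by
      have h1 : ((∑ i, (m i).natAbs : ℕ) : ℤ) % 2 = (∑ i, m i) % 2 := by
        rw [Nat.cast_sum, Finset.sum_int_mod, Finset.sum_int_mod (f := m)]
        congr 1
        refine Finset.sum_congr rfl fun i _ => ?_
        omega
      rw [hsum'] at h1
      rw [Nat.even_iff]
      omega
    obtain ⟨l, hl⟩ := heven
    have hdvd : ∀ i, (X - C (P.x i : ℚ)) ∣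
        P.f - (C ((if m i < 0 then -P.y i else P.y i : ℤ) : ℚ)) ^ 2 := by
      intro i
      have h1 : (C ((if m i < 0 then -P.y i else P.y i : ℤ) : ℚ) : ℚ[X]) ^ 2 =
          C (P.y i : ℚ) ^ 2 := by
        split_ifs
        · push_cast
          rw [C_neg, neg_sq]
        · rfl
      rw [h1]
      exact P.dvd_pt i
    have hgoodφ : Good (toQE P φ) := by
      refine hgood _ ((toQE_ne_zero P).2 hφ0) ?_ fun r => hd r
      obtain ⟨κ, hκ, hN⟩ := norm_of_span P.f (fun i => X - C (P.x i : ℚ))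
        (fun i => C ((if m i < 0 then -P.y i else P.y i : ℤ) : ℚ)) (fun i => (m i).natAbs) hdvd
        (toQE P φ) hφ
      refine ⟨κ, ∏ i, (X - C (P.x i)) ^ (m i).natAbs, hκ,
        monic_prod_of_monic _ _ fun i _ => (monic_X_sub_C _).pow _, ?_⟩
      have h2 : (∏ i, (X - C (P.x i)) ^ (m i).natAbs : ℤ[X]).map (Int.castRingHom ℚ) =
          ∏ i, (X - C (P.x i : ℚ)) ^ (m i).natAbs := by
        rw [Polynomial.map_prod]
        refine Finset.prod_congr rfl fun i _ => ?_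
        rw [Polynomial.map_pow, Polynomial.map_sub, map_X, map_C]
        simp
      rw [h2]
      exact hN
    obtain ⟨φ2, ε, hφ20, hJ2, hε, hN2, hdeg, hchi2⟩ := rel_normaliseE P M m φ hφ0 hφ hgoodφ
    have hql : ∀ p : ℕ, p.Prime → (p : ℤ) ∣ 2 * M.q ^ l → p ∈ T := by
      intro p hp h
      refine hqT p hp ?_
      rcases (Nat.prime_iff_prime_int.1 hp).dvd_or_dvd h with h1 | h1
      · exact h1.mul_right _
      · exact ((Nat.prime_iff_prime_int.1 hp).dvd_of_dvd_pow h1).mul_left _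
    obtain ⟨Φ, hΦ1, hΦ2⟩ := M.exists_phi φ2 2 two_ne_zero ε
      (by rcases hε with rfl | rfl <;> simp) l t
      (fun i => (m i).natAbs) (by rw [hl, two_mul])
      (by
        rw [hN2]
        congr 2
        refine Finset.prod_congr rfl fun i _ => ?_
        rw [hx i]) (fun p hp hpq => hcop p (hql p hp hpq)) (fun p hp hpq => by
        rw [hchi2 p hp]
        exact hchi ⟨p, hql p hp hpq⟩)
    refine ⟨φ2.re, φ2.im, l, Φ, by rw [hl, two_mul], hdeg, ?_, hΦ2, ?_, ?_⟩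
    · rw [or_norm] at hN2
      have h4 : (C (2 ^ 2) : ℤ[X]) = 4 := by
        norm_num
      rw [h4] at hN2
      rcases hε with rfl | rfl
      · left
        rw [hN2, C_1, one_mul]
      · right
        rw [hN2, C_neg, C_1, neg_one_mul]
    · rcases hε with rfl | rfl
      · left
        rw [hΦ1, C_1, one_mul]
      · right
        rw [hΦ1, C_neg, C_1, neg_one_mul]
    · intro j
      refine van_core M φ2 (P.x j) (if m j < 0 then -P.y j else P.y j) (m j).natAbs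
        (rel_gen_dvdE P m (toQE P φ2) hJ2 j) (t j) _ (hx j) ?_ (2 * M.q ^ l)
        (mul_ne_zero two_ne_zero (pow_ne_zero _ M.q0)) Φ hΦ2
      have h9 := M.hb
      split_ifs
      · rw [hy j]
        ring
      · rw [hy j]
        linear_combination h9

end Pool.TT.Five
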