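import Pool.Agent.Lib.MP_695920_nt.TT.Five.SplitA
import Pool.Agent.Lib.MP_695920_nt.TT.Five.Bound
import Pool.Agent.Lib.MP_695920_nt.TT.Five.Disc
import Pool.Agent.Lib.MP_695920_nt.TT.DiscOmega

set_option autoImplicit false

/-!
TEAM TWOTORSION, `n = 5`, N8: from the bound for one class to the bound for one line.
-/

namespace Pool.TT.Five

open Polynomial NumberField Module Real

theorem line_of_class (n : ℕ) (hodd : Odd n) (h3 : 3 ≤ n) {s σ : ℝ} (hs0 : 0 < s)
    (hs1 : 5 * s < 2) (hcl : ClassBound n s σ) {c ε : ℝ} (hc : 1 ≤ c) (hε : 0 < ε) :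
    ∃ C' : ℝ, 0 < C' ∧ ∀ (K : Type) [Field K] [NumberField K], finrank ℚ K = n → ∀ θ : 𝓞 K,
      (minpoly ℤ θ).natDegree = n →
      (∀ z : ℂ, ((minpoly ℤ θ).map (Int.castRingHom ℂ)).IsRoot z →
        ‖z‖ ≤ c * |(discr K : ℝ)| ^ ((1 : ℝ) / n)) →
      (Set.ncard {p : ℤ × ℤ | |(p.1 : ℝ)| ≤ c * |(discr K : ℝ)| ^ ((1 : ℝ) / n) ∧
        0 < p.2 ∧ p.2 ^ 2 = (minpoly ℤ θ).eval p.1} : ℝ) ≤
      C' * (|(discr K : ℝ)| ^ ((1 - s / n) / (2 * n) + ε) +
        (Nat.card {x : ClassGroup (𝓞 K) // x ^ 2 = 1} : ℝ) ^ (σ + ε) *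
          |(discr K : ℝ)| ^ (7 * s / (2 * n) + ε)) := by
  classical
  have hn0 : (0 : ℝ) < n := by have : 0 < n := by omega
                               exact_mod_cast this
  have hn3 : (3 : ℝ) ≤ n := by exact_mod_cast h3
  have hc0 : 0 < c := by linarith
  set δ : ℝ := ε / 4 with hδ
  have hδ0 : 0 < δ := by positivity
  obtain ⟨CB, hCB1, hclass⟩ := hcl c δ hc hδ0
  have hCB0 : 0 < CB := by linarith
  obtain ⟨C0, hC0, hbad⟩ := bad_points_w n hodd (ε := n * ε) (by positivity)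
  set δ₁ : ℝ := δ / (2 * n) with hδ₁
  have hδ₁0 : 0 < δ₁ := by positivity
  obtain ⟨K1, hK1, hK1'⟩ := exists_K1 hδ₁0
  -- the constants
  set A0 : ℝ := 2 * (2 * c) ^ n with hA0
  set A1 : ℝ := 4 * (2 * c) ^ (n - 1) with hA1
  set A2 : ℝ := 2 * (2 * c) ^ (n * n) with hA2
  have h2c : 1 ≤ 2 * c := by linarith
  have hA0' : 2 ≤ A0 := by
    have := one_le_pow₀ h2c (n := n)
    rw [hA0]; linarith
  have hA1' : 4 ≤ A1 := by
    have := one_le_pow₀ h2c (n := n - 1)
    rw [hA1]; linarith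
  have hA2' : 2 ≤ A2 := by
    have := one_le_pow₀ h2c (n := n * n)
    rw [hA2]; linarith
  have hA00 : 0 < A0 := by linarith
  have hA10 : 0 < A1 := by linarith
  have hA20 : 0 < A2 := by linarith
  have hgap : 0 < 1 - 5 * s / 2 := by linarith
  set ℓ₀ : ℝ := log (2 * A0 ^ 3 * A1) / (1 - 5 * s / 2) with hℓ₀
  set B1 : ℝ := C0 * c ^ (n * ε) with hB1
  set B2 : ℝ := (K1 * A2 ^ (2 * δ₁)) * A0 ^ 5 * (4 * c * A1 * CB) * CB with hB2
  set B3 : ℝ := 2 * c * exp ℓ₀ + 1 with hB3
  have hB1' : 0 < B1 := by positivity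
  have hB2' : 0 < B2 := by positivity
  have hB3' : 0 < B3 := by positivity
  refine ⟨B1 + B2 + B3, by positivity, fun K _ _ hK θ hθn hroots => ?_⟩
  set D : ℝ := |(discr K : ℝ)| with hD
  have hD1 : 1 ≤ D := by
    have h1 : (1 : ℤ) ≤ |discr K| := Int.one_le_abs (NumberField.discr_ne_zero K)
    have h2 : ((1 : ℤ) : ℝ) ≤ ((|discr K| : ℤ) : ℝ) := by exact_mod_cast h1
    rw [hD]
    push_cast at h2
    exact h2
  have hD0 : 0 < D := by linarith
  set X : ℝ := D ^ ((1 : ℝ) / n) with hX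
  have hX1 : 1 ≤ X := one_le_rpow hD1 (by positivity)
  have hX0 : 0 < X := by linarith
  set h : ℕ := Nat.card {x : ClassGroup (𝓞 K) // x ^ 2 = 1} with hh
  have hh1 : 1 ≤ h := by
    have : Nonempty {x : ClassGroup (𝓞 K) // x ^ 2 = 1} := ⟨⟨1, one_pow 2⟩⟩
    exact Nat.card_pos
  have hh1' : (1 : ℝ) ≤ h := by exact_mod_cast hh1
  have hh0 : (0 : ℝ) < h := by linarith
  set f0 := minpoly ℤ θ with hf0
  have hint : IsIntegral ℤ θ := NumberField.RingOfIntegers.isIntegral θ
  have hmon : f0.Monic := minpoly.monic hint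
  have hirr : Irreducible f0 := minpoly.irreducible hint
  have hρ1 : 1 ≤ c * X := one_le_mul_of_one_le_of_one_le hc hX1
  have hρ0 : 0 < c * X := by positivity
  set S : Set (ℤ × ℤ) := {p : ℤ × ℤ | |(p.1 : ℝ)| ≤ c * X ∧ 0 < p.2 ∧ p.2 ^ 2 = f0.eval p.1}
    with hS
  have hinj : Set.InjOn Prod.fst S := by
    rintro ⟨x, y⟩ ⟨-, h1, h2⟩ ⟨x', y'⟩ ⟨-, h1', h2'⟩ hxx
    simp only at h1 h2 h1' h2' hxx
    subst hxx
    have h4 : y ^ 2 = y' ^ 2 := by rw [h2, h2']
    have h5 : y = y' := by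
      rcases sq_eq_sq_iff_eq_or_eq_neg.1 h4 with h6 | h6
      · exact h6
      · omega
    rw [h5]
  have hSfin : S.Finite := by
    apply Set.Finite.of_finite_image (f := Prod.fst) _ hinj
    apply (Set.finite_Icc ⌈-(c * X)⌉ ⌊c * X⌋).subset
    rintro _ ⟨p, ⟨hp, -, -⟩, rfl⟩
    rw [abs_le] at hp
    exact ⟨Int.ceil_le.mpr hp.1, Int.le_floor.mpr hp.2⟩
  set Lm : ℝ := X ^ (((n : ℝ) - s) / 2) with hLm
  have hLm1 : 1 ≤ Lm := one_le_rpow hX1 (by linarith)
  have hLm0 : 0 < Lm := by linarith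
  have hpos1 : 0 ≤ (h : ℝ) ^ (σ + ε) * D ^ (7 * s / (2 * n) + ε) := by positivity
  have hpos2 : 0 ≤ D ^ ((1 - s / n) / (2 * n) + ε) := by positivity
  -- finset of all points
  set T : Finset (ℤ × ℤ) := hSfin.toFinset with hT
  have hTS : ∀ p ∈ T, p ∈ S := fun p hp => hSfin.mem_toFinset.1 hp
  have hcard : S.ncard = T.card := Set.ncard_eq_toFinset_card S hSfin
  rw [hcard]
  set isBad : ℤ × ℤ → Prop := fun p => 2 * (p.2 : ℝ) ≤ Lm * (wp f0 p : ℝ) with hisBad
  set Tb : Finset (ℤ × ℤ) := T.filter isBad with hTb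
  set Tg : Finset (ℤ × ℤ) := T.filter (fun p => ¬ isBad p) with hTg
  have hsplit : (T.card : ℝ) = Tb.card + Tg.card := by
    have := Finset.card_filter_add_card_filter_not (s := T) isBad
    exact_mod_cast this.symm
  -- bad points
  have hsep : (f0.map (Int.castRingHom ℚ)).Separable := by
    have : Irreducible (f0.map (Int.castRingHom ℚ)) :=
      (Polynomial.Monic.irreducible_iff_irreducible_map_fraction_map (K := ℚ) hmon).1 hirr
    exact this.separable
  have hb : (Tb.card : ℝ) ≤ B1 * D ^ ((1 - s / n) / (2 * n) + ε) := by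
    have h1 : Tb.card = (Tb.image Prod.fst).card := by
      rw [Finset.card_image_of_injOn]
      exact fun a ha b hb hab => hinj (hTS a (Finset.mem_filter.1 ha).1)
        (hTS b (Finset.mem_filter.1 hb).1) hab
    have h2 := hbad f0 hmon hθn hsep (c * X) Lm hρ1 hLm1 hroots (Tb.image Prod.fst) (by
      intro x hx
      obtain ⟨p, hp, rfl⟩ := Finset.mem_image.1 hx
      obtain ⟨hp1, hp2⟩ := Finset.mem_filter.1 hp
      obtain ⟨h5, h6, h7⟩ := hTS p hp1
      exact ⟨h5, p.2, h6, h7, hp2⟩)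
    rw [← h1] at h2
    refine h2.trans (le_of_eq ?_)
    rw [mul_rpow hc0.le hX0.le, hLm, ← rpow_mul hX0.le, hX, ← rpow_mul hD0.le, ← rpow_mul hD0.le,
      hB1]
    have e1 : D ^ ((1 - s / n) / (2 * n) + ε) =
        D ^ (1 / (n : ℝ) * (n * ε)) * D ^ (1 / (n : ℝ) * ((n - s) / 2 * (1 / n))) := by
      rw [← rpow_add hD0]
      congr 1
      field_simp
      ring
    rw [e1]
    ring
  rcases le_or_gt ℓ₀ (log X) with hbig | hsmall
  · -- good points
    set r : ℝ := X ^ (1 - s) / A1 with hr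
    set W0 : ℝ := A0 * X ^ (s / 2) with hW0
    set Tt : ℝ := CB * D ^ δ * (h : ℝ) ^ δ with hTt
    have hr0 : 0 < r := by positivity
    have hTt0 : 0 < Tt := by positivity
    have hW00 : 0 ≤ W0 := by positivity
    have hgoodmem : ∀ p ∈ Tg, p ∈ S ∧ Lm * (wp f0 p : ℝ) < 2 * (p.2 : ℝ) := by
      intro p hp
      obtain ⟨hp1, hp2⟩ := Finset.mem_filter.1 hp
      exact ⟨hTS p hp1, not_le.1 hp2⟩
    have hwp0 : ∀ p ∈ Tg, wp f0 p ≠ 0 := by
      intro p hp
      have := (hgoodmem p hp).1.2.1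
      exact wpart_ne_zero _ (by omega)
    have hwp1 : ∀ p ∈ Tg, (1 : ℝ) ≤ wp f0 p := by
      intro p hp
      exact_mod_cast Nat.one_le_iff_ne_zero.2 (hwp0 p hp)
    -- size of y
    have hysq : ∀ p ∈ Tg, (p.2 : ℝ) ^ 2 ≤ (2 * (c * X)) ^ n := by
      intro p hp
      obtain ⟨⟨h5, h6, h7⟩, -⟩ := hgoodmem p hp
      have h8 := Pool.Agent.Lib.MP_695920_nt.TT.abs_eval_le f0 hmon hθn hρ1 hroots h5
      rw [← h7] at h8
      push_cast at h8
      rw [abs_of_nonneg (by positivity)] at h8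
      exact h8
    have hwle : ∀ p ∈ Tg, (wp f0 p : ℝ) ≤ W0 := by
      intro p hp
      obtain ⟨⟨h5, h6, h7⟩, h8⟩ := hgoodmem p hp
      have h9 := hysq p hp
      have hy0 : (0 : ℝ) < p.2 := by exact_mod_cast h6
      have h10 : (Lm * (wp f0 p : ℝ)) ^ 2 ≤ (Lm * W0) ^ 2 := by
        calc (Lm * (wp f0 p : ℝ)) ^ 2 ≤ (2 * (p.2 : ℝ)) ^ 2 :=
              pow_le_pow_left₀ (by positivity) h8.le 2
          _ = 4 * (p.2 : ℝ) ^ 2 := by ring
          _ ≤ 4 * (2 * (c * X)) ^ n := by linarith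
          _ = 4 * ((2 * c) ^ n * X ^ (n : ℝ)) := by
              rw [← mul_assoc, mul_pow, rpow_natCast]
          _ ≤ 4 * ((2 * c) ^ n * X ^ (n : ℝ)) * (2 * c) ^ n := by
              apply le_mul_of_one_le_right (by positivity) (one_le_pow₀ h2c)
          _ = (Lm * W0) ^ 2 := by
              have e1 : Lm ^ 2 * (X ^ (s / 2)) ^ 2 = X ^ (n : ℝ) := by
                rw [hLm, ← rpow_natCast (X ^ (((n : ℝ) - s) / 2)), ← rpow_natCast (X ^ (s / 2)),
                  ← rpow_mul hX0.le, ← rpow_mul hX0.le, ← rpow_add hX0]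
                congr 1
                push_cast
                ring
              rw [hW0, hA0, ← e1]
              ring
      have h11 := sq_le_sq.1 h10
      rw [abs_of_nonneg (by positivity), abs_of_nonneg (by positivity)] at h11
      exact le_of_mul_le_mul_left h11 hLm0
    -- number of values of w
    have hM : ((Tg.image (wp f0)).card : ℝ) ≤ K1 * A2 ^ (2 * δ₁) * D ^ δ := by
      set V : ℝ := A2 * X ^ ((n * n : ℕ) : ℝ) with hV
      have hV0 : 0 < V := by positivity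
      have hXn : ∀ k : ℕ, k ≤ n * n → X ^ (k : ℝ) ≤ X ^ ((n * n : ℕ) : ℝ) := by
        intro k hk
        exact rpow_le_rpow_of_exponent_le hX1 (by exact_mod_cast hk)
      have h1 := card_w_le hδ₁0 hK1' (two_discr_natAbs_ne_zero f0 hmon hirr) hW00
        (Tg.image (wp f0)) (by
          intro k hk
          obtain ⟨p, hp, rfl⟩ := Finset.mem_image.1 hk
          refine ⟨hwp0 p hp, hwle p hp, fun q hq hqd => ?_⟩
          obtain ⟨e1, e2⟩ := prime_dvd_of_dvd_wpart hq hqd
          exact Int.natCast_dvd.1 (dvd_two_discr hmon (by omega) hq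
            (hgoodmem p hp).1.2.2 e1 e2))
      have h2 : W0 ≤ V := by
        rw [hW0, hV]
        have h4 : A0 ≤ A2 := by
          rw [hA0, hA2]
          have h5 : (2 * c) ^ n ≤ (2 * c) ^ (n * n) :=
            pow_le_pow_right₀ h2c (Nat.le_mul_of_pos_left n (by omega))
          linarith
        have h5 : X ^ (s / 2) ≤ X ^ ((n * n : ℕ) : ℝ) := by
          apply rpow_le_rpow_of_exponent_le hX1
          push_cast
          nlinarith
        exact mul_le_mul h4 h5 (by positivity) hA20.le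
      have h3 : (((2 * f0.discr).natAbs : ℕ) : ℝ) ≤ V := by
        have h8 := discr_bound f0 hmon (by omega) (by positivity : 0 ≤ c * X) hroots
        rw [hθn] at h8
        have h9 : (((2 * f0.discr).natAbs : ℕ) : ℝ) = 2 * |(f0.discr : ℝ)| := by
          rw [Nat.cast_natAbs]
          push_cast
          rw [abs_mul]
          simp
        rw [h9, hV, hA2]
        have h10 : ((2 * (c * X)) ^ (n - 1)) ^ n ≤ (2 * c) ^ (n * n) * X ^ ((n * n : ℕ) : ℝ) := by
          rw [rpow_natCast, ← mul_pow, ← pow_mul]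
          have e : 2 * (c * X) = 2 * c * X := by ring
          rw [e]
          apply pow_le_pow_right₀ (by nlinarith)
          exact Nat.mul_le_mul_right n (Nat.sub_le n 1)
        nlinarith
      have h4 : W0 ^ δ₁ * (K1 * (((2 * f0.discr).natAbs : ℕ) : ℝ) ^ δ₁) ≤
          V ^ δ₁ * (K1 * V ^ δ₁) := by
        apply mul_le_mul (rpow_le_rpow hW00 h2 hδ₁0.le) _ (by positivity) (by positivity)
        exact mul_le_mul_of_nonneg_left (rpow_le_rpow (Nat.cast_nonneg _) h3 hδ₁0.le) hK1.le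
      refine (h1.trans h4).trans (le_of_eq ?_)
      have h5 : V ^ δ₁ * (K1 * V ^ δ₁) = K1 * V ^ (2 * δ₁) := by
        rw [two_mul, rpow_add hV0]
        ring
      rw [h5, hV, mul_rpow hA20.le (by positivity), ← mul_assoc]
      congr 1
      rw [hX, ← rpow_mul hD0.le, ← rpow_mul hD0.le]
      congr 1
      rw [hδ₁]
      push_cast
      field_simp
    -- one class
    have hone : ∀ F ⊆ Tg, ∀ c0 ∈ F, (∀ p ∈ F, wp f0 p = wp f0 c0 ∧
        (wp f0 c0 : ℤ) ^ 3 ∣ p.1 - c0.1 ∧ (wp f0 c0 : ℤ) ^ 2 ∣ p.2 - c0.2 ∧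
        |(p.1 : ℝ) - c0.1| ≤ r / Tt) → (F.card : ℝ) ≤ CB * (h : ℝ) ^ σ * D ^ δ := by
      intro F hF c0 hc0F hFc
      let e := F.equivFin
      have hmemF : ∀ i, ((e.symm i : F) : ℤ × ℤ) ∈ F := fun i => (e.symm i).2
      have hmem : ∀ i, ((e.symm i : F) : ℤ × ℤ) ∈ S := fun i => (hgoodmem _ (hF (hmemF i))).1
      let P : Pts (Fin F.card) :=
        { f0 := f0
          monic := hmon
          odd := by rw [hθn]; exact hodd
          irr := hirr
          three := by rw [hθn]; exact h3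
          x := fun i => ((e.symm i : F) : ℤ × ℤ).1
          y := fun i => ((e.symm i : F) : ℤ × ℤ).2
          inj := fun i j hij => e.symm.injective (Subtype.ext (hinj (hmem i) (hmem j) hij))
          pos := fun i => (hmem i).2.1
          eq := fun i => (hmem i).2.2 }
      let i0 : Fin F.card := e ⟨c0, hc0F⟩
      have hi0 : ((e.symm i0 : F) : ℤ × ℤ) = c0 := by simp [i0]
      have hx0 : P.x i0 = c0.1 := congrArg Prod.fst hi0
      have hy0 : P.y i0 = c0.2 := congrArg Prod.snd hi0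
      let Q : ClassData P := classData P i0 (wp f0 c0) (fun i => (hFc _ (hmemF i)).1)
        (fun i => by rw [hx0]; exact (hFc _ (hmemF i)).2.1)
        (fun i => by rw [hy0]; exact (hFc _ (hmemF i)).2.2.1)
      have hQw : Q.w = wp f0 c0 := rfl
      have hQc : Q.c = i0 := rfl
      have hc0g : c0 ∈ Tg := hF hc0F
      refine hclass K hK θ F.card P Q r rfl hθn hroots (fun i => (hmem i).1) ?_ ?_ ?_ ?_
      · intro i
        have h1 := (hgoodmem _ (hF (hmemF i))).2
        rw [(hFc _ (hmemF i)).1] at h1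
        exact h1.le
      · intro z hz
        rw [hQc, hx0]
        obtain ⟨⟨h5, h6, h7⟩, h8⟩ := hgoodmem c0 hc0g
        have h9 := eval_le_dist f0 hmon hθn hρ1 hroots h5 hz
        rw [← h7] at h9
        push_cast at h9
        rw [abs_of_nonneg (by positivity)] at h9
        have h10 : X ^ ((n : ℝ) - s) / 4 ≤ (c0.2 : ℝ) ^ 2 := by
          have h11 : Lm ≤ 2 * (c0.2 : ℝ) := by
            have h12 := mul_le_mul_of_nonneg_left (hwp1 c0 hc0g) hLm0.le
            linarith
          have h13 := pow_le_pow_left₀ hLm0.le h11 2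
          have h14 : Lm ^ 2 = X ^ ((n : ℝ) - s) := by
            rw [hLm, ← rpow_natCast, ← rpow_mul hX0.le]
            congr 1
            push_cast
            ring
          rw [h14] at h13
          linarith
        have h15 : X ^ ((n : ℝ) - s) = X ^ (1 - s) * X ^ (n - 1) := by
          rw [← rpow_natCast X (n - 1), ← rpow_add hX0]
          congr 1
          rw [Nat.cast_sub (by omega)]
          push_cast
          ring
        have h16 : (2 * (c * X)) ^ (n - 1) = (2 * c) ^ (n - 1) * X ^ (n - 1) := by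
          rw [← mul_assoc, mul_pow]
        rw [h15] at h10
        rw [h16] at h9
        have h17 : X ^ (1 - s) * X ^ (n - 1) / 4 ≤
            ‖(c0.1 : ℂ) - z‖ * ((2 * c) ^ (n - 1) * X ^ (n - 1)) := h10.trans h9
        have hXn1 : 0 < X ^ (n - 1) := by positivity
        rw [hr, div_le_iff₀ hA10, hA1]
        have h18 : X ^ (1 - s) * X ^ (n - 1) ≤
            (‖(c0.1 : ℂ) - z‖ * (4 * (2 * c) ^ (n - 1))) * X ^ (n - 1) := by
          linarith
        exact le_of_mul_le_mul_right h18 hXn1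
      · rw [hQw]
        have h1 := hwle c0 hc0g
        have h2 : (wp f0 c0 : ℝ) ^ 3 ≤ W0 ^ 3 := pow_le_pow_left₀ (Nat.cast_nonneg _) h1 3
        have h3' : 2 * A0 ^ 3 * A1 ≤ X ^ (1 - 5 * s / 2) := by
          rw [hℓ₀, div_le_iff₀ hgap] at hbig
          have h4 := exp_le_exp.2 hbig
          rw [exp_log (by positivity), mul_comm (log X), mul_comm (1 - 5 * s / 2),
            ← rpow_def_of_pos hX0] at h4
          exact h4
        have h5 : W0 ^ 3 = A0 ^ 3 * X ^ (3 * s / 2) := by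
          rw [hW0, mul_pow, ← rpow_natCast (X ^ (s / 2)), ← rpow_mul hX0.le]
          congr 2
          push_cast
          ring
        have h6 : X ^ (1 - s) = X ^ (1 - 5 * s / 2) * X ^ (3 * s / 2) := by
          rw [← rpow_add hX0]
          congr 1
          ring
        rw [hr, le_div_iff₀ hA10, h6]
        calc 2 * (wp f0 c0 : ℝ) ^ 3 * A1 ≤ 2 * (A0 ^ 3 * X ^ (3 * s / 2)) * A1 := by
              rw [← h5]
              exact mul_le_mul_of_nonneg_right (by linarith) hA10.le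
          _ = (2 * A0 ^ 3 * A1) * X ^ (3 * s / 2) := by ring
          _ ≤ _ := mul_le_mul_of_nonneg_right h3' (by positivity)
      · intro i
        rw [hQc, hx0]
        have h1 := (hFc _ (hmemF i)).2.2.2
        rw [le_div_iff₀ hTt0] at h1
        exact h1
    have hg0 : (Tg.card : ℝ) ≤ (K1 * A2 ^ (2 * δ₁) * D ^ δ) * W0 ^ 5 *
        (2 * (c * X) / (r / Tt) + 2) * (CB * (h : ℝ) ^ σ * D ^ δ) :=
      card_le_classes f0 (by positivity) hρ0.le hW00 (by positivity)
        (fun p hp => (hgoodmem p hp).1.1) hwp0 hwle hM hone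
    have hg : (Tg.card : ℝ) ≤ B2 * ((h : ℝ) ^ (σ + ε) * D ^ (7 * s / (2 * n) + ε)) := by
      refine hg0.trans ?_
      have h1 : 2 * (c * X) / (r / Tt) = 2 * c * A1 * X ^ s * Tt := by
        have h2 : X = X ^ (1 - s) * X ^ s := by
          rw [← rpow_add hX0]
          simp
        have h3' : X ^ (1 - s) ≠ 0 := by positivity
        rw [hr]
        nth_rewrite 1 [h2]
        field_simp
      have hDδ : 1 ≤ D ^ δ := one_le_rpow hD1 hδ0.le
      have hhδ : 1 ≤ (h : ℝ) ^ δ := one_le_rpow hh1' hδ0.le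
      have hTt1 : 1 ≤ Tt := by
        rw [hTt]
        exact one_le_mul_of_one_le_of_one_le (one_le_mul_of_one_le_of_one_le hCB1 hDδ) hhδ
      have hXs : 1 ≤ X ^ s := one_le_rpow hX1 hs0.le
      have h2 : 2 * (c * X) / (r / Tt) + 2 ≤ 4 * c * A1 * X ^ s * Tt := by
        rw [h1]
        have h4 : 1 ≤ c * A1 * X ^ s * Tt :=
          one_le_mul_of_one_le_of_one_le (one_le_mul_of_one_le_of_one_le
            (one_le_mul_of_one_le_of_one_le hc (by linarith)) hXs) hTt1
        linarith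
      have h5 : W0 ^ 5 = A0 ^ 5 * X ^ (5 * s / 2) := by
        rw [hW0, mul_pow, ← rpow_natCast (X ^ (s / 2)), ← rpow_mul hX0.le]
        congr 2
        push_cast
        ring
      have h6 : X ^ (5 * s / 2) * X ^ s = D ^ (7 * s / (2 * n)) := by
        rw [← rpow_add hX0, hX, ← rpow_mul hD0.le]
        congr 1
        field_simp
        ring
      calc (K1 * A2 ^ (2 * δ₁) * D ^ δ) * W0 ^ 5 *
          (2 * (c * X) / (r / Tt) + 2) * (CB * (h : ℝ) ^ σ * D ^ δ)
          ≤ (K1 * A2 ^ (2 * δ₁) * D ^ δ) * W0 ^ 5 *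
          (4 * c * A1 * X ^ s * Tt) * (CB * (h : ℝ) ^ σ * D ^ δ) := by
            gcongr
        _ = B2 * (((h : ℝ) ^ σ * (h : ℝ) ^ δ) *
              ((X ^ (5 * s / 2) * X ^ s) * (D ^ δ * D ^ δ * D ^ δ))) := by
            rw [h5, hTt, hB2]
            ring
        _ ≤ B2 * ((h : ℝ) ^ (σ + ε) * D ^ (7 * s / (2 * n) + ε)) := by
            apply mul_le_mul_of_nonneg_left _ hB2'.le
            rw [h6, ← rpow_add hD0, ← rpow_add hD0, ← rpow_add hD0, ← rpow_add hh0]
            apply mul_le_mul _ _ (by positivity) (by positivity)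
            · apply rpow_le_rpow_of_exponent_le hh1'
              rw [hδ]; linarith
            · apply rpow_le_rpow_of_exponent_le hD1
              rw [hδ]; linarith
    rw [hsplit]
    nlinarith
  · -- bounded discriminant
    have hXb : X ≤ exp ℓ₀ := by
      rw [← exp_log hX0]
      exact exp_le_exp.2 hsmall.le
    have h1 : (T.card : ℝ) ≤ B3 := by
      have h2 : T.card = (T.image Prod.fst).card := by
        rw [Finset.card_image_of_injOn]
        exact fun a ha b hb hab => hinj (hTS a ha) (hTS b hb) hab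
      have h3 : T.image Prod.fst ⊆ Finset.Icc ⌈-(c * X)⌉ ⌊c * X⌋ := by
        intro x hx
        obtain ⟨p, hp, rfl⟩ := Finset.mem_image.1 hx
        obtain ⟨h5, -, -⟩ := hTS p hp
        rw [abs_le] at h5
        exact Finset.mem_Icc.2 ⟨Int.ceil_le.mpr h5.1, Int.le_floor.mpr h5.2⟩
      have h4 := Finset.card_le_card h3
      rw [← h2, Int.card_Icc] at h4
      have h5 : ((⌊c * X⌋ + 1 - ⌈-(c * X)⌉).toNat : ℝ) ≤ 2 * (c * X) + 1 := by
        have h6 : (0 : ℤ) ≤ ⌊c * X⌋ + 1 - ⌈-(c * X)⌉ := by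
          rw [Int.ceil_neg]
          have : (0 : ℤ) ≤ ⌊c * X⌋ := Int.floor_nonneg.2 (by positivity)
          omega
        have h7 : (((⌊c * X⌋ + 1 - ⌈-(c * X)⌉).toNat : ℤ) : ℝ) =
            ((⌊c * X⌋ + 1 - ⌈-(c * X)⌉ : ℤ) : ℝ) := by
          rw [Int.toNat_of_nonneg h6]
        rw [Int.cast_natCast] at h7
        rw [h7, Int.ceil_neg]
        push_cast
        have := Int.floor_le (c * X)
        linarith
      have h6 : (T.card : ℝ) ≤ ((⌊c * X⌋ + 1 - ⌈-(c * X)⌉).toNat : ℝ) := by exact_mod_cast h4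
      have h7 : c * X ≤ c * exp ℓ₀ := mul_le_mul_of_nonneg_left hXb hc0.le
      rw [hB3]
      linarith
    have h2 : 1 ≤ D ^ ((1 - s / n) / (2 * n) + ε) := by
      apply one_le_rpow hD1
      have : 0 < (1 - s / n) / (2 * n) := by
        apply div_pos _ (by positivity)
        rw [sub_pos, div_lt_one hn0]
        linarith
      linarith
    have h3 : B3 * 1 ≤ B3 * (D ^ ((1 - s / n) / (2 * n) + ε) +
        (h : ℝ) ^ (σ + ε) * D ^ (7 * s / (2 * n) + ε)) :=
      mul_le_mul_of_nonneg_left (by linarith) hB3'.le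
    have h4 : B3 * (D ^ ((1 - s / n) / (2 * n) + ε) +
        (h : ℝ) ^ (σ + ε) * D ^ (7 * s / (2 * n) + ε)) ≤
        (B1 + B2 + B3) * (D ^ ((1 - s / n) / (2 * n) + ε) +
          (h : ℝ) ^ (σ + ε) * D ^ (7 * s / (2 * n) + ε)) :=
      mul_le_mul_of_nonneg_right (by linarith) (by positivity)
    linarith

end Pool.TT.Five
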