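import Pool.Agent.Lib.MP_695920_nt.TT.Five.BadW

set_option autoImplicit false

/-!
TEAM TWOTORSION, `n = 5`: distance to the roots, and the number of classes.
-/

namespace Pool.TT.Five

open Polynomial Pool.Agent.Lib.MP_695920_nt.TT

/-- a value of `f` is small near a root -/
theorem eval_le_dist {n : ℕ} (f : ℤ[X]) (hf : f.Monic) (hfn : f.natDegree = n)
    {R : ℝ} (hR : 1 ≤ R) (hroots : ∀ z : ℂ, (f.map (Int.castRingHom ℂ)).IsRoot z → ‖z‖ ≤ R)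
    {x : ℤ} (hx : |(x : ℝ)| ≤ R) {z : ℂ} (hz : (f.map (Int.castRingHom ℂ)).IsRoot z) :
    |((f.eval x : ℤ) : ℝ)| ≤ ‖(x : ℂ) - z‖ * (2 * R) ^ (n - 1) := by
  classical
  have hzr : z ∈ (f.map (Int.castRingHom ℂ)).roots := (mem_roots (hf.map _).ne_zero).2 hz
  have hcard : Multiset.card (f.map (Int.castRingHom ℂ)).roots = n := by
    rw [← (IsAlgClosed.splits (f.map (Int.castRingHom ℂ))).natDegree_eq_card_roots,
      hf.natDegree_map, hfn]
  rw [← norm_int, eval_eq_prod f hf x]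
  have key : ∀ s : Multiset ℂ, (∀ z ∈ s, ‖z‖ ≤ R) →
      ‖(s.map fun z => (x : ℂ) - z).prod‖ ≤ (2 * R) ^ Multiset.card s := by
    intro s
    induction s using Multiset.induction_on with
    | empty => intro _; simp
    | cons a s ih =>
      intro hs
      rw [Multiset.map_cons, Multiset.prod_cons, norm_mul, Multiset.card_cons, pow_succ, mul_comm]
      apply mul_le_mul (ih fun z hz => hs z (Multiset.mem_cons_of_mem hz)) _ (norm_nonneg _)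
        (by positivity)
      calc ‖(x : ℂ) - a‖ ≤ ‖(x : ℂ)‖ + ‖a‖ := norm_sub_le _ _
        _ ≤ R + R := add_le_add (by rw [norm_int]; exact hx) (hs a (Multiset.mem_cons_self a s))
        _ = 2 * R := by ring
  have h1 := key ((f.map (Int.castRingHom ℂ)).roots.erase z) (fun z' hz' => hroots z'
    ((mem_roots (hf.map _).ne_zero).1 (Multiset.mem_of_mem_erase hz')))
  rw [Multiset.card_erase_of_mem hzr, hcard] at h1
  rw [← Multiset.cons_erase hzr, Multiset.map_cons, Multiset.prod_cons, norm_mul]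
  exact mul_le_mul_of_nonneg_left h1 (norm_nonneg _)

/-- the part `w` for a point -/
noncomputable def wp (f : ℤ[X]) (p : ℤ × ℤ) : ℕ := wpart (2 * p.2) (f.derivative.eval p.1)

theorem card_le_classes (f : ℤ[X]) {T : Finset (ℤ × ℤ)} {ρ Y W0 B M : ℝ} (hY : 0 < Y)
    (hρ : 0 ≤ ρ) (hW0 : 0 ≤ W0) (hB : 0 ≤ B) (hx : ∀ p ∈ T, |(p.1 : ℝ)| ≤ ρ)
    (hw0 : ∀ p ∈ T, wp f p ≠ 0)
    (hw : ∀ p ∈ T, (wp f p : ℝ) ≤ W0) (hM : ((T.image (wp f)).card : ℝ) ≤ M)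
    (hcl : ∀ F ⊆ T, ∀ c ∈ F, (∀ p ∈ F, wp f p = wp f c ∧ (wp f c : ℤ) ^ 3 ∣ p.1 - c.1 ∧
      (wp f c : ℤ) ^ 2 ∣ p.2 - c.2 ∧ |(p.1 : ℝ) - c.1| ≤ Y) → (F.card : ℝ) ≤ B) :
    (T.card : ℝ) ≤ M * W0 ^ 5 * (2 * ρ / Y + 2) * B := by
  classical
  let key : ℤ × ℤ → ℕ × ℤ × ℤ × ℤ := fun p =>
    (wp f p, p.1 % (wp f p : ℤ) ^ 3, p.2 % (wp f p : ℤ) ^ 2, ⌊(p.1 : ℝ) / Y⌋)
  set W : ℕ := ⌊W0⌋₊ with hW
  have hWle : (W : ℝ) ≤ W0 := Nat.floor_le hW0
  have hwW : ∀ p ∈ T, wp f p ≤ W := fun p hp => Nat.le_floor (hw p hp)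
  set Big : Finset (ℕ × ℤ × ℤ × ℤ) := (T.image (wp f)) ×ˢ ((Finset.Ico (0 : ℤ) ((W : ℤ) ^ 3)) ×ˢ
    ((Finset.Ico (0 : ℤ) ((W : ℤ) ^ 2)) ×ˢ (Finset.Icc ⌊-ρ / Y⌋ ⌊ρ / Y⌋))) with hBig
  have hsub : T.image key ⊆ Big := by
    intro k hk
    obtain ⟨p, hp, rfl⟩ := Finset.mem_image.1 hk
    have hwz : (0 : ℤ) < wp f p := by exact_mod_cast Nat.pos_of_ne_zero (hw0 p hp)
    have hwz' : (wp f p : ℤ) ≤ W := by exact_mod_cast hwW p hp
    rw [hBig, Finset.mem_product, Finset.mem_product, Finset.mem_product, Finset.mem_Ico,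
      Finset.mem_Ico, Finset.mem_Icc]
    refine ⟨Finset.mem_image_of_mem _ hp, ⟨Int.emod_nonneg _ (pow_ne_zero _ hwz.ne'), ?_⟩,
      ⟨Int.emod_nonneg _ (pow_ne_zero _ hwz.ne'), ?_⟩, ?_, ?_⟩
    · exact lt_of_lt_of_le (Int.emod_lt_of_pos _ (by positivity))
        (pow_le_pow_left₀ hwz.le hwz' 3)
    · exact lt_of_lt_of_le (Int.emod_lt_of_pos _ (by positivity))
        (pow_le_pow_left₀ hwz.le hwz' 2)
    · have h1 := (abs_le.1 (hx p hp)).1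
      exact Int.floor_le_floor (div_le_div_of_nonneg_right h1 hY.le)
    · have h1 := (abs_le.1 (hx p hp)).2
      exact Int.floor_le_floor (div_le_div_of_nonneg_right h1 hY.le)
  have hcardBig : (Big.card : ℝ) ≤ M * W0 ^ 5 * (2 * ρ / Y + 2) := by
    rw [hBig, Finset.card_product, Finset.card_product, Finset.card_product, Int.card_Ico,
      Int.card_Ico, Int.card_Icc]
    have h1 : (((W : ℤ) ^ 3 - 0).toNat : ℝ) = (W : ℝ) ^ 3 := by
      have : ((W : ℤ) ^ 3 - 0).toNat = W ^ 3 := by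
        rw [sub_zero]
        exact_mod_cast Int.toNat_natCast (W ^ 3)
      rw [this]
      push_cast
      rfl
    have h2 : (((W : ℤ) ^ 2 - 0).toNat : ℝ) = (W : ℝ) ^ 2 := by
      have : ((W : ℤ) ^ 2 - 0).toNat = W ^ 2 := by
        rw [sub_zero]
        exact_mod_cast Int.toNat_natCast (W ^ 2)
      rw [this]
      push_cast
      rfl
    have h3 : (((⌊ρ / Y⌋ + 1 - ⌊-ρ / Y⌋).toNat : ℕ) : ℝ) ≤ 2 * ρ / Y + 2 := by
      have h4 : (0 : ℤ) ≤ ⌊ρ / Y⌋ + 1 - ⌊-ρ / Y⌋ := by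
        have h5 : ⌊-ρ / Y⌋ ≤ ⌊ρ / Y⌋ := by
          apply Int.floor_le_floor
          apply div_le_div_of_nonneg_right _ hY.le
          linarith
        omega
      have h6 : (((⌊ρ / Y⌋ + 1 - ⌊-ρ / Y⌋).toNat : ℤ) : ℝ) =
          ((⌊ρ / Y⌋ + 1 - ⌊-ρ / Y⌋ : ℤ) : ℝ) := by rw [Int.toNat_of_nonneg h4]
      rw [Int.cast_natCast] at h6
      rw [h6]
      push_cast
      have h7 := Int.floor_le (ρ / Y)
      have h8 := Int.lt_floor_add_one (-ρ / Y)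
      have h9 : 2 * ρ / Y = ρ / Y - -ρ / Y := by ring
      rw [h9]
      linarith
    push_cast
    rw [h1, h2]
    have h10 : (0 : ℝ) ≤ 2 * ρ / Y + 2 := by positivity
    have h11 : (W : ℝ) ^ 3 ≤ W0 ^ 3 := pow_le_pow_left₀ (Nat.cast_nonneg _) hWle 3
    have h12 : (W : ℝ) ^ 2 ≤ W0 ^ 2 := pow_le_pow_left₀ (Nat.cast_nonneg _) hWle 2
    have hM0 : 0 ≤ M := (Nat.cast_nonneg _).trans hM
    calc ((T.image (wp f)).card : ℝ) * ((W : ℝ) ^ 3 * ((W : ℝ) ^ 2 *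
          (((⌊ρ / Y⌋ + 1 - ⌊-ρ / Y⌋).toNat : ℕ) : ℝ)))
        ≤ M * (W0 ^ 3 * (W0 ^ 2 * (2 * ρ / Y + 2))) := by
          gcongr
      _ = _ := by ring
  have hfib : ∀ k ∈ T.image key, ((T.filter fun p => key p = k).card : ℝ) ≤ B := by
    intro k hk
    obtain ⟨c, hc, hck⟩ := Finset.mem_image.1 hk
    refine hcl _ (Finset.filter_subset _ _) c (Finset.mem_filter.2 ⟨hc, hck⟩) ?_
    intro p hp
    obtain ⟨hp1, hp2⟩ := Finset.mem_filter.1 hp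
    have h1 : key p = key c := hp2.trans hck.symm
    have h2 : wp f p = wp f c := congrArg Prod.fst h1
    have h3 : p.1 % (wp f p : ℤ) ^ 3 = c.1 % (wp f c : ℤ) ^ 3 :=
      congrArg (fun k => k.2.1) h1
    have h4 : p.2 % (wp f p : ℤ) ^ 2 = c.2 % (wp f c : ℤ) ^ 2 :=
      congrArg (fun k => k.2.2.1) h1
    have h5 : ⌊(p.1 : ℝ) / Y⌋ = ⌊(c.1 : ℝ) / Y⌋ := congrArg (fun k => k.2.2.2) h1
    rw [h2] at h3 h4
    refine ⟨h2, Int.ModEq.dvd h3.symm, Int.ModEq.dvd h4.symm, ?_⟩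
    have h6 := Int.abs_sub_lt_one_of_floor_eq_floor h5
    rw [← sub_div, abs_div, abs_of_pos hY, div_lt_one hY] at h6
    exact h6.le
  have hsum : T.card = ∑ k ∈ T.image key, (T.filter fun p => key p = k).card :=
    Finset.card_eq_sum_card_image key T
  calc (T.card : ℝ) = ∑ k ∈ T.image key, ((T.filter fun p => key p = k).card : ℝ) := by
        rw [hsum]
        push_cast
        rfl
    _ ≤ ∑ _k ∈ T.image key, B := Finset.sum_le_sum hfib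
    _ = ((T.image key).card : ℝ) * B := by rw [Finset.sum_const, nsmul_eq_mul]
    _ ≤ (Big.card : ℝ) * B :=
        mul_le_mul_of_nonneg_right (by exact_mod_cast Finset.card_le_card hsub) hB
    _ ≤ _ := mul_le_mul_of_nonneg_right hcardBig hB

end Pool.TT.Five
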